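import Pool.Agent.Lib.MP_dabcc9_gt.Basic

/-! JOB A3a. Algebra of the rotation derivations. -/

open MvPolynomial

namespace Pool.Agent.Lib.MP_dabcc9_gt

noncomputable section

theorem L_apply (i : Fin 3) (a : P) :
    L i a = X (i + 1) * pderiv (i + 2) a - X (i + 2) * pderiv (i + 1) a := by
  simp [L]

theorem L_mul (i : Fin 3) (a b : P) : L i (a * b) = a * L i b + b * L i a := by
  simpa using Derivation.leibniz (L i) a b

theorem L_C (i : Fin 3) (c : ℝ) : L i (C c) = 0 := by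
  rw [L_apply, pderiv_C, pderiv_C, mul_zero, mul_zero, sub_zero]

theorem L_C_mul (i : Fin 3) (c : ℝ) (a : P) : L i (C c * a) = C c * L i a := by
  rw [L_mul, L_C, mul_zero, add_zero]

theorem L_two_mul (i : Fin 3) (a : P) : L i (2 * a) = 2 * L i a := by
  rw [two_mul, two_mul, map_add]

theorem L_X_self (i : Fin 3) : L i (X i) = 0 := by
  rw [L_apply]
  fin_cases i <;> simp [pderiv_X]

theorem L_X_one (i : Fin 3) : L i (X (i + 1)) = - X (i + 2) := by
  rw [L_apply]
  fin_cases i <;> simp [pderiv_X]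

theorem L_X_two (i : Fin 3) : L i (X (i + 2)) = X (i + 1) := by
  rw [L_apply]
  fin_cases i <;> simp [pderiv_X]

/-- `x . (x × grad a) = 0`. -/
theorem sum_X_L (a : P) : ∑ i, (X i : P) * L i a = 0 := by
  simp only [L_apply, Fin.sum_univ_three]
  have h1 : (0 : Fin 3) + 1 = 1 := rfl
  have h2 : (0 : Fin 3) + 2 = 2 := rfl
  have h3 : (1 : Fin 3) + 1 = 2 := rfl
  have h4 : (1 : Fin 3) + 2 = 0 := rfl
  have h5 : (2 : Fin 3) + 1 = 0 := rfl
  have h6 : (2 : Fin 3) + 2 = 1 := rfl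
  rw [h1, h2, h3, h4, h5, h6]
  ring

private theorem AlgA_00 : L 0 (X 0 : P) = 0 := L_X_self 0
private theorem AlgA_11 : L 1 (X 1 : P) = 0 := L_X_self 1
private theorem AlgA_22 : L 2 (X 2 : P) = 0 := L_X_self 2
private theorem AlgA_01 : L 0 (X 1 : P) = - X 2 := L_X_one 0
private theorem AlgA_12 : L 1 (X 2 : P) = - X 0 := L_X_one 1
private theorem AlgA_20 : L 2 (X 0 : P) = - X 1 := L_X_one 2
private theorem AlgA_02 : L 0 (X 2 : P) = X 1 := L_X_two 0
private theorem AlgA_10 : L 1 (X 0 : P) = X 2 := L_X_two 1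
private theorem AlgA_21 : L 2 (X 1 : P) = X 0 := L_X_two 2

/-- `L i` kills `|x|^2`. -/
theorem L_rho (i : Fin 3) : L i (∑ j, (X j : P) * X j) = 0 := by
  rw [Fin.sum_univ_three, map_add, map_add, L_mul, L_mul, L_mul]
  fin_cases i
  · show X 0 * L 0 (X 0 : P) + X 0 * L 0 (X 0 : P) + (X 1 * L 0 (X 1 : P) + X 1 * L 0 (X 1 : P)) +
      (X 2 * L 0 (X 2 : P) + X 2 * L 0 (X 2 : P)) = 0
    rw [AlgA_00, AlgA_01, AlgA_02]
    ring
  · show X 0 * L 1 (X 0 : P) + X 0 * L 1 (X 0 : P) + (X 1 * L 1 (X 1 : P) + X 1 * L 1 (X 1 : P)) +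
      (X 2 * L 1 (X 2 : P) + X 2 * L 1 (X 2 : P)) = 0
    rw [AlgA_10, AlgA_11, AlgA_12]
    ring
  · show X 0 * L 2 (X 0 : P) + X 0 * L 2 (X 0 : P) + (X 1 * L 2 (X 1 : P) + X 1 * L 2 (X 1 : P)) +
      (X 2 * L 2 (X 2 : P) + X 2 * L 2 (X 2 : P)) = 0
    rw [AlgA_20, AlgA_21, AlgA_22]
    ring

private theorem AlgA_ext {D1 D2 : Derivation ℝ P P} (h0 : D1 (X 0) = D2 (X 0)) (h1 : D1 (X 1) = D2 (X 1))
    (h2 : D1 (X 2) = D2 (X 2)) : D1 = D2 := by
  apply MvPolynomial.derivation_ext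
  intro i
  fin_cases i
  · exact h0
  · exact h1
  · exact h2

private theorem AlgA_c0 (a : P) : L 0 (L 1 a) - L 1 (L 0 a) = - L 2 a := by
  have h : ⁅L 0, L 1⁆ = - L 2 := by
    apply AlgA_ext
    · rw [Derivation.commutator_apply, Derivation.neg_apply, AlgA_10, AlgA_00, AlgA_02, AlgA_20, map_zero]
      ring
    · rw [Derivation.commutator_apply, Derivation.neg_apply, AlgA_11, AlgA_01, AlgA_21, map_zero, map_neg, AlgA_12]
      ring
    · rw [Derivation.commutator_apply, Derivation.neg_apply, AlgA_12, AlgA_02, AlgA_22, map_neg, AlgA_00, AlgA_11]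
      ring
  rw [← Derivation.commutator_apply, h, Derivation.neg_apply]

private theorem AlgA_c1 (a : P) : L 1 (L 2 a) - L 2 (L 1 a) = - L 0 a := by
  have h : ⁅L 1, L 2⁆ = - L 0 := by
    apply AlgA_ext
    · rw [Derivation.commutator_apply, Derivation.neg_apply, AlgA_20, AlgA_10, AlgA_00, map_neg, AlgA_11, AlgA_22]
      ring
    · rw [Derivation.commutator_apply, Derivation.neg_apply, AlgA_21, AlgA_11, AlgA_10, AlgA_01, map_zero]
      ring
    · rw [Derivation.commutator_apply, Derivation.neg_apply, AlgA_22, AlgA_12, AlgA_02, map_neg, map_zero, AlgA_20]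
      ring
  rw [← Derivation.commutator_apply, h, Derivation.neg_apply]

private theorem AlgA_c2 (a : P) : L 2 (L 0 a) - L 0 (L 2 a) = - L 1 a := by
  have h : ⁅L 2, L 0⁆ = - L 1 := by
    apply AlgA_ext
    · rw [Derivation.commutator_apply, Derivation.neg_apply, AlgA_00, AlgA_20, AlgA_10, map_neg, map_zero, AlgA_01]
      ring
    · rw [Derivation.commutator_apply, Derivation.neg_apply, AlgA_01, AlgA_21, AlgA_11, map_neg, AlgA_22, AlgA_00]
      ring
    · rw [Derivation.commutator_apply, Derivation.neg_apply, AlgA_02, AlgA_22, AlgA_12, AlgA_21, map_zero]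
      ring
  rw [← Derivation.commutator_apply, h, Derivation.neg_apply]

/-- Commutators. PROOF: both sides are derivations (`⁅L i, L (i+1)⁆` is a `Derivation`), so compare
on the generators `X j` with `MvPolynomial.derivation_ext`; or expand with `pderiv` and
commutation of `pderiv`. -/
theorem L_comm (i : Fin 3) (a : P) :
    L i (L (i + 1) a) - L (i + 1) (L i a) = - L (i + 2) a := by
  fin_cases i
  · exact AlgA_c0 a
  · exact AlgA_c1 a
  · exact AlgA_c2 a

theorem Gam_comm (a b : P) : Gam a b = Gam b a := by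
  unfold Gam
  exact Finset.sum_congr rfl fun i _ => mul_comm _ _

theorem Gam_add_left (a b c : P) : Gam (a + b) c = Gam a c + Gam b c := by
  unfold Gam
  rw [← Finset.sum_add_distrib]
  exact Finset.sum_congr rfl fun i _ => by rw [map_add, add_mul]

theorem Gam_add_right (a b c : P) : Gam a (b + c) = Gam a b + Gam a c := by
  rw [Gam_comm, Gam_add_left, Gam_comm b a, Gam_comm c a]

theorem Gam_sub_left (a b c : P) : Gam (a - b) c = Gam a c - Gam b c := by
  unfold Gam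
  rw [← Finset.sum_sub_distrib]
  exact Finset.sum_congr rfl fun i _ => by rw [map_sub, sub_mul]

theorem Gam_sub_right (a b c : P) : Gam a (b - c) = Gam a b - Gam a c := by
  rw [Gam_comm, Gam_sub_left, Gam_comm b a, Gam_comm c a]

theorem Gam_C_mul_left (r : ℝ) (a b : P) : Gam (C r * a) b = C r * Gam a b := by
  unfold Gam
  rw [Finset.mul_sum]
  exact Finset.sum_congr rfl fun i _ => by rw [L_C_mul, mul_assoc]

theorem Gam_C_mul_right (r : ℝ) (a b : P) : Gam a (C r * b) = C r * Gam a b := by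
  rw [Gam_comm, Gam_C_mul_left, Gam_comm b a]

theorem Gam_C_left (r : ℝ) (b : P) : Gam (C r) b = 0 := by
  unfold Gam
  exact Finset.sum_eq_zero fun i _ => by rw [L_C, zero_mul]

theorem Gam_mul_left (a b c : P) : Gam (a * b) c = a * Gam b c + b * Gam a c := by
  unfold Gam
  rw [Finset.mul_sum, Finset.mul_sum, ← Finset.sum_add_distrib]
  exact Finset.sum_congr rfl fun i _ => by rw [L_mul]; ring

theorem Lap_add (a b : P) : Lap (a + b) = Lap a + Lap b := by
  unfold Lap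
  rw [← Finset.sum_add_distrib]
  exact Finset.sum_congr rfl fun i _ => by rw [map_add, map_add]

theorem Lap_sub (a b : P) : Lap (a - b) = Lap a - Lap b := by
  unfold Lap
  rw [← Finset.sum_sub_distrib]
  exact Finset.sum_congr rfl fun i _ => by rw [map_sub, map_sub]

theorem Lap_C_mul (r : ℝ) (a : P) : Lap (C r * a) = C r * Lap a := by
  unfold Lap
  rw [Finset.mul_sum]
  exact Finset.sum_congr rfl fun i _ => by rw [L_C_mul, L_C_mul]

theorem Lap_C (r : ℝ) : Lap (C r) = 0 := by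
  unfold Lap
  exact Finset.sum_eq_zero fun i _ => by rw [L_C, map_zero]

theorem Lap_mul (a b : P) : Lap (a * b) = a * Lap b + b * Lap a + 2 * Gam a b := by
  unfold Lap Gam
  rw [Finset.mul_sum, Finset.mul_sum, Finset.mul_sum, ← Finset.sum_add_distrib, ← Finset.sum_add_distrib]
  refine Finset.sum_congr rfl fun i _ => ?_
  rw [L_mul, map_add, L_mul, L_mul]
  ring

theorem Lap_X (i : Fin 3) : Lap (X i : P) = - (2 * X i) := by
  unfold Lap
  rw [Fin.sum_univ_three]
  fin_cases i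
  · show L 0 (L 0 (X 0 : P)) + L 1 (L 1 (X 0 : P)) + L 2 (L 2 (X 0 : P)) = - (2 * X 0)
    rw [AlgA_00, AlgA_10, AlgA_20, map_zero, AlgA_12, map_neg, AlgA_21]
    ring
  · show L 0 (L 0 (X 1 : P)) + L 1 (L 1 (X 1 : P)) + L 2 (L 2 (X 1 : P)) = - (2 * X 1)
    rw [AlgA_01, AlgA_11, AlgA_21, map_zero, map_neg, AlgA_02, AlgA_20]
    ring
  · show L 0 (L 0 (X 2 : P)) + L 1 (L 1 (X 2 : P)) + L 2 (L 2 (X 2 : P)) = - (2 * X 2)
    rw [AlgA_02, AlgA_12, AlgA_22, map_zero, map_neg, AlgA_01, AlgA_10]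
    ring

/-- `Lap` commutes with `L j`.  PROOF: from `L_comm`: `L j L i L i a - L i L i L j a` summed over `i`
telescopes to zero. -/
theorem L_Lap (j : Fin 3) (a : P) : L j (Lap a) = Lap (L j a) := by
  unfold Lap
  rw [Fin.sum_univ_three, Fin.sum_univ_three, map_add, map_add]
  have e0 := AlgA_c0
  have e1 := AlgA_c1
  have e2 := AlgA_c2
  have f0 : ∀ k, L k (L 0 (L 1 a)) - L k (L 1 (L 0 a)) = - L k (L 2 a) := fun k => by
    rw [← map_sub, e0, map_neg]
  have f1 : ∀ k, L k (L 1 (L 2 a)) - L k (L 2 (L 1 a)) = - L k (L 0 a) := fun k => by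
    rw [← map_sub, e1, map_neg]
  have f2 : ∀ k, L k (L 2 (L 0 a)) - L k (L 0 (L 2 a)) = - L k (L 1 a) := fun k => by
    rw [← map_sub, e2, map_neg]
  fin_cases j
  · show L 0 (L 0 (L 0 a)) + L 0 (L 1 (L 1 a)) + L 0 (L 2 (L 2 a)) =
      L 0 (L 0 (L 0 a)) + L 1 (L 1 (L 0 a)) + L 2 (L 2 (L 0 a))
    linear_combination e0 (L 1 a) + f0 1 - e2 (L 2 a) - f2 2
  · show L 1 (L 0 (L 0 a)) + L 1 (L 1 (L 1 a)) + L 1 (L 2 (L 2 a)) =
      L 0 (L 0 (L 1 a)) + L 1 (L 1 (L 1 a)) + L 2 (L 2 (L 1 a))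
    linear_combination e1 (L 2 a) + f1 2 - e0 (L 0 a) - f0 0
  · show L 2 (L 0 (L 0 a)) + L 2 (L 1 (L 1 a)) + L 2 (L 2 (L 2 a)) =
      L 0 (L 0 (L 2 a)) + L 1 (L 1 (L 2 a)) + L 2 (L 2 (L 2 a))
    linear_combination e2 (L 0 a) + f2 0 - e1 (L 1 a) - f1 1

/-- Bochner. PROOF: `Lap (L j a * L j b)` by `Lap_mul`, sum over `j`, use `L_Lap`. -/
theorem Lap_Gam (a b : P) :
    Lap (Gam a b) = 2 * SS a b + Gam a (Lap b) + Gam b (Lap a) := by
  have h : Lap (Gam a b) = ∑ j, (L j a * Lap (L j b) + L j b * Lap (L j a) + 2 * Gam (L j a) (L j b)) := by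
    conv_lhs => unfold Gam
    rw [Fin.sum_univ_three, Lap_add, Lap_add, Lap_mul, Lap_mul, Lap_mul, Fin.sum_univ_three]
  rw [h]
  simp only [← L_Lap]
  unfold SS Gam
  simp only [Fin.sum_univ_three]
  ring

end

end Pool.Agent.Lib.MP_dabcc9_gt
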