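import Pool.Agent.Lib.MP_dabcc9_gt.AlgA

/-! JOB A3b. Hessian and determinant algebra. -/

open MvPolynomial

namespace Pool.Agent.Lib.MP_dabcc9_gt

noncomputable section

private theorem AlgB_half : (C (1 / 2 : ℝ) : P) * 2 = 1 := by
  have h2 : (2 : P) = C (2 : ℝ) := (map_ofNat C 2).symm
  rw [h2, ← C_mul, show (1 / 2 : ℝ) * 2 = 1 by norm_num, C_1]

/-- PROOF: `Gam d (Gam p d) = ∑_ij L i d (L i L j p) L j d + ∑_ij L i d L j p (L i L j d)` and
`1/2 Gam p (Gam d d) = ∑_ij L j p L i d (L j L i d)`; the difference of the last two sums vanishes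
because `[L i, L j] d = ∓ L k d` is antisymmetric. -/
theorem HQ_eq (p d : P) :
    HQ p d = Gam d (Gam p d) - C (1 / 2) * Gam p (Gam d d) := by
  have hh := AlgB_half
  have e0 : L 0 (L 1 d) - L 1 (L 0 d) = - L 2 d := L_comm 0 d
  have e1 : L 1 (L 2 d) - L 2 (L 1 d) = - L 0 d := L_comm 1 d
  have e2 : L 2 (L 0 d) - L 0 (L 2 d) = - L 1 d := L_comm 2 d
  have h1 : Gam p (Gam d d) = 2 * ∑ j, ∑ i, L j p * (L i d * L j (L i d)) := by
    unfold Gam
    rw [Finset.mul_sum]
    refine Finset.sum_congr rfl fun j _ => ?_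
    rw [map_sum, Finset.mul_sum, Finset.mul_sum]
    refine Finset.sum_congr rfl fun i _ => ?_
    rw [L_mul]
    ring
  rw [h1, ← mul_assoc, hh, one_mul]
  have h2 : Gam d (Gam p d) = ∑ i, ∑ j, L i d * (L j p * L i (L j d) + L j d * L i (L j p)) := by
    unfold Gam
    refine Finset.sum_congr rfl fun i _ => ?_
    rw [map_sum, Finset.mul_sum]
    refine Finset.sum_congr rfl fun j _ => ?_
    rw [L_mul]
  rw [h2]
  unfold HQ
  simp only [Fin.sum_univ_three]
  linear_combination (L 1 d * L 0 p - L 0 d * L 1 p) * e0 + (L 2 d * L 1 p - L 1 d * L 2 p) * e1 +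
    (L 0 d * L 2 p - L 2 d * L 0 p) * e2

private theorem AlgB_00 : L 0 (X 0 : P) = 0 := L_X_self 0
private theorem AlgB_11 : L 1 (X 1 : P) = 0 := L_X_self 1
private theorem AlgB_22 : L 2 (X 2 : P) = 0 := L_X_self 2
private theorem AlgB_01 : L 0 (X 1 : P) = - X 2 := L_X_one 0
private theorem AlgB_12 : L 1 (X 2 : P) = - X 0 := L_X_one 1
private theorem AlgB_20 : L 2 (X 0 : P) = - X 1 := L_X_one 2
private theorem AlgB_02 : L 0 (X 2 : P) = X 1 := L_X_two 0
private theorem AlgB_10 : L 1 (X 0 : P) = X 2 := L_X_two 1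
private theorem AlgB_21 : L 2 (X 1 : P) = X 0 := L_X_two 2

/-- `L i L j x_k = δ_ik x_j - x_k δ_ij`. -/
private theorem AlgB_LL (i j k : Fin 3) : L i (L j (X k : P)) =
    (if i = k then X j else 0) - (if i = j then X k else 0) := by
  have h : ∀ i j k : Fin 3, L i (L j (X k : P)) =
    (if i = k then X j else 0) - (if i = j then X k else 0) := by
    intro i j k
    fin_cases i <;> fin_cases j <;> fin_cases k <;>
      simp [AlgB_00, AlgB_11, AlgB_22, AlgB_01, AlgB_12, AlgB_20, AlgB_02, AlgB_10, AlgB_21]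
  exact h i j k

/-- Linear functions have Hessian `- x_k g` on the sphere. -/
theorem HQ_X (k : Fin 3) (d : P) : EqS (HQ (X k) d) (- (X k * Gam d d)) := by
  have h : HQ (X k) d = - (X k * Gam d d) := by
    have h0 := sum_X_L d
    unfold HQ Gam
    simp only [AlgB_LL]
    rw [Fin.sum_univ_three] at h0
    simp only [Fin.sum_univ_three]
    fin_cases k
    · simp
      linear_combination L 0 d * h0
    · simp
      linear_combination L 1 d * h0
    · simp
      linear_combination L 2 d * h0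
  intro x _
  rw [h]

/-- `detA` of `p + c`. -/
theorem detA_add_C (p : P) (c : ℝ) :
    detA (p + C c) = detA p + C c * (Lap p + 2 * p) + C (c ^ 2) := by
  have h1 : Lap (p + C c) = Lap p := by rw [Lap_add, Lap_C, add_zero]
  have h2 : Gam (p + C c) (p + C c) = Gam p p := by
    rw [Gam_add_left, Gam_add_right, Gam_C_left, add_zero, Gam_comm p (C c), Gam_C_left, add_zero]
  have h3 : SS (p + C c) (p + C c) = SS p p := by
    unfold SS
    refine Finset.sum_congr rfl fun i _ => Finset.sum_congr rfl fun j _ => ?_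
    rw [map_add, L_C, add_zero]
  have hc : (C (c ^ 2) : P) = C c * C c := by rw [sq, C_mul]
  unfold detA
  rw [h1, h2, h3, hc]
  linear_combination (C c * Lap p + 2 * C c * p + C c * C c) * AlgB_half

theorem detA_C_mul (p : P) (c : ℝ) : detA (C c * p) = C (c ^ 2) * detA p := by
  have h2 : Gam (C c * p) (C c * p) = C c * C c * Gam p p := by
    rw [Gam_C_mul_left, Gam_C_mul_right, mul_assoc]
  have h3 : SS (C c * p) (C c * p) = C c * C c * SS p p := by
    unfold SS
    rw [Finset.mul_sum]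
    refine Finset.sum_congr rfl fun i _ => ?_
    rw [Finset.mul_sum]
    refine Finset.sum_congr rfl fun j _ => ?_
    rw [L_C_mul, L_C_mul]
    ring
  have hc : (C (c ^ 2) : P) = C c * C c := by rw [sq, C_mul]
  unfold detA
  rw [Lap_C_mul, h2, h3, hc]
  ring

private theorem AlgB_SS_comm (a b : P) : SS a b = SS b a := by
  unfold SS
  exact Finset.sum_congr rfl fun i _ => Finset.sum_congr rfl fun j _ => mul_comm _ _

private theorem AlgB_SS_add (a b c : P) : SS a (b + c) = SS a b + SS a c := by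
  unfold SS
  simp only [map_add, mul_add, Finset.sum_add_distrib]

private theorem AlgB_SS_C (a b : P) (r : ℝ) : SS a (C r * b) = C r * SS a b := by
  unfold SS
  simp only [L_C_mul, Finset.mul_sum]
  exact Finset.sum_congr rfl fun i _ => Finset.sum_congr rfl fun j _ => by ring

/-- `SS p x_k - Gam p x_k = - x_k Lap p`. -/
private theorem AlgB_X (p : P) (k : Fin 3) : SS p (X k) - Gam p (X k) = - (X k * Lap p) := by
  have h0 := congrArg (L k) (sum_X_L p)
  rw [map_zero, Fin.sum_univ_three, map_add, map_add, L_mul, L_mul, L_mul] at h0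
  unfold SS Gam Lap
  simp only [AlgB_LL]
  simp only [Fin.sum_univ_three]
  fin_cases k
  · simp only [Fin.isValue, Fin.zero_eta, AlgB_00, AlgB_01, AlgB_02] at h0 
    simp [AlgB_00, AlgB_10, AlgB_20]
    linear_combination h0
  · simp only [Fin.isValue, Fin.mk_one, AlgB_10, AlgB_11, AlgB_12] at h0 
    simp [AlgB_01, AlgB_11, AlgB_21]
    linear_combination h0
  · simp only [Fin.isValue, Fin.reduceFinMk, AlgB_20, AlgB_21, AlgB_22] at h0 
    simp [AlgB_02, AlgB_12, AlgB_22]
    linear_combination h0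

/-- `Hess x_k + x_k g = 0` on the sphere, so `detA` does not see linear functions. PROOF: for
`l = ∑ s_k x_k`: on the sphere `Lap l = -2 l` and
`∑_ij L i L j p L i L j l = - l Lap p + ...`; precisely, for any `p` and unit `x`,
`SS p l - Gam p l = - l * Lap p` (from `L i L j x_k = δ_ik x_j - x_k δ_ij`, `sum_X_L` and
`∑_j x_j L i L j p = - ∑_j (L i x_j) L j p`). Then expand `detA (p + l)` by bilinearity. -/
theorem detA_add_lin (p : P) (s : Fin 3 → ℝ) :
    EqS (detA (p + ∑ k, C (s k) * X k)) (detA p) := by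
  have hl : ∀ q : P, SS q (∑ k, C (s k) * X k) - Gam q (∑ k, C (s k) * X k) =
      - ((∑ k, C (s k) * X k) * Lap q) := by
    intro q
    rw [Fin.sum_univ_three, AlgB_SS_add, AlgB_SS_add, Gam_add_right, Gam_add_right, AlgB_SS_C, AlgB_SS_C,
      AlgB_SS_C, Gam_C_mul_right, Gam_C_mul_right, Gam_C_mul_right]
    linear_combination C (s 0) * AlgB_X q 0 + C (s 1) * AlgB_X q 1 + C (s 2) * AlgB_X q 2
  have hL : Lap (∑ k, C (s k) * X k) = - (2 * ∑ k, C (s k) * X k) := by
    rw [Fin.sum_univ_three, Lap_add, Lap_add, Lap_C_mul, Lap_C_mul, Lap_C_mul, Lap_X, Lap_X, Lap_X]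
    ring
  have h : detA (p + ∑ k, C (s k) * X k) = detA p := by
    generalize (∑ k, C (s k) * X k : P) = l at hl hL ⊢
    have h1 := hl p
    have h2 := hl l
    unfold detA
    rw [Lap_add, AlgB_SS_add, AlgB_SS_comm (p + l) p, AlgB_SS_comm (p + l) l, AlgB_SS_add, AlgB_SS_add,
      Gam_add_left, Gam_add_right, Gam_add_right, AlgB_SS_comm l p, Gam_comm l p]
    rw [hL] at h2 ⊢
    linear_combination (- C (1 / 2) * 2) * h1 - C (1 / 2) * h2
  intro x _
  rw [h]

end

end Pool.Agent.Lib.MP_dabcc9_gt
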