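import Pool.Agent.Lib.MP_dabcc9_gt.Defs

/-! JOB A1.  Elementary facts on `ev`, `av`, `EE`. -/

open MeasureTheory Metric Set MvPolynomial

namespace Pool.Agent.Lib.MP_dabcc9_gt

theorem ev_add (p q : P) (x : E3) : ev (p + q) x = ev p x + ev q x := by
  simp [ev]

theorem ev_sub (p q : P) (x : E3) : ev (p - q) x = ev p x - ev q x := by
  simp [ev]

theorem ev_neg (p : P) (x : E3) : ev (-p) x = - ev p x := by
  simp [ev]

theorem ev_mul (p q : P) (x : E3) : ev (p * q) x = ev p x * ev q x := by
  simp [ev]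

theorem ev_pow (p : P) (n : ℕ) (x : E3) : ev (p ^ n) x = ev p x ^ n := by
  simp [ev]

theorem ev_C (c : ℝ) (x : E3) : ev (C c) x = c := by
  simp [ev]

theorem ev_X (i : Fin 3) (x : E3) : ev (X i) x = x i := by
  simp [ev]

theorem ev_zero (x : E3) : ev 0 x = 0 := by
  simp [ev]

theorem ev_one (x : E3) : ev 1 x = 1 := by
  simp [ev]

theorem ev_ofNat (n : ℕ) [n.AtLeastTwo] (x : E3) : ev (OfNat.ofNat n) x = OfNat.ofNat n := by
  simp [ev]

theorem ev_smul (c : ℝ) (p : P) (x : E3) : ev (c • p) x = c * ev p x := by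
  simp [ev, MvPolynomial.smul_eval]

theorem ev_sum {ι : Type*} (s : Finset ι) (f : ι → P) (x : E3) :
    ev (∑ i ∈ s, f i) x = ∑ i ∈ s, ev (f i) x := by
  simp [ev, map_sum]

theorem continuous_ev (p : P) : Continuous (ev p) := by
  unfold ev
  exact (MvPolynomial.continuous_eval p).comp (by fun_prop)

theorem contDiff_ev (p : P) : ContDiff ℝ ⊤ (ev p) := by
  induction p using MvPolynomial.induction_on with
  | C a => 
    have : ev (C a) = fun _ => a := by ext x; simp [ev]
    rw [this]; exact contDiff_const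
  | add p q hp hq =>
    have : ev (p + q) = fun x => ev p x + ev q x := by ext x; simp [ev]
    rw [this]; exact hp.add hq
  | mul_X p i hp =>
    have : ev (p * X i) = fun x => ev p x * x i := by ext x; simp [ev]
    rw [this]; exact hp.mul (by fun_prop)

/-- Write out the norm. -/
theorem norm_sq_eq3 (x : E3) : ‖x‖ ^ 2 = x 0 ^ 2 + x 1 ^ 2 + x 2 ^ 2 := by
  rw [EuclideanSpace.norm_eq, Real.sq_sqrt (by positivity), Fin.sum_univ_three]
  simp

theorem inner_eq3 (x y : E3) : inner ℝ x y = x 0 * y 0 + x 1 * y 1 + x 2 * y 2 := by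
  rw [PiLp.inner_apply, Fin.sum_univ_three]
  simp [mul_comm]

theorem Basic_sphere_ne : ((volume : Measure E3).toSphere) ≠ 0 := by
  exact Measure.toSphere_ne_zero _

theorem Basic_av_eq (f : E3 → ℝ) : av f =
    ((volume : Measure E3).toSphere.real univ)⁻¹ * ∫ x : sphere (0 : E3) 1, f x ∂(volume : Measure E3).toSphere := by
  rw [av, average_eq, smul_eq_mul]

theorem Basic_pos : 0 < ((volume : Measure E3).toSphere.real univ) := by
  rw [measureReal_def]
  exact ENNReal.toReal_pos (fun h => Basic_sphere_ne (Measure.measure_univ_eq_zero.1 h))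
    (measure_ne_top _ _)

theorem Basic_cont {f : E3 → ℝ} (hf : ContinuousOn f (sphere 0 1)) :
    Continuous fun x : sphere (0 : E3) 1 => f x := by
  exact continuousOn_iff_continuous_domRestrict.1 hf

theorem Basic_int {f : E3 → ℝ} (hf : ContinuousOn f (sphere 0 1)) :
    Integrable (fun x : sphere (0 : E3) 1 => f x) (volume : Measure E3).toSphere := by
  have h := Basic_cont hf
  exact h.integrable_of_hasCompactSupport (HasCompactSupport.of_compactSpace _)

theorem Basic_norm (x : sphere (0 : E3) 1) : ‖(x : E3)‖ = 1 := by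
  simp

/-- The surface measure of the unit sphere is finite and nonzero (instances of Mathlib), so the
average is a genuine average; use `MeasureTheory.average_eq`, `integral_add` etc; continuous
functions on the compact sphere are integrable. -/
theorem av_const (c : ℝ) : av (fun _ => c) = c := by
  rw [Basic_av_eq, integral_const, smul_eq_mul, ← mul_assoc, inv_mul_cancel₀ Basic_pos.ne', one_mul]

theorem av_add {f g : E3 → ℝ} (hf : ContinuousOn f (sphere 0 1))
    (hg : ContinuousOn g (sphere 0 1)) : av (fun x => f x + g x) = av f + av g := by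
  rw [Basic_av_eq, Basic_av_eq, Basic_av_eq, integral_add (Basic_int hf) (Basic_int hg), mul_add]

theorem av_sub {f g : E3 → ℝ} (hf : ContinuousOn f (sphere 0 1))
    (hg : ContinuousOn g (sphere 0 1)) : av (fun x => f x - g x) = av f - av g := by
  rw [Basic_av_eq, Basic_av_eq, Basic_av_eq, integral_sub (Basic_int hf) (Basic_int hg), mul_sub]

theorem av_const_mul (c : ℝ) (f : E3 → ℝ) : av (fun x => c * f x) = c * av f := by
  rw [Basic_av_eq, Basic_av_eq, integral_const_mul]; ring

theorem av_congr {f g : E3 → ℝ} (h : ∀ x : E3, ‖x‖ = 1 → f x = g x) : av f = av g := by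
  rw [Basic_av_eq, Basic_av_eq]
  congr 1
  exact integral_congr_ae (Filter.Eventually.of_forall fun x => h x (Basic_norm x))

theorem av_nonneg {f : E3 → ℝ} (h : ∀ x : E3, ‖x‖ = 1 → 0 ≤ f x) : 0 ≤ av f := by
  rw [Basic_av_eq]
  exact mul_nonneg (inv_nonneg.2 Basic_pos.le)
    (integral_nonneg fun x => h x (Basic_norm x))

theorem av_mono {f g : E3 → ℝ} (hf : ContinuousOn f (sphere 0 1))
    (hg : ContinuousOn g (sphere 0 1)) (h : ∀ x : E3, ‖x‖ = 1 → f x ≤ g x) : av f ≤ av g := by
  have h1 : 0 ≤ av (fun x => g x - f x) := av_nonneg fun x hx => sub_nonneg.2 (h x hx)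
  rw [av_sub hg hf] at h1
  linarith

/-- The sphere measure is positive on open sets (Mathlib `toSphere.instIsOpenPosMeasure`). -/
theorem av_eq_zero {f : E3 → ℝ} (hf : ContinuousOn f (sphere 0 1))
    (h : ∀ x : E3, ‖x‖ = 1 → 0 ≤ f x) (h0 : av f = 0) : ∀ x : E3, ‖x‖ = 1 → f x = 0 := by
  intro x hx
  rw [Basic_av_eq] at h0
  have h1 : ∫ x : sphere (0 : E3) 1, f x ∂(volume : Measure E3).toSphere = 0 := by
    rcases mul_eq_zero.1 h0 with h2 | h2
    · exact absurd h2 (inv_ne_zero Basic_pos.ne')
    · exact h2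
  have h2 := (integral_eq_zero_iff_of_nonneg
    (fun y : sphere (0 : E3) 1 => h y (Basic_norm y)) (Basic_int hf)).1 h1
  have h3 := (Continuous.ae_eq_iff_eq (volume : Measure E3).toSphere (Basic_cont hf)
    continuous_const).1 h2
  exact congrFun h3 ⟨x, by simpa using hx⟩


theorem Basic_ev_on (p : P) : ContinuousOn (ev p) (sphere 0 1) :=
  (continuous_ev p).continuousOn

theorem EE_add (p q : P) : EE (p + q) = EE p + EE q := by
  unfold EE
  rw [← av_add (Basic_ev_on p) (Basic_ev_on q)]
  congr 1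
  ext x
  simp [ev]

theorem EE_sub (p q : P) : EE (p - q) = EE p - EE q := by
  unfold EE
  rw [← av_sub (Basic_ev_on p) (Basic_ev_on q)]
  congr 1
  ext x
  simp [ev]

theorem EE_C_mul (c : ℝ) (p : P) : EE (C c * p) = c * EE p := by
  unfold EE
  rw [← av_const_mul]
  congr 1
  ext x
  simp [ev]

theorem EE_neg (p : P) : EE (-p) = - EE p := by
  have h := EE_C_mul (-1) p
  simpa using h

theorem EE_smul (c : ℝ) (p : P) : EE (c • p) = c * EE p := by
  rw [MvPolynomial.smul_eq_C_mul, EE_C_mul]

theorem EE_C (c : ℝ) : EE (C c) = c := by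
  unfold EE
  have : ev (C c) = fun _ => c := by ext x; simp [ev]
  rw [this, av_const]

theorem EE_one : EE 1 = 1 := by
  have := EE_C 1
  simpa using this

theorem EE_zero : EE 0 = 0 := by
  have := EE_C 0
  simpa using this

theorem EE_two_mul (p : P) : EE (2 * p) = 2 * EE p := by
  rw [two_mul, EE_add, two_mul]

theorem EE_sum {ι : Type*} (s : Finset ι) (f : ι → P) :
    EE (∑ i ∈ s, f i) = ∑ i ∈ s, EE (f i) := by
  classical
  induction s using Finset.induction_on with
  | empty => simp [EE_zero]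
  | insert a s ha ih => rw [Finset.sum_insert ha, Finset.sum_insert ha, EE_add, ih]

theorem EE_congr {a b : P} (h : EqS a b) : EE a = EE b := av_congr h

theorem EE_mono {a b : P} (h : ∀ x : E3, ‖x‖ = 1 → ev a x ≤ ev b x) : EE a ≤ EE b :=
  av_mono (Basic_ev_on a) (Basic_ev_on b) h

theorem EE_nonneg {a : P} (h : ∀ x : E3, ‖x‖ = 1 → 0 ≤ ev a x) : 0 ≤ EE a := av_nonneg h

theorem EE_sq_eq_zero {a : P} (h : EE (a * a) = 0) : EqS a 0 := by
  intro x hx
  have h1 := av_eq_zero (Basic_ev_on (a * a)) (fun y _ => by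
    have : ev (a * a) y = ev a y * ev a y := by simp [ev]
    rw [this]; exact mul_self_nonneg _) h x hx
  have h2 : ev (a * a) x = ev a x * ev a x := by simp [ev]
  rw [h2] at h1
  have h3 := mul_self_eq_zero.1 h1
  rw [h3]; simp [ev]

theorem EqS.refl (a : P) : EqS a a := fun _ _ => rfl

theorem EqS.symm {a b : P} (h : EqS a b) : EqS b a := fun x hx => (h x hx).symm

theorem EqS.trans {a b c : P} (h : EqS a b) (h' : EqS b c) : EqS a c :=
  fun x hx => (h x hx).trans (h' x hx)

theorem EqS.add {a b c d : P} (h : EqS a b) (h' : EqS c d) : EqS (a + c) (b + d) := by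
  intro x hx; rw [ev_add, ev_add, h x hx, h' x hx]

theorem EqS.mul {a b c d : P} (h : EqS a b) (h' : EqS c d) : EqS (a * c) (b * d) := by
  intro x hx; rw [ev_mul, ev_mul, h x hx, h' x hx]

end Pool.Agent.Lib.MP_dabcc9_gt
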