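import Pool.Agent.Lib.MP_dabcc9_gt.Basic

/-! JOB S1. Volumes. -/

open MeasureTheory Metric Set

namespace Pool.Agent.Lib.MP_dabcc9_gt

noncomputable section

/-- The unit ball cut at height `c`. -/
def capB (c : ℝ) : Set E3 := closedBall 0 1 ∩ {x | x 2 ≤ c}

theorem capB_body (c : ℝ) (hc : 0 < c) : IsBody (capB c) := by
  have hcl : IsClosed {x : E3 | x 2 ≤ c} :=
    isClosed_le (EuclideanSpace.proj 2 : E3 →L[ℝ] ℝ).continuous continuous_const
  refine ⟨(isCompact_closedBall 0 1).inter_right hcl, ?_, ?_⟩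
  · refine (convex_closedBall 0 1).inter ?_
    intro x hx y hy a b ha hb hab
    have hx : x 2 ≤ c := hx
    have hy : y 2 ≤ c := hy
    show (a • x + b • y) 2 ≤ c
    simp only [PiLp.add_apply, PiLp.smul_apply, smul_eq_mul]
    calc a * x 2 + b * y 2 ≤ a * c + b * c := by gcongr
      _ = c := by rw [← add_mul, hab, one_mul]
  · refine ⟨0, ⟨by simp, by simpa using hc.le⟩, EuclideanSpace.single 0 1, ⟨by simp, by simpa using hc.le⟩, ?_⟩
    intro h
    have h1 := congrArg (fun x : E3 => x 0) h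
    simp at h1

/-- height and horizontal part -/
def CapA_e : E3 ≃ᵐ ℝ × EuclideanSpace ℝ (Fin 2) :=
  ((MeasurableEquiv.toLp 2 (Fin 3 → ℝ)).symm.trans
    (MeasurableEquiv.piFinSuccAbove (fun _ : Fin 3 => ℝ) 2)).trans
    (MeasurableEquiv.prodCongr (MeasurableEquiv.refl ℝ) (MeasurableEquiv.toLp 2 (Fin 2 → ℝ)))

theorem CapA_e_mp : MeasurePreserving CapA_e volume (volume.prod volume) := by
  refine MeasurePreserving.trans (MeasurePreserving.trans
    (EuclideanSpace.volume_preserving_symm_measurableEquiv_toLp (Fin 3))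
    (volume_preserving_piFinSuccAbove (fun _ : Fin 3 => ℝ) 2)) ?_
  exact (MeasurePreserving.id volume).prod (PiLp.volume_preserving_toLp (Fin 2))

theorem CapA_e_apply (q : EuclideanSpace ℝ (Fin 2)) (z : ℝ) :
    CapA_e (!₂[q 0, q 1, z] : E3) = (z, q) := by
  apply Prod.ext
  · rfl
  · ext j
    fin_cases j
    · rfl
    · rfl

theorem CapA_fubini {S : Set E3} (hS : MeasurableSet S) :
    volume S = ∫⁻ z, volume {q : EuclideanSpace ℝ (Fin 2) | (!₂[q 0, q 1, z] : E3) ∈ S} := by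
  have h1 : S = CapA_e ⁻¹' (CapA_e.symm ⁻¹' S) := by
    ext x
    simp
  have h2 : MeasurableSet (CapA_e.symm ⁻¹' S) := CapA_e.symm.measurable hS
  conv_lhs => rw [h1]
  rw [CapA_e_mp.measure_preimage h2.nullMeasurableSet, Measure.prod_apply h2]
  congr 1
  funext z
  congr 1
  ext q
  show CapA_e.symm (z, q) ∈ S ↔ _
  rw [← CapA_e_apply q z, MeasurableEquiv.symm_apply_apply]
  rfl

theorem CapA_disc (r : ℝ) (hr : 0 ≤ r) :
    volume {q : EuclideanSpace ℝ (Fin 2) | q 0 ^ 2 + q 1 ^ 2 ≤ r} = ENNReal.ofReal (Real.pi * r) := by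
  have h1 : {q : EuclideanSpace ℝ (Fin 2) | q 0 ^ 2 + q 1 ^ 2 ≤ r} = closedBall 0 (Real.sqrt r) := by
    ext q
    rw [mem_closedBall_zero_iff, Real.le_sqrt (norm_nonneg q) hr, EuclideanSpace.norm_sq_eq, Fin.sum_univ_two]
    simp
  rw [h1, EuclideanSpace.volume_closedBall_fin_two, ← ENNReal.ofReal_pow (Real.sqrt_nonneg r),
    Real.sq_sqrt hr, mul_comm, ENNReal.ofReal_mul Real.pi_pos.le, ← NNReal.coe_real_pi, ENNReal.ofReal_coe_nnreal]

theorem CapA_disc' (r : ℝ) (hr : 0 ≤ r) :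
    volume {q : EuclideanSpace ℝ (Fin 2) | q 0 ^ 2 + q 1 ^ 2 < r} = ENNReal.ofReal (Real.pi * r) := by
  have h1 : {q : EuclideanSpace ℝ (Fin 2) | q 0 ^ 2 + q 1 ^ 2 < r} = ball 0 (Real.sqrt r) := by
    ext q
    rw [mem_ball_zero_iff, Real.lt_sqrt (norm_nonneg q), EuclideanSpace.norm_sq_eq, Fin.sum_univ_two]
    simp
  rw [h1, EuclideanSpace.volume_ball_fin_two, ← ENNReal.ofReal_pow (Real.sqrt_nonneg r),
    Real.sq_sqrt hr, mul_comm, ENNReal.ofReal_mul Real.pi_pos.le, ← NNReal.coe_real_pi, ENNReal.ofReal_coe_nnreal]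

/-- volume by slices -/
theorem CapA_vol {S : Set E3} {a b : ℝ} (hab : a ≤ b) (hS : MeasurableSet S) (g : ℝ → ℝ) (hg : Continuous g)
    (h1 : ∀ z ∈ Ioc a b, 0 ≤ g z ∧
      volume {q : EuclideanSpace ℝ (Fin 2) | (!₂[q 0, q 1, z] : E3) ∈ S} = ENNReal.ofReal (Real.pi * g z))
    (h0 : ∀ z ∉ Ioc a b, volume {q : EuclideanSpace ℝ (Fin 2) | (!₂[q 0, q 1, z] : E3) ∈ S} = 0) :
    volume.real S = Real.pi * ∫ z in a..b, g z := by
  have h2 : volume S = ∫⁻ z in Ioc a b, ENNReal.ofReal (Real.pi * g z) := by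
    rw [CapA_fubini hS, ← lintegral_indicator measurableSet_Ioc]
    congr 1
    funext z
    by_cases hz : z ∈ Ioc a b
    · rw [indicator_of_mem hz, (h1 z hz).2]
    · rw [indicator_of_notMem hz, h0 z hz]
  have hint : IntegrableOn (fun z => Real.pi * g z) (Ioc a b) :=
    ((continuous_const.mul hg).continuousOn.integrableOn_compact isCompact_Icc).mono_set Ioc_subset_Icc_self
  have hnn : 0 ≤ᵐ[volume.restrict (Ioc a b)] fun z => Real.pi * g z := by
    rw [Filter.EventuallyLE, ae_restrict_iff' measurableSet_Ioc]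
    exact Filter.Eventually.of_forall fun z hz => mul_nonneg Real.pi_pos.le (h1 z hz).1
  rw [Measure.real, h2, ← ofReal_integral_eq_lintegral_ofReal hint hnn, ENNReal.toReal_ofReal
    (integral_nonneg_of_ae hnn), intervalIntegral.integral_of_le hab, integral_const_mul]

theorem CapA_cont (i : Fin 3) : Continuous fun x : E3 => x i :=
  (EuclideanSpace.proj i : E3 →L[ℝ] ℝ).continuous

theorem CapA_meas_capB (c : ℝ) : MeasurableSet (capB c) :=
  (isClosed_closedBall.inter (isClosed_le (CapA_cont 2) continuous_const)).measurableSet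

theorem CapA_norm_le (x : E3) : ‖x‖ ≤ 1 ↔ x 0 ^ 2 + x 1 ^ 2 + x 2 ^ 2 ≤ 1 := by
  rw [← norm_sq_eq3]
  constructor
  · intro h
    nlinarith [norm_nonneg x]
  · intro h
    nlinarith [norm_nonneg x]

theorem CapA_mem_capB (c : ℝ) (x : E3) : x ∈ capB c ↔ x 0 ^ 2 + x 1 ^ 2 + x 2 ^ 2 ≤ 1 ∧ x 2 ≤ c := by
  rw [capB, mem_inter_iff, mem_closedBall_zero_iff, CapA_norm_le]
  rfl

/-- JOB S1. Volume by slices: `∫_{-1}^c pi (1 - z^2) dz`. -/
theorem vol_capB (c : ℝ) (h0 : 0 ≤ c) (h1 : c ≤ 1) :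
    vol (capB c) = Real.pi * (2 / 3 + c - c ^ 3 / 3) := by
  have h := CapA_vol (S := capB c) (a := -1) (b := c) (by linarith) (CapA_meas_capB c) (fun z => 1 - z ^ 2)
    (by fun_prop) ?_ ?_
  · rw [vol]
    have h2 : (volume (capB c)).toReal = volume.real (capB c) := rfl
    rw [h2, h, intervalIntegral.integral_sub intervalIntegrable_const
      ((continuous_pow 2).intervalIntegrable _ _), intervalIntegral.integral_const, integral_pow]
    simp only [smul_eq_mul]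
    ring
  · intro z hz
    have hz2 : 0 ≤ 1 - z ^ 2 := by nlinarith [hz.1, hz.2]
    refine ⟨hz2, ?_⟩
    rw [← CapA_disc _ hz2]
    congr 1
    ext q
    constructor
    · intro hq
      have h3 := (CapA_mem_capB c _).mp hq
      simp only [Matrix.cons_val_zero, Matrix.cons_val_one, Matrix.cons_val] at h3
      show q 0 ^ 2 + q 1 ^ 2 ≤ 1 - z ^ 2
      linarith [h3.1]
    · intro hq
      have hq : q 0 ^ 2 + q 1 ^ 2 ≤ 1 - z ^ 2 := hq
      apply (CapA_mem_capB c _).mpr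
      simp only [Matrix.cons_val_zero, Matrix.cons_val_one, Matrix.cons_val]
      exact ⟨by linarith, hz.2⟩
  · intro z hz
    apply measure_mono_null (t := {q : EuclideanSpace ℝ (Fin 2) | q 0 ^ 2 + q 1 ^ 2 ≤ 0})
    · intro q hq
      have h3 := (CapA_mem_capB c _).mp hq
      simp only [Matrix.cons_val_zero, Matrix.cons_val_one, Matrix.cons_val] at h3
      show q 0 ^ 2 + q 1 ^ 2 ≤ 0
      have h4 : z ≤ -1 := by
        by_contra hcon
        exact hz ⟨by linarith, h3.2⟩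
      nlinarith [h3.1]
    · rw [CapA_disc 0 le_rfl]
      simp

theorem CapA_meas_cone (c : ℝ) : MeasurableSet {x : E3 | c * ‖x‖ < x 2 ∧ x 2 ≤ c} :=
  (measurableSet_lt (by fun_prop) (CapA_cont 2).measurable).inter
    (measurableSet_le (CapA_cont 2).measurable measurable_const)

theorem CapA_vol_cone (c : ℝ) (h0 : 0 ≤ c) (h1 : c ≤ 1) :
    volume.real {x : E3 | c * ‖x‖ < x 2 ∧ x 2 ≤ c} = Real.pi * (c * (1 - c ^ 2) / 3) := by
  rcases h0.eq_or_lt with hc | hc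
  · subst hc
    have h2 : {x : E3 | 0 * ‖x‖ < x 2 ∧ x 2 ≤ 0} = ∅ := by
      ext x
      simp only [zero_mul, mem_ofPred_eq, mem_empty_iff_false, iff_false, not_and, not_le]
      exact fun h => h
    rw [h2]
    simp
  have hk : 0 ≤ (1 - c ^ 2) / c ^ 2 := div_nonneg (by nlinarith) (by positivity)
  have hmem : ∀ (q : EuclideanSpace ℝ (Fin 2)) (z : ℝ), (!₂[q 0, q 1, z] : E3) ∈ {x : E3 | c * ‖x‖ < x 2 ∧ x 2 ≤ c} ↔
      (0 < z ∧ z ≤ c) ∧ q 0 ^ 2 + q 1 ^ 2 < z ^ 2 * ((1 - c ^ 2) / c ^ 2) := by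
    intro q z
    have hn := norm_sq_eq3 (!₂[q 0, q 1, z] : E3)
    simp only [Matrix.cons_val_zero, Matrix.cons_val_one, Matrix.cons_val] at hn
    have hn0 := norm_nonneg (!₂[q 0, q 1, z] : E3)
    show c * ‖(!₂[q 0, q 1, z] : E3)‖ < z ∧ z ≤ c ↔ _
    generalize ‖(!₂[q 0, q 1, z] : E3)‖ = N at hn hn0
    have hcN : 0 ≤ c * N := mul_nonneg hc.le hn0
    have hkey : z ^ 2 * ((1 - c ^ 2) / c ^ 2) = z ^ 2 / c ^ 2 - z ^ 2 := by
      field_simp
    rw [hkey, lt_sub_iff_add_lt, ← hn, lt_div_iff₀ (by positivity)]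
    constructor
    · rintro ⟨h3, h4⟩
      exact ⟨⟨by linarith, h4⟩, by nlinarith⟩
    · rintro ⟨⟨h3, h4⟩, h5⟩
      refine ⟨?_, h4⟩
      nlinarith
  have h := CapA_vol (a := 0) (b := c) hc.le (CapA_meas_cone c) (fun z => z ^ 2 * ((1 - c ^ 2) / c ^ 2))
    (by fun_prop) ?_ ?_
  · rw [h, intervalIntegral.integral_mul_const, integral_pow]
    field_simp
    ring
  · intro z hz
    have hz2 : 0 ≤ z ^ 2 * ((1 - c ^ 2) / c ^ 2) := mul_nonneg (sq_nonneg z) hk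
    refine ⟨hz2, ?_⟩
    rw [← CapA_disc' _ hz2]
    congr 1
    ext q
    rw [mem_ofPred_eq, hmem q z]
    exact ⟨fun h3 => h3.2, fun h3 => ⟨hz, h3⟩⟩
  · intro z hz
    have h3 : {q : EuclideanSpace ℝ (Fin 2) | (!₂[q 0, q 1, z] : E3) ∈ {x : E3 | c * ‖x‖ < x 2 ∧ x 2 ≤ c}} = ∅ := by
      ext q
      rw [mem_ofPred_eq, hmem q z]
      simp only [mem_empty_iff_false, iff_false]
      exact fun h4 => hz h4.1
    rw [h3, measure_empty]

/-- JOB S1. Solid sector: slices or `radial_integral` type argument; e.g.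
sector = capB minus the cone `{c |x| < x_3 <= c}` of volume `pi c (1-c^2)/3`. -/
theorem vol_sector (c : ℝ) (h0 : 0 ≤ c) (h1 : c ≤ 1) :
    volume.real {x : E3 | ‖x‖ ≤ 1 ∧ x 2 ≤ c * ‖x‖} = 2 * Real.pi / 3 * (1 + c) := by
  have hcap := vol_capB c h0 h1
  have hcap2 : vol (capB c) = volume.real (capB c) := rfl
  rw [hcap2] at hcap
  have hcone := CapA_vol_cone c h0 h1
  have hset : {x : E3 | ‖x‖ ≤ 1 ∧ x 2 ≤ c * ‖x‖} = capB c \ {x : E3 | c * ‖x‖ < x 2 ∧ x 2 ≤ c} := by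
    ext x
    constructor
    · rintro ⟨hx1, hx2⟩
      have hx1 : ‖x‖ ≤ 1 := hx1
      have hx2 : x 2 ≤ c * ‖x‖ := hx2
      refine ⟨⟨mem_closedBall_zero_iff.mpr hx1, ?_⟩, ?_⟩
      · show x 2 ≤ c
        nlinarith
      · rintro ⟨h3, -⟩
        have h3 : c * ‖x‖ < x 2 := h3
        linarith
    · rintro ⟨⟨hx1, hx2⟩, hx3⟩
      have hx2 : x 2 ≤ c := hx2
      refine ⟨mem_closedBall_zero_iff.mp hx1, ?_⟩
      by_contra hcon
      exact hx3 ⟨not_le.mp hcon, hx2⟩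
  have hsub : {x : E3 | c * ‖x‖ < x 2 ∧ x 2 ≤ c} ⊆ capB c := by
    rintro x ⟨hx1, hx2⟩
    have hx1 : c * ‖x‖ < x 2 := hx1
    have hx2 : x 2 ≤ c := hx2
    refine ⟨mem_closedBall_zero_iff.mpr ?_, hx2⟩
    by_contra hcon
    have hcon : 1 < ‖x‖ := not_le.mp hcon
    nlinarith
  have hfin : volume (capB c) ≠ ⊤ :=
    ((isCompact_closedBall (0 : E3) 1).inter_right (isClosed_le (CapA_cont 2) continuous_const)).measure_lt_top.ne
  rw [hset, measureReal_sdiff hsub (CapA_meas_cone c) hfin, hcap, hcone]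
  ring

/-- JOB S1. Flat cylinder. -/
theorem vol_cyl (c s t : ℝ) (hs : 0 ≤ s) (ht : 0 ≤ t) :
    volume.real {x : E3 | x 0 ^ 2 + x 1 ^ 2 ≤ s ^ 2 ∧ c < x 2 ∧ x 2 ≤ c + t}
      = Real.pi * s ^ 2 * t := by
  have hmeas : MeasurableSet {x : E3 | x 0 ^ 2 + x 1 ^ 2 ≤ s ^ 2 ∧ c < x 2 ∧ x 2 ≤ c + t} := by
    have m0 := (CapA_cont 0).measurable
    have m1 := (CapA_cont 1).measurable
    have m2 := (CapA_cont 2).measurable
    exact (measurableSet_le ((m0.pow_const 2).add (m1.pow_const 2)) measurable_const).inter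
      ((measurableSet_lt measurable_const m2).inter (measurableSet_le m2 measurable_const))
  have h := CapA_vol (a := c) (b := c + t) (by linarith) hmeas (fun _ => s ^ 2) continuous_const ?_ ?_
  · rw [h, intervalIntegral.integral_const, smul_eq_mul]
    ring
  · intro z hz
    refine ⟨sq_nonneg s, ?_⟩
    rw [← CapA_disc _ (sq_nonneg s)]
    congr 1
    ext q
    show (q 0 ^ 2 + q 1 ^ 2 ≤ s ^ 2 ∧ c < z ∧ z ≤ c + t) ↔ q 0 ^ 2 + q 1 ^ 2 ≤ s ^ 2
    exact ⟨fun h3 => h3.1, fun h3 => ⟨h3, hz⟩⟩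
  · intro z hz
    have h3 : {q : EuclideanSpace ℝ (Fin 2) | (!₂[q 0, q 1, z] : E3) ∈
        {x : E3 | x 0 ^ 2 + x 1 ^ 2 ≤ s ^ 2 ∧ c < x 2 ∧ x 2 ≤ c + t}} = ∅ := by
      ext q
      show (q 0 ^ 2 + q 1 ^ 2 ≤ s ^ 2 ∧ c < z ∧ z ≤ c + t) ↔ False
      simp only [iff_false]
      exact fun h4 => hz h4.2
    rw [h3, measure_empty]

end

end Pool.Agent.Lib.MP_dabcc9_gt
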