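import Pool.Agent.Lib.MP_dabcc9_gt.CapA

/-! JOB S2. Surface area of the truncated ball. -/

open MeasureTheory Metric Set

namespace Pool.Agent.Lib.MP_dabcc9_gt

noncomputable section

open scoped Pointwise in
theorem CapB_scale (c R : ℝ) (hR : 0 < R) :
    volume.real {x : E3 | ‖x‖ ≤ R ∧ x 2 ≤ c * ‖x‖} =
      R ^ 3 * volume.real {x : E3 | ‖x‖ ≤ 1 ∧ x 2 ≤ c * ‖x‖} := by
  have h1 : {x : E3 | ‖x‖ ≤ R ∧ x 2 ≤ c * ‖x‖} = R • {x : E3 | ‖x‖ ≤ 1 ∧ x 2 ≤ c * ‖x‖} := by
    ext x
    rw [Set.mem_smul_set_iff_inv_smul_mem₀ hR.ne']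
    simp only [Set.mem_ofPred_eq, norm_smul, norm_inv, Real.norm_eq_abs, abs_of_pos hR,
      PiLp.smul_apply, smul_eq_mul]
    constructor
    · rintro ⟨ha, hb⟩
      constructor
      · rw [inv_mul_le_iff₀ hR, mul_one]; exact ha
      · rw [← mul_assoc, mul_comm c, mul_assoc]
        exact mul_le_mul_of_nonneg_left hb (inv_nonneg.2 hR.le)
    · rintro ⟨ha, hb⟩
      constructor
      · rw [inv_mul_le_iff₀ hR, mul_one] at ha; exact ha
      · rw [← mul_assoc, mul_comm c, mul_assoc] at hb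
        exact le_of_mul_le_mul_left hb (inv_pos.2 hR)
  rw [h1, measureReal_def, Measure.addHaar_smul, ENNReal.toReal_mul, finrank_euclideanSpace_fin,
    ENNReal.toReal_ofReal (abs_nonneg _), abs_of_pos (pow_pos hR 3), measureReal_def]

theorem CapB_closed (c R : ℝ) : IsClosed {x : E3 | ‖x‖ ≤ R ∧ x 2 ≤ c * ‖x‖} := by
  have e1 : IsClosed {x : E3 | ‖x‖ ≤ R} := isClosed_le (by fun_prop) (by fun_prop)
  have e2 : IsClosed {x : E3 | x 2 ≤ c * ‖x‖} := isClosed_le (by fun_prop) (by fun_prop)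
  exact e1.inter e2

theorem CapB_bdd {s : Set E3} {R : ℝ} (h : ∀ x ∈ s, ‖x‖ ≤ R) : volume s ≠ ⊤ := by
  have h1 : s ⊆ closedBall 0 R := by
    intro x hx
    rw [mem_closedBall, dist_zero_right]
    exact h x hx
  exact ((Metric.isBounded_closedBall.subset h1).measure_lt_top).ne

theorem CapB_closedA (c : ℝ) : IsClosed (capB c) := by
  refine IsClosed.inter Metric.isClosed_closedBall (isClosed_le (by fun_prop) (by fun_prop))

/-- JOB S2.  Lower bound of the outer parallel volume: the disjoint sets `capB c`, the shell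
`{1 < |x| <= 1 + t, x_3 <= c |x|}` (volume `((1+t)^3 - 1) * sector`) and the cylinder
`{x_1^2 + x_2^2 <= 1 - c^2, c < x_3 <= c + t}` lie in `cthickening t (capB c)`. -/
theorem vol_thick_capB_ge (c t : ℝ) (h0 : 0 ≤ c) (h1 : c ≤ 1) (ht : 0 ≤ t) :
    vol (capB c) + ((1 + t) ^ 3 - 1) * (2 * Real.pi / 3 * (1 + c))
      + Real.pi * (1 - c ^ 2) * t ≤ vol (cthickening t (capB c)) := by
  have hbd : Bornology.IsBounded (capB c) :=
    Metric.isBounded_closedBall.subset (Set.inter_subset_left)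
  have hfin : volume (cthickening t (capB c)) ≠ ⊤ := (hbd.cthickening.measure_lt_top).ne
  -- the shell
  set B : Set E3 := {x : E3 | ‖x‖ ≤ 1 + t ∧ x 2 ≤ c * ‖x‖} \ {x : E3 | ‖x‖ ≤ 1 ∧ x 2 ≤ c * ‖x‖}
    with hB
  have hBm : MeasurableSet B := (CapB_closed c (1 + t)).measurableSet.diff
    (CapB_closed c 1).measurableSet
  have hBv : volume.real B = ((1 + t) ^ 3 - 1) * (2 * Real.pi / 3 * (1 + c)) := by
    have hsub : {x : E3 | ‖x‖ ≤ 1 ∧ x 2 ≤ c * ‖x‖} ⊆ {x : E3 | ‖x‖ ≤ 1 + t ∧ x 2 ≤ c * ‖x‖} :=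
      fun x hx => ⟨hx.1.trans (by linarith), hx.2⟩
    have hfn : volume {x : E3 | ‖x‖ ≤ 1 + t ∧ x 2 ≤ c * ‖x‖} ≠ ⊤ :=
      CapB_bdd (R := 1 + t) fun x hx => hx.1
    rw [hB, measureReal_sdiff hsub (CapB_closed c 1).measurableSet hfn,
      CapB_scale c (1 + t) (by linarith), vol_sector c h0 h1]
    ring
  have hBn : ∀ x ∈ B, 1 < ‖x‖ ∧ ‖x‖ ≤ 1 + t ∧ x 2 ≤ c * ‖x‖ := by
    rintro x ⟨hx1, hx2⟩
    refine ⟨?_, hx1.1, hx1.2⟩
    by_contra h
    exact hx2 ⟨not_lt.1 h, hx1.2⟩
  have hAm : MeasurableSet (capB c) := (CapB_closedA c).measurableSet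
  have hAB : Disjoint (capB c) B := by
    rw [Set.disjoint_left]
    rintro x hxA hxB
    have h2 := (hBn x hxB).1
    have h3 := hxA.1
    rw [mem_closedBall, dist_zero_right] at h3
    linarith
  have hsA : capB c ⊆ cthickening t (capB c) := by
    intro x hx
    exact mem_cthickening_of_dist_le x x t _ hx (by rw [dist_self]; exact ht)
  have hsB : B ⊆ cthickening t (capB c) := by
    intro x hx
    obtain ⟨h2, h3, h4⟩ := hBn x hx
    have hpos : 0 < ‖x‖ := by linarith
    refine mem_cthickening_of_dist_le x ((‖x‖)⁻¹ • x) t _ ?_ ?_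
    · refine ⟨?_, ?_⟩
      · rw [mem_closedBall, dist_zero_right, norm_smul, norm_inv, norm_norm,
          inv_mul_cancel₀ hpos.ne']
      · show ((‖x‖)⁻¹ • x) 2 ≤ c
        rw [PiLp.smul_apply, smul_eq_mul, inv_mul_le_iff₀ hpos, mul_comm]
        exact h4
    · have h5 : x - (‖x‖)⁻¹ • x = (1 - (‖x‖)⁻¹) • x := by rw [sub_smul, one_smul]
      have h6 : 0 ≤ 1 - (‖x‖)⁻¹ := by
        have := inv_le_one_of_one_le₀ h2.le
        linarith
      rw [dist_eq_norm, h5, norm_smul, Real.norm_eq_abs, abs_of_nonneg h6, sub_mul,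
        inv_mul_cancel₀ hpos.ne', one_mul]
      linarith
  have hABv : volume.real (capB c ∪ B) =
      vol (capB c) + ((1 + t) ^ 3 - 1) * (2 * Real.pi / 3 * (1 + c)) := by
    rw [measureReal_union hAB hBm
      (CapB_bdd (R := 1) fun x hx => by
        have h3 := hx.1
        rwa [mem_closedBall, dist_zero_right] at h3)
      (CapB_bdd (R := 1 + t) fun x hx => (hBn x hx).2.1), hBv]
    rfl
  rcases eq_or_lt_of_le h1 with hc | hc
  · -- `c = 1`
    have h2 : volume.real (capB c ∪ B) ≤ volume.real (cthickening t (capB c)) :=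
      measureReal_mono (Set.union_subset hsA hsB) hfin
    rw [hABv] at h2
    have h3 : Real.pi * (1 - c ^ 2) * t = 0 := by rw [hc]; ring
    rw [h3, add_zero]
    exact h2
  · have hs0 : 0 ≤ 1 - c ^ 2 := by nlinarith
    set s : ℝ := Real.sqrt (1 - c ^ 2) with hs
    have hss : s ^ 2 = 1 - c ^ 2 := Real.sq_sqrt hs0
    set D : Set E3 := {x : E3 | x 0 ^ 2 + x 1 ^ 2 ≤ s ^ 2 ∧ c < x 2 ∧ x 2 ≤ c + t} with hD
    have hDv : volume.real D = Real.pi * (1 - c ^ 2) * t := by
      rw [hD, vol_cyl c s t (Real.sqrt_nonneg _) ht, hss]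
    have hDm : MeasurableSet D := by
      have e1 : MeasurableSet {x : E3 | x 0 ^ 2 + x 1 ^ 2 ≤ s ^ 2} :=
        (isClosed_le (by fun_prop) (by fun_prop)).measurableSet
      have e2 : MeasurableSet {x : E3 | c < x 2} :=
        (isOpen_lt (by fun_prop) (by fun_prop)).measurableSet
      have e3 : MeasurableSet {x : E3 | x 2 ≤ c + t} :=
        (isClosed_le (by fun_prop) (by fun_prop)).measurableSet
      exact e1.inter (e2.inter e3)
    have hDb : volume D ≠ ⊤ := by
      refine CapB_bdd (R := 1 + (c + t)) fun x hx => ?_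
      have hn := norm_sq_eq3 x
      have hx1 : x 0 ^ 2 + x 1 ^ 2 ≤ 1 := by
        have := hx.1
        rw [hss] at this
        nlinarith [sq_nonneg c]
      have hx2 : x 2 ^ 2 ≤ (c + t) ^ 2 := by
        have e1 := hx.2.1
        have e2 := hx.2.2
        nlinarith
      have hpos : 0 ≤ 1 + (c + t) := by linarith
      refine abs_le_of_sq_le_sq' ?_ hpos |>.2
      rw [hn]
      nlinarith
    have hdisj : Disjoint (capB c ∪ B) D := by
      rw [Set.disjoint_left]
      rintro x (hxA | hxB) hxD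
      · have h2 : x 2 ≤ c := hxA.2
        have h3 := hxD.2.1
        linarith
      · obtain ⟨h2, h3, h4⟩ := hBn x hxB
        have h5 := hxD.1
        have h6 := hxD.2.1
        rw [hss] at h5
        have hn := norm_sq_eq3 x
        have h7 : x 2 ^ 2 ≤ c ^ 2 * ‖x‖ ^ 2 := by
          have h8 : 0 ≤ x 2 := by linarith
          nlinarith
        have h9 : 0 < 1 - c ^ 2 := by nlinarith
        rw [hn] at h7
        have h10 : x 2 ^ 2 * (1 - c ^ 2) ≤ c ^ 2 * (1 - c ^ 2) := by nlinarith [sq_nonneg c]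
        have h11 : x 2 ^ 2 ≤ c ^ 2 := le_of_mul_le_mul_right h10 h9
        nlinarith
    have hsD : D ⊆ cthickening t (capB c) := by
      intro x hx
      refine mem_cthickening_of_dist_le x !₂[x 0, x 1, c] t _ ?_ ?_
      · refine ⟨?_, ?_⟩
        · rw [mem_closedBall, dist_zero_right]
          refine abs_le_of_sq_le_sq' ?_ zero_le_one |>.2
          rw [norm_sq_eq3]
          have h5 := hx.1
          rw [hss] at h5
          simp
          linarith
        · show (!₂[x 0, x 1, c] : E3) 2 ≤ c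
          simp
      · have h5 := hx.2.1
        have h6 := hx.2.2
        rw [dist_eq_norm]
        refine abs_le_of_sq_le_sq' ?_ ht |>.2
        rw [norm_sq_eq3]
        simp
        nlinarith
    have hU : volume.real (capB c ∪ B ∪ D) =
        vol (capB c) + ((1 + t) ^ 3 - 1) * (2 * Real.pi / 3 * (1 + c))
          + Real.pi * (1 - c ^ 2) * t := by
      rw [measureReal_union hdisj hDm
        (CapB_bdd (R := 1 + t) fun x hx => by
          rcases hx with hx | hx
          · have h3 := hx.1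
            rw [mem_closedBall, dist_zero_right] at h3
            linarith
          · exact (hBn x hx).2.1) hDb, hABv, hDv]
    rw [← hU]
    exact measureReal_mono (Set.union_subset (Set.union_subset hsA hsB) hsD) hfin

/-- JOB S2. Hence a lower bound of the surface area (derivative at `0` of both sides). -/
theorem surf_capB_ge (c : ℝ) (h0 : 0 ≤ c) (h1 : c ≤ 1)
    (hd : DifferentiableWithinAt ℝ (fun t => vol (cthickening t (capB c))) (Ici 0) 0) :
    2 * Real.pi * (1 + c) + Real.pi * (1 - c ^ 2) ≤ surf (capB c) := by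
  have hF := hd.hasDerivWithinAt
  set F : ℝ → ℝ := fun t => vol (cthickening t (capB c)) with hFdef
  set G : ℝ → ℝ := fun t => vol (capB c) + ((1 + t) ^ 3 - 1) * (2 * Real.pi / 3 * (1 + c))
      + Real.pi * (1 - c ^ 2) * t with hG
  have hGd : HasDerivWithinAt G (2 * Real.pi * (1 + c) + Real.pi * (1 - c ^ 2)) (Ici 0) 0 := by
    have e1 : HasDerivAt (fun t : ℝ => (1 + t) ^ 3 - 1) 3 0 := by
      have := (((hasDerivAt_id (0 : ℝ)).const_add 1).pow 3).sub_const 1
      refine this.congr_deriv ?_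
      simp
    have e2 := (e1.mul_const (2 * Real.pi / 3 * (1 + c))).const_add (vol (capB c))
    have e3 := e2.add ((hasDerivAt_id (0 : ℝ)).const_mul (Real.pi * (1 - c ^ 2)))
    refine (e3.congr_deriv ?_).hasDerivWithinAt
    ring
  have hF0 : F 0 = G 0 := by
    simp only [hFdef, hG, cthickening_zero, (CapB_closedA c).closure_eq]
    ring
  have hFG : ∀ t, 0 ≤ t → G t ≤ F t := fun t ht => vol_thick_capB_ge c t h0 h1 ht
  have hsub := hF.sub hGd
  rw [hasDerivWithinAt_iff_tendsto_slope] at hsub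
  have hset : (Ici (0 : ℝ)) \ {0} = Ioi 0 := by
    ext x
    simp only [Set.mem_sdiff, Set.mem_Ici, Set.mem_singleton_iff, Set.mem_Ioi]
    constructor
    · rintro ⟨ha, hb⟩
      exact lt_of_le_of_ne ha (Ne.symm hb)
    · intro hx
      exact ⟨hx.le, hx.ne'⟩
  rw [hset] at hsub
  have hge := ge_of_tendsto (b := (0 : ℝ)) hsub (by
    refine Filter.eventually_of_mem self_mem_nhdsWithin fun t ht => ?_
    have ht' : (0 : ℝ) < t := ht
    rw [slope_def_field]
    have h2 : (F - G) t - (F - G) 0 = F t - G t := by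
      simp only [Pi.sub_apply, hF0, sub_self, sub_zero]
    rw [h2, sub_zero]
    exact div_nonneg (sub_nonneg.2 (hFG t ht'.le)) ht'.le)
  have : surf (capB c) = derivWithin F (Ici 0) 0 := rfl
  rw [this]
  linarith

end

end Pool.Agent.Lib.MP_dabcc9_gt
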