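import Pool.Agent.Lib.MP_dabcc9_gt.Basic

/-! JOB C4a. Support functions. -/

open MeasureTheory Metric Set MvPolynomial

namespace Pool.Agent.Lib.MP_dabcc9_gt

noncomputable section

private lemma MollA_le {K : Set E3} (hK : IsCompact K) {y : E3} (hy : y ∈ K) (x : E3) :
    inner ℝ y x ≤ supp K x := by
  apply le_csSup
  · exact (hK.image (continuous_id.inner continuous_const)).bddAbove
  · exact ⟨y, hy, rfl⟩

private lemma MollA_ex {K : Set E3} (hK : IsCompact K) (hne : K.Nonempty) (x : E3) :
    ∃ y ∈ K, supp K x = inner ℝ y x := by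
  obtain ⟨y, hy, h⟩ := hK.exists_sSup_image_eq hne
    ((continuous_id.inner continuous_const).continuousOn (f := fun y : E3 => inner ℝ y x))
  exact ⟨y, hy, h⟩

theorem supp_lipschitz {K : Set E3} {R : ℝ} (hK : IsCompact K) (hne : K.Nonempty)
    (hR : K ⊆ closedBall 0 R) (x y : E3) : |supp K x - supp K y| ≤ R * ‖x - y‖ := by
  have key : ∀ x y : E3, supp K x - supp K y ≤ R * ‖x - y‖ := by
    intro x y
    obtain ⟨z, hz, h⟩ := MollA_ex hK hne x
    have h1 := MollA_le hK hz y
    have h2 : inner ℝ z x - inner ℝ z y = inner ℝ z (x - y) := (inner_sub_right _ _ _).symm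
    have h3 := real_inner_le_norm z (x - y)
    have h4 : ‖z‖ ≤ R := mem_closedBall_zero_iff.1 (hR hz)
    have h5 := mul_le_mul_of_nonneg_right h4 (norm_nonneg (x - y))
    linarith
  rw [abs_sub_le_iff]
  refine ⟨key x y, ?_⟩
  rw [norm_sub_rev]
  exact key y x

/-- Elementary properties of the support function of a compact nonempty set inside the ball of
radius `R`: sublinear, Lipschitz. -/
theorem supp_props {K : Set E3} (hK : IsCompact K) (hne : K.Nonempty) :
    (∀ y ∈ K, ∀ x : E3, inner ℝ y x ≤ supp K x) ∧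
    (∀ x : E3, ∃ y ∈ K, supp K x = inner ℝ y x) ∧
    (∀ x y : E3, supp K (x + y) ≤ supp K x + supp K y) ∧
    (∀ (c : ℝ) (x : E3), 0 ≤ c → supp K (c • x) = c * supp K x) ∧ Continuous (supp K) := by
  refine ⟨fun y hy x => MollA_le hK hy x, MollA_ex hK hne, ?_, ?_, ?_⟩
  · intro x y
    obtain ⟨z, hz, h⟩ := MollA_ex hK hne (x + y)
    rw [h, inner_add_right]
    exact add_le_add (MollA_le hK hz x) (MollA_le hK hz y)
  · intro c x hc
    apply le_antisymm
    · obtain ⟨z, hz, h⟩ := MollA_ex hK hne (c • x)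
      rw [h, real_inner_smul_right]
      exact mul_le_mul_of_nonneg_left (MollA_le hK hz x) hc
    · obtain ⟨z, hz, h⟩ := MollA_ex hK hne x
      rw [h, ← real_inner_smul_right]
      exact MollA_le hK hz (c • x)
  · obtain ⟨R, hR⟩ := hK.isBounded.subset_closedBall (0 : E3)
    apply (LipschitzWith.of_dist_le' (K := R) (f := supp K) ?_).continuous
    intro x y
    rw [Real.dist_eq, dist_eq_norm]
    exact supp_lipschitz hK hne hR x y

end

end Pool.Agent.Lib.MP_dabcc9_gt
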