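import Pool.Agent.Lib.MP_dabcc9_gt.SphB

/-! JOB B2c. Spherical coordinates in a frame. -/

open MeasureTheory Metric Set

namespace Pool.Agent.Lib.MP_dabcc9_gt

noncomputable section

/-- The same with any orthonormal frame `e1, e2, x0`: rotate by `av_comp_isometry` (the linear
isometry sending `eb 0, eb 1, eb 2` to `e1, e2, x0`). -/
theorem av_spherical_frame {f : E3 → ℝ} (hf : ContinuousOn f (sphere 0 1)) (e1 e2 x0 : E3)
    (h1 : ‖e1‖ = 1) (h2 : ‖e2‖ = 1) (h0 : ‖x0‖ = 1) (h12 : inner ℝ e1 e2 = 0)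
    (h10 : inner ℝ e1 x0 = 0) (h20 : inner ℝ e2 x0 = 0) :
    av f = 1 / (4 * Real.pi) *
      ∫ θ in (0 : ℝ)..Real.pi, ∫ φ in (0 : ℝ)..(2 * Real.pi),
        f (Real.cos θ • x0 + Real.sin θ • (Real.cos φ • e1 + Real.sin φ • e2)) * Real.sin θ := by
  have hon : Orthonormal ℝ ![e1, e2, x0] := by
    rw [orthonormal_iff_ite]
    intro i j
    fin_cases i <;> fin_cases j <;>
      simp [h1, h2, h0, h12, h10, h20, real_inner_self_eq_norm_sq,
        real_inner_comm e1 e2, real_inner_comm e1 x0, real_inner_comm e2 x0] <;>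
      first
        | (rw [real_inner_comm]; assumption)
        | skip
  obtain ⟨b, hb⟩ : ∃ b : OrthonormalBasis (Fin 3) ℝ E3, ∀ i, b i = ![e1, e2, x0] i := by
    have hon' : Orthonormal ℝ ((univ : Set (Fin 3)).domRestrict ![e1, e2, x0]) :=
      hon.comp _ Subtype.val_injective
    obtain ⟨b, hb⟩ := hon'.exists_orthonormalBasis_extension_of_card_eq (by simp)
    exact ⟨b, fun i => hb i (mem_univ i)⟩
  have hR : ∀ x : E3, b.repr.symm x = x 0 • e1 + x 1 • e2 + x 2 • x0 := by
    intro x
    rw [← b.sum_repr_symm, Fin.sum_univ_three, hb 0, hb 1, hb 2]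
    simp
  rw [← av_comp_isometry b.repr.symm f]
  have hfR : ContinuousOn (fun x => f (b.repr.symm x)) (sphere 0 1) := by
    refine hf.comp b.repr.symm.continuous.continuousOn ?_
    intro x hx
    simpa using hx
  rw [av_spherical hfR]
  congr 1
  refine intervalIntegral.integral_congr fun θ _ => ?_
  refine intervalIntegral.integral_congr fun φ _ => ?_
  have hx : b.repr.symm (sp θ φ) =
      Real.cos θ • x0 + Real.sin θ • (Real.cos φ • e1 + Real.sin φ • e2) := by
    rw [hR]
    simp only [sp]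
    simp [smul_add, smul_smul]
    abel
  show f (b.repr.symm (sp θ φ)) * Real.sin θ = _
  rw [hx]

/-- Every unit vector is part of an orthonormal frame. -/
theorem exists_frame (x0 : E3) (h0 : ‖x0‖ = 1) : ∃ e1 e2 : E3, ‖e1‖ = 1 ∧ ‖e2‖ = 1 ∧
    inner ℝ e1 e2 = 0 ∧ inner ℝ e1 x0 = 0 ∧ inner ℝ e2 x0 = 0 := by
  have hon : Orthonormal ℝ (({2} : Set (Fin 3)).domRestrict (fun _ => x0)) := by
    constructor
    · intro i; exact h0
    · intro i j hij
      exact absurd (Subsingleton.elim i j) hij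
  obtain ⟨b, hb⟩ := hon.exists_orthonormalBasis_extension_of_card_eq (by simp)
  have h2 : b 2 = x0 := hb 2 (by simp)
  refine ⟨b 0, b 1, b.orthonormal.1 0, b.orthonormal.1 1, b.orthonormal.2 (by decide), ?_, ?_⟩
  · rw [← h2]; exact b.orthonormal.2 (by decide)
  · rw [← h2]; exact b.orthonormal.2 (by decide)

/-- Functions of the height only. -/
theorem av_height {F : ℝ → ℝ} (hF : ContinuousOn F (Icc (-1) 1)) (x0 : E3) (h0 : ‖x0‖ = 1) :
    av (fun x => F (inner ℝ x x0)) = 1 / 2 * ∫ z in (-1 : ℝ)..1, F z := by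
  obtain ⟨e1, e2, h1, h2, h12, h10, h20⟩ := exists_frame x0 h0
  have hc : ContinuousOn (fun x : E3 => F (inner ℝ x x0)) (sphere 0 1) := by
    refine hF.comp (by fun_prop) ?_
    intro x hx
    have hx1 : ‖x‖ = 1 := by simpa using hx
    have := abs_real_inner_le_norm x x0
    rw [hx1, h0, one_mul, abs_le] at this
    exact this
  rw [av_spherical_frame hc e1 e2 x0 h1 h2 h0 h12 h10 h20]
  have hin : ∀ θ φ : ℝ, inner ℝ
      (Real.cos θ • x0 + Real.sin θ • (Real.cos φ • e1 + Real.sin φ • e2)) x0 = Real.cos θ := by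
    intro θ φ
    simp [inner_add_left, inner_smul_left, h10, h20, real_inner_self_eq_norm_sq, h0]
  simp_rw [hin]
  simp only [intervalIntegral.integral_const, smul_eq_mul, sub_zero]
  rw [intervalIntegral.integral_const_mul]
  have hsub : ∫ θ in (0 : ℝ)..Real.pi, F (Real.cos θ) * Real.sin θ = ∫ z in (-1 : ℝ)..1, F z := by
    have h := intervalIntegral.integral_comp_mul_deriv'' (a := 0) (b := Real.pi) (f := Real.cos)
      (f' := fun θ => - Real.sin θ) (g := F) Real.continuous_cos.continuousOn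
      (fun θ _ => (Real.hasDerivAt_cos θ).hasDerivWithinAt)
      (Real.continuous_sin.neg.continuousOn)
      (hF.mono (by
        rintro _ ⟨θ, _, rfl⟩
        exact ⟨Real.neg_one_le_cos θ, Real.cos_le_one θ⟩))
    simp only [Function.comp, Real.cos_zero, Real.cos_pi] at h
    rw [intervalIntegral.integral_symm (-1 : ℝ) 1] at h
    have h' : ∫ θ in (0 : ℝ)..Real.pi, F (Real.cos θ) * -Real.sin θ
        = - ∫ θ in (0 : ℝ)..Real.pi, F (Real.cos θ) * Real.sin θ := by
      rw [← intervalIntegral.integral_neg]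
      refine intervalIntegral.integral_congr fun θ _ => ?_
      simp
    rw [h'] at h
    exact neg_injective h
  rw [hsub]
  have hpi := Real.pi_pos.ne'
  field_simp
  ring

end

end Pool.Agent.Lib.MP_dabcc9_gt
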