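import Pool.Agent.Lib.MP_dabcc9_gt.CapA
import Pool.Agent.Lib.MP_dabcc9_gt.SphC
import Pool.Agent.Lib.MP_dabcc9_gt.MollA

/-! JOB S3. Mean width of the truncated ball. -/

open MeasureTheory Metric Set

namespace Pool.Agent.Lib.MP_dabcc9_gt

noncomputable section

theorem capC_greatest {K : Set E3} {x y : E3} {v : ℝ} (hy : y ∈ K) (hv : inner ℝ y x = v)
    (h : ∀ z ∈ K, inner ℝ z x ≤ v) : supp K x = v := by
  unfold supp
  apply IsGreatest.csSup_eq
  refine ⟨⟨y, hy, hv⟩, ?_⟩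
  rintro _ ⟨z, hz, rfl⟩
  exact h z hz

theorem capC_mem {c : ℝ} {y : E3} : y ∈ capB c ↔ ‖y‖ ≤ 1 ∧ y 2 ≤ c := by
  unfold capB
  simp [mem_closedBall, dist_zero_right]

theorem capC_normsq {y : E3} (h : y 0 ^ 2 + y 1 ^ 2 + y 2 ^ 2 ≤ 1) : ‖y‖ ≤ 1 := by
  rw [← norm_sq_eq3] at h
  nlinarith [norm_nonneg y]

/-- JOB S3. Support function on unit vectors.  For `x_3 > c`: maximise `<y,x>` over `|y| <= 1`,
`y_3 <= c`: `y_3 x_3 + sqrt(1 - y_3^2) sqrt(1 - x_3^2)` is increasing in `y_3 <= x_3`. -/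
theorem supp_capB (c : ℝ) (h0 : 0 ≤ c) (h1 : c ≤ 1) (x : E3) (hx : ‖x‖ = 1) :
    supp (capB c) x = if x 2 ≤ c then 1
      else c * x 2 + Real.sqrt (1 - c ^ 2) * Real.sqrt (1 - x 2 ^ 2) := by
  have hx2 : x 0 ^ 2 + x 1 ^ 2 + x 2 ^ 2 = 1 := by
    rw [← norm_sq_eq3, hx]; norm_num
  split_ifs with hc
  · apply capC_greatest (y := x) (capC_mem.2 ⟨hx.le, hc⟩)
    · rw [inner_eq3]; nlinarith
    · intro z hz
      have hz1 := (capC_mem.1 hz).1
      calc inner ℝ z x ≤ ‖z‖ * ‖x‖ := real_inner_le_norm z x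
        _ ≤ 1 := by rw [hx, mul_one]; exact hz1
  · push Not at hc
    have hx21 : x 2 ≤ 1 := by nlinarith [sq_nonneg (x 0), sq_nonneg (x 1)]
    have hc1 : c < 1 := lt_of_lt_of_le hc hx21
    set s := Real.sqrt (1 - c ^ 2) with hs
    set ρ := Real.sqrt (1 - x 2 ^ 2) with hρ
    have hs0 : 0 < s := Real.sqrt_pos.2 (by nlinarith)
    have hss : s ^ 2 = 1 - c ^ 2 := Real.sq_sqrt (by nlinarith)
    have hρ0 : 0 ≤ ρ := Real.sqrt_nonneg _
    have hρρ : ρ ^ 2 = 1 - x 2 ^ 2 := Real.sq_sqrt (by nlinarith)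
    have hxρ : x 0 ^ 2 + x 1 ^ 2 = ρ ^ 2 := by rw [hρρ]; linarith
    -- the maximiser
    have hmax : ∃ y ∈ capB c, inner ℝ y x = c * x 2 + s * ρ := by
      rcases hρ0.eq_or_lt with h | h
      · have hx0 : x 0 = 0 := by
          have : x 0 ^ 2 + x 1 ^ 2 = 0 := by rw [hxρ, ← h]; norm_num
          nlinarith [sq_nonneg (x 0), sq_nonneg (x 1)]
        have hx1 : x 1 = 0 := by
          have : x 0 ^ 2 + x 1 ^ 2 = 0 := by rw [hxρ, ← h]; norm_num
          nlinarith [sq_nonneg (x 0), sq_nonneg (x 1)]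
        refine ⟨!₂[s, 0, c], capC_mem.2 ⟨capC_normsq ?_, ?_⟩, ?_⟩
        · simp; linarith
        · simp
        · rw [inner_eq3, ← h, hx0, hx1]; simp
      · refine ⟨!₂[x 0 * s / ρ, x 1 * s / ρ, c], capC_mem.2 ⟨capC_normsq ?_, ?_⟩, ?_⟩
        · have e : (x 0 * s / ρ) ^ 2 + (x 1 * s / ρ) ^ 2 + c ^ 2 = 1 := by
            have : (x 0 * s / ρ) ^ 2 + (x 1 * s / ρ) ^ 2 = (x 0 ^ 2 + x 1 ^ 2) * s ^ 2 / ρ ^ 2 := by
              ring
            rw [this, hxρ, hss]
            field_simp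
            ring
          have := e.le
          simpa using this
        · simp
        · rw [inner_eq3]
          have e : x 0 * s / ρ * x 0 + x 1 * s / ρ * x 1 = s * ρ := by
            have : x 0 * s / ρ * x 0 + x 1 * s / ρ * x 1 = (x 0 ^ 2 + x 1 ^ 2) * s / ρ := by ring
            rw [this, hxρ]
            field_simp
          have := e
          simp
          linarith
    obtain ⟨y, hy, hyx⟩ := hmax
    apply capC_greatest hy hyx
    intro z hz
    obtain ⟨hz1, hz2⟩ := capC_mem.1 hz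
    have hzz : z 0 ^ 2 + z 1 ^ 2 + z 2 ^ 2 ≤ 1 := by
      rw [← norm_sq_eq3]; nlinarith [norm_nonneg z]
    rw [inner_eq3]
    -- the certificate
    set α := ρ / s with hα
    have hα0 : 0 ≤ α := div_nonneg hρ0 hs0.le
    have hαs : α * s = ρ := by rw [hα]; field_simp
    have hβ : 0 ≤ x 2 - α * c := by
      have h3 : (α * c) ^ 2 ≤ (x 2) ^ 2 := by
        have h4 : (α * c) ^ 2 * s ^ 2 ≤ (x 2) ^ 2 * s ^ 2 := by
          have : (α * c) ^ 2 * s ^ 2 = (α * s) ^ 2 * c ^ 2 := by ring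
          rw [this, hαs, hρρ, hss]
          nlinarith
        exact le_of_mul_le_mul_right h4 (by positivity)
      have h5 : α * c ≤ x 2 := by
        apply le_of_sq_le_sq _ (by linarith) |>.trans le_rfl
        exact h3
      linarith
    have hcs : z 0 * x 0 + z 1 * x 1 + z 2 * (α * c) ≤ α := by
      have h6 : (z 0 * x 0 + z 1 * x 1 + z 2 * (α * c)) ^ 2 ≤ α ^ 2 := by
        have h7 : (z 0 * x 0 + z 1 * x 1 + z 2 * (α * c)) ^ 2 ≤
            (z 0 ^ 2 + z 1 ^ 2 + z 2 ^ 2) * (x 0 ^ 2 + x 1 ^ 2 + (α * c) ^ 2) := by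
          nlinarith [sq_nonneg (z 0 * x 1 - z 1 * x 0), sq_nonneg (z 0 * (α * c) - z 2 * x 0),
            sq_nonneg (z 1 * (α * c) - z 2 * x 1)]
        have h8 : x 0 ^ 2 + x 1 ^ 2 + (α * c) ^ 2 = α ^ 2 := by
          rw [hxρ, ← hαs]
          have : (α * s) ^ 2 + (α * c) ^ 2 = α ^ 2 * (s ^ 2 + c ^ 2) := by ring
          rw [this, hss]; ring
        rw [h8] at h7
        nlinarith [sq_nonneg α]
      nlinarith [abs_le_of_sq_le_sq h6 hα0, le_abs_self (z 0 * x 0 + z 1 * x 1 + z 2 * (α * c))]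
    have h9 : z 2 * (x 2 - α * c) ≤ c * (x 2 - α * c) := mul_le_mul_of_nonneg_right hz2 hβ
    have h10 : α * (1 - c ^ 2) = s * ρ := by rw [← hss, ← hαs]; ring
    nlinarith

theorem capC_int (t : ℝ) (h0 : 0 < t) (h1 : t < 1) :
    ∫ z in (Real.cos t)..1, Real.sqrt (1 - z ^ 2) = (t - Real.cos t * Real.sin t) / 2 := by
  have hsub := intervalIntegral.integral_comp_mul_deriv (a := 0) (b := t)
    (f := Real.cos) (f' := fun u => - Real.sin u) (g := fun z => Real.sqrt (1 - z ^ 2))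
    (fun u _ => Real.hasDerivAt_cos u) (by fun_prop) (by fun_prop)
  rw [Real.cos_zero] at hsub
  have h2 : ∫ u in (0 : ℝ)..t, ((fun z => Real.sqrt (1 - z ^ 2)) ∘ Real.cos) u * (- Real.sin u) =
      ∫ u in (0 : ℝ)..t, - (Real.sin u ^ 2) := by
    apply intervalIntegral.integral_congr
    intro u hu
    rw [uIcc_of_le h0.le] at hu
    have hpi := Real.pi_gt_three
    have hsin : 0 ≤ Real.sin u := Real.sin_nonneg_of_nonneg_of_le_pi hu.1 (by linarith [hu.2])
    have : Real.sqrt (1 - Real.cos u ^ 2) = Real.sin u := by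
      rw [← Real.sin_sq, Real.sqrt_sq hsin]
    simp only [Function.comp]
    rw [this]; ring
  rw [h2, intervalIntegral.integral_neg, integral_sin_sq] at hsub
  rw [intervalIntegral.integral_symm, ← hsub]
  simp
  ring

/-- JOB S3. PROOF: `av_height` with `x0 = eb 2`:
`1/2 (1 + c + ∫_c^1 (c z + sqrt(1-c^2) sqrt(1-z^2)) dz)`, `c = cos t`:
`∫_c^1 sqrt (1 - z^2) = (t - cos t sin t)/2`. -/
theorem av_supp_capB (t : ℝ) (h0 : 0 < t) (h1 : t < 1) :
    av (supp (capB (Real.cos t))) = (1 + Real.cos t) / 2 + t * Real.sin t / 4 := by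
  have hpi := Real.pi_gt_three
  have hc0 : 0 ≤ Real.cos t := Real.cos_nonneg_of_neg_pi_div_two_le_of_le (by linarith) (by linarith)
  have hc1 : Real.cos t ≤ 1 := Real.cos_le_one t
  have hs0 : 0 ≤ Real.sin t := Real.sin_nonneg_of_nonneg_of_le_pi h0.le (by linarith)
  have hsq : Real.sqrt (1 - Real.cos t ^ 2) = Real.sin t := by
    rw [← Real.sin_sq, Real.sqrt_sq hs0]
  set c := Real.cos t with hc
  set s := Real.sin t with hs
  have hcs : s ^ 2 + c ^ 2 = 1 := Real.sin_sq_add_cos_sq t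
  let F : ℝ → ℝ := fun z => if z ≤ c then 1 else c * z + s * Real.sqrt (1 - z ^ 2)
  have hF : Continuous F := by
    apply Continuous.if_le continuous_const (by fun_prop) continuous_id continuous_const
    intro z hz
    have hz' : z = c := hz
    rw [hz', hsq]
    nlinarith
  have hx0 : ‖eb 2‖ = 1 := by simp [eb]
  have hin : ∀ x : E3, inner ℝ x (eb 2) = x 2 := by
    intro x
    rw [inner_eq3]
    simp [eb]
  have h2 : av (supp (capB c)) = av (fun x => F (inner ℝ x (eb 2))) := by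
    apply av_congr
    intro x hx
    rw [supp_capB c hc0 hc1 x hx, hin, hsq]
  rw [h2, av_height hF.continuousOn (eb 2) hx0]
  have h3 : ∫ z in (-1 : ℝ)..1, F z = (∫ z in (-1 : ℝ)..c, F z) + ∫ z in c..1, F z :=
    (intervalIntegral.integral_add_adjacent_intervals (hF.intervalIntegrable _ _)
      (hF.intervalIntegrable _ _)).symm
  have h4 : ∫ z in (-1 : ℝ)..c, F z = c + 1 := by
    have : ∫ z in (-1 : ℝ)..c, F z = ∫ z in (-1 : ℝ)..c, (1 : ℝ) := by
      apply intervalIntegral.integral_congr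
      intro z hz
      rw [uIcc_of_le (by linarith)] at hz
      exact if_pos hz.2
    rw [this]
    simp
  have h5 : ∫ z in c..1, F z = ∫ z in c..1, (c * z + s * Real.sqrt (1 - z ^ 2)) := by
    apply intervalIntegral.integral_congr
    intro z hz
    rw [uIcc_of_le hc1] at hz
    rcases hz.1.eq_or_lt with h | h
    · have hsq' : Real.sqrt (1 - c ^ 2) = s := hsq
      show (if z ≤ c then 1 else c * z + s * Real.sqrt (1 - z ^ 2)) = _
      rw [← h, if_pos le_rfl]
      simp only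
      rw [hsq']
      nlinarith
    · exact if_neg (not_le.2 h)
  have h6 : ∫ z in c..1, (c * z + s * Real.sqrt (1 - z ^ 2)) =
      c * ((1 - c ^ 2) / 2) + s * ((t - c * s) / 2) := by
    rw [intervalIntegral.integral_add, intervalIntegral.integral_const_mul,
      intervalIntegral.integral_const_mul, capC_int t h0 h1, integral_id]
    · rw [← hc, ← hs]
      norm_num
    · exact (by fun_prop : Continuous fun z : ℝ => c * z).intervalIntegrable _ _
    · exact (by fun_prop : Continuous fun z : ℝ =>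
        s * Real.sqrt (1 - z ^ 2)).intervalIntegrable _ _
  rw [h3, h4, h5, h6]
  nlinarith

end

end Pool.Agent.Lib.MP_dabcc9_gt
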