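import Pool.Agent.Lib.MP_dabcc9_gt.Basic

/-! JOB S4. Asymptotics. -/

open MeasureTheory Metric Set

namespace Pool.Agent.Lib.MP_dabcc9_gt

noncomputable section

private theorem CapD_mono {f f' : ℝ → ℝ} (hf : ∀ x, HasDerivAt f (f' x) x) (h0 : f 0 = 0)
    (h : ∀ x, 0 ≤ x → 0 ≤ f' x) (x : ℝ) (hx : 0 ≤ x) : 0 ≤ f x := by
  have hm : MonotoneOn f (Set.Ici 0) := by
    apply monotoneOn_of_deriv_nonneg (convex_Ici 0)
    · exact (continuous_iff_continuousAt.2 fun x => (hf x).continuousAt).continuousOn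
    · exact fun x _ => (hf x).differentiableAt.differentiableWithinAt
    · intro y hy
      rw [interior_Ici] at hy
      rw [(hf y).deriv]
      exact h y (le_of_lt hy)
  have h1 := hm (Set.mem_Ici.2 le_rfl) (Set.mem_Ici.2 hx) hx
  rwa [h0] at h1

private theorem CapD_sin3 (x : ℝ) (hx : 0 ≤ x) : x - x ^ 3 / 6 ≤ Real.sin x := by
  have h := CapD_mono (f := fun x => Real.sin x - (x - x ^ 3 / 6))
    (f' := fun x => Real.cos x - (1 - x ^ 2 / 2)) (fun y => by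
      have h1 := (Real.hasDerivAt_sin y).sub ((hasDerivAt_id y).sub ((hasDerivAt_pow 3 y).div_const 6))
      refine HasDerivAt.congr_deriv h1 ?_
      norm_num
      try ring) (by simp) (fun y _ => by
        have := Real.one_sub_sq_div_two_le_cos (x := y)
        linarith) x hx
  have h' := h
  linarith

private theorem CapD_cos4 (x : ℝ) (hx : 0 ≤ x) : Real.cos x ≤ 1 - x ^ 2 / 2 + x ^ 4 / 24 := by
  have h := CapD_mono (f := fun x => (1 - x ^ 2 / 2 + x ^ 4 / 24) - Real.cos x)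
    (f' := fun x => Real.sin x - (x - x ^ 3 / 6)) (fun y => by
      have h1 := ((((hasDerivAt_const y (1 : ℝ)).sub ((hasDerivAt_pow 2 y).div_const 2)).add
        ((hasDerivAt_pow 4 y).div_const 24))).sub (Real.hasDerivAt_cos y)
      refine HasDerivAt.congr_deriv h1 ?_
      norm_num
      try ring) (by simp) (fun y hy => by
        have := CapD_sin3 y hy
        linarith) x hx
  have h' := h
  linarith

private theorem CapD_sin5 (x : ℝ) (hx : 0 ≤ x) : Real.sin x ≤ x - x ^ 3 / 6 + x ^ 5 / 120 := by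
  have h := CapD_mono (f := fun x => (x - x ^ 3 / 6 + x ^ 5 / 120) - Real.sin x)
    (f' := fun x => (1 - x ^ 2 / 2 + x ^ 4 / 24) - Real.cos x) (fun y => by
      have h1 := (((hasDerivAt_id y).sub ((hasDerivAt_pow 3 y).div_const 6)).add
        ((hasDerivAt_pow 5 y).div_const 120)).sub (Real.hasDerivAt_sin y)
      refine HasDerivAt.congr_deriv h1 ?_
      norm_num
      try ring) (by simp) (fun y hy => by
        have := CapD_cos4 y hy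
        linarith) x hx
  have h' := h
  linarith

private theorem CapD_cos6 (x : ℝ) (hx : 0 ≤ x) :
    1 - x ^ 2 / 2 + x ^ 4 / 24 - x ^ 6 / 720 ≤ Real.cos x := by
  have h := CapD_mono (f := fun x => Real.cos x - (1 - x ^ 2 / 2 + x ^ 4 / 24 - x ^ 6 / 720))
    (f' := fun x => (x - x ^ 3 / 6 + x ^ 5 / 120) - Real.sin x) (fun y => by
      have h1 := (Real.hasDerivAt_cos y).sub ((((hasDerivAt_const y (1 : ℝ)).sub
        ((hasDerivAt_pow 2 y).div_const 2)).add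
        ((hasDerivAt_pow 4 y).div_const 24)).sub ((hasDerivAt_pow 6 y).div_const 720))
      refine HasDerivAt.congr_deriv h1 ?_
      norm_num
      try ring) (by simp) (fun y hy => by
        have := CapD_sin5 y hy
        linarith) x hx
  have h' := h
  linarith

/-- the algebraic part; `w = 1 - cos t`, `d = 1 - m` -/
private theorem CapD_alg (ε u w d : ℝ) (hε : 0 < ε) (hε1 : ε ≤ 1) (hu : 0 < u) (hu1 : u ≤ ε / 10)
    (hw1 : u / 2 - u ^ 2 / 24 ≤ w) (hw2 : w ≤ u / 2)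
    (hd1 : u ^ 2 / 48 - u ^ 3 / 480 ≤ d) (hd2 : d ≤ u ^ 2 / 48 + u ^ 3 / 1440) :
    0 < 1 - d ∧ 1 - ε < (1 - w ^ 2 / 4) / (1 - d) ^ 2 ∧
      (1 - 3 * w ^ 2 / 4 + w ^ 3 / 4) / (1 - d) ^ 3 < 1 ∧
      0 ≤ 1 - (1 - w ^ 2 / 4) / (1 - d) ^ 2 ∧
      (6 - ε) * (1 - (1 - w ^ 2 / 4) / (1 - d) ^ 2) ≤
        1 - (1 - 3 * w ^ 2 / 4 + w ^ 3 / 4) / (1 - d) ^ 3 := by
  have hu1' : u ≤ 1 / 10 := by linarith
  have hu2 : 0 < u ^ 2 := by positivity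
  have hu3 : 0 < u ^ 3 := by positivity
  have h32 : u ^ 3 ≤ u ^ 2 / 10 := by nlinarith
  have h42 : u ^ 4 ≤ u ^ 3 / 10 := by nlinarith
  have hd0 : 0 < d := by nlinarith
  have hdu : d ≤ u ^ 2 / 40 := by linarith
  have hdd : d ^ 2 ≤ u ^ 3 / 1600 := by
    have h1 : d ^ 2 ≤ (u ^ 2 / 40) ^ 2 := pow_le_pow_left₀ hd0.le hdu 2
    have h2 : (u ^ 2 / 40) ^ 2 = u ^ 4 / 1600 := by ring
    rw [h2] at h1
    linarith
  have hd1' : d ≤ 1 / 1000 := by nlinarith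
  have hddd : d ^ 3 ≤ d ^ 2 := by nlinarith [sq_nonneg d]
  have hw0 : 0 ≤ w := by nlinarith
  have hww1 : u ^ 2 / 4 - u ^ 3 / 24 ≤ w ^ 2 := by
    have h0 : 0 ≤ u / 2 - u ^ 2 / 24 := by nlinarith
    have h1 : (u / 2 - u ^ 2 / 24) ^ 2 ≤ w ^ 2 := pow_le_pow_left₀ h0 hw1 2
    have h2 : (u / 2 - u ^ 2 / 24) ^ 2 = u ^ 2 / 4 - u ^ 3 / 24 + (u ^ 2 / 24) ^ 2 := by ring
    nlinarith [sq_nonneg (u ^ 2 / 24)]
  have hww2 : w ^ 2 ≤ u ^ 2 / 4 := by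
    have h1 : w ^ 2 ≤ (u / 2) ^ 2 := pow_le_pow_left₀ hw0 hw2 2
    have h2 : (u / 2) ^ 2 = u ^ 2 / 4 := by ring
    linarith
  have hwww : w ^ 3 ≤ u ^ 3 / 8 := by
    have h1 : w ^ 3 ≤ (u / 2) ^ 3 := pow_le_pow_left₀ hw0 hw2 3
    have h2 : (u / 2) ^ 3 = u ^ 3 / 8 := by ring
    linarith
  have hm : 0 < 1 - d := by linarith
  have hm2 : 0 < (1 - d) ^ 2 := by positivity
  have hm3 : 0 < (1 - d) ^ 3 := by positivity
  -- numerators
  have hA0 : 0 ≤ w ^ 2 / 4 - 2 * d + d ^ 2 := by nlinarith [sq_nonneg d]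
  have hA1 : w ^ 2 / 4 - 2 * d + d ^ 2 ≤ u ^ 2 / 48 + u ^ 3 / 200 := by linarith
  have hB1 : u ^ 2 / 8 - u ^ 3 * (7 / 100) ≤ 3 * w ^ 2 / 4 - 3 * d + 3 * d ^ 2 - d ^ 3 - w ^ 3 / 4 := by
    nlinarith [sq_nonneg d]
  have hB0 : 0 < 3 * w ^ 2 / 4 - 3 * d + 3 * d ^ 2 - d ^ 3 - w ^ 3 / 4 := by linarith
  have hX : 1 - (1 - w ^ 2 / 4) / (1 - d) ^ 2 = (w ^ 2 / 4 - 2 * d + d ^ 2) / (1 - d) ^ 2 := by
    field_simp
    ring
  have hY : 1 - (1 - 3 * w ^ 2 / 4 + w ^ 3 / 4) / (1 - d) ^ 3 =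
      (3 * w ^ 2 / 4 - 3 * d + 3 * d ^ 2 - d ^ 3 - w ^ 3 / 4) / (1 - d) ^ 3 := by
    field_simp
    ring
  have hXpos : 0 ≤ 1 - (1 - w ^ 2 / 4) / (1 - d) ^ 2 := by
    rw [hX]
    positivity
  have hmain : (6 - ε) * (w ^ 2 / 4 - 2 * d + d ^ 2) ≤
      3 * w ^ 2 / 4 - 3 * d + 3 * d ^ 2 - d ^ 3 - w ^ 3 / 4 := by
    have h1 : (6 - ε) * (w ^ 2 / 4 - 2 * d + d ^ 2) ≤ (6 - ε) * (u ^ 2 / 48 + u ^ 3 / 200) :=
      mul_le_mul_of_nonneg_left hA1 (by linarith)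
    have h2 : (6 - ε) * (u ^ 2 / 48 + u ^ 3 / 200) ≤ u ^ 2 / 8 - u ^ 3 * (7 / 100) := by
      have h3 : u ^ 3 ≤ u ^ 2 * (ε / 10) := by
        have : u ^ 3 = u ^ 2 * u := by ring
        rw [this]
        exact mul_le_mul_of_nonneg_left hu1 hu2.le
      have h4 : 0 ≤ ε * u ^ 3 := by positivity
      nlinarith
    linarith
  refine ⟨hm, ?_, ?_, hXpos, ?_⟩
  · have h1 : (w ^ 2 / 4 - 2 * d + d ^ 2) / (1 - d) ^ 2 < ε := by
      rw [div_lt_iff₀ hm2]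
      have h2 : (1 : ℝ) / 2 ≤ (1 - d) ^ 2 := by nlinarith
      have h3 : ε * (1 / 2) ≤ ε * (1 - d) ^ 2 := mul_le_mul_of_nonneg_left h2 hε.le
      nlinarith
    linarith
  · have h1 : 0 < (3 * w ^ 2 / 4 - 3 * d + 3 * d ^ 2 - d ^ 3 - w ^ 3 / 4) / (1 - d) ^ 3 := by
      positivity
    linarith
  · rw [hX, hY, mul_div_assoc', div_le_div_iff₀ hm2 hm3]
    have h1 : (6 - ε) * (w ^ 2 / 4 - 2 * d + d ^ 2) * (1 - d) ^ 3 ≤
        (6 - ε) * (w ^ 2 / 4 - 2 * d + d ^ 2) * (1 - d) ^ 2 := by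
      apply mul_le_mul_of_nonneg_left
      · have : (1 - d) ^ 3 = (1 - d) ^ 2 * (1 - d) := by ring
        rw [this]
        exact mul_le_of_le_one_right hm2.le (by linarith)
      · exact mul_nonneg (by linarith) hA0
    exact h1.trans (mul_le_mul_of_nonneg_right hmain hm2.le)

/-- JOB S4. Asymptotics `t -> 0`: with `c = cos t`, `m = (1+c)/2 + t sin t/4 = 1 - t^4/48 + O(t^6)`,
`X = ((1+c)/2 + (1-c^2)/4)/m^2 = 1 - t^4/48 + ..`, `Y = (1/2 + 3/4 c - c^3/4)/m^3 = 1 - t^4/8 + ..`. -/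
theorem cap_asymp (ε : ℝ) (hε : 0 < ε) : ∃ t : ℝ, 0 < t ∧ t < 1 ∧
    let c := Real.cos t
    let m := (1 + c) / 2 + t * Real.sin t / 4
    let X := ((1 + c) / 2 + (1 - c ^ 2) / 4) / m ^ 2
    let Y := (1 / 2 + 3 / 4 * c - c ^ 3 / 4) / m ^ 3
    0 < m ∧ 1 - ε < X ∧ Y < 1 ∧ (6 - ε) * (1 - X) ≤ 1 - Y := by
  set e : ℝ := min ε 1 with he
  have he0 : 0 < e := lt_min hε one_pos
  have he1 : e ≤ 1 := min_le_right _ _
  have hee : e ≤ ε := min_le_left _ _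
  set t : ℝ := e / 10 with ht
  have ht0 : 0 < t := by positivity
  have ht1 : t ≤ 1 / 10 := by linarith
  have hs1 := CapD_sin3 t ht0.le
  have hs2 := CapD_sin5 t ht0.le
  have hc1 := CapD_cos4 t ht0.le
  have hc2 := CapD_cos6 t ht0.le
  have hts1 : t ^ 2 - (t ^ 2) ^ 2 / 6 ≤ t * Real.sin t := by
    have := mul_le_mul_of_nonneg_left hs1 ht0.le
    have h2 : t * (t - t ^ 3 / 6) = t ^ 2 - (t ^ 2) ^ 2 / 6 := by ring
    linarith
  have hts2 : t * Real.sin t ≤ t ^ 2 - (t ^ 2) ^ 2 / 6 + (t ^ 2) ^ 3 / 120 := by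
    have := mul_le_mul_of_nonneg_left hs2 ht0.le
    have h2 : t * (t - t ^ 3 / 6 + t ^ 5 / 120) = t ^ 2 - (t ^ 2) ^ 2 / 6 + (t ^ 2) ^ 3 / 120 := by
      ring
    linarith
  have hc1' : Real.cos t ≤ 1 - t ^ 2 / 2 + (t ^ 2) ^ 2 / 24 := by
    have h2 : 1 - t ^ 2 / 2 + (t ^ 2) ^ 2 / 24 = 1 - t ^ 2 / 2 + t ^ 4 / 24 := by ring
    linarith
  have hc2' : 1 - t ^ 2 / 2 + (t ^ 2) ^ 2 / 24 - (t ^ 2) ^ 3 / 720 ≤ Real.cos t := by
    have h2 : 1 - t ^ 2 / 2 + (t ^ 2) ^ 2 / 24 - (t ^ 2) ^ 3 / 720 =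
      1 - t ^ 2 / 2 + t ^ 4 / 24 - t ^ 6 / 720 := by ring
    linarith
  have hu0 : 0 < t ^ 2 := by positivity
  have hut : t ^ 2 ≤ e / 10 := by
    have : t ^ 2 ≤ t := by nlinarith
    linarith
  have hc3 : 1 - t ^ 2 / 2 ≤ Real.cos t := Real.one_sub_sq_div_two_le_cos
  obtain ⟨h1, h2, h3, h4, h5⟩ := CapD_alg e (t ^ 2) (1 - Real.cos t)
    (1 - ((1 + Real.cos t) / 2 + t * Real.sin t / 4)) he0 he1 hu0 hut (by linarith) (by linarith)
    (by linarith) (by linarith)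
  refine ⟨t, ht0, by linarith, ?_⟩
  intro c m X Y
  have hm : (1 - (1 - ((1 + Real.cos t) / 2 + t * Real.sin t / 4))) = m := by
    simp only [m, c]
    ring
  have hX : (1 - (1 - Real.cos t) ^ 2 / 4) = (1 + c) / 2 + (1 - c ^ 2) / 4 := by
    simp only [c]
    ring
  have hY : (1 - 3 * (1 - Real.cos t) ^ 2 / 4 + (1 - Real.cos t) ^ 3 / 4) =
      1 / 2 + 3 / 4 * c - c ^ 3 / 4 := by
    simp only [c]
    ring
  rw [hm, hX] at h2 h4
  rw [hm, hY] at h3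
  rw [hm, hX, hY] at h5
  rw [hm] at h1
  refine ⟨h1, ?_, h3, ?_⟩
  · exact lt_of_le_of_lt (by linarith) h2
  · refine le_trans ?_ h5
    exact mul_le_mul_of_nonneg_right (by linarith) h4

end

end Pool.Agent.Lib.MP_dabcc9_gt
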