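import Pool.Agent.Lib.MP_dabcc9_gt.DcDefs

/-! JOB D1.  Derivatives along meridians and parallels. -/

open MeasureTheory Metric Set

namespace Pool.Agent.Lib.MP_dabcc9_gt

noncomputable section

/-- Derivative along a meridian.  PROOF: `sp θ φ` has derivative
`(cos θ cos φ, cos θ sin φ, -sin θ) = -sin φ (e_0 × x) + cos φ (e_1 × x)`, `x = sp θ φ`; chain rule
with `ev_L_eq_fderiv : ev (L i p) x = fderiv ℝ (ev p) x (cr (eb i) x)` and `RotB_differentiable`. -/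
theorem DcA_theta (p : P) (θ φ : ℝ) : HasDerivAt (fun θ => ev p (sp θ φ))
    (-(Real.sin φ * ev (L 0 p) (sp θ φ)) + Real.cos φ * ev (L 1 p) (sp θ φ)) θ := by
  have h1 : HasDerivAt (fun θ => sp θ φ) (Real.cos θ • eh φ + (-Real.sin θ) • eb 2) θ := by
    have e : (fun θ => sp θ φ) = fun θ => Real.sin θ • eh φ + Real.cos θ • eb 2 := by
      funext θ
      exact sp_eq θ φ
    rw [e]
    exact ((Real.hasDerivAt_sin θ).smul_const (eh φ)).add ((Real.hasDerivAt_cos θ).smul_const (eb 2))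
  have h2 : Real.cos θ • eh φ + (-Real.sin θ) • eb 2 =
      (-Real.sin φ) • cr (eb 0) (sp θ φ) + Real.cos φ • cr (eb 1) (sp θ φ) := by
    have hsc := Real.sin_sq_add_cos_sq φ
    ext j
    fin_cases j
    · simp [cr, eb, sp, eh]
      ring
    · simp [cr, eb, sp, eh]
      ring
    · simp [cr, eb, sp, eh]
      linear_combination Real.sin θ * hsc
  rw [h2] at h1
  have h3 := (RotB_differentiable p (sp θ φ)).hasFDerivAt.comp_hasDerivAt θ h1
  rw [map_add, map_smul, map_smul, ← ev_L_eq_fderiv, ← ev_L_eq_fderiv, smul_eq_mul, smul_eq_mul] at h3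
  rw [← neg_mul]
  exact h3

/-- Derivative along a parallel: `(-sin θ sin φ, sin θ cos φ, 0) = e_2 × x`. -/
theorem DcA_phi (p : P) (θ φ : ℝ) : HasDerivAt (fun φ => ev p (sp θ φ))
    (ev (L 2 p) (sp θ φ)) φ := by
  have e : ∀ φ, sp θ φ = rotv 2 φ (sp θ 0) := by
    intro φ
    ext j
    fin_cases j <;> simp [rotv, eb, sp] <;> ring
  have h1 := hasDerivAt_rotv 2 p (sp θ 0) φ
  rw [← e φ] at h1
  have h2 : (fun φ => ev p (sp θ φ)) = fun t => ev p (rotv 2 t (sp θ 0)) := by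
    funext t
    rw [e t]
  rw [h2]
  exact h1

/-- With `a = L 0 p`, `b = L 1 p`, `c = L 2 p`: `a^2 + b^2 + c^2 = (-s a + c' b)^2
+ (c' a + s b)^2 + c^2`, `s = sin φ`, `c' = cos φ`. -/
theorem DcA_Gam (p : P) (θ φ : ℝ) :
    (-(Real.sin φ * ev (L 0 p) (sp θ φ)) + Real.cos φ * ev (L 1 p) (sp θ φ)) ^ 2
      + ev (L 2 p) (sp θ φ) ^ 2 ≤ ev (Gam p p) (sp θ φ) := by
  have e : ev (Gam p p) (sp θ φ) = ev (L 0 p) (sp θ φ) ^ 2 + ev (L 1 p) (sp θ φ) ^ 2
      + ev (L 2 p) (sp θ φ) ^ 2 := by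
    unfold Gam
    rw [ev_sum, Fin.sum_univ_three, ev_mul, ev_mul, ev_mul]
    ring
  rw [e]
  have hsc := Real.sin_sq_add_cos_sq φ
  nlinarith [sq_nonneg (Real.cos φ * ev (L 0 p) (sp θ φ) + Real.sin φ * ev (L 1 p) (sp θ φ)), hsc]

end

end Pool.Agent.Lib.MP_dabcc9_gt
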