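import Mathlib

/-! JOB D2.  The one dimensional inequality on a meridian. -/

open MeasureTheory Metric Set

namespace Pool.Agent.Lib.MP_dabcc9_gt

noncomputable section

/-- PROOF.  `κ = f - sin`, `κ' = f' - cos`.
`(f^2 - f'^2/2) sin = sin^3 - 1/2 cos^2 sin + (2 sin^2 κ - sin cos κ') + κ^2 sin - 1/2 κ'^2 sin`.
`∫ (sin^3 - 1/2 cos^2 sin) = 4/3 - 1/3 = 1`; `(sin cos κ)' = (cos^2 - sin^2) κ + sin cos κ'` so
`∫ sin cos κ' = -∫ (cos^2 - sin^2) κ` and `∫ (2 sin^2 κ - sin cos κ') = ∫ κ`; the last term is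
`<= 0`. -/
theorem meridian_ineq (f f' : ℝ → ℝ) (hf : ∀ t, HasDerivAt f (f' t) t) (hc : Continuous f') :
    ∫ t in (0 : ℝ)..Real.pi, (f t ^ 2 - 1 / 2 * f' t ^ 2) * Real.sin t ≤
      1 + (∫ t in (0 : ℝ)..Real.pi, (f t - Real.sin t))
        + ∫ t in (0 : ℝ)..Real.pi, (f t - Real.sin t) ^ 2 * Real.sin t := by
  have hfc : Continuous f := continuous_iff_continuousAt.2 fun t => (hf t).continuousAt
  -- the function whose derivative is the exact part
  have hΦ : ∀ t : ℝ, HasDerivAt
      (fun t => -Real.cos t + 1 / 2 * Real.cos t ^ 3 - Real.sin t * Real.cos t * (f t - Real.sin t))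
      (Real.sin t - 3 / 2 * Real.cos t ^ 2 * Real.sin t
        - ((Real.cos t ^ 2 - Real.sin t ^ 2) * (f t - Real.sin t)
          + Real.sin t * Real.cos t * (f' t - Real.cos t))) t := by
    intro t
    have h1 := (Real.hasDerivAt_cos t).neg
    have h2 := ((Real.hasDerivAt_cos t).pow 3).const_mul (1 / 2)
    have h3 := ((Real.hasDerivAt_sin t).mul (Real.hasDerivAt_cos t)).mul
      ((hf t).sub (Real.hasDerivAt_sin t))
    have h4 := (h1.add h2).sub h3
    refine HasDerivAt.congr_deriv (h4.congr_of_eventuallyEq ?_) ?_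
    · exact Filter.Eventually.of_forall fun s => by simp
    · simp only [Pi.sub_apply, Pi.mul_apply]
      ring
  have hint : ∫ t in (0 : ℝ)..Real.pi, (Real.sin t - 3 / 2 * Real.cos t ^ 2 * Real.sin t
        - ((Real.cos t ^ 2 - Real.sin t ^ 2) * (f t - Real.sin t)
          + Real.sin t * Real.cos t * (f' t - Real.cos t))) = 1 := by
    rw [intervalIntegral.integral_eq_sub_of_hasDerivAt (fun t _ => hΦ t)
      (Continuous.intervalIntegrable (by fun_prop) _ _)]
    simp
    norm_num
  have hpos : 0 ≤ ∫ t in (0 : ℝ)..Real.pi, 1 / 2 * (f' t - Real.cos t) ^ 2 * Real.sin t := by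
    refine intervalIntegral.integral_nonneg Real.pi_pos.le fun t ht => ?_
    have := Real.sin_nonneg_of_mem_Icc ht
    positivity
  have key : (∫ t in (0 : ℝ)..Real.pi, (f t ^ 2 - 1 / 2 * f' t ^ 2) * Real.sin t)
      + (∫ t in (0 : ℝ)..Real.pi, 1 / 2 * (f' t - Real.cos t) ^ 2 * Real.sin t)
      = (∫ t in (0 : ℝ)..Real.pi, (Real.sin t - 3 / 2 * Real.cos t ^ 2 * Real.sin t
        - ((Real.cos t ^ 2 - Real.sin t ^ 2) * (f t - Real.sin t)
          + Real.sin t * Real.cos t * (f' t - Real.cos t))))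
      + (∫ t in (0 : ℝ)..Real.pi, (f t - Real.sin t))
      + ∫ t in (0 : ℝ)..Real.pi, (f t - Real.sin t) ^ 2 * Real.sin t := by
    rw [← intervalIntegral.integral_add (Continuous.intervalIntegrable (by fun_prop) _ _)
      (Continuous.intervalIntegrable (by fun_prop) _ _),
      ← intervalIntegral.integral_add (Continuous.intervalIntegrable (by fun_prop) _ _)
      (Continuous.intervalIntegrable (by fun_prop) _ _),
      ← intervalIntegral.integral_add (Continuous.intervalIntegrable (by fun_prop) _ _)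
      (Continuous.intervalIntegrable (by fun_prop) _ _)]
    refine intervalIntegral.integral_congr fun t _ => ?_
    have h := Real.sin_sq_add_cos_sq t
    linear_combination (f t) * h
  rw [hint] at key
  linarith

end

end Pool.Agent.Lib.MP_dabcc9_gt
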