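import Mathlib

/-! JOB D3.  Wirtinger inequality with the modes `0` and `1` removed. -/

open MeasureTheory Metric Set

namespace Pool.Agent.Lib.MP_dabcc9_gt

noncomputable section

theorem DcC_hab : (0 : ℝ) < 2 * Real.pi := by positivity

theorem DcC_fourier (n : ℤ) (x : ℝ) :
    fourier n (x : AddCircle (2 * Real.pi - 0)) = Complex.exp (n * x * Complex.I) := by
  rw [fourier_coe_apply]
  congr 1
  have h : (Real.pi : ℂ) ≠ 0 := Complex.ofReal_ne_zero.2 Real.pi_ne_zero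
  push_cast
  rw [sub_zero]
  field_simp

/-- The coefficient of index `0` is the mean. -/
theorem DcC_c0 (q : ℝ → ℝ) (h0 : ∫ t in (0 : ℝ)..(2 * Real.pi), q t = 0) :
    fourierCoeffOn DcC_hab (fun t => (q t : ℂ)) 0 = 0 := by
  rw [fourierCoeffOn_eq_integral]
  have h : ∀ x : ℝ, fourier (-0) (x : AddCircle (2 * Real.pi - 0)) • (q x : ℂ) = ((q x : ℝ) : ℂ) := by
    intro x
    rw [DcC_fourier]
    simp
  simp_rw [h]
  rw [intervalIntegral.integral_ofReal, h0]
  simp

/-- The coefficients of index `1` and `-1`. -/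
theorem DcC_c1 (q : ℝ → ℝ) (hq : Continuous q)
    (h1 : ∫ t in (0 : ℝ)..(2 * Real.pi), q t * Real.cos t = 0)
    (h2 : ∫ t in (0 : ℝ)..(2 * Real.pi), q t * Real.sin t = 0) (n : ℤ) (hn : n = 1 ∨ n = -1) :
    fourierCoeffOn DcC_hab (fun t => (q t : ℂ)) n = 0 := by
  rw [fourierCoeffOn_eq_integral]
  have h : ∀ x : ℝ, fourier (-n) (x : AddCircle (2 * Real.pi - 0)) • (q x : ℂ) =
      ((q x * Real.cos x : ℝ) : ℂ) + (-n * Complex.I) * ((q x * Real.sin x : ℝ) : ℂ) := by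
    intro x
    rw [DcC_fourier, smul_eq_mul]
    rcases hn with rfl | rfl
    · have e : ((-1 : ℤ) : ℂ) * x * Complex.I = (-(x : ℂ)) * Complex.I := by push_cast; ring
      rw [e, Complex.exp_mul_I, Complex.cos_neg, Complex.sin_neg]
      push_cast
      ring
    · have e : ((-(-1) : ℤ) : ℂ) * x * Complex.I = (x : ℂ) * Complex.I := by push_cast; ring
      rw [e, Complex.exp_mul_I]
      push_cast
      ring
  simp_rw [h]
  have c1 : Continuous fun x => ((q x * Real.cos x : ℝ) : ℂ) :=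
    Complex.continuous_ofReal.comp (hq.mul Real.continuous_cos)
  have c2 : Continuous fun x => ((q x * Real.sin x : ℝ) : ℂ) :=
    Complex.continuous_ofReal.comp (hq.mul Real.continuous_sin)
  rw [intervalIntegral.integral_add (c1.intervalIntegrable _ _)
    ((c2.const_mul _).intervalIntegrable _ _), intervalIntegral.integral_const_mul,
    intervalIntegral.integral_ofReal, intervalIntegral.integral_ofReal, h1, h2]
  simp

theorem DcC_deriv (q q' : ℝ → ℝ) (hq : ∀ t, HasDerivAt q (q' t) t) (hc : Continuous q')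
    (hper : q (2 * Real.pi) = q 0) (n : ℤ) (hn : n ≠ 0) :
    ‖fourierCoeffOn DcC_hab (fun t => (q' t : ℂ)) n‖ =
      |(n : ℝ)| * ‖fourierCoeffOn DcC_hab (fun t => (q t : ℂ)) n‖ := by
  have h := fourierCoeffOn_of_hasDerivAt DcC_hab (f := fun t => (q t : ℂ))
    (f' := fun t => (q' t : ℂ)) hn (fun x _ => (hq x).ofReal_comp)
    ((Complex.continuous_ofReal.comp hc).intervalIntegrable _ _)
  rw [h, hper, sub_self, mul_zero, zero_sub, norm_mul, norm_neg, norm_mul, ← mul_assoc, ← mul_assoc]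
  have h3 : ‖(1 : ℂ) / (-2 * Real.pi * Complex.I * n)‖ = 1 / (2 * Real.pi * |(n : ℝ)|) := by
    rw [norm_div, norm_one, norm_mul, norm_mul, norm_mul, Complex.norm_I, mul_one, norm_neg,
      Complex.norm_real, Complex.norm_intCast, Real.norm_of_nonneg Real.pi_pos.le]
    norm_num
  have h4 : ‖((2 * Real.pi : ℝ) : ℂ) - ((0 : ℝ) : ℂ)‖ = 2 * Real.pi := by
    rw [← Complex.ofReal_sub, Complex.norm_real, sub_zero, Real.norm_of_nonneg DcC_hab.le]
  rw [h3, h4]
  have hn' : |(n : ℝ)| ≠ 0 := abs_ne_zero.2 (Int.cast_ne_zero.2 hn)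
  have hp := Real.pi_ne_zero
  have h5 : |(n : ℝ)| * (1 / (2 * Real.pi * |(n : ℝ)|)) * (2 * Real.pi) = 1 := by
    field_simp
  rw [h5, one_mul]

theorem DcC_parseval (q : ℝ → ℝ) (hq : Continuous q) :
    HasSum (fun n => ‖fourierCoeffOn DcC_hab (fun t => (q t : ℂ)) n‖ ^ 2)
      ((2 * Real.pi)⁻¹ * ∫ t in (0 : ℝ)..(2 * Real.pi), q t ^ 2) := by
  have hcc : Continuous fun t => (q t : ℂ) := Complex.continuous_ofReal.comp hq
  have hm : MemLp (fun t => (q t : ℂ)) 2 (volume.restrict (Ioc 0 (2 * Real.pi))) := by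
    obtain ⟨M, hM⟩ := isCompact_Icc.exists_bound_of_continuousOn
      (s := Icc 0 (2 * Real.pi)) (f := fun t => (q t : ℂ)) hcc.continuousOn
    refine MemLp.of_bound hcc.aestronglyMeasurable M ?_
    rw [ae_restrict_iff' measurableSet_Ioc]
    exact Filter.Eventually.of_forall fun x hx => hM x (Ioc_subset_Icc_self hx)
  have h := hasSum_sq_fourierCoeffOn DcC_hab hm
  have h2 : ∀ x : ℝ, ‖(q x : ℂ)‖ ^ 2 = q x ^ 2 := by
    intro x
    rw [Complex.norm_real, Real.norm_eq_abs, sq_abs]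
  simp_rw [h2] at h
  rw [sub_zero, smul_eq_mul] at h
  exact h

/-- Wirtinger.  PROOF.  Fourier series on the circle of length `2 pi` (`fourierCoeffOn`,
`fourierCoeffOn_of_hasDerivAt` (or `..._of_hasDerivAt_Ioo`), Parseval `tsum_sq_fourierCoeff` /
`hasSum_sq_fourierCoeffOn` in Mathlib): the coefficients with `|n| <= 1` of `q` vanish,
`c_n(q') = i n c_n(q)` by periodicity, so `|c_n(q')|^2 >= 4 |c_n(q)|^2` for all `n`. -/
theorem wirtinger2 (q q' : ℝ → ℝ) (hq : ∀ t, HasDerivAt q (q' t) t) (hc : Continuous q')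
    (hper : q (2 * Real.pi) = q 0) (h0 : ∫ t in (0 : ℝ)..(2 * Real.pi), q t = 0)
    (h1 : ∫ t in (0 : ℝ)..(2 * Real.pi), q t * Real.cos t = 0)
    (h2 : ∫ t in (0 : ℝ)..(2 * Real.pi), q t * Real.sin t = 0) :
    4 * ∫ t in (0 : ℝ)..(2 * Real.pi), q t ^ 2 ≤ ∫ t in (0 : ℝ)..(2 * Real.pi), q' t ^ 2 := by
  have hqc : Continuous q := continuous_iff_continuousAt.2 fun t => (hq t).continuousAt
  have s1 := (DcC_parseval q hqc).mul_left 4
  have s2 := DcC_parseval q' hc
  have hle : ∀ n : ℤ, 4 * ‖fourierCoeffOn DcC_hab (fun t => (q t : ℂ)) n‖ ^ 2 ≤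
      ‖fourierCoeffOn DcC_hab (fun t => (q' t : ℂ)) n‖ ^ 2 := by
    intro n
    by_cases hn0 : n = 0
    · rw [hn0, DcC_c0 q h0, norm_zero, zero_pow two_ne_zero, mul_zero]
      exact sq_nonneg _
    by_cases hn1 : n = 1 ∨ n = -1
    · rw [DcC_c1 q hqc h1 h2 n hn1, norm_zero, zero_pow two_ne_zero, mul_zero]
      exact sq_nonneg _
    rw [DcC_deriv q q' hq hc hper n hn0, mul_pow, sq_abs]
    have h3 : (4 : ℝ) ≤ (n : ℝ) ^ 2 := by
      have h4 : (4 : ℤ) ≤ n ^ 2 := by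
        rcases lt_or_ge n 0 with h | h
        · have : n ≤ -2 := by omega
          nlinarith
        · have : 2 ≤ n := by omega
          nlinarith
      exact_mod_cast h4
    exact mul_le_mul_of_nonneg_right h3 (sq_nonneg _)
  have h5 := hasSum_le hle s1 s2
  have h6 : (0 : ℝ) < (2 * Real.pi)⁻¹ := by positivity
  have h7 : (2 * Real.pi)⁻¹ * (4 * ∫ t in (0 : ℝ)..(2 * Real.pi), q t ^ 2) ≤
      (2 * Real.pi)⁻¹ * ∫ t in (0 : ℝ)..(2 * Real.pi), q' t ^ 2 := by
    linarith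
  exact le_of_mul_le_mul_left h7 h6

end

end Pool.Agent.Lib.MP_dabcc9_gt
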