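import Pool.Agent.Lib.MP_dabcc9_gt.DcC

/-! JOB D3b.  Parseval and the inequality on a parallel. -/

open MeasureTheory Metric Set

namespace Pool.Agent.Lib.MP_dabcc9_gt

noncomputable section

/-- the trigonometric integrals -/
theorem DcC2_trig : (∫ t in (0 : ℝ)..(2 * Real.pi), Real.cos t) = 0 ∧
    (∫ t in (0 : ℝ)..(2 * Real.pi), Real.sin t) = 0 ∧
    (∫ t in (0 : ℝ)..(2 * Real.pi), Real.cos t ^ 2) = Real.pi ∧
    (∫ t in (0 : ℝ)..(2 * Real.pi), Real.sin t ^ 2) = Real.pi ∧
    (∫ t in (0 : ℝ)..(2 * Real.pi), Real.sin t * Real.cos t) = 0 := by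
  refine ⟨?_, ?_, ?_, ?_, ?_⟩
  · rw [integral_cos]
    simp
  · rw [integral_sin]
    simp
  · rw [integral_cos_sq]
    simp
  · rw [integral_sin_sq]
    simp
  · rw [integral_sin_mul_cos₁]
    simp

/-- Parseval with two modes.  Direct computation with `∫ cos^2 = ∫ sin^2 = pi`,
`∫ sin cos = ∫ sin = ∫ cos = 0`. -/
theorem az_parseval (g : ℝ → ℝ) (hg : Continuous g) (g0 a b : ℝ)
    (h0 : g0 = (2 * Real.pi)⁻¹ * ∫ t in (0 : ℝ)..(2 * Real.pi), g t)
    (ha : a = Real.pi⁻¹ * ∫ t in (0 : ℝ)..(2 * Real.pi), g t * Real.cos t)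
    (hb : b = Real.pi⁻¹ * ∫ t in (0 : ℝ)..(2 * Real.pi), g t * Real.sin t) :
    ∫ t in (0 : ℝ)..(2 * Real.pi), g t ^ 2 = 2 * Real.pi * g0 ^ 2 + Real.pi * (a ^ 2 + b ^ 2)
      + ∫ t in (0 : ℝ)..(2 * Real.pi), (g t - g0 - a * Real.cos t - b * Real.sin t) ^ 2 := by
  have hpi : Real.pi ≠ 0 := Real.pi_ne_zero
  have e1 : ∀ t, (g t - g0 - a * Real.cos t - b * Real.sin t) ^ 2 =
      g t ^ 2 + (-2 * g0) * g t + (-2 * a) * (g t * Real.cos t) + (-2 * b) * (g t * Real.sin t) +
        g0 ^ 2 + a ^ 2 * Real.cos t ^ 2 + b ^ 2 * Real.sin t ^ 2 + (2 * g0 * a) * Real.cos t +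
        (2 * g0 * b) * Real.sin t + (2 * a * b) * (Real.sin t * Real.cos t) := by
    intro t
    ring
  have hI : ∀ f : ℝ → ℝ, Continuous f → IntervalIntegrable f volume 0 (2 * Real.pi) :=
    fun f hf => hf.intervalIntegrable _ _
  have i0 : ∫ t in (0 : ℝ)..(2 * Real.pi), g t = 2 * Real.pi * g0 := by
    rw [h0]
    field_simp
  have i1 : ∫ t in (0 : ℝ)..(2 * Real.pi), g t * Real.cos t = Real.pi * a := by
    rw [ha]
    field_simp
  have i2 : ∫ t in (0 : ℝ)..(2 * Real.pi), g t * Real.sin t = Real.pi * b := by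
    rw [hb]
    field_simp
  obtain ⟨j1, j2, j3, j4, j5⟩ := DcC2_trig
  simp only [e1]
  rw [intervalIntegral.integral_add (hI _ (by fun_prop)) (hI _ (by fun_prop)),
    intervalIntegral.integral_add (hI _ (by fun_prop)) (hI _ (by fun_prop)),
    intervalIntegral.integral_add (hI _ (by fun_prop)) (hI _ (by fun_prop)),
    intervalIntegral.integral_add (hI _ (by fun_prop)) (hI _ (by fun_prop)),
    intervalIntegral.integral_add (hI _ (by fun_prop)) (hI _ (by fun_prop)),
    intervalIntegral.integral_add (hI _ (by fun_prop)) (hI _ (by fun_prop)),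
    intervalIntegral.integral_add (hI _ (by fun_prop)) (hI _ (by fun_prop)),
    intervalIntegral.integral_add (hI _ (by fun_prop)) (hI _ (by fun_prop)),
    intervalIntegral.integral_add (hI _ (by fun_prop)) (hI _ (by fun_prop))]
  simp only [intervalIntegral.integral_const_mul, intervalIntegral.integral_const, i0, i1, i2, j1,
    j2, j3, j4, j5, smul_eq_mul]
  ring

/-- PROOF.  `q = g - g0 - a cos - b sin`, `q' = g' + a sin - b cos`;
`∫ g'^2 = pi (a^2 + b^2) + ∫ q'^2` (the cross terms `∫ q' sin`, `∫ q' cos` vanish: integrate by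
parts), `wirtinger2` for `q` and `az_parseval`. -/
theorem az_ineq (g g' : ℝ → ℝ) (hg : ∀ t, HasDerivAt g (g' t) t) (hc : Continuous g')
    (hper : g (2 * Real.pi) = g 0) (g0 a b : ℝ)
    (h0 : g0 = (2 * Real.pi)⁻¹ * ∫ t in (0 : ℝ)..(2 * Real.pi), g t)
    (ha : a = Real.pi⁻¹ * ∫ t in (0 : ℝ)..(2 * Real.pi), g t * Real.cos t)
    (hb : b = Real.pi⁻¹ * ∫ t in (0 : ℝ)..(2 * Real.pi), g t * Real.sin t) :
    (∫ t in (0 : ℝ)..(2 * Real.pi), g t ^ 2) - 1 / 2 * (∫ t in (0 : ℝ)..(2 * Real.pi), g' t ^ 2) ≤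
      2 * Real.pi * g0 ^ 2 + Real.pi / 2 * (a ^ 2 + b ^ 2)
      - ∫ t in (0 : ℝ)..(2 * Real.pi), (g t - g0 - a * Real.cos t - b * Real.sin t) ^ 2 := by
  have hgc : Continuous g := continuous_iff_continuousAt.2 fun t => (hg t).continuousAt
  have hpi : Real.pi ≠ 0 := Real.pi_ne_zero
  have hI : ∀ f : ℝ → ℝ, Continuous f → IntervalIntegrable f volume 0 (2 * Real.pi) :=
    fun f hf => hf.intervalIntegrable _ _
  have i0 : ∫ t in (0 : ℝ)..(2 * Real.pi), g t = 2 * Real.pi * g0 := by
    rw [h0]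
    field_simp
  have i1 : ∫ t in (0 : ℝ)..(2 * Real.pi), g t * Real.cos t = Real.pi * a := by
    rw [ha]
    field_simp
  have i2 : ∫ t in (0 : ℝ)..(2 * Real.pi), g t * Real.sin t = Real.pi * b := by
    rw [hb]
    field_simp
  obtain ⟨j1, j2, j3, j4, j5⟩ := DcC2_trig
  set q : ℝ → ℝ := fun t => g t - g0 - a * Real.cos t - b * Real.sin t with hqdef
  set q' : ℝ → ℝ := fun t => g' t + a * Real.sin t - b * Real.cos t with hq'def
  have hq : ∀ t, HasDerivAt q (q' t) t := by
    intro t
    have := (((hg t).sub_const g0).sub ((Real.hasDerivAt_cos t).const_mul a)).sub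
      ((Real.hasDerivAt_sin t).const_mul b)
    have e : q' t = g' t - a * (-Real.sin t) - b * Real.cos t := by
      show g' t + a * Real.sin t - b * Real.cos t = _
      ring
    rw [e]
    exact this
  have hqc : Continuous q := continuous_iff_continuousAt.2 fun t => (hq t).continuousAt
  have hq'c : Continuous q' := by
    simp only [hq'def]
    fun_prop
  have hqper : q (2 * Real.pi) = q 0 := by
    show g (2 * Real.pi) - g0 - a * Real.cos (2 * Real.pi) - b * Real.sin (2 * Real.pi) =
      g 0 - g0 - a * Real.cos 0 - b * Real.sin 0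
    rw [hper, Real.cos_two_pi, Real.sin_two_pi, Real.cos_zero, Real.sin_zero]
  have k0 : ∫ t in (0 : ℝ)..(2 * Real.pi), q t = 0 := by
    have e : ∀ t, q t = g t + (-g0) + (-a) * Real.cos t + (-b) * Real.sin t := by
      intro t
      simp only [hqdef]
      ring
    simp only [e]
    rw [intervalIntegral.integral_add (hI _ (by fun_prop)) (hI _ (by fun_prop)),
      intervalIntegral.integral_add (hI _ (by fun_prop)) (hI _ (by fun_prop)),
      intervalIntegral.integral_add (hI _ (by fun_prop)) (hI _ (by fun_prop))]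
    simp only [intervalIntegral.integral_const_mul, intervalIntegral.integral_const, i0, j1, j2,
      smul_eq_mul]
    ring
  have k1 : ∫ t in (0 : ℝ)..(2 * Real.pi), q t * Real.cos t = 0 := by
    have e : ∀ t, q t * Real.cos t = g t * Real.cos t + (-g0) * Real.cos t +
        (-a) * Real.cos t ^ 2 + (-b) * (Real.sin t * Real.cos t) := by
      intro t
      simp only [hqdef]
      ring
    simp only [e]
    rw [intervalIntegral.integral_add (hI _ (by fun_prop)) (hI _ (by fun_prop)),
      intervalIntegral.integral_add (hI _ (by fun_prop)) (hI _ (by fun_prop)),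
      intervalIntegral.integral_add (hI _ (by fun_prop)) (hI _ (by fun_prop))]
    simp only [intervalIntegral.integral_const_mul, i1, j1, j3, j5]
    ring
  have k2 : ∫ t in (0 : ℝ)..(2 * Real.pi), q t * Real.sin t = 0 := by
    have e : ∀ t, q t * Real.sin t = g t * Real.sin t + (-g0) * Real.sin t +
        (-a) * (Real.sin t * Real.cos t) + (-b) * Real.sin t ^ 2 := by
      intro t
      simp only [hqdef]
      ring
    simp only [e]
    rw [intervalIntegral.integral_add (hI _ (by fun_prop)) (hI _ (by fun_prop)),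
      intervalIntegral.integral_add (hI _ (by fun_prop)) (hI _ (by fun_prop)),
      intervalIntegral.integral_add (hI _ (by fun_prop)) (hI _ (by fun_prop))]
    simp only [intervalIntegral.integral_const_mul, i2, j2, j4, j5]
    ring
  have hw := wirtinger2 q q' hq hq'c hqper k0 k1 k2
  have hP := az_parseval g hgc g0 a b h0 ha hb
  -- cross terms
  have c1 : ∫ t in (0 : ℝ)..(2 * Real.pi), q' t * Real.sin t = 0 := by
    have := intervalIntegral.integral_deriv_mul_eq_sub
      (u := q) (v := Real.sin) (u' := q') (v' := Real.cos) (a := 0) (b := 2 * Real.pi)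
      (fun t _ => hq t) (fun t _ => Real.hasDerivAt_sin t) (hI _ hq'c) (hI _ Real.continuous_cos)
    rw [intervalIntegral.integral_add (hI _ (by fun_prop)) (hI _ (by fun_prop)), k1] at this
    simpa using this
  have c2 : ∫ t in (0 : ℝ)..(2 * Real.pi), q' t * Real.cos t = 0 := by
    have := intervalIntegral.integral_deriv_mul_eq_sub
      (u := q) (v := Real.cos) (u' := q') (v' := fun t => -Real.sin t) (a := 0) (b := 2 * Real.pi)
      (fun t _ => hq t) (fun t _ => Real.hasDerivAt_cos t) (hI _ hq'c) (hI _ (by fun_prop))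
    rw [intervalIntegral.integral_add (hI _ (by fun_prop)) (hI _ (by fun_prop))] at this
    simp only [mul_neg, intervalIntegral.integral_neg, k2, hqper, Real.cos_two_pi,
      Real.cos_zero] at this
    linarith
  have hg' : ∫ t in (0 : ℝ)..(2 * Real.pi), g' t ^ 2 =
      (∫ t in (0 : ℝ)..(2 * Real.pi), q' t ^ 2) + Real.pi * (a ^ 2 + b ^ 2) := by
    have e : ∀ t, g' t ^ 2 = q' t ^ 2 + (-2 * a) * (q' t * Real.sin t) +
        (2 * b) * (q' t * Real.cos t) + a ^ 2 * Real.sin t ^ 2 + b ^ 2 * Real.cos t ^ 2 +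
        (-2 * a * b) * (Real.sin t * Real.cos t) := by
      intro t
      simp only [hq'def]
      ring
    simp only [e]
    rw [intervalIntegral.integral_add (hI _ (by fun_prop)) (hI _ (by fun_prop)),
      intervalIntegral.integral_add (hI _ (by fun_prop)) (hI _ (by fun_prop)),
      intervalIntegral.integral_add (hI _ (by fun_prop)) (hI _ (by fun_prop)),
      intervalIntegral.integral_add (hI _ (by fun_prop)) (hI _ (by fun_prop)),
      intervalIntegral.integral_add (hI _ (by fun_prop)) (hI _ (by fun_prop))]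
    simp only [intervalIntegral.integral_const_mul, c1, c2, j3, j4, j5]
    ring
  rw [hP, hg']
  have hq2 : (∫ t in (0 : ℝ)..(2 * Real.pi), (g t - g0 - a * Real.cos t - b * Real.sin t) ^ 2) =
      ∫ t in (0 : ℝ)..(2 * Real.pi), q t ^ 2 := rfl
  rw [hq2]
  linarith

end

end Pool.Agent.Lib.MP_dabcc9_gt
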