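import Pool.Agent.Lib.MP_dabcc9_gt.RotB
import Pool.Agent.Lib.MP_dabcc9_gt.AlgB

/-! JOB A4.  Integration by parts and the integrals of `detA`. -/

open MvPolynomial

namespace Pool.Agent.Lib.MP_dabcc9_gt

/-- From `EE_Lap (a * b) = 0`, `Lap_mul` and symmetry; simpler: `EE (L i (a * L i b)) = 0`. -/
theorem EE_ibp (a b : P) : EE (a * Lap b) = - EE (Gam a b) := by
  have h1 : a * Lap b + Gam a b = ∑ i, L i (a * L i b) := by
    unfold Lap Gam
    rw [Finset.mul_sum, ← Finset.sum_add_distrib]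
    refine Finset.sum_congr rfl fun i _ => ?_
    rw [L_mul]
    ring
  have h2 : EE (a * Lap b + Gam a b) = 0 := by
    rw [h1, EE_sum]
    exact Finset.sum_eq_zero fun i _ => EE_L i _
  rw [EE_add] at h2
  linarith

/-- `E[a b Lap c] = -E[a Gam b c] - E[b Gam a c]`. -/
theorem EE_ibp3 (a b c : P) : EE (a * b * Lap c) = - EE (a * Gam b c) - EE (b * Gam a c) := by
  rw [EE_ibp, Gam_mul_left, EE_add]
  ring

/-- `E[a Lap b] = E[b Lap a]`. -/
theorem EE_Lap_symm (a b : P) : EE (a * Lap b) = EE (b * Lap a) := by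
  rw [EE_ibp, EE_ibp, Gam_comm]

/-- `E[SS p p] = E[(Lap p)^2]`: integrate Bochner (`Lap_Gam`). -/
theorem EE_SS (p : P) : EE (SS p p) = EE (Lap p * Lap p) := by
  have h1 := EE_Lap (Gam p p)
  rw [Lap_Gam, EE_add, EE_add, EE_two_mul] at h1
  have h2 := EE_ibp (Lap p) p
  rw [Gam_comm] at h2
  linarith

/-- Multiplication by one half. -/
private theorem Ibp_half (a : P) : EE (C (1 / 2) * a) = 1 / 2 * EE a := EE_C_mul _ _

theorem EE_detA (p : P) : EE (detA p) = EE (p * p) - 1 / 2 * EE (Gam p p) := by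
  unfold detA
  rw [Ibp_half, EE_add, EE_sub, EE_add, EE_add, EE_two_mul, EE_two_mul, EE_SS, EE_ibp p p]
  ring

/-- General formula: for all `a`, `p`,
`E[a detA p] = E[a p Lap p] + E[a p p] - 1/4 E[Lap a Gam p p] - 1/2 E[Gam a p Lap p]
  + 1/2 E[a Gam p p]`.
PROOF: by Bochner `2 E[a SS] = E[a Lap (Gam p p)] - 2 E[a Gam p (Lap p)]`,
`E[a Lap (Gam p p)] = E[Lap a Gam p p]` and
`E[a Gam p (Lap p)] = - E[a (Lap p)^2] - E[Gam a p Lap p]`
(from `EE_ibp (a * Lap p) p` and `Gam_mul_left`). -/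
theorem EE_a_detA (a p : P) : EE (a * detA p) = EE (a * p * Lap p) + EE (a * p * p)
    - 1 / 4 * EE (Lap a * Gam p p) - 1 / 2 * EE (Gam a p * Lap p) + 1 / 2 * EE (a * Gam p p) := by
  have h1 : EE (a * Lap (Gam p p)) = 2 * EE (a * SS p p) + 2 * EE (a * Gam p (Lap p)) := by
    have h2 : a * Lap (Gam p p) = 2 * (a * SS p p) + 2 * (a * Gam p (Lap p)) := by
      rw [Lap_Gam]
      ring
    rw [h2, EE_add, EE_two_mul, EE_two_mul]
  have h3 : EE (a * Lap (Gam p p)) = EE (Lap a * Gam p p) := by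
    rw [EE_Lap_symm, mul_comm]
  have h4 : EE (a * Lap p * Lap p) = - EE (a * Gam p (Lap p)) - EE (Gam a p * Lap p) := by
    rw [EE_ibp3, Gam_comm (Lap p) p, mul_comm (Lap p) (Gam a p)]
  have h5 : a * detA p = C (1 / 2) * (a * Lap p * Lap p + 2 * (a * p * Lap p) +
      2 * (a * p * p) - a * SS p p + a * Gam p p) := by
    unfold detA
    ring
  rw [h5, Ibp_half, EE_add, EE_sub, EE_add, EE_add, EE_two_mul, EE_two_mul]
  linarith

/-- PROOF: `EE_a_detA` with `a = p`, and `E[p p Lap p] = -2 E[p Gam p p]`. -/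
theorem EE_p_detA (p : P) : EE (p * detA p) =
    EE (p * p * p) - 3 / 2 * EE (p * Gam p p) - 3 / 4 * EE (Lap p * Gam p p) := by
  rw [EE_a_detA, EE_ibp3, mul_comm (Gam p p) (Lap p)]
  ring

/-- PROOF: `EE_a_detA` with `a = X k`, `Lap (X k) = -2 X k`:
`E[a p Lap p] = - E[Gam (a p) p] = - E[a Gam p p] - 1/2 E[Gam a (p p)]
 = - E[a Gam p p] + 1/2 E[p p Lap a] = - E[a Gam p p] - E[a p p]`, so the sum is
`- 1/2 E[Gam a p Lap p]`; and `E[Gam a p Lap p] = - E[Gam p (Gam a p)]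
 = - E[HQ a p] - 1/2 E[Gam a (Gam p p)] = E[a Gam p p] + 1/2 E[Lap a Gam p p] = 0`
by `HQ_eq`, `HQ_X`. -/
theorem EE_X_detA (k : Fin 3) (p : P) : EE (X k * detA p) = 0 := by
  have h0 : ∀ q : P, EE (Lap (X k) * q) = -2 * EE (X k * q) := by
    intro q
    have h1 : Lap (X k) * q = C (-2) * (X k * q) := by
      rw [Lap_X]
      have h2 : (C (-2) : P) = -2 := by
        rw [map_neg]
        rfl
      rw [h2]
      ring
    rw [h1, EE_C_mul]
  have h1 := EE_a_detA (X k) p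
  rw [h0] at h1
  have h2 : EE (X k * p * Lap p) = - EE (X k * Gam p p) - EE (p * Gam (X k) p) := EE_ibp3 _ _ _
  have h3 : 2 * EE (p * Gam (X k) p) = 2 * EE (X k * p * p) := by
    have h4 : EE (Gam (X k) (p * p)) = 2 * EE (p * Gam (X k) p) := by
      rw [Gam_comm, Gam_mul_left, EE_add, Gam_comm p (X k)]
      ring
    rw [← h4]
    have h5 := EE_ibp (p * p) (X k)
    rw [Gam_comm, mul_comm, h0] at h5
    have h6 : (X k * (p * p) : P) = X k * p * p := by ring
    rw [h6] at h5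
    linarith
  have h4 : EE (Gam (X k) p * Lap p) = 0 := by
    rw [EE_ibp, Gam_comm]
    have h5 := HQ_eq (X k) p
    have h6 : EE (HQ (X k) p) = - EE (X k * Gam p p) := by
      rw [EE_congr (HQ_X k p), EE_neg]
    rw [h5, EE_sub, Ibp_half] at h6
    have h7 : EE (Gam (X k) (Gam p p)) = 2 * EE (X k * Gam p p) := by
      have h8 := EE_ibp (Gam p p) (X k)
      rw [Gam_comm (Gam p p) (X k), mul_comm, h0] at h8
      linarith
    rw [h7] at h6
    linarith
  rw [h1, h2, h4]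
  linarith

/-- Steiner polynomial: from `detA_add_C`, `E[p (Lap p + 2 p)] = 2 E[detA p]`,
`E[Lap p + 2 p] = 2 E p`. -/
theorem EE_steiner (p : P) (c : ℝ) : EE ((p + C c) * detA (p + C c)) =
    EE (p * detA p) + 3 * c * EE (detA p) + 3 * c ^ 2 * EE p + c ^ 3 := by
  have h1 : (p + C c) * detA (p + C c) = p * detA p + C c * (p * Lap p) + C c * (2 * (p * p)) +
      C (c ^ 2) * p + C c * detA p + C (c ^ 2) * Lap p + C (c ^ 2) * (2 * p) + C (c ^ 3) := by
    rw [detA_add_C, C_pow, C_pow]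
    ring
  rw [h1]
  simp only [EE_add, EE_C_mul, EE_two_mul, EE_C]
  rw [EE_ibp, EE_Lap, EE_detA]
  ring

end Pool.Agent.Lib.MP_dabcc9_gt
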