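import Pool.Agent.Lib.MP_dabcc9_gt.DcA
import Pool.Agent.Lib.MP_dabcc9_gt.DcB
import Pool.Agent.Lib.MP_dabcc9_gt.DcC2
import Pool.Agent.Lib.MP_dabcc9_gt.Ibp

/-! JOB D4.  The upper bound for polynomials. -/

open MeasureTheory Metric Set

namespace Pool.Agent.Lib.MP_dabcc9_gt

noncomputable section

theorem DcD_swap {f : ℝ → ℝ → ℝ} (hf : Continuous (fun q : ℝ × ℝ => f q.1 q.2)) {a b c d : ℝ}
    (hab : a ≤ b) (hcd : c ≤ d) :
    ∫ x in a..b, ∫ y in c..d, f x y = ∫ y in c..d, ∫ x in a..b, f x y := by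
  rw [intervalIntegral.integral_of_le hab, intervalIntegral.integral_of_le hcd]
  simp_rw [intervalIntegral.integral_of_le hab, intervalIntegral.integral_of_le hcd]
  apply integral_integral_swap
  have h1 : IntegrableOn (fun q : ℝ × ℝ => f q.1 q.2) (Icc a b ×ˢ Icc c d) (volume.prod volume) :=
    hf.continuousOn.integrableOn_compact (isCompact_Icc.prod isCompact_Icc)
  have h2 := h1.mono_set (prod_mono (Ioc_subset_Icc_self (a := a) (b := b))
    (Ioc_subset_Icc_self (a := c) (b := d)))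
  rw [IntegrableOn, ← Measure.prod_restrict] at h2
  exact h2

theorem DcD_add {f g : ℝ → ℝ} {a b : ℝ} (hf : Continuous f) (hg : Continuous g) :
    ∫ x in a..b, f x + g x = (∫ x in a..b, f x) + ∫ x in a..b, g x :=
  intervalIntegral.integral_add (hf.intervalIntegrable _ _) (hg.intervalIntegrable _ _)

theorem DcD_sub {f g : ℝ → ℝ} {a b : ℝ} (hf : Continuous f) (hg : Continuous g) :
    ∫ x in a..b, f x - g x = (∫ x in a..b, f x) - ∫ x in a..b, g x :=
  intervalIntegral.integral_sub (hf.intervalIntegrable _ _) (hg.intervalIntegrable _ _)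

theorem DcD_par {f : ℝ → ℝ → ℝ} (hf : Continuous (fun q : ℝ × ℝ => f q.1 q.2)) (a b : ℝ) :
    Continuous (fun x => ∫ y in a..b, f x y) :=
  intervalIntegral.continuous_parametric_intervalIntegral_of_continuous' (f := f) hf a b

theorem DcD_sp {f : E3 → ℝ} (hf : Continuous f) :
    Continuous (fun q : ℝ × ℝ => f (sp q.1 q.2)) := by
  have h1 := Continuous.comp hf SphB_sp_cont
  simpa only [Function.comp_def] using h1

theorem DcD_fix1 {f : ℝ → ℝ → ℝ} (hf : Continuous (fun q : ℝ × ℝ => f q.1 q.2)) (x : ℝ) :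
    Continuous (fun y => f x y) := by
  have h2 := Continuous.comp hf ((continuous_const (y := x)).prodMk continuous_id)
  simpa only [Function.comp_def, id] using h2

theorem DcD_fix2 {f : ℝ → ℝ → ℝ} (hf : Continuous (fun q : ℝ × ℝ => f q.1 q.2)) (y : ℝ) :
    Continuous (fun x => f x y) := by
  have h2 := Continuous.comp hf (continuous_id.prodMk (continuous_const (y := y)))
  simpa only [Function.comp_def, id] using h2

theorem DcD_az0 {H : E3 → ℝ} (hH : Continuous H) : Continuous (az0 H) := by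
  unfold az0
  exact continuous_const.mul (DcD_par (f := fun θ φ => H (sp θ φ)) (DcD_sp hH) _ _)

theorem DcD_azc {H : E3 → ℝ} (hH : Continuous H) : Continuous (azc H) := by
  unfold azc
  exact continuous_const.mul (DcD_par (f := fun θ φ => H (sp θ φ) * Real.cos φ)
    ((DcD_sp hH).mul (Real.continuous_cos.comp continuous_snd)) _ _)

theorem DcD_azs {H : E3 → ℝ} (hH : Continuous H) : Continuous (azs H) := by
  unfold azs
  exact continuous_const.mul (DcD_par (f := fun θ φ => H (sp θ φ) * Real.sin φ)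
    ((DcD_sp hH).mul (Real.continuous_sin.comp continuous_snd)) _ _)

theorem DcD_azr {H : E3 → ℝ} (hH : Continuous H) :
    Continuous (fun q : ℝ × ℝ => azr H q.1 q.2) := by
  unfold azr
  exact (((DcD_sp hH).sub ((DcD_az0 hH).comp continuous_fst)).sub
    (((DcD_azc hH).comp continuous_fst).mul (Real.continuous_cos.comp continuous_snd))).sub
    (((DcD_azs hH).comp continuous_fst).mul (Real.continuous_sin.comp continuous_snd))

/-- Integral mean inequality. -/
theorem DcD_mono {f g : ℝ → ℝ} {a b : ℝ} (hab : a ≤ b) (hf : Continuous f) (hg : Continuous g)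
    (h : ∀ x ∈ Icc a b, f x ≤ g x) : ∫ x in a..b, f x ≤ ∫ x in a..b, g x :=
  intervalIntegral.integral_mono_on hab (hf.intervalIntegrable _ _) (hg.intervalIntegrable _ _) h

/-- PROOF.  `H = ev p`, `H_θ`, `H_φ` from `DcA_theta`, `DcA_phi`.
`4 pi E[q] = ∫∫ q(sp θ φ) sin θ dφ dθ` (`av_spherical`), `EE_detA`:
`4 pi EE (detA p) = ∫∫ (H^2 - 1/2 Gam) sin θ <= ∫∫ (H^2 - 1/2 H_θ^2 - 1/2 H_φ^2) sin θ`
(`DcA_Gam`, `sin >= 0` on `[0, pi]`).  Exchange the order of integration (everything is continuous)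
and apply `meridian_ineq` for every `φ`:
`∫∫ (H^2 - 1/2 H_θ^2) sin θ dθ dφ <= 2 pi + ∫∫ κ + ∫∫ κ^2 sin θ`, `κ = H - sin θ`.
Exchange back, and for every `θ` apply `az_ineq` to `g φ = H (sp θ φ) - sin θ`, whose coefficients
are `az0 H θ - sin θ`, `azc H θ`, `azs H θ` (as `∫ cos = ∫ sin = 0`) and whose remainder is
`azr H θ φ`; multiply by `sin θ >= 0` and integrate. -/
theorem FA_poly (p : P) : 4 * Real.pi * EE (detA p) ≤ FA (ev p) := by
  have hpi := Real.pi_pos
  have h2pi : (0 : ℝ) ≤ 2 * Real.pi := by linarith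
  -- continuity
  have cH := continuous_ev p
  have cS : Continuous (fun q : ℝ × ℝ => Real.sin q.1) := Real.continuous_sin.comp continuous_fst
  obtain ⟨T, hT⟩ : ∃ T : ℝ → ℝ → ℝ, T = fun θ φ =>
    -(Real.sin φ * ev (L 0 p) (sp θ φ)) + Real.cos φ * ev (L 1 p) (sp θ φ) := ⟨_, rfl⟩
  obtain ⟨F, hF⟩ : ∃ F : ℝ → ℝ → ℝ, F = fun θ φ => ev (L 2 p) (sp θ φ) := ⟨_, rfl⟩
  obtain ⟨H, hH⟩ : ∃ H : ℝ → ℝ → ℝ, H = fun θ φ => ev p (sp θ φ) := ⟨_, rfl⟩
  have cT : Continuous (fun q : ℝ × ℝ => T q.1 q.2) := by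
    rw [hT]
    exact (((Real.continuous_sin.comp continuous_snd).mul (DcD_sp (continuous_ev (L 0 p)))).neg).add
      ((Real.continuous_cos.comp continuous_snd).mul (DcD_sp (continuous_ev (L 1 p))))
  have cF : Continuous (fun q : ℝ × ℝ => F q.1 q.2) := by
    rw [hF]
    exact DcD_sp (continuous_ev (L 2 p))
  have cHH : Continuous (fun q : ℝ × ℝ => H q.1 q.2) := by
    rw [hH]
    exact DcD_sp cH
  -- step 0
  have e0 : 4 * Real.pi * EE (detA p) = ∫ θ in (0 : ℝ)..Real.pi, ∫ φ in (0 : ℝ)..(2 * Real.pi),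
      (H θ φ ^ 2 - 1 / 2 * ev (Gam p p) (sp θ φ)) * Real.sin θ := by
    have k1 : Continuous (fun x : E3 => ev p x ^ 2) := cH.pow 2
    have k2 : Continuous (fun x : E3 => 1 / 2 * ev (Gam p p) x) :=
      continuous_const.mul (continuous_ev (Gam p p))
    have k3 : Continuous (fun x : E3 => ev p x ^ 2 - 1 / 2 * ev (Gam p p) x) := k1.sub k2
    have h1 : EE (detA p) = av (fun x => ev p x ^ 2 - 1 / 2 * ev (Gam p p) x) := by
      rw [EE_detA, av_sub k1.continuousOn k2.continuousOn, av_const_mul]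
      congr 1
      unfold EE
      congr 1
      funext x
      rw [ev_mul]
      ring
    rw [h1, av_spherical k3.continuousOn, ← mul_assoc]
    rw [show 4 * Real.pi * (1 / (4 * Real.pi)) = 1 by field_simp, one_mul, hH]
  have cA : Continuous (fun q : ℝ × ℝ => (H q.1 q.2 ^ 2 - 1 / 2 * T q.1 q.2 ^ 2) * Real.sin q.1) :=
    ((cHH.pow 2).sub (continuous_const.mul (cT.pow 2))).mul cS
  have cB : Continuous (fun q : ℝ × ℝ => 1 / 2 * F q.1 q.2 ^ 2 * Real.sin q.1) :=
    (continuous_const.mul (cF.pow 2)).mul cS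
  have cG : Continuous (fun q : ℝ × ℝ => (H q.1 q.2 ^ 2 - 1 / 2 * ev (Gam p p) (sp q.1 q.2)) *
      Real.sin q.1) :=
    ((cHH.pow 2).sub (continuous_const.mul (DcD_sp (continuous_ev (Gam p p))))).mul cS
  have cK : Continuous (fun q : ℝ × ℝ => H q.1 q.2 - Real.sin q.1) := cHH.sub cS
  have cK2 : Continuous (fun q : ℝ × ℝ => (H q.1 q.2 - Real.sin q.1) ^ 2 * Real.sin q.1) :=
    (cK.pow 2).mul cS
  -- step 1
  have e1 : 4 * Real.pi * EE (detA p) ≤
      (∫ θ in (0 : ℝ)..Real.pi, ∫ φ in (0 : ℝ)..(2 * Real.pi),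
        (H θ φ ^ 2 - 1 / 2 * T θ φ ^ 2) * Real.sin θ) -
      ∫ θ in (0 : ℝ)..Real.pi, ∫ φ in (0 : ℝ)..(2 * Real.pi), 1 / 2 * F θ φ ^ 2 * Real.sin θ := by
    rw [e0, ← DcD_sub (DcD_par (f := fun θ φ => (H θ φ ^ 2 - 1 / 2 * T θ φ ^ 2) * Real.sin θ) cA _ _)
      (DcD_par (f := fun θ φ => 1 / 2 * F θ φ ^ 2 * Real.sin θ) cB _ _)]
    refine DcD_mono hpi.le ?_ ?_ ?_
    · exact DcD_par (f := fun θ φ => (H θ φ ^ 2 - 1 / 2 * ev (Gam p p) (sp θ φ)) * Real.sin θ) cG _ _
    · exact (DcD_par (f := fun θ φ => (H θ φ ^ 2 - 1 / 2 * T θ φ ^ 2) * Real.sin θ) cA _ _).sub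
        (DcD_par (f := fun θ φ => 1 / 2 * F θ φ ^ 2 * Real.sin θ) cB _ _)
    intro θ hθ
    have hs := Real.sin_nonneg_of_mem_Icc hθ
    rw [← DcD_sub (DcD_fix1 (f := fun θ φ => (H θ φ ^ 2 - 1 / 2 * T θ φ ^ 2) * Real.sin θ) cA θ)
      (DcD_fix1 (f := fun θ φ => 1 / 2 * F θ φ ^ 2 * Real.sin θ) cB θ)]
    refine DcD_mono h2pi ?_ ?_ ?_
    · exact DcD_fix1 (f := fun θ φ =>
        (H θ φ ^ 2 - 1 / 2 * ev (Gam p p) (sp θ φ)) * Real.sin θ) cG θ
    · exact (DcD_fix1 (f := fun θ φ => (H θ φ ^ 2 - 1 / 2 * T θ φ ^ 2) * Real.sin θ) cA θ).sub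
        (DcD_fix1 (f := fun θ φ => 1 / 2 * F θ φ ^ 2 * Real.sin θ) cB θ)
    intro φ _
    have h1 := DcA_Gam p θ φ
    have h2 : T θ φ ^ 2 + F θ φ ^ 2 ≤ ev (Gam p p) (sp θ φ) := by
      rw [hT, hF]
      exact h1
    nlinarith [mul_le_mul_of_nonneg_right h2 hs]
  -- step 2
  have e2 : (∫ θ in (0 : ℝ)..Real.pi, ∫ φ in (0 : ℝ)..(2 * Real.pi),
        (H θ φ ^ 2 - 1 / 2 * T θ φ ^ 2) * Real.sin θ) ≤ 2 * Real.pi +
      (∫ θ in (0 : ℝ)..Real.pi, ∫ φ in (0 : ℝ)..(2 * Real.pi), (H θ φ - Real.sin θ)) +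
      ∫ θ in (0 : ℝ)..Real.pi, ∫ φ in (0 : ℝ)..(2 * Real.pi),
        (H θ φ - Real.sin θ) ^ 2 * Real.sin θ := by
    rw [DcD_swap (f := fun θ φ => (H θ φ ^ 2 - 1 / 2 * T θ φ ^ 2) * Real.sin θ) cA hpi.le h2pi,
      DcD_swap (f := fun θ φ => H θ φ - Real.sin θ) cK hpi.le h2pi,
      DcD_swap (f := fun θ φ => (H θ φ - Real.sin θ) ^ 2 * Real.sin θ) cK2 hpi.le h2pi]
    have sA : Continuous (fun q : ℝ × ℝ =>
        (H q.2 q.1 ^ 2 - 1 / 2 * T q.2 q.1 ^ 2) * Real.sin q.2) := by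
      have := cA.comp continuous_swap
      simpa only [Function.comp_def, Prod.fst_swap, Prod.snd_swap] using this
    have sK : Continuous (fun q : ℝ × ℝ => H q.2 q.1 - Real.sin q.2) := by
      have := cK.comp continuous_swap
      simpa only [Function.comp_def, Prod.fst_swap, Prod.snd_swap] using this
    have sK2 : Continuous (fun q : ℝ × ℝ => (H q.2 q.1 - Real.sin q.2) ^ 2 * Real.sin q.2) := by
      have := cK2.comp continuous_swap
      simpa only [Function.comp_def, Prod.fst_swap, Prod.snd_swap] using this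
    have pA := DcD_par (f := fun φ θ => (H θ φ ^ 2 - 1 / 2 * T θ φ ^ 2) * Real.sin θ) sA 0 Real.pi
    have pK := DcD_par (f := fun φ θ => H θ φ - Real.sin θ) sK 0 Real.pi
    have pK2 := DcD_par (f := fun φ θ => (H θ φ - Real.sin θ) ^ 2 * Real.sin θ) sK2 0 Real.pi
    have h1 : ∫ φ in (0 : ℝ)..(2 * Real.pi), (1 : ℝ) = 2 * Real.pi := by
      rw [intervalIntegral.integral_const, smul_eq_mul, sub_zero, mul_one]
    have h3 : (2 * Real.pi +
        (∫ φ in (0 : ℝ)..(2 * Real.pi), ∫ θ in (0 : ℝ)..Real.pi, (H θ φ - Real.sin θ)) +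
        ∫ φ in (0 : ℝ)..(2 * Real.pi), ∫ θ in (0 : ℝ)..Real.pi,
          (H θ φ - Real.sin θ) ^ 2 * Real.sin θ) =
        ∫ φ in (0 : ℝ)..(2 * Real.pi), ((1 + ∫ θ in (0 : ℝ)..Real.pi, (H θ φ - Real.sin θ)) +
          ∫ θ in (0 : ℝ)..Real.pi, (H θ φ - Real.sin θ) ^ 2 * Real.sin θ) := by
      have c1 : Continuous (fun φ : ℝ => (1 : ℝ) + ∫ θ in (0 : ℝ)..Real.pi, (H θ φ - Real.sin θ)) :=
        continuous_const.add pK
      rw [DcD_add c1 pK2, DcD_add continuous_const pK, h1]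
    rw [h3]
    refine DcD_mono h2pi pA ?_ ?_
    · exact (continuous_const.add pK).add pK2
    intro φ _
    have h4 := meridian_ineq (fun θ => H θ φ) (fun θ => T θ φ)
      (fun t => by
        have := DcA_theta p t φ
        rw [hH, hT]
        exact this) (DcD_fix2 (f := T) cT φ)
    exact h4
  -- step 3
  have c0 := DcD_az0 cH
  have cc := DcD_azc cH
  have cs := DcD_azs cH
  have cr := DcD_azr cH
  have cR : Continuous (fun q : ℝ × ℝ => azr (ev p) q.1 q.2 ^ 2 * Real.sin q.1) := (cr.pow 2).mul cS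
  have cM : Continuous (fun θ : ℝ => (2 * Real.pi * (az0 (ev p) θ - Real.sin θ) ^ 2
      + Real.pi / 2 * (azc (ev p) θ ^ 2 + azs (ev p) θ ^ 2)) * Real.sin θ) :=
    ((continuous_const.mul ((c0.sub Real.continuous_sin).pow 2)).add
      (continuous_const.mul ((cc.pow 2).add (cs.pow 2)))).mul Real.continuous_sin
  have e3 : (∫ θ in (0 : ℝ)..Real.pi, ∫ φ in (0 : ℝ)..(2 * Real.pi),
        (H θ φ - Real.sin θ) ^ 2 * Real.sin θ) -
      (∫ θ in (0 : ℝ)..Real.pi, ∫ φ in (0 : ℝ)..(2 * Real.pi), 1 / 2 * F θ φ ^ 2 * Real.sin θ) ≤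
      (∫ θ in (0 : ℝ)..Real.pi, (2 * Real.pi * (az0 (ev p) θ - Real.sin θ) ^ 2
      + Real.pi / 2 * (azc (ev p) θ ^ 2 + azs (ev p) θ ^ 2)) * Real.sin θ)
      - ∫ θ in (0 : ℝ)..Real.pi, ∫ φ in (0 : ℝ)..(2 * Real.pi), azr (ev p) θ φ ^ 2 * Real.sin θ := by
    have pK2 := DcD_par (f := fun θ φ => (H θ φ - Real.sin θ) ^ 2 * Real.sin θ) cK2 0 (2 * Real.pi)
    have pB := DcD_par (f := fun θ φ => 1 / 2 * F θ φ ^ 2 * Real.sin θ) cB 0 (2 * Real.pi)
    have pR := DcD_par (f := fun θ φ => azr (ev p) θ φ ^ 2 * Real.sin θ) cR 0 (2 * Real.pi)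
    rw [← DcD_sub pK2 pB, ← DcD_sub cM pR]
    refine DcD_mono hpi.le ?_ ?_ ?_
    · exact pK2.sub pB
    · exact cM.sub pR
    intro θ hθ
    have hs := Real.sin_nonneg_of_mem_Icc hθ
    rw [intervalIntegral.integral_mul_const, intervalIntegral.integral_mul_const,
      intervalIntegral.integral_mul_const, intervalIntegral.integral_const_mul, ← sub_mul, ← sub_mul]
    apply mul_le_mul_of_nonneg_right _ hs
    have cHθ : Continuous (fun φ => H θ φ) := DcD_fix1 (f := H) cHH θ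
    have hmean : az0 (ev p) θ - Real.sin θ =
        (2 * Real.pi)⁻¹ * ∫ t in (0 : ℝ)..(2 * Real.pi), (H θ t - Real.sin θ) := by
      rw [DcD_sub cHθ continuous_const, intervalIntegral.integral_const, smul_eq_mul, sub_zero,
        mul_sub, hH]
      unfold az0
      field_simp
    have ha : azc (ev p) θ =
        Real.pi⁻¹ * ∫ t in (0 : ℝ)..(2 * Real.pi), (H θ t - Real.sin θ) * Real.cos t := by
      have h1 : (fun t : ℝ => (H θ t - Real.sin θ) * Real.cos t) =
          fun t : ℝ => H θ t * Real.cos t - Real.sin θ * Real.cos t := by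
        funext t
        ring
      have m1 : Continuous (fun t : ℝ => H θ t * Real.cos t) := cHθ.mul Real.continuous_cos
      have m2 : Continuous (fun t : ℝ => Real.sin θ * Real.cos t) :=
        continuous_const.mul Real.continuous_cos
      rw [h1, DcD_sub m1 m2,
        intervalIntegral.integral_const_mul, integral_cos, Real.sin_two_pi, Real.sin_zero, sub_zero,
        mul_zero, sub_zero, hH]
      rfl
    have hb : azs (ev p) θ =
        Real.pi⁻¹ * ∫ t in (0 : ℝ)..(2 * Real.pi), (H θ t - Real.sin θ) * Real.sin t := by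
      have h1 : (fun t : ℝ => (H θ t - Real.sin θ) * Real.sin t) =
          fun t : ℝ => H θ t * Real.sin t - Real.sin θ * Real.sin t := by
        funext t
        ring
      have m1 : Continuous (fun t : ℝ => H θ t * Real.sin t) := cHθ.mul Real.continuous_sin
      have m2 : Continuous (fun t : ℝ => Real.sin θ * Real.sin t) :=
        continuous_const.mul Real.continuous_sin
      rw [h1, DcD_sub m1 m2,
        intervalIntegral.integral_const_mul, integral_sin, Real.cos_two_pi, Real.cos_zero, sub_self,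
        mul_zero, sub_zero, hH]
      rfl
    have h5 := az_ineq (fun t => H θ t - Real.sin θ) (fun t => F θ t)
      (fun t => by
        have := (DcA_phi p θ t).sub_const (Real.sin θ)
        rw [hH, hF]
        exact this) (DcD_fix1 (f := F) cF θ)
      (by
        rw [hH]
        simp only [sp, Real.cos_two_pi, Real.sin_two_pi, Real.cos_zero, Real.sin_zero])
      _ _ _ hmean ha hb
    have h6 : (fun t : ℝ => (H θ t - Real.sin θ - (az0 (ev p) θ - Real.sin θ) -
        azc (ev p) θ * Real.cos t - azs (ev p) θ * Real.sin t) ^ 2) =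
        fun t : ℝ => azr (ev p) θ t ^ 2 := by
      funext t
      rw [hH]
      unfold azr
      ring
    rw [h6] at h5
    exact h5
  unfold FA
  rw [hH] at e2 e3
  rw [hH] at e1
  linarith

end

end Pool.Agent.Lib.MP_dabcc9_gt
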