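import Pool.Agent.Lib.MP_dabcc9_gt.RotA

/-! JOB A2b. Rotation derivatives, EE (L i p) = 0. -/

open MeasureTheory Metric Set MvPolynomial

namespace Pool.Agent.Lib.MP_dabcc9_gt

noncomputable section

theorem RotB_differentiable (p : P) : Differentiable ℝ (ev p) :=
  (contDiff_ev p).differentiable (by simp)

theorem RotB_L_X (i j : Fin 3) (x : E3) : ev (L i (X j)) x = cr (eb i) x j := by
  fin_cases i <;> fin_cases j <;> simp [L, cr, eb, ev, pderiv_X]

theorem RotB_fderiv_X (j : Fin 3) (x v : E3) : fderiv ℝ (ev (X j)) x v = v j := by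
  have h : ev (X j) = (EuclideanSpace.proj j : E3 →L[ℝ] ℝ) := by
    funext y
    rw [ev_X]
    rfl
  rw [h, ContinuousLinearMap.fderiv]
  rfl

/-- `ev (L i p) x` is the derivative of `p` in the direction `e_i × x`. PROOF: both sides are
derivations in `p` (over evaluation at `x`); or `MvPolynomial.induction_on`. -/
theorem ev_L_eq_fderiv (i : Fin 3) (p : P) (x : E3) :
    ev (L i p) x = fderiv ℝ (ev p) x (cr (eb i) x) := by
  induction p using MvPolynomial.induction_on with
  | C a =>
    have h1 : L i (C a : P) = 0 := (L i).map_algebraMap a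
    have h2 : ev (C a) = fun _ => a := by
      funext y
      exact ev_C a y
    rw [h1, ev_zero, h2, fderiv_fun_const]
    rfl
  | add p q hp hq =>
    have h1 : ev (p + q) = ev p + ev q := by
      funext y
      exact ev_add p q y
    rw [map_add, ev_add, hp, hq, h1, fderiv_add (RotB_differentiable p x) (RotB_differentiable q x)]
    rfl
  | mul_X p j hp =>
    have h1 : ev (p * X j) = ev p * ev (X j) := by
      funext y
      exact ev_mul p (X j) y
    rw [Derivation.leibniz, ev_add, smul_eq_mul, smul_eq_mul, ev_mul, ev_mul, hp, h1,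
      fderiv_mul (RotB_differentiable p x) (RotB_differentiable (X j) x)]
    rw [_root_.add_apply, _root_.smul_apply,
      _root_.smul_apply, RotB_fderiv_X, RotB_L_X, smul_eq_mul, smul_eq_mul]

theorem hasDerivAt_rotv (i : Fin 3) (p : P) (x : E3) (t : ℝ) :
    HasDerivAt (fun t => ev p (rotv i t x)) (ev (L i p) (rotv i t x)) t := by
  have h1 : HasDerivAt (fun t => rotv i t x) (cr (eb i) (rotv i t x)) t := by
    have h2 : cr (eb i) (rotv i t x) = (-(Real.sin t) * x (i + 1) - Real.cos t * x (i + 2)) •
        eb (i + 1) + (Real.cos t * x (i + 1) + -(Real.sin t) * x (i + 2)) • eb (i + 2) := by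
      fin_cases i <;> ext j <;> fin_cases j <;> simp [cr, eb, rotv] <;> ring
    rw [h2]
    unfold rotv
    have hc := Real.hasDerivAt_cos t
    have hs := Real.hasDerivAt_sin t
    have h3 := (((hc.mul_const (x (i + 1))).sub (hs.mul_const (x (i + 2)))).smul_const
      (eb (i + 1))).const_add (x i • eb i)
    have h4 := ((hs.mul_const (x (i + 1))).add (hc.mul_const (x (i + 2)))).smul_const
      (eb (i + 2))
    exact h3.add h4
  rw [ev_L_eq_fderiv]
  exact ((RotB_differentiable p (rotv i t x)).hasFDerivAt.comp_hasDerivAt t h1)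

/-- A continuous function is bounded on the sphere. -/
theorem RotB_bound (p : P) : ∃ C : ℝ, ∀ x : E3, ‖x‖ = 1 → ‖ev p x‖ ≤ C := by
  obtain ⟨C, hC⟩ := (isCompact_sphere (0 : E3) 1).exists_bound_of_continuousOn
    (continuous_ev p).continuousOn
  exact ⟨C, fun x hx => hC x (mem_sphere_zero_iff_norm.2 hx)⟩

theorem RotB_cont (p : P) (i : Fin 3) (t : ℝ) :
    Continuous fun x : sphere (0 : E3) 1 => ev p (rotv i t x) := by
  obtain ⟨R, hR⟩ := exists_rot i t
  have h1 : (fun x : sphere (0 : E3) 1 => ev p (rotv i t x)) =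
      fun x : sphere (0 : E3) 1 => ev p (R x) := by
    funext x
    rw [hR]
  rw [h1]
  exact (continuous_ev p).comp (R.continuous.comp continuous_subtype_val)

/-- PROOF: `t ↦ EE (p ∘ rotation)` is constant by `av_comp_isometry`, and its derivative at `0` is
`EE (L i p)` (differentiate under the integral, `hasDerivAt_integral_of_dominated_loc_of_deriv_le`,
the derivative is bounded on the compact sphere).  Alternative without differentiation under the
integral: by the mean value theorem `|p (R_t x) - p x - t (L i p) x| <= C t^2` on the sphere with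
`C` a bound of `|L i (L i p)|`; so `|t * EE (L i p)| <= C t^2` for all `t`. -/
theorem EE_L (i : Fin 3) (p : P) : EE (L i p) = 0 := by
  obtain ⟨C, hC⟩ := RotB_bound (L i p)
  have h0 : ∀ t : ℝ, ∫ x : sphere (0 : E3) 1, ev p (rotv i t x) ∂(volume : Measure E3).toSphere =
      ∫ x : sphere (0 : E3) 1, ev p x ∂(volume : Measure E3).toSphere := by
    intro t
    obtain ⟨R, hR⟩ := exists_rot i t
    have h1 : (fun x : sphere (0 : E3) 1 => ev p (rotv i t x)) =
        fun x : sphere (0 : E3) 1 => ev p (R x) := by
      funext x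
      rw [hR]
    rw [h1]
    exact (RotA_measurePreserving R).integral_comp (RotA_sph R).measurableEmbedding
      (fun x : sphere (0 : E3) 1 => ev p x)
  have h1 := (hasDerivAt_integral_of_dominated_loc_of_deriv_le
    (μ := (volume : Measure E3).toSphere) (F := fun t (x : sphere (0 : E3) 1) => ev p (rotv i t x))
    (F' := fun t (x : sphere (0 : E3) 1) => ev (L i p) (rotv i t x)) (x₀ := (0 : ℝ))
    (s := univ) (bound := fun _ => C) Filter.univ_mem
    (Filter.Eventually.of_forall fun t => (RotB_cont p i t).aestronglyMeasurable)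
    ((RotB_cont p i 0).integrable_of_hasCompactSupport (HasCompactSupport.of_compactSpace _))
    (RotB_cont (L i p) i 0).aestronglyMeasurable
    (Filter.Eventually.of_forall fun x t _ => hC _ (by
      rw [norm_rotv]
      exact mem_sphere_zero_iff_norm.1 x.2))
    (integrable_const C)
    (Filter.Eventually.of_forall fun x t _ => hasDerivAt_rotv i p x t)).2
  have h2 : (fun t : ℝ => ∫ x : sphere (0 : E3) 1, ev p (rotv i t x)
      ∂(volume : Measure E3).toSphere) = fun _ => ∫ x : sphere (0 : E3) 1, ev p x
      ∂(volume : Measure E3).toSphere := funext h0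
  rw [h2] at h1
  have h3 := h1.unique (hasDerivAt_const _ _)
  simp only [rotv_zero] at h3
  unfold EE av
  rw [average_eq, h3, smul_zero]

/-- Rotation derivatives depend only on the values on the sphere. PROOF: differentiate
`ev a (rotv i t x) = ev b (rotv i t x)` at `t = 0` with `hasDerivAt_rotv`. -/
theorem EqS.L {a b : P} (h : EqS a b) (i : Fin 3) : EqS (L i a) (L i b) := by
  intro x hx
  have h1 := hasDerivAt_rotv i a x 0
  have h2 := hasDerivAt_rotv i b x 0
  have h3 : (fun t => ev a (rotv i t x)) = fun t => ev b (rotv i t x) := by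
    funext t
    exact h _ (by rw [norm_rotv, hx])
  rw [h3] at h1
  have h4 := h1.unique h2
  rw [rotv_zero] at h4
  exact h4

theorem EqS.Lap {a b : P} (h : EqS a b) : EqS (Lap a) (Lap b) := by
  intro x hx
  unfold Pool.Agent.Lib.MP_dabcc9_gt.Lap
  rw [ev_sum, ev_sum]
  exact Finset.sum_congr rfl fun i _ => ((h.L i).L i) x hx

theorem EqS.Gam {a b c d : P} (h : EqS a b) (h' : EqS c d) : EqS (Gam a c) (Gam b d) := by
  intro x hx
  unfold Pool.Agent.Lib.MP_dabcc9_gt.Gam
  rw [ev_sum, ev_sum]
  exact Finset.sum_congr rfl fun i _ => ((h.L i).mul (h'.L i)) x hx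

theorem EE_Lap (a : P) : EE (Lap a) = 0 := by
  unfold Lap
  rw [EE_sum]
  exact Finset.sum_eq_zero fun i _ => EE_L i _

end

end Pool.Agent.Lib.MP_dabcc9_gt
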