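import Pool.Agent.Lib.MP_dabcc9_gt.SphB
import Pool.Agent.Lib.MP_dabcc9_gt.RotB
import Pool.Agent.Lib.MP_dabcc9_gt.MollA

/-! Definitions for the behaviour near the disc. -/

open MeasureTheory Metric Set

namespace Pool.Agent.Lib.MP_dabcc9_gt

noncomputable section

/-- Horizontal unit vector. -/
def eh (φ : ℝ) : E3 := !₂[Real.cos φ, Real.sin φ, 0]

/-- Mean over the parallel of colatitude `θ`. -/
def az0 (H : E3 → ℝ) (θ : ℝ) : ℝ :=
  (2 * Real.pi)⁻¹ * ∫ φ in (0 : ℝ)..(2 * Real.pi), H (sp θ φ)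

/-- First cosine coefficient on the parallel of colatitude `θ`. -/
def azc (H : E3 → ℝ) (θ : ℝ) : ℝ :=
  Real.pi⁻¹ * ∫ φ in (0 : ℝ)..(2 * Real.pi), H (sp θ φ) * Real.cos φ

/-- First sine coefficient on the parallel of colatitude `θ`. -/
def azs (H : E3 → ℝ) (θ : ℝ) : ℝ :=
  Real.pi⁻¹ * ∫ φ in (0 : ℝ)..(2 * Real.pi), H (sp θ φ) * Real.sin φ

/-- What remains after removing the modes `0` and `1`. -/
def azr (H : E3 → ℝ) (θ φ : ℝ) : ℝ :=
  H (sp θ φ) - az0 H θ - azc H θ * Real.cos φ - azs H θ * Real.sin φ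

/-- The weight. -/
def om (θ : ℝ) : ℝ := 1 - 4 / Real.pi * Real.sin θ

/-- Upper bound for the surface area functional. -/
def FA (H : E3 → ℝ) : ℝ := 2 * Real.pi
  + (∫ θ in (0 : ℝ)..Real.pi, ∫ φ in (0 : ℝ)..(2 * Real.pi), (H (sp θ φ) - Real.sin θ))
  + (∫ θ in (0 : ℝ)..Real.pi, (2 * Real.pi * (az0 H θ - Real.sin θ) ^ 2
      + Real.pi / 2 * (azc H θ ^ 2 + azs H θ ^ 2)) * Real.sin θ)
  - ∫ θ in (0 : ℝ)..Real.pi, ∫ φ in (0 : ℝ)..(2 * Real.pi), azr H θ φ ^ 2 * Real.sin θ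

/-- Normalised position: mean of the support function `pi/4`, minimal width `w` attained in the
vertical direction, centred. -/
structure Nz (K : Set E3) (w : ℝ) : Prop where
  comp : IsCompact K
  conv : Convex ℝ K
  ne : K.Nonempty
  mean : av (supp K) = Real.pi / 4
  top : supp K (eb 2) = w / 2
  bot : supp K (-eb 2) = w / 2
  wid : ∀ x : E3, ‖x‖ = 1 → w ≤ supp K x + supp K (-x)
  mc : ∫ φ in (0 : ℝ)..(2 * Real.pi), supp K (eh φ) * Real.cos φ = 0
  ms : ∫ φ in (0 : ℝ)..(2 * Real.pi), supp K (eh φ) * Real.sin φ = 0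

/-- `h(θ, φ) - r(φ) sin θ`. -/
def kk (K : Set E3) (θ φ : ℝ) : ℝ := supp K (sp θ φ) - supp K (eh φ) * Real.sin θ

/-- Upper profile. -/
def mtop (K : Set E3) (φ τ : ℝ) : ℝ := supp K (τ • eh φ + eb 2) - τ * supp K (eh φ)

/-- Lower profile. -/
def mbot (K : Set E3) (φ τ : ℝ) : ℝ := supp K (τ • eh φ - eb 2) - τ * supp K (eh φ)

theorem inner_eh (y : E3) (φ : ℝ) : inner ℝ y (eh φ) = Real.cos φ * y 0 + Real.sin φ * y 1 := by
  rw [inner_eq3]
  simp [eh]
  ring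

theorem norm_eh (φ : ℝ) : ‖eh φ‖ = 1 := by
  have h : ‖eh φ‖ ^ 2 = 1 := by
    rw [norm_sq_eq3]
    simp [eh]
  have h0 := norm_nonneg (eh φ)
  nlinarith

theorem inner_eb2 (y : E3) : inner ℝ y (eb 2) = y 2 := by
  rw [inner_eq3]
  simp [eb]

theorem norm_eb (i : Fin 3) : ‖eb i‖ = 1 := by
  simp [eb]

theorem sp_eq (θ φ : ℝ) : sp θ φ = Real.sin θ • eh φ + Real.cos θ • eb 2 := by
  ext i
  fin_cases i <;> simp [sp, eh, eb]

theorem continuous_eh : Continuous eh := by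
  unfold eh
  refine (PiLp.continuous_toLp 2 _).comp (continuous_pi fun i => ?_)
  fin_cases i
  · exact Real.continuous_cos
  · exact Real.continuous_sin
  · exact continuous_const

end

end Pool.Agent.Lib.MP_dabcc9_gt
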