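import Pool.Agent.Lib.MP_dabcc9_gt.LimB

/-! Normalisation and approximation of a convex body by a sequence of polynomials. -/

open MeasureTheory Metric Set MvPolynomial Filter Topology
open scoped Pointwise

namespace Pool.Agent.Lib.MP_dabcc9_gt

noncomputable section

/-- Normalisation: mean `1`, orthogonal to linear functions. -/
theorem normalise (p : P) (hp : ConvS p) (hm : 0 < EE p) : ∃ q : P, ConvS q ∧ EE q = 1 ∧
    (∀ i, EE (q * X i) = 0) ∧ EE (detA q) = (1 / EE p) ^ 2 * EE (detA p) ∧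
    EE (q * detA q) = (1 / EE p) ^ 3 * EE (p * detA p) := by
  obtain ⟨m, hmdef⟩ : ∃ m : ℝ, m = EE p := ⟨_, rfl⟩
  rw [← hmdef] at hm ⊢
  have hm0 : m ≠ 0 := hm.ne'
  obtain ⟨s, hs⟩ : ∃ s : Fin 3 → ℝ, s = fun k => 3 * EE (p * X k) / m := ⟨_, rfl⟩
  obtain ⟨q, hq⟩ : ∃ q : P, q = C (1 / m) * p - ∑ k, C (s k) * X k := ⟨_, rfl⟩
  have hqc : ConvS q := by
    rw [hq]
    exact (hp.C_mul (1 / m) (by positivity)).sub_lin s
  have hlinX : ∀ i, EE ((∑ k, C (s k) * X k : P) * X i) = s i / 3 := by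
    intro i
    rw [Finset.sum_mul, EE_sum]
    have h1 : ∀ k ∈ (Finset.univ : Finset (Fin 3)), EE (C (s k) * X k * X i) =
        if k = i then s k / 3 else 0 := by
      intro k _
      rw [mul_assoc, EE_C_mul, EE_XX]
      split_ifs <;> ring
    rw [Finset.sum_congr rfl h1, Finset.sum_ite_eq' Finset.univ i (fun k => s k / 3),
      if_pos (Finset.mem_univ i)]
  have hlin1 : EE (∑ k, C (s k) * X k : P) = 0 := by
    rw [EE_sum]
    refine Finset.sum_eq_zero fun k _ => ?_
    rw [EE_C_mul, EE_X, mul_zero]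
  have h1 : EE q = 1 := by
    rw [hq, EE_sub, EE_C_mul, hlin1, ← hmdef]
    field_simp
    ring
  have hX : ∀ i, EE (q * X i) = 0 := by
    intro i
    rw [hq, sub_mul, EE_sub, hlinX, mul_assoc, EE_C_mul, hs]
    field_simp
    ring
  have hdet : EqS (detA q) (C ((1 / m) ^ 2) * detA p) := by
    have e1 : q = C (1 / m) * p + ∑ k, C (-s k) * X k := by
      rw [hq, sub_eq_add_neg, ← Finset.sum_neg_distrib]
      congr 1
      refine Finset.sum_congr rfl fun k _ => ?_
      rw [map_neg, neg_mul]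
    rw [e1, ← detA_C_mul]
    exact detA_add_lin _ _
  have hD : EE (detA q) = (1 / m) ^ 2 * EE (detA p) := by
    rw [EE_congr hdet, EE_C_mul]
  have hV : EE (q * detA q) = (1 / m) ^ 3 * EE (p * detA p) := by
    rw [EE_congr ((EqS.refl q).mul hdet), hq]
    have e2 : (C (1 / m) * p - ∑ k, C (s k) * X k) * (C ((1 / m) ^ 2) * detA p) =
        C ((1 / m) ^ 3) * (p * detA p) - C ((1 / m) ^ 2) * ∑ k, C (s k) * (X k * detA p) := by
      have e3 : (C ((1 / m) ^ 3) : P) = C (1 / m) * C ((1 / m) ^ 2) := by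
        rw [← map_mul]
        congr 1
        ring
      have e4 : (∑ k, C (s k) * (X k * detA p) : P) = (∑ k, C (s k) * X k) * detA p := by
        rw [Finset.sum_mul]
        exact Finset.sum_congr rfl fun k _ => (mul_assoc _ _ _).symm
      rw [e3, e4]
      ring
    rw [e2, EE_sub, EE_C_mul, EE_C_mul, EE_sum]
    have e5 : ∑ k, EE (C (s k) * (X k * detA p)) = 0 := by
      refine Finset.sum_eq_zero fun k _ => ?_
      rw [EE_C_mul, EE_X_detA, mul_zero]
    rw [e5, mul_zero, sub_zero]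
  exact ⟨q, hqc, h1, hX, hD, hV⟩

private lemma Seq_unit : ‖(EuclideanSpace.single (0 : Fin 3) (1 : ℝ) : E3)‖ = 1 := by
  simp

private lemma Seq_EE_pos {p : P} (hpos : ∀ x : E3, ‖x‖ = 1 → 0 < ev p x) : 0 < EE p := by
  have h0 : 0 ≤ EE p := EE_nonneg fun x hx => (hpos x hx).le
  rcases h0.lt_or_eq with h | h
  · exact h
  · exfalso
    have h1 := av_eq_zero (f := ev p) (continuous_ev p).continuousOn
      (fun x hx => (hpos x hx).le) h.symm _ Seq_unit
    have h2 := hpos _ Seq_unit
    rw [h1] at h2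
    exact lt_irrefl _ h2

private lemma Seq_fin {K : Set E3} (hK : IsCompact K) (t : ℝ) : volume (cthickening t K) ≠ ⊤ :=
  (hK.cthickening).measure_lt_top.ne

private lemma Seq_vol_mono {A B : Set E3} (h : A ⊆ B) (hB : volume B ≠ ⊤) : vol A ≤ vol B :=
  ENNReal.toReal_mono hB (measure_mono h)

private lemma Seq_tendsto {K : Set E3} (hK : IsCompact K) (t : ℝ) (ht : 0 ≤ t) :
    Tendsto (fun n : ℕ => vol (cthickening (t + 1 / ((n : ℝ) + 1)) K)) atTop
      (𝓝 (vol (cthickening t K))) := by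
  have h1 : Tendsto (fun r => volume (cthickening r (cthickening t K))) (𝓝 (0 : ℝ))
      (𝓝 (volume (closure (cthickening t K)))) := by
    apply tendsto_measure_cthickening
    exact ⟨1, one_pos, Seq_fin hK.cthickening 1⟩
  rw [isClosed_cthickening.closure_eq] at h1
  have h2 : Tendsto (fun n : ℕ => 1 / ((n : ℝ) + 1)) atTop (𝓝 0) :=
    tendsto_one_div_add_atTop_nhds_zero_nat
  have h3 := (ENNReal.tendsto_toReal (Seq_fin hK t)).comp (h1.comp h2)
  refine h3.congr fun n => ?_
  have hn : (0 : ℝ) ≤ 1 / ((n : ℝ) + 1) := by positivity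
  simp only [Function.comp]
  unfold vol
  rw [cthickening_cthickening hn ht, add_comm]

/-- The coefficient of the surface area is nonnegative: the volume of the outer parallel body is
at least the volume of the body. -/
private lemma Seq_det_nonneg {p : P} (hp : ConvSS p) (hpos : ∀ x : E3, ‖x‖ = 1 → 0 < ev p x) :
    0 ≤ EE (detA p) := by
  have hpi : (0 : ℝ) < 4 * Real.pi / 3 := by positivity
  have h1 : ∀ t : ℝ, 0 < t → 0 ≤ EE (detA p) + t * EE p + t ^ 2 / 3 := by
    intro t ht
    have e1 := steiner_body hp hpos t ht.le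
    have e2 := vol_body hp hpos
    have e3 : vol (body p) ≤ vol (cthickening t (body p)) :=
      Seq_vol_mono (self_subset_cthickening _) (Seq_fin (body_compact _) t)
    rw [e1, e2] at e3
    have e4 := le_of_mul_le_mul_left e3 hpi
    have e5 : 0 ≤ (3 * t) * (EE (detA p) + t * EE p + t ^ 2 / 3) := by
      have : (3 * t) * (EE (detA p) + t * EE p + t ^ 2 / 3)
        = 3 * t * EE (detA p) + 3 * t ^ 2 * EE p + t ^ 3 := by ring
      rw [this]
      linarith
    exact nonneg_of_mul_nonneg_right e5 (by positivity)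
  have h2 : Tendsto (fun t : ℝ => EE (detA p) + t * EE p + t ^ 2 / 3) (𝓝[>] 0)
      (𝓝 (EE (detA p) + 0 * EE p + 0 ^ 2 / 3)) := by
    apply tendsto_nhdsWithin_of_tendsto_nhds
    exact Continuous.tendsto (by fun_prop) 0
  have h3 : 0 ≤ EE (detA p) + 0 * EE p + 0 ^ 2 / 3 :=
    ge_of_tendsto h2 (eventually_nhdsWithin_of_forall fun t ht => h1 t ht)
  linarith

/-- A convex body as a limit of bodies with polynomial support functions. -/
theorem steiner_seq {K : Set E3} (hK : IsCompact K) (hc : Convex ℝ K) (h0 : (0 : E3) ∈ K) :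
    ∃ x y : ℝ, (∀ t : ℝ, 0 ≤ t → vol (cthickening t K) = 4 * Real.pi / 3 *
        (y + 3 * t * x + 3 * t ^ 2 * av (supp K) + t ^ 3)) ∧
      ∃ p : ℕ → P, (∀ n, ConvS (p n)) ∧ (∀ n, 0 < EE (p n)) ∧
        (∀ n, 0 ≤ EE (p n * detA (p n))) ∧ (∀ n, 0 ≤ EE (detA (p n))) ∧
        Tendsto (fun n => EE (p n)) atTop (𝓝 (av (supp K))) ∧
        Tendsto (fun n => EE (detA (p n))) atTop (𝓝 x) ∧
        Tendsto (fun n => EE (p n * detA (p n))) atTop (𝓝 y) := by
  have hne : K.Nonempty := ⟨0, h0⟩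
  have hpi : (0 : ℝ) < 4 * Real.pi / 3 := by positivity
  have happ : ∀ n : ℕ, ∃ p : P, ConvSS p ∧
      ∀ x : E3, ‖x‖ = 1 → 0 < ev p x ∧ supp K x ≤ ev p x ∧ ev p x ≤ supp K x + 1 / ((n : ℝ) + 1) :=
    fun n => approx hK hc h0 _ (by positivity)
  choose p hp hb using happ
  have hη : ∀ n : ℕ, (0 : ℝ) ≤ 1 / ((n : ℝ) + 1) := fun n => by positivity
  have hbet : ∀ n, K ⊆ body (p n) ∧ body (p n) ⊆ cthickening (1 / ((n : ℝ) + 1)) K := fun n =>
    body_between hK hc hne (p n) _ (hη n) fun x hx => ⟨(hb n x hx).2.1, (hb n x hx).2.2⟩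
  -- the three sequences
  set Y : ℕ → ℝ := fun n => EE (p n * detA (p n)) with hY
  set Xs : ℕ → ℝ := fun n => EE (detA (p n)) with hXs
  set M : ℕ → ℝ := fun n => EE (p n) with hM
  have hQ : ∀ t : ℝ, 0 ≤ t → Tendsto (fun n => 4 * Real.pi / 3 *
      (Y n + 3 * t * Xs n + 3 * t ^ 2 * M n + t ^ 3)) atTop (𝓝 (vol (cthickening t K))) := by
    intro t ht
    have h1 : ∀ n, vol (cthickening t (body (p n))) = 4 * Real.pi / 3 *
        (Y n + 3 * t * Xs n + 3 * t ^ 2 * M n + t ^ 3) := fun n =>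
      steiner_body (hp n) (fun x hx => (hb n x hx).1) t ht
    have h2 : ∀ n, vol (cthickening t K) ≤ vol (cthickening t (body (p n))) := fun n =>
      Seq_vol_mono (cthickening_subset_of_subset t (hbet n).1) (Seq_fin (body_compact _) t)
    have h3 : ∀ n : ℕ, vol (cthickening t (body (p n))) ≤
        vol (cthickening (t + 1 / ((n : ℝ) + 1)) K) := fun n => by
      apply Seq_vol_mono _ (Seq_fin hK _)
      refine (cthickening_subset_of_subset t (hbet n).2).trans ?_
      exact cthickening_cthickening_subset ht (hη n) K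
    have h4 := Seq_tendsto hK t ht
    have h5 : Tendsto (fun n => vol (cthickening t (body (p n)))) atTop
        (𝓝 (vol (cthickening t K))) :=
      tendsto_of_tendsto_of_tendsto_of_le_of_le tendsto_const_nhds h4 h2 h3
    exact h5.congr h1
  have hsc : Continuous (supp K) := (supp_props hK hne).2.2.2.2
  have hMt : Tendsto M atTop (𝓝 (av (supp K))) := by
    have h1 : ∀ n, av (supp K) ≤ M n := fun n =>
      av_mono hsc.continuousOn (continuous_ev _).continuousOn fun x hx => (hb n x hx).2.1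
    have h2 : ∀ n : ℕ, M n ≤ av (supp K) + 1 / ((n : ℝ) + 1) := fun n => by
      have h3 : M n ≤ av (fun x => supp K x + 1 / ((n : ℝ) + 1)) :=
        av_mono (continuous_ev _).continuousOn (hsc.add continuous_const).continuousOn
          fun x hx => (hb n x hx).2.2
      rw [av_add hsc.continuousOn continuousOn_const, av_const] at h3
      exact h3
    have h4 : Tendsto (fun n : ℕ => av (supp K) + 1 / ((n : ℝ) + 1)) atTop
        (𝓝 (av (supp K) + 0)) :=
      tendsto_const_nhds.add tendsto_one_div_add_atTop_nhds_zero_nat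
    rw [add_zero] at h4
    exact tendsto_of_tendsto_of_tendsto_of_le_of_le tendsto_const_nhds h4 h1 h2
  -- limits
  set y : ℝ := (4 * Real.pi / 3)⁻¹ * vol (cthickening 0 K) with hy
  set x : ℝ := ((4 * Real.pi / 3)⁻¹ * vol (cthickening 1 K) - y - 3 * av (supp K) - 1) / 3 with hx
  have hYt : Tendsto Y atTop (𝓝 y) := by
    have h1 := (hQ 0 le_rfl).const_mul (4 * Real.pi / 3)⁻¹
    refine h1.congr fun n => ?_
    rw [← mul_assoc, inv_mul_cancel₀ hpi.ne', one_mul]
    ring
  have hXt : Tendsto Xs atTop (𝓝 x) := by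
    have h1 := (hQ 1 zero_le_one).const_mul (4 * Real.pi / 3)⁻¹
    have h2 := (((h1.sub hYt).sub (hMt.const_mul 3)).sub_const 1).div_const 3
    refine h2.congr fun n => ?_
    rw [← mul_assoc, inv_mul_cancel₀ hpi.ne', one_mul]
    ring
  have hposn : ∀ n, ∀ x : E3, ‖x‖ = 1 → 0 < ev (p n) x := fun n x hx => (hb n x hx).1
  refine ⟨x, y, fun t ht => ?_, p, fun n => (hp n).convS, fun n => Seq_EE_pos (hposn n),
    fun n => ?_, fun n => Seq_det_nonneg (hp n) (hposn n), hMt, hXt, hYt⟩
  · have h1 := hQ t ht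
    have h2 : Tendsto (fun n => 4 * Real.pi / 3 *
        (Y n + 3 * t * Xs n + 3 * t ^ 2 * M n + t ^ 3)) atTop
        (𝓝 (4 * Real.pi / 3 * (y + 3 * t * x + 3 * t ^ 2 * av (supp K) + t ^ 3))) :=
      (((hYt.add (hXt.const_mul (3 * t))).add (hMt.const_mul (3 * t ^ 2))).add_const
        (t ^ 3)).const_mul _
    exact tendsto_nhds_unique h1 h2
  · have h2 := vol_body (hp n) (hposn n)
    have h3 : 0 ≤ vol (body (p n)) := ENNReal.toReal_nonneg
    rw [h2] at h3
    exact nonneg_of_mul_nonneg_right h3 hpi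

private lemma SeqB_thick {K : Set E3} (hK : IsCompact K) (a : E3) {t : ℝ} (ht : 0 ≤ t) :
    vol (cthickening t (K + ({a} : Set E3))) = vol (cthickening t K) := by
  have h1 : cthickening t (K + ({a} : Set E3)) = cthickening t K + ({a} : Set E3) := by
    rw [← (hK.add isCompact_singleton).add_closedBall_zero ht, add_right_comm,
      hK.add_closedBall_zero ht]
  unfold vol
  rw [h1, Set.add_singleton, Set.image_add_right, measure_preimage_add_right]

private lemma SeqB_supp {K : Set E3} (hK : IsCompact K) (hne : K.Nonempty) (a x : E3) :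
    supp (K + ({a} : Set E3)) x = supp K x + inner ℝ a x := by
  obtain ⟨s1, s2, -⟩ := supp_props hK hne
  obtain ⟨t1, t2, -⟩ := supp_props (hK.add (isCompact_singleton (x := a)))
    (hne.add (Set.singleton_nonempty a))
  apply le_antisymm
  · obtain ⟨z, hz, h⟩ := t2 x
    rw [h]
    obtain ⟨y, hy, b, hb, rfl⟩ := Set.mem_add.1 hz
    rw [Set.mem_singleton_iff.1 hb, inner_add_left]
    have := s1 y hy x
    linarith
  · obtain ⟨y, hy, h⟩ := s2 x
    rw [h, ← inner_add_left]
    exact t1 _ (Set.add_mem_add hy (Set.mem_singleton a)) x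

private lemma SeqB_av_neg (f : E3 → ℝ) : av (fun x => f (-x)) = av f :=
  av_comp_isometry (LinearIsometryEquiv.neg ℝ) f

private lemma SeqB_av_lin (a : E3) : av (fun x => inner ℝ a x) = 0 := by
  have h1 := SeqB_av_neg (fun x => inner ℝ a x)
  have h2 : (fun x : E3 => inner ℝ a (-x)) = fun x => (-1 : ℝ) * inner ℝ a x := by
    funext x
    rw [inner_neg_right]
    ring
  rw [h2, av_const_mul] at h1
  linarith

/-- The same for every convex body, by translation. -/
theorem steiner_seq' {K : Set E3} (hK : IsCompact K) (hc : Convex ℝ K) (hne : K.Nonempty) :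
    ∃ x y : ℝ, (∀ t : ℝ, 0 ≤ t → vol (cthickening t K) = 4 * Real.pi / 3 *
        (y + 3 * t * x + 3 * t ^ 2 * av (supp K) + t ^ 3)) ∧
      ∃ p : ℕ → P, (∀ n, ConvS (p n)) ∧ (∀ n, 0 < EE (p n)) ∧
        (∀ n, 0 ≤ EE (p n * detA (p n))) ∧ (∀ n, 0 ≤ EE (detA (p n))) ∧
        Tendsto (fun n => EE (p n)) atTop (𝓝 (av (supp K))) ∧
        Tendsto (fun n => EE (detA (p n))) atTop (𝓝 x) ∧
        Tendsto (fun n => EE (p n * detA (p n))) atTop (𝓝 y) := by
  obtain ⟨a, ha⟩ := hne
  have hne : K.Nonempty := ⟨a, ha⟩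
  have hav : av (supp (K + ({-a} : Set E3))) = av (supp K) := by
    have h1 : supp (K + ({-a} : Set E3)) = fun x => supp K x + inner ℝ (-a) x := by
      funext x
      exact SeqB_supp hK hne (-a) x
    rw [h1, av_add, SeqB_av_lin, add_zero]
    · exact (supp_props hK hne).2.2.2.2.continuousOn
    · exact (continuous_const.inner continuous_id).continuousOn
  have h0 : (0 : E3) ∈ K + ({-a} : Set E3) := by
    refine Set.mem_add.2 ⟨a, ha, -a, Set.mem_singleton _, ?_⟩
    exact add_neg_cancel a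
  obtain ⟨x, y, h1, h2⟩ := steiner_seq (hK.add isCompact_singleton)
    (hc.add (convex_singleton _)) h0
  rw [hav] at h1 h2
  refine ⟨x, y, fun t ht => ?_, h2⟩
  rw [← SeqB_thick hK (-a) ht]
  exact h1 t ht

end

end Pool.Agent.Lib.MP_dabcc9_gt
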