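import Pool.Agent.Lib.MP_dabcc9_gt.DcDefs
import Pool.Agent.Lib.MP_dabcc9_gt.Seq

/-! JOB D5.  Uniform approximation of a convex body in arbitrary position by polynomials. -/

open MeasureTheory Metric Set MvPolynomial Filter Topology
open scoped Pointwise

namespace Pool.Agent.Lib.MP_dabcc9_gt

noncomputable section

theorem DcE_fin {K : Set E3} (hK : IsCompact K) (t : ℝ) : volume (cthickening t K) ≠ ⊤ :=
  (hK.cthickening).measure_lt_top.ne

theorem DcE_vol_mono {A B : Set E3} (h : A ⊆ B) (hB : volume B ≠ ⊤) : vol A ≤ vol B :=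
  ENNReal.toReal_mono hB (measure_mono h)

theorem DcE_tendsto {K : Set E3} (hK : IsCompact K) (t : ℝ) (ht : 0 ≤ t) :
    Tendsto (fun n : ℕ => vol (cthickening (t + 1 / ((n : ℝ) + 1)) K)) atTop
      (𝓝 (vol (cthickening t K))) := by
  have h1 : Tendsto (fun r => volume (cthickening r (cthickening t K))) (𝓝 (0 : ℝ))
      (𝓝 (volume (closure (cthickening t K)))) := by
    apply tendsto_measure_cthickening
    exact ⟨1, one_pos, DcE_fin hK.cthickening 1⟩
  rw [isClosed_cthickening.closure_eq] at h1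
  have h2 : Tendsto (fun n : ℕ => 1 / ((n : ℝ) + 1)) atTop (𝓝 0) :=
    tendsto_one_div_add_atTop_nhds_zero_nat
  have h3 := (ENNReal.tendsto_toReal (DcE_fin hK t)).comp (h1.comp h2)
  refine h3.congr fun n => ?_
  have hn : (0 : ℝ) ≤ 1 / ((n : ℝ) + 1) := by positivity
  simp only [Function.comp]
  unfold vol
  rw [cthickening_cthickening hn ht, add_comm]

theorem DcE_seq0 {K : Set E3} (hK : IsCompact K) (hc : Convex ℝ K) (h0 : (0 : E3) ∈ K) :
    ∃ x y : ℝ, (∀ t : ℝ, 0 ≤ t → vol (cthickening t K) = 4 * Real.pi / 3 *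
        (y + 3 * t * x + 3 * t ^ 2 * av (supp K) + t ^ 3)) ∧
      ∃ p : ℕ → P, (∀ (n : ℕ) (u : E3), ‖u‖ = 1 → |ev (p n) u - supp K u| ≤ 1 / ((n : ℝ) + 1)) ∧
        Tendsto (fun n => EE (detA (p n))) atTop (𝓝 x) := by
  have hne : K.Nonempty := ⟨0, h0⟩
  have hpi : (0 : ℝ) < 4 * Real.pi / 3 := by positivity
  have happ : ∀ n : ℕ, ∃ p : P, ConvSS p ∧
      ∀ x : E3, ‖x‖ = 1 → 0 < ev p x ∧ supp K x ≤ ev p x ∧ ev p x ≤ supp K x + 1 / ((n : ℝ) + 1) :=
    fun n => approx hK hc h0 _ (by positivity)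
  choose p hp hb using happ
  have hη : ∀ n : ℕ, (0 : ℝ) ≤ 1 / ((n : ℝ) + 1) := fun n => by positivity
  have hbet : ∀ n, K ⊆ body (p n) ∧ body (p n) ⊆ cthickening (1 / ((n : ℝ) + 1)) K := fun n =>
    body_between hK hc hne (p n) _ (hη n) fun x hx => ⟨(hb n x hx).2.1, (hb n x hx).2.2⟩
  -- the three sequences
  set Y : ℕ → ℝ := fun n => EE (p n * detA (p n)) with hY
  set Xs : ℕ → ℝ := fun n => EE (detA (p n)) with hXs
  set M : ℕ → ℝ := fun n => EE (p n) with hM
  have hQ : ∀ t : ℝ, 0 ≤ t → Tendsto (fun n => 4 * Real.pi / 3 *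
      (Y n + 3 * t * Xs n + 3 * t ^ 2 * M n + t ^ 3)) atTop (𝓝 (vol (cthickening t K))) := by
    intro t ht
    have h1 : ∀ n, vol (cthickening t (body (p n))) = 4 * Real.pi / 3 *
        (Y n + 3 * t * Xs n + 3 * t ^ 2 * M n + t ^ 3) := fun n =>
      steiner_body (hp n) (fun x hx => (hb n x hx).1) t ht
    have h2 : ∀ n, vol (cthickening t K) ≤ vol (cthickening t (body (p n))) := fun n =>
      DcE_vol_mono (cthickening_subset_of_subset t (hbet n).1) (DcE_fin (body_compact _) t)
    have h3 : ∀ n : ℕ, vol (cthickening t (body (p n))) ≤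
        vol (cthickening (t + 1 / ((n : ℝ) + 1)) K) := fun n => by
      apply DcE_vol_mono _ (DcE_fin hK _)
      refine (cthickening_subset_of_subset t (hbet n).2).trans ?_
      exact cthickening_cthickening_subset ht (hη n) K
    have h4 := DcE_tendsto hK t ht
    have h5 : Tendsto (fun n => vol (cthickening t (body (p n)))) atTop
        (𝓝 (vol (cthickening t K))) :=
      tendsto_of_tendsto_of_tendsto_of_le_of_le tendsto_const_nhds h4 h2 h3
    exact h5.congr h1
  have hsc : Continuous (supp K) := (supp_props hK hne).2.2.2.2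
  have hMt : Tendsto M atTop (𝓝 (av (supp K))) := by
    have h1 : ∀ n, av (supp K) ≤ M n := fun n =>
      av_mono hsc.continuousOn (continuous_ev _).continuousOn fun x hx => (hb n x hx).2.1
    have h2 : ∀ n : ℕ, M n ≤ av (supp K) + 1 / ((n : ℝ) + 1) := fun n => by
      have h3 : M n ≤ av (fun x => supp K x + 1 / ((n : ℝ) + 1)) :=
        av_mono (continuous_ev _).continuousOn (hsc.add continuous_const).continuousOn
          fun x hx => (hb n x hx).2.2
      rw [av_add hsc.continuousOn continuousOn_const, av_const] at h3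
      exact h3
    have h4 : Tendsto (fun n : ℕ => av (supp K) + 1 / ((n : ℝ) + 1)) atTop
        (𝓝 (av (supp K) + 0)) :=
      tendsto_const_nhds.add tendsto_one_div_add_atTop_nhds_zero_nat
    rw [add_zero] at h4
    exact tendsto_of_tendsto_of_tendsto_of_le_of_le tendsto_const_nhds h4 h1 h2
  -- limits
  set y : ℝ := (4 * Real.pi / 3)⁻¹ * vol (cthickening 0 K) with hy
  set x : ℝ := ((4 * Real.pi / 3)⁻¹ * vol (cthickening 1 K) - y - 3 * av (supp K) - 1) / 3 with hx
  have hYt : Tendsto Y atTop (𝓝 y) := by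
    have h1 := (hQ 0 le_rfl).const_mul (4 * Real.pi / 3)⁻¹
    refine h1.congr fun n => ?_
    rw [← mul_assoc, inv_mul_cancel₀ hpi.ne', one_mul]
    ring
  have hXt : Tendsto Xs atTop (𝓝 x) := by
    have h1 := (hQ 1 zero_le_one).const_mul (4 * Real.pi / 3)⁻¹
    have h2 := (((h1.sub hYt).sub (hMt.const_mul 3)).sub_const 1).div_const 3
    refine h2.congr fun n => ?_
    rw [← mul_assoc, inv_mul_cancel₀ hpi.ne', one_mul]
    ring
  refine ⟨x, y, fun t ht => ?_, p, fun n u hu => ?_, hXt⟩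
  · have h1 := hQ t ht
    have h2 : Tendsto (fun n => 4 * Real.pi / 3 *
        (Y n + 3 * t * Xs n + 3 * t ^ 2 * M n + t ^ 3)) atTop
        (𝓝 (4 * Real.pi / 3 * (y + 3 * t * x + 3 * t ^ 2 * av (supp K) + t ^ 3))) :=
      (((hYt.add (hXt.const_mul (3 * t))).add (hMt.const_mul (3 * t ^ 2))).add_const
        (t ^ 3)).const_mul _
    exact tendsto_nhds_unique h1 h2
  · obtain ⟨-, h2, h3⟩ := hb n u hu
    rw [abs_le]
    have h4 := hη n
    constructor <;> linarith

theorem DcE_thick {K : Set E3} (hK : IsCompact K) (a : E3) {t : ℝ} (ht : 0 ≤ t) :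
    vol (cthickening t (K + ({a} : Set E3))) = vol (cthickening t K) := by
  have h1 : cthickening t (K + ({a} : Set E3)) = cthickening t K + ({a} : Set E3) := by
    rw [← (hK.add isCompact_singleton).add_closedBall_zero ht, add_right_comm,
      hK.add_closedBall_zero ht]
  unfold vol
  rw [h1, Set.add_singleton, Set.image_add_right, measure_preimage_add_right]

theorem DcE_supp {K : Set E3} (hK : IsCompact K) (hne : K.Nonempty) (a x : E3) :
    supp (K + ({a} : Set E3)) x = supp K x + inner ℝ a x := by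
  obtain ⟨s1, s2, -⟩ := supp_props hK hne
  obtain ⟨t1, t2, -⟩ := supp_props (hK.add (isCompact_singleton (x := a)))
    (hne.add (Set.singleton_nonempty a))
  apply le_antisymm
  · obtain ⟨z, hz, h⟩ := t2 x
    rw [h]
    obtain ⟨y, hy, b, hb, rfl⟩ := Set.mem_add.1 hz
    rw [Set.mem_singleton_iff.1 hb, inner_add_left]
    have := s1 y hy x
    linarith
  · obtain ⟨y, hy, h⟩ := s2 x
    rw [h, ← inner_add_left]
    exact t1 _ (Set.add_mem_add hy (Set.mem_singleton a)) x

theorem DcE_av_neg (f : E3 → ℝ) : av (fun x => f (-x)) = av f :=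
  av_comp_isometry (LinearIsometryEquiv.neg ℝ) f

theorem DcE_av_lin (a : E3) : av (fun x => inner ℝ a x) = 0 := by
  have h1 := DcE_av_neg (fun x => inner ℝ a x)
  have h2 : (fun x : E3 => inner ℝ a (-x)) = fun x => (-1 : ℝ) * inner ℝ a x := by
    funext x
    rw [inner_neg_right]
    ring
  rw [h2, av_const_mul] at h1
  linarith

/-- PROOF.  Copy `steiner_seq` (file `Seq.lean`), whose polynomials satisfy (from `approx`)
`supp K x <= ev (p n) x <= supp K x + 1/(n+1)` for unit `x`, and keep this information.  For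
general `K` take `a ∈ K`, `K' = K + {-a}` (contains `0`; see the proof of `steiner_seq'` with
`SeqB_supp`, `SeqB_thick`, `SeqB_av_lin`, which are private: copy them) and
`p n = p' n + ∑ k, C (a k) * X k`: `ev` adds `<a, x>`, `detA` does not change on the sphere
(`detA_add_lin`), `ConvS` is kept (`ConvS.sub_lin` with `s = -a`). -/
theorem seq_unif {K : Set E3} (hK : IsCompact K) (hc : Convex ℝ K) (hne : K.Nonempty) :
    ∃ x y : ℝ, (∀ t : ℝ, 0 ≤ t → vol (cthickening t K) = 4 * Real.pi / 3 *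
        (y + 3 * t * x + 3 * t ^ 2 * av (supp K) + t ^ 3)) ∧
      ∃ p : ℕ → P, (∀ (n : ℕ) (u : E3), ‖u‖ = 1 → |ev (p n) u - supp K u| ≤ 1 / ((n : ℝ) + 1)) ∧
        Tendsto (fun n => EE (detA (p n))) atTop (𝓝 x) := by
  obtain ⟨a, ha⟩ := hne
  have hne : K.Nonempty := ⟨a, ha⟩
  have hav : av (supp (K + ({-a} : Set E3))) = av (supp K) := by
    have h1 : supp (K + ({-a} : Set E3)) = fun x => supp K x + inner ℝ (-a) x := by
      funext x
      exact DcE_supp hK hne (-a) x
    rw [h1, av_add, DcE_av_lin, add_zero]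
    · exact (supp_props hK hne).2.2.2.2.continuousOn
    · exact (continuous_const.inner continuous_id).continuousOn
  have h0 : (0 : E3) ∈ K + ({-a} : Set E3) := by
    refine Set.mem_add.2 ⟨a, ha, -a, Set.mem_singleton _, ?_⟩
    exact add_neg_cancel a
  obtain ⟨x, y, h1, p, h2, h3⟩ := DcE_seq0 (hK.add isCompact_singleton)
    (hc.add (convex_singleton _)) h0
  rw [hav] at h1
  refine ⟨x, y, fun t ht => ?_, fun n => p n + ∑ k, C (a k) * X k, fun n u hu => ?_, ?_⟩
  · rw [← DcE_thick hK (-a) ht]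
    exact h1 t ht
  · have h4 := h2 n u hu
    rw [DcE_supp hK hne (-a) u, inner_neg_left] at h4
    have h5 : ev (p n + ∑ k, C (a k) * X k) u = ev (p n) u + inner ℝ a u := by
      rw [ev_add, ev_sum, inner_eq3, Fin.sum_univ_three]
      simp only [ev_mul, ev_C, ev_X]
    rw [h5]
    have h6 : ev (p n) u + inner ℝ a u - supp K u = ev (p n) u - (supp K u + -inner ℝ a u) := by ring
    rw [h6]
    exact h4
  · refine h3.congr fun n => ?_
    exact (EE_congr (detA_add_lin (p n) (fun k => a k))).symm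

end

end Pool.Agent.Lib.MP_dabcc9_gt
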