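import Pool.Agent.Lib.MP_dabcc9_gt.DcDefs

/-! JOB D6.  Continuity of `FA` under uniform convergence. -/

open MeasureTheory Metric Set Filter Topology

namespace Pool.Agent.Lib.MP_dabcc9_gt

noncomputable section

/-- Uniform convergence with rate, with continuity and boundedness. -/
def DcF_CV {α : Type} [TopologicalSpace α] (u : ℕ → α → ℝ) (v : α → ℝ) : Prop :=
  (∀ n, Continuous (u n)) ∧ Continuous v ∧ ∃ C : ℝ, 0 ≤ C ∧
    (∀ (n : ℕ) (p : α), |u n p - v p| ≤ C / ((n : ℝ) + 1)) ∧ ∀ p : α, |v p| ≤ C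

theorem DcF_const {α : Type} [TopologicalSpace α] {v : α → ℝ} (hv : Continuous v) {C : ℝ}
    (hC : 0 ≤ C) (h : ∀ p, |v p| ≤ C) : DcF_CV (fun _ => v) v := by
  refine ⟨fun _ => hv, hv, C, hC, fun n p => ?_, h⟩
  rw [sub_self, abs_zero]
  positivity

theorem DcF_add {α : Type} [TopologicalSpace α] {u u' : ℕ → α → ℝ} {v v' : α → ℝ}
    (h : DcF_CV u v) (h' : DcF_CV u' v') :
    DcF_CV (fun n p => u n p + u' n p) (fun p => v p + v' p) := by
  obtain ⟨h1, h2, C, hC, h3, h4⟩ := h
  obtain ⟨h1', h2', C', hC', h3', h4'⟩ := h'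
  refine ⟨fun n => (h1 n).add (h1' n), h2.add h2', C + C', add_nonneg hC hC', fun n p => ?_,
    fun p => ?_⟩
  · have e : u n p + u' n p - (v p + v' p) = (u n p - v p) + (u' n p - v' p) := by ring
    rw [e, add_div]
    exact (abs_add_le _ _).trans (add_le_add (h3 n p) (h3' n p))
  · exact (abs_add_le _ _).trans (add_le_add (h4 p) (h4' p))

theorem DcF_mul {α : Type} [TopologicalSpace α] {u u' : ℕ → α → ℝ} {v v' : α → ℝ}
    (h : DcF_CV u v) (h' : DcF_CV u' v') :
    DcF_CV (fun n p => u n p * u' n p) (fun p => v p * v' p) := by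
  obtain ⟨h1, h2, C, hC, h3, h4⟩ := h
  obtain ⟨h1', h2', C', hC', h3', h4'⟩ := h'
  refine ⟨fun n => (h1 n).mul (h1' n), h2.mul h2', 3 * (C * C'), by positivity, fun n p => ?_,
    fun p => ?_⟩
  · have e : u n p * u' n p - v p * v' p
        = (u n p - v p) * (u' n p - v' p) + (u n p - v p) * v' p + v p * (u' n p - v' p) := by
      ring
    have hn : (1 : ℝ) ≤ (n : ℝ) + 1 := by
      have : (0 : ℝ) ≤ n := Nat.cast_nonneg n
      linarith
    have hn0 : (0 : ℝ) < (n : ℝ) + 1 := by linarith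
    have a1 : |(u n p - v p) * (u' n p - v' p)| ≤ C / ((n : ℝ) + 1) * C' := by
      rw [abs_mul]
      refine mul_le_mul (h3 n p) ((h3' n p).trans (div_le_self hC' hn)) (abs_nonneg _)
        (by positivity)
    have a2 : |(u n p - v p) * v' p| ≤ C / ((n : ℝ) + 1) * C' := by
      rw [abs_mul]
      exact mul_le_mul (h3 n p) (h4' p) (abs_nonneg _) (by positivity)
    have a3 : |v p * (u' n p - v' p)| ≤ C * (C' / ((n : ℝ) + 1)) := by
      rw [abs_mul]
      exact mul_le_mul (h4 p) (h3' n p) (abs_nonneg _) hC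
    rw [e]
    refine (abs_add_three _ _ _).trans ?_
    refine (add_le_add (add_le_add a1 a2) a3).trans (le_of_eq ?_)
    field_simp
    ring
  · rw [abs_mul]
    have a1 := mul_le_mul (h4 p) (h4' p) (abs_nonneg _) hC
    have a2 : 0 ≤ C * C' := mul_nonneg hC hC'
    linarith

theorem DcF_comp {α β : Type} [TopologicalSpace α] [TopologicalSpace β] {u : ℕ → α → ℝ}
    {v : α → ℝ} (h : DcF_CV u v) {g : β → α} (hg : Continuous g) :
    DcF_CV (fun n p => u n (g p)) (fun p => v (g p)) := by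
  obtain ⟨h1, h2, C, hC, h3, h4⟩ := h
  exact ⟨fun n => (h1 n).comp hg, h2.comp hg, C, hC, fun n p => h3 n (g p), fun p => h4 (g p)⟩

theorem DcF_smul {α : Type} [TopologicalSpace α] {u : ℕ → α → ℝ} {v : α → ℝ}
    (h : DcF_CV u v) (c : ℝ) : DcF_CV (fun n p => c * u n p) (fun p => c * v p) :=
  DcF_mul (DcF_const (α := α) (v := fun _ => c) continuous_const (abs_nonneg c)
    (fun _ => le_rfl)) h

theorem DcF_sub {α : Type} [TopologicalSpace α] {u u' : ℕ → α → ℝ} {v v' : α → ℝ}
    (h : DcF_CV u v) (h' : DcF_CV u' v') :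
    DcF_CV (fun n p => u n p - u' n p) (fun p => v p - v' p) := by
  have h2 := DcF_add h (DcF_smul h' (-1))
  have e1 : (fun (n : ℕ) (p : α) => u n p + -1 * u' n p) = fun n p => u n p - u' n p := by
    funext n p
    ring
  have e2 : (fun p : α => v p + -1 * v' p) = fun p => v p - v' p := by
    funext p
    ring
  rwa [e1, e2] at h2

theorem DcF_sq {α : Type} [TopologicalSpace α] {u : ℕ → α → ℝ} {v : α → ℝ}
    (h : DcF_CV u v) : DcF_CV (fun n p => u n p ^ 2) (fun p => v p ^ 2) := by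
  have h2 := DcF_mul h h
  simpa only [← pow_two] using h2

theorem DcF_int_le {u v : ℝ → ℝ} (hu : Continuous u) (hv : Continuous v) {a b D : ℝ}
    (h : ∀ x, |u x - v x| ≤ D) : |(∫ x in a..b, u x) - ∫ x in a..b, v x| ≤ D * |b - a| := by
  rw [← intervalIntegral.integral_sub (hu.intervalIntegrable _ _) (hv.intervalIntegrable _ _)]
  have := intervalIntegral.norm_integral_le_of_norm_le_const (a := a) (b := b) (C := D)
    (f := fun x => u x - v x) (fun x _ => by rw [Real.norm_eq_abs]; exact h x)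
  simpa only [Real.norm_eq_abs] using this

theorem DcF_int {u : ℕ → ℝ × ℝ → ℝ} {v : ℝ × ℝ → ℝ} (h : DcF_CV u v) (a b : ℝ) :
    DcF_CV (fun n θ => ∫ φ in a..b, u n (θ, φ)) (fun θ => ∫ φ in a..b, v (θ, φ)) := by
  obtain ⟨h1, h2, C, hC, h3, h4⟩ := h
  refine ⟨fun n => ?_, ?_, C * |b - a|, by positivity, fun n θ => ?_, fun θ => ?_⟩
  · exact intervalIntegral.continuous_parametric_intervalIntegral_of_continuous'
      (f := fun θ φ => u n (θ, φ)) (by simpa [Function.uncurry_def] using h1 n) a b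
  · exact intervalIntegral.continuous_parametric_intervalIntegral_of_continuous'
      (f := fun θ φ => v (θ, φ)) (by simpa [Function.uncurry_def] using h2) a b
  · have hu : Continuous fun φ => u n (θ, φ) := (h1 n).comp (by fun_prop)
    have hv : Continuous fun φ => v (θ, φ) := h2.comp (by fun_prop)
    have := DcF_int_le hu hv (a := a) (b := b) (D := C / ((n : ℝ) + 1)) (fun φ => h3 n (θ, φ))
    refine this.trans (le_of_eq ?_)
    ring
  · have := intervalIntegral.norm_integral_le_of_norm_le_const (a := a) (b := b) (C := C)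
      (f := fun φ => v (θ, φ)) (fun x _ => by rw [Real.norm_eq_abs]; exact h4 _)
    simpa only [Real.norm_eq_abs] using this

theorem DcF_tendsto {u : ℕ → ℝ → ℝ} {v : ℝ → ℝ} (h : DcF_CV u v) (a b : ℝ) :
    Tendsto (fun n => ∫ x in a..b, u n x) atTop (𝓝 (∫ x in a..b, v x)) := by
  obtain ⟨h1, h2, C, hC, h3, h4⟩ := h
  rw [tendsto_iff_norm_sub_tendsto_zero]
  have hlim : Tendsto (fun n : ℕ => C * |b - a| * (1 / ((n : ℝ) + 1))) atTop (𝓝 0) := by
    have := (tendsto_one_div_add_atTop_nhds_zero_nat (𝕜 := ℝ)).const_mul (C * |b - a|)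
    simpa using this
  refine squeeze_zero (fun n => norm_nonneg _) (fun n => ?_) hlim
  rw [Real.norm_eq_abs]
  refine (DcF_int_le (h1 n) h2 (a := a) (b := b) (D := C / ((n : ℝ) + 1)) (h3 n)).trans
    (le_of_eq ?_)
  ring

/-- PROOF.  All functions `H ∘ sp` are continuous on the plane and bounded on
`[0, pi] × [0, 2 pi]` by a common constant `M`; `|az0 g - az0 f| <= 1/(n+1)`,
`|azc g - azc f|, |azs g - azs f| <= 2/(n+1)`, `|azr g - azr f| <= 6/(n+1)`; the integrands converge
uniformly, so the integrals converge (estimate directly `|FA g - FA f| <= C/(n+1)`, or use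
`intervalIntegral` dominated convergence twice). -/
theorem FA_tendsto (f : E3 → ℝ) (g : ℕ → E3 → ℝ) (hf : Continuous f) (hg : ∀ n, Continuous (g n))
    (h : ∀ (n : ℕ) (u : E3), ‖u‖ = 1 → |g n u - f u| ≤ 1 / ((n : ℝ) + 1)) :
    Tendsto (fun n => FA (g n)) atTop (𝓝 (FA f)) := by
  have hspc : Continuous fun p : ℝ × ℝ => sp p.1 p.2 := SphB_sp_cont
  have hspn : ∀ p : ℝ × ℝ, ‖sp p.1 p.2‖ = 1 := fun p => SphB_sp_norm p.1 p.2
  -- the base convergence
  have base : DcF_CV (fun n (p : ℝ × ℝ) => g n (sp p.1 p.2)) (fun p => f (sp p.1 p.2)) := by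
    obtain ⟨M, hM⟩ := (isCompact_sphere (0 : E3) 1).exists_bound_of_continuousOn hf.continuousOn
    refine ⟨fun n => (hg n).comp hspc, hf.comp hspc, max M 1, by positivity, fun n p => ?_,
      fun p => ?_⟩
    · refine (h n _ (hspn p)).trans ?_
      have hn : (0 : ℝ) < (n : ℝ) + 1 := by positivity
      exact (div_le_div_iff_of_pos_right hn).2 (le_max_right _ _)
    · have := hM (sp p.1 p.2) (by rw [mem_sphere_zero_iff_norm]; exact hspn p)
      rw [Real.norm_eq_abs] at this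
      exact this.trans (le_max_left _ _)
  have hsin1 : DcF_CV (fun _ (θ : ℝ) => Real.sin θ) (fun θ => Real.sin θ) :=
    DcF_const Real.continuous_sin zero_le_one Real.abs_sin_le_one
  have hcosφ : DcF_CV (fun _ (p : ℝ × ℝ) => Real.cos p.2) (fun p => Real.cos p.2) :=
    DcF_const (Real.continuous_cos.comp continuous_snd) zero_le_one
      (fun p => Real.abs_cos_le_one _)
  have hsinφ : DcF_CV (fun _ (p : ℝ × ℝ) => Real.sin p.2) (fun p => Real.sin p.2) :=
    DcF_const (Real.continuous_sin.comp continuous_snd) zero_le_one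
      (fun p => Real.abs_sin_le_one _)
  have hsinθ : DcF_CV (fun _ (p : ℝ × ℝ) => Real.sin p.1) (fun p => Real.sin p.1) :=
    DcF_const (Real.continuous_sin.comp continuous_fst) zero_le_one
      (fun p => Real.abs_sin_le_one _)
  have h0 : DcF_CV (fun n θ => az0 (g n) θ) (fun θ => az0 f θ) :=
    DcF_smul (DcF_int base 0 (2 * Real.pi)) (2 * Real.pi)⁻¹
  have hc : DcF_CV (fun n θ => azc (g n) θ) (fun θ => azc f θ) :=
    DcF_smul (DcF_int (DcF_mul base hcosφ) 0 (2 * Real.pi)) Real.pi⁻¹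
  have hs : DcF_CV (fun n θ => azs (g n) θ) (fun θ => azs f θ) :=
    DcF_smul (DcF_int (DcF_mul base hsinφ) 0 (2 * Real.pi)) Real.pi⁻¹
  have hr : DcF_CV (fun n (p : ℝ × ℝ) => azr (g n) p.1 p.2) (fun p => azr f p.1 p.2) :=
    DcF_sub (DcF_sub (DcF_sub base (DcF_comp h0 continuous_fst))
      (DcF_mul (DcF_comp hc continuous_fst) hcosφ))
      (DcF_mul (DcF_comp hs continuous_fst) hsinφ)
  have t1 := DcF_tendsto (DcF_int (DcF_sub base hsinθ) 0 (2 * Real.pi)) 0 Real.pi
  have t2 := DcF_tendsto (DcF_mul (DcF_add (DcF_smul (DcF_sq (DcF_sub h0 hsin1)) (2 * Real.pi))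
    (DcF_smul (DcF_add (DcF_sq hc) (DcF_sq hs)) (Real.pi / 2))) hsin1) 0 Real.pi
  have t3 := DcF_tendsto (DcF_int (DcF_mul (DcF_sq hr) hsinθ) 0 (2 * Real.pi)) 0 Real.pi
  have t0 : Tendsto (fun _ : ℕ => 2 * Real.pi) atTop (𝓝 (2 * Real.pi)) := tendsto_const_nhds
  exact ((t0.add t1).add t2).sub t3

end

end Pool.Agent.Lib.MP_dabcc9_gt
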