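import Pool.Agent.Lib.MP_dabcc9_gt.DcD
import Pool.Agent.Lib.MP_dabcc9_gt.DcE
import Pool.Agent.Lib.MP_dabcc9_gt.DcF

/-! The upper bound for convex bodies. -/

open MeasureTheory Metric Set Filter Topology

namespace Pool.Agent.Lib.MP_dabcc9_gt

noncomputable section

theorem FA_body {K : Set E3} (hK : IsCompact K) (hc : Convex ℝ K) (hne : K.Nonempty) :
    ∃ x y : ℝ, (∀ t : ℝ, 0 ≤ t → vol (cthickening t K) = 4 * Real.pi / 3 *
        (y + 3 * t * x + 3 * t ^ 2 * av (supp K) + t ^ 3)) ∧ 4 * Real.pi * x ≤ FA (supp K) := by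
  obtain ⟨x, y, h1, p, hp, hx⟩ := seq_unif hK hc hne
  refine ⟨x, y, h1, ?_⟩
  have h2 := FA_tendsto (supp K) (fun n => ev (p n)) (supp_props hK hne).2.2.2.2
    (fun n => continuous_ev _) hp
  exact le_of_tendsto_of_tendsto' (hx.const_mul _) h2 fun n => FA_poly (p n)

end

end Pool.Agent.Lib.MP_dabcc9_gt
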