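import Pool.Agent.Lib.MP_dabcc9_gt.DcDefs

/-! JOB D7.  Thin bodies: bounds from the normalisation. -/

open MeasureTheory Metric Set

namespace Pool.Agent.Lib.MP_dabcc9_gt

noncomputable section

/-- `supp_props`: `y 2 = <y, eb 2> <= w/2` and `-y 2 <= w/2`. -/
theorem Nz.height {K : Set E3} {w : ℝ} (h : Nz K w) (y : E3) (hy : y ∈ K) : |y 2| ≤ w / 2 := by
  obtain ⟨h1, -, -, -, -⟩ := supp_props h.comp h.ne
  have a := h1 y hy (eb 2)
  have b := h1 y hy (-eb 2)
  rw [inner_neg_right] at b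
  rw [inner_eb2] at a b
  rw [h.top] at a
  rw [h.bot] at b
  rw [abs_le]
  constructor <;> linarith

theorem Nz.w_nonneg {K : Set E3} {w : ℝ} (h : Nz K w) : 0 ≤ w := by
  obtain ⟨y, hy⟩ := h.ne
  have h1 := h.height y hy
  have h2 := abs_nonneg (y 2)
  linarith

/-- PROOF.  `sp_eq`, sublinearity (`supp_props`): `supp K (sp θ φ) <= sin θ * r + |cos θ| w/2`
(`supp K (cos θ • eb 2) = |cos θ| w/2`, for negative cosine write `|cos θ| • (-eb 2)`).  Lower
bound: `y ∈ K` with `<y, eh φ> = r`, `supp K (sp θ φ) >= <y, sp θ φ> = sin θ r + cos θ y_2` and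
`Nz.height`. -/
theorem kk_abs {K : Set E3} {w : ℝ} (h : Nz K w) (θ φ : ℝ) (hθ : 0 ≤ Real.sin θ) :
    |kk K θ φ| ≤ w / 2 * |Real.cos θ| := by
  obtain ⟨h1, h2, h3, h4, -⟩ := supp_props h.comp h.ne
  unfold kk
  have hc : supp K (Real.cos θ • eb 2) = w / 2 * |Real.cos θ| := by
    rcases le_total 0 (Real.cos θ) with hc | hc
    · rw [h4 _ _ hc, h.top, abs_of_nonneg hc]
      ring
    · have e : Real.cos θ • eb 2 = (-Real.cos θ) • (-eb 2) := by rw [smul_neg, neg_smul, neg_neg]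
      rw [e, h4 _ _ (by linarith), h.bot, abs_of_nonpos hc]
      ring
  rw [abs_le]
  constructor
  · obtain ⟨y, hy, e⟩ := h2 (eh φ)
    have h5 := h1 y hy (sp θ φ)
    rw [sp_eq, inner_add_right, real_inner_smul_right, real_inner_smul_right, inner_eb2, ← e] at h5
    have h6 := h.height y hy
    rw [sp_eq]
    have h7 : |Real.cos θ * y 2| ≤ w / 2 * |Real.cos θ| := by
      rw [abs_mul, mul_comm]
      exact mul_le_mul_of_nonneg_right h6 (abs_nonneg _)
    have h8 := (abs_le.1 h7).1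
    linarith
  · rw [sp_eq]
    have h5 := h3 (Real.sin θ • eh φ) (Real.cos θ • eb 2)
    rw [hc, h4 _ _ hθ] at h5
    linarith

theorem DcH_bd {f : ℝ → ℝ} {a b C : ℝ} (h : ∀ x ∈ uIoc a b, |f x| ≤ C) :
    |∫ x in a..b, f x| ≤ C * |b - a| := by
  have h1 := intervalIntegral.norm_integral_le_of_norm_le_const (f := f) (a := a) (b := b) (C := C)
    (fun x hx => by rw [Real.norm_eq_abs]; exact h x hx)
  rwa [Real.norm_eq_abs] at h1

theorem DcH_add {f g : ℝ → ℝ} {a b : ℝ} (hf : Continuous f) (hg : Continuous g) :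
    ∫ x in a..b, f x + g x = (∫ x in a..b, f x) + ∫ x in a..b, g x :=
  intervalIntegral.integral_add (hf.intervalIntegrable _ _) (hg.intervalIntegrable _ _)

theorem DcH_cont_sp {K : Set E3} {w : ℝ} (h : Nz K w) :
    Continuous (fun q : ℝ × ℝ => supp K (sp q.1 q.2)) := by
  have hc := (supp_props h.comp h.ne).2.2.2.2
  have h1 := Continuous.comp hc SphB_sp_cont
  simpa only [Function.comp_def] using h1

theorem DcH_cont_eh {K : Set E3} {w : ℝ} (h : Nz K w) :
    Continuous (fun φ : ℝ => supp K (eh φ)) := by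
  have hc := (supp_props h.comp h.ne).2.2.2.2
  have h1 := Continuous.comp hc continuous_eh
  simpa only [Function.comp_def] using h1

theorem DcH_cont_kk {K : Set E3} {w : ℝ} (h : Nz K w) :
    Continuous (fun q : ℝ × ℝ => kk K q.1 q.2) := by
  unfold kk
  have h1 : Continuous (fun q : ℝ × ℝ => supp K (eh q.2)) := by
    have h2 := Continuous.comp (DcH_cont_eh h) (continuous_snd (X := ℝ) (Y := ℝ))
    simpa only [Function.comp_def] using h2
  have h3 : Continuous (fun q : ℝ × ℝ => Real.sin q.1) := Real.continuous_sin.comp continuous_fst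
  exact (DcH_cont_sp h).sub (h1.mul h3)

theorem DcH_cont_kk2 {K : Set E3} {w : ℝ} (h : Nz K w) (θ : ℝ) :
    Continuous (fun φ : ℝ => kk K θ φ) := by
  have h2 := Continuous.comp (DcH_cont_kk h) ((continuous_const (y := θ)).prodMk continuous_id)
  simpa only [Function.comp_def, id] using h2

theorem DcH_split {K : Set E3} (θ φ : ℝ) :
    supp K (sp θ φ) = kk K θ φ + supp K (eh φ) * Real.sin θ := by
  unfold kk
  ring

theorem DcH_inner {K : Set E3} {w : ℝ} (h : Nz K w) (θ : ℝ) :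
    ∫ φ in (0 : ℝ)..(2 * Real.pi), supp K (sp θ φ) =
      (∫ φ in (0 : ℝ)..(2 * Real.pi), kk K θ φ) +
        Real.sin θ * ∫ φ in (0 : ℝ)..(2 * Real.pi), supp K (eh φ) := by
  have e : (fun φ : ℝ => supp K (sp θ φ)) =
      fun φ : ℝ => kk K θ φ + Real.sin θ * supp K (eh φ) := by
    funext φ
    rw [DcH_split]
    ring
  have c1 : Continuous (fun φ : ℝ => Real.sin θ * supp K (eh φ)) :=
    continuous_const.mul (DcH_cont_eh h)
  rw [e, DcH_add (DcH_cont_kk2 h θ) c1, intervalIntegral.integral_const_mul]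

/-- PROOF.  `r0 = (2 pi)⁻¹ ∫ supp K (eh φ)`.  `Nz.mean` and `av_spherical` (with
`supp K (sp θ φ) = r(φ) sin θ + kk`) and `∫_0^pi sin^2 = pi/2` give
`pi/4 = (4 pi)⁻¹ (pi^2 r0 + ∫∫ kk sin θ)`, i.e. `r0 - 1 = -(1/pi^2) ∫∫ kk sin θ`. -/
theorem rim_mean {K : Set E3} {w : ℝ} (h : Nz K w) :
    (2 * Real.pi)⁻¹ * (∫ φ in (0 : ℝ)..(2 * Real.pi), supp K (eh φ)) - 1 =
      -(1 / Real.pi ^ 2) * ∫ θ in (0 : ℝ)..Real.pi, ∫ φ in (0 : ℝ)..(2 * Real.pi),
        kk K θ φ * Real.sin θ := by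
  have hc := (supp_props h.comp h.ne).2.2.2.2
  have h1 := av_spherical (hc.continuousOn (s := sphere (0 : E3) 1))
  rw [h.mean] at h1
  have hkc : Continuous fun θ : ℝ => ∫ φ in (0 : ℝ)..(2 * Real.pi), kk K θ φ * Real.sin θ := by
    apply intervalIntegral.continuous_parametric_intervalIntegral_of_continuous'
    exact (DcH_cont_kk h).mul (Real.continuous_sin.comp continuous_fst)
  have h2 : ∀ θ : ℝ, ∫ φ in (0 : ℝ)..(2 * Real.pi), supp K (sp θ φ) * Real.sin θ =
      (∫ φ in (0 : ℝ)..(2 * Real.pi), kk K θ φ * Real.sin θ) +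
        (∫ φ in (0 : ℝ)..(2 * Real.pi), supp K (eh φ)) * Real.sin θ ^ 2 := by
    intro θ
    rw [intervalIntegral.integral_mul_const, intervalIntegral.integral_mul_const, DcH_inner h]
    ring
  simp_rw [h2] at h1
  have c1 : Continuous (fun θ : ℝ =>
      (∫ φ in (0 : ℝ)..(2 * Real.pi), supp K (eh φ)) * Real.sin θ ^ 2) :=
    continuous_const.mul (Real.continuous_sin.pow 2)
  rw [DcH_add hkc c1, intervalIntegral.integral_const_mul, integral_sin_sq] at h1
  have hpi := Real.pi_pos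
  set J := ∫ θ in (0 : ℝ)..Real.pi, ∫ φ in (0 : ℝ)..(2 * Real.pi), kk K θ φ * Real.sin θ
  set R := ∫ φ in (0 : ℝ)..(2 * Real.pi), supp K (eh φ)
  simp only [Real.sin_zero, Real.sin_pi, zero_mul, sub_zero, zero_add] at h1
  field_simp at h1
  field_simp
  linarith

theorem DcH_kk_le {K : Set E3} {w : ℝ} (h : Nz K w) (θ φ : ℝ) (hθ : 0 ≤ Real.sin θ) :
    |kk K θ φ| ≤ w / 2 := by
  have h1 := kk_abs h θ φ hθ
  have h2 := Real.abs_cos_le_one θ
  have h3 := h.w_nonneg
  have h4 : w / 2 * |Real.cos θ| ≤ w / 2 * 1 := mul_le_mul_of_nonneg_left h2 (by linarith)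
  linarith

/-- PROOF.  `az0 - sin θ = (r0 - 1) sin θ + (2 pi)⁻¹ ∫ kk`, `|r0 - 1| <= 2 w/pi` (`rim_mean`,
`|kk| <= w/2`), `azc = pi⁻¹ ∫ kk cos φ` (`Nz.mc`), `azs` likewise. -/
theorem az_bounds {K : Set E3} {w : ℝ} (h : Nz K w) (θ : ℝ) (hθ : θ ∈ Icc 0 Real.pi) :
    |az0 (supp K) θ - Real.sin θ| ≤ 2 * w ∧ |azc (supp K) θ| ≤ w ∧ |azs (supp K) θ| ≤ w := by
  have hpi := Real.pi_pos
  have hw := h.w_nonneg
  have hs0 : 0 ≤ Real.sin θ := Real.sin_nonneg_of_mem_Icc hθ
  have hs1 : Real.sin θ ≤ 1 := Real.sin_le_one θ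
  refine ⟨?_, ?_, ?_⟩
  · have e1 : az0 (supp K) θ - Real.sin θ =
        ((2 * Real.pi)⁻¹ * (∫ φ in (0 : ℝ)..(2 * Real.pi), supp K (eh φ)) - 1) * Real.sin θ +
          (2 * Real.pi)⁻¹ * ∫ φ in (0 : ℝ)..(2 * Real.pi), kk K θ φ := by
      unfold az0
      rw [DcH_inner h]
      ring
    have b1 : |∫ φ in (0 : ℝ)..(2 * Real.pi), kk K θ φ| ≤ w / 2 * |2 * Real.pi - 0| := by
      apply DcH_bd
      intro φ _
      exact DcH_kk_le h θ φ hs0
    have b2 : |∫ θ in (0 : ℝ)..Real.pi, ∫ φ in (0 : ℝ)..(2 * Real.pi), kk K θ φ * Real.sin θ| ≤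
        (w / 2 * |2 * Real.pi - 0|) * |Real.pi - 0| := by
      apply DcH_bd
      intro t ht
      rw [uIoc_of_le hpi.le] at ht
      have ht0 : 0 ≤ Real.sin t := Real.sin_nonneg_of_mem_Icc ⟨ht.1.le, ht.2⟩
      apply DcH_bd
      intro φ _
      rw [abs_mul, abs_of_nonneg ht0]
      have c1 := DcH_kk_le h t φ ht0
      have c2 := Real.sin_le_one t
      calc |kk K t φ| * Real.sin t ≤ (w / 2) * 1 := by
            apply mul_le_mul c1 c2 ht0 (by linarith)
        _ = w / 2 := by ring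
    rw [sub_zero, abs_of_pos (by linarith : (0 : ℝ) < 2 * Real.pi)] at b1 b2
    rw [sub_zero, abs_of_pos hpi] at b2
    rw [rim_mean h] at e1
    rw [e1]
    have c1 : |-(1 / Real.pi ^ 2) * (∫ θ in (0 : ℝ)..Real.pi, ∫ φ in (0 : ℝ)..(2 * Real.pi),
        kk K θ φ * Real.sin θ) * Real.sin θ| ≤ w := by
      rw [abs_mul, abs_mul, abs_neg, abs_of_nonneg hs0, abs_of_pos (by positivity : (0 : ℝ) < 1 / Real.pi ^ 2)]
      calc 1 / Real.pi ^ 2 * |∫ θ in (0 : ℝ)..Real.pi, ∫ φ in (0 : ℝ)..(2 * Real.pi),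
            kk K θ φ * Real.sin θ| * Real.sin θ
          ≤ 1 / Real.pi ^ 2 * (w / 2 * (2 * Real.pi) * Real.pi) * 1 := by
            apply mul_le_mul _ hs1 hs0 (by positivity)
            exact mul_le_mul_of_nonneg_left b2 (by positivity)
        _ = w := by
            field_simp
    have c2 : |(2 * Real.pi)⁻¹ * ∫ φ in (0 : ℝ)..(2 * Real.pi), kk K θ φ| ≤ w / 2 := by
      rw [abs_mul, abs_of_pos (by positivity : (0 : ℝ) < (2 * Real.pi)⁻¹)]
      calc (2 * Real.pi)⁻¹ * |∫ φ in (0 : ℝ)..(2 * Real.pi), kk K θ φ|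
          ≤ (2 * Real.pi)⁻¹ * (w / 2 * (2 * Real.pi)) :=
            mul_le_mul_of_nonneg_left b1 (by positivity)
        _ = w / 2 := by
            field_simp
    have c3 := abs_add_le (-(1 / Real.pi ^ 2) * (∫ θ in (0 : ℝ)..Real.pi,
      ∫ φ in (0 : ℝ)..(2 * Real.pi), kk K θ φ * Real.sin θ) * Real.sin θ)
      ((2 * Real.pi)⁻¹ * ∫ φ in (0 : ℝ)..(2 * Real.pi), kk K θ φ)
    linarith
  · have e1 : azc (supp K) θ = Real.pi⁻¹ * ∫ φ in (0 : ℝ)..(2 * Real.pi), kk K θ φ * Real.cos φ := by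
      unfold azc
      have e : (fun φ : ℝ => supp K (sp θ φ) * Real.cos φ) =
          fun φ : ℝ => kk K θ φ * Real.cos φ + Real.sin θ * (supp K (eh φ) * Real.cos φ) := by
        funext φ
        rw [DcH_split]
        ring
      have c1 : Continuous (fun φ : ℝ => kk K θ φ * Real.cos φ) :=
        (DcH_cont_kk2 h θ).mul Real.continuous_cos
      have c2 : Continuous (fun φ : ℝ => Real.sin θ * (supp K (eh φ) * Real.cos φ)) :=
        continuous_const.mul ((DcH_cont_eh h).mul Real.continuous_cos)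
      rw [e, DcH_add c1 c2, intervalIntegral.integral_const_mul, h.mc]
      ring
    have b1 : |∫ φ in (0 : ℝ)..(2 * Real.pi), kk K θ φ * Real.cos φ| ≤ w / 2 * |2 * Real.pi - 0| := by
      apply DcH_bd
      intro φ _
      rw [abs_mul]
      calc |kk K θ φ| * |Real.cos φ| ≤ (w / 2) * 1 := by
            apply mul_le_mul (DcH_kk_le h θ φ hs0) (Real.abs_cos_le_one φ) (abs_nonneg _) (by linarith)
        _ = w / 2 := by ring
    rw [sub_zero, abs_of_pos (by linarith : (0 : ℝ) < 2 * Real.pi)] at b1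
    rw [e1, abs_mul, abs_of_pos (by positivity : (0 : ℝ) < Real.pi⁻¹)]
    calc Real.pi⁻¹ * |∫ φ in (0 : ℝ)..(2 * Real.pi), kk K θ φ * Real.cos φ|
        ≤ Real.pi⁻¹ * (w / 2 * (2 * Real.pi)) := mul_le_mul_of_nonneg_left b1 (by positivity)
      _ = w := by
          field_simp
  · have e1 : azs (supp K) θ = Real.pi⁻¹ * ∫ φ in (0 : ℝ)..(2 * Real.pi), kk K θ φ * Real.sin φ := by
      unfold azs
      have e : (fun φ : ℝ => supp K (sp θ φ) * Real.sin φ) =
          fun φ : ℝ => kk K θ φ * Real.sin φ + Real.sin θ * (supp K (eh φ) * Real.sin φ) := by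
        funext φ
        rw [DcH_split]
        ring
      have c1 : Continuous (fun φ : ℝ => kk K θ φ * Real.sin φ) :=
        (DcH_cont_kk2 h θ).mul Real.continuous_sin
      have c2 : Continuous (fun φ : ℝ => Real.sin θ * (supp K (eh φ) * Real.sin φ)) :=
        continuous_const.mul ((DcH_cont_eh h).mul Real.continuous_sin)
      rw [e, DcH_add c1 c2, intervalIntegral.integral_const_mul, h.ms]
      ring
    have b1 : |∫ φ in (0 : ℝ)..(2 * Real.pi), kk K θ φ * Real.sin φ| ≤ w / 2 * |2 * Real.pi - 0| := by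
      apply DcH_bd
      intro φ _
      rw [abs_mul]
      calc |kk K θ φ| * |Real.sin φ| ≤ (w / 2) * 1 := by
            apply mul_le_mul (DcH_kk_le h θ φ hs0) (Real.abs_sin_le_one φ) (abs_nonneg _) (by linarith)
        _ = w / 2 := by ring
    rw [sub_zero, abs_of_pos (by linarith : (0 : ℝ) < 2 * Real.pi)] at b1
    rw [e1, abs_mul, abs_of_pos (by positivity : (0 : ℝ) < Real.pi⁻¹)]
    calc Real.pi⁻¹ * |∫ φ in (0 : ℝ)..(2 * Real.pi), kk K θ φ * Real.sin φ|
        ≤ Real.pi⁻¹ * (w / 2 * (2 * Real.pi)) := mul_le_mul_of_nonneg_left b1 (by positivity)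
      _ = w := by
          field_simp

end

end Pool.Agent.Lib.MP_dabcc9_gt
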