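import Pool.Agent.Lib.MP_dabcc9_gt.DcH

/-! JOB D7b.  The functional `FA` of a thin body. -/

open MeasureTheory Metric Set

namespace Pool.Agent.Lib.MP_dabcc9_gt

noncomputable section

theorem DcH2_cont {K : Set E3} {w : ℝ} (h : Nz K w) :
    Continuous (fun q : ℝ × ℝ => supp K (sp q.1 q.2)) ∧ Continuous (fun φ => supp K (eh φ)) ∧
    Continuous (fun q : ℝ × ℝ => kk K q.1 q.2) := by
  have cH : Continuous (supp K) := (supp_props h.comp h.ne).2.2.2.2
  have h1 : Continuous (fun q : ℝ × ℝ => supp K (sp q.1 q.2)) := by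
    have := Continuous.comp cH SphB_sp_cont
    simpa only [Function.comp_def] using this
  have h2 : Continuous (fun φ => supp K (eh φ)) := by
    have := Continuous.comp cH continuous_eh
    simpa only [Function.comp_def] using this
  refine ⟨h1, h2, ?_⟩
  have h3 : Continuous (fun q : ℝ × ℝ => supp K (eh q.2)) := by
    have := Continuous.comp h2 (continuous_snd (X := ℝ) (Y := ℝ))
    simpa only [Function.comp_def] using this
  have h4 : Continuous (fun q : ℝ × ℝ => Real.sin q.1) := Real.continuous_sin.comp continuous_fst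
  have h5 : Continuous (fun q : ℝ × ℝ => supp K (sp q.1 q.2) - supp K (eh q.2) * Real.sin q.1) :=
    h1.sub (h3.mul h4)
  exact h5

/-- slices -/
theorem DcH2_slice {f : ℝ × ℝ → ℝ} (hf : Continuous f) (θ : ℝ) : Continuous fun φ => f (θ, φ) :=
  hf.comp (Continuous.prodMk_right θ)

theorem DcH2_par {f : ℝ × ℝ → ℝ} (hf : Continuous f) (a b : ℝ) :
    Continuous fun θ => ∫ φ in a..b, f (θ, φ) :=
  intervalIntegral.continuous_parametric_intervalIntegral_of_continuous'
    (f := fun θ φ => f (θ, φ)) (μ := volume) hf a b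

/-- first term -/
theorem DcH2_first {K : Set E3} {w : ℝ} (h : Nz K w) :
    (∫ θ in (0 : ℝ)..Real.pi, ∫ φ in (0 : ℝ)..(2 * Real.pi), (supp K (sp θ φ) - Real.sin θ)) =
      ∫ φ in (0 : ℝ)..(2 * Real.pi), ∫ θ in (0 : ℝ)..Real.pi, kk K θ φ * om θ := by
  obtain ⟨c1, c2, c3⟩ := DcH2_cont h
  have hpi := Real.pi_pos
  have cs : Continuous fun q : ℝ × ℝ => Real.sin q.1 := Real.continuous_sin.comp continuous_fst
  have co : Continuous om := by
    unfold om
    exact continuous_const.sub (continuous_const.mul Real.continuous_sin)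
  have cko : Continuous fun q : ℝ × ℝ => kk K q.1 q.2 * om q.1 := c3.mul (co.comp continuous_fst)
  have hswap : (∫ θ in (0 : ℝ)..Real.pi, ∫ φ in (0 : ℝ)..(2 * Real.pi), kk K θ φ * om θ) =
      ∫ φ in (0 : ℝ)..(2 * Real.pi), ∫ θ in (0 : ℝ)..Real.pi, kk K θ φ * om θ := by
    apply intervalIntegral_intervalIntegral_swap
    refine (ContinuousOn.integrableOn_compact (K := uIcc (0 : ℝ) Real.pi ×ˢ uIcc (0 : ℝ) (2 * Real.pi))
      (isCompact_uIcc.prod isCompact_uIcc) ?_).mono_set (prod_mono uIoc_subset_uIcc uIoc_subset_uIcc)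
    exact cko.continuousOn
  rw [← hswap]
  have hr := rim_mean h
  set R := ∫ φ in (0 : ℝ)..(2 * Real.pi), supp K (eh φ) with hR
  have e1 : ∀ θ : ℝ, (∫ φ in (0 : ℝ)..(2 * Real.pi), (supp K (sp θ φ) - Real.sin θ)) =
      (R - 2 * Real.pi) * Real.sin θ + ∫ φ in (0 : ℝ)..(2 * Real.pi), kk K θ φ := by
    intro θ
    have : ∀ φ : ℝ, supp K (sp θ φ) - Real.sin θ =
        supp K (eh φ) * Real.sin θ + kk K θ φ - Real.sin θ := by
      intro φ
      unfold kk
      ring
    simp_rw [this]
    have i1 : IntervalIntegrable (fun φ => supp K (eh φ) * Real.sin θ) volume 0 (2 * Real.pi) :=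
      (c2.mul continuous_const).intervalIntegrable _ _
    have i2 : IntervalIntegrable (fun φ => kk K θ φ) volume 0 (2 * Real.pi) :=
      (DcH2_slice c3 θ).intervalIntegrable _ _
    rw [intervalIntegral.integral_sub (i1.add i2) intervalIntegrable_const,
      intervalIntegral.integral_add i1 i2, intervalIntegral.integral_mul_const,
      intervalIntegral.integral_const, ← hR]
    simp only [smul_eq_mul]
    ring
  have e2 : ∀ θ : ℝ, (∫ φ in (0 : ℝ)..(2 * Real.pi), kk K θ φ * om θ) =
      (∫ φ in (0 : ℝ)..(2 * Real.pi), kk K θ φ) -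
        4 / Real.pi * ∫ φ in (0 : ℝ)..(2 * Real.pi), kk K θ φ * Real.sin θ := by
    intro θ
    rw [intervalIntegral.integral_mul_const, intervalIntegral.integral_mul_const]
    unfold om
    ring
  simp_rw [e1, e2]
  have j1 : IntervalIntegrable (fun θ => (R - 2 * Real.pi) * Real.sin θ) volume 0 Real.pi :=
    (continuous_const.mul Real.continuous_sin).intervalIntegrable _ _
  have j2 : IntervalIntegrable (fun θ => ∫ φ in (0 : ℝ)..(2 * Real.pi), kk K θ φ) volume 0 Real.pi :=
    (DcH2_par c3 0 (2 * Real.pi)).intervalIntegrable _ _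
  have j3 : IntervalIntegrable (fun θ => 4 / Real.pi *
      ∫ φ in (0 : ℝ)..(2 * Real.pi), kk K θ φ * Real.sin θ) volume 0 Real.pi :=
    (continuous_const.mul (DcH2_par (c3.mul cs) 0 (2 * Real.pi))).intervalIntegrable _ _
  rw [intervalIntegral.integral_add j1 j2, intervalIntegral.integral_sub j2 j3,
    intervalIntegral.integral_const_mul, intervalIntegral.integral_const_mul, integral_sin]
  have hr2 : R = 2 * Real.pi * (1 + -(1 / Real.pi ^ 2) *
      ∫ θ in (0 : ℝ)..Real.pi, ∫ φ in (0 : ℝ)..(2 * Real.pi), kk K θ φ * Real.sin θ) := by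
    rw [← hr]
    field_simp
    ring
  set S := ∫ θ in (0 : ℝ)..Real.pi, ∫ φ in (0 : ℝ)..(2 * Real.pi), kk K θ φ * Real.sin θ with hS
  rw [hr2, Real.cos_zero, Real.cos_pi]
  field_simp
  ring

/-- PROOF.  `∫_θ ∫_φ (H - sin θ) = 4 pi (r0 - 1) + ∫∫ kk = ∫∫ kk om` (`rim_mean`, exchange the
order of integration, everything continuous); the third term of `FA` is at most
`∫ (2 pi 4 w^2 + pi/2 * 2 w^2) sin θ = 18 pi w^2`. -/
theorem FA_thin {K : Set E3} {w : ℝ} (h : Nz K w) : FA (supp K) ≤ 2 * Real.pi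
    + (∫ φ in (0 : ℝ)..(2 * Real.pi), ∫ θ in (0 : ℝ)..Real.pi, kk K θ φ * om θ)
    + 18 * Real.pi * w ^ 2
    - ∫ θ in (0 : ℝ)..Real.pi, ∫ φ in (0 : ℝ)..(2 * Real.pi),
        azr (supp K) θ φ ^ 2 * Real.sin θ := by
  obtain ⟨c1, c2, c3⟩ := DcH2_cont h
  have hpi := Real.pi_pos
  have ccos : Continuous fun q : ℝ × ℝ => Real.cos q.2 := Real.continuous_cos.comp continuous_snd
  have csin : Continuous fun q : ℝ × ℝ => Real.sin q.2 := Real.continuous_sin.comp continuous_snd
  have a0 : Continuous fun θ => az0 (supp K) θ := by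
    unfold az0
    exact continuous_const.mul (DcH2_par c1 0 (2 * Real.pi))
  have ac : Continuous fun θ => azc (supp K) θ := by
    unfold azc
    exact continuous_const.mul (DcH2_par (c1.mul ccos) 0 (2 * Real.pi))
  have as : Continuous fun θ => azs (supp K) θ := by
    unfold azs
    exact continuous_const.mul (DcH2_par (c1.mul csin) 0 (2 * Real.pi))
  have hthird : (∫ θ in (0 : ℝ)..Real.pi, (2 * Real.pi * (az0 (supp K) θ - Real.sin θ) ^ 2
      + Real.pi / 2 * (azc (supp K) θ ^ 2 + azs (supp K) θ ^ 2)) * Real.sin θ) ≤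
      18 * Real.pi * w ^ 2 := by
    have hb : (∫ θ in (0 : ℝ)..Real.pi, 9 * Real.pi * w ^ 2 * Real.sin θ) = 18 * Real.pi * w ^ 2 := by
      rw [intervalIntegral.integral_const_mul, integral_sin, Real.cos_zero, Real.cos_pi]
      ring
    rw [← hb]
    apply intervalIntegral.integral_mono_on hpi.le
    · apply Continuous.intervalIntegrable
      exact ((continuous_const.mul ((a0.sub Real.continuous_sin).pow 2)).add
        (continuous_const.mul ((ac.pow 2).add (as.pow 2)))).mul Real.continuous_sin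
    · exact (continuous_const.mul Real.continuous_sin).intervalIntegrable _ _
    · intro θ hθ
      obtain ⟨b1, b2, b3⟩ := az_bounds h θ hθ
      have hs : 0 ≤ Real.sin θ := Real.sin_nonneg_of_mem_Icc hθ
      have q1 : (az0 (supp K) θ - Real.sin θ) ^ 2 ≤ (2 * w) ^ 2 := sq_le_sq' (by linarith [abs_le.1 b1 |>.1]) (abs_le.1 b1).2
      have q2 : azc (supp K) θ ^ 2 ≤ w ^ 2 := sq_le_sq' (by linarith [abs_le.1 b2 |>.1]) (abs_le.1 b2).2
      have q3 : azs (supp K) θ ^ 2 ≤ w ^ 2 := sq_le_sq' (by linarith [abs_le.1 b3 |>.1]) (abs_le.1 b3).2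
      apply mul_le_mul_of_nonneg_right _ hs
      have t1 := mul_le_mul_of_nonneg_left q1 (by positivity : 0 ≤ 2 * Real.pi)
      have t2 := mul_le_mul_of_nonneg_left (add_le_add q2 q3) (by positivity : 0 ≤ Real.pi / 2)
      nlinarith [t1, t2]
  unfold FA
  rw [DcH2_first h]
  linarith [hthird]

end

end Pool.Agent.Lib.MP_dabcc9_gt
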