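import Pool.Agent.Lib.MP_dabcc9_gt.DcH2
import Pool.Agent.Lib.MP_dabcc9_gt.DcC2

/-! JOB D8.  Mean square distance to the disc. -/

open MeasureTheory Metric Set

namespace Pool.Agent.Lib.MP_dabcc9_gt

noncomputable section

/-- Support function of the unit disc in the horizontal plane. -/
def cyl (x : E3) : ℝ := Real.sqrt (x 0 ^ 2 + x 1 ^ 2)

theorem DcI_cyl {θ φ : ℝ} (hθ : 0 ≤ Real.sin θ) : cyl (sp θ φ) = Real.sin θ := by
  unfold cyl
  have e : (sp θ φ) 0 ^ 2 + (sp θ φ) 1 ^ 2 = Real.sin θ ^ 2 := by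
    simp only [sp, PiLp.toLp_apply, Matrix.cons_val_zero, Matrix.cons_val_one]
    nlinarith [Real.sin_sq_add_cos_sq φ]
  rw [e, Real.sqrt_sq hθ]

theorem DcI_cyl_cont : Continuous cyl := by
  unfold cyl
  fun_prop

theorem DcI_parcont {f : ℝ × ℝ → ℝ} (hf : Continuous f) (b : ℝ) :
    Continuous fun θ : ℝ => ∫ φ in (0 : ℝ)..b, f (θ, φ) :=
  intervalIntegral.continuous_parametric_intervalIntegral_of_continuous' (f := fun θ φ => f (θ, φ))
    hf 0 b

section

variable {K : Set E3} {w : ℝ}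

theorem DcI_H2 (h : Nz K w) : Continuous fun q : ℝ × ℝ => supp K (sp q.1 q.2) := by
  have h1 : Continuous (supp K) := (supp_props h.comp h.ne).2.2.2.2
  have h2 := Continuous.comp h1 SphB_sp_cont
  simpa only [Function.comp_def] using h2

theorem DcI_az0 (h : Nz K w) : Continuous fun θ : ℝ => az0 (supp K) θ := by
  have h1 := DcI_parcont (DcI_H2 h) (2 * Real.pi)
  exact continuous_const.mul h1

theorem DcI_azc (h : Nz K w) : Continuous fun θ : ℝ => azc (supp K) θ := by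
  have h2 : Continuous fun q : ℝ × ℝ => supp K (sp q.1 q.2) * Real.cos q.2 :=
    (DcI_H2 h).mul (Real.continuous_cos.comp continuous_snd)
  have h1 := DcI_parcont h2 (2 * Real.pi)
  exact continuous_const.mul h1

theorem DcI_azs (h : Nz K w) : Continuous fun θ : ℝ => azs (supp K) θ := by
  have h2 : Continuous fun q : ℝ × ℝ => supp K (sp q.1 q.2) * Real.sin q.2 :=
    (DcI_H2 h).mul (Real.continuous_sin.comp continuous_snd)
  have h1 := DcI_parcont h2 (2 * Real.pi)
  exact continuous_const.mul h1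

theorem DcI_azr (h : Nz K w) : Continuous fun q : ℝ × ℝ => azr (supp K) q.1 q.2 := by
  unfold azr
  exact (((DcI_H2 h).sub ((DcI_az0 h).comp continuous_fst)).sub
    (((DcI_azc h).comp continuous_fst).mul (Real.continuous_cos.comp continuous_snd))).sub
    (((DcI_azs h).comp continuous_fst).mul (Real.continuous_sin.comp continuous_snd))

theorem DcI_parallel (h : Nz K w) (θ : ℝ) :
    ∫ φ in (0 : ℝ)..(2 * Real.pi), (supp K (sp θ φ) - Real.sin θ) ^ 2 =
      2 * Real.pi * (az0 (supp K) θ - Real.sin θ) ^ 2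
      + Real.pi * (azc (supp K) θ ^ 2 + azs (supp K) θ ^ 2)
      + ∫ φ in (0 : ℝ)..(2 * Real.pi), azr (supp K) θ φ ^ 2 := by
  have hπ := Real.pi_pos
  have hc : Continuous fun φ : ℝ => supp K (sp θ φ) := by
    have := Continuous.comp (DcI_H2 h) (f := fun φ : ℝ => ((θ, φ) : ℝ × ℝ)) (by fun_prop)
    simpa only [Function.comp_def] using this
  have hg : Continuous fun φ : ℝ => supp K (sp θ φ) - Real.sin θ := hc.sub continuous_const
  have key := az_parseval (fun φ : ℝ => supp K (sp θ φ) - Real.sin θ) hg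
    (az0 (supp K) θ - Real.sin θ) (azc (supp K) θ) (azs (supp K) θ) ?_ ?_ ?_
  · have e1 : (fun φ : ℝ => azr (supp K) θ φ ^ 2) = fun t : ℝ =>
        ((supp K (sp θ t) - Real.sin θ) - (az0 (supp K) θ - Real.sin θ)
          - azc (supp K) θ * Real.cos t - azs (supp K) θ * Real.sin t) ^ 2 := by
      funext t
      unfold azr
      ring
    rw [e1]
    exact key
  · have e1 : ∫ t in (0 : ℝ)..(2 * Real.pi), (supp K (sp θ t) - Real.sin θ)
        = (∫ t in (0 : ℝ)..(2 * Real.pi), supp K (sp θ t)) - 2 * Real.pi * Real.sin θ := by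
      rw [intervalIntegral.integral_sub (hc.intervalIntegrable _ _)
        (continuous_const.intervalIntegrable _ _)]
      simp
    show az0 (supp K) θ - Real.sin θ = (2 * Real.pi)⁻¹ *
      ∫ t in (0 : ℝ)..(2 * Real.pi), (supp K (sp θ t) - Real.sin θ)
    rw [e1]
    unfold az0
    field_simp
  · have e1 : ∫ t in (0 : ℝ)..(2 * Real.pi), (supp K (sp θ t) - Real.sin θ) * Real.cos t
        = ∫ t in (0 : ℝ)..(2 * Real.pi), supp K (sp θ t) * Real.cos t := by
      have e2 : (fun t : ℝ => (supp K (sp θ t) - Real.sin θ) * Real.cos t)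
          = fun t => supp K (sp θ t) * Real.cos t - Real.sin θ * Real.cos t := by
        funext t; ring
      have k1 : Continuous fun t : ℝ => supp K (sp θ t) * Real.cos t := hc.mul Real.continuous_cos
      have k2 : Continuous fun t : ℝ => Real.sin θ * Real.cos t :=
        continuous_const.mul Real.continuous_cos
      rw [e2, intervalIntegral.integral_sub (k1.intervalIntegrable _ _)
        (k2.intervalIntegrable _ _)]
      simp
    show azc (supp K) θ = Real.pi⁻¹ *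
      ∫ t in (0 : ℝ)..(2 * Real.pi), (supp K (sp θ t) - Real.sin θ) * Real.cos t
    rw [e1]
    rfl
  · have e1 : ∫ t in (0 : ℝ)..(2 * Real.pi), (supp K (sp θ t) - Real.sin θ) * Real.sin t
        = ∫ t in (0 : ℝ)..(2 * Real.pi), supp K (sp θ t) * Real.sin t := by
      have e2 : (fun t : ℝ => (supp K (sp θ t) - Real.sin θ) * Real.sin t)
          = fun t => supp K (sp θ t) * Real.sin t - Real.sin θ * Real.sin t := by
        funext t; ring
      have k1 : Continuous fun t : ℝ => supp K (sp θ t) * Real.sin t := hc.mul Real.continuous_sin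
      have k2 : Continuous fun t : ℝ => Real.sin θ * Real.sin t :=
        continuous_const.mul Real.continuous_sin
      rw [e2, intervalIntegral.integral_sub (k1.intervalIntegrable _ _)
        (k2.intervalIntegrable _ _)]
      simp
    show azs (supp K) θ = Real.pi⁻¹ *
      ∫ t in (0 : ℝ)..(2 * Real.pi), (supp K (sp θ t) - Real.sin θ) * Real.sin t
    rw [e1]
    rfl

theorem DcI_om {θ : ℝ} (hθ : θ ∈ Icc 0 Real.pi) : |om θ| ≤ 1 := by
  have h0 : 0 ≤ Real.sin θ := Real.sin_nonneg_of_mem_Icc hθ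
  have h1 := Real.sin_le_one θ
  have hπ := Real.pi_gt_three
  unfold om
  have h2 : 0 ≤ 4 / Real.pi * Real.sin θ := by positivity
  have h3 : 4 / Real.pi ≤ 2 := by
    rw [div_le_iff₀ (by linarith)]
    linarith
  have h4 : 4 / Real.pi * Real.sin θ ≤ 2 := by nlinarith
  rw [abs_le]
  constructor <;> linarith

theorem DcI_kkom (h : Nz K w) :
    (∫ φ in (0 : ℝ)..(2 * Real.pi), ∫ θ in (0 : ℝ)..Real.pi, kk K θ φ * om θ)
      ≤ Real.pi ^ 2 * w := by
  have hπ := Real.pi_pos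
  have hw := h.w_nonneg
  have h1 : ∀ φ : ℝ, ‖∫ θ in (0 : ℝ)..Real.pi, kk K θ φ * om θ‖ ≤ w / 2 * |Real.pi - 0| := by
    intro φ
    apply intervalIntegral.norm_integral_le_of_norm_le_const
    intro θ hθ
    rw [uIoc_of_le hπ.le] at hθ
    have hθ' : θ ∈ Icc 0 Real.pi := ⟨hθ.1.le, hθ.2⟩
    have h2 := kk_abs h θ φ (Real.sin_nonneg_of_mem_Icc hθ')
    have h3 := DcI_om hθ'
    have h4 := Real.abs_cos_le_one θ
    rw [Real.norm_eq_abs, abs_mul]
    calc |kk K θ φ| * |om θ| ≤ (w / 2 * |Real.cos θ|) * 1 :=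
          mul_le_mul h2 h3 (abs_nonneg _) (by positivity)
      _ ≤ w / 2 := by nlinarith
  have h2 : ‖∫ φ in (0 : ℝ)..(2 * Real.pi), ∫ θ in (0 : ℝ)..Real.pi, kk K θ φ * om θ‖
      ≤ (w / 2 * |Real.pi - 0|) * |2 * Real.pi - 0| :=
    intervalIntegral.norm_integral_le_of_norm_le_const fun φ _ => h1 φ
  rw [Real.norm_eq_abs, sub_zero, sub_zero, abs_of_pos hπ, abs_of_pos (by linarith : 0 < 2 * Real.pi)] at h2
  have h3 := le_abs_self (∫ φ in (0 : ℝ)..(2 * Real.pi), ∫ θ in (0 : ℝ)..Real.pi, kk K θ φ * om θ)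
  nlinarith

end

/-- PROOF.  `av_spherical`, `cyl (sp θ φ) = sin θ` for `θ ∈ [0, pi]`; for every `θ`,
`az_parseval` with `g φ = supp K (sp θ φ) - sin θ` (coefficients `az0 - sin θ`, `azc`, `azs`,
remainder `azr`): `4 pi av(..) = ∫ (2 pi (az0 - sin θ)^2 + pi (azc^2 + azs^2)) sin θ
+ ∫∫ azr^2 sin θ <= 2 (8 pi w^2 + 2 pi w^2) + ∫∫ azr^2 sin θ` (`az_bounds`).  By `FA_thin` and `hF`
`∫∫ azr^2 sin θ <= ∫∫ kk om + 18 pi w^2 <= pi^2 w + 18 pi w^2` (`|kk| <= w/2`, `|om| <= 1` on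
`[0, pi]`).  Finally `w <= 1` and `(38 pi w^2 + pi^2 w)/(4 pi) <= 11 w`. -/
theorem mean_sq {K : Set E3} {w : ℝ} (h : Nz K w) (hw : w ≤ 1) (hF : 2 * Real.pi ≤ FA (supp K)) :
    av (fun x => (supp K x - cyl x) ^ 2) ≤ 11 * w := by
  have hπ := Real.pi_pos
  have hw0 := h.w_nonneg
  have hK : Continuous (supp K) := (supp_props h.comp h.ne).2.2.2.2
  have hfc : Continuous fun x : E3 => (supp K x - cyl x) ^ 2 := (hK.sub DcI_cyl_cont).pow 2
  have h2 : Continuous fun q : ℝ × ℝ =>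
      (supp K (sp q.1 q.2) - cyl (sp q.1 q.2)) ^ 2 * Real.sin q.1 := by
    have h3 := Continuous.comp hfc SphB_sp_cont
    have h4 : Continuous fun q : ℝ × ℝ => (supp K (sp q.1 q.2) - cyl (sp q.1 q.2)) ^ 2 := by
      simpa only [Function.comp_def] using h3
    exact h4.mul (Real.continuous_sin.comp continuous_fst)
  have h3 : Continuous fun q : ℝ × ℝ => azr (supp K) q.1 q.2 ^ 2 * Real.sin q.1 :=
    ((DcI_azr h).pow 2).mul (Real.continuous_sin.comp continuous_fst)
  have hL := DcI_parcont h2 (2 * Real.pi)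
  have hR := DcI_parcont h3 (2 * Real.pi)
  rw [av_spherical (f := fun x => (supp K x - cyl x) ^ 2) hfc.continuousOn]
  have hmono : ∫ θ in (0 : ℝ)..Real.pi, ∫ φ in (0 : ℝ)..(2 * Real.pi),
        (supp K (sp θ φ) - cyl (sp θ φ)) ^ 2 * Real.sin θ
      ≤ ∫ θ in (0 : ℝ)..Real.pi, (10 * Real.pi * w ^ 2 * Real.sin θ
        + ∫ φ in (0 : ℝ)..(2 * Real.pi), azr (supp K) θ φ ^ 2 * Real.sin θ) := by
    apply intervalIntegral.integral_mono_on hπ.le (hL.intervalIntegrable _ _)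
      (((continuous_const.mul Real.continuous_sin).add hR).intervalIntegrable _ _)
    intro θ hθ
    have hs : 0 ≤ Real.sin θ := Real.sin_nonneg_of_mem_Icc hθ
    have e1 : (fun φ : ℝ => (supp K (sp θ φ) - cyl (sp θ φ)) ^ 2 * Real.sin θ)
        = fun φ => (supp K (sp θ φ) - Real.sin θ) ^ 2 * Real.sin θ := by
      funext φ
      rw [DcI_cyl hs]
    show ∫ φ in (0 : ℝ)..(2 * Real.pi), (supp K (sp θ φ) - cyl (sp θ φ)) ^ 2 * Real.sin θ
      ≤ 10 * Real.pi * w ^ 2 * Real.sin θ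
        + ∫ φ in (0 : ℝ)..(2 * Real.pi), azr (supp K) θ φ ^ 2 * Real.sin θ
    rw [e1, intervalIntegral.integral_mul_const, intervalIntegral.integral_mul_const,
      DcI_parallel h θ]
    obtain ⟨b0, b1, b2⟩ := az_bounds h θ hθ
    have c0 : (az0 (supp K) θ - Real.sin θ) ^ 2 ≤ (2 * w) ^ 2 := by
      rw [← sq_abs]
      exact pow_le_pow_left₀ (abs_nonneg _) b0 2
    have c1 : azc (supp K) θ ^ 2 ≤ w ^ 2 := by
      rw [← sq_abs]
      exact pow_le_pow_left₀ (abs_nonneg _) b1 2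
    have c2 : azs (supp K) θ ^ 2 ≤ w ^ 2 := by
      rw [← sq_abs]
      exact pow_le_pow_left₀ (abs_nonneg _) b2 2
    have c3 : 2 * Real.pi * (az0 (supp K) θ - Real.sin θ) ^ 2
        + Real.pi * (azc (supp K) θ ^ 2 + azs (supp K) θ ^ 2) ≤ 10 * Real.pi * w ^ 2 := by
      nlinarith
    nlinarith
  have hsplit : ∫ θ in (0 : ℝ)..Real.pi, (10 * Real.pi * w ^ 2 * Real.sin θ
        + ∫ φ in (0 : ℝ)..(2 * Real.pi), azr (supp K) θ φ ^ 2 * Real.sin θ)
      = 20 * Real.pi * w ^ 2 + ∫ θ in (0 : ℝ)..Real.pi, ∫ φ in (0 : ℝ)..(2 * Real.pi),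
        azr (supp K) θ φ ^ 2 * Real.sin θ := by
    have k1 : Continuous fun θ : ℝ => 10 * Real.pi * w ^ 2 * Real.sin θ :=
      continuous_const.mul Real.continuous_sin
    have k2 : Continuous fun θ : ℝ => ∫ φ in (0 : ℝ)..(2 * Real.pi),
        azr (supp K) θ φ ^ 2 * Real.sin θ := hR
    rw [intervalIntegral.integral_add (k1.intervalIntegrable _ _)
      (k2.intervalIntegrable _ _), intervalIntegral.integral_const_mul, integral_sin]
    simp
    ring
  have hthin := FA_thin h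
  have hkk := DcI_kkom h
  have hw2 : w ^ 2 ≤ w := by nlinarith
  have hpi4 := Real.pi_le_four
  have hfinal : ∫ θ in (0 : ℝ)..Real.pi, ∫ φ in (0 : ℝ)..(2 * Real.pi),
        (supp K (sp θ φ) - cyl (sp θ φ)) ^ 2 * Real.sin θ ≤ 44 * Real.pi * w := by
    have h5 : 38 * Real.pi * w ^ 2 ≤ 38 * Real.pi * w := by nlinarith
    have h6 : Real.pi ^ 2 * w ≤ 4 * Real.pi * w := by nlinarith [mul_nonneg hπ.le hw0]
    have h7 : 0 ≤ Real.pi * w := mul_nonneg hπ.le hw0
    linarith
  calc 1 / (4 * Real.pi) * ∫ θ in (0 : ℝ)..Real.pi, ∫ φ in (0 : ℝ)..(2 * Real.pi),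
        (supp K (sp θ φ) - cyl (sp θ φ)) ^ 2 * Real.sin θ
      ≤ 1 / (4 * Real.pi) * (44 * Real.pi * w) :=
        mul_le_mul_of_nonneg_left hfinal (by positivity)
    _ = 11 * w := by
      field_simp
      ring

end

end Pool.Agent.Lib.MP_dabcc9_gt
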