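import Pool.Agent.Lib.MP_dabcc9_gt.DcH
import Pool.Agent.Lib.MP_dabcc9_gt.SphC

/-! JOB D9a.  A normalised body lies in a ball. -/

open MeasureTheory Metric Set

namespace Pool.Agent.Lib.MP_dabcc9_gt

noncomputable section

theorem DcJ0_abs_int : ∫ z in (-1 : ℝ)..1, |z| = 1 := by
  have hc : Continuous (fun z : ℝ => |z|) := continuous_abs
  have h1 : ∫ z in (-1 : ℝ)..1, |z| = (∫ z in (-1 : ℝ)..0, |z|) + ∫ z in (0 : ℝ)..1, |z| :=
    (intervalIntegral.integral_add_adjacent_intervals (hc.intervalIntegrable _ _)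
      (hc.intervalIntegrable _ _)).symm
  have h2 : ∫ z in (-1 : ℝ)..0, |z| = ∫ z in (-1 : ℝ)..0, -z := by
    refine intervalIntegral.integral_congr fun z hz => ?_
    rw [uIcc_of_le (by norm_num)] at hz
    exact abs_of_nonpos hz.2
  have h3 : ∫ z in (0 : ℝ)..1, |z| = ∫ z in (0 : ℝ)..1, z := by
    refine intervalIntegral.integral_congr fun z hz => ?_
    rw [uIcc_of_le (by norm_num)] at hz
    exact abs_of_nonneg hz.1
  rw [h1, h2, h3, intervalIntegral.integral_neg, integral_id, integral_id]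
  norm_num

theorem DcJ0_diam {K : Set E3} {w : ℝ} (h : Nz K w) {a b : E3} (ha : a ∈ K) (hb : b ∈ K) :
    ‖a - b‖ ≤ Real.pi := by
  obtain ⟨hle, _, _, _, hcont⟩ := supp_props h.comp h.ne
  by_cases hab : a = b
  · rw [hab, sub_self, norm_zero]
    exact Real.pi_pos.le
  have hn : 0 < ‖a - b‖ := norm_pos_iff.2 (sub_ne_zero.2 hab)
  obtain ⟨u, hu⟩ : ∃ u : E3, u = (‖a - b‖)⁻¹ • (a - b) := ⟨_, rfl⟩
  have hu1 : ‖u‖ = 1 := by
    rw [hu, norm_smul, norm_inv, norm_norm, inv_mul_cancel₀ hn.ne']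
  have hu2 : ∀ x : E3, ‖a - b‖ * inner ℝ x u = inner ℝ a x - inner ℝ b x := by
    intro x
    rw [hu, real_inner_smul_right, ← mul_assoc, mul_inv_cancel₀ hn.ne', one_mul,
      inner_sub_right, real_inner_comm, real_inner_comm b x]
  have h1 : ∀ x : E3, ‖x‖ = 1 → ‖a - b‖ * |inner ℝ x u| ≤ supp K x + supp K (-x) := by
    intro x _
    have e : ‖a - b‖ * |inner ℝ x u| = |inner ℝ a x - inner ℝ b x| := by
      rw [← hu2 x, abs_mul, abs_of_pos hn]
    rw [e, abs_le]
    have h2 := hle a ha x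
    have h3 := hle b hb x
    have h4 := hle a ha (-x)
    have h5 := hle b hb (-x)
    rw [inner_neg_right] at h4 h5
    constructor <;> linarith
  have hcn : Continuous (fun x : E3 => supp K (-x)) := by
    have := Continuous.comp hcont (continuous_neg (G := E3))
    simpa only [Function.comp_def] using this
  have hci : Continuous (fun x : E3 => |inner ℝ x u|) :=
    continuous_abs.comp (continuous_id.inner continuous_const)
  have h2 : av (fun x => ‖a - b‖ * |inner ℝ x u|) ≤ av (fun x => supp K x + supp K (-x)) :=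
    av_mono (continuous_const.mul hci).continuousOn (hcont.add hcn).continuousOn h1
  have h3 : av (fun x => |inner ℝ x u|) = 1 / 2 := by
    have h4 := av_height (F := fun z => |z|) continuous_abs.continuousOn u hu1
    rw [DcJ0_abs_int, mul_one] at h4
    exact h4
  have h4 : av (fun x => supp K (-x)) = av (supp K) := by
    have h5 := av_comp_isometry (LinearIsometryEquiv.neg ℝ (E := E3)) (supp K)
    exact h5
  rw [av_const_mul, h3, av_add hcont.continuousOn hcn.continuousOn, h4, h.mean] at h2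
  linarith

theorem DcJ0_split (f g k : ℝ → ℝ) (hf : Continuous f) (hg : Continuous g) (hk : Continuous k) :
    ∫ φ in (0 : ℝ)..(2 * Real.pi), (f φ - (g φ + k φ)) =
      (∫ φ in (0 : ℝ)..(2 * Real.pi), f φ) - ((∫ φ in (0 : ℝ)..(2 * Real.pi), g φ)
        + ∫ φ in (0 : ℝ)..(2 * Real.pi), k φ) := by
  have hgk : Continuous (fun φ => g φ + k φ) := hg.add hk
  rw [intervalIntegral.integral_sub (hf.intervalIntegrable _ _) (hgk.intervalIntegrable _ _),
    intervalIntegral.integral_add (hg.intervalIntegrable _ _) (hk.intervalIntegrable _ _)]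

theorem DcJ0_bound (f : ℝ → ℝ) (C : ℝ) (hf : ∀ x, |f x| ≤ C) :
    |∫ φ in (0 : ℝ)..(2 * Real.pi), f φ| ≤ C * (2 * Real.pi) := by
  have h := intervalIntegral.norm_integral_le_of_norm_le_const (a := 0) (b := 2 * Real.pi)
    (f := f) (C := C) (fun x _ => by rw [Real.norm_eq_abs]; exact hf x)
  rw [Real.norm_eq_abs, sub_zero, abs_of_pos (by positivity : (0 : ℝ) < 2 * Real.pi)] at h
  exact h

/-- PROOF.  First `‖a - b‖ <= pi` for `a, b ∈ K`: `supp K x >= <a+b, x>/2 + |<a-b, x>|/2` for all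
`x`, `av <a+b, x> = 0`, `av |<u, x>| = ‖u‖/2` (`av_height` with `F z = |z|`), `av (supp K) = pi/4`.
Then for `a ∈ K`: `0 <= supp K (eh φ) - <a, eh φ> <= pi` and
`0 = ∫ supp K (eh φ) cos φ = pi a_0 + ∫ (..) cos φ`, so `|a_0| <= 2 pi`; same for `a_1`;
`|a_2| <= 1/2`; `‖a‖^2 <= 8 pi^2 + 1/4 <= 81` (`Real.pi_lt_d2`). -/
theorem ball9 {K : Set E3} {w : ℝ} (h : Nz K w) (hw : w ≤ 1) : K ⊆ closedBall 0 9 := by
  intro a ha
  obtain ⟨hle, hex, _, _, hcont⟩ := supp_props h.comp h.ne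
  have hpi := Real.pi_pos
  have hs : Continuous (fun φ => supp K (eh φ)) := by
    have := Continuous.comp hcont continuous_eh
    simpa only [Function.comp_def] using this
  have hi : ∀ φ, inner ℝ a (eh φ) = Real.cos φ * a 0 + Real.sin φ * a 1 := inner_eh a
  have hD : ∀ φ, |supp K (eh φ) - (Real.cos φ * a 0 + Real.sin φ * a 1)| ≤ Real.pi := by
    intro φ
    rw [← hi φ]
    obtain ⟨b, hb, hb1⟩ := hex (eh φ)
    have h1 := hle a ha (eh φ)
    rw [abs_of_nonneg (by linarith), hb1, ← inner_sub_left]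
    have h2 := real_inner_le_norm (b - a) (eh φ)
    rw [norm_eh, mul_one] at h2
    exact le_trans h2 (DcJ0_diam h hb ha)
  have hcc : ∫ φ in (0 : ℝ)..(2 * Real.pi), Real.cos φ ^ 2 = Real.pi := by
    rw [integral_cos_sq]
    simp
  have hss : ∫ φ in (0 : ℝ)..(2 * Real.pi), Real.sin φ ^ 2 = Real.pi := by
    rw [integral_sin_sq]
    simp
  have hsc : ∫ φ in (0 : ℝ)..(2 * Real.pi), Real.sin φ * Real.cos φ = 0 := by
    rw [integral_sin_mul_cos₁]
    simp
  have e0 : ∫ φ in (0 : ℝ)..(2 * Real.pi),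
      (supp K (eh φ) - (Real.cos φ * a 0 + Real.sin φ * a 1)) * Real.cos φ = -(Real.pi * a 0) := by
    have e1 : ∫ φ in (0 : ℝ)..(2 * Real.pi),
        (supp K (eh φ) - (Real.cos φ * a 0 + Real.sin φ * a 1)) * Real.cos φ
        = ∫ φ in (0 : ℝ)..(2 * Real.pi), (supp K (eh φ) * Real.cos φ
          - (a 0 * Real.cos φ ^ 2 + a 1 * (Real.sin φ * Real.cos φ))) := by
      refine intervalIntegral.integral_congr fun φ _ => ?_
      show (supp K (eh φ) - (Real.cos φ * a 0 + Real.sin φ * a 1)) * Real.cos φ = _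
      ring
    have hc2 : Continuous (fun φ : ℝ => a 0 * Real.cos φ ^ 2) := by fun_prop
    have hc3 : Continuous (fun φ : ℝ => a 1 * (Real.sin φ * Real.cos φ)) := by fun_prop
    rw [e1, DcJ0_split (fun φ => supp K (eh φ) * Real.cos φ) (fun φ => a 0 * Real.cos φ ^ 2)
      (fun φ => a 1 * (Real.sin φ * Real.cos φ)) (hs.mul Real.continuous_cos) hc2 hc3, h.mc,
      intervalIntegral.integral_const_mul, intervalIntegral.integral_const_mul, hcc, hsc]
    ring
  have e0' : ∫ φ in (0 : ℝ)..(2 * Real.pi),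
      (supp K (eh φ) - (Real.cos φ * a 0 + Real.sin φ * a 1)) * Real.sin φ = -(Real.pi * a 1) := by
    have e1 : ∫ φ in (0 : ℝ)..(2 * Real.pi),
        (supp K (eh φ) - (Real.cos φ * a 0 + Real.sin φ * a 1)) * Real.sin φ
        = ∫ φ in (0 : ℝ)..(2 * Real.pi), (supp K (eh φ) * Real.sin φ
          - (a 0 * (Real.sin φ * Real.cos φ) + a 1 * Real.sin φ ^ 2)) := by
      refine intervalIntegral.integral_congr fun φ _ => ?_
      show (supp K (eh φ) - (Real.cos φ * a 0 + Real.sin φ * a 1)) * Real.sin φ = _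
      ring
    have hc2 : Continuous (fun φ : ℝ => a 1 * Real.sin φ ^ 2) := by fun_prop
    have hc3 : Continuous (fun φ : ℝ => a 0 * (Real.sin φ * Real.cos φ)) := by fun_prop
    rw [e1, DcJ0_split (fun φ => supp K (eh φ) * Real.sin φ)
      (fun φ => a 0 * (Real.sin φ * Real.cos φ)) (fun φ => a 1 * Real.sin φ ^ 2)
      (hs.mul Real.continuous_sin) hc3 hc2, h.ms,
      intervalIntegral.integral_const_mul, intervalIntegral.integral_const_mul, hss, hsc]
    ring
  have b0 : |a 0| ≤ 2 * Real.pi := by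
    have h1 := DcJ0_bound (fun φ => (supp K (eh φ) - (Real.cos φ * a 0 + Real.sin φ * a 1))
      * Real.cos φ) Real.pi (fun φ => by
        rw [abs_mul]
        calc _ ≤ Real.pi * 1 := mul_le_mul (hD φ) (Real.abs_cos_le_one φ) (abs_nonneg _) hpi.le
          _ = Real.pi := mul_one _)
    rw [e0, abs_neg, abs_mul, abs_of_pos hpi] at h1
    exact le_of_mul_le_mul_left h1 hpi
  have b1 : |a 1| ≤ 2 * Real.pi := by
    have h1 := DcJ0_bound (fun φ => (supp K (eh φ) - (Real.cos φ * a 0 + Real.sin φ * a 1))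
      * Real.sin φ) Real.pi (fun φ => by
        rw [abs_mul]
        calc _ ≤ Real.pi * 1 := mul_le_mul (hD φ) (Real.abs_sin_le_one φ) (abs_nonneg _) hpi.le
          _ = Real.pi := mul_one _)
    rw [e0', abs_neg, abs_mul, abs_of_pos hpi] at h1
    exact le_of_mul_le_mul_left h1 hpi
  have b2 : |a 2| ≤ 1 / 2 := le_trans (h.height a ha) (by linarith)
  have s0 : a 0 ^ 2 ≤ (2 * Real.pi) ^ 2 := sq_le_sq' (abs_le.1 b0).1 (abs_le.1 b0).2
  have s1 : a 1 ^ 2 ≤ (2 * Real.pi) ^ 2 := sq_le_sq' (abs_le.1 b1).1 (abs_le.1 b1).2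
  have s2 : a 2 ^ 2 ≤ (1 / 2) ^ 2 := sq_le_sq' (abs_le.1 b2).1 (abs_le.1 b2).2
  have hp2 : Real.pi ^ 2 ≤ 3.15 ^ 2 := pow_le_pow_left₀ hpi.le Real.pi_lt_d2.le 2
  have hn : ‖a‖ ^ 2 ≤ 9 ^ 2 := by
    rw [norm_sq_eq3]
    nlinarith
  rw [mem_closedBall_zero_iff]
  exact (pow_le_pow_iff_left₀ (norm_nonneg _) (by norm_num) (by norm_num)).1 hn

end

end Pool.Agent.Lib.MP_dabcc9_gt
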