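import Pool.Agent.Lib.MP_dabcc9_gt.DcI
import Pool.Agent.Lib.MP_dabcc9_gt.DcJ0

/-! JOB D9b.  Closeness of the rim to the unit circle. -/

open MeasureTheory Metric Set

namespace Pool.Agent.Lib.MP_dabcc9_gt

noncomputable section

/-- Copy of `sup_quartic` (file `LocD.lean`) with a continuous function instead of a polynomial. -/
theorem sup_quartic' (f : E3 → ℝ) (hf : Continuous f) (B : ℝ) (hB : 0 < B)
    (hlip : ∀ x y : E3, ‖x‖ = 1 → ‖y‖ = 1 → |f x - f y| ≤ B * ‖x - y‖) (x0 : E3)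
    (hx0 : ‖x0‖ = 1) (hb : |f x0| ≤ B) : f x0 ^ 4 ≤ 64 * B ^ 2 * av (fun x => f x ^ 2) := by
  obtain ⟨τ, hτ⟩ : ∃ τ : ℝ, τ = |f x0| := ⟨_, rfl⟩
  rw [← hτ] at hb
  have hτ0 : 0 ≤ τ := by
    rw [hτ]
    exact abs_nonneg _
  obtain ⟨F, hF⟩ : ∃ F : ℝ → ℝ, F = fun z => (max 0 (τ - B * Real.sqrt (2 - 2 * z))) ^ 2 :=
    ⟨_, rfl⟩
  have hFc : Continuous F := by
    rw [hF]
    fun_prop
  have hF0 : ∀ z, 0 ≤ F z := by
    intro z
    rw [hF]
    exact sq_nonneg _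
  have h1 : av (fun x => F (inner ℝ x x0)) ≤ av (fun x => f x ^ 2) := by
    refine av_mono ?_ (hf.pow 2).continuousOn ?_
    · exact (hFc.comp (by fun_prop)).continuousOn
    · intro x hx
      have h2 : ‖x - x0‖ ^ 2 = 2 - 2 * inner ℝ x x0 := by
        rw [norm_sub_sq_real, hx, hx0]
        ring
      have h3 : Real.sqrt (2 - 2 * inner ℝ x x0) = ‖x - x0‖ := by
        rw [← h2, Real.sqrt_sq (norm_nonneg _)]
      have h4 := hlip x0 x hx0 hx
      rw [norm_sub_rev] at h4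
      have h5 : τ - B * ‖x - x0‖ ≤ |f x| := by
        have := abs_sub_abs_le_abs_sub (f x0) (f x)
        linarith
      rw [hF]
      show (max 0 (τ - B * Real.sqrt (2 - 2 * inner ℝ x x0))) ^ 2 ≤ f x ^ 2
      rw [h3]
      have h6 : max 0 (τ - B * ‖x - x0‖) ≤ |f x| := max_le (abs_nonneg _) h5
      calc (max 0 (τ - B * ‖x - x0‖)) ^ 2 ≤ |f x| ^ 2 :=
            pow_le_pow_left₀ (le_max_left _ _) h6 2
        _ = f x ^ 2 := sq_abs _
  rw [av_height hFc.continuousOn x0 hx0] at h1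
  obtain ⟨a, ha⟩ : ∃ a : ℝ, a = 1 - τ ^ 2 / (8 * B ^ 2) := ⟨_, rfl⟩
  have hd0 : 0 ≤ τ ^ 2 / (8 * B ^ 2) := by positivity
  have hd1 : τ ^ 2 / (8 * B ^ 2) ≤ 1 / 8 := by
    rw [div_le_div_iff₀ (by positivity) (by norm_num)]
    nlinarith
  have ha1 : a ≤ 1 := by linarith
  have ha2 : -1 ≤ a := by linarith
  have h2 : ∫ z in (-1 : ℝ)..1, F z = (∫ z in (-1 : ℝ)..a, F z) + ∫ z in a..1, F z :=
    (intervalIntegral.integral_add_adjacent_intervals (hFc.intervalIntegrable _ _)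
      (hFc.intervalIntegrable _ _)).symm
  have h3 : 0 ≤ ∫ z in (-1 : ℝ)..a, F z :=
    intervalIntegral.integral_nonneg ha2 fun z _ => hF0 z
  have h4 : ∫ z in a..1, (τ ^ 2 / 4) ≤ ∫ z in a..1, F z := by
    apply intervalIntegral.integral_mono_on ha1 (continuous_const.intervalIntegrable _ _)
      (hFc.intervalIntegrable _ _)
    intro z hz
    have h5 : Real.sqrt (2 - 2 * z) ≤ τ / (2 * B) := by
      rw [Real.sqrt_le_left (by positivity)]
      have h6 : (τ / (2 * B)) ^ 2 = 2 * (τ ^ 2 / (8 * B ^ 2)) := by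
        field_simp
        ring
      rw [h6]
      linarith [hz.1]
    have h7 : τ / 2 ≤ τ - B * Real.sqrt (2 - 2 * z) := by
      have h8 := mul_le_mul_of_nonneg_left h5 hB.le
      have h9 : B * (τ / (2 * B)) = τ / 2 := by
        field_simp
      linarith
    have h8 : τ / 2 ≤ max 0 (τ - B * Real.sqrt (2 - 2 * z)) := h7.trans (le_max_right _ _)
    calc τ ^ 2 / 4 = (τ / 2) ^ 2 := by ring
      _ ≤ F z := by
        rw [hF]
        exact pow_le_pow_left₀ (by positivity) h8 2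
  rw [intervalIntegral.integral_const, smul_eq_mul] at h4
  have h5 : (1 - a) * (τ ^ 2 / 4) = τ ^ 4 / (32 * B ^ 2) := by
    rw [ha]
    field_simp
    ring
  rw [h5] at h4
  have h6 : f x0 ^ 4 = τ ^ 4 := by
    rw [hτ, ← abs_pow, abs_of_nonneg (by positivity)]
  rw [h6]
  have h7 : τ ^ 4 / (32 * B ^ 2) * (32 * B ^ 2) = τ ^ 4 := by
    field_simp
  have h8 : τ ^ 4 / (32 * B ^ 2) ≤ 2 * av (fun x => f x ^ 2) := by linarith
  have h9 := mul_le_mul_of_nonneg_right h8 (by positivity : 0 ≤ 32 * B ^ 2)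
  linarith

/-- horizontal part -/
def DcJ_pr (x : E3) : E3 := x - x 2 • eb 2

theorem DcJ_pr_sq (x : E3) : ‖DcJ_pr x‖ ^ 2 = x 0 ^ 2 + x 1 ^ 2 := by
  rw [norm_sq_eq3]
  simp [DcJ_pr, eb]

theorem DcJ_cyl (x : E3) : cyl x = ‖DcJ_pr x‖ := by
  unfold cyl
  rw [← DcJ_pr_sq, Real.sqrt_sq (norm_nonneg _)]

theorem DcJ_pr_sub (x y : E3) : DcJ_pr x - DcJ_pr y = DcJ_pr (x - y) := by
  ext i
  fin_cases i <;> simp [DcJ_pr, eb]

theorem DcJ_pr_le (x : E3) : ‖DcJ_pr x‖ ≤ ‖x‖ := by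
  have h1 := DcJ_pr_sq x
  have h2 := norm_sq_eq3 x
  have h3 : ‖DcJ_pr x‖ ^ 2 ≤ ‖x‖ ^ 2 := by
    rw [h1, h2]
    have := sq_nonneg (x 2)
    linarith
  exact (pow_le_pow_iff_left₀ (norm_nonneg _) (norm_nonneg _) (by norm_num)).1 h3

theorem DcJ_cyl_lip (x y : E3) : |cyl x - cyl y| ≤ ‖x - y‖ := by
  rw [DcJ_cyl, DcJ_cyl]
  refine le_trans (abs_norm_sub_norm_le _ _) ?_
  rw [DcJ_pr_sub]
  exact DcJ_pr_le _

theorem DcJ_cyl_cont : Continuous cyl := by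
  unfold cyl
  fun_prop

theorem DcJ_cyl_eh (φ : ℝ) : cyl (eh φ) = 1 := by
  unfold cyl
  have h : (eh φ) 0 ^ 2 + (eh φ) 1 ^ 2 = 1 := by simp [eh]
  rw [h, Real.sqrt_one]

/-- PROOF.  `f x = supp K x - cyl x` is `10`-Lipschitz (`supp_lipschitz` with `R = 9`, `ball9`;
`cyl` is `1`-Lipschitz as the norm of the first two coordinates) and bounded by `10` on the sphere;
`cyl (eh φ) = 1`; `sup_quartic'` with `B = 10` and `mean_sq`: `64 * 100 * 11 w <= 80000 w`. -/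
theorem rim_close {K : Set E3} {w : ℝ} (h : Nz K w) (hw : w ≤ 1)
    (hF : 2 * Real.pi ≤ FA (supp K)) (φ : ℝ) : (supp K (eh φ) - 1) ^ 4 ≤ 80000 * w := by
  have hb := ball9 h hw
  have hw0 := h.w_nonneg
  obtain ⟨_, _, _, hhom, hcont⟩ := supp_props h.comp h.ne
  have h1 : ∀ x y : E3, ‖x‖ = 1 → ‖y‖ = 1 →
      |(supp K x - cyl x) - (supp K y - cyl y)| ≤ 10 * ‖x - y‖ := by
    intro x y _ _
    have e : (supp K x - cyl x) - (supp K y - cyl y)
        = (supp K x - supp K y) - (cyl x - cyl y) := by ring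
    rw [e]
    have h2 := supp_lipschitz h.comp h.ne hb x y
    have h3 := DcJ_cyl_lip x y
    have h4 := abs_sub (supp K x - supp K y) (cyl x - cyl y)
    linarith
  have h0 : supp K 0 = 0 := by
    have := hhom 0 0 le_rfl
    rw [zero_smul, zero_mul] at this
    exact this
  have h2 : |supp K (eh φ) - cyl (eh φ)| ≤ 10 := by
    have h3 := supp_lipschitz h.comp h.ne hb (eh φ) 0
    rw [h0, sub_zero, sub_zero, norm_eh, mul_one] at h3
    rw [DcJ_cyl_eh]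
    have h4 := abs_sub (supp K (eh φ)) 1
    rw [abs_one] at h4
    linarith
  have h3 := sup_quartic' (fun x => supp K x - cyl x) (hcont.sub DcJ_cyl_cont) 10 (by norm_num)
    h1 (eh φ) (norm_eh φ) h2
  have h4 := mean_sq h hw hF
  rw [DcJ_cyl_eh] at h3
  refine le_trans h3 ?_
  have h6 : 64 * (10 : ℝ) ^ 2 * av (fun x => (supp K x - cyl x) ^ 2)
      ≤ 64 * (10 : ℝ) ^ 2 * (11 * w) := mul_le_mul_of_nonneg_left h4 (by norm_num)
  refine le_trans h6 ?_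
  linarith

end

end Pool.Agent.Lib.MP_dabcc9_gt
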