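import Mathlib

/-! JOB D10.  The one dimensional chord inequality. -/

open MeasureTheory Metric Set

namespace Pool.Agent.Lib.MP_dabcc9_gt

noncomputable section

private theorem DcK_secant {m : ℝ → ℝ} (hm : ConvexOn ℝ (Ici 0) m) {x y z : ℝ} (hx : 0 ≤ x)
    (hxy : x < y) (hyz : y < z) : (z - x) * m y ≤ (z - y) * m x + (y - x) * m z := by
  have hzx : 0 < z - x := by linarith
  have h := hm.2 (show x ∈ Ici (0 : ℝ) from hx) (show z ∈ Ici (0 : ℝ) from by
    show 0 ≤ z
    linarith) (show 0 ≤ (z - y) / (z - x) from div_nonneg (by linarith) hzx.le)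
    (show 0 ≤ (y - x) / (z - x) from div_nonneg (by linarith) hzx.le)
    (by field_simp; ring)
  have e : ((z - y) / (z - x)) • x + ((y - x) / (z - x)) • z = y := by
    simp only [smul_eq_mul]
    field_simp
    ring
  rw [e] at h
  simp only [smul_eq_mul] at h
  have h2 := mul_le_mul_of_nonneg_left h hzx.le
  have e2 : (z - x) * ((z - y) / (z - x) * m x + (y - x) / (z - x) * m z) =
      (z - y) * m x + (y - x) * m z := by
    field_simp
  rw [e2] at h2
  exact h2

private theorem DcK_lin (A B : ℝ) :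
    ∫ θ in (0 : ℝ)..(Real.pi / 2), (A * Real.cos θ + B * Real.sin θ) *
      (1 - 4 / Real.pi * Real.sin θ) = A * (1 - 2 / Real.pi) := by
  have hd : ∀ θ : ℝ, HasDerivAt (fun θ : ℝ => A * (Real.sin θ - 4 / Real.pi / 2 * Real.sin θ ^ 2) +
      B * (-Real.cos θ - 4 / Real.pi * (θ / 2 - Real.sin θ * Real.cos θ / 2)))
      ((A * Real.cos θ + B * Real.sin θ) * (1 - 4 / Real.pi * Real.sin θ)) θ := by
    intro θ
    have h1 := Real.hasDerivAt_sin θ
    have h2 := Real.hasDerivAt_cos θ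
    have h3 := ((h1.sub ((h1.pow 2).const_mul (4 / Real.pi / 2))).const_mul A).add
      ((h2.neg.sub ((((hasDerivAt_id θ).div_const 2).sub ((h1.mul h2).div_const 2)).const_mul
        (4 / Real.pi))).const_mul B)
    refine h3.congr_deriv ?_
    have hc : Real.cos θ ^ 2 = 1 - Real.sin θ ^ 2 := Real.cos_sq' θ
    have hc' : Real.cos θ * Real.cos θ = 1 - Real.sin θ ^ 2 := by rw [← hc]; ring
    simp only [Nat.cast_ofNat]
    have e : A * (Real.cos θ - 4 / Real.pi / 2 * (2 * Real.sin θ ^ (2 - 1) * Real.cos θ)) +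
        B * (- -Real.sin θ - 4 / Real.pi * (1 / 2 - (Real.cos θ * Real.cos θ +
          Real.sin θ * -Real.sin θ) / 2)) =
        (A * Real.cos θ + B * Real.sin θ) * (1 - 4 / Real.pi * Real.sin θ) := by
      rw [hc']
      norm_num
      ring
    exact e
  rw [intervalIntegral.integral_eq_sub_of_hasDerivAt (fun θ _ => hd θ)
    (Continuous.intervalIntegrable (by fun_prop) _ _)]
  have hpi : Real.pi ≠ 0 := Real.pi_ne_zero
  simp only [Real.sin_pi_div_two, Real.cos_pi_div_two, Real.sin_zero, Real.cos_zero]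
  field_simp
  ring

/-- PROOF.  `ω = 1 - 4/pi sin θ`, `θs = arcsin (pi/4)`, `τs = tan θs = (pi/4)/sqrt (1 - pi^2/16)`,
`1.26 <= τs` (`pi >= 3.14`).  `ω >= 0` on `[0, θs]`, `ω <= 0` on `[θs, pi/2]`.  Let
`l τ = A + B τ` be the line through `(τ1, m τ1)` and `(τs, m τs)`.  Convexity: `m <= l` on
`[τ1, τs]`, `m >= l` on `[τs, ∞)`.  So `(m(τ) - l(τ)) cos θ ω(θ) <= 0` for `τ = tan θ >= τ1`.
`|B| <= w/(τs - τ1) <= w`, `|l| <= w` on `[0, τ1]`, so on `θ < arctan τ1` the integrand
`(m - l) cos θ ω` is at most `3/2 w cos θ`, with integral at most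
`3/2 w sin (arctan τ1) <= 3/2 w τ1`.
`∫ (A cos θ + B sin θ) ω = A (1 - 2/pi) + B * 0`, `A = m τ1 - B τ1 <= m τ1 + w τ1`, and
`(1 - 2/pi) w τ1 <= w τ1/2`.  (`k` is used instead of `m (tan θ) cos θ` for continuity; the point
`θ = pi/2` does not matter.) -/
theorem chord_int (k : ℝ → ℝ) (hk : Continuous k) (m : ℝ → ℝ) (hm : ConvexOn ℝ (Ici 0) m)
    (w τ1 : ℝ) (hb : ∀ τ, 0 ≤ τ → |m τ| ≤ w / 2)
    (hkm : ∀ θ ∈ Ico (0 : ℝ) (Real.pi / 2), k θ = Real.cos θ * m (Real.tan θ)) (hτ : 0 < τ1)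
    (hτ1 : τ1 ≤ 1 / 4) :
    ∫ θ in (0 : ℝ)..(Real.pi / 2), k θ * (1 - 4 / Real.pi * Real.sin θ) ≤
      (1 - 2 / Real.pi) * m τ1 + 2 * w * τ1 := by
  have hpi0 : 0 < Real.pi := Real.pi_pos
  have hpi3 : 3.14 < Real.pi := Real.pi_gt_d2
  have hpi4 : Real.pi < 3.15 := Real.pi_lt_d2
  have hw0 : 0 ≤ w := by
    have := hb 0 le_rfl
    have h2 := abs_nonneg (m 0)
    linarith
  -- the angle `θs`
  set θs : ℝ := Real.arcsin (Real.pi / 4) with hθs
  have hsin : Real.sin θs = Real.pi / 4 := Real.sin_arcsin (by linarith) (by linarith)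
  have hθs_le : θs < Real.pi / 2 := by
    refine lt_of_le_of_ne (Real.arcsin_le_pi_div_two _) ?_
    intro h
    rw [h, Real.sin_pi_div_two] at hsin
    linarith
  have hθs_pos : 0 < θs := Real.arcsin_pos.2 (by linarith)
  have hcos_pos : 0 < Real.cos θs := Real.cos_pos_of_mem_Ioo ⟨by linarith, hθs_le⟩
  have hcos_sq : Real.cos θs ^ 2 = 1 - (Real.pi / 4) ^ 2 := by
    rw [Real.cos_sq', hsin]
  set τs : ℝ := Real.tan θs with hτs
  have hτs_cos : τs * Real.cos θs = Real.pi / 4 := by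
    rw [hτs, Real.tan_mul_cos hcos_pos.ne', hsin]
  have hτs_ge : 5 / 4 ≤ τs := by
    by_contra hcon
    push Not at hcon
    have h1 : Real.pi / 4 < 5 / 4 * Real.cos θs := by
      rw [← hτs_cos]
      exact mul_lt_mul_of_pos_right hcon hcos_pos
    have h2 : (Real.pi / 4) ^ 2 < (5 / 4 * Real.cos θs) ^ 2 :=
      pow_lt_pow_left₀ h1 (by positivity) (by norm_num)
    rw [mul_pow, hcos_sq] at h2
    nlinarith
  -- the chord
  set B : ℝ := (m τs - m τ1) / (τs - τ1) with hB
  have hd1 : 1 ≤ τs - τ1 := by linarith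
  have hd0 : 0 < τs - τ1 := by linarith
  have hBmul : B * (τs - τ1) = m τs - m τ1 := by
    rw [hB]
    field_simp
  have hBabs : |B| ≤ w := by
    rw [hB, abs_div, abs_of_pos hd0, div_le_iff₀ hd0]
    have h1 := hb τs (by linarith)
    have h2 := hb τ1 hτ.le
    have h3 : |m τs - m τ1| ≤ |m τs| + |m τ1| := abs_sub _ _
    nlinarith
  set A : ℝ := m τ1 - B * τ1 with hA
  -- pointwise estimates
  have hom : ∀ θ ∈ Icc (0 : ℝ) (Real.pi / 2), |1 - 4 / Real.pi * Real.sin θ| ≤ 1 := by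
    intro θ hθ
    have h0 : 0 ≤ Real.sin θ := Real.sin_nonneg_of_nonneg_of_le_pi hθ.1 (by linarith [hθ.2])
    have h1 : Real.sin θ ≤ 1 := Real.sin_le_one θ
    have h2 : 4 / Real.pi ≤ 2 := by
      rw [div_le_iff₀ hpi0]
      linarith
    have h3 : 0 ≤ 4 / Real.pi := by positivity
    have h4 : 0 ≤ 4 / Real.pi * Real.sin θ := mul_nonneg h3 h0
    have h5 : 4 / Real.pi * Real.sin θ ≤ 2 := by nlinarith
    rw [abs_le]
    constructor
    · linarith
    · linarith
  have hg : ∀ θ ∈ Ico (0 : ℝ) (Real.pi / 2), k θ - (A * Real.cos θ + B * Real.sin θ) =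
      Real.cos θ * (m (Real.tan θ) - (A + B * Real.tan θ)) := by
    intro θ hθ
    have hc : 0 < Real.cos θ := Real.cos_pos_of_mem_Ioo ⟨by linarith [hθ.1], hθ.2⟩
    have ht : Real.tan θ * Real.cos θ = Real.sin θ := Real.tan_mul_cos hc.ne'
    rw [hkm θ hθ, ← ht]
    ring
  set a : ℝ := Real.arctan τ1 with ha
  have ha0 : 0 < a := Real.arctan_pos.2 hτ
  have ha2 : a < Real.pi / 2 := Real.arctan_lt_pi_div_two τ1
  have htana : Real.tan a = τ1 := Real.tan_arctan τ1
  have hsina : Real.sin a ≤ τ1 := by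
    have hc : 0 < Real.cos a := Real.cos_pos_of_mem_Ioo ⟨by linarith, ha2⟩
    have h1 : Real.tan a * Real.cos a = Real.sin a := Real.tan_mul_cos hc.ne'
    rw [← h1, htana]
    have := Real.cos_le_one a
    nlinarith
  -- first part
  have hfirst : ∀ θ ∈ Ioo (0 : ℝ) a, (k θ - (A * Real.cos θ + B * Real.sin θ)) *
      (1 - 4 / Real.pi * Real.sin θ) ≤ 3 / 2 * w * Real.cos θ := by
    intro θ hθ
    have hθ' : θ ∈ Ico (0 : ℝ) (Real.pi / 2) := ⟨hθ.1.le, by linarith [hθ.2]⟩
    have hc : 0 < Real.cos θ := Real.cos_pos_of_mem_Ioo ⟨by linarith [hθ.1], hθ'.2⟩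
    rw [hg θ hθ']
    have ht0 : 0 ≤ Real.tan θ := Real.tan_nonneg_of_nonneg_of_le_pi_div_two hθ'.1 hθ'.2.le
    have ht1 : Real.tan θ ≤ τ1 := by
      rw [← htana]
      exact (Real.tan_lt_tan_of_lt_of_lt_pi_div_two (by linarith [hθ.1]) ha2 hθ.2).le
    have h1 := hb (Real.tan θ) ht0
    have h2 := hb τ1 hτ.le
    have h3 : |m (Real.tan θ) - (A + B * Real.tan θ)| ≤ 3 / 2 * w := by
      have e : m (Real.tan θ) - (A + B * Real.tan θ) =
          m (Real.tan θ) + (- m τ1 + B * (τ1 - Real.tan θ)) := by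
        rw [hA]
        ring
      rw [e]
      have h4 : |B * (τ1 - Real.tan θ)| ≤ w * (1 / 4) := by
        rw [abs_mul, abs_of_nonneg (show 0 ≤ τ1 - Real.tan θ by linarith)]
        exact mul_le_mul hBabs (by linarith) (by linarith) hw0
      have h5 : |m (Real.tan θ) + (- m τ1 + B * (τ1 - Real.tan θ))| ≤
          |m (Real.tan θ)| + (|(- m τ1)| + |B * (τ1 - Real.tan θ)|) :=
        (abs_add_le _ _).trans (add_le_add le_rfl (abs_add_le _ _))
      rw [abs_neg] at h5
      linarith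
    have h6 := hom θ ⟨hθ'.1, hθ'.2.le⟩
    calc Real.cos θ * (m (Real.tan θ) - (A + B * Real.tan θ)) *
          (1 - 4 / Real.pi * Real.sin θ)
        ≤ |Real.cos θ * (m (Real.tan θ) - (A + B * Real.tan θ)) *
          (1 - 4 / Real.pi * Real.sin θ)| := le_abs_self _
      _ = Real.cos θ * |m (Real.tan θ) - (A + B * Real.tan θ)| *
          |1 - 4 / Real.pi * Real.sin θ| := by
          rw [abs_mul, abs_mul, abs_of_pos hc]
      _ ≤ Real.cos θ * (3 / 2 * w) * 1 := by
          refine mul_le_mul (mul_le_mul_of_nonneg_left h3 hc.le) h6 (abs_nonneg _) ?_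
          exact mul_nonneg hc.le (by positivity)
      _ = 3 / 2 * w * Real.cos θ := by ring
  -- second part
  have hsecond : ∀ θ ∈ Ioo a (Real.pi / 2), (k θ - (A * Real.cos θ + B * Real.sin θ)) *
      (1 - 4 / Real.pi * Real.sin θ) ≤ 0 := by
    intro θ hθ
    have hθ' : θ ∈ Ico (0 : ℝ) (Real.pi / 2) := ⟨by linarith [hθ.1], hθ.2⟩
    have hc : 0 < Real.cos θ := Real.cos_pos_of_mem_Ioo ⟨by linarith [hθ'.1], hθ'.2⟩
    rw [hg θ hθ']
    have ht1 : τ1 < Real.tan θ := by
      rw [← htana]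
      exact Real.tan_lt_tan_of_lt_of_lt_pi_div_two (by linarith) hθ.2 hθ.1
    have h4pi : 0 < 4 / Real.pi := by positivity
    have h4s : 4 / Real.pi * (Real.pi / 4) = 1 := by
      field_simp
    rcases lt_trichotomy θ θs with hlt | heq | hgt
    · -- `θ < θs`
      have hs : Real.sin θ ≤ Real.pi / 4 := by
        rw [← hsin]
        exact Real.sin_le_sin_of_le_of_le_pi_div_two (by linarith [hθ'.1]) hθs_le.le hlt.le
      have ho : 0 ≤ 1 - 4 / Real.pi * Real.sin θ := by
        have := mul_le_mul_of_nonneg_left hs h4pi.le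
        linarith
      have ht2 : Real.tan θ < τs :=
        Real.tan_lt_tan_of_lt_of_lt_pi_div_two (by linarith [hθ'.1]) hθs_le hlt
      have hsec := DcK_secant hm hτ.le ht1 ht2
      have hml : m (Real.tan θ) - (A + B * Real.tan θ) ≤ 0 := by
        have e : (τs - τ1) * (A + B * Real.tan θ) =
            (τs - Real.tan θ) * m τ1 + (Real.tan θ - τ1) * m τs := by
          rw [hA]
          linear_combination (Real.tan θ - τ1) * hBmul
        have h7 : (τs - τ1) * (m (Real.tan θ) - (A + B * Real.tan θ)) ≤ 0 := by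
          rw [mul_sub, e]
          linarith
        by_contra hcon
        push Not at hcon
        have := mul_pos hd0 hcon
        linarith
      exact mul_nonpos_of_nonpos_of_nonneg (mul_nonpos_of_nonneg_of_nonpos hc.le hml) ho
    · -- `θ = θs`
      have ho : 1 - 4 / Real.pi * Real.sin θ = 0 := by
        rw [heq, hsin]
        linarith
      rw [ho, mul_zero]
    · -- `θs < θ`
      have hs : Real.pi / 4 ≤ Real.sin θ := by
        rw [← hsin]
        exact Real.sin_le_sin_of_le_of_le_pi_div_two (by linarith) hθ.2.le hgt.le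
      have ho : 1 - 4 / Real.pi * Real.sin θ ≤ 0 := by
        have := mul_le_mul_of_nonneg_left hs h4pi.le
        linarith
      have ht2 : τs < Real.tan θ :=
        Real.tan_lt_tan_of_lt_of_lt_pi_div_two (by linarith) hθ.2 hgt
      have hsec := DcK_secant hm hτ.le (by linarith : τ1 < τs) ht2
      have hml : 0 ≤ m (Real.tan θ) - (A + B * Real.tan θ) := by
        have e : (τs - τ1) * (m (Real.tan θ) - (A + B * Real.tan θ)) =
            (Real.tan θ - τs) * m τ1 + (τs - τ1) * m (Real.tan θ) -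
              (Real.tan θ - τ1) * m τs := by
          rw [hA]
          linear_combination (-(Real.tan θ - τ1)) * hBmul
        have h7 : 0 ≤ (τs - τ1) * (m (Real.tan θ) - (A + B * Real.tan θ)) := by
          rw [e]
          linarith
        by_contra hcon
        push Not at hcon
        have := mul_neg_of_pos_of_neg hd0 hcon
        linarith
      exact mul_nonpos_of_nonneg_of_nonpos (mul_nonneg hc.le hml) ho
  -- integration
  have hcont : Continuous fun θ : ℝ => (k θ - (A * Real.cos θ + B * Real.sin θ)) *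
      (1 - 4 / Real.pi * Real.sin θ) := by fun_prop
  have hI1 : ∫ θ in (0 : ℝ)..a, (k θ - (A * Real.cos θ + B * Real.sin θ)) *
      (1 - 4 / Real.pi * Real.sin θ) ≤ 3 / 2 * w * τ1 := by
    have h1 : ∫ θ in (0 : ℝ)..a, (k θ - (A * Real.cos θ + B * Real.sin θ)) *
        (1 - 4 / Real.pi * Real.sin θ) ≤ ∫ θ in (0 : ℝ)..a, 3 / 2 * w * Real.cos θ :=
      intervalIntegral.integral_mono_on_of_le_Ioo ha0.le (hcont.intervalIntegrable _ _)
        (Continuous.intervalIntegrable (by fun_prop) _ _) hfirst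
    have h2 : ∫ θ in (0 : ℝ)..a, 3 / 2 * w * Real.cos θ = 3 / 2 * w * Real.sin a := by
      rw [intervalIntegral.integral_const_mul, integral_cos, Real.sin_zero, sub_zero]
    rw [h2] at h1
    exact h1.trans (mul_le_mul_of_nonneg_left hsina (by positivity))
  have hI2 : ∫ θ in a..(Real.pi / 2), (k θ - (A * Real.cos θ + B * Real.sin θ)) *
      (1 - 4 / Real.pi * Real.sin θ) ≤ 0 := by
    have h1 : ∫ θ in a..(Real.pi / 2), (k θ - (A * Real.cos θ + B * Real.sin θ)) *
        (1 - 4 / Real.pi * Real.sin θ) ≤ ∫ θ in a..(Real.pi / 2), (0 : ℝ) :=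
      intervalIntegral.integral_mono_on_of_le_Ioo ha2.le (hcont.intervalIntegrable _ _)
        (Continuous.intervalIntegrable (by fun_prop) _ _) hsecond
    simpa using h1
  have hsum : ∫ θ in (0 : ℝ)..(Real.pi / 2), k θ * (1 - 4 / Real.pi * Real.sin θ) =
      (∫ θ in (0 : ℝ)..(Real.pi / 2), (k θ - (A * Real.cos θ + B * Real.sin θ)) *
        (1 - 4 / Real.pi * Real.sin θ)) + A * (1 - 2 / Real.pi) := by
    rw [← DcK_lin A B, ← intervalIntegral.integral_add (hcont.intervalIntegrable _ _)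
      (Continuous.intervalIntegrable (by fun_prop) _ _)]
    refine intervalIntegral.integral_congr fun θ _ => ?_
    show k θ * (1 - 4 / Real.pi * Real.sin θ) =
      (k θ - (A * Real.cos θ + B * Real.sin θ)) * (1 - 4 / Real.pi * Real.sin θ) +
        (A * Real.cos θ + B * Real.sin θ) * (1 - 4 / Real.pi * Real.sin θ)
    ring
  have hadj : (∫ θ in (0 : ℝ)..(Real.pi / 2), (k θ - (A * Real.cos θ + B * Real.sin θ)) *
        (1 - 4 / Real.pi * Real.sin θ)) =
      (∫ θ in (0 : ℝ)..a, (k θ - (A * Real.cos θ + B * Real.sin θ)) *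
        (1 - 4 / Real.pi * Real.sin θ)) +
      ∫ θ in a..(Real.pi / 2), (k θ - (A * Real.cos θ + B * Real.sin θ)) *
        (1 - 4 / Real.pi * Real.sin θ) :=
    (intervalIntegral.integral_add_adjacent_intervals (hcont.intervalIntegrable _ _)
      (hcont.intervalIntegrable _ _)).symm
  rw [hsum, hadj]
  have h2pi : 2 / Real.pi < 1 := by
    rw [div_lt_one hpi0]
    linarith
  have h2pi' : 1 / 2 ≤ 2 / Real.pi := by
    rw [div_le_div_iff₀ (by norm_num) hpi0]
    linarith
  have hBle : - w ≤ B := (abs_le.1 hBabs).1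
  have hAle : A ≤ m τ1 + w * τ1 := by
    rw [hA]
    nlinarith
  have h8 : A * (1 - 2 / Real.pi) ≤ (m τ1 + w * τ1) * (1 - 2 / Real.pi) :=
    mul_le_mul_of_nonneg_right hAle (by linarith)
  have h9 : w * τ1 * (1 - 2 / Real.pi) ≤ w * τ1 * (1 / 2) :=
    mul_le_mul_of_nonneg_left (by linarith) (by positivity)
  nlinarith

end

end Pool.Agent.Lib.MP_dabcc9_gt
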