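import Pool.Agent.Lib.MP_dabcc9_gt.DcH

/-! JOB D11.  The profiles of the body over a radial direction. -/

open MeasureTheory Metric Set

namespace Pool.Agent.Lib.MP_dabcc9_gt

noncomputable section

/-- convexity along an affine line -/
theorem DcL_convex {K : Set E3} (hK : IsCompact K) (hne : K.Nonempty) (e z : E3) (c : ℝ) :
    ConvexOn ℝ (Ici 0) (fun τ : ℝ => supp K (τ • e + z) - τ * c) := by
  obtain ⟨h1, h2, h3, h4, h5⟩ := supp_props hK hne
  refine ⟨convex_Ici 0, ?_⟩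
  intro x _ y _ a b ha hb hab
  have e1 : (a • x + b • y) • e + z = a • (x • e + z) + b • (y • e + z) := by
    have e2 : z = (a + b) • z := by rw [hab, one_smul]
    rw [smul_eq_mul, smul_eq_mul, add_smul, smul_add, smul_add, mul_smul, mul_smul]
    nth_rewrite 1 [e2]
    rw [add_smul]
    abel
  show supp K ((a • x + b • y) • e + z) - (a • x + b • y) * c ≤
    a • (supp K (x • e + z) - x * c) + b • (supp K (y • e + z) - y * c)
  rw [e1]
  have h6 := h3 (a • (x • e + z)) (b • (y • e + z))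
  rw [h4 a _ ha, h4 b _ hb] at h6
  simp only [smul_eq_mul]
  nlinarith

/-- `supp K` is sublinear, hence convex; composition with the affine map `τ ↦ τ • eh φ + eb 2`. -/
theorem mtop_convex {K : Set E3} (hK : IsCompact K) (hne : K.Nonempty) (φ : ℝ) :
    ConvexOn ℝ (Ici 0) (mtop K φ) :=
  DcL_convex hK hne (eh φ) (eb 2) (supp K (eh φ))

theorem mbot_convex {K : Set E3} (hK : IsCompact K) (hne : K.Nonempty) (φ : ℝ) :
    ConvexOn ℝ (Ici 0) (mbot K φ) := by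
  have h := DcL_convex hK hne (eh φ) (-eb 2) (supp K (eh φ))
  have e : mbot K φ = fun τ : ℝ => supp K (τ • eh φ + -eb 2) - τ * supp K (eh φ) := by
    funext τ
    unfold mbot
    rw [sub_eq_add_neg (τ • eh φ) (eb 2)]
  rw [e]
  exact h

/-- `supp K (τ • eh φ + eb 2) <= τ r + w/2`; below: the point of `K` maximising `<·, eh φ>`. -/
theorem mtop_abs {K : Set E3} {w : ℝ} (h : Nz K w) (φ τ : ℝ) (hτ : 0 ≤ τ) :
    |mtop K φ τ| ≤ w / 2 := by
  obtain ⟨h1, h2, h3, h4, h5⟩ := supp_props h.comp h.ne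
  unfold mtop
  rw [abs_le]
  constructor
  · obtain ⟨y, hy, hye⟩ := h2 (eh φ)
    have a1 := h1 y hy (τ • eh φ + eb 2)
    rw [inner_add_right, real_inner_smul_right, inner_eb2, ← hye] at a1
    have a2 := (abs_le.1 (h.height y hy)).1
    linarith
  · have a1 := h3 (τ • eh φ) (eb 2)
    rw [h4 τ _ hτ, h.top] at a1
    linarith

theorem mbot_abs {K : Set E3} {w : ℝ} (h : Nz K w) (φ τ : ℝ) (hτ : 0 ≤ τ) :
    |mbot K φ τ| ≤ w / 2 := by
  obtain ⟨h1, h2, h3, h4, h5⟩ := supp_props h.comp h.ne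
  unfold mbot
  rw [abs_le]
  constructor
  · obtain ⟨y, hy, hye⟩ := h2 (eh φ)
    have a1 := h1 y hy (τ • eh φ - eb 2)
    rw [inner_sub_right, real_inner_smul_right, inner_eb2, ← hye] at a1
    have a2 := (abs_le.1 (h.height y hy)).2
    linarith
  · have a1 := h3 (τ • eh φ) (-eb 2)
    rw [h4 τ _ hτ, h.bot, ← sub_eq_add_neg] at a1
    linarith

theorem DcL_cos_pos {θ : ℝ} (hθ : θ ∈ Ico (0 : ℝ) (Real.pi / 2)) : 0 < Real.cos θ :=
  Real.cos_pos_of_mem_Ioo ⟨by have := Real.pi_pos; linarith [hθ.1], hθ.2⟩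

/-- Homogeneity, `sp_eq`, `sin θ = cos θ tan θ`. -/
theorem kk_top {K : Set E3} (hK : IsCompact K) (hne : K.Nonempty) (θ φ : ℝ)
    (hθ : θ ∈ Ico (0 : ℝ) (Real.pi / 2)) :
    kk K θ φ = Real.cos θ * mtop K φ (Real.tan θ) := by
  obtain ⟨h1, h2, h3, h4, h5⟩ := supp_props hK hne
  have hc := DcL_cos_pos hθ
  have e0 : Real.sin θ = Real.cos θ * Real.tan θ := by
    rw [Real.tan_eq_sin_div_cos]
    field_simp
  have e1 : sp θ φ = Real.cos θ • (Real.tan θ • eh φ + eb 2) := by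
    rw [sp_eq, smul_add, smul_smul, ← e0]
  unfold kk mtop
  rw [e1, h4 _ _ hc.le, e0]
  ring

theorem kk_bot {K : Set E3} (hK : IsCompact K) (hne : K.Nonempty) (θ φ : ℝ)
    (hθ : θ ∈ Ico (0 : ℝ) (Real.pi / 2)) :
    kk K (Real.pi - θ) φ = Real.cos θ * mbot K φ (Real.tan θ) := by
  obtain ⟨h1, h2, h3, h4, h5⟩ := supp_props hK hne
  have hc := DcL_cos_pos hθ
  have e0 : Real.sin θ = Real.cos θ * Real.tan θ := by
    rw [Real.tan_eq_sin_div_cos]
    field_simp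
  have e1 : sp (Real.pi - θ) φ = Real.cos θ • (Real.tan θ • eh φ - eb 2) := by
    rw [sp_eq, Real.sin_pi_sub, Real.cos_pi_sub, smul_sub, smul_smul, ← e0, neg_smul,
      sub_eq_add_neg]
  unfold kk mbot
  rw [e1, h4 _ _ hc.le, Real.sin_pi_sub, e0]
  ring

/-- PROOF.  `p ∈ K` with `<p, τ1 • eh φ + eb 2>` maximal: `τ1 <p, eh φ> + p_2 = mtop + τ1 r`,
`<p, eh φ> <= r`, `p_2 <= w/2`, `mtop >= -w/2`. -/
theorem top_point {K : Set E3} {w : ℝ} (h : Nz K w) (φ τ1 : ℝ) (hτ : 0 < τ1) :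
    ∃ p ∈ K, mtop K φ τ1 ≤ p 2 ∧ supp K (eh φ) - w / τ1 ≤ inner ℝ p (eh φ) := by
  obtain ⟨h1, h2, h3, h4, h5⟩ := supp_props h.comp h.ne
  obtain ⟨p, hp, hpe⟩ := h2 (τ1 • eh φ + eb 2)
  rw [inner_add_right, real_inner_smul_right, inner_eb2] at hpe
  have a1 := h1 p hp (eh φ)
  have a2 := mul_le_mul_of_nonneg_left a1 hτ.le
  have a3 := (abs_le.1 (mtop_abs h φ τ1 hτ.le)).1
  have a4 := (abs_le.1 (h.height p hp)).2
  have a5 : mtop K φ τ1 = τ1 * inner ℝ p (eh φ) + p 2 - τ1 * supp K (eh φ) := by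
    unfold mtop
    rw [hpe]
  refine ⟨p, hp, by linarith, ?_⟩
  rw [sub_le_iff_le_add, ← sub_le_iff_le_add', le_div_iff₀ hτ]
  nlinarith

theorem bot_point {K : Set E3} {w : ℝ} (h : Nz K w) (φ τ1 : ℝ) (hτ : 0 < τ1) :
    ∃ q ∈ K, q 2 ≤ -mbot K φ τ1 ∧ supp K (eh φ) - w / τ1 ≤ inner ℝ q (eh φ) := by
  obtain ⟨h1, h2, h3, h4, h5⟩ := supp_props h.comp h.ne
  obtain ⟨p, hp, hpe⟩ := h2 (τ1 • eh φ - eb 2)
  rw [inner_sub_right, real_inner_smul_right, inner_eb2] at hpe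
  have a1 := h1 p hp (eh φ)
  have a2 := mul_le_mul_of_nonneg_left a1 hτ.le
  have a3 := (abs_le.1 (mbot_abs h φ τ1 hτ.le)).1
  have a4 := (abs_le.1 (h.height p hp)).1
  have a5 : mbot K φ τ1 = τ1 * inner ℝ p (eh φ) - p 2 - τ1 * supp K (eh φ) := by
    unfold mbot
    rw [hpe]
  refine ⟨p, hp, by linarith, ?_⟩
  rw [sub_le_iff_le_add, ← sub_le_iff_le_add', le_div_iff₀ hτ]
  nlinarith

/-- `supp (τ e + z) + supp (τ e - z) >= supp (2 τ e)`. -/
theorem m_sum {K : Set E3} {w : ℝ} (h : Nz K w) (φ τ1 : ℝ) (hτ : 0 < τ1) :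
    0 ≤ mtop K φ τ1 + mbot K φ τ1 ∧ mtop K φ τ1 + mbot K φ τ1 ≤ w := by
  obtain ⟨h1, h2, h3, h4, h5⟩ := supp_props h.comp h.ne
  constructor
  · have a1 := h3 (τ1 • eh φ + eb 2) (τ1 • eh φ - eb 2)
    have e1 : τ1 • eh φ + eb 2 + (τ1 • eh φ - eb 2) = (2 * τ1) • eh φ := by
      rw [mul_smul, two_smul]
      abel
    rw [e1, h4 _ _ (by linarith)] at a1
    unfold mtop mbot
    linarith
  · have a3 := (abs_le.1 (mtop_abs h φ τ1 hτ.le)).2
    have a4 := (abs_le.1 (mbot_abs h φ τ1 hτ.le)).2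
    linarith

theorem m_cont {K : Set E3} (hK : IsCompact K) (hne : K.Nonempty) (τ1 : ℝ) :
    Continuous (fun φ => mtop K φ τ1) ∧ Continuous (fun φ => mbot K φ τ1) := by
  obtain ⟨h1, h2, h3, h4, h5⟩ := supp_props hK hne
  have c0 : Continuous (fun φ => supp K (eh φ)) := by
    have := Continuous.comp h5 continuous_eh
    simpa only [Function.comp_def] using this
  have c1 : Continuous (fun φ => supp K (τ1 • eh φ + eb 2)) := by
    have h6 : Continuous (fun φ : ℝ => τ1 • eh φ + eb 2) :=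
      (continuous_eh.const_smul τ1).add continuous_const
    have := Continuous.comp h5 h6
    simpa only [Function.comp_def] using this
  have c2 : Continuous (fun φ => supp K (τ1 • eh φ - eb 2)) := by
    have h6 : Continuous (fun φ : ℝ => τ1 • eh φ - eb 2) :=
      (continuous_eh.const_smul τ1).sub continuous_const
    have := Continuous.comp h5 h6
    simpa only [Function.comp_def] using this
  exact ⟨c1.sub (continuous_const.mul c0), c2.sub (continuous_const.mul c0)⟩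

theorem m_per (K : Set E3) (τ1 φ : ℝ) : mtop K (φ + 2 * Real.pi) τ1 = mtop K φ τ1 ∧
    mbot K (φ + 2 * Real.pi) τ1 = mbot K φ τ1 := by
  have e : eh (φ + 2 * Real.pi) = eh φ := by
    unfold eh
    rw [Real.cos_add_two_pi, Real.sin_add_two_pi]
  unfold mtop mbot
  rw [e]
  exact ⟨rfl, rfl⟩

end

end Pool.Agent.Lib.MP_dabcc9_gt
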