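import Pool.Agent.Lib.MP_dabcc9_gt.DcL
import Pool.Agent.Lib.MP_dabcc9_gt.DcK

/-! JOB D11b.  The weighted integral along a meridian. -/

open MeasureTheory Metric Set

namespace Pool.Agent.Lib.MP_dabcc9_gt

noncomputable section

theorem DcL2_cont {K : Set E3} (hK : IsCompact K) (hne : K.Nonempty) (φ : ℝ) :
    Continuous (fun θ => kk K θ φ) := by
  have h1 : Continuous (supp K) := (supp_props hK hne).2.2.2.2
  have h2 : Continuous (fun θ : ℝ => sp θ φ) := by
    have e : (fun θ : ℝ => sp θ φ) = fun θ => Real.sin θ • eh φ + Real.cos θ • eb 2 :=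
      funext fun θ => sp_eq θ φ
    rw [e]
    exact (Real.continuous_sin.smul continuous_const).add
      (Real.continuous_cos.smul continuous_const)
  have h3 : Continuous (fun θ : ℝ => supp K (sp θ φ)) := by
    have := Continuous.comp h1 h2
    simpa only [Function.comp_def] using this
  unfold kk
  exact h3.sub (continuous_const.mul Real.continuous_sin)

theorem DcL2_om : Continuous om := by
  unfold om
  exact continuous_const.sub (continuous_const.mul Real.continuous_sin)

/-- PROOF.  Split at `pi/2`, substitute `θ ↦ pi - θ` in the second half (`om (pi - θ) = om θ`),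
`chord_int` twice. -/
theorem Phi_le {K : Set E3} {w : ℝ} (h : Nz K w) (φ τ1 : ℝ) (hτ : 0 < τ1) (hτ1 : τ1 ≤ 1 / 4) :
    ∫ θ in (0 : ℝ)..Real.pi, kk K θ φ * om θ ≤
      (1 - 2 / Real.pi) * (mtop K φ τ1 + mbot K φ τ1) + 4 * w * τ1 := by
  have hK := h.comp
  have hne := h.ne
  have hc := DcL2_cont hK hne φ
  have hco : Continuous (fun θ => kk K θ φ * om θ) := hc.mul DcL2_om
  have hsplit : ∫ θ in (0 : ℝ)..Real.pi, kk K θ φ * om θ
      = (∫ θ in (0 : ℝ)..(Real.pi / 2), kk K θ φ * om θ)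
        + ∫ θ in (Real.pi / 2)..Real.pi, kk K θ φ * om θ :=
    (intervalIntegral.integral_add_adjacent_intervals (hco.intervalIntegrable _ _)
      (hco.intervalIntegrable _ _)).symm
  have hsub : ∫ θ in (Real.pi / 2)..Real.pi, kk K θ φ * om θ
      = ∫ θ in (0 : ℝ)..(Real.pi / 2), kk K (Real.pi - θ) φ * om θ := by
    have h1 := intervalIntegral.integral_comp_sub_left (a := 0) (b := Real.pi / 2)
      (fun θ => kk K θ φ * om θ) Real.pi
    have e1 : Real.pi - Real.pi / 2 = Real.pi / 2 := by ring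
    rw [e1, sub_zero] at h1
    rw [← h1]
    refine intervalIntegral.integral_congr fun θ _ => ?_
    show kk K (Real.pi - θ) φ * om (Real.pi - θ) = kk K (Real.pi - θ) φ * om θ
    unfold om
    rw [Real.sin_pi_sub]
  have h2 := chord_int (fun θ => kk K θ φ) hc (mtop K φ) (mtop_convex hK hne φ) w τ1
    (fun τ hτ => mtop_abs h φ τ hτ) (fun θ hθ => kk_top hK hne θ φ hθ) hτ hτ1
  have h3 := chord_int (fun θ => kk K (Real.pi - θ) φ)
    (hc.comp (continuous_const.sub continuous_id)) (mbot K φ) (mbot_convex hK hne φ) w τ1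
    (fun τ hτ => mbot_abs h φ τ hτ) (fun θ hθ => kk_bot hK hne θ φ hθ) hτ hτ1
  have h4 : ∫ θ in (0 : ℝ)..(Real.pi / 2), kk K θ φ * om θ
      ≤ (1 - 2 / Real.pi) * mtop K φ τ1 + 2 * w * τ1 := h2
  have h5 : ∫ θ in (0 : ℝ)..(Real.pi / 2), kk K (Real.pi - θ) φ * om θ
      ≤ (1 - 2 / Real.pi) * mbot K φ τ1 + 2 * w * τ1 := h3
  rw [hsplit, hsub]
  linarith

end

end Pool.Agent.Lib.MP_dabcc9_gt
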