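import Pool.Agent.Lib.MP_dabcc9_gt.DcDefs

/-! JOB D12.  Horizontal projections. -/

open MeasureTheory Metric Set

namespace Pool.Agent.Lib.MP_dabcc9_gt

noncomputable section

/-- Every horizontal vector is `ρ • eh ψ`. -/
theorem hor_polar (a b : ℝ) : ∃ ρ ψ : ℝ, 0 ≤ ρ ∧ ρ ^ 2 = a ^ 2 + b ^ 2 ∧
    a = ρ * Real.cos ψ ∧ b = ρ * Real.sin ψ := by
  refine ⟨‖(⟨a, b⟩ : ℂ)‖, Complex.arg ⟨a, b⟩, norm_nonneg _, ?_, ?_, ?_⟩
  · rw [Complex.sq_norm, Complex.normSq_mk]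
    ring
  · exact (Complex.norm_mul_cos_arg (⟨a, b⟩ : ℂ)).symm
  · exact (Complex.norm_mul_sin_arg (⟨a, b⟩ : ℂ)).symm

/-- The horizontal projection. -/
def DcM_pr (y : E3) : E3 := y 0 • eb 0 + y 1 • eb 1

theorem DcM_pr_cont : Continuous DcM_pr := by
  unfold DcM_pr
  fun_prop

theorem DcM_pr_convex {K : Set E3} (hc : Convex ℝ K) : Convex ℝ (DcM_pr '' K) := by
  rintro _ ⟨x, hx, rfl⟩ _ ⟨y, hy, rfl⟩ a b ha hb hab
  refine ⟨a • x + b • y, hc hx hy ha hb hab, ?_⟩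
  unfold DcM_pr
  simp only [PiLp.add_apply, PiLp.smul_apply, smul_eq_mul, smul_add, smul_smul, add_smul]
  abel

theorem DcM_eb00 (i j : Fin 3) : (eb i) j = if j = i then (1 : ℝ) else 0 := by
  unfold eb
  simp [Pi.single_apply]

theorem DcM_pr_0 (y : E3) : DcM_pr y 0 = y 0 := by
  unfold DcM_pr
  simp [DcM_eb00]

theorem DcM_pr_1 (y : E3) : DcM_pr y 1 = y 1 := by
  unfold DcM_pr
  simp [DcM_eb00]

/-- The horizontal projection of `K` contains a disc.  PROOF.  The set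
`K' = {x | x 2 = 0 ∧ ∃ z, (x 0, x 1, z) ∈ K}` = image of `K` under the (linear, continuous)
projection is compact and convex.  If `(b0, b1, 0) ∉ K'`, separate
(`geometric_hahn_banach_point_closed` or `..._compact_closed`): there is `v` with
`<y', v> < <b, v>` for all `y' ∈ K'`; with `v' = (v0, v1, 0) = ρ • eh ψ` (`hor_polar`):
`ρ supp K (eh ψ) = max <y, v'> < <b, v'> <= ρ/4`, contradiction (`ρ = 0` is impossible too). -/
theorem hor_cover {K : Set E3} (hK : IsCompact K) (hc : Convex ℝ K) (hne : K.Nonempty)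
    (h : ∀ φ, 1 / 4 ≤ supp K (eh φ)) (b0 b1 : ℝ) (hb : b0 ^ 2 + b1 ^ 2 ≤ 1 / 16) :
    ∃ y ∈ K, y 0 = b0 ∧ y 1 = b1 := by
  set b : E3 := b0 • eb 0 + b1 • eb 1 with hbd
  have hb0 : b 0 = b0 := by
    rw [hbd]
    simp [DcM_eb00]
  have hb1 : b 1 = b1 := by
    rw [hbd]
    simp [DcM_eb00]
  by_contra hcon
  have hnot : b ∉ DcM_pr '' K := by
    rintro ⟨y, hy, hyb⟩
    apply hcon
    refine ⟨y, hy, ?_, ?_⟩
    · rw [← DcM_pr_0, hyb, hb0]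
    · rw [← DcM_pr_1, hyb, hb1]
  obtain ⟨f, u, hf1, hf2⟩ := geometric_hahn_banach_closed_point (DcM_pr_convex hc)
    (hK.image DcM_pr_cont).isClosed hnot
  obtain ⟨ρ, ψ, hρ, -, hv0, hv1⟩ := hor_polar (f (eb 0)) (f (eb 1))
  obtain ⟨y, hy, hsy⟩ := (supp_props hK hne).2.1 (eh ψ)
  have e1 : f (DcM_pr y) = ρ * supp K (eh ψ) := by
    rw [hsy, inner_eh]
    unfold DcM_pr
    rw [map_add, map_smul, map_smul, smul_eq_mul, smul_eq_mul, hv0, hv1]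
    ring
  have e2 : f b = ρ * (b0 * Real.cos ψ + b1 * Real.sin ψ) := by
    rw [hbd, map_add, map_smul, map_smul, smul_eq_mul, smul_eq_mul, hv0, hv1]
    ring
  have e3 := (hf1 _ (Set.mem_image_of_mem _ hy)).trans hf2
  rw [e1, e2] at e3
  have e4 : b0 * Real.cos ψ + b1 * Real.sin ψ ≤ 1 / 4 := by
    have h1 : (b0 * Real.cos ψ + b1 * Real.sin ψ) ^ 2 ≤ (1 / 4) ^ 2 := by
      have h2 := Real.sin_sq_add_cos_sq ψ
      have h3 : (b0 * Real.cos ψ + b1 * Real.sin ψ) ^ 2 + (b0 * Real.sin ψ - b1 * Real.cos ψ) ^ 2 =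
          (b0 ^ 2 + b1 ^ 2) * (Real.sin ψ ^ 2 + Real.cos ψ ^ 2) := by ring
      rw [h2, mul_one] at h3
      nlinarith [sq_nonneg (b0 * Real.sin ψ - b1 * Real.cos ψ)]
    exact le_of_sq_le_sq h1 (by norm_num)
  have e5 : b0 * Real.cos ψ + b1 * Real.sin ψ ≤ supp K (eh ψ) := e4.trans (h ψ)
  exact absurd (mul_le_mul_of_nonneg_left e5 hρ) (not_le.2 e3)

/-- A point of `K` over the rim direction `φ` is horizontally close to `eh φ`: with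
`(p0, p1) = ρ (cos ψ, sin ψ)`, `ρ = <p, eh ψ> <= supp K (eh ψ) <= 1 + δ`, so
`|p_h - eh φ|^2 = ρ^2 - 2 <p, eh φ> + 1 <= 4 δ + δ^2 <= 5 δ`. -/
theorem hor_close {K : Set E3} (hK : IsCompact K) (hne : K.Nonempty) (δ : ℝ) (hδ : 0 ≤ δ)
    (hδ1 : δ ≤ 1) (h : ∀ φ, |supp K (eh φ) - 1| ≤ δ) (p : E3) (hp : p ∈ K) (φ : ℝ)
    (hpφ : 1 - δ ≤ inner ℝ p (eh φ)) :
    (p 0 - Real.cos φ) ^ 2 + (p 1 - Real.sin φ) ^ 2 ≤ 5 * δ := by
  obtain ⟨ρ, ψ, hρ, hρ2, hp0, hp1⟩ := hor_polar (p 0) (p 1)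
  have h1 := (supp_props hK hne).1 p hp (eh ψ)
  rw [inner_eh] at h1 hpφ
  have h2 := (abs_le.1 (h ψ)).2
  have h3 := Real.sin_sq_add_cos_sq ψ
  have h4 : Real.cos ψ * p 0 + Real.sin ψ * p 1 = ρ := by
    rw [hp0, hp1]
    have : Real.cos ψ * (ρ * Real.cos ψ) + Real.sin ψ * (ρ * Real.sin ψ) =
        ρ * (Real.sin ψ ^ 2 + Real.cos ψ ^ 2) := by ring
    rw [this, h3, mul_one]
  have h5 : ρ ≤ 1 + δ := by linarith
  have h6 : ρ ^ 2 ≤ (1 + δ) ^ 2 := pow_le_pow_left₀ hρ h5 2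
  have h7 := Real.sin_sq_add_cos_sq φ
  have h8 : (p 0 - Real.cos φ) ^ 2 + (p 1 - Real.sin φ) ^ 2 =
      (p 0 ^ 2 + p 1 ^ 2) - 2 * (Real.cos φ * p 0 + Real.sin φ * p 1) + (Real.sin φ ^ 2 + Real.cos φ ^ 2) := by
    ring
  rw [h8, h7, ← hρ2]
  nlinarith

end

end Pool.Agent.Lib.MP_dabcc9_gt
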