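import Pool.Agent.Lib.MP_dabcc9_gt.DcM

/-! JOB D12b.  Vertical fibres. -/

open MeasureTheory Metric Set

namespace Pool.Agent.Lib.MP_dabcc9_gt

noncomputable section

private theorem DcM2_aux {K : Set E3} (hK : IsCompact K) (hc : Convex ℝ K) (hne : K.Nonempty)
    (δ σ : ℝ) (h : ∀ φ, |supp K (eh φ) - 1| ≤ δ) (hδ0 : 0 ≤ δ) (hσ : 0 < σ)
    (hσ1 : σ ≤ 1 / 4) (hδ : 80 * δ ≤ σ ^ 2) (α φ : ℝ) (p1 p2 : E3) (h1 : p1 ∈ K) (h2 : p2 ∈ K)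
    (i1 : 1 - δ ≤ inner ℝ p1 (eh (φ + α))) (i2 : 1 - δ ≤ inner ℝ p2 (eh (φ - α))) :
    ∃ y ∈ K, ∃ b ∈ K, y 0 = (1 - σ) * Real.cos α * Real.cos φ ∧
      y 1 = (1 - σ) * Real.cos α * Real.sin φ ∧
      y 2 = (1 - σ) * ((p1 2 + p2 2) / 2) + σ * b 2 := by
  have hδ1 : δ ≤ 1 := by nlinarith
  have c1 := hor_close hK hne δ hδ0 hδ1 h p1 h1 (φ + α) i1
  have c2 := hor_close hK hne δ hδ0 hδ1 h p2 h2 (φ - α) i2
  rw [Real.cos_add, Real.sin_add] at c1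
  rw [Real.cos_sub, Real.sin_sub] at c2
  set d0 : ℝ := (p1 0 + p2 0) / 2 - Real.cos α * Real.cos φ with hd0
  set d1 : ℝ := (p1 1 + p2 1) / 2 - Real.cos α * Real.sin φ with hd1
  have hd : d0 ^ 2 + d1 ^ 2 ≤ 5 * δ := by
    have e0 : d0 = ((p1 0 - (Real.cos φ * Real.cos α - Real.sin φ * Real.sin α))
        + (p2 0 - (Real.cos φ * Real.cos α + Real.sin φ * Real.sin α))) / 2 := by
      rw [hd0]; ring
    have e1 : d1 = ((p1 1 - (Real.sin φ * Real.cos α + Real.cos φ * Real.sin α))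
        + (p2 1 - (Real.sin φ * Real.cos α - Real.cos φ * Real.sin α))) / 2 := by
      rw [hd1]; ring
    rw [e0, e1]
    set u0 := p1 0 - (Real.cos φ * Real.cos α - Real.sin φ * Real.sin α)
    set v0 := p2 0 - (Real.cos φ * Real.cos α + Real.sin φ * Real.sin α)
    set u1 := p1 1 - (Real.sin φ * Real.cos α + Real.cos φ * Real.sin α)
    set v1 := p2 1 - (Real.sin φ * Real.cos α - Real.cos φ * Real.sin α)
    nlinarith [sq_nonneg (u0 - v0), sq_nonneg (u1 - v1)]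
  have hcov : ∀ ψ, 1 / 4 ≤ supp K (eh ψ) := by
    intro ψ
    have := (abs_le.1 (h ψ)).1
    have : δ ≤ 3 / 4 := by nlinarith
    linarith
  set c : ℝ := (1 - σ) / σ with hcdef
  have hcs : σ * c = 1 - σ := by rw [hcdef]; field_simp
  have hcn : c ^ 2 * σ ^ 2 ≤ 1 := by
    have : c ^ 2 * σ ^ 2 = (1 - σ) ^ 2 := by rw [← hcs]; ring
    rw [this]
    nlinarith
  have hb : (-(c * d0)) ^ 2 + (-(c * d1)) ^ 2 ≤ 1 / 16 := by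
    have e : (-(c * d0)) ^ 2 + (-(c * d1)) ^ 2 = c ^ 2 * (d0 ^ 2 + d1 ^ 2) := by ring
    rw [e]
    calc c ^ 2 * (d0 ^ 2 + d1 ^ 2) ≤ c ^ 2 * (5 * δ) :=
          mul_le_mul_of_nonneg_left hd (sq_nonneg _)
      _ ≤ c ^ 2 * (σ ^ 2 / 16) := mul_le_mul_of_nonneg_left (by linarith) (sq_nonneg _)
      _ ≤ 1 / 16 := by linarith
  obtain ⟨b, hbK, hb0, hb1⟩ := hor_cover hK hc hne hcov _ _ hb
  have hA : (1 / 2 : ℝ) • p1 + (1 / 2 : ℝ) • p2 ∈ K :=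
    hc h1 h2 (by norm_num) (by norm_num) (by norm_num)
  have hy : (1 - σ) • ((1 / 2 : ℝ) • p1 + (1 / 2 : ℝ) • p2) + σ • b ∈ K :=
    hc hA hbK (by linarith) hσ.le (by ring)
  refine ⟨_, hy, b, hbK, ?_, ?_, ?_⟩
  · simp only [PiLp.add_apply, PiLp.smul_apply, smul_eq_mul]
    rw [hb0]
    have e : (1 - σ) * (1 / 2 * p1 0 + 1 / 2 * p2 0) + σ * -(c * d0)
        = (1 - σ) * ((p1 0 + p2 0) / 2) - (σ * c) * d0 := by ring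
    rw [e, hcs, hd0]
    ring
  · simp only [PiLp.add_apply, PiLp.smul_apply, smul_eq_mul]
    rw [hb1]
    have e : (1 - σ) * (1 / 2 * p1 1 + 1 / 2 * p2 1) + σ * -(c * d1)
        = (1 - σ) * ((p1 1 + p2 1) / 2) - (σ * c) * d1 := by ring
    rw [e, hcs, hd1]
    ring
  · simp only [PiLp.add_apply, PiLp.smul_apply, smul_eq_mul]
    ring

/-- PROOF.  `P1, P2` the points for `φ + α`, `φ - α`; `A = (P1 + P2)/2`; horizontally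
`A = cos α (cos φ, sin φ) + d` with `|d|^2 <= 5 δ` (`eh (φ+α) + eh (φ-α) = 2 cos α eh φ`, convexity
of the square), `|d| <= σ/4` by `80 δ <= σ^2`.  `B ∈ K` horizontally equal to `-((1-σ)/σ) d`
(`hor_cover`, norm at most `1/4`), `|B_2| <= w/2`.  The point `(1-σ) A + σ B ∈ K` lies over
`(1-σ) cos α eh φ`, at height at least `(1-σ) (F(φ+α) + F(φ-α))/2 - σ w/2`. -/
theorem fibre_top {K : Set E3} (hK : IsCompact K) (hc : Convex ℝ K) (hne : K.Nonempty)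
    (w δ σ : ℝ) (F : ℝ → ℝ) (hz : ∀ y ∈ K, |y 2| ≤ w / 2) (h : ∀ φ, |supp K (eh φ) - 1| ≤ δ)
    (hP : ∀ φ, ∃ p ∈ K, F φ ≤ p 2 ∧ 1 - δ ≤ inner ℝ p (eh φ)) (hδ0 : 0 ≤ δ) (hσ : 0 < σ)
    (hσ1 : σ ≤ 1 / 4) (hδ : 80 * δ ≤ σ ^ 2) (α φ : ℝ) :
    ∃ y ∈ K, y 0 = (1 - σ) * Real.cos α * Real.cos φ ∧ y 1 = (1 - σ) * Real.cos α * Real.sin φ ∧
      (1 - σ) * ((F (φ + α) + F (φ - α)) / 2) - σ * (w / 2) ≤ y 2 := by
  obtain ⟨p1, h1, f1, i1⟩ := hP (φ + α)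
  obtain ⟨p2, h2, f2, i2⟩ := hP (φ - α)
  obtain ⟨y, hy, b, hb, y0, y1, y2⟩ := DcM2_aux hK hc hne δ σ h hδ0 hσ hσ1 hδ α φ p1 p2 h1 h2 i1 i2
  refine ⟨y, hy, y0, y1, ?_⟩
  rw [y2]
  have h3 := (abs_le.1 (hz b hb)).1
  have h4 : (1 - σ) * ((F (φ + α) + F (φ - α)) / 2) ≤ (1 - σ) * ((p1 2 + p2 2) / 2) :=
    mul_le_mul_of_nonneg_left (by linarith) (by linarith)
  have h5 : σ * (-(w / 2)) ≤ σ * b 2 := mul_le_mul_of_nonneg_left h3 hσ.le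
  linarith

/-- The same at the bottom (apply the same argument, or reflect). -/
theorem fibre_bot {K : Set E3} (hK : IsCompact K) (hc : Convex ℝ K) (hne : K.Nonempty)
    (w δ σ : ℝ) (G : ℝ → ℝ) (hz : ∀ y ∈ K, |y 2| ≤ w / 2) (h : ∀ φ, |supp K (eh φ) - 1| ≤ δ)
    (hP : ∀ φ, ∃ p ∈ K, p 2 ≤ -G φ ∧ 1 - δ ≤ inner ℝ p (eh φ)) (hδ0 : 0 ≤ δ) (hσ : 0 < σ)
    (hσ1 : σ ≤ 1 / 4) (hδ : 80 * δ ≤ σ ^ 2) (α φ : ℝ) :
    ∃ y ∈ K, y 0 = (1 - σ) * Real.cos α * Real.cos φ ∧ y 1 = (1 - σ) * Real.cos α * Real.sin φ ∧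
      y 2 ≤ -((1 - σ) * ((G (φ + α) + G (φ - α)) / 2) - σ * (w / 2)) := by
  obtain ⟨p1, h1, f1, i1⟩ := hP (φ + α)
  obtain ⟨p2, h2, f2, i2⟩ := hP (φ - α)
  obtain ⟨y, hy, b, hb, y0, y1, y2⟩ := DcM2_aux hK hc hne δ σ h hδ0 hσ hσ1 hδ α φ p1 p2 h1 h2 i1 i2
  refine ⟨y, hy, y0, y1, ?_⟩
  rw [y2]
  have h3 := (abs_le.1 (hz b hb)).2
  have h4 : (1 - σ) * ((p1 2 + p2 2) / 2) ≤ (1 - σ) * (-((G (φ + α) + G (φ - α)) / 2)) :=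
    mul_le_mul_of_nonneg_left (by linarith) (by linarith)
  have h5 : σ * b 2 ≤ σ * (w / 2) := mul_le_mul_of_nonneg_left h3 hσ.le
  linarith

end

end Pool.Agent.Lib.MP_dabcc9_gt
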