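import Pool.Agent.Lib.MP_dabcc9_gt.Stmt

/-! JOB D13.  Volume from the lengths of vertical fibres in polar coordinates. -/

open MeasureTheory Metric Set

namespace Pool.Agent.Lib.MP_dabcc9_gt

noncomputable section

/-- height and horizontal part -/
private def DcN_e : E3 ≃ᵐ ℝ × (ℝ × ℝ) :=
  ((MeasurableEquiv.toLp 2 (Fin 3 → ℝ)).symm.trans
    (MeasurableEquiv.piFinSuccAbove (fun _ : Fin 3 => ℝ) 2)).trans
    (MeasurableEquiv.prodCongr (MeasurableEquiv.refl ℝ) MeasurableEquiv.finTwoArrow)

private theorem DcN_e_mp : MeasurePreserving DcN_e volume (volume.prod volume) := by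
  refine MeasurePreserving.trans (MeasurePreserving.trans
    (EuclideanSpace.volume_preserving_symm_measurableEquiv_toLp (Fin 3))
    (volume_preserving_piFinSuccAbove (fun _ : Fin 3 => ℝ) 2)) ?_
  exact (MeasurePreserving.id volume).prod (volume_preserving_finTwoArrow ℝ)

private theorem DcN_e_apply (p : ℝ × ℝ) (z : ℝ) :
    DcN_e (!₂[p.1, p.2, z] : E3) = (z, p) := by
  rfl

private theorem DcN_fubini {S : Set E3} (hS : MeasurableSet S) :
    volume S = ∫⁻ p : ℝ × ℝ, volume {z : ℝ | (!₂[p.1, p.2, z] : E3) ∈ S} := by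
  have h1 : S = DcN_e ⁻¹' (DcN_e.symm ⁻¹' S) := by
    ext x
    simp
  have h2 : MeasurableSet (DcN_e.symm ⁻¹' S) := DcN_e.symm.measurable hS
  conv_lhs => rw [h1]
  rw [DcN_e_mp.measure_preimage h2.nullMeasurableSet, Measure.prod_apply_symm h2]
  congr 1
  funext p
  congr 1
  ext z
  show DcN_e.symm (z, p) ∈ S ↔ _
  rw [← DcN_e_apply p z, MeasurableEquiv.symm_apply_apply]
  rfl

private theorem DcN_fibre {K : Set E3} (hc : Convex ℝ K) (x0 x1 a b t : ℝ) (hab : a + t ≤ b)
    (ha : (!₂[x0, x1, a] : E3) ∈ K) (hb : (!₂[x0, x1, b] : E3) ∈ K) :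
    ENNReal.ofReal t ≤ volume {z : ℝ | (!₂[x0, x1, z] : E3) ∈ K} := by
  rcases le_or_gt t 0 with ht | ht
  · rw [ENNReal.ofReal_of_nonpos ht]
    exact bot_le
  · have hlt : a < b := by linarith
    have h1 : Icc a b ⊆ {z : ℝ | (!₂[x0, x1, z] : E3) ∈ K} := by
      intro z hz
      have hba : 0 < b - a := by linarith
      have h2 := hc ha hb (a := (b - z) / (b - a)) (b := (z - a) / (b - a))
        (div_nonneg (by linarith [hz.2]) hba.le) (div_nonneg (by linarith [hz.1]) hba.le)
        (by field_simp; ring)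
      have h3 : ((b - z) / (b - a)) • (!₂[x0, x1, a] : E3)
          + ((z - a) / (b - a)) • (!₂[x0, x1, b] : E3) = !₂[x0, x1, z] := by
        ext i
        fin_cases i
        · show (b - z) / (b - a) * x0 + (z - a) / (b - a) * x0 = x0
          field_simp
          ring
        · show (b - z) / (b - a) * x1 + (z - a) / (b - a) * x1 = x1
          field_simp
          ring
        · show (b - z) / (b - a) * a + (z - a) / (b - a) * b = z
          field_simp
          ring
      rw [h3] at h2
      exact h2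
    calc ENNReal.ofReal t ≤ ENNReal.ofReal (b - a) := ENNReal.ofReal_le_ofReal (by linarith)
      _ = volume (Icc a b) := by rw [Real.volume_Icc]
      _ ≤ _ := measure_mono h1

private theorem DcN_subst (s : ℝ) (hs : 0 < s) (g : ℝ → ℝ) (hg : Continuous g) :
    ∫ ρ in (0 : ℝ)..s, ρ * g (Real.arccos (ρ / s))
      = s ^ 2 * ∫ α in (0 : ℝ)..(Real.pi / 2), g α * (Real.cos α * Real.sin α) := by
  have h := intervalIntegral.integral_comp_mul_deriv (a := 0) (b := Real.pi / 2)
    (f := fun α => s * Real.cos α) (f' := fun α => s * (-Real.sin α))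
    (g := fun ρ => ρ * g (Real.arccos (ρ / s)))
    (fun x _ => (Real.hasDerivAt_cos x).const_mul s)
    (by fun_prop)
    (continuous_id.mul (hg.comp (Real.continuous_arccos.comp (continuous_id.div_const s))))
  simp only [Real.cos_zero, Real.cos_pi_div_two, mul_one, mul_zero] at h
  rw [intervalIntegral.integral_symm 0 s] at h
  have h2 : ∫ x in (0 : ℝ)..(Real.pi / 2), ((fun ρ => ρ * g (Real.arccos (ρ / s))) ∘
      fun α => s * Real.cos α) x * (s * -Real.sin x)
      = -(s ^ 2 * ∫ α in (0 : ℝ)..(Real.pi / 2), g α * (Real.cos α * Real.sin α)) := by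
    rw [← intervalIntegral.integral_const_mul, ← intervalIntegral.integral_neg]
    apply intervalIntegral.integral_congr
    intro x hx
    rw [uIcc_of_le (by positivity)] at hx
    simp only [Function.comp]
    have e : s * Real.cos x / s = Real.cos x := by field_simp
    rw [e, Real.arccos_cos hx.1 (by linarith [hx.2, Real.pi_pos])]
    ring
  rw [h2] at h
  linarith

/-- PROOF.  Fubini with the vertical coordinate inside (as `CapA_fubini` in `CapA.lean`, where it is
outside; measure preserving equivalence of `E3` with `(ℝ × ℝ) × ℝ`):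
`vol K = ∫ over the plane of the length of the fibre`.  For the point
`s cos α (cos φ, sin φ)` the fibre contains the segment between the two given heights, so its length
is at least `max (T α φ) 0`.  Polar coordinates in the plane (`integral_comp_polarCoord_symm`,
radius `ρ`, or `lintegral` version) and the substitution `ρ = s cos α`, `α ∈ (0, pi/2)`:
`∫∫_{|x| < s} = ∫_0^{2 pi} ∫_0^{pi/2} s^2 cos α sin α`. -/
theorem vol_ge_polar {K : Set E3} (hK : IsCompact K) (hc : Convex ℝ K) (s : ℝ) (hs : 0 < s)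
    (T : ℝ → ℝ → ℝ) (hT : Continuous fun q : ℝ × ℝ => T q.1 q.2)
    (hper : ∀ α φ, T α (φ + 2 * Real.pi) = T α φ)
    (h : ∀ α ∈ Ioo (0 : ℝ) (Real.pi / 2), ∀ φ : ℝ, ∃ a b : ℝ, a + T α φ ≤ b ∧
      (!₂[s * Real.cos α * Real.cos φ, s * Real.cos α * Real.sin φ, a] : E3) ∈ K ∧
      (!₂[s * Real.cos α * Real.cos φ, s * Real.cos α * Real.sin φ, b] : E3) ∈ K) :
    s ^ 2 * ∫ φ in (0 : ℝ)..(2 * Real.pi), ∫ α in (0 : ℝ)..(Real.pi / 2),
      T α φ * (Real.cos α * Real.sin α) ≤ vol K := by
  set R : Set (ℝ × ℝ) := Ioo 0 s ×ˢ Ioo (-Real.pi) Real.pi with hR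
  set F : ℝ × ℝ → ℝ := fun p => p.1 * T (Real.arccos (p.1 / s)) p.2 with hF
  have hFc : Continuous F := by
    apply continuous_fst.mul
    have h1 : Continuous fun p : ℝ × ℝ => (Real.arccos (p.1 / s), p.2) :=
      (Real.continuous_arccos.comp (continuous_fst.div_const s)).prodMk continuous_snd
    exact hT.comp h1
  have hRm : MeasurableSet R := measurableSet_Ioo.prod measurableSet_Ioo
  have hFi : IntegrableOn F R := by
    have h1 : IntegrableOn F (Icc 0 s ×ˢ Icc (-Real.pi) Real.pi) :=
      hFc.continuousOn.integrableOn_compact (isCompact_Icc.prod isCompact_Icc)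
    exact h1.mono_set (prod_mono Ioo_subset_Icc_self Ioo_subset_Icc_self)
  -- lower bound of the volume
  have hlow : ∫⁻ p in R, ENNReal.ofReal (F p) ≤ volume K := by
    rw [DcN_fubini hK.measurableSet, ← lintegral_comp_polarCoord_symm]
    have hsub : R ⊆ polarCoord.target := by
      rw [polarCoord_target]
      exact prod_mono Ioo_subset_Ioi_self le_rfl
    refine le_trans ?_ (lintegral_mono_set hsub)
    apply setLIntegral_mono' hRm
    rintro ⟨ρ, φ⟩ ⟨hρ, hφ⟩
    simp only at hρ hφ
    have hα : Real.arccos (ρ / s) ∈ Ioo (0 : ℝ) (Real.pi / 2) := by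
      constructor
      · rw [Real.arccos_pos, div_lt_one hs]
        exact hρ.2
      · rw [Real.arccos_lt_pi_div_two]
        exact div_pos hρ.1 hs
    obtain ⟨a, b, hab, ha, hb⟩ := h _ hα φ
    have hcos : s * Real.cos (Real.arccos (ρ / s)) = ρ := by
      rw [Real.cos_arccos (by
        have := div_pos hρ.1 hs; linarith) (by rw [div_le_one hs]; exact hρ.2.le)]
      field_simp
    rw [hcos] at ha hb
    have h3 := DcN_fibre hc _ _ a b _ hab ha hb
    have h4 : ENNReal.ofReal (F (ρ, φ))
        = ENNReal.ofReal ρ * ENNReal.ofReal (T (Real.arccos (ρ / s)) φ) := by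
      rw [hF, ← ENNReal.ofReal_mul hρ.1.le]
    rw [h4, smul_eq_mul]
    exact mul_le_mul' le_rfl h3
  have hfin : volume K ≠ ⊤ := hK.measure_lt_top.ne
  -- integral
  have hint : ∫ p in R, F p ≤ vol K := by
    rw [integral_eq_lintegral_pos_part_sub_lintegral_neg_part hFi]
    have h1 : (∫⁻ p in R, ENNReal.ofReal (F p)).toReal ≤ vol K :=
      ENNReal.toReal_mono hfin hlow
    have h2 : 0 ≤ (∫⁻ p in R, ENNReal.ofReal (-F p)).toReal := ENNReal.toReal_nonneg
    linarith
  have hval : ∫ p in R, F p = s ^ 2 * ∫ φ in (0 : ℝ)..(2 * Real.pi),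
      ∫ α in (0 : ℝ)..(Real.pi / 2), T α φ * (Real.cos α * Real.sin α) := by
    have h1 : ∫ p in R, F p = ∫ φ in Ioo (-Real.pi) Real.pi, ∫ ρ in Ioo 0 s, F (ρ, φ) := by
      have e : (volume : Measure (ℝ × ℝ)).restrict R
          = (volume.restrict (Ioo 0 s)).prod (volume.restrict (Ioo (-Real.pi) Real.pi)) := by
        rw [Measure.prod_restrict]
        rfl
      have hFi' := hFi
      rw [IntegrableOn, e] at hFi'
      rw [e]
      exact integral_prod_symm F hFi'
    have h2 : ∀ φ, ∫ ρ in Ioo 0 s, F (ρ, φ)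
        = s ^ 2 * ∫ α in (0 : ℝ)..(Real.pi / 2), T α φ * (Real.cos α * Real.sin α) := by
      intro φ
      rw [← integral_Ioc_eq_integral_Ioo, ← intervalIntegral.integral_of_le hs.le]
      exact DcN_subst s hs (fun α => T α φ)
        (hT.comp (Continuous.prodMk continuous_id continuous_const))
    rw [h1]
    simp_rw [h2]
    rw [integral_const_mul, ← integral_Ioc_eq_integral_Ioo,
      ← intervalIntegral.integral_of_le (by linarith [Real.pi_pos])]
    congr 1
    have hp : Function.Periodic (fun φ => ∫ α in (0 : ℝ)..(Real.pi / 2),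
        T α φ * (Real.cos α * Real.sin α)) (2 * Real.pi) := by
      intro φ
      simp only [hper]
    have h3 := hp.intervalIntegral_add_eq (-Real.pi) 0
    rw [zero_add] at h3
    rw [← h3]
    congr 1
    ring
  rw [← hval]
  exact hint

end

end Pool.Agent.Lib.MP_dabcc9_gt
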