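import Pool.Agent.Lib.MP_dabcc9_gt.DcM2
import Pool.Agent.Lib.MP_dabcc9_gt.DcN

/-! JOB D14.  Lower bound of the volume by the rim heights. -/

open MeasureTheory Metric Set

namespace Pool.Agent.Lib.MP_dabcc9_gt

noncomputable section

theorem DcO_cs : ∫ α in (0 : ℝ)..(Real.pi / 2), Real.cos α * Real.sin α = 1 / 2 := by
  have h : ∀ α ∈ Set.uIcc (0 : ℝ) (Real.pi / 2), HasDerivAt (fun x => Real.sin x ^ 2 / 2)
      (Real.cos α * Real.sin α) α := by
    intro α _
    have h1 := ((Real.hasDerivAt_sin α).pow 2).div_const 2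
    have e : Real.cos α * Real.sin α = ((2 : ℕ) : ℝ) * Real.sin α ^ (2 - 1) * Real.cos α / 2 := by
      norm_num
      ring
    rw [e]
    exact h1
  rw [intervalIntegral.integral_eq_sub_of_hasDerivAt h
    ((Real.continuous_cos.mul Real.continuous_sin).intervalIntegrable _ _)]
  simp

theorem DcO_per {S : ℝ → ℝ} (hp : ∀ φ, S (φ + 2 * Real.pi) = S φ) (c : ℝ) :
    ∫ φ in (0 : ℝ)..(2 * Real.pi), S (φ + c) = ∫ φ in (0 : ℝ)..(2 * Real.pi), S φ := by
  rw [intervalIntegral.integral_comp_add_right (fun x => S x) c]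
  have hper : Function.Periodic S (2 * Real.pi) := hp
  have := hper.intervalIntegral_add_eq c 0
  rw [zero_add] at this
  rw [zero_add, add_comm (2 * Real.pi) c]
  exact this

/-- The double integral. -/
theorem DcO_dbl (S : ℝ → ℝ) (hS : Continuous S) (hp : ∀ φ, S (φ + 2 * Real.pi) = S φ) (w σ : ℝ) :
    ∫ φ in (0 : ℝ)..(2 * Real.pi), ∫ α in (0 : ℝ)..(Real.pi / 2),
      ((1 - σ) * ((S (φ + α) + S (φ - α)) / 2) - σ * w) * (Real.cos α * Real.sin α) =
    (1 - σ) / 2 * (∫ φ in (0 : ℝ)..(2 * Real.pi), S φ) - Real.pi * σ * w := by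
  have hcont : Continuous (Function.uncurry fun φ α : ℝ =>
      ((1 - σ) * ((S (φ + α) + S (φ - α)) / 2) - σ * w) * (Real.cos α * Real.sin α)) := by
    unfold Function.uncurry
    have h1 : Continuous fun q : ℝ × ℝ => S (q.1 + q.2) := hS.comp (continuous_fst.add continuous_snd)
    have h2 : Continuous fun q : ℝ × ℝ => S (q.1 - q.2) := hS.comp (continuous_fst.sub continuous_snd)
    have h3 : Continuous fun q : ℝ × ℝ => Real.cos q.2 * Real.sin q.2 :=
      (Real.continuous_cos.comp continuous_snd).mul (Real.continuous_sin.comp continuous_snd)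
    exact (((continuous_const.mul ((h1.add h2).div_const 2)).sub continuous_const).mul h3)
  rw [intervalIntegral_intervalIntegral_swap (by
    have hk : IsCompact (uIcc (0 : ℝ) (2 * Real.pi) ×ˢ uIcc (0 : ℝ) (Real.pi / 2)) :=
      isCompact_uIcc.prod isCompact_uIcc
    exact (hcont.continuousOn.integrableOn_compact hk).mono_set
      (Set.prod_mono uIoc_subset_uIcc uIoc_subset_uIcc))]
  have h1 : ∀ α : ℝ, ∫ φ in (0 : ℝ)..(2 * Real.pi),
      ((1 - σ) * ((S (φ + α) + S (φ - α)) / 2) - σ * w) * (Real.cos α * Real.sin α) =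
      ((1 - σ) * (∫ φ in (0 : ℝ)..(2 * Real.pi), S φ) - 2 * Real.pi * σ * w) * (Real.cos α * Real.sin α) := by
    intro α
    have i1 : IntervalIntegrable (fun φ => S (φ + α)) volume 0 (2 * Real.pi) :=
      (hS.comp (continuous_id.add continuous_const)).intervalIntegrable _ _
    have i2 : IntervalIntegrable (fun φ => S (φ - α)) volume 0 (2 * Real.pi) :=
      (hS.comp (continuous_id.sub continuous_const)).intervalIntegrable _ _
    have e1 : ∫ φ in (0 : ℝ)..(2 * Real.pi), S (φ - α) = ∫ φ in (0 : ℝ)..(2 * Real.pi), S φ := by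
      have := DcO_per hp (-α)
      simpa only [sub_eq_add_neg] using this
    rw [intervalIntegral.integral_mul_const, intervalIntegral.integral_sub
      (((i1.add i2).div_const 2).const_mul (1 - σ)) intervalIntegrable_const,
      intervalIntegral.integral_const_mul, intervalIntegral.integral_div,
      intervalIntegral.integral_add i1 i2, DcO_per hp α, e1, intervalIntegral.integral_const]
    simp only [smul_eq_mul]
    ring
  rw [intervalIntegral.integral_congr (g := fun α => ((1 - σ) * (∫ φ in (0 : ℝ)..(2 * Real.pi), S φ) -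
    2 * Real.pi * σ * w) * (Real.cos α * Real.sin α)) (fun α _ => h1 α),
    intervalIntegral.integral_const_mul, DcO_cs]
  ring

/-- PROOF.  `S = F + G`.  `vol_ge_polar` with `s = 1 - σ`,
`T α φ = (1-σ) (S(φ+α) + S(φ-α))/2 - σ w` (`fibre_top`, `fibre_bot`).  Exchange the order of
integration, periodicity: `∫_φ S(φ ± α) = ∫ S`; `∫_0^{pi/2} cos α sin α = 1/2`:
`vol K >= (1-σ)^2 ((1-σ) (∫ S)/2 - pi σ w)`, and `(1-σ)^3 >= 1 - 3 σ`, `0 <= ∫ S <= 2 pi w`. -/
theorem vol_lower {K : Set E3} (hK : IsCompact K) (hc : Convex ℝ K) (hne : K.Nonempty)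
    (w δ σ : ℝ) (F G : ℝ → ℝ) (hF : Continuous F) (hG : Continuous G)
    (hFp : ∀ φ, F (φ + 2 * Real.pi) = F φ) (hGp : ∀ φ, G (φ + 2 * Real.pi) = G φ)
    (hz : ∀ y ∈ K, |y 2| ≤ w / 2) (h : ∀ φ, |supp K (eh φ) - 1| ≤ δ)
    (hP : ∀ φ, ∃ p ∈ K, F φ ≤ p 2 ∧ 1 - δ ≤ inner ℝ p (eh φ))
    (hQ : ∀ φ, ∃ q ∈ K, q 2 ≤ -G φ ∧ 1 - δ ≤ inner ℝ q (eh φ))
    (hS0 : ∀ φ, 0 ≤ F φ + G φ) (hSw : ∀ φ, F φ + G φ ≤ w) (hδ0 : 0 ≤ δ) (hσ : 0 < σ)
    (hσ1 : σ ≤ 1 / 4) (hδ : 80 * δ ≤ σ ^ 2) :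
    1 / 2 * (∫ φ in (0 : ℝ)..(2 * Real.pi), (F φ + G φ)) - 4 * Real.pi * σ * w ≤ vol K := by
  set S : ℝ → ℝ := fun φ => F φ + G φ with hSd
  have hS : Continuous S := hF.add hG
  have hSp : ∀ φ, S (φ + 2 * Real.pi) = S φ := by
    intro φ
    rw [hSd]
    simp only [hFp, hGp]
  have hw : 0 ≤ w := (hS0 0).trans (hSw 0)
  have hpi := Real.pi_pos
  have key := vol_ge_polar hK hc (1 - σ) (by linarith)
    (fun α φ => (1 - σ) * ((S (φ + α) + S (φ - α)) / 2) - σ * w) (by
      have h1 : Continuous fun q : ℝ × ℝ => S (q.2 + q.1) := hS.comp (continuous_snd.add continuous_fst)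
      have h2 : Continuous fun q : ℝ × ℝ => S (q.2 - q.1) := hS.comp (continuous_snd.sub continuous_fst)
      exact (continuous_const.mul ((h1.add h2).div_const 2)).sub continuous_const) (by
      intro α φ
      have e1 : φ + 2 * Real.pi + α = φ + α + 2 * Real.pi := by ring
      have e2 : φ + 2 * Real.pi - α = φ - α + 2 * Real.pi := by ring
      simp only [e1, e2, hSp]) (by
      intro α _ φ
      obtain ⟨y, hy, hy0, hy1, hy2⟩ := fibre_top hK hc hne w δ σ F hz h hP hδ0 hσ hσ1 hδ α φ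
      obtain ⟨x, hx, hx0, hx1, hx2⟩ := fibre_bot hK hc hne w δ σ G hz h hQ hδ0 hσ hσ1 hδ α φ
      refine ⟨x 2, y 2, ?_, ?_, ?_⟩
      · have e : (1 - σ) * ((S (φ + α) + S (φ - α)) / 2) - σ * w =
            ((1 - σ) * ((F (φ + α) + F (φ - α)) / 2) - σ * (w / 2)) +
            ((1 - σ) * ((G (φ + α) + G (φ - α)) / 2) - σ * (w / 2)) := by
          rw [hSd]
          ring
        rw [e]
        linarith
      · have e : (!₂[(1 - σ) * Real.cos α * Real.cos φ, (1 - σ) * Real.cos α * Real.sin φ, x 2] : E3) = x := by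
          ext i
          fin_cases i
          · exact hx0.symm
          · exact hx1.symm
          · rfl
        rw [e]
        exact hx
      · have e : (!₂[(1 - σ) * Real.cos α * Real.cos φ, (1 - σ) * Real.cos α * Real.sin φ, y 2] : E3) = y := by
          ext i
          fin_cases i
          · exact hy0.symm
          · exact hy1.symm
          · rfl
        rw [e]
        exact hy)
  rw [DcO_dbl S hS hSp w σ] at key
  have hI0 : 0 ≤ ∫ φ in (0 : ℝ)..(2 * Real.pi), S φ :=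
    intervalIntegral.integral_nonneg (by linarith) fun φ _ => hS0 φ
  have hI1 : ∫ φ in (0 : ℝ)..(2 * Real.pi), S φ ≤ 2 * Real.pi * w := by
    have h1 : ∫ φ in (0 : ℝ)..(2 * Real.pi), S φ ≤ ∫ φ in (0 : ℝ)..(2 * Real.pi), w :=
      intervalIntegral.integral_mono_on (by linarith) (hS.intervalIntegrable _ _) intervalIntegrable_const
        fun φ _ => hSw φ
    rw [intervalIntegral.integral_const, smul_eq_mul, sub_zero] at h1
    exact h1
  set I := ∫ φ in (0 : ℝ)..(2 * Real.pi), S φ with hI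
  refine le_trans ?_ key
  have e1 : (1 - σ) ^ 2 * ((1 - σ) / 2 * I - Real.pi * σ * w) = (1 - σ) ^ 3 / 2 * I - (1 - σ) ^ 2 * (Real.pi * σ * w) := by
    ring
  rw [e1]
  have h2 : 1 - 3 * σ ≤ (1 - σ) ^ 3 := by
    have : (1 - σ) ^ 3 - (1 - 3 * σ) = σ ^ 2 * (3 - σ) := by ring
    have h3 : 0 ≤ σ ^ 2 * (3 - σ) := mul_nonneg (sq_nonneg _) (by linarith)
    linarith
  have h4 : (1 - σ) ^ 2 ≤ 1 := by nlinarith
  have h5 : 0 ≤ Real.pi * σ * w := by positivity
  have h6 : (1 - 3 * σ) / 2 * I ≤ (1 - σ) ^ 3 / 2 * I := by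
    apply mul_le_mul_of_nonneg_right _ hI0
    linarith
  have h7 : (1 - σ) ^ 2 * (Real.pi * σ * w) ≤ 1 * (Real.pi * σ * w) := mul_le_mul_of_nonneg_right h4 h5
  have h8 : 3 * σ / 2 * I ≤ 3 * σ / 2 * (2 * Real.pi * w) := mul_le_mul_of_nonneg_left hI1 (by positivity)
  have e2 : 3 * σ / 2 * (2 * Real.pi * w) = 3 * (Real.pi * σ * w) := by ring
  have e3 : (1 - 3 * σ) / 2 * I = 1 / 2 * I - 3 * σ / 2 * I := by ring
  have e4 : 4 * Real.pi * σ * w = 4 * (Real.pi * σ * w) := by ring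
  rw [e4]
  linarith

end

end Pool.Agent.Lib.MP_dabcc9_gt
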