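import Pool.Agent.Lib.MP_dabcc9_gt.DcDefs

/-! JOB D15.  Parallelepipeds in a convex body. -/

open MeasureTheory Metric Set

namespace Pool.Agent.Lib.MP_dabcc9_gt

noncomputable section

theorem DcP_vol (v : Fin 3 → E3) :
    volume (parallelepiped v) = ENNReal.ofReal |Matrix.det (Matrix.of fun i j => (v i) j)| := by
  have h := Measure.addHaar_parallelepiped (EuclideanSpace.basisFun (Fin 3) ℝ).toBasis v
  rw [OrthonormalBasis.addHaar_eq_volume] at h
  rw [h]
  congr 2
  rw [Module.Basis.det_apply, ← Matrix.det_transpose]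
  congr 1

/-- PROOF.  `K` contains the points `1/3 ∑ i, (q i + t i • (p i - q i))`, `t ∈ [0,1]^3` (convex
combination), a translate of the image of the unit cube under a linear map with determinant
`det/27`: `Measure.addHaar_image_linearMap` (or `..._continuousLinearMap`), translation invariance,
volume of `[0,1]^3` in `EuclideanSpace` (`EuclideanSpace.volume_preserving_symm_measurableEquiv_toLp`
or similar, as used in `SphB_e_mp`). -/
theorem vol_ge_det {K : Set E3} (hK : IsCompact K) (hc : Convex ℝ K) (p q : Fin 3 → E3)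
    (hp : ∀ i, p i ∈ K) (hq : ∀ i, q i ∈ K) :
    |Matrix.det (Matrix.of fun i j => (p i) j - (q i) j)| / 27 ≤ vol K := by
  set v : Fin 3 → E3 := fun i => (1 / 3 : ℝ) • (p i - q i) with hv
  set c : E3 := ∑ i, (1 / 3 : ℝ) • q i with hcdef
  have hsub : parallelepiped v ⊆ (fun x => c + x) ⁻¹' K := by
    rintro x ⟨t, ht, rfl⟩
    show c + ∑ i, t i • v i ∈ K
    have e1 : c + ∑ i, t i • v i = ∑ i, (1 / 3 : ℝ) • (q i + t i • (p i - q i)) := by
      rw [hcdef, ← Finset.sum_add_distrib]
      refine Finset.sum_congr rfl fun i _ => ?_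
      rw [hv, smul_add, smul_comm (t i) (1 / 3 : ℝ)]
    rw [e1]
    refine hc.sum_mem (fun i _ => by norm_num) (by simp) fun i _ => ?_
    exact hc.add_smul_sub_mem (hq i) (hp i) ⟨ht.1 i, ht.2 i⟩
  have h1 : volume (parallelepiped v) ≤ volume K := by
    calc volume (parallelepiped v) ≤ volume ((fun x => c + x) ⁻¹' K) := measure_mono hsub
      _ = volume K := measure_preimage_add volume c K
  rw [DcP_vol] at h1
  have h2 : Matrix.det (Matrix.of fun i j => (v i) j) =
      (1 / 27) * Matrix.det (Matrix.of fun i j => (p i) j - (q i) j) := by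
    have e2 : (Matrix.of fun i j => (v i) j) =
        (1 / 3 : ℝ) • (Matrix.of fun i j => (p i) j - (q i) j) := by
      ext i j
      simp [hv]
    rw [e2, Matrix.det_smul]
    norm_num
  have h3 : |Matrix.det (Matrix.of fun i j => (p i) j - (q i) j)| / 27 =
      |Matrix.det (Matrix.of fun i j => (v i) j)| := by
    rw [h2, abs_mul, abs_of_pos (by norm_num : (0 : ℝ) < 1 / 27)]
    ring
  rw [h3]
  unfold vol
  have h4 := ENNReal.toReal_mono hK.measure_lt_top.ne h1
  rwa [ENNReal.toReal_ofReal (abs_nonneg _)] at h4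

end

end Pool.Agent.Lib.MP_dabcc9_gt
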