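import Pool.Agent.Lib.MP_dabcc9_gt.DcP
import Pool.Agent.Lib.MP_dabcc9_gt.DcH

/-! JOB D15b.  Minimal width and volume. -/

open MeasureTheory Metric Set

namespace Pool.Agent.Lib.MP_dabcc9_gt

noncomputable section

open scoped Pointwise in
/-- PROOF.  `D = K - K` is compact and convex.  If `v ∉ D` separate: `x` with `<d, x> < <v, x>` for
all `d ∈ D` (`x ≠ 0`, normalise `‖x‖ = 1`); `supp K x + supp K (-x) = max <p - q, x> < <v, x> <= w`,
contradiction. -/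
theorem diff_mem {K : Set E3} (hK : IsCompact K) (hc : Convex ℝ K) (hne : K.Nonempty) (w : ℝ)
    (h : ∀ x : E3, ‖x‖ = 1 → w ≤ supp K x + supp K (-x)) (v : E3) (hv : ‖v‖ ≤ w) :
    ∃ p ∈ K, ∃ q ∈ K, p - q = v := by
  by_contra hcon
  obtain ⟨-, hmax, -, -, -⟩ := supp_props hK hne
  have hsub : IsCompact (K - K) := by
    rw [sub_eq_add_neg]
    exact hK.add hK.neg
  have hconv : Convex ℝ (K - K) := hc.sub hc
  have hvn : v ∉ K - K := by
    intro hmem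
    obtain ⟨p, hp, q, hq, hpq⟩ := Set.mem_sub.1 hmem
    exact hcon ⟨p, hp, q, hq, hpq⟩
  obtain ⟨f, u, h1, h2⟩ := geometric_hahn_banach_closed_point hconv hsub.isClosed hvn
  set x0 : E3 := (InnerProductSpace.toDual ℝ E3).symm f with hx0
  have hf : ∀ y : E3, f y = inner ℝ y x0 := by
    intro y
    rw [real_inner_comm, hx0, InnerProductSpace.toDual_symm_apply]
  obtain ⟨k, hk⟩ := hne
  have hx0ne : x0 ≠ 0 := by
    intro h0
    have h3 := h1 (k - k) (Set.sub_mem_sub hk hk)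
    rw [hf, h0, inner_zero_right] at h3
    rw [hf, h0, inner_zero_right] at h2
    linarith
  have hn : 0 < ‖x0‖ := norm_pos_iff.2 hx0ne
  have hunit : ‖(‖x0‖⁻¹ • x0 : E3)‖ = 1 := by
    rw [norm_smul, norm_inv, norm_norm, inv_mul_cancel₀ hn.ne']
  have h4 := h _ hunit
  obtain ⟨p, hp, hp2⟩ := hmax (‖x0‖⁻¹ • x0)
  obtain ⟨q, hq, hq2⟩ := hmax (-(‖x0‖⁻¹ • x0))
  rw [hp2, hq2, inner_neg_right, real_inner_smul_right, real_inner_smul_right] at h4
  have h5 : inner ℝ p x0 - inner ℝ q x0 < inner ℝ v x0 := by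
    have h6 := h1 (p - q) (Set.sub_mem_sub hp hq)
    rw [hf, inner_sub_left] at h6
    rw [hf] at h2
    linarith
  have h7 : inner ℝ v x0 ≤ w * ‖x0‖ :=
    (real_inner_le_norm v x0).trans (mul_le_mul_of_nonneg_right hv hn.le)
  have h8 : ‖x0‖⁻¹ * (inner ℝ p x0 - inner ℝ q x0) < w := by
    rw [inv_mul_lt_iff₀ hn]
    linarith
  linarith

theorem DcP2_third {K : Set E3} {w : ℝ} (h : Nz K w) (i : Fin 3) :
    ∃ p ∈ K, ∃ q ∈ K, p - q = w • eb i := by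
  refine diff_mem h.comp h.conv h.ne w h.wid _ ?_
  rw [norm_smul, norm_eb, mul_one, Real.norm_eq_abs, abs_of_nonneg h.w_nonneg]

theorem DcP2_coord {w : ℝ} {p q : E3} {i : Fin 3} (h : p - q = w • eb i) (j : Fin 3) :
    p j - q j = if i = j then w else 0 := by
  have h1 : (p - q) j = (w • eb i : E3) j := by rw [h]
  have h2 : (p - q) j = p j - q j := rfl
  rw [← h2, h1]
  by_cases c : i = j
  · rw [if_pos c, ← c]
    simp [eb]
  · rw [if_neg c]
    simp [eb, Ne.symm c]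

/-- `diff_mem` for the three vectors `w • eb i`, determinant `w^3`. -/
theorem w_cube {K : Set E3} {w : ℝ} (h : Nz K w) : w ^ 3 / 27 ≤ vol K := by
  choose p hp q hq hpq using fun i => DcP2_third h i
  have h1 := vol_ge_det h.comp h.conv p q hp hq
  have h2 : (Matrix.of fun i j => (p i) j - (q i) j) = Matrix.diagonal (fun _ : Fin 3 => w) := by
    apply Matrix.ext
    intro i j
    rw [Matrix.of_apply, DcP2_coord (hpq i) j, Matrix.diagonal_apply]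
  rw [h2, Matrix.det_diagonal, Finset.prod_const, Finset.card_univ, Fintype.card_fin,
    abs_of_nonneg (pow_nonneg h.w_nonneg 3)] at h1
  exact h1

theorem DcP2_hor {a b M : ℝ} (hM : ∀ φ : ℝ, Real.cos φ * a + Real.sin φ * b ≤ M) :
    a ^ 2 + b ^ 2 ≤ M ^ 2 := by
  set z : ℂ := ⟨a, b⟩ with hz
  have h1 := hM (Complex.arg z)
  have h2 : ‖z‖ * Real.cos (Complex.arg z) = a := Complex.norm_mul_cos_arg z
  have h3 : ‖z‖ * Real.sin (Complex.arg z) = b := Complex.norm_mul_sin_arg z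
  have h4 := Real.sin_sq_add_cos_sq (Complex.arg z)
  have h5 : ‖z‖ ≤ M := by
    have h6 : Real.cos (Complex.arg z) * a + Real.sin (Complex.arg z) * b = ‖z‖ := by
      rw [← h2, ← h3]
      linear_combination ‖z‖ * h4
    linarith
  have h7 : a ^ 2 + b ^ 2 = ‖z‖ ^ 2 := by
    rw [← h2, ← h3]
    linear_combination ‖z‖ ^ 2 * h4
  rw [h7]
  exact pow_le_pow_left₀ (norm_nonneg z) h5 2

/-- the point of `K` maximising `<., eh φ>` -/
theorem DcP2_pt {K : Set E3} {w : ℝ} (h : Nz K w) (δ : ℝ)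
    (hr : ∀ φ, |supp K (eh φ) - 1| ≤ δ) (φ : ℝ) :
    ∃ p ∈ K, 1 - δ ≤ Real.cos φ * p 0 + Real.sin φ * p 1 ∧ p 0 ^ 2 + p 1 ^ 2 ≤ (1 + δ) ^ 2 := by
  obtain ⟨hle, hmax, -, -, -⟩ := supp_props h.comp h.ne
  obtain ⟨p, hp, hp2⟩ := hmax (eh φ)
  refine ⟨p, hp, ?_, ?_⟩
  · rw [← inner_eh, ← hp2]
    have := (abs_le.1 (hr φ)).1
    linarith
  · refine DcP2_hor fun ψ => ?_
    rw [← inner_eh]
    have h1 := hle p hp (eh ψ)
    have h2 := (abs_le.1 (hr ψ)).2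
    linarith

/-- PROOF.  Third pair from `diff_mem` with `v = w • eb 2`.  First pair: `p` maximises `<·, eh 0>`,
`q` maximises `<·, eh pi>`; `p 0 >= 1 - δ`, and `p 0 ^ 2 + p 1 ^ 2 <= (1 + δ)^2` (write the
horizontal part as `ρ • eh ψ`), so `|p 1| <= 2 sqrt δ`; same for `q`.  Second pair with
`eh (pi/2)`, `eh (3 pi/2)`.  The determinant is `w (d1_0 d2_1 - d1_1 d2_0)`, at least
`w ((2 - 2δ)^2 - 16 δ) >= w`. -/
theorem w_linear {K : Set E3} {w : ℝ} (h : Nz K w) (δ : ℝ) (hδ0 : 0 ≤ δ) (hδ : δ ≤ 1 / 8)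
    (hr : ∀ φ, |supp K (eh φ) - 1| ≤ δ) : w / 27 ≤ vol K := by
  obtain ⟨a, ha, ha1, ha2⟩ := DcP2_pt h δ hr 0
  obtain ⟨a', ha', ha1', ha2'⟩ := DcP2_pt h δ hr Real.pi
  obtain ⟨b, hb, hb1, hb2⟩ := DcP2_pt h δ hr (Real.pi / 2)
  obtain ⟨b', hb', hb1', hb2'⟩ := DcP2_pt h δ hr (-(Real.pi / 2))
  obtain ⟨c, hc, c', hc', hcc⟩ := DcP2_third h 2
  have e0 := DcP2_coord hcc 0
  have e1 := DcP2_coord hcc 1
  have e2 := DcP2_coord hcc 2
  rw [if_neg (by decide)] at e0 e1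
  rw [if_pos rfl] at e2
  rw [Real.cos_zero, Real.sin_zero] at ha1
  rw [Real.cos_pi, Real.sin_pi] at ha1'
  rw [Real.cos_pi_div_two, Real.sin_pi_div_two] at hb1
  rw [Real.cos_neg, Real.sin_neg, Real.cos_pi_div_two, Real.sin_pi_div_two] at hb1'
  have h1 := vol_ge_det h.comp h.conv ![a, b, c] ![a', b', c']
    (by intro i; fin_cases i <;> assumption) (by intro i; fin_cases i <;> assumption)
  have h2 : Matrix.det (Matrix.of fun i j => (![a, b, c] i) j - (![a', b', c'] i) j) =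
      w * ((a 0 - a' 0) * (b 1 - b' 1) - (a 1 - a' 1) * (b 0 - b' 0)) := by
    rw [Matrix.det_fin_three]
    simp only [Matrix.of_apply, Matrix.cons_val_zero, Matrix.cons_val_one, Matrix.cons_val_two,
      Matrix.head_cons, Matrix.tail_cons]
    rw [e0, e1, e2]
    ring
  rw [h2] at h1
  have hw := h.w_nonneg
  have q1 : a 1 ^ 2 ≤ 4 * δ := by nlinarith [sq_nonneg (a 0 - (1 - δ))]
  have q2 : a' 1 ^ 2 ≤ 4 * δ := by nlinarith [sq_nonneg (a' 0 + (1 - δ))]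
  have q3 : b 0 ^ 2 ≤ 4 * δ := by nlinarith [sq_nonneg (b 1 - (1 - δ))]
  have q4 : b' 0 ^ 2 ≤ 4 * δ := by nlinarith [sq_nonneg (b' 1 + (1 - δ))]
  have r1 : 2 - 2 * δ ≤ a 0 - a' 0 := by linarith
  have r2 : 2 - 2 * δ ≤ b 1 - b' 1 := by linarith
  have s1 : (a 1 - a' 1) * (b 0 - b' 0) ≤ 16 * δ := by
    nlinarith [sq_nonneg (a 1 + a' 1), sq_nonneg (b 0 + b' 0),
      sq_nonneg ((a 1 - a' 1) - (b 0 - b' 0))]
  have s2 : (2 - 2 * δ) * (2 - 2 * δ) ≤ (a 0 - a' 0) * (b 1 - b' 1) :=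
    mul_le_mul r1 r2 (by linarith) (by linarith)
  have s3 : 1 ≤ (a 0 - a' 0) * (b 1 - b' 1) - (a 1 - a' 1) * (b 0 - b' 0) := by
    nlinarith
  have s4 : w ≤ |w * ((a 0 - a' 0) * (b 1 - b' 1) - (a 1 - a' 1) * (b 0 - b' 0))| :=
    le_trans (by nlinarith) (le_abs_self _)
  linarith

end

end Pool.Agent.Lib.MP_dabcc9_gt
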