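import Pool.Agent.Lib.MP_dabcc9_gt.LimA

/-! JOB F2. General convex bodies. -/

open MeasureTheory Metric Set MvPolynomial Filter Topology
open scoped Pointwise

namespace Pool.Agent.Lib.MP_dabcc9_gt

noncomputable section

private lemma LimB_thick {K : Set E3} (hK : IsCompact K) (a : E3) {t : ℝ} (ht : 0 ≤ t) :
    vol (cthickening t (K + ({a} : Set E3))) = vol (cthickening t K) := by
  have h1 : cthickening t (K + ({a} : Set E3)) = cthickening t K + ({a} : Set E3) := by
    rw [← (hK.add isCompact_singleton).add_closedBall_zero ht, add_right_comm,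
      hK.add_closedBall_zero ht]
  unfold vol
  rw [h1, Set.add_singleton, Set.image_add_right, measure_preimage_add_right]

private lemma LimB_supp {K : Set E3} (hK : IsCompact K) (hne : K.Nonempty) (a x : E3) :
    supp (K + ({a} : Set E3)) x = supp K x + inner ℝ a x := by
  obtain ⟨s1, s2, -⟩ := supp_props hK hne
  obtain ⟨t1, t2, -⟩ := supp_props (hK.add (isCompact_singleton (x := a)))
    (hne.add (Set.singleton_nonempty a))
  apply le_antisymm
  · obtain ⟨z, hz, h⟩ := t2 x
    rw [h]
    obtain ⟨y, hy, b, hb, rfl⟩ := Set.mem_add.1 hz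
    rw [Set.mem_singleton_iff.1 hb, inner_add_left]
    have := s1 y hy x
    linarith
  · obtain ⟨y, hy, h⟩ := s2 x
    rw [h, ← inner_add_left]
    exact t1 _ (Set.add_mem_add hy (Set.mem_singleton a)) x

private lemma LimB_av_neg (f : E3 → ℝ) : av (fun x => f (-x)) = av f :=
  av_comp_isometry (LinearIsometryEquiv.neg ℝ) f

private lemma LimB_av_lin (a : E3) : av (fun x => inner ℝ a x) = 0 := by
  have h1 := LimB_av_neg (fun x => inner ℝ a x)
  have h2 : (fun x : E3 => inner ℝ a (-x)) = fun x => (-1 : ℝ) * inner ℝ a x := by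
    funext x
    rw [inner_neg_right]
    ring
  rw [h2, av_const_mul] at h1
  linarith

/-- Translation. PROOF: `K' = K - a`, `a ∈ K`; `vol (cthickening t K') = vol (cthickening t K)`,
`supp K' x = supp K x - inner a x`, and `av` of a linear function is zero. -/
theorem steiner_limit' {K : Set E3} (hK : IsCompact K) (hc : Convex ℝ K) (hne : K.Nonempty) :
    ∃ x y : ℝ, (∀ t : ℝ, 0 ≤ t → vol (cthickening t K) = 4 * Real.pi / 3 *
        (y + 3 * t * x + 3 * t ^ 2 * av (supp K) + t ^ 3)) ∧
      (av (supp K) ^ 2 - x) ^ 2 / 32000 ≤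
        y * av (supp K) - 6 * x * av (supp K) ^ 2 + 5 * av (supp K) ^ 4 := by
  obtain ⟨a, ha⟩ := hne
  have hne : K.Nonempty := ⟨a, ha⟩
  have hav : av (supp (K + ({-a} : Set E3))) = av (supp K) := by
    have h1 : supp (K + ({-a} : Set E3)) = fun x => supp K x + inner ℝ (-a) x := by
      funext x
      exact LimB_supp hK hne (-a) x
    rw [h1, av_add, LimB_av_lin, add_zero]
    · exact (supp_props hK hne).2.2.2.2.continuousOn
    · exact (continuous_const.inner continuous_id).continuousOn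
  have h0 : (0 : E3) ∈ K + ({-a} : Set E3) := by
    refine Set.mem_add.2 ⟨a, ha, -a, Set.mem_singleton _, ?_⟩
    exact add_neg_cancel a
  obtain ⟨x, y, h1, h2⟩ := steiner_limit (hK.add isCompact_singleton)
    (hc.add (convex_singleton _)) h0
  rw [hav] at h1 h2
  refine ⟨x, y, fun t ht => ?_, h2⟩
  rw [← LimB_thick hK (-a) ht]
  exact h1 t ht

private lemma LimB_width {K : Set E3} (hK : IsCompact K) (hne : K.Nonempty) :
    meanWidth K = 2 * av (supp K) := by
  have hcont := (supp_props hK hne).2.2.2.2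
  unfold meanWidth
  rw [av_add (f := supp K) (g := fun x => supp K (-x)) hcont.continuousOn
    (hcont.comp continuous_neg).continuousOn, LimB_av_neg (supp K)]
  ring

/-- `meanWidth K = 2 av (supp K)`: `av` is invariant under `x ↦ -x`. -/
theorem curvM_eq {K : Set E3} (hK : IsCompact K) (hne : K.Nonempty) :
    curvM K = 4 * Real.pi * av (supp K) := by
  unfold curvM
  rw [LimB_width hK hne]
  ring

/-- Two different points `a, b` give `supp K x + supp K (-x) >= |inner (a - b) x|`. -/
theorem av_supp_pos {K : Set E3} (hK : IsCompact K) (hn : K.Nontrivial) :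
    0 < av (supp K) := by
  have hne := hn.nonempty
  obtain ⟨s1, s2, -, -, hcont⟩ := supp_props hK hne
  obtain ⟨a, ha, b, hb, hab⟩ := hn
  have hw : ∀ x : E3, |inner ℝ (a - b) x| ≤ supp K x + supp K (-x) := by
    intro x
    rw [abs_le, inner_sub_left]
    have h1 := s1 a ha x
    have h2 := s1 b hb x
    have h3 := s1 a ha (-x)
    have h4 := s1 b hb (-x)
    rw [inner_neg_right] at h3 h4
    constructor <;> linarith
  have hnn : ∀ x : E3, ‖x‖ = 1 → 0 ≤ supp K x + supp K (-x) := fun x _ =>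
    (abs_nonneg _).trans (hw x)
  have h0 : 0 ≤ meanWidth K := av_nonneg hnn
  rw [LimB_width hK hne] at h0
  rcases (by linarith : 0 ≤ av (supp K)).lt_or_eq with h | h
  · exact h
  · exfalso
    have h2 : meanWidth K = 0 := by
      rw [LimB_width hK hne, ← h]
      ring
    have h3 := av_eq_zero (f := fun x => supp K x + supp K (-x))
      (hcont.add (hcont.comp continuous_neg)).continuousOn hnn h2
    have hn0 : ‖a - b‖ ≠ 0 := norm_ne_zero_iff.2 (sub_ne_zero.2 hab)
    have h4 := h3 (‖a - b‖⁻¹ • (a - b)) (by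
      rw [norm_smul, norm_inv, norm_norm, inv_mul_cancel₀ hn0])
    have h5 := hw (‖a - b‖⁻¹ • (a - b))
    have h6 : inner ℝ (a - b) (‖a - b‖⁻¹ • (a - b)) = ‖a - b‖ := by
      rw [real_inner_smul_right, real_inner_self_eq_norm_sq, sq, ← mul_assoc, inv_mul_cancel₀ hn0,
        one_mul]
    rw [h6, abs_of_nonneg (norm_nonneg _)] at h5
    have h7 : 0 < ‖a - b‖ := lt_of_le_of_ne (norm_nonneg _) (Ne.symm hn0)
    have h8 : supp K (‖a - b‖⁻¹ • (a - b)) + supp K (-(‖a - b‖⁻¹ • (a - b))) = 0 := h4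
    linarith

/-- From `steiner_limit'`: the function is a cubic polynomial on `Ici 0`, derivative
`4 pi x` at `0`. `cthickening 0 K = K` for closed `K`. -/
theorem body_values {K : Set E3} (hK : IsBody K) :
    DifferentiableWithinAt ℝ (fun t => vol (cthickening t K)) (Ici 0) 0 ∧
    6 * bX K - 5 + (1 - bX K) ^ 2 / 32000 ≤ bY K ∧ bX K = surf K / (4 * Real.pi * av (supp K) ^ 2) ∧
    bY K = 3 * vol K / (4 * Real.pi * av (supp K) ^ 3) := by
  obtain ⟨hKc, hKv, hKn⟩ := hK
  obtain ⟨x, y, h1, h2⟩ := steiner_limit' hKc hKv hKn.nonempty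
  have hm := av_supp_pos hKc hKn
  have hM := curvM_eq hKc hKn.nonempty
  obtain ⟨m, hmd⟩ : ∃ m, m = av (supp K) := ⟨_, rfl⟩
  rw [← hmd] at h1 h2 hm hM ⊢
  have hpi := Real.pi_pos
  have hd : HasDerivWithinAt (fun t => vol (cthickening t K)) (4 * Real.pi * x) (Ici 0) 0 := by
    have h3 : HasDerivAt (fun t : ℝ => 4 * Real.pi / 3 *
        (y + 3 * t * x + 3 * t ^ 2 * m + t ^ 3)) (4 * Real.pi * x) 0 := by
      have e1 : HasDerivAt (fun t : ℝ => 3 * t * x) (3 * 1 * x) 0 :=
        ((hasDerivAt_id (0 : ℝ)).const_mul 3).mul_const x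
      have e2 := ((hasDerivAt_pow 2 (0 : ℝ)).const_mul 3).mul_const m
      have e3 := hasDerivAt_pow 3 (0 : ℝ)
      have e4 := (((e1.const_add y).add e2).add e3).const_mul (4 * Real.pi / 3)
      refine e4.congr_deriv ?_
      norm_num
      ring
    exact h3.hasDerivWithinAt.congr (fun t ht => h1 t ht) (h1 0 le_rfl)
  have hsurf : surf K = 4 * Real.pi * x := hd.derivWithin (uniqueDiffWithinAt_Ici 0)
  have hvol : vol K = 4 * Real.pi / 3 * y := by
    have h3 := h1 0 le_rfl
    rw [cthickening_zero, hKc.isClosed.closure_eq] at h3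
    rw [h3]
    ring
  refine ⟨hd.differentiableWithinAt, ?_, ?_, ?_⟩
  · unfold bX bY
    rw [hM, hsurf, hvol]
    have h3 : 4 * Real.pi * (4 * Real.pi * x) / (4 * Real.pi * m) ^ 2 = x / m ^ 2 := by
      field_simp
    have h4 : 48 * Real.pi ^ 2 * (4 * Real.pi / 3 * y) / (4 * Real.pi * m) ^ 3 = y / m ^ 3 := by
      field_simp
      ring
    rw [h3, h4]
    have h5 : y / m ^ 3 = y * m / m ^ 4 := by
      field_simp
    rw [h5, le_div_iff₀ (by positivity)]
    have h6 : (6 * (x / m ^ 2) - 5 + (1 - x / m ^ 2) ^ 2 / 32000) * m ^ 4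
        = 6 * x * m ^ 2 - 5 * m ^ 4 + (m ^ 2 - x) ^ 2 / 32000 := by
      field_simp
    rw [h6]
    linarith
  · unfold bX
    rw [hM, hsurf]
    field_simp
  · unfold bY
    rw [hM, hvol]
    field_simp
    ring

end

end Pool.Agent.Lib.MP_dabcc9_gt
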