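import Pool.Agent.Lib.MP_dabcc9_gt.McA

/-! JOB M3.  Volume of a ball with many caps cut off. -/

open MeasureTheory Metric Set

namespace Pool.Agent.Lib.MP_dabcc9_gt

noncomputable section

/-- `vol_capB` with `c = 1` (or Mathlib's volume of a ball). -/
theorem vol_unit_ball : vol (closedBall (0 : E3) 1) = 4 * Real.pi / 3 := by
  have h1 : closedBall (0 : E3) 1 = capB 1 := by
    ext x
    rw [CapA_mem_capB, mem_closedBall_zero_iff, CapA_norm_le]
    constructor
    · intro hx
      refine ⟨hx, ?_⟩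
      nlinarith [sq_nonneg (x 0), sq_nonneg (x 1), sq_nonneg (x 2 - 1)]
    · intro hx
      exact hx.1
  rw [h1, vol_capB 1 zero_le_one le_rfl]
  ring

/-- Linear isometries preserve the volume (`LinearIsometryEquiv.measurePreserving`). -/
theorem vol_iso (R : E3 ≃ₗᵢ[ℝ] E3) (s : Set E3) : vol (R '' s) = vol s := by
  have h1 : R '' s = R.symm ⁻¹' s := by
    ext x
    constructor
    · rintro ⟨y, hy, rfl⟩
      simpa using hy
    · intro hx
      exact ⟨R.symm x, hx, by simp⟩
  have h2 : volume (R.symm ⁻¹' s) = volume s :=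
    R.symm.measurePreserving.measure_preimage_emb
      R.symm.toHomeomorph.measurableEmbedding s
  unfold vol
  rw [h1, h2]

theorem McC_meas (v : E3) (c : ℝ) : MeasurableSet (cap1 v c) := by
  have h1 : IsClosed {x : E3 | ‖x‖ ≤ 1} := isClosed_le (by fun_prop) (by fun_prop)
  have h2 : IsClosed {x : E3 | inner ℝ x v ≤ c} := isClosed_le (by fun_prop) (by fun_prop)
  exact (h1.inter h2).measurableSet

theorem McC_sub (v : E3) (c : ℝ) : cap1 v c ⊆ closedBall (0 : E3) 1 := by
  intro x hx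
  rw [mem_closedBall_zero_iff]
  exact hx.1

theorem McC_fin {s : Set E3} (h : s ⊆ closedBall (0 : E3) 1) : volume s ≠ ⊤ :=
  ((Metric.isBounded_closedBall.subset h).measure_lt_top).ne

theorem McC_cap (v : E3) (hv : ‖v‖ = 1) (c : ℝ) (hc : 0 ≤ c) (hc1 : c ≤ 1) :
    volume.real (closedBall (0 : E3) 1 \ cap1 v c) = Real.pi * (2 / 3 - c + c ^ 3 / 3) := by
  obtain ⟨R, hR⟩ := exists_iso v hv
  have h1 : volume.real (cap1 v c) = Real.pi * (2 / 3 + c - c ^ 3 / 3) := by
    rw [← vol_capB c hc hc1, ← vol_iso R (capB c), ← cap1_image v R hR c]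
    rfl
  have h2 : volume.real (closedBall (0 : E3) 1) = 4 * Real.pi / 3 := vol_unit_ball
  rw [measureReal_sdiff (McC_sub v c) (McC_meas v c) (McC_fin Subset.rfl), h1, h2]
  ring

/-- PROOF.  `closedBall 0 1` is the disjoint union of `mcap n c` and the sets
`closedBall 0 1 \ cap1 (n i) c` (pairwise disjoint by `sep_key_lt` with `r = 1`), each of volume
`4 pi/3 - vol (capB c)` (`cap1_image`, `vol_iso`, `vol_capB`). -/
theorem vol_mcap {N : ℕ} {n : Fin N → E3} {c : ℝ} (h : Sep n c) (hc : 0 ≤ c) (hc1 : c ≤ 1) :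
    vol (mcap n c) = 4 * Real.pi / 3 - N * (Real.pi * (2 / 3 - c + c ^ 3 / 3)) := by
  set D : Fin N → Set E3 := fun i => closedBall (0 : E3) 1 \ cap1 (n i) c with hD
  have hDm : ∀ i, MeasurableSet (D i) := fun i =>
    Metric.isClosed_closedBall.measurableSet.diff (McC_meas (n i) c)
  have hDs : ∀ i, D i ⊆ closedBall (0 : E3) 1 := fun i => sdiff_subset
  have hmemD : ∀ i x, x ∈ D i ↔ ‖x‖ ≤ 1 ∧ c < inner ℝ x (n i) := by
    intro i x
    simp only [hD, Set.mem_sdiff, mem_closedBall_zero_iff, cap1, Set.mem_ofPred_eq, not_and, not_le]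
    constructor
    · rintro ⟨h1, h2⟩
      exact ⟨h1, h2 h1⟩
    · rintro ⟨h1, h2⟩
      exact ⟨h1, fun _ => h2⟩
  have hdisj : Pairwise (Function.onFun Disjoint D) := by
    intro i j hij
    rw [Function.onFun, Set.disjoint_left]
    intro x hxi hxj
    obtain ⟨h1, h2⟩ := (hmemD i x).1 hxi
    obtain ⟨_, h3⟩ := (hmemD j x).1 hxj
    have h4 := sep_key_lt h hij (x := x) (r := 1) h1 (by rw [mul_one]; exact h2)
    rw [mul_one] at h4
    linarith
  have hm : mcap n c = closedBall (0 : E3) 1 \ ⋃ i, D i := by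
    ext x
    simp only [mcap, Set.mem_ofPred_eq, Set.mem_sdiff, mem_closedBall_zero_iff, Set.mem_iUnion,
      not_exists, hmemD, not_and, not_lt]
    constructor
    · rintro ⟨h1, h2⟩
      exact ⟨h1, fun i _ => h2 i⟩
    · rintro ⟨h1, h2⟩
      exact ⟨h1, fun i => h2 i h1⟩
  have hU : (⋃ i, D i) ⊆ closedBall (0 : E3) 1 := Set.iUnion_subset hDs
  have hUv : volume.real (⋃ i, D i) = N * (Real.pi * (2 / 3 - c + c ^ 3 / 3)) := by
    rw [measureReal_def, measure_iUnion hdisj hDm, tsum_fintype,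
      ENNReal.toReal_sum (fun i _ => McC_fin (hDs i))]
    have h5 : ∀ i, (volume (D i)).toReal = Real.pi * (2 / 3 - c + c ^ 3 / 3) := fun i =>
      McC_cap (n i) (h.1 i) c hc hc1
    rw [Finset.sum_congr rfl fun i _ => h5 i, Finset.sum_const, Finset.card_univ,
      Fintype.card_fin, nsmul_eq_mul]
  have h6 : vol (mcap n c) = volume.real (closedBall (0 : E3) 1 \ ⋃ i, D i) := by
    rw [hm]; rfl
  have h2 : volume.real (closedBall (0 : E3) 1) = 4 * Real.pi / 3 := vol_unit_ball
  rw [h6, measureReal_sdiff hU (MeasurableSet.iUnion hDm) (McC_fin Subset.rfl), hUv, h2]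

end

end Pool.Agent.Lib.MP_dabcc9_gt
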