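import Pool.Agent.Lib.MP_dabcc9_gt.DcDefs
import Pool.Agent.Lib.MP_dabcc9_gt.LimB
import Pool.Agent.Lib.MP_dabcc9_gt.McC

/-! JOB D16.  Support functions of images; invariance under scaling. -/

open MeasureTheory Metric Set
open scoped Pointwise

namespace Pool.Agent.Lib.MP_dabcc9_gt

noncomputable section

theorem supp_smul_set {K : Set E3} (l : ℝ) (hl : 0 < l) (x : E3) :
    supp (l • K) x = l * supp K x := by
  unfold supp
  have h1 : (fun y : E3 => inner ℝ y x) '' (l • K) = l • ((fun y : E3 => inner ℝ y x) '' K) := by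
    rw [← Set.image_smul, ← Set.image_smul, Set.image_image, Set.image_image]
    refine Set.image_congr fun y _ => ?_
    rw [real_inner_smul_left, smul_eq_mul]
  rw [h1, Real.sSup_smul_of_nonneg hl.le, smul_eq_mul]

theorem supp_add_set {K : Set E3} (hK : IsCompact K) (hne : K.Nonempty) (a x : E3) :
    supp (K + ({a} : Set E3)) x = supp K x + inner ℝ a x := by
  obtain ⟨s1, s2, -⟩ := supp_props hK hne
  obtain ⟨t1, t2, -⟩ := supp_props (hK.add (isCompact_singleton (x := a)))
    (hne.add (Set.singleton_nonempty a))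
  apply le_antisymm
  · obtain ⟨z, hz, h⟩ := t2 x
    rw [h]
    obtain ⟨y, hy, b, hb, rfl⟩ := Set.mem_add.1 hz
    rw [Set.mem_singleton_iff.1 hb, inner_add_left]
    have := s1 y hy x
    linarith
  · obtain ⟨y, hy, h⟩ := s2 x
    rw [h, ← inner_add_left]
    exact t1 _ (Set.add_mem_add hy (Set.mem_singleton a)) x

/-- See `McB_supp_image` in `McB.lean`. -/
theorem supp_iso_set (R : E3 ≃ₗᵢ[ℝ] E3) (K : Set E3) (x : E3) :
    supp (R '' K) x = supp K (R.symm x) := by
  unfold supp
  rw [Set.image_image]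
  congr 1
  refine Set.image_congr fun y _ => ?_
  rw [← LinearIsometryEquiv.inner_map_map R y (R.symm x), LinearIsometryEquiv.apply_symm_apply]

/-- Volume of a dilate. -/
theorem DcQ_vol_smul (s : Set E3) (l : ℝ) (hl : 0 < l) : vol (l • s) = l ^ 3 * vol s := by
  unfold vol
  rw [MeasureTheory.Measure.addHaar_smul, ENNReal.toReal_mul]
  have h3 : Module.finrank ℝ E3 = 3 := by simp
  rw [h3, ENNReal.toReal_ofReal (abs_nonneg _), abs_of_pos (pow_pos hl 3)]

/-- Parallel body of a dilate. -/
theorem DcQ_thick {K : Set E3} (hK : IsCompact K) (l : ℝ) (hl : 0 < l) (t : ℝ) (ht : 0 ≤ t) :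
    cthickening t (l • K) = l • cthickening (t / l) K := by
  rw [← (hK.smul l).add_closedBall_zero ht, ← hK.add_closedBall_zero (div_nonneg ht hl.le),
    smul_add, smul_closedBall l (0 : E3) (div_nonneg ht hl.le), smul_zero,
    Real.norm_of_nonneg hl.le, mul_div_cancel₀ _ hl.ne']

/-- PROOF.  `cthickening t (l • K) = l • cthickening (t/l) K`, volume `l^3 vol (cthickening (t/l) K)`
(`Measure.addHaar_smul`), chain rule for `derivWithin` at `0` (the derivative exists,
`body_values.1`): `surf (l • K) = l^2 surf K`, `vol (l • K) = l^3 vol K`,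
`av (supp (l • K)) = l av (supp K)`; `body_values` expresses `bX`, `bY`. -/
theorem inv_smul {K : Set E3} (hK : IsBody K) (l : ℝ) (hl : 0 < l) :
    IsBody (l • K) ∧ bX (l • K) = bX K ∧ bY (l • K) = bY K := by
  obtain ⟨hKc, hKv, hKn⟩ := hK
  have hb : IsBody (l • K) := by
    refine ⟨hKc.smul l, hKv.smul l, ?_⟩
    obtain ⟨a, ha, b, hb, hab⟩ := hKn
    refine ⟨l • a, Set.smul_mem_smul_set ha, l • b, Set.smul_mem_smul_set hb, ?_⟩
    intro h
    exact hab (smul_right_injective E3 hl.ne' h)
  obtain ⟨hd, -, hx, hy⟩ := body_values (K := K) ⟨hKc, hKv, hKn⟩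
  obtain ⟨-, -, hx', hy'⟩ := body_values hb
  have hav : av (supp (l • K)) = l * av (supp K) := by
    have h1 : supp (l • K) = fun x => l * supp K x := by
      funext x
      exact supp_smul_set l hl x
    rw [h1, av_const_mul]
  have hvol : vol (l • K) = l ^ 3 * vol K := DcQ_vol_smul K l hl
  have hsurf : surf (l • K) = l ^ 2 * surf K := by
    have h1 : HasDerivWithinAt (fun t => vol (cthickening t K)) (surf K) (Ici 0) 0 :=
      hd.hasDerivWithinAt
    have h2 : HasDerivWithinAt (fun t : ℝ => t / l) (1 / l) (Ici 0) 0 :=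
      ((hasDerivAt_id (0 : ℝ)).div_const l).hasDerivWithinAt
    have h0 : (0 : ℝ) / l = 0 := zero_div l
    have h1' : HasDerivWithinAt (fun t => vol (cthickening t K)) (surf K) (Ici 0) ((0 : ℝ) / l) := by
      rw [h0]
      exact h1
    have hmaps : MapsTo (fun t : ℝ => t / l) (Ici 0) (Ici 0) := fun t ht =>
      Set.mem_Ici.2 (div_nonneg (Set.mem_Ici.1 ht) hl.le)
    have h3 := (HasDerivWithinAt.comp (0 : ℝ) h1' h2 hmaps).const_mul (l ^ 3)
    have h4 : HasDerivWithinAt (fun t => vol (cthickening t (l • K)))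
        (l ^ 3 * (surf K * (1 / l))) (Ici 0) 0 := by
      refine h3.congr (fun t ht => ?_) ?_
      · rw [DcQ_thick hKc l hl t (Set.mem_Ici.1 ht), DcQ_vol_smul _ l hl]
        rfl
      · rw [DcQ_thick hKc l hl 0 le_rfl, DcQ_vol_smul _ l hl]
        rfl
    have h5 : surf (l • K) = l ^ 3 * (surf K * (1 / l)) :=
      h4.derivWithin (uniqueDiffWithinAt_Ici 0)
    rw [h5]
    field_simp
  have hm := av_supp_pos hKc hKn
  have hpi := Real.pi_pos
  refine ⟨hb, ?_, ?_⟩
  · rw [hx', hx, hsurf, hav]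
    field_simp
  · rw [hy', hy, hvol, hav]
    field_simp

end

end Pool.Agent.Lib.MP_dabcc9_gt
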