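import Pool.Agent.Lib.MP_dabcc9_gt.DcQ

/-! JOB D16b.  Invariance under isometries and translations. -/

open MeasureTheory Metric Set
open scoped Pointwise

namespace Pool.Agent.Lib.MP_dabcc9_gt

noncomputable section

theorem DcQ2_thick_iso (K : Set E3) (R : E3 ≃ₗᵢ[ℝ] E3) (t : ℝ) :
    vol (cthickening t (R '' K)) = vol (cthickening t K) := by
  have h1 : cthickening t (R '' K) = R '' cthickening t K := by
    ext x
    have hx : infEDist x (R '' K) = infEDist (R.symm x) K := by
      have h := infEDist_image (t := K) (x := R.symm x) R.isometry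
      rw [R.apply_symm_apply] at h
      exact h
    constructor
    · intro h
      refine ⟨R.symm x, ?_, R.apply_symm_apply x⟩
      rw [mem_cthickening_iff] at h ⊢
      rwa [hx] at h
    · rintro ⟨y, hy, rfl⟩
      rw [mem_cthickening_iff] at hy ⊢
      rw [hx, R.symm_apply_apply]
      exact hy
  rw [h1, vol_iso]

/-- PROOF.  `cthickening t (R '' K) = R '' cthickening t K`, `vol_iso`, `av_comp_isometry`. -/
theorem inv_iso {K : Set E3} (hK : IsBody K) (R : E3 ≃ₗᵢ[ℝ] E3) :
    IsBody (R '' K) ∧ bX (R '' K) = bX K ∧ bY (R '' K) = bY K := by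
  have hsurf : surf (R '' K) = surf K := by
    unfold surf
    simp only [DcQ2_thick_iso]
  have hmw : meanWidth (R '' K) = meanWidth K := by
    unfold meanWidth
    simp only [supp_iso_set, map_neg]
    exact av_comp_isometry R.symm (fun x => supp K x + supp K (-x))
  refine ⟨⟨hK.1.image R.continuous, ?_, hK.2.2.image R.injective⟩, ?_, ?_⟩
  · exact hK.2.1.linear_image R.toLinearEquiv.toLinearMap
  · unfold bX curvM
    rw [hsurf, hmw]
  · unfold bY curvM
    rw [vol_iso, hmw]

theorem DcQ2_thick_add {K : Set E3} (hK : IsCompact K) (a : E3) {t : ℝ} (ht : 0 ≤ t) :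
    vol (cthickening t (K + ({a} : Set E3))) = vol (cthickening t K) := by
  have h1 : cthickening t (K + ({a} : Set E3)) = cthickening t K + ({a} : Set E3) := by
    rw [← (hK.add isCompact_singleton).add_closedBall_zero ht, add_right_comm,
      hK.add_closedBall_zero ht]
  unfold vol
  rw [h1, Set.add_singleton, Set.image_add_right, measure_preimage_add_right]

theorem DcQ2_av_lin (a : E3) : av (fun x => inner ℝ a x) = 0 := by
  have h1 : av (fun x => inner ℝ a (-x)) = av (fun x => inner ℝ a x) :=
    av_comp_isometry (LinearIsometryEquiv.neg ℝ) (fun x => inner ℝ a x)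
  have h2 : (fun x : E3 => inner ℝ a (-x)) = fun x => (-1 : ℝ) * inner ℝ a x := by
    funext x
    rw [inner_neg_right]
    ring
  rw [h2, av_const_mul] at h1
  linarith

theorem DcQ2_av_add {K : Set E3} (hK : IsCompact K) (hne : K.Nonempty) (a : E3) :
    av (supp (K + ({a} : Set E3))) = av (supp K) := by
  have h1 : supp (K + ({a} : Set E3)) = fun x => supp K x + inner ℝ a x := by
    funext x
    exact supp_add_set hK hne a x
  rw [h1, av_add, DcQ2_av_lin, add_zero]
  · exact (supp_props hK hne).2.2.2.2.continuousOn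
  · exact (continuous_const.inner continuous_id).continuousOn

/-- PROOF.  See `LimB_thick`, `LimB_supp` in `LimB.lean` (private there). -/
theorem inv_add {K : Set E3} (hK : IsBody K) (a : E3) :
    IsBody (K + ({a} : Set E3)) ∧ bX (K + ({a} : Set E3)) = bX K ∧
      bY (K + ({a} : Set E3)) = bY K := by
  have hne := hK.2.2.nonempty
  have hc : IsCompact (K + ({a} : Set E3)) := hK.1.add isCompact_singleton
  have hnt : (K + ({a} : Set E3)).Nontrivial := by
    rw [Set.add_singleton]
    exact hK.2.2.image (add_left_injective a)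
  have hsurf : surf (K + ({a} : Set E3)) = surf K := by
    unfold surf
    exact derivWithin_congr (fun t ht => DcQ2_thick_add hK.1 a ht)
      (DcQ2_thick_add hK.1 a le_rfl)
  have hvol : vol (K + ({a} : Set E3)) = vol K := by
    unfold vol
    rw [Set.add_singleton, Set.image_add_right, measure_preimage_add_right]
  have hcurv : curvM (K + ({a} : Set E3)) = curvM K := by
    rw [curvM_eq hc hnt.nonempty, curvM_eq hK.1 hne, DcQ2_av_add hK.1 hne]
  refine ⟨⟨hc, hK.2.1.add (convex_singleton _), hnt⟩, ?_, ?_⟩
  · unfold bX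
    rw [hsurf, hcurv]
  · unfold bY
    rw [hvol, hcurv]

end

end Pool.Agent.Lib.MP_dabcc9_gt
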