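import Pool.Agent.Lib.MP_dabcc9_gt.CapB
import Pool.Agent.Lib.MP_dabcc9_gt.CapC

/-! JOB M1.  Balls with many disjoint caps cut off. -/

open MeasureTheory Metric Set

namespace Pool.Agent.Lib.MP_dabcc9_gt

noncomputable section

/-- The unit ball with the caps `{<x, n i> > c}` cut off. -/
def mcap {N : ℕ} (n : Fin N → E3) (c : ℝ) : Set E3 := {x | ‖x‖ ≤ 1 ∧ ∀ i, inner ℝ x (n i) ≤ c}

/-- The unit ball with one cap cut off. -/
def cap1 (v : E3) (c : ℝ) : Set E3 := {x | ‖x‖ ≤ 1 ∧ inner ℝ x v ≤ c}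

/-- Unit vectors whose caps of angular radius `arccos c` do not overlap. -/
def Sep {N : ℕ} (n : Fin N → E3) (c : ℝ) : Prop :=
  (∀ i, ‖n i‖ = 1) ∧ ∀ i j, i ≠ j → ‖n i + n j‖ ≤ 2 * c

/-- `<x, n i + n j> <= ‖x‖ ‖n i + n j‖ <= 2 c r`. -/
theorem sep_key {N : ℕ} {n : Fin N → E3} {c : ℝ} (h : Sep n c) {i j : Fin N} (hij : i ≠ j)
    {x : E3} {r : ℝ} (hx : ‖x‖ ≤ r) (h1 : c * r ≤ inner ℝ x (n i)) : inner ℝ x (n j) ≤ c * r := by
  have h2 := h.2 i j hij
  have h3 : inner ℝ x (n i + n j) ≤ ‖x‖ * ‖n i + n j‖ := real_inner_le_norm _ _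
  have h4 : ‖x‖ * ‖n i + n j‖ ≤ r * (2 * c) :=
    mul_le_mul hx h2 (norm_nonneg _) ((norm_nonneg _).trans hx)
  rw [inner_add_right] at h3
  linarith

theorem sep_key_lt {N : ℕ} {n : Fin N → E3} {c : ℝ} (h : Sep n c) {i j : Fin N} (hij : i ≠ j)
    {x : E3} {r : ℝ} (hx : ‖x‖ ≤ r) (h1 : c * r < inner ℝ x (n i)) : inner ℝ x (n j) < c * r := by
  have h2 := h.2 i j hij
  have h3 : inner ℝ x (n i + n j) ≤ ‖x‖ * ‖n i + n j‖ := real_inner_le_norm _ _
  have h4 : ‖x‖ * ‖n i + n j‖ ≤ r * (2 * c) :=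
    mul_le_mul hx h2 (norm_nonneg _) ((norm_nonneg _).trans hx)
  rw [inner_add_right] at h3
  linarith

theorem Sep.mono {N : ℕ} {n : Fin N → E3} {c c' : ℝ} (h : Sep n c) (hc : c ≤ c') : Sep n c' := by
  exact ⟨h.1, fun i j hij => (h.2 i j hij).trans (by linarith)⟩

/-- Compact, convex, contains `closedBall 0 c`. -/
theorem mcap_body {N : ℕ} {n : Fin N → E3} {c : ℝ} (h : Sep n c) (hc : 0 < c) (hc1 : c ≤ 1) :
    IsBody (mcap n c) := by
  have hball : ∀ x : E3, ‖x‖ ≤ c → x ∈ mcap n c := by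
    intro x hx
    refine ⟨hx.trans hc1, fun i => ?_⟩
    have h1 : inner ℝ x (n i) ≤ ‖x‖ * ‖n i‖ := real_inner_le_norm _ _
    rw [h.1 i, mul_one] at h1
    exact h1.trans hx
  refine ⟨?_, ?_, ?_⟩
  · have h1 : mcap n c = closedBall 0 1 ∩ ⋂ i, {x : E3 | inner ℝ x (n i) ≤ c} := by
      ext x
      simp [mcap]
    rw [h1]
    refine (isCompact_closedBall 0 1).inter_right (isClosed_iInter fun i => ?_)
    exact isClosed_le (by fun_prop) continuous_const
  · intro x hx y hy a b ha hb hab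
    refine ⟨?_, fun i => ?_⟩
    · calc ‖a • x + b • y‖ ≤ ‖a • x‖ + ‖b • y‖ := norm_add_le _ _
        _ = a * ‖x‖ + b * ‖y‖ := by
            rw [norm_smul, norm_smul, Real.norm_of_nonneg ha, Real.norm_of_nonneg hb]
        _ ≤ a * 1 + b * 1 := by
            have := mul_le_mul_of_nonneg_left hx.1 ha
            have := mul_le_mul_of_nonneg_left hy.1 hb
            linarith
        _ = 1 := by linarith
    · rw [inner_add_left, real_inner_smul_left, real_inner_smul_left]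
      have h1 := mul_le_mul_of_nonneg_left (hx.2 i) ha
      have h2 := mul_le_mul_of_nonneg_left (hy.2 i) hb
      have h3 : a * c + b * c = c := by rw [← add_mul, hab, one_mul]
      linarith
  · refine ⟨0, hball 0 (by simpa using hc.le), c • (EuclideanSpace.single 2 1 : E3),
      hball _ ?_, ?_⟩
    · rw [norm_smul, Real.norm_of_nonneg hc.le]
      simp
    · intro h0
      have := congrArg norm h0
      rw [norm_smul, Real.norm_of_nonneg hc.le] at this
      simp at this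
      linarith

/-- A linear isometry that maps the third basis vector to `v` (e.g. a reflection,
`reflection_sub` / `Submodule.reflection_sub`; if `v = eb 2` the identity; or extend to an orthonormal
basis as in `exists_frame`). -/
theorem exists_iso (v : E3) (hv : ‖v‖ = 1) : ∃ R : E3 ≃ₗᵢ[ℝ] E3, R (eb 2) = v := by
  have he : ‖(eb 2 : E3)‖ = ‖v‖ := by
    rw [hv]
    unfold eb
    simp
  exact ⟨Submodule.reflection (ℝ ∙ (eb 2 - v))ᗮ, Submodule.reflection_sub he⟩

/-- `<R x, v> = <x, eb 2> = x 2`. -/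
theorem cap1_image (v : E3) (R : E3 ≃ₗᵢ[ℝ] E3) (hR : R (eb 2) = v) (c : ℝ) :
    cap1 v c = R '' capB c := by
  have key : ∀ y : E3, inner ℝ (R y) v = y 2 := by
    intro y
    rw [← hR, R.inner_map_map]
    unfold eb
    rw [inner_eq3]
    simp
  ext x
  constructor
  · intro hx
    refine ⟨R.symm x, ?_, R.apply_symm_apply x⟩
    have h1 := key (R.symm x)
    rw [R.apply_symm_apply] at h1
    rw [capC_mem, ← h1, R.symm.norm_map]
    exact hx
  · rintro ⟨y, hy, rfl⟩
    rw [capC_mem] at hy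
    refine ⟨?_, ?_⟩
    · rw [R.norm_map]
      exact hy.1
    · rw [key]
      exact hy.2

end

end Pool.Agent.Lib.MP_dabcc9_gt
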