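import Pool.Agent.Lib.MP_dabcc9_gt.DcQ2
import Pool.Agent.Lib.MP_dabcc9_gt.McA

/-! JOB D17.  Every body can be put into normalised position. -/

open MeasureTheory Metric Set
open scoped Pointwise

namespace Pool.Agent.Lib.MP_dabcc9_gt

noncomputable section

/-- Direction of minimal width: the continuous function `supp K x + supp K (-x)` attains its minimum
on the unit sphere. -/
theorem min_width {K : Set E3} (hK : IsCompact K) (hne : K.Nonempty) : ∃ v : E3, ‖v‖ = 1 ∧
    ∀ x : E3, ‖x‖ = 1 → supp K v + supp K (-v) ≤ supp K x + supp K (-x) := by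
  have hcont := (supp_props hK hne).2.2.2.2
  have hf : Continuous fun x : E3 => supp K x + supp K (-x) :=
    hcont.add (hcont.comp continuous_neg)
  obtain ⟨v, hv, hmin⟩ := (isCompact_sphere (0 : E3) 1).exists_isMinOn
    ⟨eb 2, mem_sphere_zero_iff_norm.2 (norm_eb 2)⟩ hf.continuousOn
  refine ⟨v, mem_sphere_zero_iff_norm.1 hv, fun x hx => ?_⟩
  exact hmin (mem_sphere_zero_iff_norm.2 hx)

theorem DcR_int {f : ℝ → ℝ} (hf : Continuous f) (a b : ℝ) :
    ∫ φ in (0 : ℝ)..(2 * Real.pi), (f φ + (Real.cos φ * a + Real.sin φ * b)) * Real.cos φ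
      = (∫ φ in (0 : ℝ)..(2 * Real.pi), f φ * Real.cos φ) + a * Real.pi := by
  have h1 : ∀ φ : ℝ, (f φ + (Real.cos φ * a + Real.sin φ * b)) * Real.cos φ
      = f φ * Real.cos φ + (a * Real.cos φ ^ 2 + b * (Real.sin φ * Real.cos φ)) := by
    intro φ
    ring
  simp only [h1]
  rw [intervalIntegral.integral_add, intervalIntegral.integral_add,
    intervalIntegral.integral_const_mul, intervalIntegral.integral_const_mul, integral_cos_sq,
    integral_sin_mul_cos₁]
  · simp
  all_goals exact Continuous.intervalIntegrable (by fun_prop) _ _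

theorem DcR_int' {f : ℝ → ℝ} (hf : Continuous f) (a b : ℝ) :
    ∫ φ in (0 : ℝ)..(2 * Real.pi), (f φ + (Real.cos φ * a + Real.sin φ * b)) * Real.sin φ
      = (∫ φ in (0 : ℝ)..(2 * Real.pi), f φ * Real.sin φ) + b * Real.pi := by
  have h1 : ∀ φ : ℝ, (f φ + (Real.cos φ * a + Real.sin φ * b)) * Real.sin φ
      = f φ * Real.sin φ + (a * (Real.sin φ * Real.cos φ) + b * Real.sin φ ^ 2) := by
    intro φ
    ring
  simp only [h1]
  rw [intervalIntegral.integral_add, intervalIntegral.integral_add,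
    intervalIntegral.integral_const_mul, intervalIntegral.integral_const_mul, integral_sin_sq,
    integral_sin_mul_cos₁]
  · simp
  all_goals exact Continuous.intervalIntegrable (by fun_prop) _ _

/-- PROOF.  Rotate the direction of minimal width to `eb 2` (`exists_iso`), scale to
`av (supp K) = pi/4` (`av_supp_pos`), then translate: by `(c0, c1, c2)` with
`c0 = -pi⁻¹ ∫ supp K (eh φ) cos φ`, `c1` with `sin φ`, `c2 = (supp K (-eb 2) - supp K (eb 2))/2`
(translation adds `<c, x>` to the support function, does not change widths, `av <c, x> = 0`).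
`w` is the width of the final body in direction `eb 2`. -/
theorem exists_nz {K : Set E3} (hK : IsBody K) : ∃ (K' : Set E3) (w : ℝ), IsBody K' ∧ Nz K' w ∧
    bX K' = bX K ∧ bY K' = bY K := by
  obtain ⟨v, hv, hmin⟩ := min_width hK.1 hK.2.2.nonempty
  obtain ⟨R, hR⟩ := exists_iso v hv
  obtain ⟨b1, x1, y1⟩ := inv_iso hK R.symm
  have s1 : ∀ x, supp (R.symm '' K) x = supp K (R x) := fun x => supp_iso_set R.symm K x
  obtain ⟨K1, hK1⟩ : ∃ K1 : Set E3, K1 = R.symm '' K := ⟨_, rfl⟩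
  rw [← hK1] at b1 x1 y1 s1
  have hm : 0 < av (supp K1) := av_supp_pos b1.1 b1.2.2
  obtain ⟨l, hl⟩ : ∃ l : ℝ, l = Real.pi / 4 / av (supp K1) := ⟨_, rfl⟩
  have hl0 : 0 < l := by
    rw [hl]
    have := Real.pi_pos
    positivity
  obtain ⟨b2, x2, y2⟩ := inv_smul b1 l hl0
  have s2 : ∀ x, supp (l • K1) x = l * supp K1 x := fun x => supp_smul_set l hl0 x
  obtain ⟨K2, hK2⟩ : ∃ K2 : Set E3, K2 = l • K1 := ⟨_, rfl⟩
  rw [← hK2] at b2 x2 y2 s2
  have hne2 := b2.2.2.nonempty
  have hcont := (supp_props b2.1 hne2).2.2.2.2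
  have hav2 : av (supp K2) = Real.pi / 4 := by
    have h : supp K2 = fun x => l * supp K1 x := funext s2
    rw [h, av_const_mul, hl, div_mul_cancel₀ _ hm.ne']
  obtain ⟨c, hc⟩ : ∃ c : E3, c = !₂[-(Real.pi⁻¹ * ∫ φ in (0 : ℝ)..(2 * Real.pi),
      supp K2 (eh φ) * Real.cos φ), -(Real.pi⁻¹ * ∫ φ in (0 : ℝ)..(2 * Real.pi),
      supp K2 (eh φ) * Real.sin φ), (supp K2 (-eb 2) - supp K2 (eb 2)) / 2] := ⟨_, rfl⟩
  have c0 : c 0 = -(Real.pi⁻¹ * ∫ φ in (0 : ℝ)..(2 * Real.pi), supp K2 (eh φ) * Real.cos φ) := by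
    rw [hc]
    rfl
  have c1 : c 1 = -(Real.pi⁻¹ * ∫ φ in (0 : ℝ)..(2 * Real.pi), supp K2 (eh φ) * Real.sin φ) := by
    rw [hc]
    rfl
  have c2 : c 2 = (supp K2 (-eb 2) - supp K2 (eb 2)) / 2 := by
    rw [hc]
    rfl
  obtain ⟨b3, x3, y3⟩ := inv_add b2 c
  have s3 : ∀ x, supp (K2 + ({c} : Set E3)) x = supp K2 x + inner ℝ c x :=
    fun x => supp_add_set b2.1 hne2 c x
  have hav3 := DcQ2_av_add b2.1 hne2 c
  have heh : Continuous fun φ => supp K2 (eh φ) := by
    have h := Continuous.comp (g := supp K2) hcont continuous_eh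
    simpa only [Function.comp_def] using h
  refine ⟨K2 + ({c} : Set E3), supp K2 (eb 2) + supp K2 (-eb 2), b3,
    ⟨b3.1, b3.2.1, b3.2.2.nonempty, ?_, ?_, ?_, ?_, ?_, ?_⟩, ?_, ?_⟩
  · rw [hav3, hav2]
  · rw [s3, inner_eb2, c2]
    ring
  · rw [s3, inner_neg_right, inner_eb2, c2]
    ring
  · intro x hx
    rw [s3, s3, inner_neg_right, s2, s2, s2, s2, s1, s1, s1, s1, map_neg, map_neg, hR]
    have h := hmin (R x) (by rw [R.norm_map, hx])
    nlinarith
  · have h : ∀ φ, supp (K2 + ({c} : Set E3)) (eh φ) * Real.cos φ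
        = (supp K2 (eh φ) + (Real.cos φ * c 0 + Real.sin φ * c 1)) * Real.cos φ := by
      intro φ
      rw [s3, inner_eh]
    simp only [h]
    rw [DcR_int heh, c0]
    have := Real.pi_ne_zero
    field_simp
    ring
  · have h : ∀ φ, supp (K2 + ({c} : Set E3)) (eh φ) * Real.sin φ
        = (supp K2 (eh φ) + (Real.cos φ * c 0 + Real.sin φ * c 1)) * Real.sin φ := by
      intro φ
      rw [s3, inner_eh]
    simp only [h]
    rw [DcR_int' heh, c1]
    have := Real.pi_ne_zero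
    field_simp
    ring
  · rw [x3, x2, x1]
  · rw [y3, y2, y1]

end

end Pool.Agent.Lib.MP_dabcc9_gt
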