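import Pool.Agent.Lib.MP_dabcc9_gt.DcG
import Pool.Agent.Lib.MP_dabcc9_gt.DcJ
import Pool.Agent.Lib.MP_dabcc9_gt.DcL2
import Pool.Agent.Lib.MP_dabcc9_gt.DcO
import Pool.Agent.Lib.MP_dabcc9_gt.DcP2
import Pool.Agent.Lib.MP_dabcc9_gt.DcR

/-! Assembly of the lower bound near the disc. -/

open MeasureTheory Metric Set

namespace Pool.Agent.Lib.MP_dabcc9_gt

noncomputable section

/-- The coordinates from the Steiner polynomial. -/
theorem values_of_steiner {K : Set E3} (hK : IsBody K) {x y : ℝ}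
    (h1 : ∀ t : ℝ, 0 ≤ t → vol (cthickening t K) = 4 * Real.pi / 3 *
        (y + 3 * t * x + 3 * t ^ 2 * av (supp K) + t ^ 3)) :
    bX K = x / av (supp K) ^ 2 := by
  have hbv := body_values hK
  have hm := av_supp_pos hK.1 hK.2.2
  have hpi := Real.pi_pos
  have hd : HasDerivWithinAt (fun t => vol (cthickening t K)) (4 * Real.pi * x) (Ici 0) 0 := by
    have h3 : HasDerivAt (fun t : ℝ => 4 * Real.pi / 3 *
        (y + 3 * t * x + 3 * t ^ 2 * av (supp K) + t ^ 3)) (4 * Real.pi * x) 0 := by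
      have e1 : HasDerivAt (fun t : ℝ => 3 * t * x) (3 * 1 * x) 0 :=
        ((hasDerivAt_id (0 : ℝ)).const_mul 3).mul_const x
      have e2 := ((hasDerivAt_pow 2 (0 : ℝ)).const_mul 3).mul_const (av (supp K))
      have e3 := hasDerivAt_pow 3 (0 : ℝ)
      have e4 := (((e1.const_add y).add e2).add e3).const_mul (4 * Real.pi / 3)
      refine e4.congr_deriv ?_
      norm_num
      ring
    exact h3.hasDerivWithinAt.congr (fun t ht => h1 t ht) (h1 0 le_rfl)
  have hsurf : surf K = 4 * Real.pi * x := hd.derivWithin (uniqueDiffWithinAt_Ici 0)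
  rw [hbv.2.2.1, hsurf]
  field_simp

/-- Bound of the rim from the closeness lemma. -/
theorem rim_bound {K : Set E3} {w : ℝ} (h : Nz K w) (hw : w ≤ 1)
    (hF : 2 * Real.pi ≤ FA (supp K)) (e : ℝ) (he : 0 ≤ e) (hwe : 80000 * w ≤ e ^ 4) (φ : ℝ) :
    |supp K (eh φ) - 1| ≤ e := by
  have h1 := rim_close h hw hF φ
  have h2 : |supp K (eh φ) - 1| ^ 4 ≤ e ^ 4 := by
    rw [← abs_pow, abs_of_nonneg (by positivity)]
    exact h1.trans hwe
  exact (pow_le_pow_iff_left₀ (abs_nonneg _) he (by norm_num)).1 h2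

/-- The estimate for thin bodies. -/
theorem thin_main {K : Set E3} {w : ℝ} (h : Nz K w) (hw : w ≤ 1) (σ : ℝ) (hσ : 0 < σ)
    (hσ1 : σ ≤ 1 / 4) (hF : 2 * Real.pi ≤ FA (supp K)) (h1 : 80000 * w ≤ (σ ^ 2 / 160) ^ 4)
    (h2 : w / σ ≤ σ ^ 2 / 160) :
    FA (supp K) - 2 * Real.pi ≤ 2 * (1 - 2 / Real.pi) * vol K + 16 * Real.pi * σ * w
      + 18 * Real.pi * w ^ 2 ∧ w / 27 ≤ vol K := by
  have hpi := Real.pi_gt_three
  have hw0 := h.w_nonneg
  have hr0 : ∀ φ, |supp K (eh φ) - 1| ≤ σ ^ 2 / 160 := fun φ =>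
    rim_bound h hw hF _ (by positivity) h1 φ
  have hr : ∀ φ, |supp K (eh φ) - 1| ≤ σ ^ 2 / 80 := fun φ => (hr0 φ).trans (by
    have : 0 ≤ σ ^ 2 := sq_nonneg σ
    linarith)
  have hσ2 : σ ^ 2 / 80 ≤ 1 / 8 := by nlinarith
  have hP : ∀ φ, ∃ p ∈ K, mtop K φ σ ≤ p 2 ∧ 1 - σ ^ 2 / 80 ≤ inner ℝ p (eh φ) := by
    intro φ
    obtain ⟨p, hp, e1, e2⟩ := top_point h φ σ hσ
    refine ⟨p, hp, e1, ?_⟩
    have := abs_le.1 (hr0 φ)
    linarith [this.1]
  have hQ : ∀ φ, ∃ p ∈ K, p 2 ≤ -mbot K φ σ ∧ 1 - σ ^ 2 / 80 ≤ inner ℝ p (eh φ) := by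
    intro φ
    obtain ⟨p, hp, e1, e2⟩ := bot_point h φ σ hσ
    refine ⟨p, hp, e1, ?_⟩
    have := abs_le.1 (hr0 φ)
    linarith [this.1]
  obtain ⟨c1, c2⟩ := m_cont h.comp h.ne σ
  have hV := vol_lower h.comp h.conv h.ne w (σ ^ 2 / 80) σ (fun φ => mtop K φ σ)
    (fun φ => mbot K φ σ) c1 c2 (fun φ => (m_per K σ φ).1) (fun φ => (m_per K σ φ).2)
    h.height hr hP hQ (fun φ => (m_sum h φ σ hσ).1) (fun φ => (m_sum h φ σ hσ).2)
    (by positivity) hσ hσ1 (by linarith)
  have hlin := w_linear h (σ ^ 2 / 80) (by positivity) hσ2 hr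
  refine ⟨?_, hlin⟩
  have hthin := FA_thin h
  have hres : 0 ≤ ∫ θ in (0 : ℝ)..Real.pi, ∫ φ in (0 : ℝ)..(2 * Real.pi),
      azr (supp K) θ φ ^ 2 * Real.sin θ := by
    apply intervalIntegral.integral_nonneg Real.pi_pos.le
    intro θ hθ
    apply intervalIntegral.integral_nonneg (by positivity)
    intro φ _
    have := Real.sin_nonneg_of_nonneg_of_le_pi hθ.1 hθ.2
    positivity
  have hsc := (supp_props h.comp h.ne).2.2.2.2
  have hkc : Continuous fun q : ℝ × ℝ => kk K q.2 q.1 * om q.2 := by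
    unfold kk om
    have e0 : Continuous fun q : ℝ × ℝ => (q.2, q.1) := continuous_snd.prodMk continuous_fst
    have e1 : Continuous fun q : ℝ × ℝ => sp q.2 q.1 := by
      have e4 := Continuous.comp SphB_sp_cont e0
      simpa only [Function.comp_def] using e4
    have e2 : Continuous fun q : ℝ × ℝ => supp K (sp q.2 q.1) := by
      have e4 := Continuous.comp hsc e1
      simpa only [Function.comp_def] using e4
    have e3 : Continuous fun q : ℝ × ℝ => supp K (eh q.1) := by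
      have e6 : Continuous fun q : ℝ × ℝ => q.1 := continuous_fst
      have e4 := Continuous.comp hsc (Continuous.comp continuous_eh e6)
      simpa only [Function.comp_def] using e4
    have e5 : Continuous fun q : ℝ × ℝ => Real.sin q.2 := Real.continuous_sin.comp continuous_snd
    exact (e2.sub (e3.mul e5)).mul (continuous_const.sub (continuous_const.mul e5))
  have hPhi : (∫ φ in (0 : ℝ)..(2 * Real.pi), ∫ θ in (0 : ℝ)..Real.pi, kk K θ φ * om θ) ≤
      ∫ φ in (0 : ℝ)..(2 * Real.pi), ((1 - 2 / Real.pi) * (mtop K φ σ + mbot K φ σ)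
        + 4 * w * σ) := by
    apply intervalIntegral.integral_mono_on (by positivity)
    · apply Continuous.intervalIntegrable
      exact intervalIntegral.continuous_parametric_intervalIntegral_of_continuous' (μ := volume)
        (f := fun φ θ => kk K θ φ * om θ) hkc 0 Real.pi
    · exact ((((c1.add c2).const_smul (1 - 2 / Real.pi)).add continuous_const).intervalIntegrable
        _ _)
    · intro φ _
      exact Phi_le h φ σ hσ hσ1
  have hint : ∫ φ in (0 : ℝ)..(2 * Real.pi), ((1 - 2 / Real.pi) * (mtop K φ σ + mbot K φ σ)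
        + 4 * w * σ) = (1 - 2 / Real.pi) * (∫ φ in (0 : ℝ)..(2 * Real.pi),
          (mtop K φ σ + mbot K φ σ)) + 8 * Real.pi * w * σ := by
    rw [intervalIntegral.integral_add, intervalIntegral.integral_const_mul,
      intervalIntegral.integral_const, smul_eq_mul]
    · ring
    · exact ((c1.add c2).const_smul (1 - 2 / Real.pi)).intervalIntegrable _ _
    · exact continuous_const.intervalIntegrable _ _
  rw [hint] at hPhi
  have hq0 : 0 ≤ 1 - 2 / Real.pi := by
    rw [sub_nonneg, div_le_one (by positivity)]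
    linarith
  have hq1 : 1 - 2 / Real.pi ≤ 1 := by
    have : 0 ≤ 2 / Real.pi := by positivity
    linarith
  have hwσ : 0 ≤ Real.pi * σ * w := by positivity
  have h5 : (1 - 2 / Real.pi) * (∫ φ in (0 : ℝ)..(2 * Real.pi), (mtop K φ σ + mbot K φ σ)) ≤
      (1 - 2 / Real.pi) * (2 * vol K + 8 * Real.pi * σ * w) := by
    apply mul_le_mul_of_nonneg_left _ hq0
    linarith
  have h6 : (1 - 2 / Real.pi) * (8 * Real.pi * σ * w) ≤ 8 * Real.pi * σ * w := by
    have h7 := mul_le_mul_of_nonneg_right hq1 (by positivity : 0 ≤ 8 * Real.pi * σ * w)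
    linarith
  nlinarith

/-- The lower bound for normalised bodies of small volume. -/
theorem nz_lower (ε : ℝ) (hε : 0 < ε) : ∃ V0 : ℝ, 0 < V0 ∧ ∀ (K : Set E3) (w : ℝ), Nz K w →
    IsBody K → vol K < V0 → bX K - 8 / Real.pi ^ 2 ≤ ((Real.pi - 2) / 6 + ε) * bY K := by
  have hpi := Real.pi_gt_three
  have hpi2 := Real.pi_lt_d2
  obtain ⟨σ, hσd⟩ : ∃ σ : ℝ, σ = min (1 / 4) (ε / 1000) := ⟨_, rfl⟩
  have hσ : 0 < σ := by rw [hσd]; exact lt_min (by norm_num) (by positivity)
  have hσ1 : σ ≤ 1 / 4 := by rw [hσd]; exact min_le_left _ _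
  have hσε : 1000 * σ ≤ ε := by
    have := min_le_right (1 / 4) (ε / 1000)
    rw [← hσd] at this
    linarith
  obtain ⟨w0, hw0d⟩ : ∃ w0 : ℝ, w0 = min (min 1 σ) (min ((σ ^ 2 / 160) ^ 4 / 80000)
    (σ ^ 3 / 160)) := ⟨_, rfl⟩
  have hw0 : 0 < w0 := by
    rw [hw0d]
    exact lt_min (lt_min one_pos hσ) (lt_min (by positivity) (by positivity))
  refine ⟨w0 ^ 3 / 27, by positivity, fun K w h hb hV => ?_⟩
  have hc := w_cube h
  have hwn := h.w_nonneg
  have hww : w < w0 := by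
    by_contra hcon
    have := pow_le_pow_left₀ hw0.le (not_lt.1 hcon) 3
    linarith
  have hm1 : w ≤ min 1 σ := by
    have := min_le_left (min 1 σ) (min ((σ ^ 2 / 160) ^ 4 / 80000) (σ ^ 3 / 160))
    rw [← hw0d] at this
    exact hww.le.trans this
  have hm2 : w ≤ min ((σ ^ 2 / 160) ^ 4 / 80000) (σ ^ 3 / 160) := by
    have := min_le_right (min 1 σ) (min ((σ ^ 2 / 160) ^ 4 / 80000) (σ ^ 3 / 160))
    rw [← hw0d] at this
    exact hww.le.trans this
  have hw1 : w ≤ 1 := hm1.trans (min_le_left _ _)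
  have hwσ : w ≤ σ := hm1.trans (min_le_right _ _)
  have hw2 : 80000 * w ≤ (σ ^ 2 / 160) ^ 4 := by
    have := hm2.trans (min_le_left _ _)
    linarith
  have hw3 : w / σ ≤ σ ^ 2 / 160 := by
    have := hm2.trans (min_le_right _ _)
    rw [div_le_iff₀ hσ]
    nlinarith
  have hbv := body_values hb
  have hvn : 0 ≤ vol K := ENNReal.toReal_nonneg
  have hY : bY K = 48 * vol K / Real.pi ^ 4 := by
    rw [hbv.2.2.2, h.mean]
    field_simp
    ring
  have hYn : 0 ≤ bY K := by
    rw [hY]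
    positivity
  obtain ⟨x, y, h1, h2⟩ := FA_body h.comp h.conv h.ne
  have hX : bX K = 16 * x / Real.pi ^ 2 := by
    rw [values_of_steiner hb h1, h.mean]
    field_simp
    norm_num
  by_cases hx : x ≤ 1 / 2
  · have h3 : bX K - 8 / Real.pi ^ 2 ≤ 0 := by
      rw [hX]
      have : 16 * x / Real.pi ^ 2 ≤ 8 / Real.pi ^ 2 := by
        apply div_le_div_of_nonneg_right _ (by positivity)
        linarith
      linarith
    have h4 : 0 ≤ ((Real.pi - 2) / 6 + ε) * bY K := by
      apply mul_nonneg _ hYn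
      have : 0 ≤ (Real.pi - 2) / 6 := by linarith
      linarith
    linarith
  · have hx' := not_le.1 hx
    have hF : 2 * Real.pi ≤ FA (supp K) := by
      refine le_trans ?_ h2
      nlinarith
    obtain ⟨h3, h4⟩ := thin_main h hw1 σ hσ hσ1 hF hw2 hw3
    have h5 : 4 * Real.pi * x - 2 * Real.pi ≤ 2 * (1 - 2 / Real.pi) * vol K
        + 918 * Real.pi * σ * vol K := by
      have e1 : 18 * Real.pi * w ^ 2 ≤ 18 * Real.pi * σ * w := by
        have := mul_le_mul_of_nonneg_left hwσ (by positivity : 0 ≤ 18 * Real.pi * w)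
        nlinarith
      have e2 : 34 * Real.pi * σ * w ≤ 34 * Real.pi * σ * (27 * vol K) := by
        apply mul_le_mul_of_nonneg_left _ (by positivity)
        linarith
      nlinarith
    have h6 : bX K - 8 / Real.pi ^ 2 = 4 / Real.pi ^ 3 * (4 * Real.pi * x - 2 * Real.pi) := by
      rw [hX]
      field_simp
      ring
    have h7 : 4 / Real.pi ^ 3 * (4 * Real.pi * x - 2 * Real.pi) ≤
        4 / Real.pi ^ 3 * (2 * (1 - 2 / Real.pi) * vol K + 918 * Real.pi * σ * vol K) :=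
      mul_le_mul_of_nonneg_left h5 (by positivity)
    have h8 : 4 / Real.pi ^ 3 * (2 * (1 - 2 / Real.pi) * vol K + 918 * Real.pi * σ * vol K) =
        ((Real.pi - 2) / 6) * bY K + (153 / 2 * Real.pi ^ 2 * σ) * bY K := by
      rw [hY]
      field_simp
      ring
    have h9 : 153 / 2 * Real.pi ^ 2 * σ ≤ ε := by
      have : Real.pi ^ 2 ≤ 10 := by nlinarith
      nlinarith
    rw [h6]
    refine h7.trans ?_
    rw [h8]
    have := mul_le_mul_of_nonneg_right h9 hYn
    linarith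

/-- The lower bound near the disc. -/
theorem disc_lower (ε : ℝ) (hε : 0 < ε) : ∃ η : ℝ, 0 < η ∧ ∀ K : Set E3, IsBody K →
    bX K < 8 / Real.pi ^ 2 + η → bX K - 8 / Real.pi ^ 2 ≤ ((Real.pi - 2) / 6 + ε) * bY K := by
  have hpi := Real.pi_gt_three
  obtain ⟨V0, hV0, hmain⟩ := nz_lower ε hε
  refine ⟨(Real.pi - 2) / 6 * (48 * V0 / Real.pi ^ 4), ?_, fun K hK hx => ?_⟩
  · have : 0 < (Real.pi - 2) / 6 := by linarith
    positivity
  · obtain ⟨K', w, hb, hn, e1, e2⟩ := exists_nz hK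
    rw [← e1, ← e2]
    rw [← e1] at hx
    by_cases hV : vol K' < V0
    · exact hmain K' w hn hb hV
    · have hbv := body_values hb
      have hY : bY K' = 48 * vol K' / Real.pi ^ 4 := by
        rw [hbv.2.2.2, hn.mean]
        field_simp
        ring
      have h3 : 48 * V0 / Real.pi ^ 4 ≤ bY K' := by
        rw [hY]
        apply div_le_div_of_nonneg_right _ (by positivity)
        linarith [not_lt.1 hV]
      have h4 : 0 ≤ bY K' := le_trans (by positivity) h3
      have h5 : (Real.pi - 2) / 6 * (48 * V0 / Real.pi ^ 4) ≤ (Real.pi - 2) / 6 * bY K' :=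
        mul_le_mul_of_nonneg_left h3 (by linarith)
      have h6 : 0 ≤ ε * bY K' := mul_nonneg hε.le h4
      nlinarith

end

end Pool.Agent.Lib.MP_dabcc9_gt
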