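import Pool.Agent.Lib.MP_dabcc9_gt.McD

/-! JOB M5.  Surface area of a ball with many caps cut off. -/

open MeasureTheory Metric Set

namespace Pool.Agent.Lib.MP_dabcc9_gt

noncomputable section

open scoped Pointwise in
private theorem McE_scale {N : ℕ} (n : Fin N → E3) (d R : ℝ) (hR : 0 < R) :
    volume.real {x : E3 | ‖x‖ ≤ R ∧ ∀ i, inner ℝ x (n i) ≤ R * d} = R ^ 3 * vol (mcap n d) := by
  have h1 : {x : E3 | ‖x‖ ≤ R ∧ ∀ i, inner ℝ x (n i) ≤ R * d} = R • mcap n d := by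
    ext x
    rw [Set.mem_smul_set_iff_inv_smul_mem₀ hR.ne']
    simp only [mcap, Set.mem_ofPred_eq, norm_smul, norm_inv, Real.norm_eq_abs, abs_of_pos hR,
      inner_smul_left, map_inv₀, RCLike.conj_to_real]
    refine and_congr ?_ (forall_congr' fun i => ?_)
    · rw [inv_mul_le_iff₀ hR, mul_one]
    · rw [inv_mul_le_iff₀ hR]
  rw [h1, measureReal_def, Measure.addHaar_smul, ENNReal.toReal_mul, finrank_euclideanSpace_fin,
    ENNReal.toReal_ofReal (abs_nonneg _), abs_of_pos (pow_pos hR 3)]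
  rfl

/-- PROOF.  `x ∈ cthickening t K`, `K = mcap n c` compact: some `y ∈ K` with `dist x y <= t`, so
`‖x‖ <= 1 + t`, `<x, n i> <= c + t`.  Hence `cthickening t K ⊆ (1+t) • mcap n c'`,
`c' = (c+t)/(1+t) >= c`, `Sep n c'`, `vol_mcap`, scaling (`Measure.addHaar_smul`). -/
theorem vol_thick_mcap_le {N : ℕ} {n : Fin N → E3} {c : ℝ} (h : Sep n c) (h0 : 0 < c) (h1 : c < 1)
    (t : ℝ) (ht : 0 ≤ t) : vol (cthickening t (mcap n c)) ≤ (1 + t) ^ 3 *
      (4 * Real.pi / 3 - N * (Real.pi * (2 / 3 - (c + t) / (1 + t)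
        + ((c + t) / (1 + t)) ^ 3 / 3))) := by
  have hb := mcap_body h h0 h1.le
  have ht1 : 0 < 1 + t := by linarith
  have hc1 : c ≤ (c + t) / (1 + t) := by
    rw [le_div_iff₀ ht1]; nlinarith
  have hc2 : (c + t) / (1 + t) ≤ 1 := by
    rw [div_le_one ht1]; linarith
  have hS := Sep.mono h hc1
  rw [← vol_mcap hS (h0.le.trans hc1) hc2, ← McE_scale n _ _ ht1]
  have hfin : volume {x : E3 | ‖x‖ ≤ 1 + t ∧ ∀ i, inner ℝ x (n i) ≤ (1 + t) *
      ((c + t) / (1 + t))} ≠ ⊤ := CapB_bdd (R := 1 + t) fun x hx => hx.1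
  refine measureReal_mono ?_ hfin
  intro x hx
  rw [hb.1.cthickening_eq_biUnion_closedBall ht] at hx
  simp only [Set.mem_iUnion, exists_prop, mem_closedBall] at hx
  obtain ⟨y, hy, hxy⟩ := hx
  rw [dist_eq_norm] at hxy
  have hy1 : ‖y‖ ≤ 1 := hy.1
  refine ⟨?_, fun i => ?_⟩
  · have : ‖x‖ ≤ ‖y‖ + ‖x - y‖ := norm_le_norm_add_norm_sub' x y
    linarith
  · have e1 : inner ℝ x (n i) = inner ℝ y (n i) + inner ℝ (x - y) (n i) := by
      rw [← inner_add_left]; congr 1; abel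
    have e2 : inner ℝ (x - y) (n i) ≤ ‖x - y‖ * ‖n i‖ := real_inner_le_norm _ _
    rw [h.1 i, mul_one] at e2
    have e3 : (1 + t) * ((c + t) / (1 + t)) = c + t := by field_simp
    rw [e3, e1]
    have := hy.2 i
    linarith

/-- PROOF.  Lower bound `vol_thick_mcap_ge` and upper bound `vol_thick_mcap_le` agree with
`vol (mcap n c)` at `t = 0` and both have derivative `4 pi - N pi (1 - c)^2` at `0`
(`(1+t)^3 (2/3 - c' + c'^3/3) = 2/3 (1+t)^3 - (1+t)^2 (c+t) + (c+t)^3/3` is a polynomial); squeeze the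
difference quotients. -/
theorem surf_mcap {N : ℕ} {n : Fin N → E3} {c : ℝ} (h : Sep n c) (h0 : 0 < c) (h1 : c < 1) :
    surf (mcap n c) = 4 * Real.pi - N * (Real.pi * (1 - c) ^ 2) := by
  have hb := mcap_body h h0 h1.le
  set F : ℝ → ℝ := fun t => vol (cthickening t (mcap n c)) with hF
  set G : ℝ → ℝ := fun t => 4 * Real.pi / 3 * (1 + t) ^ 3 - N * (4 * Real.pi / 3 * (1 + t) ^ 3
      - (Real.pi * (2 / 3 + c - c ^ 3 / 3) + ((1 + t) ^ 3 - 1) * (2 * Real.pi / 3 * (1 + c))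
        + Real.pi * (1 - c ^ 2) * t)) with hG
  set H : ℝ → ℝ := fun t => 4 * Real.pi / 3 * (1 + t) ^ 3 - N * (Real.pi * (2 / 3 * (1 + t) ^ 3
      - (1 + t) ^ 2 * (c + t) + (c + t) ^ 3 / 3)) with hH
  have hHd : HasDerivAt H (4 * Real.pi - N * (Real.pi * (1 - c) ^ 2)) 0 := by
    have e1 : HasDerivAt (fun t : ℝ => (1 + t) ^ 3) 3 0 :=
      (((hasDerivAt_id (0 : ℝ)).const_add 1).pow 3).congr_deriv (by simp)
    have e2 : HasDerivAt (fun t : ℝ => (1 + t) ^ 2 * (c + t)) (2 * c + 1) 0 :=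
      ((((hasDerivAt_id (0 : ℝ)).const_add 1).pow 2).mul
        ((hasDerivAt_id (0 : ℝ)).const_add c)).congr_deriv (by simp)
    have e3 : HasDerivAt (fun t : ℝ => (c + t) ^ 3 / 3) (c ^ 2) 0 :=
      ((((hasDerivAt_id (0 : ℝ)).const_add c).pow 3).div_const 3).congr_deriv (by simp)
    refine ((e1.const_mul (4 * Real.pi / 3)).sub (((((e1.const_mul (2 / 3)).sub e2).add
      e3).const_mul Real.pi).const_mul (N : ℝ))).congr_deriv ?_
    ring
  have hGd : HasDerivAt G (4 * Real.pi - N * (Real.pi * (1 - c) ^ 2)) 0 := by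
    have e1 : HasDerivAt (fun t : ℝ => (1 + t) ^ 3) 3 0 :=
      (((hasDerivAt_id (0 : ℝ)).const_add 1).pow 3).congr_deriv (by simp)
    have e4 := ((e1.sub_const 1).mul_const (2 * Real.pi / 3 * (1 + c))).const_add
      (Real.pi * (2 / 3 + c - c ^ 3 / 3))
    have e5 := e4.add ((hasDerivAt_id (0 : ℝ)).const_mul (Real.pi * (1 - c ^ 2)))
    refine ((e1.const_mul (4 * Real.pi / 3)).sub (((e1.const_mul (4 * Real.pi / 3)).sub
      e5).const_mul (N : ℝ))).congr_deriv ?_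
    ring
  have hvol := vol_mcap h h0.le h1.le
  have hF0 : F 0 = 4 * Real.pi / 3 - N * (Real.pi * (2 / 3 - c + c ^ 3 / 3)) := by
    simp only [hF, cthickening_zero, hb.1.isClosed.closure_eq]
    exact hvol
  have hG0 : G 0 = F 0 := by
    rw [hF0]; simp only [hG]; ring
  have hH0 : H 0 = F 0 := by
    rw [hF0]; simp only [hH]; ring
  have hGF : ∀ t, 0 ≤ t → G t ≤ F t := fun t ht => vol_thick_mcap_ge h h0 h1 t ht
  have hFH : ∀ t, 0 ≤ t → F t ≤ H t := by
    intro t ht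
    refine (vol_thick_mcap_le h h0 h1 t ht).trans (le_of_eq ?_)
    have ht1 : (1 + t) ≠ 0 := by positivity
    simp only [hH]
    field_simp
  have hset : (Ici (0 : ℝ)) \ {0} = Ioi 0 := by
    ext x
    simp only [Set.mem_sdiff, Set.mem_Ici, Set.mem_singleton_iff, Set.mem_Ioi]
    constructor
    · rintro ⟨ha, hb⟩
      exact lt_of_le_of_ne ha (Ne.symm hb)
    · intro hx
      exact ⟨hx.le, hx.ne'⟩
  have hGw := hGd.hasDerivWithinAt (s := Ici 0)
  have hHw := hHd.hasDerivWithinAt (s := Ici 0)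
  rw [hasDerivWithinAt_iff_tendsto_slope, hset] at hGw hHw
  have hFw : HasDerivWithinAt F (4 * Real.pi - N * (Real.pi * (1 - c) ^ 2)) (Ici 0) 0 := by
    rw [hasDerivWithinAt_iff_tendsto_slope, hset]
    refine tendsto_of_tendsto_of_tendsto_of_le_of_le' hGw hHw ?_ ?_
    · refine Filter.eventually_of_mem self_mem_nhdsWithin fun t ht => ?_
      have ht' : (0 : ℝ) < t := ht
      rw [slope_def_field, slope_def_field, hG0]
      have := hGF t ht'.le
      gcongr
    · refine Filter.eventually_of_mem self_mem_nhdsWithin fun t ht => ?_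
      have ht' : (0 : ℝ) < t := ht
      rw [slope_def_field, slope_def_field, hH0]
      have := hFH t ht'.le
      gcongr
  exact hFw.derivWithin (uniqueDiffOn_Ici 0 0 Set.self_mem_Ici)

end

end Pool.Agent.Lib.MP_dabcc9_gt
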