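import Pool.Agent.Lib.MP_dabcc9_gt.McB
import Pool.Agent.Lib.MP_dabcc9_gt.McC
import Pool.Agent.Lib.MP_dabcc9_gt.McE
import Pool.Agent.Lib.MP_dabcc9_gt.LimB

/-! JOB D18.  The ball with two opposite caps cut off. -/

open MeasureTheory Metric Set

namespace Pool.Agent.Lib.MP_dabcc9_gt

noncomputable section

theorem DcU_int (t : ℝ) (h0 : 0 < t) (h1 : t < Real.pi / 2) :
    ∫ z in (Real.cos t)..1, Real.sqrt (1 - z ^ 2) = (t - Real.cos t * Real.sin t) / 2 := by
  have hsub := intervalIntegral.integral_comp_mul_deriv (a := 0) (b := t)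
    (f := Real.cos) (f' := fun u => - Real.sin u) (g := fun z => Real.sqrt (1 - z ^ 2))
    (fun u _ => Real.hasDerivAt_cos u) (by fun_prop) (by fun_prop)
  rw [Real.cos_zero] at hsub
  have h2 : ∫ u in (0 : ℝ)..t, ((fun z => Real.sqrt (1 - z ^ 2)) ∘ Real.cos) u * (- Real.sin u) =
      ∫ u in (0 : ℝ)..t, - (Real.sin u ^ 2) := by
    apply intervalIntegral.integral_congr
    intro u hu
    rw [uIcc_of_le h0.le] at hu
    have hpi := Real.pi_gt_three
    have hsin : 0 ≤ Real.sin u := Real.sin_nonneg_of_nonneg_of_le_pi hu.1 (by linarith [hu.2])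
    have : Real.sqrt (1 - Real.cos u ^ 2) = Real.sin u := by
      rw [← Real.sin_sq, Real.sqrt_sq hsin]
    simp only [Function.comp]
    rw [this]; ring
  rw [h2, intervalIntegral.integral_neg, integral_sin_sq] at hsub
  rw [intervalIntegral.integral_symm, ← hsub]
  simp
  ring

/-- `av_supp_capB` (file `CapC.lean`) for all `t < pi/2`; its proof (and that of `capC_int`) uses
`t < 1` only for `0 <= cos t` and `t <= pi`: copy them. -/
theorem av_supp_capB' (t : ℝ) (h0 : 0 < t) (h1 : t < Real.pi / 2) :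
    av (supp (capB (Real.cos t))) = (1 + Real.cos t) / 2 + t * Real.sin t / 4 := by
  have hpi := Real.pi_gt_three
  have hc0 : 0 ≤ Real.cos t := Real.cos_nonneg_of_neg_pi_div_two_le_of_le (by linarith) (by linarith)
  have hc1 : Real.cos t ≤ 1 := Real.cos_le_one t
  have hs0 : 0 ≤ Real.sin t := Real.sin_nonneg_of_nonneg_of_le_pi h0.le (by linarith)
  have hsq : Real.sqrt (1 - Real.cos t ^ 2) = Real.sin t := by
    rw [← Real.sin_sq, Real.sqrt_sq hs0]
  set c := Real.cos t with hc
  set s := Real.sin t with hs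
  have hcs : s ^ 2 + c ^ 2 = 1 := Real.sin_sq_add_cos_sq t
  let F : ℝ → ℝ := fun z => if z ≤ c then 1 else c * z + s * Real.sqrt (1 - z ^ 2)
  have hF : Continuous F := by
    apply Continuous.if_le continuous_const (by fun_prop) continuous_id continuous_const
    intro z hz
    have hz' : z = c := hz
    rw [hz', hsq]
    nlinarith
  have hx0 : ‖eb 2‖ = 1 := by simp [eb]
  have hin : ∀ x : E3, inner ℝ x (eb 2) = x 2 := by
    intro x
    rw [inner_eq3]
    simp [eb]
  have h2 : av (supp (capB c)) = av (fun x => F (inner ℝ x (eb 2))) := by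
    apply av_congr
    intro x hx
    rw [supp_capB c hc0 hc1 x hx, hin, hsq]
  rw [h2, av_height hF.continuousOn (eb 2) hx0]
  have h3 : ∫ z in (-1 : ℝ)..1, F z = (∫ z in (-1 : ℝ)..c, F z) + ∫ z in c..1, F z :=
    (intervalIntegral.integral_add_adjacent_intervals (hF.intervalIntegrable _ _)
      (hF.intervalIntegrable _ _)).symm
  have h4 : ∫ z in (-1 : ℝ)..c, F z = c + 1 := by
    have : ∫ z in (-1 : ℝ)..c, F z = ∫ z in (-1 : ℝ)..c, (1 : ℝ) := by
      apply intervalIntegral.integral_congr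
      intro z hz
      rw [uIcc_of_le (by linarith)] at hz
      exact if_pos hz.2
    rw [this]
    simp
  have h5 : ∫ z in c..1, F z = ∫ z in c..1, (c * z + s * Real.sqrt (1 - z ^ 2)) := by
    apply intervalIntegral.integral_congr
    intro z hz
    rw [uIcc_of_le hc1] at hz
    rcases hz.1.eq_or_lt with h | h
    · have hsq' : Real.sqrt (1 - c ^ 2) = s := hsq
      show (if z ≤ c then 1 else c * z + s * Real.sqrt (1 - z ^ 2)) = _
      rw [← h, if_pos le_rfl]
      simp only
      rw [hsq']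
      nlinarith
    · exact if_neg (not_le.2 h)
  have h6 : ∫ z in c..1, (c * z + s * Real.sqrt (1 - z ^ 2)) =
      c * ((1 - c ^ 2) / 2) + s * ((t - c * s) / 2) := by
    rw [intervalIntegral.integral_add, intervalIntegral.integral_const_mul,
      intervalIntegral.integral_const_mul, DcU_int t h0 h1, integral_id]
    · rw [← hc, ← hs]
      norm_num
    · exact (by fun_prop : Continuous fun z : ℝ => c * z).intervalIntegrable _ _
    · exact (by fun_prop : Continuous fun z : ℝ =>
        s * Real.sqrt (1 - z ^ 2)).intervalIntegrable _ _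
  rw [h3, h4, h5, h6]
  nlinarith

/-- Two opposite directions. -/
def nn2 : Fin 2 → E3 := ![eb 2, -eb 2]

theorem nn2_sep (c : ℝ) (hc : 0 ≤ c) : Sep nn2 c := by
  have h0 : ‖eb 2‖ = 1 := by simp [eb]
  refine ⟨?_, ?_⟩
  · intro i
    fin_cases i
    · exact h0
    · show ‖-eb 2‖ = 1
      rw [norm_neg, h0]
  · intro i j hij
    fin_cases i <;> fin_cases j
    · exact absurd rfl hij
    · show ‖eb 2 + -eb 2‖ ≤ 2 * c
      rw [add_neg_cancel, norm_zero]
      positivity
    · show ‖-eb 2 + eb 2‖ ≤ 2 * c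
      rw [neg_add_cancel, norm_zero]
      positivity
    · exact absurd rfl hij

/-- Mean of the support function. -/
def dM (u : ℝ) : ℝ := Real.sin u + (Real.pi / 2 - u) * Real.cos u / 2

/-- First coordinate. -/
def dX (u : ℝ) : ℝ := (1 - (1 - Real.sin u) ^ 2 / 2) / dM u ^ 2

/-- Second coordinate. -/
def dY (u : ℝ) : ℝ := (3 / 2 * (Real.sin u - Real.sin u ^ 3 / 3)) / dM u ^ 3

/-- PROOF.  `t = pi/2 - u`, `cos t = sin u`, `sin t = cos u`.  `mcap_body`, `surf_mcap`, `vol_mcap`,
`av_supp_mcap` with `N = 2`, `c = sin u`: `av (supp ..) = 1 - 2 (1 - (1 + c)/2 - t sin t/4) = dM u`,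
`surf = 4 pi - 2 pi (1 - c)^2`, `vol = 4 pi/3 - 2 pi (2/3 - c + c^3/3)`; `body_values`. -/
theorem cap2_values (u : ℝ) (h0 : 0 < u) (h1 : u < Real.pi / 2) :
    IsBody (mcap nn2 (Real.sin u)) ∧ bX (mcap nn2 (Real.sin u)) = dX u ∧
      bY (mcap nn2 (Real.sin u)) = dY u := by
  have hpi := Real.pi_pos
  have hs0 : 0 < Real.sin u := Real.sin_pos_of_pos_of_lt_pi h0 (by linarith)
  have hc0 : 0 < Real.cos u := Real.cos_pos_of_mem_Ioo ⟨by linarith, h1⟩
  have hs1 : Real.sin u < 1 := by
    have := Real.sin_sq_add_cos_sq u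
    nlinarith
  have hsep := nn2_sep (Real.sin u) hs0.le
  have hb := mcap_body hsep hs0 hs1.le
  have hcos : Real.cos (Real.pi / 2 - u) = Real.sin u := Real.cos_pi_div_two_sub u
  have hsin : Real.sin (Real.pi / 2 - u) = Real.cos u := Real.sin_pi_div_two_sub u
  have hav1 := av_supp_capB' (Real.pi / 2 - u) (by linarith) (by linarith)
  rw [hcos, hsin] at hav1
  have hav : av (supp (mcap nn2 (Real.sin u))) = dM u := by
    rw [av_supp_mcap hsep hs0 hs1.le, hav1]
    unfold dM
    push_cast
    ring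
  have hM : 0 < dM u := by
    unfold dM
    have : 0 < Real.pi / 2 - u := by linarith
    positivity
  obtain ⟨-, -, hX, hY⟩ := body_values hb
  refine ⟨hb, ?_, ?_⟩
  · rw [hX, surf_mcap hsep hs0 hs1, hav]
    unfold dX
    push_cast
    field_simp
    ring
  · rw [hY, vol_mcap hsep hs0.le hs1.le, hav]
    unfold dY
    push_cast
    field_simp
    ring

end

end Pool.Agent.Lib.MP_dabcc9_gt
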