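import Pool.Agent.Lib.MP_dabcc9_gt.DcU

/-! JOB D19.  Behaviour of the family at the disc. -/

open MeasureTheory Metric Set

namespace Pool.Agent.Lib.MP_dabcc9_gt

noncomputable section

theorem DcV_dM_zero : dM 0 = Real.pi / 4 := by
  unfold dM
  rw [Real.sin_zero, Real.cos_zero]
  ring

theorem DcV_hasDerivAt_dM : HasDerivAt dM (1 / 2) 0 := by
  have h1 : HasDerivAt (fun u : ℝ => Real.sin u + (Real.pi / 2 - u) * Real.cos u / 2)
      (Real.cos 0 + ((0 - 1) * Real.cos 0 + (Real.pi / 2 - 0) * (-Real.sin 0)) / 2) 0 := by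
    have h2 : HasDerivAt (fun u : ℝ => Real.pi / 2 - u) (0 - 1) 0 :=
      (hasDerivAt_const (0 : ℝ) (Real.pi / 2)).sub (hasDerivAt_id (0 : ℝ))
    exact (Real.hasDerivAt_sin 0).add ((h2.mul (Real.hasDerivAt_cos 0)).div_const 2)
  have e : (Real.cos 0 + ((0 - 1) * Real.cos 0 + (Real.pi / 2 - 0) * (-Real.sin 0)) / 2) = 1 / 2 := by
    rw [Real.sin_zero, Real.cos_zero]
    ring
  rw [e] at h1
  exact h1

theorem DcV_dM_pos {u : ℝ} (h0 : 0 ≤ u) (h1 : u < Real.pi / 2) : 0 < dM u := by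
  have hpi := Real.pi_pos
  have hs : 0 ≤ Real.sin u := Real.sin_nonneg_of_nonneg_of_le_pi h0 (by linarith)
  have hc : 0 < Real.cos u := Real.cos_pos_of_mem_Ioo ⟨by linarith, h1⟩
  have h2 : 0 < Real.pi / 2 - u := by linarith
  unfold dM
  positivity

theorem DcV_pos {g : ℝ → ℝ} {d : ℝ} (hd : 0 < d) (h : HasDerivAt g d 0) :
    ∃ u0 : ℝ, 0 < u0 ∧ ∀ u : ℝ, 0 < u → u < u0 → g 0 < g u := by
  have h1 := (hasDerivAt_iff_tendsto_slope.1 h).eventually (lt_mem_nhds hd)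
  rw [eventually_nhdsWithin_iff, Metric.eventually_nhds_iff] at h1
  obtain ⟨e, he, h2⟩ := h1
  refine ⟨e, he, fun u hu hue => ?_⟩
  have h3 : 0 < slope g 0 u := by
    apply h2
    · rw [Real.dist_eq, sub_zero, abs_of_pos hu]
      exact hue
    · simpa using hu.ne'
  rw [slope_def_field, sub_zero] at h3
  have h4 := (div_pos_iff_of_pos_right hu).1 h3
  linarith

theorem dX_zero : dX 0 = 8 / Real.pi ^ 2 := by
  have hpi := Real.pi_pos
  unfold dX
  rw [DcV_dM_zero, Real.sin_zero]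
  field_simp
  norm_num

theorem dY_zero : dY 0 = 0 := by
  unfold dY
  rw [Real.sin_zero]
  simp

/-- `dM' (0) = 1/2`, `dM 0 = pi/4`. -/
theorem hasDerivAt_dX : HasDerivAt dX (8 / Real.pi ^ 2 * (2 - 4 / Real.pi)) 0 := by
  have hpi := Real.pi_pos
  have h1 : HasDerivAt (fun u : ℝ => 1 - (1 - Real.sin u) ^ 2 / 2)
      (0 - (((2 : ℕ) : ℝ) * (1 - Real.sin 0) ^ (2 - 1) * (0 - Real.cos 0)) / 2) 0 := by
    have h2 : HasDerivAt (fun u : ℝ => 1 - Real.sin u) (0 - Real.cos 0) 0 :=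
      (hasDerivAt_const (0 : ℝ) (1 : ℝ)).sub (Real.hasDerivAt_sin 0)
    exact (hasDerivAt_const (0 : ℝ) (1 : ℝ)).sub ((h2.pow 2).div_const 2)
  have h3 : HasDerivAt (fun u : ℝ => dM u ^ 2) (((2 : ℕ) : ℝ) * dM 0 ^ (2 - 1) * (1 / 2)) 0 :=
    DcV_hasDerivAt_dM.pow 2
  have hne : dM 0 ^ 2 ≠ 0 := by
    rw [DcV_dM_zero]
    positivity
  refine HasDerivAt.congr_deriv (h1.div h3 hne) ?_
  rw [DcV_dM_zero, Real.sin_zero, Real.cos_zero]
  push_cast
  field_simp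
  ring

theorem hasDerivAt_dY : HasDerivAt dY (96 / Real.pi ^ 3) 0 := by
  have hpi := Real.pi_pos
  have h1 : HasDerivAt (fun u : ℝ => 3 / 2 * (Real.sin u - Real.sin u ^ 3 / 3))
      (3 / 2 * (Real.cos 0 - (((3 : ℕ) : ℝ) * Real.sin 0 ^ (3 - 1) * Real.cos 0) / 3)) 0 := by
    exact ((Real.hasDerivAt_sin 0).sub (((Real.hasDerivAt_sin 0).pow 3).div_const 3)).const_mul (3 / 2)
  have h3 : HasDerivAt (fun u : ℝ => dM u ^ 3) (((3 : ℕ) : ℝ) * dM 0 ^ (3 - 1) * (1 / 2)) 0 :=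
    DcV_hasDerivAt_dM.pow 3
  have hne : dM 0 ^ 3 ≠ 0 := by
    rw [DcV_dM_zero]
    positivity
  refine HasDerivAt.congr_deriv (h1.div h3 hne) ?_
  rw [DcV_dM_zero, Real.sin_zero, Real.cos_zero]
  push_cast
  field_simp
  ring

/-- PROOF.  `g u = s (dX u - 8/pi^2) - dY u` has `g 0 = 0` and derivative
`s * 8/pi^2 (2 - 4/pi) - 96/pi^3 > 0` at `0`, so `g > 0` on some `(0, u0)`; likewise
`dX u > 8/pi^2` there.  `dX` is continuous on `[0, u0/2]` (`dM > 0`); intermediate value theorem: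
every `x` in `(8/pi^2, dX (u0/2))` is `dX u` for some `u ∈ (0, u0/2)`. -/
theorem disc_upper (s : ℝ) (hs : 6 / (Real.pi - 2) < s) : ∃ η : ℝ, 0 < η ∧
    ∀ x : ℝ, 8 / Real.pi ^ 2 < x → x < 8 / Real.pi ^ 2 + η →
      ∃ u : ℝ, 0 < u ∧ u < Real.pi / 2 ∧ dX u = x ∧ dY u ≤ s * (x - 8 / Real.pi ^ 2) := by
  have hpi := Real.pi_pos
  have hpi3 := Real.pi_gt_three
  have hg : HasDerivAt (fun u : ℝ => s * (dX u - 8 / Real.pi ^ 2) - dY u)
      (s * (8 / Real.pi ^ 2 * (2 - 4 / Real.pi)) - 96 / Real.pi ^ 3) 0 := by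
    have h1 : HasDerivAt (fun u : ℝ => dX u - 8 / Real.pi ^ 2)
        (8 / Real.pi ^ 2 * (2 - 4 / Real.pi)) 0 := hasDerivAt_dX.sub_const _
    exact (h1.const_mul s).sub hasDerivAt_dY
  have hd : 0 < s * (8 / Real.pi ^ 2 * (2 - 4 / Real.pi)) - 96 / Real.pi ^ 3 := by
    have h1 : 6 < s * (Real.pi - 2) := by
      rwa [div_lt_iff₀ (by linarith)] at hs
    have e : s * (8 / Real.pi ^ 2 * (2 - 4 / Real.pi)) - 96 / Real.pi ^ 3
        = 16 / Real.pi ^ 3 * (s * (Real.pi - 2) - 6) := by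
      field_simp
      ring
    rw [e]
    exact mul_pos (by positivity) (by linarith)
  have hdX : 0 < 8 / Real.pi ^ 2 * (2 - 4 / Real.pi) := by
    have h1 : 4 / Real.pi < 2 := by
      rw [div_lt_iff₀ hpi]
      linarith
    exact mul_pos (by positivity) (by linarith)
  obtain ⟨u1, hu1, h1⟩ := DcV_pos hd hg
  obtain ⟨u2, hu2, h2⟩ := DcV_pos hdX hasDerivAt_dX
  set w : ℝ := min (min u1 u2) (Real.pi / 2) / 2 with hw
  have hm : 0 < min (min u1 u2) (Real.pi / 2) := lt_min (lt_min hu1 hu2) (by linarith)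
  have hw0 : 0 < w := by rw [hw]; linarith
  have hwm : w < min (min u1 u2) (Real.pi / 2) := by rw [hw]; linarith
  have hw1 : w < u1 := hwm.trans_le ((min_le_left _ _).trans (min_le_left _ _))
  have hw2 : w < u2 := hwm.trans_le ((min_le_left _ _).trans (min_le_right _ _))
  have hw3 : w < Real.pi / 2 := hwm.trans_le (min_le_right _ _)
  have hcont : ContinuousOn dX (Icc 0 w) := by
    have hMc : Continuous dM := by
      unfold dM
      fun_prop
    intro u hu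
    apply ContinuousAt.continuousWithinAt
    unfold dX
    apply ContinuousAt.div
    · fun_prop
    · exact (hMc.pow 2).continuousAt
    · exact pow_ne_zero 2 (DcV_dM_pos hu.1 (lt_of_le_of_lt hu.2 hw3)).ne'
  have hXw : 8 / Real.pi ^ 2 < dX w := by
    have := h2 w hw0 hw2
    rwa [dX_zero] at this
  refine ⟨dX w - 8 / Real.pi ^ 2, by linarith, fun x hx1 hx2 => ?_⟩
  have hx : x ∈ Ioo (dX 0) (dX w) := by
    rw [dX_zero]
    exact ⟨hx1, by linarith⟩
  obtain ⟨u, hu, hux⟩ := intermediate_value_Ioo hw0.le hcont hx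
  refine ⟨u, hu.1, hu.2.trans hw3, hux, ?_⟩
  have h5 := h1 u hu.1 (hu.2.trans hw1)
  simp only [dX_zero, dY_zero] at h5
  rw [hux] at h5
  linarith

end

end Pool.Agent.Lib.MP_dabcc9_gt
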