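import Pool.Agent.Lib.MP_dabcc9_gt.DcV

/-! JOB D20.  The family lies below the tangent at the disc. -/

open MeasureTheory Metric Set

namespace Pool.Agent.Lib.MP_dabcc9_gt

noncomputable section

/-- Derivative of `dM`. -/
def DcW_M1 (u : ℝ) : ℝ := Real.cos u / 2 - (Real.pi / 2 - u) * Real.sin u / 2

/-- Second derivative of `dM`. -/
def DcW_M2 (u : ℝ) : ℝ := -((Real.pi / 2 - u) * Real.cos u / 2)

/-- Numerator of `dX`. -/
def DcW_P (u : ℝ) : ℝ := 1 - (1 - Real.sin u) ^ 2 / 2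

/-- Derivative of `DcW_P`. -/
def DcW_P1 (u : ℝ) : ℝ := (1 - Real.sin u) * Real.cos u

/-- Second derivative of `DcW_P`. -/
def DcW_P2 (u : ℝ) : ℝ := -Real.cos u * Real.cos u - (1 - Real.sin u) * Real.sin u

/-- Numerator of `dY`. -/
def DcW_Q (u : ℝ) : ℝ := 3 / 2 * (Real.sin u - Real.sin u ^ 3 / 3)

/-- Derivative of `DcW_Q`. -/
def DcW_Q1 (u : ℝ) : ℝ := 3 / 2 * (Real.cos u - Real.sin u ^ 2 * Real.cos u)

/-- Second derivative of `DcW_Q`. -/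
def DcW_Q2 (u : ℝ) : ℝ :=
  3 / 2 * (-Real.sin u - (2 * Real.sin u * Real.cos u * Real.cos u - Real.sin u ^ 2 * Real.sin u))

/-- `P - x0 M^2`. -/
def DcW_R (u : ℝ) : ℝ := DcW_P u - 8 / Real.pi ^ 2 * (dM u * dM u)

/-- Derivative of `DcW_R`. -/
def DcW_R1 (u : ℝ) : ℝ := DcW_P1 u - 8 / Real.pi ^ 2 * (DcW_M1 u * dM u + dM u * DcW_M1 u)

/-- Second derivative of `DcW_R`. -/
def DcW_R2 (u : ℝ) : ℝ := DcW_P2 u - 8 / Real.pi ^ 2 *
  ((DcW_M2 u * dM u + DcW_M1 u * DcW_M1 u) + (DcW_M1 u * DcW_M1 u + dM u * DcW_M2 u))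

theorem DcW_hasDerivAt_M (u : ℝ) : HasDerivAt dM (DcW_M1 u) u := by
  have h1 : HasDerivAt (fun u : ℝ => Real.sin u + (Real.pi / 2 - u) * Real.cos u / 2)
      (Real.cos u + ((0 - 1) * Real.cos u + (Real.pi / 2 - u) * (-Real.sin u)) / 2) u := by
    have h2 : HasDerivAt (fun u : ℝ => Real.pi / 2 - u) (0 - 1) u :=
      (hasDerivAt_const u (Real.pi / 2)).sub (hasDerivAt_id u)
    exact (Real.hasDerivAt_sin u).add ((h2.mul (Real.hasDerivAt_cos u)).div_const 2)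
  have h3 : HasDerivAt dM
      (Real.cos u + ((0 - 1) * Real.cos u + (Real.pi / 2 - u) * (-Real.sin u)) / 2) u := h1
  refine h3.congr_deriv ?_
  unfold DcW_M1
  ring

theorem DcW_hasDerivAt_M1 (u : ℝ) : HasDerivAt DcW_M1 (DcW_M2 u) u := by
  have h2 : HasDerivAt (fun u : ℝ => Real.pi / 2 - u) (0 - 1) u :=
    (hasDerivAt_const u (Real.pi / 2)).sub (hasDerivAt_id u)
  have h1 : HasDerivAt (fun u : ℝ => Real.cos u / 2 - (Real.pi / 2 - u) * Real.sin u / 2)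
      (-Real.sin u / 2 - ((0 - 1) * Real.sin u + (Real.pi / 2 - u) * Real.cos u) / 2) u :=
    ((Real.hasDerivAt_cos u).div_const 2).sub ((h2.mul (Real.hasDerivAt_sin u)).div_const 2)
  have h3 : HasDerivAt DcW_M1
      (-Real.sin u / 2 - ((0 - 1) * Real.sin u + (Real.pi / 2 - u) * Real.cos u) / 2) u := h1
  refine h3.congr_deriv ?_
  unfold DcW_M2
  ring

theorem DcW_hasDerivAt_P (u : ℝ) : HasDerivAt DcW_P (DcW_P1 u) u := by
  have h2 : HasDerivAt (fun u : ℝ => 1 - Real.sin u) (0 - Real.cos u) u :=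
    (hasDerivAt_const u (1 : ℝ)).sub (Real.hasDerivAt_sin u)
  have h1 : HasDerivAt (fun u : ℝ => 1 - (1 - Real.sin u) ^ 2 / 2)
      (0 - (((2 : ℕ) : ℝ) * (1 - Real.sin u) ^ (2 - 1) * (0 - Real.cos u)) / 2) u :=
    (hasDerivAt_const u (1 : ℝ)).sub ((h2.pow 2).div_const 2)
  have h3 : HasDerivAt DcW_P
      (0 - (((2 : ℕ) : ℝ) * (1 - Real.sin u) ^ (2 - 1) * (0 - Real.cos u)) / 2) u := h1
  refine h3.congr_deriv ?_
  unfold DcW_P1
  push_cast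
  ring

theorem DcW_hasDerivAt_P1 (u : ℝ) : HasDerivAt DcW_P1 (DcW_P2 u) u := by
  have h2 : HasDerivAt (fun u : ℝ => 1 - Real.sin u) (0 - Real.cos u) u :=
    (hasDerivAt_const u (1 : ℝ)).sub (Real.hasDerivAt_sin u)
  have h3 : HasDerivAt DcW_P1
      ((0 - Real.cos u) * Real.cos u + (1 - Real.sin u) * (-Real.sin u)) u :=
    h2.mul (Real.hasDerivAt_cos u)
  refine h3.congr_deriv ?_
  unfold DcW_P2
  ring

theorem DcW_hasDerivAt_Q (u : ℝ) : HasDerivAt DcW_Q (DcW_Q1 u) u := by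
  have h3 : HasDerivAt DcW_Q
      (3 / 2 * (Real.cos u - (((3 : ℕ) : ℝ) * Real.sin u ^ (3 - 1) * Real.cos u) / 3)) u :=
    ((Real.hasDerivAt_sin u).sub (((Real.hasDerivAt_sin u).pow 3).div_const 3)).const_mul (3 / 2)
  refine h3.congr_deriv ?_
  unfold DcW_Q1
  push_cast
  ring

theorem DcW_hasDerivAt_Q1 (u : ℝ) : HasDerivAt DcW_Q1 (DcW_Q2 u) u := by
  have h3 : HasDerivAt DcW_Q1
      (3 / 2 * (-Real.sin u - ((((2 : ℕ) : ℝ) * Real.sin u ^ (2 - 1) * Real.cos u) * Real.cos u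
        + Real.sin u ^ 2 * (-Real.sin u)))) u :=
    ((Real.hasDerivAt_cos u).sub
      (((Real.hasDerivAt_sin u).pow 2).mul (Real.hasDerivAt_cos u))).const_mul (3 / 2)
  refine h3.congr_deriv ?_
  unfold DcW_Q2
  push_cast
  ring

theorem DcW_hasDerivAt_R (u : ℝ) : HasDerivAt DcW_R (DcW_R1 u) u :=
  (DcW_hasDerivAt_P u).sub
    (((DcW_hasDerivAt_M u).mul (DcW_hasDerivAt_M u)).const_mul (8 / Real.pi ^ 2))

theorem DcW_hasDerivAt_R1 (u : ℝ) : HasDerivAt DcW_R1 (DcW_R2 u) u :=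
  (DcW_hasDerivAt_P1 u).sub
    ((((DcW_hasDerivAt_M1 u).mul (DcW_hasDerivAt_M u)).add
      ((DcW_hasDerivAt_M u).mul (DcW_hasDerivAt_M1 u))).const_mul (8 / Real.pi ^ 2))

/-- The function `g`. -/
def DcW_g (u : ℝ) : ℝ := 6 / (Real.pi - 2) * (DcW_R u * (dM u * dM u))
  - 2 / 3 * (DcW_R u * DcW_R u) - DcW_Q u * dM u

/-- Its derivative. -/
def DcW_g1 (u : ℝ) : ℝ := 6 / (Real.pi - 2) * (DcW_R1 u * (dM u * dM u)
    + DcW_R u * (DcW_M1 u * dM u + dM u * DcW_M1 u))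
  - 2 / 3 * (DcW_R1 u * DcW_R u + DcW_R u * DcW_R1 u) - (DcW_Q1 u * dM u + DcW_Q u * DcW_M1 u)

theorem DcW_hasDerivAt_g (u : ℝ) : HasDerivAt DcW_g (DcW_g1 u) u := by
  have hM := DcW_hasDerivAt_M u
  have hR := DcW_hasDerivAt_R u
  have hQ := DcW_hasDerivAt_Q u
  exact (((hR.mul (hM.mul hM)).const_mul (6 / (Real.pi - 2))).sub
    ((hR.mul hR).const_mul (2 / 3))).sub (hQ.mul hM)

theorem DcW_hasDerivAt_g1 (u : ℝ) : HasDerivAt DcW_g1
    (6 / (Real.pi - 2) * ((DcW_R2 u * (dM u * dM u)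
        + DcW_R1 u * (DcW_M1 u * dM u + dM u * DcW_M1 u))
      + (DcW_R1 u * (DcW_M1 u * dM u + dM u * DcW_M1 u)
        + DcW_R u * ((DcW_M2 u * dM u + DcW_M1 u * DcW_M1 u)
          + (DcW_M1 u * DcW_M1 u + dM u * DcW_M2 u))))
    - 2 / 3 * ((DcW_R2 u * DcW_R u + DcW_R1 u * DcW_R1 u)
      + (DcW_R1 u * DcW_R1 u + DcW_R u * DcW_R2 u))
    - ((DcW_Q2 u * dM u + DcW_Q1 u * DcW_M1 u) + (DcW_Q1 u * DcW_M1 u + DcW_Q u * DcW_M2 u))) u := by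
  have hM := DcW_hasDerivAt_M u
  have hM1 := DcW_hasDerivAt_M1 u
  have hR := DcW_hasDerivAt_R u
  have hR1 := DcW_hasDerivAt_R1 u
  have hQ := DcW_hasDerivAt_Q u
  have hQ1 := DcW_hasDerivAt_Q1 u
  exact ((((hR1.mul (hM.mul hM)).add (hR.mul ((hM1.mul hM).add (hM.mul hM1)))).const_mul
    (6 / (Real.pi - 2))).sub
    (((hR1.mul hR).add (hR.mul hR1)).const_mul (2 / 3))).sub ((hQ1.mul hM).add (hQ.mul hM1))

theorem DcW_vals : DcW_M1 0 = 1 / 2 ∧ DcW_M2 0 = -(Real.pi / 4) ∧ DcW_Q 0 = 0 ∧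
    DcW_Q1 0 = 3 / 2 ∧ DcW_Q2 0 = 0 ∧ DcW_R 0 = 0 ∧ DcW_R1 0 = 1 - 2 / Real.pi ∧
    DcW_R2 0 = -(4 / Real.pi ^ 2) := by
  have hpi := Real.pi_pos
  refine ⟨?_, ?_, ?_, ?_, ?_, ?_, ?_, ?_⟩
  · unfold DcW_M1
    rw [Real.sin_zero, Real.cos_zero]
    ring
  · unfold DcW_M2
    rw [Real.cos_zero]
    ring
  · unfold DcW_Q
    rw [Real.sin_zero]
    ring
  · unfold DcW_Q1
    rw [Real.sin_zero, Real.cos_zero]
    ring
  · unfold DcW_Q2
    rw [Real.sin_zero, Real.cos_zero]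
    ring
  · unfold DcW_R DcW_P
    rw [Real.sin_zero, DcV_dM_zero]
    field_simp
    ring
  · unfold DcW_R1 DcW_P1 DcW_M1
    rw [Real.sin_zero, Real.cos_zero, DcV_dM_zero]
    field_simp
    ring
  · unfold DcW_R2 DcW_P2 DcW_M1 DcW_M2
    rw [Real.sin_zero, Real.cos_zero, DcV_dM_zero]
    field_simp
    ring

theorem DcW_g_zero : DcW_g 0 = 0 := by
  obtain ⟨h1, h2, h3, h4, h5, h6, h7, h8⟩ := DcW_vals
  unfold DcW_g
  rw [h3, h6]
  ring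

theorem DcW_g1_zero : DcW_g1 0 = 0 := by
  have hpi := Real.pi_pos
  have hpi3 := Real.pi_gt_three
  have hne : Real.pi - 2 ≠ 0 := by
    have : (0 : ℝ) < Real.pi - 2 := by linarith
    exact this.ne'
  obtain ⟨h1, h2, h3, h4, h5, h6, h7, h8⟩ := DcW_vals
  unfold DcW_g1
  rw [h1, h3, h4, h6, h7, DcV_dM_zero]
  field_simp
  ring

theorem DcW_g2_pos : 0 < (6 / (Real.pi - 2) * ((DcW_R2 0 * (dM 0 * dM 0)
        + DcW_R1 0 * (DcW_M1 0 * dM 0 + dM 0 * DcW_M1 0))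
      + (DcW_R1 0 * (DcW_M1 0 * dM 0 + dM 0 * DcW_M1 0)
        + DcW_R 0 * ((DcW_M2 0 * dM 0 + DcW_M1 0 * DcW_M1 0)
          + (DcW_M1 0 * DcW_M1 0 + dM 0 * DcW_M2 0))))
    - 2 / 3 * ((DcW_R2 0 * DcW_R 0 + DcW_R1 0 * DcW_R1 0)
      + (DcW_R1 0 * DcW_R1 0 + DcW_R 0 * DcW_R2 0))
    - ((DcW_Q2 0 * dM 0 + DcW_Q1 0 * DcW_M1 0)
      + (DcW_Q1 0 * DcW_M1 0 + DcW_Q 0 * DcW_M2 0))) := by
  have hpi := Real.pi_pos
  have hpi3 := Real.pi_gt_d2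
  have hpi4 := Real.pi_lt_d2
  have hp : (0 : ℝ) < Real.pi - 2 := by linarith
  have hne : Real.pi - 2 ≠ 0 := hp.ne'
  obtain ⟨h1, h2, h3, h4, h5, h6, h7, h8⟩ := DcW_vals
  rw [h1, h2, h3, h4, h5, h6, h7, h8, DcV_dM_zero]
  have e : (6 / (Real.pi - 2) * ((-(4 / Real.pi ^ 2) * (Real.pi / 4 * (Real.pi / 4))
        + (1 - 2 / Real.pi) * (1 / 2 * (Real.pi / 4) + Real.pi / 4 * (1 / 2)))
      + ((1 - 2 / Real.pi) * (1 / 2 * (Real.pi / 4) + Real.pi / 4 * (1 / 2))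
        + 0 * ((-(Real.pi / 4) * (Real.pi / 4) + 1 / 2 * (1 / 2))
          + (1 / 2 * (1 / 2) + Real.pi / 4 * -(Real.pi / 4)))))
    - 2 / 3 * ((-(4 / Real.pi ^ 2) * 0 + (1 - 2 / Real.pi) * (1 - 2 / Real.pi))
      + ((1 - 2 / Real.pi) * (1 - 2 / Real.pi) + 0 * -(4 / Real.pi ^ 2)))
    - ((0 * (Real.pi / 4) + 3 / 2 * (1 / 2)) + (3 / 2 * (1 / 2) + 0 * -(Real.pi / 4)))) =
      (9 * (Real.pi - 3) * Real.pi ^ 2 - 8 * (Real.pi - 2) ^ 3) /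
        (6 * (Real.pi - 2) * Real.pi ^ 2) := by
    field_simp
    ring
  rw [e]
  apply div_pos _ (by positivity)
  have h9 : (3.14 : ℝ) ^ 2 ≤ Real.pi ^ 2 := pow_le_pow_left₀ (by norm_num) hpi3.le 2
  have h10 : (Real.pi - 2) ^ 3 ≤ (1.15 : ℝ) ^ 3 := pow_le_pow_left₀ hp.le (by linarith) 3
  have h11 : (0.14 : ℝ) * (3.14 : ℝ) ^ 2 ≤ (Real.pi - 3) * Real.pi ^ 2 :=
    mul_le_mul (by linarith) h9 (by norm_num) (by linarith)
  norm_num at h10 h11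
  nlinarith

theorem DcW_g_pos : ∃ u0 : ℝ, 0 < u0 ∧ ∀ u : ℝ, 0 < u → u < u0 → 0 < DcW_g u := by
  obtain ⟨u0, hu0, h1⟩ := DcV_pos DcW_g2_pos (DcW_hasDerivAt_g1 0)
  refine ⟨u0, hu0, fun u hu hu' => ?_⟩
  obtain ⟨v, hv, hvv⟩ := exists_hasDerivAt_eq_slope DcW_g DcW_g1 hu
    (fun x _ => (DcW_hasDerivAt_g x).continuousAt.continuousWithinAt)
    (fun x _ => DcW_hasDerivAt_g x)
  have h2 := h1 v hv.1 (hv.2.trans hu')
  rw [DcW_g1_zero, hvv, DcW_g_zero, sub_zero, sub_zero] at h2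
  exact (div_pos_iff_of_pos_right hu).1 h2

/-- PROOF.  `s = 6/(pi-2)`, `x0 = 8/pi^2`, `P = 1 - (1 - sin u)^2/2`,
`Q = 3/2 (sin u - sin^3 u/3)`, `M = dM u > 0`.  The function
`g u = s (P - x0 M^2) M^2 - 2/3 (P - x0 M^2)^2 - Q M` (this is `M^4` times the wanted inequality)
has `g 0 = 0`, `g' 0 = 0`, `g'' 0 > 0` (in fact at second order
`dY = s (x - x0) - q (x - x0)^2 + ..`, `q = 3 pi^2 (pi-3)/(4 (pi-2)^3) = 0.704..`), so `g > 0` on
some `(0, u0)`: compute `g'` with `HasDerivAt` at every point, `HasDerivAt g' c 0` with `c > 0`,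
so `g' > 0` on some `(0, u0)` and `g` is increasing there.  Also `dX > x0` on some `(0, u0)`
(`hasDerivAt_dX`) and the intermediate value theorem for `dX` as in `disc_upper`. -/
theorem disc_upper2 : ∃ η : ℝ, 0 < η ∧
    ∀ x : ℝ, 8 / Real.pi ^ 2 < x → x < 8 / Real.pi ^ 2 + η →
      ∃ u : ℝ, 0 < u ∧ u < Real.pi / 2 ∧ dX u = x ∧
        dY u ≤ 6 / (Real.pi - 2) * (x - 8 / Real.pi ^ 2)
          - 2 / 3 * (x - 8 / Real.pi ^ 2) ^ 2 := by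
  have hpi := Real.pi_pos
  have hpi3 := Real.pi_gt_three
  have hdX : 0 < 8 / Real.pi ^ 2 * (2 - 4 / Real.pi) := by
    have h1 : 4 / Real.pi < 2 := by
      rw [div_lt_iff₀ hpi]
      linarith
    exact mul_pos (by positivity) (by linarith)
  obtain ⟨u1, hu1, h1⟩ := DcW_g_pos
  obtain ⟨u2, hu2, h2⟩ := DcV_pos hdX hasDerivAt_dX
  set w : ℝ := min (min u1 u2) (Real.pi / 2) / 2 with hw
  have hm : 0 < min (min u1 u2) (Real.pi / 2) := lt_min (lt_min hu1 hu2) (by linarith)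
  have hw0 : 0 < w := by rw [hw]; linarith
  have hwm : w < min (min u1 u2) (Real.pi / 2) := by rw [hw]; linarith
  have hw1 : w < u1 := hwm.trans_le ((min_le_left _ _).trans (min_le_left _ _))
  have hw2 : w < u2 := hwm.trans_le ((min_le_left _ _).trans (min_le_right _ _))
  have hw3 : w < Real.pi / 2 := hwm.trans_le (min_le_right _ _)
  have hcont : ContinuousOn dX (Icc 0 w) := by
    have hMc : Continuous dM := by
      unfold dM
      fun_prop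
    intro u hu
    apply ContinuousAt.continuousWithinAt
    unfold dX
    apply ContinuousAt.div
    · fun_prop
    · exact (hMc.pow 2).continuousAt
    · exact pow_ne_zero 2 (DcV_dM_pos hu.1 (lt_of_le_of_lt hu.2 hw3)).ne'
  have hXw : 8 / Real.pi ^ 2 < dX w := by
    have := h2 w hw0 hw2
    rwa [dX_zero] at this
  refine ⟨dX w - 8 / Real.pi ^ 2, by linarith, fun x hx1 hx2 => ?_⟩
  have hx : x ∈ Ioo (dX 0) (dX w) := by
    rw [dX_zero]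
    exact ⟨hx1, by linarith⟩
  obtain ⟨u, hu, hux⟩ := intermediate_value_Ioo hw0.le hcont hx
  refine ⟨u, hu.1, hu.2.trans hw3, hux, ?_⟩
  have h5 := h1 u hu.1 (hu.2.trans hw1)
  have hM : 0 < dM u := DcV_dM_pos hu.1.le (hu.2.trans hw3)
  have hXu : dX u = DcW_P u / dM u ^ 2 := rfl
  have hYu : dY u = DcW_Q u / dM u ^ 3 := rfl
  have hdiff : x - 8 / Real.pi ^ 2 = DcW_R u / dM u ^ 2 := by
    rw [← hux, hXu]
    unfold DcW_R
    field_simp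
  rw [hdiff, hYu]
  have e : 6 / (Real.pi - 2) * (DcW_R u / dM u ^ 2) - 2 / 3 * (DcW_R u / dM u ^ 2) ^ 2
      - DcW_Q u / dM u ^ 3 = DcW_g u / dM u ^ 4 := by
    unfold DcW_g
    have hne : Real.pi - 2 ≠ 0 := by
      have : (0 : ℝ) < Real.pi - 2 := by linarith
      exact this.ne'
    field_simp
  have h6 : 0 < DcW_g u / dM u ^ 4 := by positivity
  linarith

end

end Pool.Agent.Lib.MP_dabcc9_gt
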