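import Pool.Agent.Lib.MP_dabcc9_gt.Ibp

/-! JOB A7a. Euler operator, spherical Laplacian of homogeneous polynomials. -/

open MvPolynomial

namespace Pool.Agent.Lib.MP_dabcc9_gt

noncomputable section

/-- Euler operator `x . grad`. -/
def Eu : Derivation ℝ P P := ∑ i, (X i : P) • pderiv i

/-- Ordinary Laplacian. -/
def lap0 (p : P) : P := ∑ i, pderiv i (pderiv i p)

theorem DecA_comm (i j : Fin 3) (a : P) : pderiv i (pderiv j a) = pderiv j (pderiv i a) := by
  have h : ⁅(pderiv i : Derivation ℝ P P), (pderiv j : Derivation ℝ P P)⁆ = 0 := by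
    apply MvPolynomial.derivation_ext
    intro k
    simp only [Derivation.commutator_apply, pderiv_X, Derivation.coe_zero, Pi.zero_apply]
    have key : ∀ u v : Fin 3, pderiv u (Pi.single (M := fun _ => P) v 1 k) = 0 := by
      intro u v
      by_cases h : k = v
      · subst h
        simp
      · rw [Pi.single_eq_of_ne h]
        simp
    rw [key, key, sub_zero]
  have h2 := congrArg (fun D => D a) h
  simp only [Derivation.commutator_apply, Derivation.coe_zero, Pi.zero_apply] at h2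
  exact sub_eq_zero.mp h2

theorem DecA_Eu_apply (p : P) : Eu p = ∑ i, (X i : P) * pderiv i p := by
  simp [Eu, Fin.sum_univ_three]

/-- `Lap p = |x|^2 lap0 p - Eu (Eu p) - Eu p`: expand everything in `pderiv` (these commute). -/
theorem Lap_eq (p : P) :
    Lap p = (∑ j, (X j : P) * X j) * lap0 p - Eu (Eu p) - Eu p := by
  have e0 : (0 : Fin 3) + 1 = 1 := rfl
  have e1 : (1 : Fin 3) + 1 = 2 := rfl
  have e2 : (2 : Fin 3) + 1 = 0 := rfl
  have e3 : (0 : Fin 3) + 2 = 2 := rfl
  have e4 : (1 : Fin 3) + 2 = 0 := rfl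
  have e5 : (2 : Fin 3) + 2 = 1 := rfl
  have n01 : pderiv (0 : Fin 3) (X 1 : P) = 0 := pderiv_X_of_ne (by decide)
  have n02 : pderiv (0 : Fin 3) (X 2 : P) = 0 := pderiv_X_of_ne (by decide)
  have n10 : pderiv (1 : Fin 3) (X 0 : P) = 0 := pderiv_X_of_ne (by decide)
  have n12 : pderiv (1 : Fin 3) (X 2 : P) = 0 := pderiv_X_of_ne (by decide)
  have n20 : pderiv (2 : Fin 3) (X 0 : P) = 0 := pderiv_X_of_ne (by decide)
  have n21 : pderiv (2 : Fin 3) (X 1 : P) = 0 := pderiv_X_of_ne (by decide)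
  simp only [Lap, lap0, DecA_Eu_apply, L_apply, Fin.sum_univ_three, e0, e1, e2, e3, e4, e5,
    map_add, map_sub, pderiv_mul, pderiv_X_self, n01, n02, n10, n12, n20, n21]
  rw [DecA_comm 1 0 p, DecA_comm 2 0 p, DecA_comm 2 1 p]
  ring

/-- Euler identity for homogeneous polynomials. -/
theorem Eu_homog (p : P) (n : ℕ) (hp : p.IsHomogeneous n) : Eu p = (n : ℝ) • p := by
  rw [DecA_Eu_apply, hp.sum_X_mul_pderiv, Nat.cast_smul_eq_nsmul]

/-- For `p` homogeneous of degree `n`: on the sphere `Lap p + n(n+1) p = lap0 p`. -/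
theorem Lap_homog (p : P) (n : ℕ) (hp : p.IsHomogeneous n) :
    EqS (Lap p) (lap0 p - ((n : ℝ) * (n + 1)) • p) := by
  intro x hx
  rw [Lap_eq, Eu_homog p n hp, Derivation.map_smul, Eu_homog p n hp]
  simp only [ev_sub, ev_mul, ev_smul, Fin.sum_univ_three, ev_add, ev_X]
  have h := norm_sq_eq3 x
  rw [hx] at h
  have h2 : x 0 * x 0 + x 1 * x 1 + x 2 * x 2 = 1 := by linarith
  rw [h2]
  ring

/-- Consequence: `n (n+1) E p = E (lap0 p)` for `p` homogeneous of degree `n`. -/
theorem EE_homog (p : P) (n : ℕ) (hp : p.IsHomogeneous n) :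
    ((n : ℝ) * (n + 1)) * EE p = EE (lap0 p) := by
  have h := EE_congr (Lap_homog p n hp)
  rw [EE_Lap, EE_sub, EE_smul] at h
  linarith

end

end Pool.Agent.Lib.MP_dabcc9_gt
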