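import Pool.Agent.Lib.MP_dabcc9_gt.DecA

/-! JOB A7b. Eigenfunction decomposition. -/

open MvPolynomial

namespace Pool.Agent.Lib.MP_dabcc9_gt

noncomputable section

theorem DecB_lap0_homog (p : P) (n : ℕ) (hp : p.IsHomogeneous n) :
    (lap0 p).IsHomogeneous (n - 2) := by
  unfold lap0
  have h : ∀ i ∈ (Finset.univ : Finset (Fin 3)),
      (pderiv i (pderiv i p)).IsHomogeneous (n - 2) := by
    intro i _
    have h1 := (hp.pderiv (i := i)).pderiv (i := i)
    have h2 : n - 1 - 1 = n - 2 := by omega
    rwa [h2] at h1
  exact MvPolynomial.IsHomogeneous.sum _ _ _ h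

theorem DecB_Lap_sum (s : Finset ℕ) (f : ℕ → P) :
    Lap (∑ k ∈ s, f k) = ∑ k ∈ s, Lap (f k) := by
  induction s using Finset.induction_on with
  | empty =>
    simp only [Finset.sum_empty]
    have := Lap_C 0
    simpa using this
  | insert a s ha ih => rw [Finset.sum_insert ha, Finset.sum_insert ha, Lap_add, ih]

theorem DecB_Lap_smul (c : ℝ) (a : P) : Lap (c • a) = c • Lap a := by
  rw [MvPolynomial.smul_eq_C_mul, MvPolynomial.smul_eq_C_mul, Lap_C_mul]

/-- For `totalDegree p <= n` the polynomial `Lap p + n(n+1) p` agrees on the sphere with one of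
degree `< n` (`= 0` if `n = 0`).  PROOF: split `p` in homogeneous components
`p_k` (`MvPolynomial.sum_homogeneousComponent`), use `Lap_homog`:
`Lap p + n(n+1) p = ∑_k (lap0 p_k + (n(n+1) - k(k+1)) p_k)`; the `k = n` term is `lap0 p_n`. -/
theorem Lap_lower (n : ℕ) (p : P) (hp : p.totalDegree ≤ n + 1) :
    ∃ r : P, r.totalDegree ≤ n ∧
      EqS (Lap p + (((n : ℝ) + 1) * (n + 2)) • p) r := by
  classical
  have hsum : p = ∑ k ∈ Finset.range (n + 2), homogeneousComponent k p := by
    conv_lhs => rw [← MvPolynomial.sum_homogeneousComponent p]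
    apply Finset.sum_subset
    · intro k hk
      simp only [Finset.mem_range] at hk ⊢
      omega
    · intro k _ hk
      simp only [Finset.mem_range] at hk
      exact homogeneousComponent_eq_zero k p (by omega)
  refine ⟨∑ k ∈ Finset.range (n + 2), (lap0 (homogeneousComponent k p) +
      ((((n : ℝ) + 1) * (n + 2)) - (k : ℝ) * (k + 1)) • homogeneousComponent k p), ?_, ?_⟩
  · apply MvPolynomial.totalDegree_finsetSum_le
    intro k hk
    simp only [Finset.mem_range] at hk
    by_cases hkn : k = n + 1
    · have h0 : ((((n : ℝ) + 1) * (n + 2)) - (k : ℝ) * (k + 1)) = 0 := by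
        rw [hkn]; push_cast; ring
      rw [h0, zero_smul, add_zero]
      have := (DecB_lap0_homog _ k (homogeneousComponent_isHomogeneous k p)).totalDegree_le
      omega
    · refine (MvPolynomial.totalDegree_add _ _).trans (max_le ?_ ?_)
      · have := (DecB_lap0_homog _ k (homogeneousComponent_isHomogeneous k p)).totalDegree_le
        omega
      · refine (MvPolynomial.totalDegree_smul_le _ _).trans ?_
        have := (homogeneousComponent_isHomogeneous k p).totalDegree_le
        omega
  · intro x hx
    conv_lhs => rw [hsum]
    rw [DecB_Lap_sum, Finset.smul_sum, ← Finset.sum_add_distrib, ev_sum, ev_sum]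
    apply Finset.sum_congr rfl
    intro k _
    have h := Lap_homog _ k (homogeneousComponent_isHomogeneous k p) x hx
    rw [ev_add, h, ev_sub, ev_smul, ev_smul, ev_add, ev_smul]
    ring

/-- PROOF by induction on `N`.  `N = 0`: `p` is constant.  Step: `r` from `Lap_lower` for
`p` of degree `<= N+1`, `r = ∑_{n<=N} r_n` by induction; put
`g_n = r_n / ((N+1)(N+2) - n(n+1))` for `n <= N` and `g_{N+1} = p - ∑_{n<=N} g_n`; then on the sphere
`Lap g_{N+1} + (N+1)(N+2) g_{N+1} = r - ∑ ((N+1)(N+2) - n(n+1)) g_n = 0`. -/
theorem dec (N : ℕ) (p : P) (hp : p.totalDegree ≤ N) :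
    ∃ g : ℕ → P, (∀ n, (g n).totalDegree ≤ n) ∧
      (∀ n, EqS (Lap (g n)) (-(((n : ℝ) * (n + 1)) • g n))) ∧
      EqS p (∑ n ∈ Finset.range (N + 1), g n) := by
  induction N generalizing p with
  | zero =>
    have h0 : p.totalDegree = 0 := Nat.le_zero.mp hp
    rw [MvPolynomial.totalDegree_eq_zero_iff_eq_C] at h0
    refine ⟨fun n => if n = 0 then p else 0, ?_, ?_, ?_⟩
    · intro n
      by_cases hn : n = 0
      · simp only [hn, if_true]
        exact hp
      · simp [hn]
    · intro n
      by_cases hn : n = 0
      · simp only [hn, if_true]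
        rw [h0, Lap_C]
        intro x hx
        simp
      · simp only [hn, if_false]
        have h1 : Lap (0 : P) = 0 := by simpa using Lap_C 0
        rw [h1]
        intro x hx
        simp
    · intro x hx
      simp
  | succ N ih =>
    obtain ⟨r, hr, hrS⟩ := Lap_lower N p hp
    obtain ⟨f, hf1, hf2, hf3⟩ := ih r hr
    set c : ℕ → ℝ := fun n => (((N : ℝ) + 1) * (N + 2)) - (n : ℝ) * (n + 1) with hc
    set S : P := ∑ n ∈ Finset.range (N + 1), (c n)⁻¹ • f n with hS
    refine ⟨fun n => if n < N + 1 then (c n)⁻¹ • f n else if n = N + 1 then p - S else 0,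
      ?_, ?_, ?_⟩
    · intro n
      by_cases h1 : n < N + 1
      · simp only [h1, if_true]
        exact (MvPolynomial.totalDegree_smul_le _ _).trans (hf1 n)
      · by_cases h2 : n = N + 1
        · subst h2
          simp only [lt_irrefl, if_false, if_true]
          refine (MvPolynomial.totalDegree_sub _ _).trans (max_le hp ?_)
          rw [hS]
          apply MvPolynomial.totalDegree_finsetSum_le
          intro k hk
          simp only [Finset.mem_range] at hk
          exact ((MvPolynomial.totalDegree_smul_le _ _).trans (hf1 k)).trans (by omega)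
        · simp [h1, h2]
    · intro n
      by_cases h1 : n < N + 1
      · simp only [h1, if_true]
        intro x hx
        have := hf2 n x hx
        rw [DecB_Lap_smul, ev_smul, this, ev_neg, ev_neg, ev_smul, ev_smul, ev_smul]
        ring
      · by_cases h2 : n = N + 1
        · subst h2
          simp only [lt_irrefl, if_false, if_true]
          intro x hx
          have e1 := hrS x hx
          have e2 := hf3 x hx
          rw [ev_add, ev_smul] at e1
          rw [ev_sum] at e2
          have e3 : ev (Lap S) x + ((N : ℝ) + 1) * (N + 2) * ev S x = ev r x := by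
            rw [hS, DecB_Lap_sum, ev_sum, ev_sum, Finset.mul_sum, ← Finset.sum_add_distrib, e2]
            apply Finset.sum_congr rfl
            intro k hk
            simp only [Finset.mem_range] at hk
            have h4 := hf2 k x hx
            rw [DecB_Lap_smul, ev_smul, ev_smul, h4, ev_neg, ev_smul]
            have hck : c k ≠ 0 := by
              have : (k : ℝ) + 1 ≤ (N : ℝ) + 1 := by
                have : k + 1 ≤ N + 1 := by omega
                exact_mod_cast this
              have hk0 : (0 : ℝ) ≤ k := Nat.cast_nonneg k
              simp only [hc]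
              nlinarith
            have h5 : (c k)⁻¹ * (-(↑k * (↑k + 1) * ev (f k) x)) +
                (↑N + 1) * (↑N + 2) * ((c k)⁻¹ * ev (f k) x) =
                ((c k)⁻¹ * c k) * ev (f k) x := by
              simp only [hc]
              ring
            rw [h5, inv_mul_cancel₀ hck, one_mul]
          rw [Lap_sub, ev_sub, ev_neg, ev_smul, ev_sub]
          push_cast
          linear_combination e1 - e3
        · simp only [h1, h2, if_false]
          have h1 : Lap (0 : P) = 0 := by simpa using Lap_C 0
          rw [h1]
          intro x hx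
          simp
    · intro x hx
      rw [Finset.sum_range_succ]
      have h1 : ∑ n ∈ Finset.range (N + 1),
          (fun n => if n < N + 1 then (c n)⁻¹ • f n else if n = N + 1 then p - S else 0) n = S := by
        rw [hS]
        apply Finset.sum_congr rfl
        intro k hk
        simp only [Finset.mem_range] at hk
        simp [hk]
      rw [h1]
      simp only [lt_irrefl, if_false, if_true]
      rw [ev_add, ev_sub]
      ring

end

end Pool.Agent.Lib.MP_dabcc9_gt
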