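import Pool.Agent.Lib.MP_dabcc9_gt.Stmt

/-! Polynomials on the sphere, rotation derivations. -/

open MeasureTheory Metric Set MvPolynomial

namespace Pool.Agent.Lib.MP_dabcc9_gt

noncomputable section

/-- Real polynomials in three variables. -/
abbrev P := MvPolynomial (Fin 3) ℝ

/-- Value of a polynomial at a point. -/
def ev (p : P) (x : E3) : ℝ := MvPolynomial.eval (fun i => x i) p

/-- Rotation derivation about the `i`-th axis: derivative in the direction `e_i × x`. -/
def L (i : Fin 3) : Derivation ℝ P P :=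
  (X (i + 1) : P) • pderiv (i + 2) - (X (i + 2) : P) • pderiv (i + 1)

/-- `<grad a, grad b>` on the sphere. -/
def Gam (a b : P) : P := ∑ i, L i a * L i b

/-- Spherical Laplacian. -/
def Lap (a : P) : P := ∑ i, L i (L i a)

/-- Sum of products of second rotation derivatives. -/
def SS (a b : P) : P := ∑ i, ∑ j, L i (L j a) * L i (L j b)

/-- On the sphere: product of the trace free parts of the Hessians. -/
def NN (a b : P) : P := SS a b - Gam a b - C (1 / 2) * (Lap a * Lap b)

/-- On the sphere: Hessian of `p` applied twice to the gradient of `d`. -/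
def HQ (p d : P) : P := ∑ i, ∑ j, L i d * L j d * L i (L j p)

/-- On the sphere: determinant of `Hess p + p g`. -/
def detA (p : P) : P :=
  C (1 / 2) * (Lap p * Lap p + 2 * (p * Lap p) + 2 * (p * p) - SS p p + Gam p p)

/-- `Hess p + p g` is nonnegative on the sphere; `w = x × tau`. -/
def ConvS (p : P) : Prop := ∀ x : E3, ‖x‖ = 1 → ∀ w : E3, inner ℝ w x = 0 →
  0 ≤ (∑ i, ∑ j, w i * w j * ev (L i (L j p)) x) + ev p x * ‖w‖ ^ 2

/-- `Hess p + p g` is positive definite on the sphere. -/
def ConvSS (p : P) : Prop := ∀ x : E3, ‖x‖ = 1 → ∀ w : E3, w ≠ 0 → inner ℝ w x = 0 →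
  0 < (∑ i, ∑ j, w i * w j * ev (L i (L j p)) x) + ev p x * ‖w‖ ^ 2

/-- Average of a polynomial over the sphere. -/
def EE (p : P) : ℝ := av (ev p)

/-- `a` and `b` agree on the sphere. -/
def EqS (a b : P) : Prop := ∀ x : E3, ‖x‖ = 1 → ev a x = ev b x

/-- A quadratic form as a polynomial. -/
def qf (Q : Matrix (Fin 3) (Fin 3) ℝ) : P := ∑ i, ∑ j, C (Q i j) * (X i * X j)

/-- The convex body with support function `p`. -/
def body (p : P) : Set E3 := {y | ∀ x : E3, ‖x‖ = 1 → inner ℝ y x ≤ ev p x}

end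

end Pool.Agent.Lib.MP_dabcc9_gt
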