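import Pool.Agent.Lib.MP_dabcc9_gt.DecA

/-! JOB A9a. Quadratic forms. -/

open MvPolynomial Matrix

namespace Pool.Agent.Lib.MP_dabcc9_gt

noncomputable section

/-- Symmetric and traceless. -/
def ST (Q : Matrix (Fin 3) (Fin 3) ℝ) : Prop := Q.IsSymm ∧ Q.trace = 0

/-- `trace Q^2`, the sum of the squares of the entries. -/
def t2 (Q : Matrix (Fin 3) (Fin 3) ℝ) : ℝ := ∑ i, ∑ j, Q i j ^ 2

private theorem deg2a_homog (Q : Matrix (Fin 3) (Fin 3) ℝ) : (qf Q).IsHomogeneous 2 := by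
  unfold qf
  refine IsHomogeneous.sum _ _ _ fun i _ => IsHomogeneous.sum _ _ _ fun j _ => ?_
  have h := (isHomogeneous_C (Fin 3) (Q i j)).mul ((isHomogeneous_X ℝ i).mul (isHomogeneous_X ℝ j))
  simpa using h

private theorem deg2a_pd {Q : Matrix (Fin 3) (Fin 3) ℝ} (hQ : ST Q) (i : Fin 3) :
    pderiv i (qf Q) = 2 * ∑ j, C (Q i j) * X j := by
  have h01 := hQ.1.apply 0 1
  have h02 := hQ.1.apply 0 2
  have h12 := hQ.1.apply 1 2
  unfold qf
  fin_cases i <;>
    simp [Fin.sum_univ_three, Derivation.leibniz, pderiv_X, h01, h02, h12] <;> ring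

private theorem deg2a_pd2 {Q : Matrix (Fin 3) (Fin 3) ℝ} (hQ : ST Q) (i : Fin 3) :
    pderiv i (pderiv i (qf Q)) = 2 * C (Q i i) := by
  rw [deg2a_pd hQ]
  have h2 : (2 : P) = C 2 := (map_ofNat (C : ℝ →+* MvPolynomial (Fin 3) ℝ) 2).symm
  rw [h2, ← smul_eq_C_mul, Derivation.map_smul]
  fin_cases i <;> simp [Fin.sum_univ_three, Derivation.leibniz, pderiv_X, smul_eq_C_mul]

private theorem deg2a_lap {Q : Matrix (Fin 3) (Fin 3) ℝ} (hQ : ST Q) : lap0 (qf Q) = 0 := by
  unfold lap0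
  simp only [deg2a_pd2 hQ]
  rw [← Finset.mul_sum, ← map_sum]
  have : ∑ i, Q i i = 0 := hQ.2
  rw [this, map_zero, mul_zero]

private theorem deg2a_lap_mul (a b : P) : lap0 (a * b) =
    a * lap0 b + b * lap0 a + 2 * ∑ i, pderiv i a * pderiv i b := by
  unfold lap0
  rw [Finset.mul_sum, Finset.mul_sum, Finset.mul_sum, ← Finset.sum_add_distrib,
    ← Finset.sum_add_distrib]
  refine Finset.sum_congr rfl fun i _ => ?_
  simp only [Derivation.leibniz, smul_eq_mul, map_add]
  ring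

private theorem deg2a_lap_X (i : Fin 3) : lap0 (X i : P) = 0 := by
  unfold lap0
  refine Finset.sum_eq_zero fun j _ => ?_
  fin_cases i <;> fin_cases j <;> simp [pderiv_X]

private theorem deg2a_dX (i : Fin 3) (a : P) :
    ∑ k, pderiv k (X i : P) * pderiv k a = pderiv i a := by
  fin_cases i <;> simp [Fin.sum_univ_three, pderiv_X]

private theorem deg2a_dXX (i j : Fin 3) :
    pderiv i (X j : P) = if i = j then 1 else 0 := by
  fin_cases i <;> fin_cases j <;> simp [pderiv_X]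

private theorem deg2a_lap2 (i j : Fin 3) : lap0 (X i * X j : P) =
    2 * (if i = j then 1 else 0) := by
  rw [deg2a_lap_mul, deg2a_lap_X, deg2a_lap_X, deg2a_dX, deg2a_dXX]
  ring

private theorem deg2a_lap3 (i j k : Fin 3) : lap0 (X i * X j * X k : P) =
    2 * (X k * (if i = j then 1 else 0) + X i * (if k = j then 1 else 0) +
      X j * (if k = i then 1 else 0)) := by
  have h : ∑ l, pderiv l (X i * X j : P) * pderiv l (X k) = pderiv k (X i * X j : P) := by
    rw [← deg2a_dX k (X i * X j)]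
    exact Finset.sum_congr rfl fun l _ => mul_comm _ _
  rw [deg2a_lap_mul, deg2a_lap_X, deg2a_lap2, h, Derivation.leibniz, deg2a_dXX, deg2a_dXX,
    smul_eq_mul, smul_eq_mul]
  ring

private theorem deg2a_lap4 (i j k l : Fin 3) : lap0 (X i * X j * X k * X l : P) =
    2 * (X l * X k * (if i = j then 1 else 0) + X l * X i * (if k = j then 1 else 0) +
      X l * X j * (if k = i then 1 else 0) + X i * X j * (if l = k then 1 else 0) +
      X k * X i * (if l = j then 1 else 0) + X k * X j * (if l = i then 1 else 0)) := by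
  have h : ∑ m, pderiv m (X i * X j * X k : P) * pderiv m (X l) =
      pderiv l (X i * X j * X k : P) := by
    rw [← deg2a_dX l (X i * X j * X k)]
    exact Finset.sum_congr rfl fun m _ => mul_comm _ _
  rw [deg2a_lap_mul, deg2a_lap_X, deg2a_lap3, h, Derivation.leibniz, Derivation.leibniz,
    deg2a_dXX, deg2a_dXX, deg2a_dXX, smul_eq_mul, smul_eq_mul, smul_eq_mul, smul_eq_mul]
  ring

private theorem deg2a_ite (a : P) (h : Prop) [Decidable h] :
    EE (a * (if h then 1 else 0)) = EE a * (if h then 1 else 0) := by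
  split_ifs
  · rw [mul_one, mul_one]
  · rw [mul_zero, mul_zero, EE_zero]

/-- Exact polynomial identity: `qf Q` is a harmonic quadratic form. Expand all 9 terms. -/
theorem Lap_qf {Q : Matrix (Fin 3) (Fin 3) ℝ} (hQ : ST Q) : Lap (qf Q) = -(6 * qf Q) := by
  have h1 : Eu (qf Q) = ((2 : ℕ) : ℝ) • qf Q := Eu_homog _ 2 (deg2a_homog Q)
  rw [Lap_eq, deg2a_lap hQ, h1, Derivation.map_smul, h1, smul_eq_C_mul, smul_eq_C_mul]
  push_cast
  have h2 : (C 2 : P) = 2 := map_ofNat (C : ℝ →+* MvPolynomial (Fin 3) ℝ) 2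
  rw [h2]
  ring

/-- `E x_i = 0`, `E[x_i x_j] = δ_ij / 3` (from `EE_homog`). -/
theorem EE_X (i : Fin 3) : EE (X i) = 0 := by
  have h := EE_homog (X i) 1 (isHomogeneous_X ℝ i)
  rw [deg2a_lap_X, EE_zero] at h
  norm_num at h
  exact h

theorem EE_XX (i j : Fin 3) : EE (X i * X j) = if i = j then 1 / 3 else 0 := by
  have h := EE_homog (X i * X j) 2 ((isHomogeneous_X ℝ i).mul (isHomogeneous_X ℝ j))
  rw [deg2a_lap2, EE_two_mul] at h
  have h2 : EE ((if i = j then 1 else 0 : P)) = if i = j then 1 else 0 := by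
    split_ifs
    · exact EE_one
    · exact EE_zero
  rw [h2] at h
  push_cast at h
  split_ifs at h ⊢ <;> linarith

theorem EE_XXX (i j k : Fin 3) : EE (X i * X j * X k) = 0 := by
  have h := EE_homog (X i * X j * X k) 3
    (((isHomogeneous_X ℝ i).mul (isHomogeneous_X ℝ j)).mul (isHomogeneous_X ℝ k))
  rw [deg2a_lap3, EE_two_mul, EE_add, EE_add, deg2a_ite, deg2a_ite, deg2a_ite, EE_X, EE_X,
    EE_X] at h
  push_cast at h
  linarith

/-- `E[x_i x_j x_k x_l] = (δ_ij δ_kl + δ_ik δ_jl + δ_il δ_jk)/15`. -/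
theorem EE_XXXX (i j k l : Fin 3) : EE (X i * X j * X k * X l) =
    ((if i = j then 1 else 0) * (if k = l then 1 else 0)
      + (if i = k then 1 else 0) * (if j = l then 1 else 0)
      + (if i = l then 1 else 0) * (if j = k then 1 else 0)) / 15 := by
  have h := EE_homog (X i * X j * X k * X l) 4
    ((((isHomogeneous_X ℝ i).mul (isHomogeneous_X ℝ j)).mul (isHomogeneous_X ℝ k)).mul
      (isHomogeneous_X ℝ l))
  rw [deg2a_lap4, EE_two_mul, EE_add, EE_add, EE_add, EE_add, EE_add, deg2a_ite, deg2a_ite,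
    deg2a_ite, deg2a_ite, deg2a_ite, deg2a_ite] at h
  simp only [EE_XX] at h
  push_cast at h
  have e1 : (if l = k then (1 / 3 : ℝ) else 0) = 1 / 3 * (if k = l then 1 else 0) := by
    simp [eq_comm]
  have e2 : (if l = i then (1 / 3 : ℝ) else 0) = 1 / 3 * (if i = l then 1 else 0) := by
    simp [eq_comm]
  have e3 : (if l = j then (1 / 3 : ℝ) else 0) = 1 / 3 * (if j = l then 1 else 0) := by
    simp [eq_comm]
  have e4 : (if i = j then (1 / 3 : ℝ) else 0) = 1 / 3 * (if i = j then 1 else 0) := by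
    simp
  have e5 : (if k = i then (1 / 3 : ℝ) else 0) = 1 / 3 * (if i = k then 1 else 0) := by
    simp [eq_comm]
  have e6 : (if k = j then (1 / 3 : ℝ) else 0) = 1 / 3 * (if j = k then 1 else 0) := by
    simp [eq_comm]
  have f1 : (if k = j then (1 : ℝ) else 0) = if j = k then 1 else 0 := by simp [eq_comm]
  have f2 : (if k = i then (1 : ℝ) else 0) = if i = k then 1 else 0 := by simp [eq_comm]
  have f3 : (if l = k then (1 : ℝ) else 0) = if k = l then 1 else 0 := by simp [eq_comm]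
  have f4 : (if l = j then (1 : ℝ) else 0) = if j = l then 1 else 0 := by simp [eq_comm]
  have f5 : (if l = i then (1 : ℝ) else 0) = if i = l then 1 else 0 := by simp [eq_comm]
  rw [e1, e2, e3, e4, e5, e6, f1, f2, f3, f4, f5] at h
  linarith

theorem EE_qf {Q : Matrix (Fin 3) (Fin 3) ℝ} (hQ : ST Q) : EE (qf Q) = 0 := by
  have h0 : Q 0 0 + Q 1 1 + Q 2 2 = 0 := by
    have h := hQ.2
    rw [Matrix.trace, Fin.sum_univ_three] at h
    exact h
  unfold qf
  simp only [EE_sum, EE_C_mul, EE_XX]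
  simp [Fin.sum_univ_three]
  linarith

theorem EE_qf_X {Q : Matrix (Fin 3) (Fin 3) ℝ} (hQ : ST Q) (i : Fin 3) :
    EE (qf Q * X i) = 0 := by
  have h : qf Q * X i = ∑ k, ∑ l, C (Q k l) * (X k * X l * X i) := by
    unfold qf
    rw [Finset.sum_mul]
    refine Finset.sum_congr rfl fun k _ => ?_
    rw [Finset.sum_mul]
    exact Finset.sum_congr rfl fun l _ => mul_assoc _ _ _
  rw [h]
  simp only [EE_sum, EE_C_mul, EE_XXX, mul_zero, Finset.sum_const_zero]

theorem EE_qf_XX {Q : Matrix (Fin 3) (Fin 3) ℝ} (hQ : ST Q) (i j : Fin 3) :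
    EE (qf Q * (X i * X j)) = 2 / 15 * Q i j := by
  have h0 : Q 0 0 + Q 1 1 + Q 2 2 = 0 := by
    have h := hQ.2
    rw [Matrix.trace, Fin.sum_univ_three] at h
    exact h
  have h01 := hQ.1.apply 0 1
  have h02 := hQ.1.apply 0 2
  have h12 := hQ.1.apply 1 2
  have h : qf Q * (X i * X j) = ∑ k, ∑ l, C (Q k l) * (X k * X l * X i * X j) := by
    unfold qf
    rw [Finset.sum_mul]
    refine Finset.sum_congr rfl fun k _ => ?_
    rw [Finset.sum_mul]
    refine Finset.sum_congr rfl fun l _ => ?_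
    ring
  rw [h]
  simp only [EE_sum, EE_C_mul, EE_XXXX]
  fin_cases i <;> fin_cases j <;> simp [Fin.sum_univ_three] <;> linarith

/-- `E[q^2] = (2/15) t2`. -/
theorem EE_qf_sq {Q : Matrix (Fin 3) (Fin 3) ℝ} (hQ : ST Q) :
    EE (qf Q * qf Q) = 2 / 15 * t2 Q := by
  have h : qf Q * qf Q = ∑ i, ∑ j, C (Q i j) * (qf Q * (X i * X j)) := by
    have h1 : qf Q * qf Q = qf Q * ∑ i, ∑ j, C (Q i j) * (X i * X j) := rfl
    rw [h1, Finset.mul_sum]
    refine Finset.sum_congr rfl fun k _ => ?_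
    rw [Finset.mul_sum]
    refine Finset.sum_congr rfl fun l _ => ?_
    ring
  rw [h]
  simp only [EE_sum, EE_C_mul, EE_qf_XX hQ]
  unfold t2
  rw [Finset.mul_sum]
  refine Finset.sum_congr rfl fun k _ => ?_
  rw [Finset.mul_sum]
  refine Finset.sum_congr rfl fun l _ => ?_
  ring

/-- `Gam q q = 4 (|x|^2 |Qx|^2 - q^2)`, hence `Lap (q q) + 20 q q = 8 |Qx|^2` on the sphere;
`qf (Q * Q)` is `|Qx|^2`. -/
theorem Lap_qf_sq {Q : Matrix (Fin 3) (Fin 3) ℝ} (hQ : ST Q) :
    EqS (Lap (qf Q * qf Q) + 20 * (qf Q * qf Q)) (8 * qf (Q * Q)) := by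
  have h3 : ∑ i : Fin 3, pderiv i (qf Q) * pderiv i (qf Q) = 4 * qf (Q * Q) := by
    simp only [deg2a_pd hQ]
    have h01 := hQ.1.apply 0 1
    have h02 := hQ.1.apply 0 2
    have h12 := hQ.1.apply 1 2
    unfold qf
    simp only [Fin.sum_univ_three, Matrix.mul_apply, map_add, map_mul, h01, h02, h12]
    ring
  have h4 : lap0 (qf Q * qf Q) = 8 * qf (Q * Q) := by
    rw [deg2a_lap_mul, deg2a_lap hQ, h3]
    ring
  intro x hx
  have h5 := Lap_homog (qf Q * qf Q) 4 ((deg2a_homog Q).mul (deg2a_homog Q)) x hx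
  rw [ev_sub, ev_smul, h4] at h5
  rw [ev_add, h5, ev_mul 20, ev_ofNat]
  push_cast
  ring

end

end Pool.Agent.Lib.MP_dabcc9_gt
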