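import Pool.Agent.Lib.MP_dabcc9_gt.Deg2A

/-! JOB A9b. Third moment of a quadratic form. -/

open MvPolynomial Matrix

namespace Pool.Agent.Lib.MP_dabcc9_gt

noncomputable section

private theorem deg2b_homog (Q : Matrix (Fin 3) (Fin 3) ℝ) : (qf Q).IsHomogeneous 2 := by
  unfold qf
  refine IsHomogeneous.sum _ _ _ fun i _ => IsHomogeneous.sum _ _ _ fun j _ => ?_
  have h := (isHomogeneous_C (Fin 3) (Q i j)).mul ((isHomogeneous_X ℝ i).mul (isHomogeneous_X ℝ j))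
  simpa using h

private theorem deg2b_pd {Q : Matrix (Fin 3) (Fin 3) ℝ} (hQ : ST Q) (i : Fin 3) :
    pderiv i (qf Q) = 2 * ∑ j, C (Q i j) * X j := by
  have h := fun i j => hQ.1.apply i j
  have h01 := h 0 1
  have h02 := h 0 2
  have h12 := h 1 2
  unfold qf
  fin_cases i <;>
    simp [Fin.sum_univ_three, Derivation.leibniz, pderiv_X, h01, h02, h12] <;> ring

private theorem deg2b_pd2 {Q : Matrix (Fin 3) (Fin 3) ℝ} (hQ : ST Q) (i : Fin 3) :
    pderiv i (pderiv i (qf Q)) = 2 * C (Q i i) := by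
  rw [deg2b_pd hQ]
  have h2 : (2 : P) = C 2 := (map_ofNat (C : ℝ →+* MvPolynomial (Fin 3) ℝ) 2).symm
  rw [h2, ← smul_eq_C_mul, Derivation.map_smul]
  fin_cases i <;> simp [Fin.sum_univ_three, Derivation.leibniz, pderiv_X, smul_eq_C_mul]

private theorem deg2b_lap {Q : Matrix (Fin 3) (Fin 3) ℝ} (hQ : ST Q) :
    lap0 (qf Q * qf Q * qf Q) = C 24 * (qf Q * qf (Q * Q)) := by
  have h1 : ∀ i, pderiv i (pderiv i (qf Q * qf Q * qf Q)) =
      6 * qf Q * (pderiv i (qf Q)) ^ 2 + 3 * qf Q * qf Q * pderiv i (pderiv i (qf Q)) := by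
    intro i
    simp only [Derivation.leibniz, smul_eq_mul, map_add]
    ring
  have h2 : ∑ i : Fin 3, C (Q i i) = (0 : P) := by
    rw [← map_sum]
    have : ∑ i, Q i i = 0 := hQ.2
    rw [this, map_zero]
  have h3 : ∑ i : Fin 3, (pderiv i (qf Q)) ^ 2 = 4 * qf (Q * Q) := by
    simp only [deg2b_pd hQ]
    have h01 := hQ.1.apply 0 1
    have h02 := hQ.1.apply 0 2
    have h12 := hQ.1.apply 1 2
    unfold qf
    simp only [Fin.sum_univ_three, Matrix.mul_apply, map_add, map_mul, h01, h02, h12]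
    ring
  unfold lap0
  simp only [h1]
  rw [Finset.sum_add_distrib, ← Finset.mul_sum, ← Finset.mul_sum, h3]
  simp only [deg2b_pd2 hQ]
  rw [← Finset.mul_sum, h2]
  have h24 : (C 24 : P) = 24 := map_ofNat (C : ℝ →+* MvPolynomial (Fin 3) ℝ) 24
  rw [h24]
  ring

/-- `E[q^3] = (8/105) trace Q^3`.  PROOF: `EE_homog` with `n = 6`: `lap0 (q^3) = 24 q |Qx|^2`
(as `lap0 q = 2 trace Q = 0`, `|grad q|^2 = 4 |Qx|^2`), so `42 E[q^3] = 24 E[q |Qx|^2]`, and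
`E[q (qf (Q Q))] = ∑ (Q Q)_ij E[q x_i x_j] = (2/15) trace Q^3` by `EE_qf_XX`. -/
theorem EE_qf_cube {Q : Matrix (Fin 3) (Fin 3) ℝ} (hQ : ST Q) :
    EE (qf Q * qf Q * qf Q) = 8 / 105 * (Q * Q * Q).trace := by
  have hh := ((deg2b_homog Q).mul (deg2b_homog Q)).mul (deg2b_homog Q)
  have h1 := EE_homog (qf Q * qf Q * qf Q) 6 hh
  rw [deg2b_lap hQ, EE_C_mul] at h1
  have h2 : EE (qf Q * qf (Q * Q)) = 2 / 15 * (Q * Q * Q).trace := by
    have h3 : qf Q * qf (Q * Q) =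
        ∑ i, ∑ j, C ((Q * Q) i j) * (qf Q * (X i * X j)) := by
      conv_lhs => rw [show qf (Q * Q) = ∑ i, ∑ j, C ((Q * Q) i j) * (X i * X j) from rfl]
      rw [Finset.mul_sum]
      refine Finset.sum_congr rfl fun i _ => ?_
      rw [Finset.mul_sum]
      refine Finset.sum_congr rfl fun j _ => ?_
      ring
    rw [h3, EE_sum]
    simp only [EE_sum, EE_C_mul, EE_qf_XX hQ]
    have h4 : (Q * Q * Q).trace = ∑ i, ∑ j, (Q * Q) i j * Q j i := by
      simp only [Matrix.trace, Matrix.diag_apply, Matrix.mul_apply (M := Q * Q)]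
    rw [h4, Finset.mul_sum]
    refine Finset.sum_congr rfl fun i _ => ?_
    rw [Finset.mul_sum]
    refine Finset.sum_congr rfl fun j _ => ?_
    rw [hQ.1.apply i j]
    ring
  rw [h2] at h1
  push_cast at h1
  linarith

private theorem deg2b_eig {Q : Matrix (Fin 3) (Fin 3) ℝ} (h : Q.IsHermitian) :
    ∃ l : Fin 3 → ℝ, Q.trace = ∑ i, l i ∧ (Q * Q).trace = ∑ i, l i ^ 2 ∧
      (Q * Q * Q).trace = ∑ i, l i ^ 3 := by
  have hs := h.spectral_theorem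
  set D : Matrix (Fin 3) (Fin 3) ℝ := diagonal (RCLike.ofReal ∘ h.eigenvalues) with hD
  have htr : ∀ X : Matrix (Fin 3) (Fin 3) ℝ,
      (Unitary.conjStarAlgAut ℝ _ h.eigenvectorUnitary X).trace = X.trace := by
    intro X
    rw [Unitary.conjStarAlgAut_apply, Matrix.trace_mul_cycle, Unitary.coe_star_mul_self,
      Matrix.one_mul]
  refine ⟨h.eigenvalues, ?_, ?_, ?_⟩
  · conv_lhs => rw [hs]
    rw [htr, hD, Matrix.trace_diagonal]
    rfl
  · conv_lhs => rw [hs]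
    rw [← map_mul, htr, hD, Matrix.diagonal_mul_diagonal, Matrix.trace_diagonal]
    refine Finset.sum_congr rfl fun i _ => ?_
    simp [pow_two]
  · conv_lhs => rw [hs]
    rw [← map_mul, ← map_mul, htr, hD, Matrix.diagonal_mul_diagonal, Matrix.diagonal_mul_diagonal,
      Matrix.trace_diagonal]
    refine Finset.sum_congr rfl fun i _ => ?_
    simp [pow_succ]

/-- For symmetric traceless `Q`: `6 (trace Q^3)^2 <= t2^3`.  PROOF: diagonalise
(`Matrix.IsHermitian.spectral_theorem`), eigenvalues `a, b, -a-b`: `trace Q^3 = -3ab(a+b)`,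
`t2 = 2(a^2+ab+b^2)`, and `4(a^2+ab+b^2)^3 - 27 a^2b^2(a+b)^2 = ((a-b)(2a+b)(a+2b))^2`. -/
theorem trace_cube {Q : Matrix (Fin 3) (Fin 3) ℝ} (hQ : ST Q) :
    6 * (Q * Q * Q).trace ^ 2 ≤ t2 Q ^ 3 := by
  have hH : Q.IsHermitian := by
    rw [Matrix.IsHermitian, Matrix.conjTranspose_eq_transpose_of_trivial]
    exact hQ.1
  obtain ⟨l, h1, h2, h3⟩ := deg2b_eig hH
  have ht : t2 Q = (Q * Q).trace := by
    unfold t2
    simp only [Matrix.trace, Matrix.diag_apply, Matrix.mul_apply]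
    refine Finset.sum_congr rfl fun i _ => Finset.sum_congr rfl fun j _ => ?_
    rw [hQ.1.apply i j, pow_two]
  rw [hQ.2, Fin.sum_univ_three] at h1
  rw [ht, h2, h3, Fin.sum_univ_three, Fin.sum_univ_three]
  have h4 : l 2 = -l 0 - l 1 := by linarith
  rw [h4]
  have key : (l 0 ^ 2 + l 1 ^ 2 + (-l 0 - l 1) ^ 2) ^ 3 -
      6 * (l 0 ^ 3 + l 1 ^ 3 + (-l 0 - l 1) ^ 3) ^ 2 =
      2 * ((l 0 - l 1) * (2 * l 0 + l 1) * (l 0 + 2 * l 1)) ^ 2 := by ring
  nlinarith [sq_nonneg ((l 0 - l 1) * (2 * l 0 + l 1) * (l 0 + 2 * l 1))]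

/-- `E[q^3] >= -0.0312 kappa^3`, `kappa = sqrt t2`  (`8/(105 sqrt 6) = 0.03110...`). -/
theorem EE_qf_cube_ge {Q : Matrix (Fin 3) (Fin 3) ℝ} (hQ : ST Q) :
    -(0.0312 * Real.sqrt (t2 Q) ^ 3) ≤ EE (qf Q * qf Q * qf Q) := by
  rw [EE_qf_cube hQ]
  have h0 : 0 ≤ t2 Q := by
    unfold t2
    exact Finset.sum_nonneg fun i _ => Finset.sum_nonneg fun j _ => sq_nonneg _
  have h1 := trace_cube hQ
  have h2 : Real.sqrt (t2 Q) ^ 2 = t2 Q := Real.sq_sqrt h0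
  have h3 : (0 : ℝ) ≤ Real.sqrt (t2 Q) := Real.sqrt_nonneg _
  have h4 : (Real.sqrt (t2 Q) ^ 3) ^ 2 = t2 Q ^ 3 := by
    rw [← pow_mul, mul_comm, pow_mul, h2]
  have h5 : (8 / 105 * (Q * Q * Q).trace) ^ 2 ≤ (0.0312 * Real.sqrt (t2 Q) ^ 3) ^ 2 := by
    rw [mul_pow, mul_pow, h4]
    have h6 : (0 : ℝ) ≤ t2 Q ^ 3 := by positivity
    nlinarith
  exact (abs_le.mp (abs_le_of_sq_le_sq h5 (by positivity))).1

end

end Pool.Agent.Lib.MP_dabcc9_gt
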