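import Pool.Agent.Lib.MP_dabcc9_gt.Deg2A

/-! JOB A9c. Degree two projection. -/

open MvPolynomial Matrix

namespace Pool.Agent.Lib.MP_dabcc9_gt

noncomputable section

/-- The degree 2 projection: for `u` with `E u = 0`, the matrix `Q = (15/2) E[u x_i x_j]` is
symmetric and traceless and `v = u - qf Q` is orthogonal to all polynomials of degree `<= 2` provided
also `E[u x_i] = 0`.  PROOF: polynomials of degree `<= 2` are combinations of `1, X i, X i X j`
(e.g. `MvPolynomial.as_sum` and the exponents of total degree `<= 2`). -/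
theorem deg2_proj (u : P) (h0 : EE u = 0) (h1 : ∀ i, EE (u * X i) = 0) :
    ∃ Q : Matrix (Fin 3) (Fin 3) ℝ, ST Q ∧ (∀ i j, Q i j = 15 / 2 * EE (u * (X i * X j))) ∧
      ∀ s : P, s.totalDegree ≤ 2 → EE ((u - qf Q) * s) = 0 := by
  set Q : Matrix (Fin 3) (Fin 3) ℝ := fun i j => 15 / 2 * EE (u * (X i * X j)) with hQdef
  have hQij : ∀ i j, Q i j = 15 / 2 * EE (u * (X i * X j)) := fun i j => rfl
  have hsum : EE (u * (X 0 * X 0)) + EE (u * (X 1 * X 1)) + EE (u * (X 2 * X 2)) = 0 := by
    rw [← EE_add, ← EE_add, ← h0]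
    apply EE_congr
    intro x hx
    have h2 := norm_sq_eq3 x
    rw [hx] at h2
    simp only [ev_add, ev_mul, ev_X]
    linear_combination (-(ev u x)) * h2
  have hQ : ST Q := by
    constructor
    · apply Matrix.IsSymm.ext
      intro i j
      rw [hQij, hQij, mul_comm (X j : P) (X i)]
    · rw [Matrix.trace, Fin.sum_univ_three, Matrix.diag_apply, Matrix.diag_apply,
        Matrix.diag_apply, hQij, hQij, hQij]
      linarith
  refine ⟨Q, hQ, hQij, ?_⟩
  have k0 : EE (u - qf Q) = 0 := by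
    rw [EE_sub, h0, EE_qf hQ, sub_zero]
  have k1 : ∀ i, EE ((u - qf Q) * X i) = 0 := by
    intro i
    rw [sub_mul, EE_sub, h1, EE_qf_X hQ, sub_zero]
  have k2 : ∀ i j, EE ((u - qf Q) * (X i * X j)) = 0 := by
    intro i j
    rw [sub_mul, EE_sub, EE_qf_XX hQ, hQij]
    ring
  have key : ∀ a b c : ℕ, a + b + c ≤ 2 →
      EE ((u - qf Q) * (X 0 ^ a * X 1 ^ b * X 2 ^ c)) = 0 := by
    intro a b c h
    have ha : a ≤ 2 := by omega
    have hb : b ≤ 2 := by omega
    have hc : c ≤ 2 := by omega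
    interval_cases a <;> interval_cases b <;> interval_cases c <;>
      first
      | omega
      | simp [pow_two, k0, k1, k2]
  intro s hs
  have hs2 : ∀ d ∈ s.support, EE ((u - qf Q) * monomial d (coeff d s)) = 0 := by
    intro d hd
    have h3 : d 0 + d 1 + d 2 ≤ 2 := by
      have h4 := (le_totalDegree hd).trans hs
      rw [Finsupp.sum_fintype _ _ (fun _ => rfl), Fin.sum_univ_three] at h4
      exact h4
    have h5 : (monomial d (coeff d s) : P) =
        C (coeff d s) * (X 0 ^ d 0 * X 1 ^ d 1 * X 2 ^ d 2) := by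
      rw [monomial_eq, Finsupp.prod_fintype _ _ (fun _ => pow_zero _), Fin.prod_univ_three]
    rw [h5, mul_left_comm, EE_C_mul, key _ _ _ h3, mul_zero]
  have h6 : (u - qf Q) * s = ∑ d ∈ s.support, (u - qf Q) * monomial d (coeff d s) := by
    conv_lhs => rw [s.as_sum]
    rw [Finset.mul_sum]
  rw [h6, EE_sum]
  exact Finset.sum_eq_zero hs2

end

end Pool.Agent.Lib.MP_dabcc9_gt
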