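import Pool.Agent.Lib.MP_dabcc9_gt.LimB
import Pool.Agent.Lib.MP_dabcc9_gt.CapB
import Pool.Agent.Lib.MP_dabcc9_gt.CapC
import Pool.Agent.Lib.MP_dabcc9_gt.CapD

/-! Final assembly. -/

open MeasureTheory Metric Set

namespace Pool.Agent.Lib.MP_dabcc9_gt

theorem sharp (ε : ℝ) (hε : 0 < ε) : ∃ K : Set E3, IsBody K ∧ 1 - ε < bX K ∧ bX K < 1 ∧
    bY K ≤ 1 - (6 - ε) * (1 - bX K) := by
  obtain ⟨t, ht0, ht1, hm, hX, hY, hXY⟩ := cap_asymp (min ε 1) (by positivity)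
  set c := Real.cos t with hc
  have hc0 : 0 < c := Real.cos_pos_of_mem_Ioo ⟨by linarith [Real.pi_gt_three], by
    linarith [Real.pi_gt_three]⟩
  have hc1 : c ≤ 1 := Real.cos_le_one t
  have hb := capB_body c hc0
  obtain ⟨hd, hmain, hbx, hby⟩ := body_values hb
  have hav : av (supp (capB c)) = (1 + c) / 2 + t * Real.sin t / 4 := av_supp_capB t ht0 ht1
  have hS := surf_capB_ge c hc0.le hc1 hd
  have hV := vol_capB c hc0.le hc1
  have hpi := Real.pi_pos
  rw [hav] at hbx hby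
  set m := (1 + c) / 2 + t * Real.sin t / 4 with hm'
  have hYe : bY (capB c) = (1 / 2 + 3 / 4 * c - c ^ 3 / 4) / m ^ 3 := by
    rw [hby, hV]
    field_simp
    ring
  have hXe : ((1 + c) / 2 + (1 - c ^ 2) / 4) / m ^ 2 ≤ bX (capB c) := by
    rw [hbx, div_le_div_iff₀ (by positivity) (by positivity)]
    have : ((1 + c) / 2 + (1 - c ^ 2) / 4) * (4 * Real.pi * m ^ 2)
        = (2 * Real.pi * (1 + c) + Real.pi * (1 - c ^ 2)) * m ^ 2 := by ring
    rw [this]
    exact mul_le_mul_of_nonneg_right hS (by positivity)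
  have h6 : min ε 1 ≤ 1 := min_le_right _ _
  have h7 : min ε 1 ≤ ε := min_le_left _ _
  have hX1 : bX (capB c) < 1 := by
    have h0 : 0 ≤ (1 - bX (capB c)) ^ 2 / 32000 := by positivity
    linarith [hYe ▸ hY]
  refine ⟨capB c, hb, by linarith, hX1, ?_⟩
  have h8 : (6 - ε) * (1 - bX (capB c)) ≤ (6 - min ε 1) * (1 - bX (capB c)) :=
    mul_le_mul_of_nonneg_right (by linarith) (by linarith)
  have h9 : (6 - min ε 1) * (1 - bX (capB c)) ≤
      (6 - min ε 1) * (1 - ((1 + c) / 2 + (1 - c ^ 2) / 4) / m ^ 2) :=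
    mul_le_mul_of_nonneg_left (by linarith) (by linarith)
  rw [hYe]
  linarith

end Pool.Agent.Lib.MP_dabcc9_gt
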