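import Pool.Agent.Lib.MP_dabcc9_gt.McH

/-! JOB M9.  Choice of the number and the size of the caps. -/

open MeasureTheory Metric Set

namespace Pool.Agent.Lib.MP_dabcc9_gt

noncomputable section

theorem McI_cont (N a b : ℝ) (ha : 0 < a) (hN : 0 ≤ N) (hb : b ^ 2 ≤ 1 / 10 ^ 6)
    (h1 : 3.605 ≤ N * a ^ 2) (h2 : N * b ^ 2 ≤ 3.62) :
    ContinuousOn (fun t => capX N t) (Icc a b) := by
  unfold capX
  apply ContinuousOn.div
  · fun_prop
  · unfold capD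
    fun_prop
  · intro t ht
    have ht0 : 0 < t := ha.trans_le ht.1
    have hta : a ^ 2 ≤ t ^ 2 := pow_le_pow_left₀ ha.le ht.1 2
    have htb : t ^ 2 ≤ b ^ 2 := pow_le_pow_left₀ ht0.le ht.2 2
    have h := (cap_ineq N t ht0 (htb.trans hb) (h1.trans (mul_le_mul_of_nonneg_left hta hN))
      ((mul_le_mul_of_nonneg_left htb hN).trans h2)).1
    exact (pow_pos h 2).ne'

/-- PROOF.  `N = ⌈0.2718/δ⌉`, so `0.2718 <= N δ <= 0.2718 + δ`.  At `t_1 = sqrt (3.605/N)`: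
`N t^4/48 = 3.605^2/(48 N) <= 0.27076/N`; at `t_2 = sqrt (3.62/N)`: `N t^4/48 >= 0.27300/N`; the error in
`cap_defect` is at most `3.62^2/(10 N^2) <= 1.32/N^2`.  So for `N` large
`1 - capX N t_1 <= δ <= 1 - capX N t_2`, and `t ↦ capX N t` is continuous on `[t_1, t_2]`
(`1 - capD N t > 0` by `cap_ineq`): intermediate value theorem.  `t <= sqrt (3.62/N)` is small. -/
theorem cap_choice (t0 : ℝ) (ht0 : 0 < t0) : ∃ δ0 : ℝ, 0 < δ0 ∧ ∀ δ : ℝ, 0 < δ → δ < δ0 →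
    ∃ (N : ℕ) (t : ℝ), 0 < t ∧ t < t0 ∧ 3.605 ≤ N * t ^ 2 ∧ N * t ^ 2 ≤ 3.62 ∧
      capX N t = 1 - δ := by
  refine ⟨min (1 / 10 ^ 8) (t0 ^ 2 / 20), by positivity, ?_⟩
  intro δ hδ hδ0
  have hδ1 : δ < 1 / 10 ^ 8 := hδ0.trans_le (min_le_left _ _)
  have hδ2 : δ < t0 ^ 2 / 20 := hδ0.trans_le (min_le_right _ _)
  obtain ⟨N, hN⟩ : ∃ N : ℕ, N = ⌈0.2718 / δ⌉₊ := ⟨_, rfl⟩
  have hN1 : 0.2718 ≤ (N : ℝ) * δ := by
    have h := Nat.le_ceil (0.2718 / δ)
    rw [← hN, div_le_iff₀ hδ] at h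
    exact h
  have hN2 : (N : ℝ) * δ ≤ 0.2718 + δ := by
    have h0 : (0 : ℝ) ≤ 0.2718 / δ := by positivity
    have h := Nat.ceil_lt_add_one h0
    rw [← hN] at h
    have h' := mul_lt_mul_of_pos_right h hδ
    rw [add_mul, div_mul_cancel₀ _ hδ.ne', one_mul] at h'
    exact h'.le
  refine ⟨N, ?_⟩
  generalize (N : ℝ) = n at *
  have hn0 : 0 < n := by
    by_contra h
    have h' : n * δ ≤ 0 := mul_nonpos_of_nonpos_of_nonneg (not_lt.1 h) hδ.le
    norm_num at hN1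
    linarith
  have hn1 : (27000000 : ℝ) ≤ n := by
    by_contra h
    have h' : n * δ ≤ 27000000 * δ := mul_le_mul_of_nonneg_right (not_le.1 h).le hδ.le
    norm_num at hN1 hδ1
    linarith
  obtain ⟨A, hA⟩ : ∃ A : ℝ, A = 3.605 / n := ⟨_, rfl⟩
  obtain ⟨B, hB⟩ : ∃ B : ℝ, B = 3.62 / n := ⟨_, rfl⟩
  have hnA : n * A = 3.605 := by rw [hA]; field_simp
  have hnB : n * B = 3.62 := by rw [hB]; field_simp
  have hA0 : 0 < A := by rw [hA]; positivity
  have hB0 : 0 < B := by rw [hB]; positivity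
  have hAB : A ≤ B := by
    rw [hA, hB]
    exact div_le_div_of_nonneg_right (by norm_num) hn0.le
  have hB1 : B ≤ 1 / 10 ^ 6 := by
    rw [hB, div_le_iff₀ hn0]
    norm_num
    linarith
  have hA1 : A ≤ 1 / 10 ^ 6 := hAB.trans hB1
  have hsA : Real.sqrt A ^ 2 = A := Real.sq_sqrt hA0.le
  have hsB : Real.sqrt B ^ 2 = B := Real.sq_sqrt hB0.le
  have hsA0 : 0 < Real.sqrt A := Real.sqrt_pos.2 hA0
  have hsB0 : 0 < Real.sqrt B := Real.sqrt_pos.2 hB0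
  have hsAB : Real.sqrt A ≤ Real.sqrt B := Real.sqrt_le_sqrt hAB
  have hsA4 : Real.sqrt A ^ 4 = A ^ 2 := by
    rw [show (4 : ℕ) = 2 * 2 from rfl, pow_mul, hsA]
  have hsB4 : Real.sqrt B ^ 4 = B ^ 2 := by
    rw [show (4 : ℕ) = 2 * 2 from rfl, pow_mul, hsB]
  have hdA := cap_defect n (Real.sqrt A) hsA0 (by rw [hsA]; exact hA1)
    (by rw [hsA, hnA]) (by rw [hsA, hnA]; norm_num)
  have hdB := cap_defect n (Real.sqrt B) hsB0 (by rw [hsB]; exact hB1)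
    (by rw [hsB, hnB]; norm_num) (by rw [hsB, hnB])
  rw [hsA4, abs_le] at hdA
  rw [hsB4, abs_le] at hdB
  have hXA : 1 - δ ≤ capX n (Real.sqrt A) := by
    have e : n * (1 - capX n (Real.sqrt A)) ≤ n * δ := by
      have e1 : n * (1 - capX n (Real.sqrt A)) ≤ n * (n * A ^ 2 / 48 + A ^ 2 / 10) :=
        mul_le_mul_of_nonneg_left (by linarith [hdA.2]) hn0.le
      have e2 : n * (n * A ^ 2 / 48 + A ^ 2 / 10) = (n * A) ^ 2 / 48 + (n * A) * A / 10 := by ring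
      rw [e2, hnA] at e1
      norm_num at e1 hN1 hA1
      linarith
    have := le_of_mul_le_mul_left e hn0
    linarith
  have hXB : capX n (Real.sqrt B) ≤ 1 - δ := by
    have e : n * δ ≤ n * (1 - capX n (Real.sqrt B)) := by
      have e1 : n * (n * B ^ 2 / 48 - B ^ 2 / 10) ≤ n * (1 - capX n (Real.sqrt B)) :=
        mul_le_mul_of_nonneg_left (by linarith [hdB.1]) hn0.le
      have e2 : n * (n * B ^ 2 / 48 - B ^ 2 / 10) = (n * B) ^ 2 / 48 - (n * B) * B / 10 := by ring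
      rw [e2, hnB] at e1
      norm_num at e1 hN2 hB1 hδ1
      linarith
    have := le_of_mul_le_mul_left e hn0
    linarith
  have hcont := McI_cont n (Real.sqrt A) (Real.sqrt B) hsA0 hn0.le (by rw [hsB]; exact hB1)
    (by rw [hsA, hnA]) (by rw [hsB, hnB])
  obtain ⟨t, ht, hte⟩ := intermediate_value_Icc' hsAB hcont ⟨hXB, hXA⟩
  have htp : 0 < t := hsA0.trans_le ht.1
  have hta : A ≤ t ^ 2 := by
    rw [← hsA]
    exact pow_le_pow_left₀ hsA0.le ht.1 2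
  have htb : t ^ 2 ≤ B := by
    rw [← hsB]
    exact pow_le_pow_left₀ htp.le ht.2 2
  refine ⟨t, htp, ?_, ?_, ?_, hte⟩
  · have e1 : B < t0 ^ 2 := by
      have e2 : n * B < n * t0 ^ 2 := by
        rw [hnB]
        have e3 : n * δ < n * (t0 ^ 2 / 20) := mul_lt_mul_of_pos_left hδ2 hn0
        norm_num at hN1
        norm_num
        linarith
      exact lt_of_mul_lt_mul_left e2 hn0.le
    exact lt_of_pow_lt_pow_left₀ 2 ht0.le (htb.trans_lt e1)
  · rw [← hnA]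
    exact mul_le_mul_of_nonneg_left hta hn0.le
  · rw [← hnB]
    exact mul_le_mul_of_nonneg_left htb hn0.le

end

end Pool.Agent.Lib.MP_dabcc9_gt
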