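import Pool.Agent.Lib.MP_dabcc9_gt.PkB

/-! JOB P3.  Counting. -/

open MeasureTheory Metric Set

namespace Pool.Agent.Lib.MP_dabcc9_gt

noncomputable section

/-- `∑_{b < n} cos (α + b h) * 2 sin (h/2) = sin (α + (n - 1/2) h) - sin (α - h/2)`, by induction. -/
theorem dirichlet_sum (α h : ℝ) (n : ℕ) :
    (∑ b ∈ Finset.range n, Real.cos (α + b * h)) * (2 * Real.sin (h / 2)) =
      Real.sin (α + (n - 1 / 2) * h) - Real.sin (α - h / 2) := by
  induction n with
  | zero =>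
    rw [Finset.sum_range_zero, zero_mul]
    have : α + ((0 : ℕ) - 1 / 2 : ℝ) * h = α - h / 2 := by
      push_cast
      ring
    rw [this, sub_self]
  | succ n ih =>
    rw [Finset.sum_range_succ, add_mul, ih]
    have h1 : α + (((n + 1 : ℕ) : ℝ) - 1 / 2) * h = (α + n * h) + h / 2 := by
      push_cast
      ring
    have h2 : α + ((n : ℝ) - 1 / 2) * h = (α + n * h) - h / 2 := by ring
    rw [h1, h2, Real.sin_add, Real.sin_sub]
    ring

private theorem PkC_sin_lip (x y : ℝ) : Real.sin x ≤ Real.sin y + |x - y| := by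
  have h := Real.abs_sin_sub_sin_le x y
  have := le_abs_self (Real.sin x - Real.sin y)
  linarith

private theorem PkC_cos_lip (x y : ℝ) : Real.cos x ≤ Real.cos y + |x - y| := by
  have h := Real.abs_cos_sub_cos_le x y
  have := le_abs_self (Real.cos x - Real.cos y)
  linarith

/-- PROOF.  `α = -Φ`, `B = ⌊2Φ/h⌋`, so `-Φ + (B - 1/2) h ∈ [Φ - 3h/2, Φ]` and
`sin` is 1-Lipschitz: the sum is at least `(2 sin Φ - 2 h)/(2 sin (h/2)) >= (2 sin Φ - 2 h)/h`
(`sin x <= x`; the numerator is `>= 0` by hypothesis). -/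
theorem sum_cos_ge (Φ h : ℝ) (hΦ : 0 < Φ) (hΦ1 : Φ < Real.pi / 2) (hh : 0 < h)
    (h1 : h ≤ Real.sin Φ) :
    (2 * Real.sin Φ - 2 * h) / h ≤ ∑ b ∈ Finset.range ⌊2 * Φ / h⌋₊, Real.cos (-Φ + b * h) := by
  have hd := dirichlet_sum (-Φ) h ⌊2 * Φ / h⌋₊
  set B : ℕ := ⌊2 * Φ / h⌋₊ with hB
  set S : ℝ := ∑ b ∈ Finset.range B, Real.cos (-Φ + b * h) with hS
  have hq : 0 ≤ 2 * Φ / h := by positivity
  have hB1 : (B : ℝ) * h ≤ 2 * Φ := by
    have := Nat.floor_le hq
    rw [le_div_iff₀ hh] at this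
    exact this
  have hB2 : 2 * Φ < ((B : ℝ) + 1) * h := by
    have := Nat.lt_floor_add_one (2 * Φ / h)
    rw [div_lt_iff₀ hh] at this
    exact this
  have hle1 : Real.sin Φ ≤ 1 := Real.sin_le_one Φ
  have hpi := Real.pi_gt_three
  have hs0 : 0 < Real.sin (h / 2) := Real.sin_pos_of_pos_of_lt_pi (by linarith) (by linarith)
  have hs1 : Real.sin (h / 2) ≤ h / 2 := Real.sin_le (by linarith)
  have h2 : Real.sin Φ ≤ Real.sin (-Φ + ((B : ℝ) - 1 / 2) * h) + 3 * h / 2 := by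
    have h3 := PkC_sin_lip Φ (-Φ + ((B : ℝ) - 1 / 2) * h)
    have h4 : |Φ - (-Φ + ((B : ℝ) - 1 / 2) * h)| ≤ 3 * h / 2 := by
      rw [abs_le]
      constructor <;> nlinarith
    linarith
  have h5 : Real.sin Φ ≤ -Real.sin (-Φ - h / 2) + h / 2 := by
    have h6 : Real.sin (-Φ - h / 2) = -Real.sin (Φ + h / 2) := by
      rw [← Real.sin_neg]
      congr 1
      ring
    have h7 := PkC_sin_lip Φ (Φ + h / 2)
    have h8 : |Φ - (Φ + h / 2)| = h / 2 := by
      rw [show Φ - (Φ + h / 2) = -(h / 2) by ring, abs_neg, abs_of_pos (by linarith)]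
    rw [h6]
    linarith
  have h9 : 2 * Real.sin Φ - 2 * h ≤ S * (2 * Real.sin (h / 2)) := by
    rw [hd]
    linarith
  have hnum : 0 ≤ 2 * Real.sin Φ - 2 * h := by linarith
  calc (2 * Real.sin Φ - 2 * h) / h ≤ (2 * Real.sin Φ - 2 * h) / (2 * Real.sin (h / 2)) :=
        div_le_div_of_nonneg_left hnum (by linarith) (by linarith)
    _ ≤ S := by
        rw [div_le_iff₀ (by linarith)]
        exact h9

private theorem PkC_sqrt3 : 1.732 < Real.sqrt 3 ∧ Real.sqrt 3 < 1.7320509 := by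
  constructor
  · rw [Real.lt_sqrt (by norm_num)]
    norm_num
  · rw [Real.sqrt_lt' (by norm_num)]
    norm_num

private theorem PkC_sinPhi : 1 - 1 / 20000 ≤ Real.sin (Real.pi / 2 - 1 / 100) := by
  rw [Real.sin_pi_div_two_sub]
  have := Real.one_sub_sq_div_two_le_cos (x := 1 / 100)
  refine le_trans ?_ this
  norm_num

private theorem PkC_cosPhi : 99 / 10000 ≤ Real.cos (Real.pi / 2 - 1 / 100) := by
  rw [Real.cos_pi_div_two_sub]
  have := Real.sin_gt_sub_cube (x := 1 / 100) (by norm_num)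
  refine le_trans ?_ this.le
  norm_num

/-- Numbers: `R = 1000`, `η = 1/10000`, `Φ = pi/2 - 1/100`, `g = 1/((R-1) sqrt 3 (1+η) + 2)`:
`R g (2 pi sin Φ)/(1+η) > 3.625`; (`sin Φ = cos (1/100) >= 1 - 1/20000`, `pi > 3.14159`,
`sqrt 3 < 1.7320509`). -/
theorem pk_numbers : 3.625 < 1000 * (2 * Real.pi * Real.sin (Real.pi / 2 - 1 / 100)) /
    ((1 + 1 / 10000) * (999 * (Real.sqrt 3 * (1 + 1 / 10000)) + 2)) := by
  obtain ⟨h1, h2⟩ := PkC_sqrt3
  have h3 := PkC_sinPhi
  have h4 := Real.pi_gt_d6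
  rw [lt_div_iff₀ (by nlinarith)]
  have h5 : 3.141592 * (1 - 1 / 20000) ≤ Real.pi * Real.sin (Real.pi / 2 - 1 / 100) :=
    mul_le_mul h4.le h3 (by norm_num) Real.pi_pos.le
  nlinarith

/-- Hexagonal packings of caps: density `2 pi/sqrt 3 = 3.6276..` for `N t^2`.
PROOF.  `R = 1000`, `η = 1/10000`, `Φ = pi/2 - 1/100`, `a = sqrt 3 (1+η) t`, `h = 999 a + 2 t`,
`B = ⌊2Φ/h⌋`, `γ b = cos (-Φ + b h) - h` (so `γ b <= cos (-Φ + b h + r a)` as `cos` is 1-Lipschitz and
`r a <= h`; `γ b >= cos Φ - h >= 1/200` for small `t`, since `cos Φ = sin (1/100)`, `|-Φ + b h| <= Φ`),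
`M b = ⌊pi γ b/((1+η) t)⌋`.  Conditions of `rows_sep` for small `t`.  Count:
`∑ b, R * M b >= R (pi/((1+η) t) (∑ cos (-Φ + b h) - B h) - B)`, `B h <= 2Φ <= pi`, `sum_cos_ge`:
`t^2 * ∑ >= R (t/h) (pi/(1+η) (2 sin Φ - 2 h - pi h) - pi t) -> ` the number of `pk_numbers` `> 3.62` as
`t -> 0` (`t/h` is constant). -/
theorem packing : ∃ t0 : ℝ, 0 < t0 ∧ ∀ t : ℝ, 0 < t → t < t0 → ∀ N : ℕ,
    (N : ℝ) * t ^ 2 ≤ 3.62 → ∃ n : Fin N → E3, Sep n (Real.cos t) := by
  refine ⟨1 / 10 ^ 7, by norm_num, ?_⟩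
  intro t ht ht0 N hN
  obtain ⟨hs1, hs2⟩ := PkC_sqrt3
  have hnum := pk_numbers
  have hsP := PkC_sinPhi
  have hcP := PkC_cosPhi
  have hpi1 := Real.pi_gt_d6
  have hpi2 := Real.pi_lt_d6
  set Φ : ℝ := Real.pi / 2 - 1 / 100 with hΦ
  set q : ℝ := Real.sqrt 3 with hq
  set H : ℝ := 999 * (q * (1 + 1 / 10000)) + 2 with hH
  have hH1 : 1700 < H := by
    rw [hH]
    nlinarith
  have hH2 : H < 1733 := by
    rw [hH]
    nlinarith
  set h : ℝ := H * t with hh
  have hh0 : 0 < h := mul_pos (by linarith) ht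
  have hh1 : h < 1733 / 10 ^ 7 := by
    have h1 : H * t < 1733 * (1 / 10 ^ 7) := by
      apply mul_lt_mul'' hH2 ht0 (by linarith) ht.le
    linarith
  have hΦ0 : 0 < Φ := by rw [hΦ]; linarith
  have hΦ1 : Φ < Real.pi / 2 := by rw [hΦ]; linarith
  have hΦ2 : 2 * Φ ≤ Real.pi := by linarith
  set B : ℕ := ⌊2 * Φ / h⌋₊ with hB
  have hBh : (B : ℝ) * h ≤ 2 * Φ := by
    have := Nat.floor_le (show 0 ≤ 2 * Φ / h by positivity)
    rw [le_div_iff₀ hh0] at this
    exact this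
  have hsum := sum_cos_ge Φ h hΦ0 hΦ1 hh0 (by linarith)
  rw [← hB] at hsum
  -- the numbers `γ b`
  set γ : Fin B → ℝ := fun b => Real.cos (-Φ + (b : ℕ) * h) - h with hγdef
  have hγ1 : ∀ b, 1 / 200 ≤ γ b := by
    intro b
    have hb : ((b : ℕ) : ℝ) * h ≤ 2 * Φ := by
      have h1 : ((b : ℕ) : ℝ) ≤ (B : ℝ) := by exact_mod_cast b.2.le
      exact le_trans (mul_le_mul_of_nonneg_right h1 hh0.le) hBh
    have hb0 : 0 ≤ ((b : ℕ) : ℝ) * h := by positivity
    have h2 : Real.cos Φ ≤ Real.cos (-Φ + (b : ℕ) * h) := by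
      rw [← Real.cos_abs (-Φ + (b : ℕ) * h)]
      apply Real.cos_le_cos_of_nonneg_of_le_pi (abs_nonneg _) (by linarith)
      rw [abs_le]
      constructor <;> linarith
    simp only [hγdef]
    norm_num at hh1 hcP ⊢
    linarith
  set M : Fin B → ℕ := fun b => ⌊Real.pi * γ b / ((1 + 1 / 10000) * t)⌋₊ with hMdef
  have hηt : 0 < (1 + 1 / 10000 : ℝ) * t := by positivity
  have hMle : ∀ b, (M b : ℝ) * ((1 + 1 / 10000) * t) ≤ Real.pi * γ b := by
    intro b
    have h1 := hγ1 b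
    have h2 := Nat.floor_le (show 0 ≤ Real.pi * γ b / ((1 + 1 / 10000) * t) by
      apply div_nonneg (mul_nonneg Real.pi_pos.le (by linarith)) hηt.le)
    rw [le_div_iff₀ hηt] at h2
    exact h2
  have hrow : ((1000 : ℕ) : ℝ) - 1 = 999 := by norm_num
  have hform : (((1000 : ℕ) : ℝ) - 1) * (q * (1 + 1 / 10000) * t) + 2 * t = h := by
    rw [hrow, hh, hH]
    ring
  have ha0 : 0 < q * (1 + 1 / 10000) * t := by positivity
  apply rows_sep 1000 B M γ (1 / 10000) t Φ (by norm_num) (by norm_num) ht (by linarith)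
    (by norm_num) hΦ0 hΦ1
  · rw [← hq, hform]
    exact hBh
  · intro b
    linarith [hγ1 b]
  · intro b r
    rw [← hq, hform]
    have h1 := PkC_cos_lip (-Φ + (b : ℕ) * h) (-Φ + (b : ℕ) * h + (r : ℕ) * (q * (1 + 1 / 10000) * t))
    have h2 : |(-Φ + (b : ℕ) * h) - (-Φ + (b : ℕ) * h + (r : ℕ) * (q * (1 + 1 / 10000) * t))| ≤ h := by
      rw [show (-Φ + ((b : ℕ) : ℝ) * h) - (-Φ + (b : ℕ) * h + (r : ℕ) * (q * (1 + 1 / 10000) * t)) =
        -((r : ℕ) * (q * (1 + 1 / 10000) * t)) by ring, abs_neg, abs_of_nonneg (by positivity)]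
      have h3 : ((r : ℕ) : ℝ) ≤ 999 := by
        have := r.2
        exact_mod_cast (by omega : (r : ℕ) ≤ 999)
      have h4 : ((r : ℕ) : ℝ) * (q * (1 + 1 / 10000) * t) ≤ 999 * (q * (1 + 1 / 10000) * t) :=
        mul_le_mul_of_nonneg_right h3 ha0.le
      rw [hrow] at hform
      linarith
    simp only [hγdef]
    linarith
  · exact hMle
  · intro b
    have h1 := hγ1 b
    have h2 : (1 + 1 / 10000) * t / γ b ≤ 1 / 100 := by
      rw [div_le_iff₀ (by linarith)]
      norm_num at ht0 ⊢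
      linarith
    have h3 : 0 ≤ (1 + 1 / 10000) * t / γ b := by
      apply div_nonneg hηt.le (by linarith)
    calc ((1 + 1 / 10000) * t / γ b) ^ 2 ≤ (1 / 100) ^ 2 := pow_le_pow_left₀ h3 h2 2
      _ ≤ 3 * (1 / 10000) := by norm_num
  · -- the count
    have h1 : ∀ b : Fin B, Real.pi * γ b / ((1 + 1 / 10000) * t) - 1 ≤ (M b : ℝ) := by
      intro b
      have := Nat.lt_floor_add_one (Real.pi * γ b / ((1 + 1 / 10000) * t))
      simp only [hMdef]
      linarith
    have h2 : ∑ b : Fin B, (Real.pi * γ b / ((1 + 1 / 10000) * t) - 1) ≤ ∑ b : Fin B, (M b : ℝ) :=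
      Finset.sum_le_sum fun b _ => h1 b
    have h3 : ∑ b : Fin B, (Real.pi * γ b / ((1 + 1 / 10000) * t) - 1) =
        Real.pi / ((1 + 1 / 10000) * t) *
          (∑ b ∈ Finset.range B, Real.cos (-Φ + b * h) - B * h) - B := by
      rw [Finset.sum_sub_distrib]
      have h4 : ∑ b : Fin B, Real.pi * γ b / ((1 + 1 / 10000) * t) =
          Real.pi / ((1 + 1 / 10000) * t) * ∑ b : Fin B, γ b := by
        rw [Finset.mul_sum]
        apply Finset.sum_congr rfl
        intro b _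
        ring
      have h5 : ∑ b : Fin B, γ b = ∑ b ∈ Finset.range B, Real.cos (-Φ + b * h) - B * h := by
        simp only [hγdef]
        rw [Finset.sum_sub_distrib, Finset.sum_range]
        simp
      rw [h4, h5]
      simp
    rw [h3] at h2
    have hc0 : 0 < Real.pi / ((1 + 1 / 10000) * t) := div_pos Real.pi_pos hηt
    have h6 : Real.pi / ((1 + 1 / 10000) * t) * ((2 * Real.sin Φ - 2 * h) / h - Real.pi) -
        Real.pi / h ≤ ∑ b : Fin B, (M b : ℝ) := by
      refine le_trans ?_ h2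
      have h7 : Real.pi / ((1 + 1 / 10000) * t) * ((2 * Real.sin Φ - 2 * h) / h - Real.pi) ≤
          Real.pi / ((1 + 1 / 10000) * t) *
            (∑ b ∈ Finset.range B, Real.cos (-Φ + b * h) - B * h) :=
        mul_le_mul_of_nonneg_left (by linarith) hc0.le
      have h8 : (B : ℝ) ≤ Real.pi / h := by
        rw [le_div_iff₀ hh0]
        linarith
      linarith
    have h9 : t ^ 2 * (1000 * (Real.pi / ((1 + 1 / 10000) * t) *
        ((2 * Real.sin Φ - 2 * h) / h - Real.pi) - Real.pi / h)) =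
        1000 * (2 * Real.pi * Real.sin Φ) / ((1 + 1 / 10000) * H) -
          1000 / H * (Real.pi / (1 + 1 / 10000) * (2 + Real.pi) * (H * t) + Real.pi * t) := by
      rw [hh]
      have hH0 : H ≠ 0 := by linarith
      field_simp
      ring
    have h10 : 1000 / H * (Real.pi / (1 + 1 / 10000) * (2 + Real.pi) * (H * t) + Real.pi * t) ≤
        0.005 := by
      have h11 : 1000 / H ≤ 1 := by
        rw [div_le_one (by linarith)]
        linarith
      have h12 : Real.pi / (1 + 1 / 10000) ≤ 3.1416 := by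
        rw [div_le_iff₀ (by norm_num)]
        norm_num at hpi2 ⊢
        linarith
      have h13 : Real.pi / (1 + 1 / 10000) * (2 + Real.pi) ≤ 3.1416 * 5.1416 := by
        apply mul_le_mul h12 _ (by linarith) (by norm_num)
        norm_num at hpi2 ⊢
        linarith
      have h14 : Real.pi / (1 + 1 / 10000) * (2 + Real.pi) * (H * t) ≤
          3.1416 * 5.1416 * (1733 / 10 ^ 7) := by
        apply mul_le_mul h13 hh1.le hh0.le (by norm_num)
      have h15 : Real.pi * t ≤ 4 * (1 / 10 ^ 7) := by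
        apply mul_le_mul _ ht0.le ht.le (by norm_num)
        linarith
      have h16 : 0 ≤ Real.pi / (1 + 1 / 10000) * (2 + Real.pi) * (H * t) + Real.pi * t := by
        positivity
      calc 1000 / H * (Real.pi / (1 + 1 / 10000) * (2 + Real.pi) * (H * t) + Real.pi * t) ≤
            1 * (Real.pi / (1 + 1 / 10000) * (2 + Real.pi) * (H * t) + Real.pi * t) :=
            mul_le_mul_of_nonneg_right h11 h16
        _ ≤ 0.005 := by
            norm_num at h14 h15 ⊢
            linarith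
    have h17 : t ^ 2 * (1000 * ∑ b : Fin B, (M b : ℝ)) ≥ 3.62 := by
      have h18 : t ^ 2 * (1000 * (Real.pi / ((1 + 1 / 10000) * t) *
        ((2 * Real.sin Φ - 2 * h) / h - Real.pi) - Real.pi / h)) ≤
          t ^ 2 * (1000 * ∑ b : Fin B, (M b : ℝ)) := by
        apply mul_le_mul_of_nonneg_left _ (by positivity)
        linarith
      rw [h9] at h18
      have h19 : 1000 * (2 * Real.pi * Real.sin Φ) / ((1 + 1 / 10000) * H) ≥ 3.625 := by
        rw [hH]
        exact hnum.le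
      refine le_trans ?_ h18
      refine le_trans ?_ (sub_le_sub h19 h10)
      norm_num
    have h20 : (N : ℝ) * t ^ 2 ≤ (1000 * ∑ b : Fin B, (M b : ℝ)) * t ^ 2 := by
      rw [mul_comm (1000 * ∑ b : Fin B, (M b : ℝ))]
      linarith
    have h21 : (N : ℝ) ≤ 1000 * ∑ b : Fin B, (M b : ℝ) := le_of_mul_le_mul_right h20 (by positivity)
    have h22 : ((∑ b : Fin B, 1000 * M b : ℕ) : ℝ) = 1000 * ∑ b : Fin B, (M b : ℝ) := by
      push_cast
      rw [Finset.mul_sum]
    have h23 : (N : ℝ) ≤ ((∑ b : Fin B, 1000 * M b : ℕ) : ℝ) := by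
      rw [h22]
      exact h21
    exact_mod_cast h23

end

end Pool.Agent.Lib.MP_dabcc9_gt
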