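import Pool.Agent.Lib.MP_dabcc9_gt.LocK
import Pool.Agent.Lib.MP_dabcc9_gt.McI
import Pool.Agent.Lib.MP_dabcc9_gt.PkC

/-! Final assembly, second order. -/

open MeasureTheory Metric Set

namespace Pool.Agent.Lib.MP_dabcc9_gt

theorem upper_local : ∃ η : ℝ, 0 < η ∧ ∀ x : ℝ, 1 - η < x → x < 1 →
    ∃ K : Set E3, IsBody K ∧ bX K = x ∧ bY K ≤ 6 * x - 5 + 5 * (1 - x) ^ 2 := by
  obtain ⟨t0, ht0, hpack⟩ := packing
  obtain ⟨δ0, hδ0, hch⟩ := cap_choice (min t0 (1 / 1000)) (by positivity)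
  refine ⟨δ0, hδ0, fun x hx1 hx2 => ?_⟩
  obtain ⟨N, t, ht, htt, h1, h2, hX⟩ := hch (1 - x) (by linarith) (by linarith)
  have ht1 : t < t0 := lt_of_lt_of_le htt (min_le_left _ _)
  have ht2 : t < 1 / 1000 := lt_of_lt_of_le htt (min_le_right _ _)
  obtain ⟨n, hn⟩ := hpack t ht ht1 N h2
  have hc0 : 0 < Real.cos t := Real.cos_pos_of_mem_Ioo ⟨by linarith [Real.pi_gt_three], by
    linarith [Real.pi_gt_three]⟩
  obtain ⟨e1, e2⟩ := mcap_values ht (by linarith) hn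
  have hi := (cap_ineq N t ht (by nlinarith) h1 h2).2
  rw [hX] at hi
  refine ⟨mcap n (Real.cos t), mcap_body hn hc0 (Real.cos_le_one t), ?_, ?_⟩
  · rw [e1, hX]; ring
  · rw [e2]
    have e3 : 6 * (1 - (1 - x)) - 5 + 5 * (1 - (1 - (1 - x))) ^ 2 = 6 * x - 5 + 5 * (1 - x) ^ 2 := by
      ring
    rw [e3] at hi
    exact hi

theorem second_order : ∃ η : ℝ, 0 < η ∧
    (∀ K : Set E3, IsBody K → 1 - η < bX K → 6 * bX K - 5 + 19 / 5 * (1 - bX K) ^ 2 ≤ bY K) ∧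
    (∀ x : ℝ, 1 - η < x → x < 1 →
      ∃ K : Set E3, IsBody K ∧ bX K = x ∧ bY K ≤ 6 * x - 5 + 5 * (1 - x) ^ 2) := by
  obtain ⟨η1, h1, h1'⟩ := body_local
  obtain ⟨η2, h2, h2'⟩ := upper_local
  refine ⟨min η1 η2, lt_min h1 h2, fun K hK hx => h1' K hK ?_, fun x hx hx1 => h2' x ?_ hx1⟩
  · linarith [min_le_left η1 η2]
  · linarith [min_le_right η1 η2]

end Pool.Agent.Lib.MP_dabcc9_gt
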