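import Pool.Agent.Lib.MP_dabcc9_gt.Final
import Pool.Agent.Lib.MP_dabcc9_gt.Final2
import Pool.Agent.Lib.MP_dabcc9_gt.DcS
import Pool.Agent.Lib.MP_dabcc9_gt.DcW

/-! Final assembly. -/

open MeasureTheory Metric Set

namespace Pool.Agent.Lib.MP_dabcc9_gt

theorem disc_upper_bodies : ∃ η : ℝ, 0 < η ∧ ∀ x : ℝ, 8 / Real.pi ^ 2 < x →
    x < 8 / Real.pi ^ 2 + η → ∃ K : Set E3, IsBody K ∧ bX K = x ∧
      bY K ≤ 6 / (Real.pi - 2) * (x - 8 / Real.pi ^ 2) - 2 / 3 * (x - 8 / Real.pi ^ 2) ^ 2 := by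
  obtain ⟨η, hη, h⟩ := disc_upper2
  refine ⟨η, hη, fun x hx1 hx2 => ?_⟩
  obtain ⟨u, h0, h1, e1, e2⟩ := h x hx1 hx2
  obtain ⟨b1, b2, b3⟩ := cap2_values u h0 h1
  exact ⟨_, b1, b2.trans e1, by rw [b3]; exact e2⟩

/-- Everything on the missing boundary. -/
theorem missing_boundary :
    (∀ K : Set E3, IsBody K →
      DifferentiableWithinAt ℝ (fun t => vol (cthickening t K)) (Ici 0) 0 ∧
        6 * bX K - 5 + (1 - bX K) ^ 2 / 32000 ≤ bY K) ∧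
    (∃ η : ℝ, 0 < η ∧
      (∀ K : Set E3, IsBody K → 1 - η < bX K →
        6 * bX K - 5 + 19 / 5 * (1 - bX K) ^ 2 ≤ bY K) ∧
      ∀ x : ℝ, 1 - η < x → x < 1 →
        ∃ K : Set E3, IsBody K ∧ bX K = x ∧ bY K ≤ 6 * x - 5 + 5 * (1 - x) ^ 2) ∧
    (∀ ε : ℝ, 0 < ε → ∃ η : ℝ, 0 < η ∧ ∀ K : Set E3, IsBody K →
      bX K < 8 / Real.pi ^ 2 + η →
        bX K - 8 / Real.pi ^ 2 ≤ ((Real.pi - 2) / 6 + ε) * bY K) ∧
    (∃ η : ℝ, 0 < η ∧ ∀ x : ℝ, 8 / Real.pi ^ 2 < x → x < 8 / Real.pi ^ 2 + η →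
      ∃ K : Set E3, IsBody K ∧ bX K = x ∧
        bY K ≤ 6 / (Real.pi - 2) * (x - 8 / Real.pi ^ 2)
          - 2 / 3 * (x - 8 / Real.pi ^ 2) ^ 2) :=
  ⟨fun _ hK => ⟨(body_values hK).1, (body_values hK).2.1⟩, second_order, disc_lower,
    disc_upper_bodies⟩

end Pool.Agent.Lib.MP_dabcc9_gt
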