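import Pool.Agent.Lib.MP_dabcc9_gt.DecB

/-! JOB A8.  Poisson equation and spectral gap for polynomials orthogonal to degree `<= 2`. -/

open MvPolynomial

namespace Pool.Agent.Lib.MP_dabcc9_gt

private theorem gap_Lap_sum (M : ℕ) (a : ℕ → ℝ) (g : ℕ → P) :
    Lap (∑ n ∈ Finset.range M, a n • g n) = ∑ n ∈ Finset.range M, a n • Lap (g n) := by
  simp only [Lap, map_sum, Derivation.map_smul, Finset.smul_sum]
  exact Finset.sum_comm

private theorem gap_bil (M : ℕ) (a b : ℕ → ℝ) (g : ℕ → P)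
    (h : ∀ n m, n ≠ m → EE (g n * g m) = 0) :
    EE ((∑ n ∈ Finset.range M, a n • g n) * (∑ n ∈ Finset.range M, b n • g n)) =
      ∑ n ∈ Finset.range M, a n * b n * EE (g n * g n) := by
  rw [Finset.sum_mul, EE_sum]
  refine Finset.sum_congr rfl fun n hn => ?_
  rw [Finset.mul_sum, EE_sum, Finset.sum_eq_single n]
  · rw [smul_mul_smul_comm, EE_smul]
  · intro m _ hm
    rw [smul_mul_smul_comm, EE_smul, h n m (Ne.symm hm), mul_zero]
  · intro hn'
    exact absurd hn hn'

private theorem gap_lam {n m : ℕ} (h : n ≠ m) : (n : ℝ) * (n + 1) ≠ (m : ℝ) * (m + 1) := by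
  intro h'
  have h1 : ((n : ℝ) - m) * (n + m + 1) = 0 := by linarith
  rcases mul_eq_zero.1 h1 with h2 | h2
  · exact h (by exact_mod_cast sub_eq_zero.1 h2)
  · have : (0 : ℝ) < n + m + 1 := by positivity
    linarith

/-- PROOF.  Take `g` from `dec` with `N = totalDegree v + 3`. For `n ≠ m`: `E[g_n g_m] = 0`
(`EE_Lap_symm`, eigenvalues `n(n+1) ≠ m(m+1)`).  Hence `E[g_n g_n] = E[g_n v] = 0` for `n <= 2` (as
`totalDegree (g n) <= 2`), so `g_n = 0` on the sphere (`EE_sq_eq_zero`) for `n <= 2`.  Put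
`z = ∑_{3<=n<=N} (2/(n(n+1))) g_n`: `Lap z = -2 v` on the sphere,
`E[Gam z z] = -E[z Lap z] = 2 E[z v] = ∑ 4/(n(n+1)) E[g_n g_n] <= 1/3 ∑ E[g_n g_n] = 1/3 E[v v]`, and
`E[Gam v v] = -E[v Lap v] = ∑ n(n+1) E[g_n g_n] >= 12 E[v v]`. -/
theorem poisson (v : P) (hv : ∀ q : P, q.totalDegree ≤ 2 → EE (v * q) = 0) :
    ∃ z : P, EqS (Lap z) (-(2 * v)) ∧ EE (Gam z z) ≤ 1 / 3 * EE (v * v) ∧
      12 * EE (v * v) ≤ EE (Gam v v) := by
  obtain ⟨g, hd, hl, hs⟩ := dec (v.totalDegree + 3) v (by omega)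
  set M := v.totalDegree + 3 + 1 with hM
  have horth : ∀ n m, n ≠ m → EE (g n * g m) = 0 := by
    intro n m hnm
    have h1 : EE (g n * Lap (g m)) = -((m : ℝ) * (m + 1)) * EE (g n * g m) := by
      rw [← EE_smul]
      refine EE_congr fun x hx => ?_
      rw [ev_mul, hl m x hx, ev_neg, ev_smul, ev_smul, ev_mul]
      ring
    have h2 : EE (g m * Lap (g n)) = -((n : ℝ) * (n + 1)) * EE (g n * g m) := by
      rw [← EE_smul]
      refine EE_congr fun x hx => ?_
      rw [ev_mul, hl n x hx, ev_neg, ev_smul, ev_smul, ev_mul]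
      ring
    have h3 := EE_Lap_symm (g n) (g m)
    rw [h1, h2] at h3
    have h4 : ((n : ℝ) * (n + 1) - (m : ℝ) * (m + 1)) * EE (g n * g m) = 0 := by linarith
    rcases mul_eq_zero.1 h4 with h5 | h5
    · exact absurd (sub_eq_zero.1 h5) (gap_lam hnm)
    · exact h5
  have hG : ∀ n, 0 ≤ EE (g n * g n) := fun n => EE_nonneg fun x _ => by
    rw [ev_mul]
    exact mul_self_nonneg _
  have hs1 : EqS v (∑ n ∈ Finset.range M, (1 : ℝ) • g n) := by
    simpa only [one_smul] using hs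
  -- products with `g n`
  have hgv : ∀ n ∈ Finset.range M, EE (v * g n) = EE (g n * g n) := by
    intro n hn
    have h1 : EE (v * g n) = EE ((∑ k ∈ Finset.range M, (1 : ℝ) • g k) *
        (∑ k ∈ Finset.range M, (if k = n then (1 : ℝ) else 0) • g k)) := by
      refine EE_congr fun x hx => ?_
      rw [ev_mul, ev_mul, hs1 x hx]
      congr 1
      simp only [ite_smul, one_smul, zero_smul, Finset.sum_ite_eq', hn, if_true]
    rw [h1, gap_bil M _ _ g horth]
    simp only [one_mul, ite_mul, zero_mul, Finset.sum_ite_eq', hn, if_true]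
  have hG0 : ∀ n, n < 3 → EE (g n * g n) = 0 := by
    intro n hn
    rw [← hgv n (Finset.mem_range.2 (by omega))]
    exact hv (g n) ((hd n).trans (by omega))
  have hg0 : ∀ n, n < 3 → EqS (g n) 0 := fun n hn => EE_sq_eq_zero (hG0 n hn)
  have hvv : EE (v * v) = ∑ n ∈ Finset.range M, EE (g n * g n) := by
    rw [EE_congr (hs1.mul hs1), gap_bil M _ _ g horth]
    simp only [one_mul]
  have hlam : ∀ n : ℕ, 3 ≤ n → (12 : ℝ) ≤ (n : ℝ) * (n + 1) := by
    intro n hn
    have h3 : (3 : ℝ) ≤ n := by exact_mod_cast hn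
    nlinarith
  let c : ℕ → ℝ := fun n => if n < 3 then 0 else 2 / ((n : ℝ) * (n + 1))
  let z : P := ∑ n ∈ Finset.range M, c n • g n
  have hLap : ∀ a : ℕ → ℝ, EqS (Lap (∑ n ∈ Finset.range M, a n • g n))
      (∑ n ∈ Finset.range M, (-(a n * ((n : ℝ) * (n + 1)))) • g n) := by
    intro a x hx
    rw [gap_Lap_sum, ev_sum, ev_sum]
    refine Finset.sum_congr rfl fun n _ => ?_
    rw [ev_smul, ev_smul, hl n x hx, ev_neg, ev_smul]
    ring
  have hLz : EqS (Lap z) (-(2 * v)) := by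
    intro x hx
    rw [hLap c x hx, ev_neg, ev_mul, hs1 x hx, ev_sum, ev_sum, ev_ofNat, Finset.mul_sum,
      ← Finset.sum_neg_distrib]
    refine Finset.sum_congr rfl fun n _ => ?_
    rw [ev_smul, ev_smul]
    by_cases hn : n < 3
    · rw [hg0 n hn x hx, ev_zero]
      ring
    · have h1 : (12 : ℝ) ≤ (n : ℝ) * (n + 1) := hlam n (by omega)
      have h2 : c n * ((n : ℝ) * (n + 1)) = 2 := by
        simp only [c, hn, if_false]
        exact div_mul_cancel₀ _ (by linarith)
      rw [h2]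
      ring
  refine ⟨z, hLz, ?_, ?_⟩
  · have h1 : EE (Gam z z) = 2 * EE (z * v) := by
      have h2 := EE_ibp z z
      have h3 : EE (z * Lap z) = -(2 * EE (z * v)) := by
        rw [← EE_two_mul, ← EE_neg]
        refine EE_congr fun x hx => ?_
        rw [ev_mul, hLz x hx, ev_neg, ev_neg, ev_mul, ev_mul, ev_mul]
        ring
      linarith
    have h4 : EE (z * v) = ∑ n ∈ Finset.range M, c n * EE (g n * g n) := by
      rw [EE_congr ((EqS.refl z).mul hs1), gap_bil M _ _ g horth]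
      simp only [mul_one]
    rw [h1, h4, hvv, Finset.mul_sum, Finset.mul_sum]
    refine Finset.sum_le_sum fun n _ => ?_
    by_cases hn : n < 3
    · rw [hG0 n hn]
      simp
    · have h1 : (12 : ℝ) ≤ (n : ℝ) * (n + 1) := hlam n (by omega)
      have h2 : 2 * c n ≤ 1 / 3 := by
        simp only [c, hn, if_false]
        rw [← mul_div_assoc, div_le_iff₀ (by linarith)]
        linarith
      calc 2 * (c n * EE (g n * g n)) = (2 * c n) * EE (g n * g n) := by ring
        _ ≤ 1 / 3 * EE (g n * g n) := mul_le_mul_of_nonneg_right h2 (hG n)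
  · have h1 : EE (Gam v v) = ∑ n ∈ Finset.range M, ((n : ℝ) * (n + 1)) * EE (g n * g n) := by
      have h2 := EE_ibp v v
      have h3 : EqS (Lap v) (∑ n ∈ Finset.range M, (-((1 : ℝ) * ((n : ℝ) * (n + 1)))) • g n) :=
        hs1.Lap.trans (hLap fun _ => 1)
      rw [EE_congr (hs1.mul h3), gap_bil M _ _ g horth] at h2
      have h4 : ∑ n ∈ Finset.range M, ((n : ℝ) * (n + 1)) * EE (g n * g n) =
          -∑ n ∈ Finset.range M, (1 : ℝ) * (-((1 : ℝ) * ((n : ℝ) * (n + 1)))) * EE (g n * g n) := by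
        rw [← Finset.sum_neg_distrib]
        exact Finset.sum_congr rfl fun n _ => by ring
      rw [h4]
      linarith
    rw [h1, hvv, Finset.mul_sum]
    refine Finset.sum_le_sum fun n _ => ?_
    by_cases hn : n < 3
    · rw [hG0 n hn]
      simp
    · exact mul_le_mul_of_nonneg_right (hlam n (by omega)) (hG n)

end Pool.Agent.Lib.MP_dabcc9_gt
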