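import Pool.Agent.Lib.MP_dabcc9_gt.RotC

/-! JOB D1. Support points. -/

open MeasureTheory Metric Set MvPolynomial

namespace Pool.Agent.Lib.MP_dabcc9_gt

noncomputable section

/-- Support point in direction `x` (unit): `p(x) x + grad p(x)`, where the tangential gradient is
`(L p)(x) × x`. -/
def Gp (p : P) (x : E3) : E3 := ev p x • x + cr (Lv p x) x

theorem ConvSS.convS {p : P} (h : ConvSS p) : ConvS p := by
  intro x hx w hw
  by_cases h0 : w = 0
  · subst h0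
    simp
  · exact (h x hx w h0 hw).le

private lemma GeoA_cr0 (a b : E3) : (cr a b) 0 = a 1 * b 2 - a 2 * b 1 := by simp [cr]
private lemma GeoA_cr1 (a b : E3) : (cr a b) 1 = a 2 * b 0 - a 0 * b 2 := by simp [cr]
private lemma GeoA_cr2 (a b : E3) : (cr a b) 2 = a 0 * b 1 - a 1 * b 0 := by simp [cr]

theorem inner_Gp_self (p : P) (x : E3) (hx : ‖x‖ = 1) : inner ℝ (Gp p x) x = ev p x := by
  unfold Gp
  rw [inner_add_left, real_inner_smul_left, real_inner_self_eq_norm_sq, hx, inner_eq3,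
    GeoA_cr0, GeoA_cr1, GeoA_cr2]
  ring

/-- `inner (Gp p x) (w × x) = ∑ w_i L i p`, for `w ⊥ x`. -/
theorem inner_Gp_cr (p : P) (x w : E3) (hx : ‖x‖ = 1) (h : inner ℝ w x = 0) :
    inner ℝ (Gp p x) (cr w x) = ∑ i, w i * ev (L i p) x := by
  have h1 : x 0 ^ 2 + x 1 ^ 2 + x 2 ^ 2 = 1 := by
    rw [← norm_sq_eq3, hx]
    norm_num
  rw [inner_eq3] at h
  have hL0 : (Lv p x) 0 = ev (L 0 p) x := by simp [Lv]
  have hL1 : (Lv p x) 1 = ev (L 1 p) x := by simp [Lv]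
  have hL2 : (Lv p x) 2 = ev (L 2 p) x := by simp [Lv]
  unfold Gp
  rw [inner_add_left, real_inner_smul_left, inner_eq3, inner_eq3,
    GeoA_cr0, GeoA_cr1, GeoA_cr2, GeoA_cr0, GeoA_cr1, GeoA_cr2, hL0, hL1, hL2, Fin.sum_univ_three]
  linear_combination (w 0 * ev (L 0 p) x + w 1 * ev (L 1 p) x + w 2 * ev (L 2 p) x) * h1 -
    (x 0 * ev (L 0 p) x + x 1 * ev (L 1 p) x + x 2 * ev (L 2 p) x) * h

private lemma GeoA_perp (x : E3) (hx : ‖x‖ = 1) : ∃ e : E3, ‖e‖ = 1 ∧ inner ℝ e x = 0 := by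
  have key : ∀ v : E3, v ≠ 0 → inner ℝ v x = 0 → ∃ e : E3, ‖e‖ = 1 ∧ inner ℝ e x = 0 := by
    intro v hv h
    refine ⟨‖v‖⁻¹ • v, ?_, ?_⟩
    · rw [norm_smul, norm_inv, norm_norm, inv_mul_cancel₀ (norm_ne_zero_iff.2 hv)]
    · rw [real_inner_smul_left, h, mul_zero]
  by_cases h1 : (!₂[-x 1, x 0, 0] : E3) = 0
  · by_cases h2 : (!₂[0, -x 2, x 1] : E3) = 0
    · exfalso
      have a1 : x 1 = 0 := by
        have := congrFun (congrArg (fun v : E3 => (v : Fin 3 → ℝ)) h1) 0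
        simpa using this
      have a0 : x 0 = 0 := by
        have := congrFun (congrArg (fun v : E3 => (v : Fin 3 → ℝ)) h1) 1
        simpa using this
      have a2 : x 2 = 0 := by
        have := congrFun (congrArg (fun v : E3 => (v : Fin 3 → ℝ)) h2) 1
        simpa using this
      have h3 := norm_sq_eq3 x
      rw [hx, a0, a1, a2] at h3
      norm_num at h3
    · refine key _ h2 ?_
      rw [inner_eq3]
      simp
      ring
  · refine key _ h1 ?_
    rw [inner_eq3]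
    simp
    ring

private lemma GeoA_decomp (x y : E3) (hx : ‖x‖ = 1) (hy : ‖y‖ = 1) (hne : x ≠ y) :
    ∃ (θ : ℝ) (e : E3), 0 < θ ∧ θ ≤ Real.pi ∧ ‖e‖ = 1 ∧ inner ℝ e x = 0 ∧
      y = Real.cos θ • x + Real.sin θ • e := by
  obtain ⟨c, hc⟩ : ∃ c : ℝ, c = inner ℝ x y := ⟨_, rfl⟩
  have hcle := abs_real_inner_le_norm x y
  rw [hx, hy, mul_one, ← hc, abs_le] at hcle
  have hlt : c < 1 := by
    rw [hc]
    exact (inner_lt_one_iff_real_of_norm_eq_one hx hy).2 hne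
  have hθ : 0 < Real.arccos c := Real.arccos_pos.2 hlt
  have hcos : Real.cos (Real.arccos c) = c := Real.cos_arccos hcle.1 hcle.2
  have hsin0 : 0 ≤ Real.sin (Real.arccos c) :=
    Real.sin_nonneg_of_nonneg_of_le_pi hθ.le (Real.arccos_le_pi c)
  have hv : ‖y - c • x‖ ^ 2 = 1 - c ^ 2 := by
    rw [norm_sub_sq_real, norm_smul, hx, hy, real_inner_smul_right, real_inner_comm, ← hc,
      Real.norm_eq_abs, mul_one, sq_abs]
    ring
  have hvs : ‖y - c • x‖ = Real.sin (Real.arccos c) := by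
    have h1 : Real.sin (Real.arccos c) ^ 2 = 1 - c ^ 2 := by
      have h2 := Real.sin_sq_add_cos_sq (Real.arccos c)
      rw [hcos] at h2
      linarith
    rw [← abs_of_nonneg (norm_nonneg (y - c • x)), ← abs_of_nonneg hsin0, ← sq_eq_sq_iff_abs_eq_abs,
      hv, h1]
  by_cases h0 : y - c • x = 0
  · obtain ⟨e, he1, he2⟩ := GeoA_perp x hx
    refine ⟨Real.arccos c, e, hθ, Real.arccos_le_pi c, he1, he2, ?_⟩
    rw [h0, norm_zero] at hvs
    rw [hcos, ← hvs, zero_smul, add_zero]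
    exact sub_eq_zero.1 h0
  · have hn : ‖y - c • x‖ ≠ 0 := norm_ne_zero_iff.2 h0
    refine ⟨Real.arccos c, ‖y - c • x‖⁻¹ • (y - c • x), hθ, Real.arccos_le_pi c, ?_, ?_, ?_⟩
    · rw [norm_smul, norm_inv, norm_norm, inv_mul_cancel₀ hn]
    · rw [real_inner_smul_left, inner_sub_left, real_inner_smul_left, real_inner_self_eq_norm_sq,
        hx, real_inner_comm, ← hc]
      ring
    · rw [hcos, ← hvs, smul_smul, mul_inv_cancel₀ hn, one_smul]
      abel

/-- JOB D1. PROOF.  `y = cos θ x + sin θ e`, `θ ∈ (0, pi]`, `e` unit orthogonal, `e = w × x`;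
`H θ = ev p (cos θ x + sin θ e)`, `φ θ = H θ - H(0) cos θ - H'(0) sin θ` satisfies `φ'' + φ > 0`,
`φ(0) = φ'(0) = 0`, so `φ > 0` on `(0, pi]` (e.g. `ψ = φ' sin(θ0 - θ) + φ cos(θ0 - θ)` has derivative
`(φ'' + φ) sin (θ0 - θ) > 0` on `(0, θ0)`, `ψ(0) = 0`, `ψ(θ0) = φ(θ0)`).  And
`inner (Gp p x) y = H(0) cos θ + H'(0) sin θ`. -/
theorem support_ineq {p : P} (hp : ConvSS p) (x y : E3) (hx : ‖x‖ = 1) (hy : ‖y‖ = 1)
    (hne : x ≠ y) : inner ℝ (Gp p x) y < ev p y := by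
  obtain ⟨θ, e, hθ0, hθpi, he, hex, rfl⟩ := GeoA_decomp x y hx hy hne
  obtain ⟨w, hw, hwx, rfl⟩ := exists_w x e hx he hex
  obtain ⟨H, hH⟩ : ∃ H : ℝ → ℝ, H = fun s => ev p (Real.cos s • x + Real.sin s • cr w x) :=
    ⟨_, rfl⟩
  obtain ⟨H1, hH1⟩ : ∃ H1 : ℝ → ℝ, H1 = fun s =>
    ∑ i, w i * ev (L i p) (Real.cos s • x + Real.sin s • cr w x) := ⟨_, rfl⟩
  obtain ⟨H2, hH2⟩ : ∃ H2 : ℝ → ℝ, H2 = fun s =>
    ∑ i, ∑ j, w i * w j * ev (L i (L j p)) (Real.cos s • x + Real.sin s • cr w x) := ⟨_, rfl⟩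
  have hd1 : ∀ s, HasDerivAt H (H1 s) s := by
    intro s
    rw [hH, hH1]
    exact hasDerivAt_circle p x w hx hw hwx s
  have hd2 : ∀ s, HasDerivAt H1 (H2 s) s := by
    intro s
    rw [hH1, hH2]
    exact hasDerivAt_circle2 p x w hx hw hwx s
  have hw0 : w ≠ 0 := by
    intro h
    rw [h, norm_zero] at hw
    exact zero_ne_one hw
  have hpos : ∀ s, 0 < H2 s + H s := by
    intro s
    obtain ⟨c1, c2, -⟩ := circle_facts x w hx hw hwx s
    have h1 := hp _ c1 w hw0 c2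
    rw [hw, one_pow, mul_one] at h1
    rw [hH, hH2]
    exact h1
  have hψ : ∀ s, HasDerivAt (fun s => H1 s * Real.sin (θ - s) + H s * Real.cos (θ - s))
      ((H2 s + H s) * Real.sin (θ - s)) s := by
    intro s
    have e1 : HasDerivAt (fun s : ℝ => θ - s) (-1) s := by
      simpa using (hasDerivAt_id s).const_sub θ
    have e2 := (hd2 s).mul e1.sin
    have e3 := (hd1 s).mul e1.cos
    refine (e2.add e3).congr_deriv ?_
    ring
  have hmono : StrictMonoOn (fun s => H1 s * Real.sin (θ - s) + H s * Real.cos (θ - s))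
      (Set.Icc 0 θ) := by
    apply strictMonoOn_of_deriv_pos (convex_Icc 0 θ)
    · exact fun s _ => (hψ s).continuousAt.continuousWithinAt
    · intro s hs
      rw [interior_Icc] at hs
      rw [(hψ s).deriv]
      exact mul_pos (hpos s) (Real.sin_pos_of_pos_of_lt_pi (by linarith [hs.2])
        (by linarith [hs.1]))
  have hlt := hmono (Set.left_mem_Icc.2 hθ0.le) (Set.right_mem_Icc.2 hθ0.le) hθ0
  simp only [sub_zero, sub_self, Real.sin_zero, Real.cos_zero, mul_zero, zero_add, mul_one] at hlt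
  have hH0 : H 0 = ev p x := by
    rw [hH]
    simp
  have hH10 : H1 0 = ∑ i, w i * ev (L i p) x := by
    rw [hH1]
    simp
  rw [inner_add_right, real_inner_smul_right, real_inner_smul_right, inner_Gp_self p x hx,
    inner_Gp_cr p x w hx hwx, ← hH0, ← hH10]
  have hHθ : H θ = ev p (Real.cos θ • x + Real.sin θ • cr w x) := by
    rw [hH]
  rw [← hHθ]
  linarith

end

end Pool.Agent.Lib.MP_dabcc9_gt
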