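import Pool.Agent.Lib.MP_dabcc9_gt.GeoA
import Pool.Agent.Lib.MP_dabcc9_gt.MollA
import Pool.Agent.Lib.MP_dabcc9_gt.AlgA

/-! JOB D2. The body and its parallel bodies. -/

open MeasureTheory Metric Set MvPolynomial

namespace Pool.Agent.Lib.MP_dabcc9_gt

noncomputable section

/-- JOB D2. -/
theorem Gp_mem_body {p : P} (hp : ConvSS p) (x : E3) (hx : ‖x‖ = 1) : Gp p x ∈ body p := by
  intro y hy
  by_cases hxy : x = y
  · subst hxy
    exact (inner_Gp_self p x hx).le
  · exact (support_ineq hp x y hx hy hxy).le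

theorem body_compact (p : P) : IsCompact (body p) := by
  apply Metric.isCompact_of_isClosed_isBounded
  · have h1 : body p = ⋂ x : E3, ⋂ _ : ‖x‖ = 1, {y : E3 | inner ℝ y x ≤ ev p x} := by
      ext y
      simp only [body, mem_ofPred_eq, mem_iInter]
    rw [h1]
    refine isClosed_iInter fun x => isClosed_iInter fun _ => ?_
    exact isClosed_le (continuous_id.inner continuous_const) continuous_const
  · obtain ⟨M, hM⟩ := (isCompact_sphere (0 : E3) 1).exists_bound_of_continuousOn
      (continuous_ev p).continuousOn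
    refine (Metric.isBounded_closedBall (x := (0 : E3)) (r := M)).subset ?_
    intro y hy
    rw [mem_closedBall_zero_iff]
    by_cases h0 : y = 0
    · rw [h0, norm_zero]
      have h1 := hM (EuclideanSpace.single 0 1) (by simp)
      exact (norm_nonneg _).trans h1
    · have hn : ‖y‖ ≠ 0 := norm_ne_zero_iff.2 h0
      have hx : ‖(‖y‖⁻¹ • y : E3)‖ = 1 := by
        rw [norm_smul, norm_inv, norm_norm, inv_mul_cancel₀ hn]
      have h1 := hy _ hx
      rw [real_inner_smul_right, real_inner_self_eq_norm_sq, sq, ← mul_assoc, inv_mul_cancel₀ hn,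
        one_mul] at h1
      have h2 := hM (‖y‖⁻¹ • y : E3) (by rw [mem_sphere_zero_iff_norm]; exact hx)
      exact h1.trans ((le_abs_self _).trans h2)

theorem body_convex (p : P) : Convex ℝ (body p) := by
  intro y hy z hz a b ha hb hab x hx
  rw [inner_add_left, real_inner_smul_left, real_inner_smul_left]
  have h1 := mul_le_mul_of_nonneg_left (hy x hx) ha
  have h2 := mul_le_mul_of_nonneg_left (hz x hx) hb
  have h3 : a * ev p x + b * ev p x = ev p x := by
    rw [← add_mul, hab, one_mul]
  linarith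

theorem supp_body {p : P} (hp : ConvSS p) (x : E3) (hx : ‖x‖ = 1) : supp (body p) x = ev p x := by
  apply IsGreatest.csSup_eq
  constructor
  · exact ⟨Gp p x, Gp_mem_body hp x hx, inner_Gp_self p x hx⟩
  · rintro _ ⟨y, hy, rfl⟩
    exact hy x hx

private lemma GeoB_near {K : Set E3} (hK : IsCompact K) (hc : Convex ℝ K) (hne : K.Nonempty)
    (y : E3) : ∃ z ∈ K, y = z ∨ ∃ x : E3, ‖x‖ = 1 ∧ (∀ w ∈ K, inner ℝ w x ≤ inner ℝ z x) ∧
      ‖y - z‖ = inner ℝ y x - inner ℝ z x := by
  obtain ⟨z, hz, hmin⟩ := exists_norm_eq_iInf_of_complete_convex hne hK.isComplete hc y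
  rw [norm_eq_iInf_iff_real_inner_le_zero hc hz] at hmin
  refine ⟨z, hz, ?_⟩
  by_cases h0 : y = z
  · exact Or.inl h0
  · right
    have hn : ‖y - z‖ ≠ 0 := norm_ne_zero_iff.2 (sub_ne_zero.2 h0)
    refine ⟨‖y - z‖⁻¹ • (y - z), ?_, ?_, ?_⟩
    · rw [norm_smul, norm_inv, norm_norm, inv_mul_cancel₀ hn]
    · intro w hw
      have h1 := hmin w hw
      have h2 : inner ℝ w (‖y - z‖⁻¹ • (y - z)) - inner ℝ z (‖y - z‖⁻¹ • (y - z)) =
          ‖y - z‖⁻¹ * inner ℝ (y - z) (w - z) := by
        rw [← inner_sub_left, real_inner_smul_right, real_inner_comm]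
      have h3 : ‖y - z‖⁻¹ * inner ℝ (y - z) (w - z) ≤ 0 :=
        mul_nonpos_of_nonneg_of_nonpos (inv_nonneg.2 (norm_nonneg _)) h1
      linarith
    · rw [← inner_sub_left, real_inner_smul_right, real_inner_self_eq_norm_sq, sq, ← mul_assoc,
        inv_mul_cancel₀ hn, one_mul]

private lemma GeoB_unit : ‖(EuclideanSpace.single 0 1 : E3)‖ = 1 := by simp

/-- JOB D2. Parallel bodies.  PROOF of `⊇`: `y ∈ body (p + C t)`, `z` the nearest point of the compact
convex set `body p` (`exists_norm_eq_iInf_of_complete_convex`, `norm_eq_iInf_iff_real_inner_le_zero`);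
if `y ≠ z`, `x = (y - z)/|y - z|`: `inner (Gp p x - z) x <= 0` gives `inner z x >= ev p x`, so
`|y - z| = inner (y - z) x <= t`. -/
theorem thick_body {p : P} (hp : ConvSS p) (t : ℝ) (ht : 0 ≤ t) :
    cthickening t (body p) = body (p + C t) := by
  apply Subset.antisymm
  · intro y hy x hx
    rw [(body_compact p).cthickening_eq_biUnion_closedBall ht] at hy
    obtain ⟨z, hz, hyz⟩ := mem_iUnion₂.1 hy
    rw [mem_closedBall, dist_eq_norm] at hyz
    rw [ev_add, ev_C]
    have h1 := hz x hx
    have h2 : inner ℝ y x = inner ℝ z x + inner ℝ (y - z) x := by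
      rw [inner_sub_left]
      ring
    have h3 := real_inner_le_norm (y - z) x
    rw [hx, mul_one] at h3
    linarith
  · intro y hy
    obtain ⟨z, hz, h⟩ := GeoB_near (body_compact p) (body_convex p)
      ⟨_, Gp_mem_body hp _ GeoB_unit⟩ y
    rcases h with h | ⟨x, hx, h1, h2⟩
    · rw [h]
      exact self_subset_cthickening (E := body p) hz
    · have h3 := h1 _ (Gp_mem_body hp x hx)
      rw [inner_Gp_self p x hx] at h3
      have h4 := hy x hx
      rw [ev_add, ev_C] at h4
      apply mem_cthickening_of_dist_le y z t (body p) hz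
      rw [dist_eq_norm, h2]
      linarith

theorem convSS_add_C {p : P} (hp : ConvSS p) (t : ℝ) (ht : 0 ≤ t) : ConvSS (p + C t) := by
  intro x hx w hw hwx
  have h1 := hp x hx w hw hwx
  have h2 : ∀ i j, L i (L j (p + C t)) = L i (L j p) := by
    intro i j
    rw [map_add, L_C, add_zero]
  simp only [h2, ev_add, ev_C]
  have h3 : 0 ≤ t * ‖w‖ ^ 2 := by positivity
  have h4 : (ev p x + t) * ‖w‖ ^ 2 = ev p x * ‖w‖ ^ 2 + t * ‖w‖ ^ 2 := by ring
  rw [h4]
  linarith

/-- A compact convex set is the intersection of its supporting half spaces; so if `supp K <= p` on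
the sphere then `K ⊆ body p`, and if `p <= supp K + η` then `body p ⊆ cthickening η K`. -/
theorem body_between {K : Set E3} (hK : IsCompact K) (hc : Convex ℝ K) (hne : K.Nonempty) (p : P)
    (η : ℝ) (hη : 0 ≤ η) (h : ∀ x : E3, ‖x‖ = 1 → supp K x ≤ ev p x ∧ ev p x ≤ supp K x + η) :
    K ⊆ body p ∧ body p ⊆ cthickening η K := by
  obtain ⟨s1, s2, -⟩ := supp_props hK hne
  constructor
  · intro y hy x hx
    exact (s1 y hy x).trans (h x hx).1
  · intro y hy
    obtain ⟨z, hz, h'⟩ := GeoB_near hK hc hne y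
    rcases h' with h' | ⟨x, hx, h1, h2⟩
    · rw [h']
      exact self_subset_cthickening (E := K) hz
    · obtain ⟨w, hw, hw2⟩ := s2 x
      have h3 := h1 w hw
      rw [← hw2] at h3
      have h4 := hy x hx
      have h5 := (h x hx).2
      apply mem_cthickening_of_dist_le y z η K hz
      rw [dist_eq_norm, h2]
      linarith

end

end Pool.Agent.Lib.MP_dabcc9_gt
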