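import Pool.Agent.Lib.MP_dabcc9_gt.GeoB

/-! JOB D3. Parametrisation of the body. -/

open MeasureTheory Metric Set MvPolynomial

namespace Pool.Agent.Lib.MP_dabcc9_gt

noncomputable section

/-- JOB D3.  The parametrisation of the body. -/
def Fp (p : P) (x : E3) : E3 := ‖x‖ • Gp p ((‖x‖)⁻¹ • x)

theorem GeoC_unit (x : E3) (hx : x ≠ 0) : ‖(‖x‖)⁻¹ • x‖ = 1 := by
  rw [norm_smul, norm_inv, norm_norm]
  exact inv_mul_cancel₀ (norm_ne_zero_iff.mpr hx)

theorem GeoC_self (x : E3) (hx : x ≠ 0) : ‖x‖ • ((‖x‖)⁻¹ • x) = x := by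
  rw [smul_smul, mul_inv_cancel₀ (norm_ne_zero_iff.mpr hx), one_smul]

theorem GeoC_le {p : P} (hp : ConvSS p) (x y : E3) (hx : ‖x‖ = 1) (hy : ‖y‖ = 1) :
    inner ℝ (Gp p x) y ≤ ev p y := by
  by_cases h : x = y
  · subst h
    exact (inner_Gp_self p x hx).le
  · exact (support_ineq hp x y hx hy h).le

/-- PROOF: `r G(ν) = r' G(ν')`: pairing with `ν`: `r p(ν) <= r' p(ν)`, so `r <= r'`, symmetric, `r = r'`;
then `G(ν) = G(ν')` and `support_ineq` forces `ν = ν'`. -/
theorem Fp_injOn {p : P} (hp : ConvSS p) (hpos : ∀ x : E3, ‖x‖ = 1 → 0 < ev p x) :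
    InjOn (Fp p) (closedBall 0 1 \ {0}) := by
  have aux : ∀ (x x' : E3), x ≠ 0 → x' ≠ 0 → Fp p x = Fp p x' → ‖x‖ ≤ ‖x'‖ := by
    intro x x' hx hx' h
    have u := GeoC_unit x hx
    have u' := GeoC_unit x' hx'
    have h1 : inner ℝ (Fp p x) ((‖x‖)⁻¹ • x) = ‖x‖ * ev p ((‖x‖)⁻¹ • x) := by
      unfold Fp
      rw [real_inner_smul_left, inner_Gp_self p _ u]
    have h2 : inner ℝ (Fp p x') ((‖x‖)⁻¹ • x) ≤ ‖x'‖ * ev p ((‖x‖)⁻¹ • x) := by
      unfold Fp
      rw [real_inner_smul_left]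
      exact mul_le_mul_of_nonneg_left (GeoC_le hp _ _ u' u) (norm_nonneg _)
    rw [h] at h1
    rw [h1] at h2
    exact le_of_mul_le_mul_right h2 (hpos _ u)
  intro x hx x' hx' h
  have hx0 : x ≠ 0 := hx.2
  have hx0' : x' ≠ 0 := hx'.2
  have hr : ‖x‖ = ‖x'‖ := le_antisymm (aux x x' hx0 hx0' h) (aux x' x hx0' hx0 h.symm)
  have u := GeoC_unit x hx0
  have u' := GeoC_unit x' hx0'
  have hG : Gp p ((‖x‖)⁻¹ • x) = Gp p ((‖x'‖)⁻¹ • x') := by
    have h3 : ‖x‖ • Gp p ((‖x‖)⁻¹ • x) = ‖x‖ • Gp p ((‖x'‖)⁻¹ • x') := by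
      have h4 : ‖x‖ • Gp p ((‖x‖)⁻¹ • x) = ‖x'‖ • Gp p ((‖x'‖)⁻¹ • x') := h
      rw [h4, hr]
    exact smul_right_injective E3 (norm_ne_zero_iff.mpr hx0) h3
  have hν : (‖x'‖)⁻¹ • x' = (‖x‖)⁻¹ • x := by
    by_contra hne
    have h5 := support_ineq hp _ _ u' u hne
    rw [← hG, inner_Gp_self p _ u] at h5
    exact lt_irrefl _ h5
  calc x = ‖x‖ • ((‖x‖)⁻¹ • x) := (GeoC_self x hx0).symm
    _ = ‖x'‖ • ((‖x'‖)⁻¹ • x') := by rw [hν, hr]
    _ = x' := GeoC_self x' hx0'

/-- PROOF of `⊇`: `y ∈ body p`, `y ≠ 0`; `ν ↦ inner y ν / ev p ν` attains its maximum `t` on the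
compact sphere at `ν`; `0 < t <= 1`; the derivative along `cos θ ν + sin θ (w × ν)` at `θ = 0` vanishes:
`inner y (w × ν) = t ∑ w_i L i p(ν)`; so `y - t Gp p ν` is orthogonal to `ν` and to all `w × ν`,
i.e. zero; `y = Fp p (t ν)`. -/
theorem Fp_image {p : P} (hp : ConvSS p) (hpos : ∀ x : E3, ‖x‖ = 1 → 0 < ev p x) :
    Fp p '' (closedBall 0 1 \ {0}) = body p \ {0} := by
  ext y
  constructor
  · rintro ⟨x, ⟨hx1, hx2⟩, rfl⟩
    have hx0 : x ≠ 0 := hx2
    have u := GeoC_unit x hx0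
    have hr : ‖x‖ ≤ 1 := by simpa using hx1
    have hr0 : 0 < ‖x‖ := norm_pos_iff.mpr hx0
    refine ⟨?_, ?_⟩
    · intro z hz
      unfold Fp
      rw [real_inner_smul_left]
      have h1 := mul_le_mul_of_nonneg_left (GeoC_le hp _ _ u hz) hr0.le
      have h2 := hpos z hz
      nlinarith
    · intro h0
      have h0' : Fp p x = 0 := h0
      have h1 : inner ℝ (Fp p x) ((‖x‖)⁻¹ • x) = ‖x‖ * ev p ((‖x‖)⁻¹ • x) := by
        unfold Fp
        rw [real_inner_smul_left, inner_Gp_self p _ u]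
      rw [h0', inner_zero_left] at h1
      have := mul_pos hr0 (hpos _ u)
      linarith
  · rintro ⟨hy1, hy2⟩
    have hy0 : y ≠ 0 := hy2
    have uy := GeoC_unit y hy0
    have hcont : ContinuousOn (fun z : E3 => inner ℝ y z / ev p z) (sphere 0 1) := by
      apply ContinuousOn.div
      · exact (continuous_const.inner continuous_id).continuousOn
      · exact (continuous_ev p).continuousOn
      · intro z hz
        exact (hpos z (by simpa using hz)).ne'
    obtain ⟨ν, hν, hmax⟩ := (isCompact_sphere (0 : E3) 1).exists_isMaxOn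
      ⟨(‖y‖)⁻¹ • y, by simpa using uy⟩ hcont
    have hν1 : ‖ν‖ = 1 := by simpa using hν
    have hmax' : ∀ z : E3, ‖z‖ = 1 → inner ℝ y z / ev p z ≤ inner ℝ y ν / ev p ν := by
      intro z hz
      exact hmax (by simpa using hz)
    set t := inner ℝ y ν / ev p ν with ht
    have hpν := hpos ν hν1
    have htν : inner ℝ y ν = t * ev p ν := by
      rw [ht]
      field_simp
    have hle : ∀ z : E3, ‖z‖ = 1 → inner ℝ y z ≤ t * ev p z := by
      intro z hz
      have := hmax' z hz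
      rwa [div_le_iff₀ (hpos z hz)] at this
    have htpos : 0 < t := by
      have h1 := hle _ uy
      rw [real_inner_smul_right, real_inner_self_eq_norm_sq] at h1
      have h2 : 0 < (‖y‖)⁻¹ * ‖y‖ ^ 2 := by
        have := norm_pos_iff.mpr hy0
        positivity
      have h3 := hpos _ uy
      by_contra hneg
      have h4 : t ≤ 0 := not_lt.mp hneg
      have := mul_nonpos_of_nonpos_of_nonneg h4 h3.le
      linarith
    have ht1 : t ≤ 1 := by
      rw [ht, div_le_one hpν]
      exact hy1 ν hν1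
    have hD : y - t • Gp p ν = 0 := by
      by_contra hD0
      set D := y - t • Gp p ν with hDd
      have hDν : inner ℝ D ν = 0 := by
        rw [hDd, inner_sub_left, real_inner_smul_left, inner_Gp_self p ν hν1, htν]
        ring
      have he := GeoC_unit D hD0
      have heν : inner ℝ ((‖D‖)⁻¹ • D) ν = 0 := by
        rw [real_inner_smul_left, hDν, mul_zero]
      obtain ⟨w, hw1, hw2, hw3⟩ := exists_w ν _ hν1 he heν
      have hd := hasDerivAt_circle p ν w hν1 hw1 hw2 0
      have hd2 : HasDerivAt (fun θ : ℝ => inner ℝ y (Real.cos θ • ν + Real.sin θ • cr w ν))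
          (inner ℝ y (cr w ν)) 0 := by
        have e1 : (fun θ : ℝ => inner ℝ y (Real.cos θ • ν + Real.sin θ • cr w ν)) =
            fun θ : ℝ => Real.cos θ * inner ℝ y ν + Real.sin θ * inner ℝ y (cr w ν) := by
          funext θ
          rw [inner_add_right, real_inner_smul_right, real_inner_smul_right]
        rw [e1]
        have e2 := ((Real.hasDerivAt_cos 0).mul_const (inner ℝ y ν)).fun_add
          ((Real.hasDerivAt_sin 0).mul_const (inner ℝ y (cr w ν)))
        simpa using e2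
      have hd3 := (hd.const_mul t).sub hd2
      have hmin : IsLocalMin (fun θ : ℝ => t * ev p (Real.cos θ • ν + Real.sin θ • cr w ν) -
          inner ℝ y (Real.cos θ • ν + Real.sin θ • cr w ν)) 0 := by
        apply Filter.Eventually.of_forall
        intro θ
        have e1 := (circle_facts ν w hν1 hw1 hw2 θ).1
        have e2 := hle _ e1
        simp only [Real.cos_zero, Real.sin_zero, one_smul, zero_smul, add_zero]
        rw [htν]
        linarith
      have h0 := hmin.hasDerivAt_eq_zero hd3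
      simp only [Real.cos_zero, Real.sin_zero, one_smul, zero_smul, add_zero] at h0
      rw [← inner_Gp_cr p ν w hν1 hw2, hw3] at h0
      have h1 : inner ℝ D ((‖D‖)⁻¹ • D) = 0 := by
        have e3 : inner ℝ D ((‖D‖)⁻¹ • D) = inner ℝ (y - t • Gp p ν) ((‖D‖)⁻¹ • D) := by
          rw [← hDd]
        rw [e3, inner_sub_left, real_inner_smul_left]
        linarith
      rw [real_inner_smul_right, real_inner_self_eq_norm_sq] at h1
      have hDn := norm_pos_iff.mpr hD0
      have : 0 < (‖D‖)⁻¹ * ‖D‖ ^ 2 := by positivity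
      linarith
    refine ⟨t • ν, ⟨?_, ?_⟩, ?_⟩
    · simp only [mem_closedBall, dist_zero_right, norm_smul, hν1, Real.norm_eq_abs,
        abs_of_pos htpos, mul_one]
      exact ht1
    · intro h0
      have h0' : t • ν = 0 := h0
      rcases smul_eq_zero.mp h0' with h | h
      · exact htpos.ne' h
      · rw [h, norm_zero] at hν1
        exact zero_ne_one hν1
    · have hn : ‖t • ν‖ = t := by
        rw [norm_smul, hν1, Real.norm_eq_abs, abs_of_pos htpos, mul_one]
      unfold Fp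
      rw [hn, smul_smul, inv_mul_cancel₀ htpos.ne', one_smul]
      exact (sub_eq_zero.mp hD).symm

end

end Pool.Agent.Lib.MP_dabcc9_gt
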