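import Pool.Agent.Lib.MP_dabcc9_gt.RotC
import Pool.Agent.Lib.MP_dabcc9_gt.AlgB
import Pool.Agent.Lib.MP_dabcc9_gt.SphC

/-! JOB D4. Determinant in a frame. -/

open MeasureTheory Metric Set MvPolynomial

namespace Pool.Agent.Lib.MP_dabcc9_gt

noncomputable section

open Matrix in
theorem GeoD_alg (U M : Matrix (Fin 3) (Fin 3) ℝ) (v : Fin 3 → ℝ) (q : ℝ) (hU : U * Uᵀ = 1)
    (h1 : ∀ j, ∑ i, U 0 i * M i j = 0) (h2 : ∀ i, M i (i + 1) - M (i + 1) i = - v (i + 2))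
    (hv : ∑ i, U 0 i * v i = 0) :
    (1 / 2 : ℝ) * ((∑ i, M i i) * (∑ i, M i i) + 2 * (q * (∑ i, M i i)) + 2 * (q * q)
      - ∑ i, ∑ j, M i j * M i j + ∑ i, v i * v i) =
      ((U * M * Uᵀ) 1 1 + q) * ((U * M * Uᵀ) 2 2 + q) - (U * M * Uᵀ) 1 2 ^ 2 ∧
      (U * M * Uᵀ) 1 2 = (U * M * Uᵀ) 2 1 := by
  have hU' : Uᵀ * U = 1 := mul_eq_one_comm.mp hU
  obtain ⟨N, hN⟩ : ∃ N, N = U * M * Uᵀ := ⟨_, rfl⟩
  rw [← hN]
  have htr : ∑ i, M i i = N 0 0 + N 1 1 + N 2 2 := by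
    have h : N.trace = M.trace := by
      rw [hN, Matrix.trace_mul_comm, ← Matrix.mul_assoc, hU', Matrix.one_mul]
    simp only [Matrix.trace, Matrix.diag_apply] at h
    rw [← h, Fin.sum_univ_three]
  have hss : ∑ i, ∑ j, M i j * M i j = ∑ i, ∑ j, N i j * N i j := by
    have h : (N * Nᵀ).trace = (M * Mᵀ).trace := by
      rw [hN, Matrix.transpose_mul, Matrix.transpose_mul, Matrix.transpose_transpose]
      have e : U * M * Uᵀ * (U * (Mᵀ * Uᵀ)) = U * (M * Mᵀ * Uᵀ) := by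
        calc _ = U * M * (Uᵀ * U) * (Mᵀ * Uᵀ) := by simp only [Matrix.mul_assoc]
          _ = _ := by rw [hU', Matrix.mul_one]; simp only [Matrix.mul_assoc]
      rw [e, Matrix.trace_mul_comm, Matrix.mul_assoc, hU', Matrix.mul_one]
    simp only [Matrix.trace, Matrix.diag_apply, Matrix.mul_apply, Matrix.transpose_apply] at h
    exact h.symm
  have hrow : ∀ j, N 0 j = 0 := by
    intro j
    rw [hN, Matrix.mul_apply]
    refine Finset.sum_eq_zero fun k _ => ?_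
    rw [Matrix.mul_apply, h1, zero_mul]
  -- completeness
  have hc : ∀ i j, U 0 i * U 0 j + U 1 i * U 1 j + U 2 i * U 2 j = if i = j then 1 else 0 := by
    intro i j
    have h := congrFun (congrFun hU' i) j
    rw [Matrix.mul_apply, Fin.sum_univ_three, Matrix.one_apply] at h
    simpa [Matrix.transpose_apply] using h
  have ho : ∀ i j, U i 0 * U j 0 + U i 1 * U j 1 + U i 2 * U j 2 = if i = j then 1 else 0 := by
    intro i j
    have h := congrFun (congrFun hU i) j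
    rw [Matrix.mul_apply, Fin.sum_univ_three, Matrix.one_apply] at h
    simpa [Matrix.transpose_apply] using h
  have hNa : ∀ a b, N a b = U a 0 * (M 0 0 * U b 0 + M 0 1 * U b 1 + M 0 2 * U b 2) +
      U a 1 * (M 1 0 * U b 0 + M 1 1 * U b 1 + M 1 2 * U b 2) +
      U a 2 * (M 2 0 * U b 0 + M 2 1 * U b 1 + M 2 2 * U b 2) := by
    intro a b
    rw [hN, Matrix.mul_assoc, Matrix.mul_apply, Fin.sum_univ_three, Matrix.mul_apply, Matrix.mul_apply,
      Matrix.mul_apply, Fin.sum_univ_three, Fin.sum_univ_three, Fin.sum_univ_three]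
    simp only [Matrix.transpose_apply]
  have e0 := h1 0
  have e1 := h1 1
  have e2 := h1 2
  rw [Fin.sum_univ_three] at e0 e1 e2 hv
  have k0 : M 0 1 - M 1 0 = - v 2 := h2 0
  have k1 : M 1 2 - M 2 1 = - v 0 := h2 1
  have k2 : M 2 0 - M 0 2 = - v 1 := h2 2
  -- `M x = v × x`
  have y0 : M 0 0 * U 0 0 + M 0 1 * U 0 1 + M 0 2 * U 0 2 = v 1 * U 0 2 - v 2 * U 0 1 := by
    linear_combination e0 + U 0 1 * k0 - U 0 2 * k2
  have y1 : M 1 0 * U 0 0 + M 1 1 * U 0 1 + M 1 2 * U 0 2 = v 2 * U 0 0 - v 0 * U 0 2 := by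
    linear_combination e1 - U 0 0 * k0 + U 0 2 * k1
  have y2 : M 2 0 * U 0 0 + M 2 1 * U 0 1 + M 2 2 * U 0 2 = v 0 * U 0 1 - v 1 * U 0 0 := by
    linear_combination e2 + U 0 0 * k2 - U 0 1 * k1
  have c00 := hc 0 0
  have c11 := hc 1 1
  have c22 := hc 2 2
  have c01 := hc 0 1
  have c02 := hc 0 2
  have c12 := hc 1 2
  have o00 := ho 0 0
  simp only [if_true, Fin.isValue] at c00 c11 c22 o00
  rw [if_neg (by decide)] at c01 c02 c12
  have hcol : N 0 0 * N 0 0 + N 1 0 * N 1 0 + N 2 0 * N 2 0 = v 0 * v 0 + v 1 * v 1 + v 2 * v 2 := by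
    have hx : ∀ a, N a 0 = U a 0 * (v 1 * U 0 2 - v 2 * U 0 1) + U a 1 * (v 2 * U 0 0 - v 0 * U 0 2) +
        U a 2 * (v 0 * U 0 1 - v 1 * U 0 0) := by
      intro a
      rw [hNa, y0, y1, y2]
    rw [hx, hx, hx]
    obtain ⟨s, hs⟩ : ∃ s, s = v 1 * U 0 2 - v 2 * U 0 1 := ⟨_, rfl⟩
    obtain ⟨t, ht⟩ : ∃ t, t = v 2 * U 0 0 - v 0 * U 0 2 := ⟨_, rfl⟩
    obtain ⟨u, hu⟩ : ∃ u, u = v 0 * U 0 1 - v 1 * U 0 0 := ⟨_, rfl⟩
    rw [← hs, ← ht, ← hu]
    have h3 : (U 0 0 * s + U 0 1 * t + U 0 2 * u) * (U 0 0 * s + U 0 1 * t + U 0 2 * u) +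
        (U 1 0 * s + U 1 1 * t + U 1 2 * u) * (U 1 0 * s + U 1 1 * t + U 1 2 * u) +
        (U 2 0 * s + U 2 1 * t + U 2 2 * u) * (U 2 0 * s + U 2 1 * t + U 2 2 * u) = s * s + t * t + u * u := by
      linear_combination s * s * c00 + t * t * c11 + u * u * c22 + 2 * s * t * c01 + 2 * s * u * c02 + 2 * t * u * c12
    rw [h3, hs, ht, hu]
    linear_combination (v 0 * v 0 + v 1 * v 1 + v 2 * v 2) * o00 - (U 0 0 * v 0 + U 0 1 * v 1 + U 0 2 * v 2) * hv
  have hsym : N 1 2 = N 2 1 := by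
    rw [hNa, hNa]
    -- v = α a + β b
    obtain ⟨α, hα⟩ : ∃ α, α = U 1 0 * v 0 + U 1 1 * v 1 + U 1 2 * v 2 := ⟨_, rfl⟩
    obtain ⟨β, hβ⟩ : ∃ β, β = U 2 0 * v 0 + U 2 1 * v 1 + U 2 2 * v 2 := ⟨_, rfl⟩
    have v0 : v 0 = α * U 1 0 + β * U 2 0 := by
      rw [hα, hβ]; linear_combination U 0 0 * hv - v 0 * c00 - v 1 * c01 - v 2 * c02
    have v1 : v 1 = α * U 1 1 + β * U 2 1 := by
      rw [hα, hβ]; linear_combination U 0 1 * hv - v 0 * c01 - v 1 * c11 - v 2 * c12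
    have v2 : v 2 = α * U 1 2 + β * U 2 2 := by
      rw [hα, hβ]; linear_combination U 0 2 * hv - v 0 * c02 - v 1 * c12 - v 2 * c22
    have h4 : v 0 * (U 1 1 * U 2 2 - U 1 2 * U 2 1) + v 1 * (U 1 2 * U 2 0 - U 1 0 * U 2 2) +
        v 2 * (U 1 0 * U 2 1 - U 1 1 * U 2 0) = 0 := by
      rw [v0, v1, v2]; ring
    linear_combination (U 1 0 * U 2 1 - U 1 1 * U 2 0) * k0 + (U 1 1 * U 2 2 - U 1 2 * U 2 1) * k1 +
      (U 1 2 * U 2 0 - U 1 0 * U 2 2) * k2 - h4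
  refine ⟨?_, hsym⟩
  rw [htr, hss]
  simp only [Fin.sum_univ_three]
  simp only [hrow] at hcol ⊢
  rw [hsym]
  linear_combination (-(1 / 2 : ℝ)) * hcol

/-- Bilinear form of `Hess p + p g` in terms of `w = x × tau`. -/
def Aw (p : P) (x w w' : E3) : ℝ :=
  (∑ i, ∑ j, w i * w' j * ev (L i (L j p)) x) + ev p x * inner ℝ w w'

/-- The matrix with the rows `x`, `w1`, `w2`. -/
def GeoD_U (x w1 w2 : E3) : Matrix (Fin 3) (Fin 3) ℝ :=
  Matrix.of ![fun i => x i, fun i => w1 i, fun i => w2 i]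

theorem GeoD_U_mul (x w1 w2 : E3) (hx : ‖x‖ = 1) (h1 : ‖w1‖ = 1) (h2 : ‖w2‖ = 1)
    (h12 : inner ℝ w1 w2 = 0) (h10 : inner ℝ w1 x = 0) (h20 : inner ℝ w2 x = 0) :
    GeoD_U x w1 w2 * (GeoD_U x w1 w2).transpose = 1 := by
  have nx : x 0 * x 0 + x 1 * x 1 + x 2 * x 2 = 1 := by
    rw [← inner_eq3, real_inner_self_eq_norm_sq, hx]; norm_num
  have n1 : w1 0 * w1 0 + w1 1 * w1 1 + w1 2 * w1 2 = 1 := by
    rw [← inner_eq3, real_inner_self_eq_norm_sq, h1]; norm_num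
  have n2 : w2 0 * w2 0 + w2 1 * w2 1 + w2 2 * w2 2 = 1 := by
    rw [← inner_eq3, real_inner_self_eq_norm_sq, h2]; norm_num
  rw [inner_eq3] at h12 h10 h20
  ext a b
  rw [Matrix.mul_apply, Fin.sum_univ_three, Matrix.one_apply]
  fin_cases a <;> fin_cases b <;>
    simp [GeoD_U, Matrix.transpose_apply] <;> linarith

theorem GeoD_N (p : P) (x w1 w2 : E3) (a b : Fin 3) :
    (GeoD_U x w1 w2 * (Matrix.of fun i j => ev (L i (L j p)) x) * (GeoD_U x w1 w2).transpose) a b =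
      ∑ i, ∑ j, GeoD_U x w1 w2 a i * GeoD_U x w1 w2 b j * ev (L i (L j p)) x := by
  rw [Matrix.mul_assoc, Matrix.mul_apply]
  refine Finset.sum_congr rfl fun i _ => ?_
  rw [Matrix.mul_apply, Finset.mul_sum]
  refine Finset.sum_congr rfl fun j _ => ?_
  rw [Matrix.of_apply, Matrix.transpose_apply]
  ring

/-- In an orthonormal frame `(x, w1, w2)`.  PROOF: `M_ij = (L i L j p)(x)`; the invariants
`tr M`, `∑ M_ij^2` computed in the frame: `x^T M = 0`, `M x = (L p × x)` up to sign, so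
`SS p p - Gam p p = M11^2 + M12^2 + M21^2 + M22^2` in the frame `w1, w2`, `Lap p = M11 + M22`,
`M12 = M21`. -/
theorem ev_detA_frame (p : P) (x w1 w2 : E3) (hx : ‖x‖ = 1) (h1 : ‖w1‖ = 1) (h2 : ‖w2‖ = 1)
    (h12 : inner ℝ w1 w2 = 0) (h10 : inner ℝ w1 x = 0) (h20 : inner ℝ w2 x = 0) :
    ev (detA p) x = Aw p x w1 w1 * Aw p x w2 w2 - Aw p x w1 w2 ^ 2 ∧
      Aw p x w1 w2 = Aw p x w2 w1 := by
  have key := GeoD_alg (GeoD_U x w1 w2) (Matrix.of fun i j => ev (L i (L j p)) x) (fun i => ev (L i p) x)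
    (ev p x) (GeoD_U_mul x w1 w2 hx h1 h2 h12 h10 h20) (fun j => by
      have h := congrArg (fun a => ev a x) (sum_X_L (L j p))
      simp only [ev_sum, ev_mul, ev_X, ev_zero] at h
      exact h) (fun i => by
      have h := congrArg (fun a => ev a x) (L_comm i p)
      simp only [ev_sub, ev_neg] at h
      exact h) (by
      have h := congrArg (fun a => ev a x) (sum_X_L p)
      simp only [ev_sum, ev_mul, ev_X, ev_zero] at h
      exact h)
  rw [GeoD_N, GeoD_N, GeoD_N, GeoD_N] at key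
  have n1 : inner ℝ w1 w1 = (1 : ℝ) := by rw [real_inner_self_eq_norm_sq, h1]; norm_num
  have n2 : inner ℝ w2 w2 = (1 : ℝ) := by rw [real_inner_self_eq_norm_sq, h2]; norm_num
  have h21 : inner ℝ w2 w1 = (0 : ℝ) := by rw [real_inner_comm, h12]
  unfold Aw
  rw [n1, n2, h12, h21, mul_one, mul_zero, add_zero, add_zero]
  refine ⟨?_, key.2⟩
  have e : ev (detA p) x = (1 / 2 : ℝ) * ((∑ i, ev (L i (L i p)) x) * (∑ i, ev (L i (L i p)) x) +
      2 * (ev p x * (∑ i, ev (L i (L i p)) x)) + 2 * (ev p x * ev p x)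
      - ∑ i, ∑ j, ev (L i (L j p)) x * ev (L i (L j p)) x + ∑ i, ev (L i p) x * ev (L i p) x) := by
    have h2' : ev (2 : P) x = 2 := ev_ofNat 2 x
    unfold detA Lap SS Gam
    simp only [ev_mul, ev_add, ev_sub, ev_sum, ev_C, h2']
  rw [e]
  exact key.1

/-- JOB D5.  Positive definite forms have positive determinant. -/
theorem detA_pos {p : P} (hp : ConvSS p) (x : E3) (hx : ‖x‖ = 1) : 0 < ev (detA p) x := by
  obtain ⟨w1, w2, h1, h2, h12, h10, h20⟩ := exists_frame x hx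
  obtain ⟨e, hs⟩ := ev_detA_frame p x w1 w2 hx h1 h2 h12 h10 h20
  rw [e]
  have hA : ∀ w : E3, w ≠ 0 → inner ℝ w x = 0 → 0 < Aw p x w w := by
    intro w hw hwx
    have h := hp x hx w hw hwx
    unfold Aw
    rw [real_inner_self_eq_norm_sq]
    exact h
  have hlin : ∀ s t : ℝ, Aw p x (s • w1 + t • w2) (s • w1 + t • w2) =
      s ^ 2 * Aw p x w1 w1 + 2 * (s * t) * Aw p x w1 w2 + t ^ 2 * Aw p x w2 w2 := by
    intro s t
    have e1 : Aw p x (s • w1 + t • w2) (s • w1 + t • w2) =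
        s ^ 2 * Aw p x w1 w1 + (s * t) * Aw p x w1 w2 + (s * t) * Aw p x w2 w1 + t ^ 2 * Aw p x w2 w2 := by
      unfold Aw
      simp only [inner_add_left, inner_add_right, real_inner_smul_left, real_inner_smul_right,
        PiLp.add_apply, PiLp.smul_apply, smul_eq_mul, Fin.sum_univ_three]
      ring
    rw [e1, ← hs]
    ring
  have hw2 : w2 ≠ 0 := by
    intro h0
    rw [h0, norm_zero] at h2
    exact zero_ne_one h2
  have hA2 := hA w2 hw2 h20
  have hw : (Aw p x w2 w2) • w1 + (-(Aw p x w1 w2)) • w2 ≠ 0 := by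
    intro h0
    have h3 := congrArg (fun u : E3 => inner ℝ u w1) h0
    simp only [inner_add_left, real_inner_smul_left, inner_zero_left] at h3
    rw [real_inner_self_eq_norm_sq, h1, real_inner_comm, h12] at h3
    nlinarith
  have h5 := hA _ hw (by
    rw [inner_add_left, real_inner_smul_left, real_inner_smul_left, h10, h20]
    ring)
  rw [hlin] at h5
  have h6 : 0 < Aw p x w2 w2 * (Aw p x w1 w1 * Aw p x w2 w2 - Aw p x w1 w2 ^ 2) := by
    nlinarith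
  exact (mul_pos_iff_of_pos_left hA2).mp h6

end

end Pool.Agent.Lib.MP_dabcc9_gt
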