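import Pool.Agent.Lib.MP_dabcc9_gt.GeoC
import Pool.Agent.Lib.MP_dabcc9_gt.GeoD
import Pool.Agent.Lib.MP_dabcc9_gt.SphC

/-! JOB D5. Jacobian. -/

open MeasureTheory Metric Set MvPolynomial

namespace Pool.Agent.Lib.MP_dabcc9_gt

noncomputable section

theorem GeoE_fderiv_cr (q : P) (x w : E3) :
    fderiv ℝ (ev q) x (cr w x) = ∑ j, w j * ev (L j q) x := by
  have h : cr w x = ∑ j, w j • cr (eb j) x := by
    ext i
    fin_cases i <;> simp [cr, eb, Fin.sum_univ_three] <;> ring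
  rw [h, map_sum]
  refine Finset.sum_congr rfl fun j _ => ?_
  rw [map_smul, smul_eq_mul, ev_L_eq_fderiv]

/-- the coordinates of `Gp p` as polynomials -/
def GeoE_q (p : P) (i : Fin 3) : P :=
  p * X i + (L (i + 1) p * X (i + 2) - L (i + 2) p * X (i + 1))

theorem GeoE_Gp (p : P) (x : E3) (i : Fin 3) : Gp p x i = ev (GeoE_q p i) x := by
  fin_cases i
  · show Gp p x 0 = ev (p * X 0 + (L 1 p * X 2 - L 2 p * X 1)) x
    simp [Gp, cr, Lv, ev_add, ev_sub, ev_mul, ev_X]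
  · show Gp p x 1 = ev (p * X 1 + (L 2 p * X 0 - L 0 p * X 2)) x
    simp [Gp, cr, Lv, ev_add, ev_sub, ev_mul, ev_X]
  · show Gp p x 2 = ev (p * X 2 + (L 0 p * X 1 - L 1 p * X 0)) x
    simp [Gp, cr, Lv, ev_add, ev_sub, ev_mul, ev_X]

theorem GeoE_diff_ev (q : P) (x : E3) : DifferentiableAt ℝ (ev q) x :=
  ((contDiff_ev q).differentiable (by simp)) x

theorem GeoE_diff (p : P) (x : E3) : DifferentiableAt ℝ (Gp p) x := by
  rw [differentiableAt_euclidean]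
  intro i
  have h : (fun x => Gp p x i) = ev (GeoE_q p i) := funext fun x => GeoE_Gp p x i
  rw [h]
  exact GeoE_diff_ev _ _

theorem GeoE_fderiv_coord (p : P) (x v : E3) (i : Fin 3) :
    fderiv ℝ (Gp p) x v i = fderiv ℝ (ev (GeoE_q p i)) x v := by
  have h1 := (GeoE_diff p x).hasFDerivAt
  rw [← hasFDerivWithinAt_univ, hasFDerivWithinAt_euclidean] at h1
  have h2 := h1 i
  rw [hasFDerivWithinAt_univ] at h2
  have h : (fun x => Gp p x i) = ev (GeoE_q p i) := funext fun x => GeoE_Gp p x i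
  rw [h] at h2
  rw [h2.fderiv]
  rfl

theorem GeoE_coord (p : P) (x w : E3) (i : Fin 3) :
    fderiv ℝ (Gp p) x (cr w x) i = ∑ j, w j * ev (L j (GeoE_q p i)) x := by
  rw [GeoE_fderiv_coord, GeoE_fderiv_cr]

theorem GeoE_sum (q : P) (x : E3) :
    x 0 * ev (L 0 q) x + x 1 * ev (L 1 q) x + x 2 * ev (L 2 q) x = 0 := by
  have h := congrArg (fun a => ev a x) (sum_X_L q)
  simpa [Fin.sum_univ_three, ev_add, ev_mul, ev_X, ev_zero] using h

theorem GeoE_LX00 : L 0 (X 0) = 0 := L_X_self 0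
theorem GeoE_LX11 : L 1 (X 1) = 0 := L_X_self 1
theorem GeoE_LX22 : L 2 (X 2) = 0 := L_X_self 2
theorem GeoE_LX01 : L 0 (X 1) = - X 2 := L_X_one 0
theorem GeoE_LX12 : L 1 (X 2) = - X 0 := L_X_one 1
theorem GeoE_LX20 : L 2 (X 0) = - X 1 := L_X_one 2
theorem GeoE_LX02 : L 0 (X 2) = X 1 := L_X_two 0
theorem GeoE_LX10 : L 1 (X 0) = X 2 := L_X_two 1
theorem GeoE_LX21 : L 2 (X 1) = X 0 := L_X_two 2

theorem GeoE_c0 (p : P) (x w : E3) :
    fderiv ℝ (Gp p) x (cr w x) 0 =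
      (w 0 * ev (L 0 p) x + w 1 * ev (L 1 p) x + w 2 * ev (L 2 p) x) * x 0
      + ev p x * (w 1 * x 2 - w 2 * x 1)
      + ((w 0 * ev (L 0 (L 1 p)) x + w 1 * ev (L 1 (L 1 p)) x + w 2 * ev (L 2 (L 1 p)) x) * x 2
        - (w 0 * ev (L 0 (L 2 p)) x + w 1 * ev (L 1 (L 2 p)) x + w 2 * ev (L 2 (L 2 p)) x) * x 1)
      + (ev (L 1 p) x * (w 0 * x 1 - w 1 * x 0) - ev (L 2 p) x * (w 2 * x 0 - w 0 * x 2)) := by
  rw [GeoE_coord]
  have h : GeoE_q p 0 = p * X 0 + (L 1 p * X 2 - L 2 p * X 1) := rfl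
  simp only [h, Fin.sum_univ_three, map_add, map_sub, L_mul, GeoE_LX00, GeoE_LX11, GeoE_LX22,
    GeoE_LX01, GeoE_LX12, GeoE_LX20, GeoE_LX02, GeoE_LX10, GeoE_LX21, ev_add, ev_sub, ev_mul, ev_X,
    ev_neg, ev_zero]
  ring

theorem GeoE_c1 (p : P) (x w : E3) :
    fderiv ℝ (Gp p) x (cr w x) 1 =
      (w 0 * ev (L 0 p) x + w 1 * ev (L 1 p) x + w 2 * ev (L 2 p) x) * x 1
      + ev p x * (w 2 * x 0 - w 0 * x 2)
      + ((w 0 * ev (L 0 (L 2 p)) x + w 1 * ev (L 1 (L 2 p)) x + w 2 * ev (L 2 (L 2 p)) x) * x 0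
        - (w 0 * ev (L 0 (L 0 p)) x + w 1 * ev (L 1 (L 0 p)) x + w 2 * ev (L 2 (L 0 p)) x) * x 2)
      + (ev (L 2 p) x * (w 1 * x 2 - w 2 * x 1) - ev (L 0 p) x * (w 0 * x 1 - w 1 * x 0)) := by
  rw [GeoE_coord]
  have h : GeoE_q p 1 = p * X 1 + (L 2 p * X 0 - L 0 p * X 2) := rfl
  simp only [h, Fin.sum_univ_three, map_add, map_sub, L_mul, GeoE_LX00, GeoE_LX11, GeoE_LX22,
    GeoE_LX01, GeoE_LX12, GeoE_LX20, GeoE_LX02, GeoE_LX10, GeoE_LX21, ev_add, ev_sub, ev_mul, ev_X,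
    ev_neg, ev_zero]
  ring

theorem GeoE_c2 (p : P) (x w : E3) :
    fderiv ℝ (Gp p) x (cr w x) 2 =
      (w 0 * ev (L 0 p) x + w 1 * ev (L 1 p) x + w 2 * ev (L 2 p) x) * x 2
      + ev p x * (w 0 * x 1 - w 1 * x 0)
      + ((w 0 * ev (L 0 (L 0 p)) x + w 1 * ev (L 1 (L 0 p)) x + w 2 * ev (L 2 (L 0 p)) x) * x 1
        - (w 0 * ev (L 0 (L 1 p)) x + w 1 * ev (L 1 (L 1 p)) x + w 2 * ev (L 2 (L 1 p)) x) * x 0)
      + (ev (L 0 p) x * (w 2 * x 0 - w 0 * x 2) - ev (L 1 p) x * (w 1 * x 2 - w 2 * x 1)) := by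
  rw [GeoE_coord]
  have h : GeoE_q p 2 = p * X 2 + (L 0 p * X 1 - L 1 p * X 0) := rfl
  simp only [h, Fin.sum_univ_three, map_add, map_sub, L_mul, GeoE_LX00, GeoE_LX11, GeoE_LX22,
    GeoE_LX01, GeoE_LX12, GeoE_LX20, GeoE_LX02, GeoE_LX10, GeoE_LX21, ev_add, ev_sub, ev_mul, ev_X,
    ev_neg, ev_zero]
  ring

/-- the tangential components -/
theorem GeoE_tan (p : P) (x w u : E3) (hx : ‖x‖ = 1) (hu : inner ℝ u x = 0) :
    inner ℝ (cr u x) (fderiv ℝ (Gp p) x (cr w x)) = Aw p x w u := by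
  have hx2 : x 0 ^ 2 + x 1 ^ 2 + x 2 ^ 2 = 1 := by rw [← norm_sq_eq3, hx]; norm_num
  rw [inner_eq3] at hu
  have hs := GeoE_sum p x
  rw [inner_eq3, GeoE_c0, GeoE_c1, GeoE_c2, Aw, inner_eq3]
  have e0 : cr u x 0 = u 1 * x 2 - u 2 * x 1 := by simp [cr]
  have e1 : cr u x 1 = u 2 * x 0 - u 0 * x 2 := by simp [cr]
  have e2 : cr u x 2 = u 0 * x 1 - u 1 * x 0 := by simp [cr]
  rw [e0, e1, e2]
  simp only [Fin.sum_univ_three]
  generalize x 0 = x0 at *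
  generalize x 1 = x1 at *
  generalize x 2 = x2 at *
  generalize w 0 = w0 at *
  generalize w 1 = w1 at *
  generalize w 2 = w2 at *
  generalize u 0 = u0 at *
  generalize u 1 = u1 at *
  generalize u 2 = u2 at *
  generalize ev p x = Q at *
  generalize ev (L 0 p) x = Q0 at *
  generalize ev (L 1 p) x = Q1 at *
  generalize ev (L 2 p) x = Q2 at *
  generalize ev (L 0 (L 0 p)) x = Q00 at *
  generalize ev (L 0 (L 1 p)) x = Q01 at *
  generalize ev (L 0 (L 2 p)) x = Q02 at *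
  generalize ev (L 1 (L 0 p)) x = Q10 at *
  generalize ev (L 1 (L 1 p)) x = Q11 at *
  generalize ev (L 1 (L 2 p)) x = Q12 at *
  generalize ev (L 2 (L 0 p)) x = Q20 at *
  generalize ev (L 2 (L 1 p)) x = Q21 at *
  generalize ev (L 2 (L 2 p)) x = Q22 at *
  linear_combination (Q * (w0 * u0 + w1 * u1 + w2 * u2)
      + ((w0 * Q00 + w1 * Q10 + w2 * Q20) * u0 + (w0 * Q01 + w1 * Q11 + w2 * Q21) * u1
        + (w0 * Q02 + w1 * Q12 + w2 * Q22) * u2)) * hx2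
    - (Q * (w0 * x0 + w1 * x1 + w2 * x2)
      + ((w0 * Q00 + w1 * Q10 + w2 * Q20) * x0 + (w0 * Q01 + w1 * Q11 + w2 * Q21) * x1
        + (w0 * Q02 + w1 * Q12 + w2 * Q22) * x2)) * hu
    - ((w1 * x2 - w2 * x1) * u0 + (w2 * x0 - w0 * x2) * u1 + (w0 * x1 - w1 * x0) * u2) * hs

/-- the normal component -/
theorem GeoE_nor (p : P) (x w : E3) (hx : ‖x‖ = 1) (hw : inner ℝ w x = 0) :
    inner ℝ x (fderiv ℝ (Gp p) x (cr w x)) = 0 := by
  have hx2 : x 0 ^ 2 + x 1 ^ 2 + x 2 ^ 2 = 1 := by rw [← norm_sq_eq3, hx]; norm_num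
  rw [inner_eq3] at hw
  have hs := GeoE_sum p x
  rw [inner_eq3, GeoE_c0, GeoE_c1, GeoE_c2]
  linear_combination (ev (L 0 p) x * x 0 + ev (L 1 p) x * x 1 + ev (L 2 p) x * x 2) * hw

theorem GeoE_norm_deriv (x : E3) (hx : x ≠ 0) :
    HasFDerivAt (fun y : E3 => ‖y‖) ((‖x‖)⁻¹ • (innerSL ℝ x : E3 →L[ℝ] ℝ)) x := by
  have h1 := (hasStrictFDerivAt_norm_sq x).hasFDerivAt
  have hn : ‖x‖ ≠ 0 := norm_ne_zero_iff.mpr hx
  have h2 := h1.sqrt (pow_ne_zero 2 hn)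
  have h3 : (fun y : E3 => Real.sqrt (‖y‖ ^ 2)) = fun y => ‖y‖ := by
    funext y
    exact Real.sqrt_sq (norm_nonneg y)
  rw [h3] at h2
  convert! h2 using 1
  rw [Real.sqrt_sq (norm_nonneg x)]
  ext v
  simp
  field_simp

theorem GeoE_Fp (p : P) (x : E3) (hx : x ≠ 0) :
    ∃ F' : E3 →L[ℝ] E3, HasFDerivAt (Fp p) F' x ∧ ∀ v,
      F' v = ‖x‖ • fderiv ℝ (Gp p) ((‖x‖)⁻¹ • x)
          ((‖x‖)⁻¹ • v + (-((‖x‖ ^ 2)⁻¹ * ((‖x‖)⁻¹ * inner ℝ x v))) • x)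
        + ((‖x‖)⁻¹ * inner ℝ x v) • Gp p ((‖x‖)⁻¹ • x) := by
  have hn : ‖x‖ ≠ 0 := norm_ne_zero_iff.mpr hx
  have h1 := GeoE_norm_deriv x hx
  have h2 : HasFDerivAt (fun y : E3 => (‖y‖)⁻¹) _ x := (hasDerivAt_inv hn).comp_hasFDerivAt x h1
  have h3 : HasFDerivAt (fun y : E3 => (‖y‖)⁻¹ • y) _ x := h2.smul (hasFDerivAt_id x)
  have h4 : HasFDerivAt (fun y : E3 => Gp p ((‖y‖)⁻¹ • y)) _ x :=
    HasFDerivAt.comp (g := Gp p) (f := fun y : E3 => (‖y‖)⁻¹ • y) x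
      (GeoE_diff p ((‖x‖)⁻¹ • x)).hasFDerivAt h3
  have h5 := h1.smul h4
  refine ⟨_, h5, ?_⟩
  intro v
  simp

/-- JOB D4.  Jacobian.  PROOF.  At `x = r ν`: `DF(x) v = <v,ν> G(ν) + DG(ν)(v - <v,ν> ν)` (chain rule,
`r` cancels).  In an orthonormal frame `(ν, e1, e2)`, `e_a = w_a × ν`:
`DF ν = G(ν) = p ν + tangential`, `DF e_a` = derivative of `G` along the circle, whose component along
`ν` is `0` and whose components `A_ab` along `e_b` are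
`∑_ij (w_a)_i (w_b)_j (L i L j p)(ν) + p δ_ab` (`Hess p + p g`): the determinant is
`p (A_11 A_22 - A_12 A_21)`; and `detA p = 1/2 ((tr A)^2 - |A|^2)` evaluated at `ν`
(see `ev_detA_frame`). -/
theorem Fp_deriv (p : P) (x : E3) (hx : x ≠ 0) :
    ∃ F' : E3 →L[ℝ] E3, HasFDerivAt (Fp p) F' x ∧
      F'.det = ev (p * detA p) ((‖x‖)⁻¹ • x) := by
  obtain ⟨F', hF, hv⟩ := GeoE_Fp p x hx
  refine ⟨F', hF, ?_⟩
  have hn : ‖x‖ ≠ 0 := norm_ne_zero_iff.mpr hx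
  have hn0 : 0 < ‖x‖ := norm_pos_iff.mpr hx
  have hν : ‖(‖x‖)⁻¹ • x‖ = 1 := by
    rw [norm_smul, norm_inv, norm_norm, inv_mul_cancel₀ hn]
  have hxν : x = ‖x‖ • ((‖x‖)⁻¹ • x) := by
    rw [smul_smul, mul_inv_cancel₀ hn, one_smul]
  generalize hνν : (‖x‖)⁻¹ • x = ν at *
  obtain ⟨w1, w2, h1, h2, h12, h10, h20⟩ := exists_frame ν hν
  have hν2 : inner ℝ ν ν = (1 : ℝ) := by rw [real_inner_self_eq_norm_sq, hν]; norm_num
  have hcr : ∀ u v : E3, inner ℝ u ν = 0 → inner ℝ v ν = 0 → inner ℝ (cr u ν) (cr v ν) = (inner ℝ u v : ℝ) := by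
    intro u v hu hv
    rw [inner_eq3] at hu hv hν2 ⊢
    rw [inner_eq3]
    simp only [cr, PiLp.toLp_apply, Matrix.cons_val_zero, Matrix.cons_val_one, Matrix.cons_val]
    linear_combination (u 0 * v 0 + u 1 * v 1 + u 2 * v 2) * hν2 - (u 0 * ν 0 + u 1 * ν 1 + u 2 * ν 2) * hv
  have hcν : ∀ u : E3, inner ℝ ν (cr u ν) = (0 : ℝ) := by
    intro u
    rw [inner_eq3]
    simp only [cr, PiLp.toLp_apply, Matrix.cons_val_zero, Matrix.cons_val_one, Matrix.cons_val]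
    ring
  have hself : ∀ u : E3, ‖u‖ = 1 → inner ℝ u ν = 0 → ‖cr u ν‖ = 1 := by
    intro u hu hu0
    have h3 := hcr u u hu0 hu0
    rw [real_inner_self_eq_norm_sq, real_inner_self_eq_norm_sq, hu] at h3
    nlinarith [norm_nonneg (cr u ν)]
  have hon : Orthonormal ℝ ![ν, cr w1 ν, cr w2 ν] := by
    constructor
    · intro i
      fin_cases i
      · exact hν
      · exact hself w1 h1 h10
      · exact hself w2 h2 h20
    · intro i j hij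
      fin_cases i <;> fin_cases j
      · exact absurd rfl hij
      · exact hcν w1
      · exact hcν w2
      · show inner ℝ (cr w1 ν) ν = (0 : ℝ)
        rw [real_inner_comm]
        exact hcν w1
      · exact absurd rfl hij
      · show inner ℝ (cr w1 ν) (cr w2 ν) = (0 : ℝ)
        rw [hcr w1 w2 h10 h20, h12]
      · show inner ℝ (cr w2 ν) ν = (0 : ℝ)
        rw [real_inner_comm]
        exact hcν w2
      · show inner ℝ (cr w2 ν) (cr w1 ν) = (0 : ℝ)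
        rw [hcr w2 w1 h20 h10, real_inner_comm, h12]
      · exact absurd rfl hij
  have hspan : ⊤ ≤ Submodule.span ℝ (Set.range ![ν, cr w1 ν, cr w2 ν]) :=
    (hon.linearIndependent.span_eq_top_of_card_eq_finrank (by simp)).ge
  have hF0 : F' ν = Gp p ν := by
    rw [hv]
    have h3 : (inner ℝ x ν : ℝ) = ‖x‖ := by
      conv_lhs => rw [hxν]
      rw [real_inner_smul_left, hν2, mul_one]
    have h4 : (‖x‖)⁻¹ • ν + (-((‖x‖ ^ 2)⁻¹ * ((‖x‖)⁻¹ * inner ℝ x ν))) • x = 0 := by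
      rw [h3]
      conv_lhs => rw [hxν]
      rw [smul_smul, ← add_smul, norm_smul, norm_norm, hν, mul_one]
      have h5 : (‖x‖)⁻¹ + -((‖x‖ ^ 2)⁻¹ * ((‖x‖)⁻¹ * ‖x‖)) * ‖x‖ = 0 := by
        field_simp
        ring
      rw [h5, zero_smul]
    rw [h4, map_zero, smul_zero, zero_add, h3, inv_mul_cancel₀ hn, one_smul]
  have hFw : ∀ w : E3, F' (cr w ν) = fderiv ℝ (Gp p) ν (cr w ν) := by
    intro w
    rw [hv]
    have h3 : (inner ℝ x (cr w ν) : ℝ) = 0 := by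
      conv_lhs => rw [hxν]
      rw [real_inner_smul_left, hcν, mul_zero]
    rw [h3, mul_zero, mul_zero, neg_zero, zero_smul, zero_smul, add_zero, add_zero, map_smul, smul_smul,
      mul_inv_cancel₀ hn, one_smul]
  obtain ⟨hA, hAs⟩ := ev_detA_frame p ν w1 w2 hν h1 h2 h12 h10 h20
  have hG : (inner ℝ ν (Gp p ν) : ℝ) = ev p ν := by
    rw [real_inner_comm]
    exact inner_Gp_self p ν hν
  have hdet : F'.det = LinearMap.det (F' : E3 →ₗ[ℝ] E3) := rfl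
  rw [hdet, ← LinearMap.det_toMatrix (OrthonormalBasis.mk hon hspan).toBasis, Matrix.det_fin_three]
  have hent : ∀ i j, LinearMap.toMatrix (OrthonormalBasis.mk hon hspan).toBasis
      (OrthonormalBasis.mk hon hspan).toBasis (F' : E3 →ₗ[ℝ] E3) i j =
      inner ℝ ((![ν, cr w1 ν, cr w2 ν] : Fin 3 → E3) i) (F' ((![ν, cr w1 ν, cr w2 ν] : Fin 3 → E3) j)) := by
    intro i j
    rw [LinearMap.toMatrix_apply, OrthonormalBasis.coe_toBasis, OrthonormalBasis.coe_toBasis_repr_apply,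
      OrthonormalBasis.repr_apply_apply, OrthonormalBasis.coe_mk]
    rfl
  simp only [hent, Matrix.cons_val_zero, Matrix.cons_val_one, Matrix.cons_val, hF0, hFw]
  rw [GeoE_tan p ν w1 w1 hν h10, GeoE_tan p ν w2 w2 hν h20, GeoE_tan p ν w1 w2 hν h20,
    GeoE_tan p ν w2 w1 hν h10, GeoE_nor p ν w1 hν h10, GeoE_nor p ν w2 hν h20, hG, ev_mul, hA, ← hAs]
  ring

end

end Pool.Agent.Lib.MP_dabcc9_gt
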