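import Pool.Agent.Lib.MP_dabcc9_gt.RotA

/-! JOB B2a. Radial integrals. -/

open MeasureTheory Metric Set

namespace Pool.Agent.Lib.MP_dabcc9_gt

noncomputable section

theorem SphA_vol_ball : (volume : Measure E3).real (ball 0 1) = 4 * Real.pi / 3 := by
  rw [Measure.real, EuclideanSpace.volume_ball_fin_three]
  simp only [ENNReal.toReal_mul, ENNReal.toReal_pow]
  rw [ENNReal.toReal_ofReal (by positivity), ENNReal.toReal_ofReal (by positivity)]
  ring

theorem SphA_mass : (volume : Measure E3).toSphere.real univ = 4 * Real.pi := by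
  rw [Measure.toSphere_real_apply_univ, SphA_vol_ball]
  simp
  ring

theorem SphA_av_eq (f : E3 → ℝ) :
    av f = (4 * Real.pi)⁻¹ * ∫ x : sphere (0 : E3) 1, f x ∂(volume : Measure E3).toSphere := by
  rw [av, average_eq, SphA_mass, smul_eq_mul]

/-- The unit ball integral of a radial extension (needed also for the volume formula):
for `f` continuous on the sphere, the integral of `f (x/|x|)` over the closed unit ball minus the
origin is `(4 pi/3) av f`.  PROOF: `Measure.measurePreserving_homeomorphUnitSphereProd` (polar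
coordinates: `volume` is `toSphere × r^2 dr`) or the definition of `toSphere`; total mass of
`toSphere` is `3 * volume (ball 0 1) = 4 pi`
(`EuclideanSpace.volume_ball_fin_three` or `EuclideanSpace.volume_ball`). -/
theorem radial_integral {f : E3 → ℝ} (hf : ContinuousOn f (sphere 0 1)) :
    ∫ x in closedBall (0 : E3) 1 \ {0}, f ((‖x‖)⁻¹ • x) = 4 * Real.pi / 3 * av f := by
  have h1 : (closedBall (0 : E3) 1 \ {0} : Set E3) =ᵐ[volume] (ball (0 : E3) 1 \ {0} : Set E3) := by
    refine ae_eq_set_sdiff ?_ (Filter.EventuallyEq.refl _ _)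
    refine (ae_eq_of_subset_of_measure_ge ball_subset_closedBall ?_
      measurableSet_ball.nullMeasurableSet (measure_closedBall_lt_top).ne).symm
    exact (Measure.addHaar_closedBall_eq_addHaar_ball volume (0 : E3) 1).le
  rw [setIntegral_congr_set h1]
  have h2 : (ball (0 : E3) 1 \ {0} : Set E3) = ({0}ᶜ : Set E3) ∩ ball 0 1 := by
    ext x; simp [and_comm]
  rw [h2, ← setIntegral_indicator measurableSet_ball]
  rw [← integral_subtype_comap (measurableSet_singleton (0 : E3)).compl]
  have hmp := (volume : Measure E3).measurePreserving_homeomorphUnitSphereProd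
  have h3 := hmp.integral_comp (Homeomorph.measurableEmbedding _)
    (fun p : sphere (0 : E3) 1 × Ioi (0 : ℝ) =>
      f p.1 * (Iio (⟨1, mem_Ioi.2 one_pos⟩ : Ioi (0 : ℝ))).indicator (fun _ => (1 : ℝ)) p.2)
  have h4 : ∀ x : ({0}ᶜ : Set E3),
      (ball (0 : E3) 1).indicator (fun x => f ((‖x‖)⁻¹ • x)) (x : E3) =
      f ((homeomorphUnitSphereProd E3 x).1) *
        (Iio (⟨1, mem_Ioi.2 one_pos⟩ : Ioi (0 : ℝ))).indicator (fun _ => (1 : ℝ))
          (homeomorphUnitSphereProd E3 x).2 := by
    intro x
    by_cases hx : (x : E3) ∈ ball (0 : E3) 1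
    · have hx' : ‖(x : E3)‖ < 1 := by simpa using hx
      have : (homeomorphUnitSphereProd E3 x).2 ∈ Iio (⟨1, mem_Ioi.2 one_pos⟩ : Ioi (0 : ℝ)) := by
        rw [mem_Iio, ← Subtype.coe_lt_coe]
        simpa using hx'
      rw [indicator_of_mem hx, indicator_of_mem this, mul_one]
      simp
    · have hx' : ¬ ‖(x : E3)‖ < 1 := by simpa using hx
      have : (homeomorphUnitSphereProd E3 x).2 ∉ Iio (⟨1, mem_Ioi.2 one_pos⟩ : Ioi (0 : ℝ)) := by
        rw [mem_Iio, ← Subtype.coe_lt_coe]
        simpa using hx'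
      rw [indicator_of_notMem hx, indicator_of_notMem this, mul_zero]
  simp_rw [h4]
  rw [h3, integral_prod_mul (fun x : sphere (0 : E3) 1 => f x), SphA_av_eq]
  rw [integral_indicator measurableSet_Iio, setIntegral_const, Measure.real,
    Measure.volumeIoiPow_apply_Iio]
  have h5 : Module.finrank ℝ E3 - 1 = 2 := by simp
  rw [h5]
  simp only [one_pow, smul_eq_mul, mul_one]
  rw [ENNReal.toReal_ofReal (by positivity)]
  have hpi := Real.pi_pos.ne'
  push_cast
  field_simp
  norm_num

end

end Pool.Agent.Lib.MP_dabcc9_gt
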