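import Pool.Agent.Lib.MP_dabcc9_gt.GeoE
import Pool.Agent.Lib.MP_dabcc9_gt.SphA
import Pool.Agent.Lib.MP_dabcc9_gt.Ibp

/-! JOB D6. Volume and Steiner formula. -/

open MeasureTheory Metric Set MvPolynomial

namespace Pool.Agent.Lib.MP_dabcc9_gt

noncomputable section

/-- JOB D5.  Volume.  PROOF: `lintegral_abs_det_fderiv_eq_addHaar_image` /
`integral_image_eq_integral_abs_det_fderiv_smul` on `closedBall 0 1 \ {0}`, `Fp_injOn`, `Fp_image`,
`Fp_deriv`, `detA_pos`, then `radial_integral`. -/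
theorem vol_body {p : P} (hp : ConvSS p) (hpos : ∀ x : E3, ‖x‖ = 1 → 0 < ev p x) :
    vol (body p) = 4 * Real.pi / 3 * EE (p * detA p) := by
  classical
  have hex : ∀ x : E3, ∃ F' : E3 →L[ℝ] E3, x ≠ 0 → HasFDerivAt (Fp p) F' x ∧
      F'.det = ev (p * detA p) ((‖x‖)⁻¹ • x) := by
    intro x
    by_cases hx : x = 0
    · exact ⟨0, fun h => absurd hx h⟩
    · obtain ⟨F', h1, h2⟩ := Fp_deriv p x hx
      exact ⟨F', fun _ => ⟨h1, h2⟩⟩
  choose F' hF' using hex
  have hms : MeasurableSet (closedBall (0 : E3) 1 \ {0}) :=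
    measurableSet_closedBall.diff (measurableSet_singleton 0)
  have h1 := integral_image_eq_integral_abs_det_fderiv_smul (volume : Measure E3) hms
    (fun x hx => (hF' x (fun h => hx.2 h)).1.hasFDerivWithinAt) (Fp_injOn hp hpos) (fun _ => (1 : ℝ))
  rw [Fp_image hp hpos] at h1
  have h2 : ∫ x in closedBall (0 : E3) 1 \ {0}, |(F' x).det| • (1 : ℝ) =
      ∫ x in closedBall (0 : E3) 1 \ {0}, ev (p * detA p) ((‖x‖)⁻¹ • x) := by
    apply setIntegral_congr_fun hms
    intro x hx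
    have hx0 : x ≠ 0 := fun h => hx.2 h
    have hn : ‖(‖x‖)⁻¹ • x‖ = 1 := by
      rw [norm_smul, norm_inv, norm_norm, inv_mul_cancel₀ (norm_ne_zero_iff.mpr hx0)]
    have h3 : 0 < ev (p * detA p) ((‖x‖)⁻¹ • x) := by
      rw [ev_mul]
      exact mul_pos (hpos _ hn) (detA_pos hp _ hn)
    show |(F' x).det| • (1 : ℝ) = _
    rw [(hF' x hx0).2, smul_eq_mul, mul_one, abs_of_pos h3]
  rw [h2, radial_integral (continuous_ev _).continuousOn] at h1
  rw [EE, ← h1, vol]
  have h4 : volume (body p \ {0}) = volume (body p) := measure_sdiff_null (measure_singleton 0)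
  rw [setIntegral_const, smul_eq_mul, mul_one, Measure.real, h4]

/-- Steiner formula, from `thick_body`, `vol_body`, `EE_steiner`. -/
theorem steiner_body {p : P} (hp : ConvSS p) (hpos : ∀ x : E3, ‖x‖ = 1 → 0 < ev p x) (t : ℝ)
    (ht : 0 ≤ t) : vol (cthickening t (body p)) = 4 * Real.pi / 3 *
      (EE (p * detA p) + 3 * t * EE (detA p) + 3 * t ^ 2 * EE p + t ^ 3) := by
  have hpos' : ∀ x : E3, ‖x‖ = 1 → 0 < ev (p + C t) x := by
    intro x hx
    rw [ev_add, ev_C]
    linarith [hpos x hx]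
  rw [thick_body hp t ht, vol_body (convSS_add_C hp t ht) hpos', EE_steiner]

end

end Pool.Agent.Lib.MP_dabcc9_gt
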