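import Pool.Agent.Lib.MP_dabcc9_gt.Ibp

/-! JOB A5.  The identity for `y - 6x + 5`. -/

open MvPolynomial
namespace Pool.Agent.Lib.MP_dabcc9_gt
noncomputable section

/-- The functional `J(u, w)`. -/
def Jf (u w : P) : ℝ := EE (u * u) + 1 / 3 * EE (u * u * u) - 1 / 2 * EE ((1 + u) * Gam w w)
  - 1 / 4 * EE (Lap u * Gam w w)

theorem IdentJ_Gam_one_left (b : P) : Gam 1 b = 0 := by
  have := Gam_C_left 1 b
  simpa using this

theorem IdentJ_Lap_one : Lap (1 : P) = 0 := by
  have := Lap_C 1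
  simpa using this

theorem ident_J (u w : P) (hw : EqS (Lap w) (-(2 * u))) (hu : EE u = 0) :
    EE ((1 + u) * detA (1 + u)) - 6 * EE (detA (1 + u)) + 5 =
      3 * (1 / 2 * EE (HQ (1 + u) (u - w) + (1 + u) * Gam (u - w) (u - w)) + Jf u w) := by
  have hG1 : ∀ b : P, Gam (1 + u) b = Gam u b := by
    intro b; rw [Gam_add_left, IdentJ_Gam_one_left, zero_add]
  have hG : Gam (1 + u) (1 + u) = Gam u u := by
    rw [hG1, Gam_comm, hG1]
  have hL : Lap (1 + u) = Lap u := by rw [Lap_add, IdentJ_Lap_one, zero_add]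
  have h1 : EE (detA (1 + u)) = 1 + EE (u * u) - 1 / 2 * EE (Gam u u) := by
    rw [EE_detA, hG]
    have : (1 + u) * (1 + u) = 1 + 2 * u + u * u := by ring
    rw [this, EE_add, EE_add, EE_two_mul, EE_one, hu]; ring
  have h2 : EE ((1 + u) * detA (1 + u)) = 1 + 3 * EE (u * u) + EE (u * u * u)
      - 3 / 2 * (EE (Gam u u) + EE (u * Gam u u)) - 3 / 4 * EE (Lap u * Gam u u) := by
    rw [EE_p_detA, hG, hL]
    have e1 : (1 + u) * (1 + u) * (1 + u) = 1 + C 3 * u + C 3 * (u * u) + u * u * u := by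
      have : (C 3 : P) = 3 := map_ofNat C 3
      rw [this]; ring
    have e2 : (1 + u) * Gam u u = Gam u u + u * Gam u u := by ring
    rw [e1, e2, EE_add, EE_add, EE_add, EE_C_mul, EE_C_mul, EE_one, hu, EE_add]; ring
  set G := Gam u u with hGdef
  set F := Gam u w with hFdef
  set W := Gam w w with hWdef
  have hud : Gam u (u - w) = G - F := by rw [Gam_sub_right]
  have hdd : Gam (u - w) (u - w) = G - 2 * F + W := by
    rw [Gam_sub_left, Gam_sub_right, Gam_sub_right, Gam_comm w u]; ring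
  have hLd : EqS (Lap (u - w)) (Lap u + 2 * u) := by
    intro x hx
    rw [Lap_sub, ev_sub, hw x hx, ev_add, ev_neg]; ring
  have h3 : EE (HQ (1 + u) (u - w)) = - EE ((G - F) * (Lap u + 2 * u))
      + 1 / 2 * EE ((G - 2 * F + W) * Lap u) := by
    rw [HQ_eq, hG1, hG1, hud, hdd, EE_sub, EE_C_mul]
    have e1 : EE (Gam (u - w) (G - F)) = - EE ((G - F) * Lap (u - w)) := by
      rw [EE_ibp, Gam_comm]; ring
    have e2 : EE (Gam u (G - 2 * F + W)) = - EE ((G - 2 * F + W) * Lap u) := by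
      rw [EE_ibp, Gam_comm]; ring
    have e3 : EE ((G - F) * Lap (u - w)) = EE ((G - F) * (Lap u + 2 * u)) :=
      EE_congr ((EqS.refl _).mul hLd)
    rw [e1, e2, e3]; ring
  have h4 : EE F = 2 * EE (u * u) := by
    have e1 := EE_ibp u w
    have e2 : EE (u * Lap w) = EE (u * (-(2 * u))) := EE_congr ((EqS.refl _).mul hw)
    have e3 : u * (-(2 * u)) = - (2 * (u * u)) := by ring
    rw [e2, e3, EE_neg, EE_two_mul] at e1
    linarith
  have h5 : EE ((G - F) * (Lap u + 2 * u)) = EE (Lap u * G) - EE (Lap u * F)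
      + 2 * EE (u * G) - 2 * EE (u * F) := by
    have : (G - F) * (Lap u + 2 * u) = Lap u * G - Lap u * F + 2 * (u * G) - 2 * (u * F) := by ring
    rw [this, EE_sub, EE_add, EE_sub, EE_two_mul, EE_two_mul]
  have h6 : EE ((G - 2 * F + W) * Lap u) = EE (Lap u * G) - 2 * EE (Lap u * F)
      + EE (Lap u * W) := by
    have : (G - 2 * F + W) * Lap u = Lap u * G - 2 * (Lap u * F) + Lap u * W := by ring
    rw [this, EE_add, EE_sub, EE_two_mul]
  have h7 : EE ((1 + u) * (G - 2 * F + W)) = EE G + EE (u * G) - 2 * EE F - 2 * EE (u * F)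
      + EE W + EE (u * W) := by
    have : (1 + u) * (G - 2 * F + W) = G + u * G - 2 * F - 2 * (u * F) + W + u * W := by ring
    rw [this, EE_add, EE_add, EE_sub, EE_sub, EE_add, EE_two_mul, EE_two_mul]
  have h8 : EE ((1 + u) * W) = EE W + EE (u * W) := by
    have : (1 + u) * W = W + u * W := by ring
    rw [this, EE_add]
  rw [h2, h1, EE_add, h3, hdd, h5, h6, h7, h4]
  unfold Jf
  rw [← hWdef, h8]
  ring

end
end Pool.Agent.Lib.MP_dabcc9_gt
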