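import Pool.Agent.Lib.MP_dabcc9_gt.IdentJ

/-! JOB A6.  Splitting `J` with `u = q + v`, `w = q / 3 + z`. -/

open MvPolynomial

set_option linter.unusedSimpArgs false

namespace Pool.Agent.Lib.MP_dabcc9_gt

theorem IdentJ2_n2 (x : E3) : ev 2 x = 2 := by simp [ev]

theorem IdentJ2_n4 (x : E3) : ev 4 x = 4 := by simp [ev]

theorem IdentJ2_n6 (x : E3) : ev 6 x = 6 := by simp [ev]

theorem IdentJ2_n8 (x : E3) : ev 8 x = 8 := by simp [ev]

theorem IdentJ2_n12 (x : E3) : ev 12 x = 12 := by simp [ev]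

theorem IdentJ2_n20 (x : E3) : ev 20 x = 20 := by simp [ev]

theorem IdentJ2_n32 (x : E3) : ev 32 x = 32 := by simp [ev]

theorem IdentJ2_n80 (x : E3) : ev 80 x = 80 := by simp [ev]

theorem IdentJ2_SS (a b : P) : SS a b = NN a b + Gam a b + C (1 / 2) * (Lap a * Lap b) := by
  unfold NN; ring

/-- `E[Gam z z + 1/2 NN z z] = E[v v] + 1/2 E[Gam z z]` when `Lap z = - 2 v` on the sphere. PROOF:
`NN z z = SS z z - Gam z z - 1/2 (Lap z)^2`, `EE_SS`, `E[(Lap z)^2] = 4 E[v v]`. -/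
theorem EE_q (v z : P) (hz : EqS (Lap z) (-(2 * v))) :
    EE (Gam z z + C (1 / 2) * NN z z) = EE (v * v) + 1 / 2 * EE (Gam z z) := by
  have h1 : EE (Lap z * Lap z) = 4 * EE (v * v) := by
    have : EE (Lap z * Lap z) = EE (-(2 * v) * -(2 * v)) := EE_congr (hz.mul hz)
    have h2 : -(2 * v) * -(2 * v) = C 4 * (v * v) := by
      have : (C 4 : P) = 4 := map_ofNat C 4
      rw [this]; ring
    rw [this, h2, EE_C_mul]
  have h2 := EE_SS z
  have h3 : EE (NN z z) = EE (SS z z) - EE (Gam z z) - 1 / 2 * EE (Lap z * Lap z) := by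
    unfold NN
    rw [EE_sub, EE_sub, EE_C_mul]
  rw [EE_add, EE_C_mul, h3, h2, h1]; ring

theorem ident_J2 (q v z r : P) (hq : Lap q = -(6 * q)) (hz : EqS (Lap z) (-(2 * v)))
    (hqv : EE (q * v) = 0) (hr : EqS (Lap (q * q) + 20 * (q * q)) (8 * r))
    (hvr : EE (v * r) = 0) (hvr2 : EE (v * Lap r) = 0) :
    Jf (q + v) (C (1 / 3) * q + z) =
      2 / 3 * (EE (q * q) + EE (q * q * q)) - 1 / 3 * EE (q * q * v)
      + (EE (v * v) - 1 / 2 * EE (Gam z z))
      + EE (C (3 / 2) * (q * Gam z z) + C (1 / 6) * HQ q z)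
      - 1 / 3 * EE (v * NN q z)
      + (1 / 3 * EE (v * v * v) - EE (v * (Gam z z + C (1 / 2) * NN z z))) := by
  have c3 : (C 3 : P) = 3 := map_ofNat C 3
  have c4 : (C 4 : P) = 4 := map_ofNat C 4
  have c6 : (C 6 : P) = 6 := map_ofNat C 6
  have c12 : (C 12 : P) = 12 := map_ofNat C 12
  have c32 : (C 32 : P) = 32 := map_ofNat C 32
  have c80 : (C 80 : P) = 80 := map_ofNat C 80
  have hGww : Gam (C (1 / 3) * q + z) (C (1 / 3) * q + z)
      = C (1 / 9) * Gam q q + C (2 / 3) * Gam q z + Gam z z := by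
    rw [Gam_add_left, Gam_add_right, Gam_add_right, Gam_C_mul_left, Gam_C_mul_left,
      Gam_C_mul_right, Gam_C_mul_right, Gam_comm z q]
    have e1 : (C (1 / 9) : P) = C (1 / 3) * C (1 / 3) := by rw [← C_mul]; norm_num
    have e2 : (C (2 / 3) : P) = C (1 / 3) + C (1 / 3) := by rw [← C_add]; norm_num
    rw [e1, e2]; ring
  set Q2 := Gam q q with hQ2
  set B := Gam q z with hB
  set Z := Gam z z with hZ
  -- relations
  have g1 : EE Q2 = 6 * EE (q * q) := by
    have h := EE_ibp q q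
    rw [hq] at h
    have e : q * -(6 * q) = -(C 6 * (q * q)) := by rw [c6]; ring
    rw [e, EE_neg, EE_C_mul] at h
    linarith
  have g2 : EE B = 0 := by
    have h := EE_ibp q z
    have e1 : EE (q * Lap z) = EE (q * -(2 * v)) := EE_congr ((EqS.refl _).mul hz)
    have e : q * -(2 * v) = -(2 * (q * v)) := by ring
    rw [e1, e, EE_neg, EE_two_mul, hqv] at h
    linarith
  have a1 : EE (q * Q2) = 3 * EE (q * q * q) := by
    have h := EE_ibp3 q q q
    rw [hq] at h
    have e : q * q * -(6 * q) = -(C 6 * (q * q * q)) := by rw [c6]; ring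
    rw [e, EE_neg, EE_C_mul] at h
    linarith
  have a2 : EE (q * B) = EE (q * q * v) := by
    have h := EE_ibp3 q q z
    have e1 : EE (q * q * Lap z) = EE (q * q * -(2 * v)) := EE_congr ((EqS.refl _).mul hz)
    have e : q * q * -(2 * v) = -(2 * (q * q * v)) := by ring
    rw [e1, e, EE_neg, EE_two_mul] at h
    linarith
  have hLqq : Lap (q * q) = -(12 * (q * q)) + 2 * Q2 := by
    rw [Lap_mul, hq]; ring
  have hQ2S : EqS Q2 (4 * r - 4 * (q * q)) := by
    intro x hx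
    have h := hr x hx
    rw [hLqq] at h
    simp only [ev_add, ev_sub, ev_neg, ev_mul, IdentJ2_n2, IdentJ2_n4, IdentJ2_n6, IdentJ2_n8, IdentJ2_n12, IdentJ2_n20, IdentJ2_n32, IdentJ2_n80] at h ⊢
    linarith
  have b1 : EE (v * Q2) = -4 * EE (q * q * v) := by
    have e1 : EE (v * Q2) = EE (v * (4 * r - 4 * (q * q))) := EE_congr ((EqS.refl _).mul hQ2S)
    have e : v * (4 * r - 4 * (q * q)) = C 4 * (v * r) - C 4 * (q * q * v) := by rw [c4]; ring
    rw [e1, e, EE_sub, EE_C_mul, EE_C_mul, hvr]; ring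
  have l1 : EE (Lap v * Q2) = 80 * EE (q * q * v) := by
    have e0 : EE (Lap v * Q2) = EE (v * Lap Q2) := by
      rw [mul_comm, EE_Lap_symm]
    have e1 : EE (v * Lap Q2) = EE (v * (4 * Lap r - 32 * r + 80 * (q * q))) := by
      refine EE_congr ((EqS.refl _).mul ?_)
      refine hQ2S.Lap.trans ?_
      intro x hx
      have h := hr x hx
      have e : Lap (4 * r - 4 * (q * q)) = 4 * Lap r - 4 * Lap (q * q) := by
        rw [Lap_sub, ← c4, Lap_C_mul, Lap_C_mul]
      rw [e]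
      simp only [ev_add, ev_sub, ev_mul, IdentJ2_n2, IdentJ2_n4, IdentJ2_n6, IdentJ2_n8, IdentJ2_n12, IdentJ2_n20, IdentJ2_n32, IdentJ2_n80] at h ⊢
      linarith
    have e : v * (4 * Lap r - 32 * r + 80 * (q * q))
        = C 4 * (v * Lap r) - C 32 * (v * r) + C 80 * (q * q * v) := by
      rw [c4, c32, c80]; ring
    rw [e0, e1, e, EE_add, EE_sub, EE_C_mul, EE_C_mul, EE_C_mul, hvr, hvr2]; ring
  have hvU : EE (v * Gam q v) = 3 * EE (q * v * v) := by
    have h := EE_ibp3 v v q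
    rw [hq] at h
    have e : v * v * -(6 * q) = -(C 6 * (q * v * v)) := by rw [c6]; ring
    rw [e, EE_neg, EE_C_mul, Gam_comm v q] at h
    linarith
  have l2 : EE (Lap v * B) = 2 * EE (v * NN q z) - 4 * EE (v * B) + 6 * EE (q * v * v) := by
    have e0 : EE (Lap v * B) = EE (v * Lap B) := by
      rw [mul_comm, EE_Lap_symm]
    have e1 : EE (v * Lap B) =
        EE (v * (2 * NN q z - 4 * B + 12 * (q * v) - 2 * Gam q v)) := by
      refine EE_congr ((EqS.refl _).mul ?_)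
      intro x hx
      rw [hB, Lap_Gam, IdentJ2_SS, hq, ← hB]
      have e2 : ev (Gam q (Lap z)) x = ev (Gam q (-(2 * v))) x :=
        (EqS.Gam (EqS.refl q) hz) x hx
      have e3 : Gam q (-(2 * v)) = -(2 * Gam q v) := by
        have : -(2 * v) = C (-2) * v := by
          rw [C_neg, map_ofNat C 2]; ring
        rw [this, Gam_C_mul_right, C_neg, map_ofNat C 2]; ring
      have e4 : Gam z (-(6 * q)) = -(6 * B) := by
        have : -(6 * q) = C (-6) * q := by
          rw [C_neg, map_ofNat C 6]; ring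
        rw [this, Gam_C_mul_right, C_neg, map_ofNat C 6, Gam_comm z q, ← hB]; ring
      have e5 := hz x hx
      rw [e4]
      simp only [ev_add, ev_sub, ev_mul, ev_neg, IdentJ2_n2, IdentJ2_n4, IdentJ2_n6, IdentJ2_n8, IdentJ2_n12, IdentJ2_n20, IdentJ2_n32, IdentJ2_n80, ev_C] at e5 ⊢
      rw [e2, e3, e5]
      simp only [ev_neg, ev_mul, IdentJ2_n2, IdentJ2_n4, IdentJ2_n6, IdentJ2_n8, IdentJ2_n12, IdentJ2_n20, IdentJ2_n32, IdentJ2_n80]
      ring
    have e : v * (2 * NN q z - 4 * B + 12 * (q * v) - 2 * Gam q v)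
        = 2 * (v * NN q z) - C 4 * (v * B) + C 12 * (q * v * v) - 2 * (v * Gam q v) := by
      rw [c4, c12]; ring
    rw [e0, e1, e, EE_sub, EE_add, EE_sub, EE_two_mul, EE_two_mul, EE_C_mul, EE_C_mul, hvU]; ring
  have hvT : EE (v * Gam z v) = EE (v * v * v) := by
    have h := EE_ibp3 v v z
    have e1 : EE (v * v * Lap z) = EE (v * v * -(2 * v)) := EE_congr ((EqS.refl _).mul hz)
    have e : v * v * -(2 * v) = -(2 * (v * v * v)) := by ring
    rw [e1, e, EE_neg, EE_two_mul, Gam_comm v z] at h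
    linarith
  have l3 : EE (Lap v * Z) = 2 * EE (v * NN z z) + 2 * EE (v * Z) := by
    have e0 : EE (Lap v * Z) = EE (v * Lap Z) := by
      rw [mul_comm, EE_Lap_symm]
    have e1 : EE (v * Lap Z) =
        EE (v * (2 * NN z z + 2 * Z + 4 * (v * v) - 4 * Gam z v)) := by
      refine EE_congr ((EqS.refl _).mul ?_)
      intro x hx
      rw [hZ, Lap_Gam, IdentJ2_SS, ← hZ]
      have e2 : ev (Gam z (Lap z)) x = ev (Gam z (-(2 * v))) x :=
        (EqS.Gam (EqS.refl z) hz) x hx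
      have e3 : Gam z (-(2 * v)) = -(2 * Gam z v) := by
        have : -(2 * v) = C (-2) * v := by
          rw [C_neg, map_ofNat C 2]; ring
        rw [this, Gam_C_mul_right, C_neg, map_ofNat C 2]; ring
      have e5 := hz x hx
      simp only [ev_add, ev_sub, ev_mul, ev_neg, IdentJ2_n2, IdentJ2_n4, IdentJ2_n6, IdentJ2_n8, IdentJ2_n12, IdentJ2_n20, IdentJ2_n32, IdentJ2_n80, ev_C] at e5 ⊢
      rw [e2, e3, e5]
      simp only [ev_neg, ev_mul, IdentJ2_n2, IdentJ2_n4, IdentJ2_n6, IdentJ2_n8, IdentJ2_n12, IdentJ2_n20, IdentJ2_n32, IdentJ2_n80]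
      ring
    have e : v * (2 * NN z z + 2 * Z + 4 * (v * v) - 4 * Gam z v)
        = 2 * (v * NN z z) + 2 * (v * Z) + C 4 * (v * v * v) - C 4 * (v * Gam z v) := by
      rw [c4]; ring
    rw [e0, e1, e, EE_sub, EE_add, EE_add, EE_two_mul, EE_two_mul, EE_C_mul, EE_C_mul, hvT]; ring
  have b2 : EE (v * B) = 1 / 2 * EE (HQ q z) + 3 / 2 * EE (q * Z) := by
    have h := EE_ibp B z
    have e1 : EE (B * Lap z) = EE (B * -(2 * v)) := EE_congr ((EqS.refl _).mul hz)
    have e : B * -(2 * v) = -(2 * (v * B)) := by ring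
    rw [e1, e, EE_neg, EE_two_mul] at h
    have h2 : EE (HQ q z) = EE (Gam z B) - 1 / 2 * EE (Gam q Z) := by
      rw [HQ_eq, EE_sub, EE_C_mul]
    have h3 : EE (Gam q Z) = 6 * EE (q * Z) := by
      have h4 := EE_ibp Z q
      rw [hq] at h4
      have e : Z * -(6 * q) = -(C 6 * (q * Z)) := by rw [c6]; ring
      rw [e, EE_neg, EE_C_mul, Gam_comm Z q] at h4
      linarith
    rw [Gam_comm B z] at h
    linarith
  -- expansion of J
  have hLu : Lap (q + v) = -(6 * q) + Lap v := by rw [Lap_add, hq]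
  unfold Jf
  rw [hGww, hLu]
  have x1 : (q + v) * (q + v) = q * q + 2 * (q * v) + v * v := by ring
  have x2 : (q + v) * (q + v) * (q + v) =
      q * q * q + C 3 * (q * q * v) + C 3 * (q * v * v) + v * v * v := by rw [c3]; ring
  have x3 : (1 + (q + v)) * (C (1 / 9) * Q2 + C (2 / 3) * B + Z)
      = C (1 / 9) * Q2 + C (2 / 3) * B + Z + C (1 / 9) * (q * Q2) + C (2 / 3) * (q * B) + q * Z
        + C (1 / 9) * (v * Q2) + C (2 / 3) * (v * B) + v * Z := by ring
  have x4 : (-(6 * q) + Lap v) * (C (1 / 9) * Q2 + C (2 / 3) * B + Z)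
      = C (1 / 9) * (Lap v * Q2) + C (2 / 3) * (Lap v * B) + Lap v * Z
        - C (1 / 9) * (C 6 * (q * Q2)) - C (2 / 3) * (C 6 * (q * B)) - C 6 * (q * Z) := by
    rw [c6]; ring
  have x5 : v * (Z + C (1 / 2) * NN z z) = v * Z + C (1 / 2) * (v * NN z z) := by ring
  rw [x2, x1, x3, x4, x5]
  simp only [EE_add, EE_sub, EE_C_mul, EE_two_mul]
  rw [g1, g2, a1, a2, b1, l1, l2, l3, b2, hqv]
  ring

end Pool.Agent.Lib.MP_dabcc9_gt
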