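import Pool.Agent.Lib.MP_dabcc9_gt.RotB

/-! JOB A2c. Derivatives along great circles. -/

open MeasureTheory Metric Set MvPolynomial

namespace Pool.Agent.Lib.MP_dabcc9_gt

noncomputable section

theorem RotC_cr_zero (a b : E3) : cr a b 0 = a 1 * b 2 - a 2 * b 1 := rfl

theorem RotC_cr_one (a b : E3) : cr a b 1 = a 2 * b 0 - a 0 * b 2 := rfl

theorem RotC_cr_two (a b : E3) : cr a b 2 = a 0 * b 1 - a 1 * b 0 := rfl

theorem RotC_ext {x y : E3} (h0 : x 0 = y 0) (h1 : x 1 = y 1) (h2 : x 2 = y 2) : x = y := by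
  ext j
  fin_cases j
  · exact h0
  · exact h1
  · exact h2

theorem RotC_cr_add (w a b : E3) : cr w (a + b) = cr w a + cr w b := by
  apply RotC_ext <;>
    simp only [RotC_cr_zero, RotC_cr_one, RotC_cr_two, PiLp.add_apply] <;> ring

theorem RotC_cr_smul (w a : E3) (c : ℝ) : cr w (c • a) = c • cr w a := by
  apply RotC_ext <;>
    simp only [RotC_cr_zero, RotC_cr_one, RotC_cr_two, PiLp.smul_apply, smul_eq_mul] <;> ring

theorem RotC_cr_cr (w x : E3) : cr w (cr w x) = inner ℝ w x • w - (‖w‖ ^ 2) • x := by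
  apply RotC_ext <;>
    simp only [RotC_cr_zero, RotC_cr_one, RotC_cr_two, PiLp.sub_apply, PiLp.smul_apply,
      smul_eq_mul, inner_eq3, norm_sq_eq3] <;> ring

theorem RotC_cr_cr' (x e : E3) : cr (cr x e) x = (‖x‖ ^ 2) • e - inner ℝ e x • x := by
  apply RotC_ext <;>
    simp only [RotC_cr_zero, RotC_cr_one, RotC_cr_two, PiLp.sub_apply, PiLp.smul_apply,
      smul_eq_mul, inner_eq3, norm_sq_eq3] <;> ring

theorem RotC_norm_cr (w x : E3) : ‖cr w x‖ ^ 2 = ‖w‖ ^ 2 * ‖x‖ ^ 2 - inner ℝ w x ^ 2 := by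
  simp only [RotC_cr_zero, RotC_cr_one, RotC_cr_two, inner_eq3, norm_sq_eq3]
  ring

theorem RotC_inner_right (w x : E3) : inner ℝ (cr w x) x = (0 : ℝ) := by
  simp only [RotC_cr_zero, RotC_cr_one, RotC_cr_two, inner_eq3]
  ring

theorem RotC_inner_left (w x : E3) : inner ℝ (cr w x) w = (0 : ℝ) := by
  simp only [RotC_cr_zero, RotC_cr_one, RotC_cr_two, inner_eq3]
  ring

theorem RotC_cr_sum (w y : E3) : cr w y = ∑ i, w i • cr (eb i) y := by
  rw [Fin.sum_univ_three]
  apply RotC_ext <;>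
    simp [RotC_cr_zero, RotC_cr_one, RotC_cr_two, eb] <;> ring

theorem RotC_one {a : ℝ} (h0 : 0 ≤ a) (h : a ^ 2 = 1) : a = 1 := by
  nlinarith

/-- The derivative in the direction `w × x`. -/
theorem RotC_along (p : P) (x w : E3) :
    fderiv ℝ (ev p) x (cr w x) = ∑ i, w i * ev (L i p) x := by
  rw [RotC_cr_sum, map_sum]
  refine Finset.sum_congr rfl fun i _ => ?_
  rw [map_smul, smul_eq_mul, ev_L_eq_fderiv]

theorem RotC_deriv (x w : E3) (hw : ‖w‖ = 1) (h : inner ℝ w x = 0) (θ : ℝ) :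
    HasDerivAt (fun θ => Real.cos θ • x + Real.sin θ • cr w x)
      (cr w (Real.cos θ • x + Real.sin θ • cr w x)) θ := by
  have h1 : cr w (Real.cos θ • x + Real.sin θ • cr w x) =
      -(Real.sin θ) • x + Real.cos θ • cr w x := by
    rw [RotC_cr_add, RotC_cr_smul, RotC_cr_smul, RotC_cr_cr, hw, h]
    simp only [zero_smul, one_pow, one_smul, zero_sub, smul_neg, neg_smul]
    rw [add_comm]
  rw [h1]
  exact ((Real.hasDerivAt_cos θ).smul_const x).add ((Real.hasDerivAt_sin θ).smul_const (cr w x))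

/-- Derivative along a great circle: for unit orthogonal `w`, `x` put
`g θ = cos θ x + sin θ (w × x)`; then `g' = w × g`, so the derivative of `p (g θ)` is
`∑ w_i (L i p) (g θ)` by `ev_L_eq_fderiv` and linearity. -/
theorem hasDerivAt_circle (p : P) (x w : E3) (hx : ‖x‖ = 1) (hw : ‖w‖ = 1)
    (h : inner ℝ w x = 0) (θ : ℝ) :
    HasDerivAt (fun θ => ev p (Real.cos θ • x + Real.sin θ • cr w x))
      (∑ i, w i * ev (L i p) (Real.cos θ • x + Real.sin θ • cr w x)) θ := by
  rw [← RotC_along]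
  exact (RotB_differentiable p _).hasFDerivAt.comp_hasDerivAt θ (RotC_deriv x w hw h θ)

/-- Second derivative along a great circle. -/
theorem hasDerivAt_circle2 (p : P) (x w : E3) (hx : ‖x‖ = 1) (hw : ‖w‖ = 1)
    (h : inner ℝ w x = 0) (θ : ℝ) :
    HasDerivAt (fun θ => ∑ j, w j * ev (L j p) (Real.cos θ • x + Real.sin θ • cr w x))
      (∑ i, ∑ j, w i * w j * ev (L i (L j p)) (Real.cos θ • x + Real.sin θ • cr w x)) θ := by
  have h1 : ∑ i, ∑ j, w i * w j * ev (L i (L j p)) (Real.cos θ • x + Real.sin θ • cr w x) =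
      ∑ j, w j * ∑ i, w i * ev (L i (L j p)) (Real.cos θ • x + Real.sin θ • cr w x) := by
    rw [Finset.sum_comm]
    refine Finset.sum_congr rfl fun j _ => ?_
    rw [Finset.mul_sum]
    refine Finset.sum_congr rfl fun i _ => ?_
    ring
  rw [h1]
  exact HasDerivAt.fun_sum fun j _ => (hasDerivAt_circle (L j p) x w hx hw h θ).const_mul (w j)

/-- Points of the great circle: norm one and orthogonal to `w`. -/
theorem circle_facts (x w : E3) (hx : ‖x‖ = 1) (hw : ‖w‖ = 1) (h : inner ℝ w x = 0) (θ : ℝ) :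
    ‖Real.cos θ • x + Real.sin θ • cr w x‖ = 1 ∧
    inner ℝ w (Real.cos θ • x + Real.sin θ • cr w x) = 0 ∧
    ‖cr w x‖ = 1 ∧ inner ℝ (cr w x) x = 0 ∧ inner ℝ (cr w x) w = 0 := by
  have h1 : ‖cr w x‖ ^ 2 = 1 := by
    rw [RotC_norm_cr, hx, hw, h]
    norm_num
  have h2 : inner ℝ w (cr w x) = (0 : ℝ) := by
    rw [real_inner_comm]
    exact RotC_inner_left w x
  have h3 : inner ℝ x (cr w x) = (0 : ℝ) := by
    rw [real_inner_comm]
    exact RotC_inner_right w x
  refine ⟨?_, ?_, ?_, RotC_inner_right w x, RotC_inner_left w x⟩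
  · have h4 : ‖Real.cos θ • x + Real.sin θ • cr w x‖ ^ 2 = 1 := by
      rw [norm_add_sq_real, norm_smul, norm_smul, mul_pow, mul_pow, hx, h1, real_inner_smul_left,
        real_inner_smul_right, h3, Real.norm_eq_abs, Real.norm_eq_abs, sq_abs, sq_abs]
      have h5 := Real.sin_sq_add_cos_sq θ
      linarith
    exact RotC_one (norm_nonneg _) h4
  · rw [inner_add_right, real_inner_smul_right, real_inner_smul_right, h, h2]
    ring
  · exact RotC_one (norm_nonneg _) h1

/-- Every unit vector orthogonal to `x` is `w × x` for a unit `w` orthogonal to `x`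
(namely `w = x × e`). -/
theorem exists_w (x e : E3) (hx : ‖x‖ = 1) (he : ‖e‖ = 1) (h : inner ℝ e x = 0) :
    ∃ w : E3, ‖w‖ = 1 ∧ inner ℝ w x = 0 ∧ cr w x = e := by
  refine ⟨cr x e, ?_, RotC_inner_left x e, ?_⟩
  · have h1 : ‖cr x e‖ ^ 2 = 1 := by
      rw [RotC_norm_cr, hx, he, real_inner_comm, h]
      norm_num
    exact RotC_one (norm_nonneg _) h1
  · rw [RotC_cr_cr', hx, h, zero_smul, sub_zero, one_pow, one_smul]

end

end Pool.Agent.Lib.MP_dabcc9_gt
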