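import Pool.Agent.Lib.MP_dabcc9_gt.ZonC
import Pool.Agent.Lib.MP_dabcc9_gt.RotC

/-! JOB C4c. Second rotation derivatives. -/

open MeasureTheory Metric Set MvPolynomial

namespace Pool.Agent.Lib.MP_dabcc9_gt

noncomputable section

/-- The cross product as a continuous linear map. -/
def MollC_cr (w : E3) : E3 →L[ℝ] E3 :=
  LinearMap.toContinuousLinearMap
    { toFun := cr w
      map_add' := RotC_cr_add w
      map_smul' := fun c a => RotC_cr_smul w a c }

theorem MollC_cr_apply (w y : E3) : MollC_cr w y = cr w y := rfl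

/-- The derivative of `y ↦ Dg(y) (w × y)`. -/
theorem MollC_hasFDerivAt {g : E3 → ℝ} (hg2 : Differentiable ℝ (fderiv ℝ g)) (w x : E3) :
    HasFDerivAt (fun y => fderiv ℝ g y (cr w y))
      ((fderiv ℝ g x).comp (MollC_cr w) + (fderiv ℝ (fderiv ℝ g) x).flip (cr w x)) x :=
  (hg2 x).hasFDerivAt.clm_apply (MollC_cr w).hasFDerivAt

theorem MollC_const {g : E3 → ℝ} (hg2 : Differentiable ℝ (fderiv ℝ g)) (v x : E3) :
    fderiv ℝ (fun y => fderiv ℝ g y v) x v = fderiv ℝ (fderiv ℝ g) x v v := by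
  have h1 : HasFDerivAt (fun y => fderiv ℝ g y v)
      ((fderiv ℝ g x).comp (0 : E3 →L[ℝ] E3) + (fderiv ℝ (fderiv ℝ g) x).flip v) x :=
    (hg2 x).hasFDerivAt.clm_apply (hasFDerivAt_const v x)
  rw [h1.fderiv]
  simp

/-- Second rotation derivatives of a smooth function on the sphere: for `w ⊥ x`, `‖x‖ = 1`,
`∑_ij w_i w_j LF i (LF j g) x = D²g(x)(w × x, w × x) - |w|^2 Dg(x) x`.
PROOF: `LF j g y = Dg(y)(e_j × y)`, so
`∑_ij w_i w_j LF i (LF j g) y = D²g(y)(w × y, w × y) + Dg(y)(w × (w × y))` and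
`w × (w × x) = -|w|^2 x` for `w ⊥ x`. -/
theorem LF_second {g : E3 → ℝ} (hg : ContDiff ℝ ((⊤ : ℕ∞) : WithTop ℕ∞) g) (x w : E3) (hx : ‖x‖ = 1)
    (h : inner ℝ w x = 0) :
    ∑ i, ∑ j, w i * w j * LF i (LF j g) x =
      fderiv ℝ (fun y => fderiv ℝ g y (cr w x)) x (cr w x) - ‖w‖ ^ 2 * fderiv ℝ g x x := by
  have hg2 : Differentiable ℝ (fderiv ℝ g) :=
    (contDiff_infty_iff_fderiv.1 hg).2.differentiable (by simp)
  have hF : (fun y => fderiv ℝ g y (cr w y)) = fun y => ∑ j, w j * LF j g y := by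
    funext y
    rw [RotC_cr_sum, map_sum]
    refine Finset.sum_congr rfl fun j _ => ?_
    rw [map_smul, smul_eq_mul]
    rfl
  have hd : ∀ j, DifferentiableAt ℝ (LF j g) x := fun j =>
    (MollC_hasFDerivAt hg2 (eb j) x).differentiableAt
  have h1 : HasFDerivAt (fun y => fderiv ℝ g y (cr w y)) (∑ j, w j • fderiv ℝ (LF j g) x) x := by
    rw [hF]
    exact HasFDerivAt.fun_sum fun j _ => (hd j).hasFDerivAt.const_mul (w j)
  have h2 := h1.unique (MollC_hasFDerivAt hg2 w x)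
  have h3 := congrArg (fun T : E3 →L[ℝ] ℝ => T (cr w x)) h2
  have h4 : (∑ j, w j • fderiv ℝ (LF j g) x) (cr w x) =
      ∑ i, ∑ j, w i * w j * LF i (LF j g) x := by
    rw [_root_.sum_apply, Finset.sum_comm]
    refine Finset.sum_congr rfl fun j _ => ?_
    rw [_root_.smul_apply, RotC_cr_sum, map_sum, smul_eq_mul, Finset.mul_sum]
    refine Finset.sum_congr rfl fun i _ => ?_
    rw [map_smul, smul_eq_mul]
    unfold LF
    ring
  have h5 : ((fderiv ℝ g x).comp (MollC_cr w) + (fderiv ℝ (fderiv ℝ g) x).flip (cr w x))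
      (cr w x) = fderiv ℝ (fderiv ℝ g) x (cr w x) (cr w x) - ‖w‖ ^ 2 * fderiv ℝ g x x := by
    rw [_root_.add_apply, ContinuousLinearMap.comp_apply, ContinuousLinearMap.flip_apply,
      MollC_cr_apply, RotC_cr_cr, h, zero_smul, zero_sub, map_neg, map_smul, smul_eq_mul]
    ring
  beta_reduce at h3
  rw [h4, h5] at h3
  rw [h3, MollC_const hg2]

end

end Pool.Agent.Lib.MP_dabcc9_gt
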