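import Pool.Agent.Lib.MP_dabcc9_gt.ZonA

/-! JOB C2. Uniform approximation. -/

open MeasureTheory Metric Set MvPolynomial

namespace Pool.Agent.Lib.MP_dabcc9_gt

noncomputable section

/-- Uniform approximation, for a compact family of functions: `F : E3 × E3 → ℝ` continuous,
parameter `w` in the closed unit ball.  PROOF: uniform continuity on the compact set gives `δ` with
`|F(w,y) - F(w,x)| <= ε/2` for `<x,y> >= 1 - δ`; elsewhere the kernel is
`<= (n+1) (1 - δ/2)^n -> 0` and `|F| <= M`; use `zon_one`. -/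
theorem zon_tendsto (F : E3 → E3 → ℝ) (hF : Continuous fun q : E3 × E3 => F q.1 q.2) (ε : ℝ)
    (hε : 0 < ε) : ∃ N : ℕ, ∀ n ≥ N, ∀ w x : E3, ‖w‖ ≤ 1 → ‖x‖ = 1 →
      |zon n (F w) x - F w x| ≤ ε := by
  classical
  set K : Set (E3 × E3) := closedBall (0 : E3) 1 ×ˢ closedBall (0 : E3) 1 with hK
  have hKc : IsCompact K := (isCompact_closedBall 0 1).prod (isCompact_closedBall 0 1)
  have hmemK : ∀ w x : E3, ‖w‖ ≤ 1 → ‖x‖ = 1 → (w, x) ∈ K := by
    intro w x hw hx
    refine ⟨?_, ?_⟩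
    · simpa using hw
    · simpa using hx.le
  obtain ⟨M, hM⟩ := hKc.exists_bound_of_continuousOn hF.continuousOn
  have hM0 : ∀ w x : E3, ‖w‖ ≤ 1 → ‖x‖ = 1 → |F w x| ≤ M := fun w x hw hx =>
    hM (w, x) (hmemK w x hw hx)
  have huc := hKc.uniformContinuousOn_of_continuous hF.continuousOn
  rw [Metric.uniformContinuousOn_iff] at huc
  obtain ⟨η, hη, hη2⟩ := huc (ε / 2) (by positivity)
  set δ : ℝ := min (η ^ 2 / 4) 1 with hδ
  have hδ0 : 0 < δ := by
    rw [hδ]
    positivity
  have hδ1 : δ ≤ 1 := min_le_right _ _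
  have hδ2 : δ ≤ η ^ 2 / 4 := min_le_left _ _
  set r : ℝ := 1 - δ / 2 with hr
  have hr0 : 0 ≤ r := by
    rw [hr]
    linarith
  have hr1 : r < 1 := by
    rw [hr]
    linarith
  have hlim : Filter.Tendsto (fun n : ℕ => ((n : ℝ) + 1) * (2 * |M| * r ^ n)) Filter.atTop
      (nhds 0) := by
    have h1 := tendsto_self_mul_const_pow_of_lt_one hr0 hr1
    have h2 := tendsto_pow_atTop_nhds_zero_of_lt_one hr0 hr1
    have h3 := (h1.add h2).const_mul (2 * |M|)
    rw [add_zero, mul_zero] at h3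
    refine h3.congr fun n => ?_
    ring
  have hev := (hlim.eventually (gt_mem_nhds (show (0 : ℝ) < ε / 2 by positivity)))
  obtain ⟨N, hN⟩ := Filter.eventually_atTop.1 hev
  refine ⟨N, fun n hn w x hw hx => ?_⟩
  have hc := hN n hn
  have hkc : Continuous fun y : E3 => ((1 + inner ℝ x y) / 2) ^ n := by fun_prop
  have hFw : Continuous (F w) := hF.comp (by fun_prop : Continuous fun y : E3 => (w, y))
  have h1 : ((n : ℝ) + 1) * av (fun y => 1 * ((1 + inner ℝ x y) / 2) ^ n) = 1 := zon_one n x hx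
  have hzon : zon n (F w) x - F w x = ((n : ℝ) + 1) * av (fun y =>
      F w y * ((1 + inner ℝ x y) / 2) ^ n - F w x * (1 * ((1 + inner ℝ x y) / 2) ^ n)) := by
    rw [av_sub (by fun_prop) (by fun_prop), av_const_mul, mul_sub]
    have h2 : ((n : ℝ) + 1) * (F w x * av (fun y => 1 * ((1 + inner ℝ x y) / 2) ^ n)) = F w x := by
      rw [mul_left_comm, h1, mul_one]
    rw [h2]
    rfl
  set c : ℝ := 2 * |M| * r ^ n with hcdef
  have hc0 : 0 ≤ c := by positivity
  have hbound : av (fun y => (ε / 2) * (1 * ((1 + inner ℝ x y) / 2) ^ n) + c) =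
      (ε / 2) * av (fun y => 1 * ((1 + inner ℝ x y) / 2) ^ n) + c := by
    rw [av_add (by fun_prop) (by fun_prop), av_const_mul, av_const]
  have hpt : ∀ y : E3, ‖y‖ = 1 →
      |F w y * ((1 + inner ℝ x y) / 2) ^ n - F w x * (1 * ((1 + inner ℝ x y) / 2) ^ n)| ≤
        (ε / 2) * (1 * ((1 + inner ℝ x y) / 2) ^ n) + c := by
    intro y hy
    have hin : |(inner ℝ x y : ℝ)| ≤ 1 := by
      have h := abs_real_inner_le_norm x y
      rw [hx, hy, one_mul] at h
      exact h
    obtain ⟨hin1, hin2⟩ := abs_le.1 hin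
    have hk0 : 0 ≤ (1 + inner ℝ x y) / 2 := by linarith
    have hk1 : (1 + inner ℝ x y) / 2 ≤ 1 := by linarith
    have hkn : 0 ≤ ((1 + inner ℝ x y) / 2) ^ n := pow_nonneg hk0 n
    have hrw : F w y * ((1 + inner ℝ x y) / 2) ^ n - F w x * (1 * ((1 + inner ℝ x y) / 2) ^ n) =
        (F w y - F w x) * ((1 + inner ℝ x y) / 2) ^ n := by ring
    rw [hrw, abs_mul, abs_of_nonneg hkn, one_mul]
    by_cases hcase : 1 - δ ≤ inner ℝ x y
    · have hdist : dist (w, y) (w, x) < η := by
        have hd : dist (w, y) (w, x) = ‖y - x‖ := by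
          rw [Prod.dist_eq, dist_self, dist_eq_norm]
          exact max_eq_right (norm_nonneg _)
        rw [hd]
        have hsq : ‖y - x‖ ^ 2 < η ^ 2 := by
          rw [norm_sub_sq_real, hx, hy, real_inner_comm]
          have : 0 < η ^ 2 := by positivity
          nlinarith
        exact lt_of_pow_lt_pow_left₀ 2 hη.le hsq
      have h3 := hη2 (w, y) (hmemK w y hw hy) (w, x) (hmemK w x hw hx) hdist
      rw [Real.dist_eq] at h3
      have h4 := mul_le_mul_of_nonneg_right h3.le hkn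
      simp only at h4
      linarith
    · have hcase' : inner ℝ x y < 1 - δ := not_le.1 hcase
      have h5 : (1 + inner ℝ x y) / 2 ≤ r := by
        rw [hr]
        linarith
      have h6 : ((1 + inner ℝ x y) / 2) ^ n ≤ r ^ n := pow_le_pow_left₀ hk0 h5 n
      have h7 : |F w y - F w x| ≤ 2 * |M| := by
        have ha := hM0 w y hw hy
        have hb := hM0 w x hw hx
        have hab := abs_sub (F w y) (F w x)
        have hMM := le_abs_self M
        linarith
      have h8 : |F w y - F w x| * ((1 + inner ℝ x y) / 2) ^ n ≤ 2 * |M| * r ^ n :=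
        mul_le_mul h7 h6 hkn (by positivity)
      have h9 : 0 ≤ ε / 2 * ((1 + inner ℝ x y) / 2) ^ n := by positivity
      rw [hcdef]
      linarith
  have hn1 : (0 : ℝ) ≤ (n : ℝ) + 1 := by positivity
  have hfin : ((n : ℝ) + 1) * ((ε / 2) * av (fun y => 1 * ((1 + inner ℝ x y) / 2) ^ n) + c) ≤ ε := by
    have h10 : ((n : ℝ) + 1) * ((ε / 2) * av (fun y => 1 * ((1 + inner ℝ x y) / 2) ^ n) + c) =
        ε / 2 * (((n : ℝ) + 1) * av (fun y => 1 * ((1 + inner ℝ x y) / 2) ^ n)) +
          ((n : ℝ) + 1) * c := by ring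
    rw [h10, h1]
    linarith
  rw [hzon, abs_le]
  constructor
  · have hlow : av (fun y => (-1) * ((ε / 2) * (1 * ((1 + inner ℝ x y) / 2) ^ n) + c)) ≤
        av (fun y => F w y * ((1 + inner ℝ x y) / 2) ^ n -
          F w x * (1 * ((1 + inner ℝ x y) / 2) ^ n)) := by
      refine av_mono (by fun_prop) (by fun_prop) fun y hy => ?_
      have := (abs_le.1 (hpt y hy)).1
      linarith
    rw [av_const_mul, hbound] at hlow
    have := mul_le_mul_of_nonneg_left hlow hn1
    linarith
  · have hup : av (fun y => F w y * ((1 + inner ℝ x y) / 2) ^ n -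
          F w x * (1 * ((1 + inner ℝ x y) / 2) ^ n)) ≤
        av (fun y => (ε / 2) * (1 * ((1 + inner ℝ x y) / 2) ^ n) + c) :=
      av_mono (by fun_prop) (by fun_prop) fun y hy => (abs_le.1 (hpt y hy)).2
    rw [hbound] at hup
    have := mul_le_mul_of_nonneg_left hup hn1
    linarith

end

end Pool.Agent.Lib.MP_dabcc9_gt
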