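import Pool.Agent.Lib.MP_dabcc9_gt.MollB
import Pool.Agent.Lib.MP_dabcc9_gt.MollC
import Pool.Agent.Lib.MP_dabcc9_gt.ZonB
import Pool.Agent.Lib.MP_dabcc9_gt.AlgA

/-! JOB C5. Approximation by polynomial support functions. -/

open MeasureTheory Metric Set MvPolynomial

namespace Pool.Agent.Lib.MP_dabcc9_gt

noncomputable section

theorem MollD_cr_contDiff (a : E3) {n : WithTop ℕ∞} : ContDiff ℝ n (fun y : E3 => cr a y) := by
  have hc : ∀ i : Fin 3, ContDiff ℝ n (fun y : E3 => y i) := fun i =>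
    (EuclideanSpace.proj i : E3 →L[ℝ] ℝ).contDiff
  rw [contDiff_euclidean]
  intro i
  fin_cases i
  · show ContDiff ℝ n fun y : E3 => a 1 * y 2 - a 2 * y 1
    exact (contDiff_const.mul (hc 2)).sub (contDiff_const.mul (hc 1))
  · show ContDiff ℝ n fun y : E3 => a 2 * y 0 - a 0 * y 2
    exact (contDiff_const.mul (hc 0)).sub (contDiff_const.mul (hc 2))
  · show ContDiff ℝ n fun y : E3 => a 0 * y 1 - a 1 * y 0
    exact (contDiff_const.mul (hc 1)).sub (contDiff_const.mul (hc 0))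

theorem MollD_LF_contDiff (i : Fin 3) {f : E3 → ℝ} (hf : ContDiff ℝ ((⊤ : ℕ∞) : WithTop ℕ∞) f) :
    ContDiff ℝ ((⊤ : ℕ∞) : WithTop ℕ∞) (LF i f) := by
  have h1 : ContDiff ℝ ((⊤ : ℕ∞) : WithTop ℕ∞) (fderiv ℝ f) := hf.fderiv_right (by simp)
  exact h1.clm_apply (MollD_cr_contDiff (eb i))

theorem MollD_kernel_cont (n : ℕ) (x : E3) {f : E3 → ℝ} (hf : Continuous f) :
    ContinuousOn (fun y => f y * ((1 + inner ℝ x y) / 2) ^ n) (sphere (0 : E3) 1) := by
  apply Continuous.continuousOn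
  fun_prop

theorem MollD_zon_add (n : ℕ) {f g : E3 → ℝ} (hf : Continuous f) (hg : Continuous g) (x : E3) :
    zon n (fun y => f y + g y) x = zon n f x + zon n g x := by
  unfold zon
  rw [← mul_add, ← av_add (MollD_kernel_cont n x hf) (MollD_kernel_cont n x hg)]
  congr 2
  funext y
  ring

theorem MollD_zon_mul (n : ℕ) (c : ℝ) (f : E3 → ℝ) (x : E3) :
    zon n (fun y => c * f y) x = c * zon n f x := by
  have h : (fun y => (c * f y) * ((1 + inner ℝ x y) / 2) ^ n) =
      fun y => c * (f y * ((1 + inner ℝ x y) / 2) ^ n) := by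
    funext y
    ring
  show ((n : ℝ) + 1) * av (fun y => (c * f y) * ((1 + inner ℝ x y) / 2) ^ n) = _
  rw [h, av_const_mul, zon]
  ring

theorem MollD_zon_sum (n : ℕ) {ι : Type} (s : Finset ι) (f : ι → E3 → ℝ) (hf : ∀ i, Continuous (f i))
    (x : E3) : zon n (fun y => ∑ i ∈ s, f i y) x = ∑ i ∈ s, zon n (f i) x := by
  classical
  induction s using Finset.induction_on with
  | empty =>
    have h := MollD_zon_mul n 0 (fun _ => 0) x
    simp only [zero_mul] at h
    simpa using h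
  | insert i s hi ih =>
    rw [Finset.sum_insert hi, ← ih, ← MollD_zon_add n (hf i) (continuous_finsetSum _ fun j _ => hf j)]
    congr 1
    funext y
    rw [Finset.sum_insert hi]

/-- the quadratic form of second derivatives -/
def MollD_F (g : E3 → ℝ) (w y : E3) : ℝ :=
  (∑ i, ∑ j, w i * w j * LF i (LF j g) y) + g y * ‖w‖ ^ 2

theorem MollD_F_zon {g : E3 → ℝ} (hg : ContDiff ℝ ((⊤ : ℕ∞) : WithTop ℕ∞) g) (n : ℕ) (w x : E3) :
    zon n (MollD_F g w) x = (∑ i, ∑ j, w i * w j * zon n (LF i (LF j g)) x) + zon n g x * ‖w‖ ^ 2 := by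
  have hL : ∀ i j, Continuous (LF i (LF j g)) := fun i j =>
    (MollD_LF_contDiff i (MollD_LF_contDiff j hg)).continuous
  have h1 : MollD_F g w = fun y => (∑ i, ∑ j, w i * w j * LF i (LF j g) y) + ‖w‖ ^ 2 * g y := by
    funext y
    unfold MollD_F
    ring
  have hc1 : ∀ i : Fin 3, Continuous fun y => ∑ j, w i * w j * LF i (LF j g) y := fun i =>
    continuous_finsetSum _ fun j _ => continuous_const.mul (hL i j)
  have hA : Continuous fun y => ∑ i, ∑ j, w i * w j * LF i (LF j g) y :=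
    continuous_finsetSum _ fun i _ => hc1 i
  have hB : Continuous fun y => ‖w‖ ^ 2 * g y := continuous_const.mul hg.continuous
  rw [h1, MollD_zon_add n hA hB,
    MollD_zon_mul, MollD_zon_sum n _ _ hc1, mul_comm (‖w‖ ^ 2)]
  congr 1
  refine Finset.sum_congr rfl fun i _ => ?_
  have hC : ∀ j : Fin 3, Continuous fun y => w i * w j * LF i (LF j g) y := fun j =>
    continuous_const.mul (hL i j)
  rw [MollD_zon_sum n _ _ hC]
  refine Finset.sum_congr rfl fun j _ => ?_
  rw [MollD_zon_mul]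

/-- APPROXIMATION.  PROOF: `K ⊆ closedBall 0 R`, `R >= 1`; `ε` with `6 R ε <= η`; `g` from `mollify`;
`F w y = ∑_ij w_i w_j LF i (LF j g) y + g y |w|^2`, continuous in `(w, y)`; `n` large:
`|zon n (F w) x - F w x| <= R ε /2` and `|zon n g x - g x| <= R ε` (`zon_tendsto`); `p0` the polynomial
of `zon n g`; by `L_zon` twice `∑ w_i w_j ev (L i (L j p0)) x + ev p0 x |w|^2 = zon n (F w) x`, for
`‖w‖ = 1`, `w ⊥ x`, which is `>= F w x - R ε/2 >= -(3 R ε) - Rε/2` by `LF_second`.
So `p = p0 + C (4 R ε)` works (scale for general `w ≠ 0`):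
`supp K <= g + R ε <= p0 + 2 R ε`, `p <= supp K + 6 R ε`; positivity since `0 ∈ K` gives
`supp K >= 0`. -/
theorem approx {K : Set E3} (hK : IsCompact K) (hc : Convex ℝ K) (h0 : (0 : E3) ∈ K) (η : ℝ)
    (hη : 0 < η) : ∃ p : P, ConvSS p ∧
      ∀ x : E3, ‖x‖ = 1 → 0 < ev p x ∧ supp K x ≤ ev p x ∧ ev p x ≤ supp K x + η := by
  obtain ⟨R0, hR0⟩ := hK.isBounded.subset_closedBall 0
  set R : ℝ := max R0 1 with hRdef
  have hR1 : 1 ≤ R := le_max_right _ _
  have hKR : K ⊆ closedBall 0 R := hR0.trans (closedBall_subset_closedBall (le_max_left _ _))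
  have hne : K.Nonempty := ⟨0, h0⟩
  have hRpos : 0 < R := by linarith
  obtain ⟨g, hg, hgs, hg2, hg1⟩ := mollify hRpos.le hK hne hKR (η / (6 * R)) (by positivity)
  have hδ : R * (η / (6 * R)) = η / 6 := by
    field_simp
  have hδ3 : 3 * R * (η / (6 * R)) = 3 * (η / 6) := by
    rw [mul_assoc, hδ]
  simp only [hδ] at hgs
  simp only [hδ3] at hg1
  have hLc : ∀ i j, Continuous (LF i (LF j g)) := fun i j =>
    (MollD_LF_contDiff i (MollD_LF_contDiff j hg)).continuous
  have hFc : Continuous fun q : E3 × E3 => MollD_F g q.1 q.2 := by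
    have hco : ∀ i : Fin 3, Continuous fun q : E3 × E3 => q.1 i := fun i =>
      (EuclideanSpace.proj i : E3 →L[ℝ] ℝ).continuous.comp continuous_fst
    unfold MollD_F
    refine (continuous_finsetSum _ fun i _ => continuous_finsetSum _ fun j _ => ?_).add
      ((hg.continuous.comp continuous_snd).mul (continuous_fst.norm.pow 2))
    exact ((hco i).mul (hco j)).mul ((hLc i j).comp continuous_snd)
  have hδpos : 0 < η / 6 := by positivity
  obtain ⟨N1, hN1⟩ := zon_tendsto (MollD_F g) hFc (η / 6 / 2) (by positivity)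
  obtain ⟨N2, hN2⟩ := zon_tendsto (fun _ => g) (hg.continuous.comp continuous_snd) (η / 6) hδpos
  set n := max N1 N2 with hn
  have hn1 : N1 ≤ n := le_max_left _ _
  have hn2 : N2 ≤ n := le_max_right _ _
  obtain ⟨p0, hp0⟩ := zon_poly n g hg.continuous
  have hle : (1 : WithTop ℕ∞) ≤ ((⊤ : ℕ∞) : WithTop ℕ∞) := by
    exact_mod_cast (le_top : (1 : ℕ∞) ≤ ⊤)
  have hp1 : ∀ j, ∀ x : E3, ‖x‖ = 1 → ev (L j p0) x = zon n (LF j g) x := fun j =>
    L_zon n g (hg.of_le hle) p0 (fun x _ => hp0 x) j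
  have hp2 : ∀ i j, ∀ x : E3, ‖x‖ = 1 → ev (L i (L j p0)) x = zon n (LF i (LF j g)) x := fun i j =>
    L_zon n (LF j g) ((MollD_LF_contDiff j hg).of_le hle) (L j p0) (hp1 j) i
  have hbd : ∀ x : E3, ‖x‖ = 1 → |ev p0 x - supp K x| ≤ 2 * (η / 6) := by
    intro x hx
    have h1 := hN2 n hn2 0 x (by simp) hx
    have h2 := hgs x
    rw [hp0 x]
    have h3 : zon n g x - supp K x = (zon n g x - g x) + (g x - supp K x) := by ring
    rw [h3]
    exact (abs_add_le _ _).trans (by linarith)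
  have hsup : ∀ x : E3, 0 ≤ supp K x := by
    intro x
    have h1 := (supp_props hK hne).1 0 h0 x
    simpa using h1
  refine ⟨p0 + C (4 * (η / 6)), ?_, ?_⟩
  · intro x hx w hw hwx
    have hwn : 0 < ‖w‖ := norm_pos_iff.mpr hw
    set u : E3 := (‖w‖)⁻¹ • w with hu
    have hun : ‖u‖ = 1 := by
      rw [hu, norm_smul, norm_inv, norm_norm, inv_mul_cancel₀ hwn.ne']
    have hux : inner ℝ u x = (0 : ℝ) := by
      rw [hu, real_inner_smul_left, hwx, mul_zero]
    have hwu : ∀ i, w i = ‖w‖ * u i := by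
      intro i
      rw [hu, PiLp.smul_apply, smul_eq_mul, mul_inv_cancel_left₀ hwn.ne']
    have hLL : ∀ i j, ev (L i (L j (p0 + C (4 * (η / 6))))) x = zon n (LF i (LF j g)) x := by
      intro i j
      rw [map_add, L_C, add_zero, hp2 i j x hx]
    have h1 := MollD_F_zon hg n u x
    have h2 := hN1 n hn1 u x hun.le hx
    have h3 : MollD_F g u x = fderiv ℝ (fun y => fderiv ℝ g y (cr u x)) x (cr u x) - ‖u‖ ^ 2 * fderiv ℝ g x x
        + g x * ‖u‖ ^ 2 := by
      unfold MollD_F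
      rw [LF_second hg x u hx hux]
    have h4 := hg2 x (cr u x)
    have h5 := hg1 x
    rw [hun] at h3 h1
    have h6 : -(η / 6 / 2) ≤ zon n (MollD_F g u) x - MollD_F g u x := (abs_le.mp h2).1
    have h7 : 0 < (∑ i, ∑ j, u i * u j * zon n (LF i (LF j g)) x) + (zon n g x + 4 * (η / 6)) := by
      nlinarith
    have h8 : (∑ i, ∑ j, w i * w j * ev (L i (L j (p0 + C (4 * (η / 6))))) x) +
        ev (p0 + C (4 * (η / 6))) x * ‖w‖ ^ 2 = ‖w‖ ^ 2 *
        ((∑ i, ∑ j, u i * u j * zon n (LF i (LF j g)) x) + (zon n g x + 4 * (η / 6))) := by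
      rw [ev_add, ev_C, hp0 x, mul_add, Finset.mul_sum]
      congr 1
      · refine Finset.sum_congr rfl fun i _ => ?_
        rw [Finset.mul_sum]
        refine Finset.sum_congr rfl fun j _ => ?_
        rw [hLL, hwu i, hwu j]
        ring
      · ring
    rw [h8]
    positivity
  · intro x hx
    have h1 := abs_le.mp (hbd x hx)
    have h2 := hsup x
    rw [ev_add, ev_C]
    refine ⟨?_, ?_, ?_⟩ <;> linarith [h1.1, h1.2]

end

end Pool.Agent.Lib.MP_dabcc9_gt
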