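import Pool.Agent.Lib.MP_dabcc9_gt.Main2
import Pool.Agent.Lib.MP_dabcc9_gt.GeoF
import Pool.Agent.Lib.MP_dabcc9_gt.MollD

/-! JOB F1. Passage to the limit. -/

open MeasureTheory Metric Set MvPolynomial Filter Topology

namespace Pool.Agent.Lib.MP_dabcc9_gt

noncomputable section

private lemma LimA_unit : ‖(EuclideanSpace.single (0 : Fin 3) (1 : ℝ) : E3)‖ = 1 := by
  simp

private lemma LimA_EE_pos {p : P} (hpos : ∀ x : E3, ‖x‖ = 1 → 0 < ev p x) : 0 < EE p := by
  have h0 : 0 ≤ EE p := EE_nonneg fun x hx => (hpos x hx).le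
  rcases h0.lt_or_eq with h | h
  · exact h
  · exfalso
    have h1 := av_eq_zero (f := ev p) (continuous_ev p).continuousOn
      (fun x hx => (hpos x hx).le) h.symm _ LimA_unit
    have h2 := hpos _ LimA_unit
    rw [h1] at h2
    exact lt_irrefl _ h2

private lemma LimA_fin {K : Set E3} (hK : IsCompact K) (t : ℝ) : volume (cthickening t K) ≠ ⊤ :=
  (hK.cthickening).measure_lt_top.ne

private lemma LimA_vol_mono {A B : Set E3} (h : A ⊆ B) (hB : volume B ≠ ⊤) : vol A ≤ vol B :=
  ENNReal.toReal_mono hB (measure_mono h)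

private lemma LimA_tendsto {K : Set E3} (hK : IsCompact K) (t : ℝ) (ht : 0 ≤ t) :
    Tendsto (fun n : ℕ => vol (cthickening (t + 1 / ((n : ℝ) + 1)) K)) atTop
      (𝓝 (vol (cthickening t K))) := by
  have h1 : Tendsto (fun r => volume (cthickening r (cthickening t K))) (𝓝 (0 : ℝ))
      (𝓝 (volume (closure (cthickening t K)))) := by
    apply tendsto_measure_cthickening
    exact ⟨1, one_pos, LimA_fin hK.cthickening 1⟩
  rw [isClosed_cthickening.closure_eq] at h1
  have h2 : Tendsto (fun n : ℕ => 1 / ((n : ℝ) + 1)) atTop (𝓝 0) :=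
    tendsto_one_div_add_atTop_nhds_zero_nat
  have h3 := (ENNReal.tendsto_toReal (LimA_fin hK t)).comp (h1.comp h2)
  refine h3.congr fun n => ?_
  have hn : (0 : ℝ) ≤ 1 / ((n : ℝ) + 1) := by positivity
  simp only [Function.comp]
  unfold vol
  rw [cthickening_cthickening hn ht, add_comm]

/-- The coefficient of the surface area is nonnegative: the volume of the outer parallel body is
at least the volume of the body. -/
private lemma LimA_det_nonneg {p : P} (hp : ConvSS p) (hpos : ∀ x : E3, ‖x‖ = 1 → 0 < ev p x) :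
    0 ≤ EE (detA p) := by
  have hpi : (0 : ℝ) < 4 * Real.pi / 3 := by positivity
  have h1 : ∀ t : ℝ, 0 < t → 0 ≤ EE (detA p) + t * EE p + t ^ 2 / 3 := by
    intro t ht
    have e1 := steiner_body hp hpos t ht.le
    have e2 := vol_body hp hpos
    have e3 : vol (body p) ≤ vol (cthickening t (body p)) :=
      LimA_vol_mono (self_subset_cthickening _) (LimA_fin (body_compact _) t)
    rw [e1, e2] at e3
    have e4 := le_of_mul_le_mul_left e3 hpi
    have e5 : 0 ≤ (3 * t) * (EE (detA p) + t * EE p + t ^ 2 / 3) := by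
      have : (3 * t) * (EE (detA p) + t * EE p + t ^ 2 / 3)
        = 3 * t * EE (detA p) + 3 * t ^ 2 * EE p + t ^ 3 := by ring
      rw [this]
      linarith
    exact nonneg_of_mul_nonneg_right e5 (by positivity)
  have h2 : Tendsto (fun t : ℝ => EE (detA p) + t * EE p + t ^ 2 / 3) (𝓝[>] 0)
      (𝓝 (EE (detA p) + 0 * EE p + 0 ^ 2 / 3)) := by
    apply tendsto_nhdsWithin_of_tendsto_nhds
    exact Continuous.tendsto (by fun_prop) 0
  have h3 : 0 ≤ EE (detA p) + 0 * EE p + 0 ^ 2 / 3 :=
    ge_of_tendsto h2 (eventually_nhdsWithin_of_forall fun t ht => h1 t ht)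
  linarith

/-- PROOF.  For `n : ℕ` take `p_n` from `approx` with `η = 1/(n+1)`.  `body_between`:
`K ⊆ body p_n ⊆ cthickening η K`, so for `t >= 0`
`vol (cthickening t K) <= vol (cthickening t (body p_n)) <= vol (cthickening (t + η) K)`
(`cthickening_cthickening_subset`), and the right side tends to `vol (cthickening t K)` (measure
continuity from above, intersection of the `cthickening (t + η) K` is `cthickening t K`).  With
`steiner_body`: `Q_n(t) = y_n + 3 t x_n + 3 t^2 m_n + t^3` converges for every `t >= 0`, and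
`m_n = EE p_n -> av (supp K)` (uniform convergence).  Hence `y_n = Q_n(0)` and `x_n` (from `Q_n(1)`)
converge; the inequality `main_poly` passes to the limit. -/
theorem steiner_limit {K : Set E3} (hK : IsCompact K) (hc : Convex ℝ K) (h0 : (0 : E3) ∈ K) :
    ∃ x y : ℝ, (∀ t : ℝ, 0 ≤ t → vol (cthickening t K) = 4 * Real.pi / 3 *
        (y + 3 * t * x + 3 * t ^ 2 * av (supp K) + t ^ 3)) ∧
      (av (supp K) ^ 2 - x) ^ 2 / 32000 ≤
        y * av (supp K) - 6 * x * av (supp K) ^ 2 + 5 * av (supp K) ^ 4 := by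
  have hne : K.Nonempty := ⟨0, h0⟩
  have hpi : (0 : ℝ) < 4 * Real.pi / 3 := by positivity
  have happ : ∀ n : ℕ, ∃ p : P, ConvSS p ∧
      ∀ x : E3, ‖x‖ = 1 → 0 < ev p x ∧ supp K x ≤ ev p x ∧ ev p x ≤ supp K x + 1 / ((n : ℝ) + 1) :=
    fun n => approx hK hc h0 _ (by positivity)
  choose p hp hb using happ
  have hη : ∀ n : ℕ, (0 : ℝ) ≤ 1 / ((n : ℝ) + 1) := fun n => by positivity
  have hbet : ∀ n, K ⊆ body (p n) ∧ body (p n) ⊆ cthickening (1 / ((n : ℝ) + 1)) K := fun n =>
    body_between hK hc hne (p n) _ (hη n) fun x hx => ⟨(hb n x hx).2.1, (hb n x hx).2.2⟩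
  -- the three sequences
  set Y : ℕ → ℝ := fun n => EE (p n * detA (p n)) with hY
  set Xs : ℕ → ℝ := fun n => EE (detA (p n)) with hXs
  set M : ℕ → ℝ := fun n => EE (p n) with hM
  have hQ : ∀ t : ℝ, 0 ≤ t → Tendsto (fun n => 4 * Real.pi / 3 *
      (Y n + 3 * t * Xs n + 3 * t ^ 2 * M n + t ^ 3)) atTop (𝓝 (vol (cthickening t K))) := by
    intro t ht
    have h1 : ∀ n, vol (cthickening t (body (p n))) = 4 * Real.pi / 3 *
        (Y n + 3 * t * Xs n + 3 * t ^ 2 * M n + t ^ 3) := fun n =>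
      steiner_body (hp n) (fun x hx => (hb n x hx).1) t ht
    have h2 : ∀ n, vol (cthickening t K) ≤ vol (cthickening t (body (p n))) := fun n =>
      LimA_vol_mono (cthickening_subset_of_subset t (hbet n).1) (LimA_fin (body_compact _) t)
    have h3 : ∀ n : ℕ, vol (cthickening t (body (p n))) ≤
        vol (cthickening (t + 1 / ((n : ℝ) + 1)) K) := fun n => by
      apply LimA_vol_mono _ (LimA_fin hK _)
      refine (cthickening_subset_of_subset t (hbet n).2).trans ?_
      exact cthickening_cthickening_subset ht (hη n) K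
    have h4 := LimA_tendsto hK t ht
    have h5 : Tendsto (fun n => vol (cthickening t (body (p n)))) atTop
        (𝓝 (vol (cthickening t K))) :=
      tendsto_of_tendsto_of_tendsto_of_le_of_le tendsto_const_nhds h4 h2 h3
    exact h5.congr h1
  have hsc : Continuous (supp K) := (supp_props hK hne).2.2.2.2
  have hMt : Tendsto M atTop (𝓝 (av (supp K))) := by
    have h1 : ∀ n, av (supp K) ≤ M n := fun n =>
      av_mono hsc.continuousOn (continuous_ev _).continuousOn fun x hx => (hb n x hx).2.1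
    have h2 : ∀ n : ℕ, M n ≤ av (supp K) + 1 / ((n : ℝ) + 1) := fun n => by
      have h3 : M n ≤ av (fun x => supp K x + 1 / ((n : ℝ) + 1)) :=
        av_mono (continuous_ev _).continuousOn (hsc.add continuous_const).continuousOn
          fun x hx => (hb n x hx).2.2
      rw [av_add hsc.continuousOn continuousOn_const, av_const] at h3
      exact h3
    have h4 : Tendsto (fun n : ℕ => av (supp K) + 1 / ((n : ℝ) + 1)) atTop
        (𝓝 (av (supp K) + 0)) :=
      tendsto_const_nhds.add tendsto_one_div_add_atTop_nhds_zero_nat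
    rw [add_zero] at h4
    exact tendsto_of_tendsto_of_tendsto_of_le_of_le tendsto_const_nhds h4 h1 h2
  -- limits
  set y : ℝ := (4 * Real.pi / 3)⁻¹ * vol (cthickening 0 K) with hy
  set x : ℝ := ((4 * Real.pi / 3)⁻¹ * vol (cthickening 1 K) - y - 3 * av (supp K) - 1) / 3 with hx
  have hYt : Tendsto Y atTop (𝓝 y) := by
    have h1 := (hQ 0 le_rfl).const_mul (4 * Real.pi / 3)⁻¹
    refine h1.congr fun n => ?_
    rw [← mul_assoc, inv_mul_cancel₀ hpi.ne', one_mul]
    ring
  have hXt : Tendsto Xs atTop (𝓝 x) := by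
    have h1 := (hQ 1 zero_le_one).const_mul (4 * Real.pi / 3)⁻¹
    have h2 := (((h1.sub hYt).sub (hMt.const_mul 3)).sub_const 1).div_const 3
    refine h2.congr fun n => ?_
    rw [← mul_assoc, inv_mul_cancel₀ hpi.ne', one_mul]
    ring
  refine ⟨x, y, fun t ht => ?_, ?_⟩
  · have h1 := hQ t ht
    have h2 : Tendsto (fun n => 4 * Real.pi / 3 *
        (Y n + 3 * t * Xs n + 3 * t ^ 2 * M n + t ^ 3)) atTop
        (𝓝 (4 * Real.pi / 3 * (y + 3 * t * x + 3 * t ^ 2 * av (supp K) + t ^ 3))) :=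
      (((hYt.add (hXt.const_mul (3 * t))).add (hMt.const_mul (3 * t ^ 2))).add_const
        (t ^ 3)).const_mul _
    exact tendsto_nhds_unique h1 h2
  · have h1 : ∀ n, (M n ^ 2 - Xs n) ^ 2 / 32000 ≤
        Y n * M n - 6 * Xs n * M n ^ 2 + 5 * M n ^ 4 := by
      intro n
      have hpos : ∀ x : E3, ‖x‖ = 1 → 0 < ev (p n) x := fun x hx => (hb n x hx).1
      apply main_poly (p n) (hp n).convS (LimA_EE_pos hpos)
      · have h2 := vol_body (hp n) hpos
        have h3 : 0 ≤ vol (body (p n)) := ENNReal.toReal_nonneg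
        rw [h2] at h3
        exact nonneg_of_mul_nonneg_right h3 hpi
      · exact LimA_det_nonneg (hp n) hpos
    have h2 : Tendsto (fun n => Y n * M n - 6 * Xs n * M n ^ 2 + 5 * M n ^ 4) atTop
        (𝓝 (y * av (supp K) - 6 * x * av (supp K) ^ 2 + 5 * av (supp K) ^ 4)) :=
      ((hYt.mul hMt).sub ((hXt.const_mul 6).mul (hMt.pow 2))).add ((hMt.pow 4).const_mul 5)
    have h3 : Tendsto (fun n => (M n ^ 2 - Xs n) ^ 2 / 32000) atTop
        (𝓝 ((av (supp K) ^ 2 - x) ^ 2 / 32000)) :=
      (((hMt.pow 2).sub hXt).pow 2).div_const _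
    exact le_of_tendsto_of_tendsto' h3 h2 h1

end

end Pool.Agent.Lib.MP_dabcc9_gt
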