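import Pool.Agent.Lib.MP_dabcc9_gt.Main1B

/-! JOB L1.  The bilinear form `A = Hess p + p g` applied to gradients. -/

open MvPolynomial

namespace Pool.Agent.Lib.MP_dabcc9_gt

noncomputable section

/-- Hessian of `p` applied to the gradients of `a` and `b`. -/
def HB (p a b : P) : P := ∑ i, ∑ j, L i a * L j b * L i (L j p)

/-- `E[A(grad a, grad b)]` with `A = Hess p + p g`. -/
def QA (p a b : P) : ℝ := EE (HB p a b + p * Gam a b)

/-- `(h^2 + |grad h|^2 - 1)/2` for `h = 1 + u`. -/
def Gf (u : P) : P := u + C (1 / 2) * (u * u) + C (1 / 2) * Gam u u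

theorem HB_self (p d : P) : HB p d d = HQ p d := rfl

private theorem LocA_half : (C (1 / 2 : ℝ) : P) * 2 = 1 := by
  have h2 : (2 : P) = C (2 : ℝ) := (map_ofNat C 2).symm
  rw [h2, ← C_mul, show (1 / 2 : ℝ) * 2 = 1 by norm_num, C_1]

/-- Symmetry, as polynomials.  PROOF: with `L_comm` the difference is `±` the determinant of the three
vectors `(L k a)`, `(L k b)`, `(L k p)`, all orthogonal to `(X k)` by `sum_X_L`; multiplied by `X 0`
this determinant is a combination of the three relations `∑ X k * L k a = 0` etc. (Cramer: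
`x det(a,b,c) = (x.a) (b × c) + (x.b) (c × a) + (x.c) (a × b)`), and `X 0 ≠ 0` in the domain `P`. -/
theorem HB_comm (p a b : P) : HB p a b = HB p b a := by
  have e0 : L 0 (L 1 p) - L 1 (L 0 p) = - L 2 p := L_comm 0 p
  have e1 : L 1 (L 2 p) - L 2 (L 1 p) = - L 0 p := L_comm 1 p
  have e2 : L 2 (L 0 p) - L 0 (L 2 p) = - L 1 p := L_comm 2 p
  have ha := sum_X_L a
  have hb := sum_X_L b
  have hp := sum_X_L p
  rw [Fin.sum_univ_three] at ha hb hp
  have hdet : (L 0 a * L 1 b - L 0 b * L 1 a) * L 2 p + (L 1 a * L 2 b - L 1 b * L 2 a) * L 0 p +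
      (L 2 a * L 0 b - L 2 b * L 0 a) * L 1 p = 0 := by
    have hX : (X 0 : P) ≠ 0 := X_ne_zero 0
    apply mul_left_cancel₀ hX
    rw [mul_zero]
    linear_combination (L 1 b * L 2 p - L 2 b * L 1 p) * ha + (L 1 p * L 2 a - L 2 p * L 1 a) * hb +
      (L 1 a * L 2 b - L 2 a * L 1 b) * hp
  unfold HB
  simp only [Fin.sum_univ_three]
  linear_combination (L 0 a * L 1 b - L 0 b * L 1 a) * e0 + (L 1 a * L 2 b - L 1 b * L 2 a) * e1 +
    (L 2 a * L 0 b - L 2 b * L 0 a) * e2 - hdet

/-- `L i 1 = 0`. -/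
theorem HB_one_add (u a b : P) : HB (1 + u) a b = HB u a b := by
  unfold HB
  simp only [map_add, Derivation.map_one_eq_zero, zero_add]

theorem QA_comm (p a b : P) : QA p a b = QA p b a := by
  unfold QA
  rw [HB_comm, Gam_comm]

private theorem LocA_add_left (p a b c : P) : QA p (a + b) c = QA p a c + QA p b c := by
  unfold QA
  rw [← EE_add]
  congr 1
  rw [Gam_add_left]
  have h : HB p (a + b) c = HB p a c + HB p b c := by
    unfold HB
    simp only [Fin.sum_univ_three, map_add]
    ring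
  rw [h]
  ring

private theorem LocA_C_left (p a c : P) (t : ℝ) : QA p (C t * a) c = t * QA p a c := by
  unfold QA
  rw [← EE_C_mul]
  congr 1
  rw [Gam_C_mul_left]
  have h : HB p (C t * a) c = C t * HB p a c := by
    unfold HB
    simp only [Fin.sum_univ_three, L_C_mul]
    ring
  rw [h]
  ring

theorem QA_sub_left (p a b c : P) : QA p (a - b) c = QA p a c - QA p b c := by
  have h := LocA_add_left p (a - b) b c
  rw [sub_add_cancel] at h
  linarith

theorem QA_sub_sub (p a b : P) : QA p (a - b) (a - b) = QA p a a - 2 * QA p a b + QA p b b := by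
  rw [QA_sub_left, QA_comm p a (a - b), QA_comm p b (a - b), QA_sub_left, QA_sub_left,
    QA_comm p b a]
  ring

/-- From `A_nonneg`, `HB_self`. -/
theorem QA_nonneg {p : P} (hp : ConvS p) (a : P) : 0 ≤ QA p a a := by
  unfold QA
  rw [HB_self]
  exact EE_nonneg fun x hx => A_nonneg hp a x hx

/-- Cauchy-Schwarz: `QA p (a + C t * b) (a + C t * b) >= 0` for all `t` (`discrim_le_zero`). -/
theorem QA_cs {p : P} (hp : ConvS p) (a b : P) : QA p a b ^ 2 ≤ QA p a a * QA p b b := by
  have h : ∀ t : ℝ, 0 ≤ QA p b b * (t * t) + (2 * QA p a b) * t + QA p a a := by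
    intro t
    have h1 := QA_nonneg hp (a + C t * b)
    have h2 : QA p (a + C t * b) (a + C t * b) =
        QA p b b * (t * t) + (2 * QA p a b) * t + QA p a a := by
      rw [LocA_add_left, LocA_C_left, QA_comm p a (a + C t * b), QA_comm p b (a + C t * b),
        LocA_add_left, LocA_add_left, LocA_C_left, LocA_C_left, QA_comm p b a]
      ring
    rwa [h2] at h1
  have h3 := discrim_le_zero h
  unfold discrim at h3
  nlinarith

/-- `A grad u = grad G`: identity of polynomials.  PROOF: `Gam (u*u) φ = 2 u Gam u φ`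
(`Gam_mul_left`) and `L i (Gam u u) = 2 ∑_j L j u * L i (L j u)`, so
`1/2 Gam (Gam u u) φ = ∑_ij L i φ * L j u * L i (L j u) = HB u φ u`; then `HB_comm`, `HB_one_add`. -/
theorem Gam_Gf (u φ : P) : Gam (Gf u) φ = HB (1 + u) u φ + (1 + u) * Gam u φ := by
  rw [HB_one_add, HB_comm u u φ]
  have hh := LocA_half
  have h1 : Gam (Gam u u) φ = 2 * HB u φ u := by
    unfold HB Gam
    rw [Finset.mul_sum]
    refine Finset.sum_congr rfl fun i _ => ?_
    rw [map_sum, Finset.sum_mul, Finset.mul_sum]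
    refine Finset.sum_congr rfl fun j _ => ?_
    rw [L_mul]
    ring
  unfold Gf
  rw [Gam_add_left, Gam_add_left, Gam_C_mul_left, Gam_C_mul_left, h1, Gam_mul_left]
  linear_combination (u * Gam u φ + HB u φ u) * hh

/-- From `Gam_Gf` and `EE_ibp`. -/
theorem QA_u (u φ : P) : QA (1 + u) u φ = - EE (Gf u * Lap φ) := by
  unfold QA
  rw [← Gam_Gf, EE_ibp, neg_neg]

end

end Pool.Agent.Lib.MP_dabcc9_gt
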