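import Pool.Agent.Lib.MP_dabcc9_gt.GeoA
import Pool.Agent.Lib.MP_dabcc9_gt.AlgB

/-! JOB R1. Gradient and second derivative bounds for support functions. -/

open MeasureTheory Metric Set MvPolynomial

namespace Pool.Agent.Lib.MP_dabcc9_gt

noncomputable section

theorem RefC_convSS {p : P} (hp : ConvS p) (ε : ℝ) (hε : 0 < ε) : ConvSS (p + C ε) := by
  intro x hx w hw0 hwx
  have h1 := hp x hx w hwx
  have h2 : ∀ i j, ev (L i (L j (p + C ε))) x = ev (L i (L j p)) x := by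
    intro i j
    rw [map_add, L_C, add_zero]
  simp only [h2, ev_add, ev_C]
  have h3 : 0 < ε * ‖w‖ ^ 2 := mul_pos hε (pow_pos (norm_pos_iff.2 hw0) 2)
  linarith

theorem RefC_Gp (p : P) (ε : ℝ) (x : E3) : Gp (p + C ε) x = Gp p x + ε • x := by
  have h1 : Lv (p + C ε) x = Lv p x := by
    unfold Lv
    simp only [map_add, L_C, add_zero]
  unfold Gp
  rw [h1, ev_add, ev_C, add_smul]
  abel

/-- Non-strict version of `support_ineq`: same proof with `φ'' + φ >= 0` (or apply `support_ineq` to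
`p + C ε`, which is `ConvSS`, and let `ε -> 0`; for `x = y` it is `inner_Gp_self`). -/
theorem support_le {p : P} (hp : ConvS p) (x y : E3) (hx : ‖x‖ = 1) (hy : ‖y‖ = 1) :
    inner ℝ (Gp p x) y ≤ ev p y := by
  by_cases hxy : x = y
  · subst hxy
    exact le_of_eq (inner_Gp_self p x hx)
  · have hin : -1 ≤ inner ℝ x y := by
      have := neg_le_of_abs_le (abs_real_inner_le_norm x y)
      rw [hx, hy] at this
      linarith
    apply le_of_forall_pos_lt_add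
    intro δ hδ
    have h1 := support_ineq (RefC_convSS hp (δ / 2) (by linarith)) x y hx hy hxy
    rw [RefC_Gp, ev_add, ev_C, inner_add_left, real_inner_smul_left] at h1
    nlinarith

theorem RefC_orth (p : P) (x : E3) :
    x 0 * ev (L 0 p) x + x 1 * ev (L 1 p) x + x 2 * ev (L 2 p) x = 0 := by
  have h1 := congrArg (fun q => ev q x) (sum_X_L p)
  simpa only [ev_add, ev_mul, ev_X, ev_zero, Fin.sum_univ_three] using h1

theorem RefC_normG (p : P) (x : E3) (hx : ‖x‖ = 1) :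
    ‖Gp p x‖ ^ 2 = ev p x ^ 2 + ev (Gam p p) x := by
  have h0 := RefC_orth p x
  have hx2 : x 0 ^ 2 + x 1 ^ 2 + x 2 ^ 2 = 1 := by
    rw [← norm_sq_eq3, hx]
    norm_num
  have hG : ev (Gam p p) x = ev (L 0 p) x ^ 2 + ev (L 1 p) x ^ 2 + ev (L 2 p) x ^ 2 := by
    simp only [Gam, ev_add, ev_mul, Fin.sum_univ_three]
    ring
  rw [norm_sq_eq3, hG]
  have c0 : (Gp p x) 0 = ev p x * x 0 + (ev (L 1 p) x * x 2 - ev (L 2 p) x * x 1) := by
    simp [Gp, cr, Lv]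
  have c1 : (Gp p x) 1 = ev p x * x 1 + (ev (L 2 p) x * x 0 - ev (L 0 p) x * x 2) := by
    simp [Gp, cr, Lv]
  have c2 : (Gp p x) 2 = ev p x * x 2 + (ev (L 0 p) x * x 1 - ev (L 1 p) x * x 0) := by
    simp [Gp, cr, Lv]
  rw [c0, c1, c2]
  linear_combination (ev p x ^ 2 + ev (L 0 p) x ^ 2 + ev (L 1 p) x ^ 2 + ev (L 2 p) x ^ 2) * hx2 -
    (x 0 * ev (L 0 p) x + x 1 * ev (L 1 p) x + x 2 * ev (L 2 p) x) * h0

/-- `|Gp p x|^2 = p(x)^2 + |grad p(x)|^2 <= (sup p)^2`: apply `support_le` with `y = Gp/|Gp|`;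
`‖cr (Lv p x) x‖^2 = ‖Lv p x‖^2 = ev (Gam p p) x` for unit `x` as `Lv p x ⊥ x` (`sum_X_L`). -/
theorem grad_bound {p : P} (hp : ConvS p) (B : ℝ) (hB : 0 ≤ B)
    (hsup : ∀ x : E3, ‖x‖ = 1 → ev p x ≤ B) (x : E3) (hx : ‖x‖ = 1) :
    ev p x ^ 2 + ev (Gam p p) x ≤ B ^ 2 := by
  rw [← RefC_normG p x hx]
  have h1 : ‖Gp p x‖ ≤ B := by
    by_cases hG : Gp p x = 0
    · rw [hG, norm_zero]
      exact hB
    · have hn : ‖Gp p x‖ ≠ 0 := norm_ne_zero_iff.2 hG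
      have hy : ‖(‖Gp p x‖⁻¹ • Gp p x)‖ = 1 := by
        rw [norm_smul, norm_inv, norm_norm]
        exact inv_mul_cancel₀ hn
      have h2 := support_le hp x _ hx hy
      have h3 := hsup _ hy
      rw [real_inner_smul_right, real_inner_self_eq_norm_sq] at h2
      have h4 : ‖Gp p x‖⁻¹ * ‖Gp p x‖ ^ 2 = ‖Gp p x‖ := by
        field_simp
      linarith
  exact pow_le_pow_left₀ (norm_nonneg _) h1 2

theorem RefC_core (p B W t xi K : ℝ) (hB : 0 ≤ B) (hW : W = 1 - xi ^ 2) (hW0 : 0 ≤ W)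
    (hK : 0 ≤ K) (ht : t ^ 2 ≤ W * K) (h : p ^ 2 + K ≤ B ^ 2) : p * W - xi * t ≤ B := by
  have h1 : (p * W - xi * t) ^ 2 ≤ p ^ 2 * W + t ^ 2 := by
    have h2 : p ^ 2 * W + t ^ 2 - (p * W - xi * t) ^ 2 = W * (p * xi + t) ^ 2 := by
      rw [hW]
      ring
    have h3 : 0 ≤ W * (p * xi + t) ^ 2 := mul_nonneg hW0 (sq_nonneg _)
    linarith
  have hW1 : W ≤ 1 := by
    rw [hW]
    linarith [sq_nonneg xi]
  have h4 : W * (p ^ 2 + K) ≤ 1 * (p ^ 2 + K) :=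
    mul_le_mul_of_nonneg_right hW1 (by positivity)
  have h5 : (p * W - xi * t) ^ 2 ≤ B ^ 2 := by nlinarith
  exact (abs_le_of_sq_le_sq' h5 hB).2

/-- real version of the estimate in the direction of the first coordinate -/
theorem RefC_dir (x0 x1 x2 l0 l1 l2 m00 m01 m02 m10 m11 m12 m20 m21 m22 p B : ℝ) (hB : 0 ≤ B)
    (hx : x0 ^ 2 + x1 ^ 2 + x2 ^ 2 = 1)
    (_hl : x0 * l0 + x1 * l1 + x2 * l2 = 0)
    (hg : p ^ 2 + (l0 ^ 2 + l1 ^ 2 + l2 ^ 2) ≤ B ^ 2)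
    (a0 : x0 * m00 + x1 * m10 + x2 * m20 = 0)
    (a1 : x0 * m01 + x1 * m11 + x2 * m21 = 0)
    (a2 : x0 * m02 + x1 * m12 + x2 * m22 = 0)
    (b0 : m00 * x0 + m01 * x1 + m02 * x2 = l1 * x2 - l2 * x1)
    (hc : 0 ≤ (1 - x0 * x0) * (1 - x0 * x0) * m00 + (1 - x0 * x0) * (- x0 * x1) * m01 +
      (1 - x0 * x0) * (- x0 * x2) * m02 + (- x0 * x1) * (1 - x0 * x0) * m10 +
      (- x0 * x1) * (- x0 * x1) * m11 + (- x0 * x1) * (- x0 * x2) * m12 +
      (- x0 * x2) * (1 - x0 * x0) * m20 + (- x0 * x2) * (- x0 * x1) * m21 +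
      (- x0 * x2) * (- x0 * x2) * m22 + p * (1 - x0 ^ 2)) : -B ≤ m00 := by
  have hW0 : 0 ≤ 1 - x0 ^ 2 := by nlinarith [sq_nonneg x1, sq_nonneg x2]
  have h1 : m00 = ((1 - x0 * x0) * (1 - x0 * x0) * m00 + (1 - x0 * x0) * (- x0 * x1) * m01 +
      (1 - x0 * x0) * (- x0 * x2) * m02 + (- x0 * x1) * (1 - x0 * x0) * m10 +
      (- x0 * x1) * (- x0 * x1) * m11 + (- x0 * x1) * (- x0 * x2) * m12 +
      (- x0 * x2) * (1 - x0 * x0) * m20 + (- x0 * x2) * (- x0 * x1) * m21 +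
      (- x0 * x2) * (- x0 * x2) * m22) + x0 * (l1 * x2 - l2 * x1) := by
    rw [← b0]
    linear_combination (x0 - x0 ^ 3) * a0 - x0 ^ 2 * x1 * a1 - x0 ^ 2 * x2 * a2
  have h2 : (l1 * x2 - l2 * x1) ^ 2 ≤ (1 - x0 ^ 2) * (l0 ^ 2 + l1 ^ 2 + l2 ^ 2) := by
    have e1 : 1 - x0 ^ 2 = x1 ^ 2 + x2 ^ 2 := by linarith
    rw [e1]
    nlinarith [sq_nonneg (l1 * x1 + l2 * x2), mul_nonneg (add_nonneg (sq_nonneg x1) (sq_nonneg x2))
      (sq_nonneg l0)]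
  have h3 := RefC_core p B (1 - x0 ^ 2) (l1 * x2 - l2 * x1) x0 (l0 ^ 2 + l1 ^ 2 + l2 ^ 2) hB rfl
    hW0 (by positivity) h2 hg
  rw [h1]
  linarith

theorem RefC_Mx (p : P) (x : E3) (j : Fin 3) :
    ev (L j (L j p)) x * x j + ev (L j (L (j + 1) p)) x * x (j + 1) +
      ev (L j (L (j + 2) p)) x * x (j + 2) =
    ev (L (j + 1) p) x * x (j + 2) - ev (L (j + 2) p) x * x (j + 1) := by
  have h0 : X j * L j p + X (j + 1) * L (j + 1) p + X (j + 2) * L (j + 2) p = (0 : P) := by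
    have h1 := sum_X_L p
    rw [Fin.sum_univ_three] at h1
    fin_cases j
    · exact h1
    · rw [← h1]
      change X 1 * L 1 p + X 2 * L 2 p + X 0 * L 0 p = _
      ring
    · rw [← h1]
      change X 2 * L 2 p + X 0 * L 0 p + X 1 * L 1 p = _
      ring
  have h2 := congrArg (fun q => ev (L j q) x) h0
  simp only [map_add, L_mul, L_X_self, L_X_one, L_X_two, map_zero, ev_add, ev_mul, ev_X, ev_neg,
    ev_zero] at h2
  linarith

/-- `L i (L i p) >= -B` on the sphere.  PROOF.  `e_i = w + x_i x` with `w ⊥ x`,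
`M_jk = (L j L k p)(x)`, `x^T M = 0` (`sum_X_L`), `M x = - ∑_k (L j x_k) L k p`, of norm
`<= |Lv p x|`; so `M_ii = w^T M w + x_i w^T M x >= - p |w|^2 - |x_i| |w| |grad p|
>= - |w| sqrt (p^2 + |grad p|^2) >= - B` (Cauchy-Schwarz, `|w|^2 + x_i^2 = 1`; if `p(x) < 0` the first
term helps: use `p |w|^2 <= |p| |w|^2`). -/
theorem LL_lower {p : P} (hp : ConvS p) (B : ℝ) (hB : 0 ≤ B)
    (hsup : ∀ x : E3, ‖x‖ = 1 → ev p x ≤ B) (i : Fin 3) (x : E3) (hx : ‖x‖ = 1) :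
    -B ≤ ev (L i (L i p)) x := by
  have hx2 : x 0 ^ 2 + x 1 ^ 2 + x 2 ^ 2 = 1 := by
    rw [← norm_sq_eq3, hx]
    norm_num
  have hg := grad_bound hp B hB hsup x hx
  have hG : ev (Gam p p) x = ev (L 0 p) x ^ 2 + ev (L 1 p) x ^ 2 + ev (L 2 p) x ^ 2 := by
    simp only [Gam, ev_add, ev_mul, Fin.sum_univ_three]
    ring
  rw [hG] at hg
  have hl := RefC_orth p x
  have a0 := RefC_orth (L 0 p) x
  have a1 := RefC_orth (L 1 p) x
  have a2 := RefC_orth (L 2 p) x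
  have key : ∀ w : E3, inner ℝ w x = 0 → 0 ≤ (∑ i, ∑ j, w i * w j * ev (L i (L j p)) x) +
      ev p x * ‖w‖ ^ 2 := hp x hx
  fin_cases i
  · change -B ≤ ev (L 0 (L 0 p)) x
    have h1 := key (!₂[1 - x 0 * x 0, - x 0 * x 1, - x 0 * x 2]) (by
      rw [inner_eq3]
      simp
      linear_combination (- x 0) * hx2)
    rw [norm_sq_eq3] at h1
    simp only [Fin.sum_univ_three] at h1
    simp at h1
    have b0 := RefC_Mx p x 0
    change ev (L 0 (L 0 p)) x * x 0 + ev (L 0 (L 1 p)) x * x 1 + ev (L 0 (L 2 p)) x * x 2 =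
      ev (L 1 p) x * x 2 - ev (L 2 p) x * x 1 at b0
    refine RefC_dir (x 0) (x 1) (x 2) _ _ _ _ _ _ _ _ _ _ _ _ (ev p x) B hB hx2 hl hg a0 a1 a2
      b0 ?_
    have e1 : (1 - x 0 * x 0) ^ 2 + (x 0 * x 1) ^ 2 + (x 0 * x 2) ^ 2 = 1 - x 0 ^ 2 := by
      linear_combination (x 0 ^ 2) * hx2
    rw [e1] at h1
    linarith
  · change -B ≤ ev (L 1 (L 1 p)) x
    have h1 := key (!₂[- x 1 * x 0, 1 - x 1 * x 1, - x 1 * x 2]) (by
      rw [inner_eq3]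
      simp
      linear_combination (- x 1) * hx2)
    rw [norm_sq_eq3] at h1
    simp only [Fin.sum_univ_three] at h1
    simp at h1
    have b0 := RefC_Mx p x 1
    change ev (L 1 (L 1 p)) x * x 1 + ev (L 1 (L 2 p)) x * x 2 + ev (L 1 (L 0 p)) x * x 0 =
      ev (L 2 p) x * x 0 - ev (L 0 p) x * x 2 at b0
    refine RefC_dir (x 1) (x 2) (x 0) _ _ _ _ _ _ _ _ _ _ _ _ (ev p x) B hB (by linarith)
      (by linarith : x 1 * ev (L 1 p) x + x 2 * ev (L 2 p) x + x 0 * ev (L 0 p) x = 0)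
      (by linarith) (by linarith : x 1 * ev (L 1 (L 1 p)) x + x 2 * ev (L 2 (L 1 p)) x +
        x 0 * ev (L 0 (L 1 p)) x = 0)
      (by linarith : x 1 * ev (L 1 (L 2 p)) x + x 2 * ev (L 2 (L 2 p)) x +
        x 0 * ev (L 0 (L 2 p)) x = 0)
      (by linarith : x 1 * ev (L 1 (L 0 p)) x + x 2 * ev (L 2 (L 0 p)) x +
        x 0 * ev (L 0 (L 0 p)) x = 0) b0 ?_
    have e1 : (x 1 * x 0) ^ 2 + (1 - x 1 * x 1) ^ 2 + (x 1 * x 2) ^ 2 = 1 - x 1 ^ 2 := by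
      linear_combination (x 1 ^ 2) * hx2
    rw [e1] at h1
    linarith
  · change -B ≤ ev (L 2 (L 2 p)) x
    have h1 := key (!₂[- x 2 * x 0, - x 2 * x 1, 1 - x 2 * x 2]) (by
      rw [inner_eq3]
      simp
      linear_combination (- x 2) * hx2)
    rw [norm_sq_eq3] at h1
    simp only [Fin.sum_univ_three] at h1
    simp at h1
    have b0 := RefC_Mx p x 2
    change ev (L 2 (L 2 p)) x * x 2 + ev (L 2 (L 0 p)) x * x 0 + ev (L 2 (L 1 p)) x * x 1 =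
      ev (L 0 p) x * x 1 - ev (L 1 p) x * x 0 at b0
    refine RefC_dir (x 2) (x 0) (x 1) _ _ _ _ _ _ _ _ _ _ _ _ (ev p x) B hB (by linarith)
      (by linarith : x 2 * ev (L 2 p) x + x 0 * ev (L 0 p) x + x 1 * ev (L 1 p) x = 0)
      (by linarith) (by linarith : x 2 * ev (L 2 (L 2 p)) x + x 0 * ev (L 0 (L 2 p)) x +
        x 1 * ev (L 1 (L 2 p)) x = 0)
      (by linarith : x 2 * ev (L 2 (L 0 p)) x + x 0 * ev (L 0 (L 0 p)) x +
        x 1 * ev (L 1 (L 0 p)) x = 0)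
      (by linarith : x 2 * ev (L 2 (L 1 p)) x + x 0 * ev (L 0 (L 1 p)) x +
        x 1 * ev (L 1 (L 1 p)) x = 0) b0 ?_
    have e1 : (x 2 * x 0) ^ 2 + (x 2 * x 1) ^ 2 + (1 - x 2 * x 2) ^ 2 = 1 - x 2 ^ 2 := by
      linear_combination (x 2 ^ 2) * hx2
    rw [e1] at h1
    linarith

end

end Pool.Agent.Lib.MP_dabcc9_gt
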