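import Pool.Agent.Lib.MP_dabcc9_gt.LocA
import Pool.Agent.Lib.MP_dabcc9_gt.GeoD
import Pool.Agent.Lib.MP_dabcc9_gt.RefC

/-! JOB L2.  The determinant certificate. -/

open MvPolynomial

namespace Pool.Agent.Lib.MP_dabcc9_gt

noncomputable section

theorem LocB_Gam_one (u c : P) : Gam (1 + u) c = Gam u c := by
  have h1 : (1 : P) = C 1 := C_1.symm
  rw [h1, Gam_add_left, Gam_C_left, zero_add]

theorem LocB_Lap_one (u : P) : Lap (1 + u) = Lap u := by
  have h1 : (1 : P) = C 1 := C_1.symm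
  rw [h1, Lap_add, Lap_C, zero_add]

theorem LocB_Gam_sub (u c : P) (l : ℝ) : Gam (u - C l) c = Gam u c := by
  rw [Gam_sub_left, Gam_C_left, sub_zero]

theorem LocB_Lap_sub (u : P) (l : ℝ) : Lap (u - C l) = Lap u := by
  rw [Lap_sub, Lap_C, sub_zero]

theorem LocB_half2 : (2 : P) * C (1 / 2) = 1 := by
  have h2 : (2 : P) = C (2 : ℝ) := (map_ofNat C 2).symm
  rw [h2, ← C_mul, show (2 : ℝ) * (1 / 2) = 1 by norm_num, C_1]

/-- PROOF.  `f = u - C l`, `g = Gam u u`, `p = 1 + u`: `Gam p p = g`, `Lap p = Lap u`,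
`Gam (f f) p = 2 f g`, `Lap (f f) = 2 f Lap u + 2 g`, `Gam f u = g`.  `EE_a_detA` with `a = f f`:
`E[f f detA p] = E[f f p Lap u] + E[f f p p] - 1/4 E[(2 f Lap u + 2 g) g] - 1/2 E[2 f g Lap u]
  + 1/2 E[f f g]`.  By `EE_ibp`: `E[f f p Lap u] = - 2 E[f p g] - E[f f g]`,
`E[f g Lap u] = - E[g g] - E[f Gam g u]`, `Gam g u = 2 HQ u u` (as in `Gam_Gf`:
`Gam (Gam u u) u = 2 HB u u u`).  Total `E[g g] - 2 E[f p g] - 1/2 E[f f g] + E[f f p p]
  + 3 E[f HQ u u]`, which is the claim with `g = 2 s`. -/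
theorem cert_ident (u : P) (l : ℝ) :
    EE ((u - C l) * (u - C l) * detA (1 + u)) =
      4 * EE (C (1 / 2) * Gam u u * (C (1 / 2) * Gam u u))
      - 10 * EE ((u - C l) * (1 + u) * (C (1 / 2) * Gam u u))
      + EE ((u - C l) * (u - C l) * ((1 + u) * (1 + u)))
      - EE ((u - C l) * (u - C l) * (C (1 / 2) * Gam u u))
      + 3 * EE ((u - C l) * (HQ u u + (1 + u) * Gam u u)) := by
  set f : P := u - C l with hf
  set g : P := Gam u u with hg
  have hff : Gam f f = g := by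
    rw [hf, LocB_Gam_sub, Gam_comm, LocB_Gam_sub]
  have hfu : Gam f u = g := by
    rw [hf, LocB_Gam_sub]
  have hpp : Gam (1 + u) (1 + u) = g := by
    rw [LocB_Gam_one, Gam_comm, LocB_Gam_one]
  have hLp : Lap (1 + u) = Lap u := LocB_Lap_one u
  have hLf : Lap f = Lap u := LocB_Lap_sub u l
  have hffp : Gam (f * f) (1 + u) = 2 * (f * g) := by
    rw [Gam_comm, LocB_Gam_one, Gam_comm, Gam_mul_left, hfu]
    ring
  have hLff : Lap (f * f) = 2 * (f * Lap u) + 2 * g := by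
    rw [Lap_mul, hLf, hff]
    ring
  -- the term `E[f g Lap u]`
  have hfg : EE (f * g * Lap u) = - (2 * EE (f * HQ u u)) - EE (g * g) := by
    rw [EE_ibp3, hfu]
    have h1 : Gam g u = 2 * HQ u u := by
      rw [HQ_eq u u, ← hg, Gam_comm u g]
      linear_combination (Gam g u) * LocB_half2
    have h2 : f * Gam g u = 2 * (f * HQ u u) := by
      rw [h1]
      ring
    rw [h2, EE_two_mul]
  have hT1 : EE (f * f * (1 + u) * Lap u) = - (2 * EE (f * (1 + u) * g)) - EE (f * f * g) := by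
    rw [EE_ibp]
    have h1 : Gam (f * f * (1 + u)) u = 2 * (f * (1 + u) * g) + f * f * g := by
      rw [Gam_mul_left, LocB_Gam_one, ← hg, Gam_mul_left, hfu]
      ring
    rw [h1, EE_add, EE_two_mul]
    ring
  have hT3 : EE (Lap (f * f) * g) = 2 * EE (f * g * Lap u) + 2 * EE (g * g) := by
    have h1 : Lap (f * f) * g = 2 * (f * g * Lap u) + 2 * (g * g) := by
      rw [hLff]
      ring
    rw [h1, EE_add, EE_two_mul, EE_two_mul]
  have hT4 : EE (Gam (f * f) (1 + u) * Lap u) = 2 * EE (f * g * Lap u) := by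
    have h1 : Gam (f * f) (1 + u) * Lap u = 2 * (f * g * Lap u) := by
      rw [hffp]
      ring
    rw [h1, EE_two_mul]
  rw [EE_a_detA, hpp, hLp, hT1, hT3, hT4, hfg]
  have e1 : EE (C (1 / 2) * g * (C (1 / 2) * g)) = 1 / 4 * EE (g * g) := by
    have h1 : C (1 / 2) * g * (C (1 / 2) * g) = C (1 / 2) * (C (1 / 2) * (g * g)) := by ring
    rw [h1, EE_C_mul, EE_C_mul]
    ring
  have e2 : EE (f * (1 + u) * (C (1 / 2) * g)) = 1 / 2 * EE (f * (1 + u) * g) := by
    have h1 : f * (1 + u) * (C (1 / 2) * g) = C (1 / 2) * (f * (1 + u) * g) := by ring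
    rw [h1, EE_C_mul]
  have e3 : EE (f * f * (C (1 / 2) * g)) = 1 / 2 * EE (f * f * g) := by
    have h1 : f * f * (C (1 / 2) * g) = C (1 / 2) * (f * f * g) := by ring
    rw [h1, EE_C_mul]
  have e4 : EE (f * (HQ u u + (1 + u) * g)) = EE (f * HQ u u) + EE (f * (1 + u) * g) := by
    have h1 : f * (HQ u u + (1 + u) * g) = f * HQ u u + f * (1 + u) * g := by ring
    rw [h1, EE_add]
  have e5 : EE (f * f * ((1 + u) * (1 + u))) = EE (f * f * (1 + u) * (1 + u)) := by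
    congr 1
    ring
  rw [e1, e2, e3, e4, e5]
  ring

/-- Non-strict version of `detA_pos`.  PROOF: for `ε > 0` the polynomial `p + C ε` is `ConvSS`
(`RefC_convSS`), `detA_pos` and `detA_add_C`; let `ε -> 0`. -/
theorem detA_nonneg {p : P} (hp : ConvS p) (x : E3) (hx : ‖x‖ = 1) : 0 ≤ ev (detA p) x := by
  have h1 : ∀ ε : ℝ, 0 < ε →
      0 < ev (detA p) x + ε * ev (Lap p + 2 * p) x + ε ^ 2 := by
    intro ε hε
    have h2 := detA_pos (RefC_convSS hp ε hε) x hx
    rw [detA_add_C, ev_add, ev_add, ev_mul, ev_C, ev_C] at h2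
    exact h2
  have h3 : Filter.Tendsto (fun ε : ℝ => ev (detA p) x + ε * ev (Lap p + 2 * p) x + ε ^ 2)
      (nhdsWithin 0 (Set.Ioi 0)) (nhds (ev (detA p) x)) := by
    have h4 : Continuous (fun ε : ℝ => ev (detA p) x + ε * ev (Lap p + 2 * p) x + ε ^ 2) := by
      fun_prop
    have h5 := h4.tendsto 0
    have h6 : ev (detA p) x + 0 * ev (Lap p + 2 * p) x + (0 : ℝ) ^ 2 = ev (detA p) x := by ring
    rw [h6] at h5
    exact h5.mono_left nhdsWithin_le_nhds
  refine ge_of_tendsto h3 ?_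
  filter_upwards [self_mem_nhdsWithin] with ε hε
  exact (h1 ε hε).le

/-- `E[(u - l)^2 detA (1 + u)] >= 0`. -/
theorem cert_nonneg {u : P} (hp : ConvS (1 + u)) (l : ℝ) :
    0 ≤ 4 * EE (C (1 / 2) * Gam u u * (C (1 / 2) * Gam u u))
      - 10 * EE ((u - C l) * (1 + u) * (C (1 / 2) * Gam u u))
      + EE ((u - C l) * (u - C l) * ((1 + u) * (1 + u)))
      - EE ((u - C l) * (u - C l) * (C (1 / 2) * Gam u u))
      + 3 * EE ((u - C l) * (HQ u u + (1 + u) * Gam u u)) := by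
  rw [← cert_ident]
  refine EE_nonneg fun x hx => ?_
  rw [ev_mul, ev_mul]
  exact mul_nonneg (mul_self_nonneg _) (detA_nonneg hp x hx)

end

end Pool.Agent.Lib.MP_dabcc9_gt
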