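import Pool.Agent.Lib.MP_dabcc9_gt.RefC
import Pool.Agent.Lib.MP_dabcc9_gt.SphC

/-! JOB L3.  Support functions with small mean square are small. -/

open MeasureTheory Metric Set MvPolynomial

namespace Pool.Agent.Lib.MP_dabcc9_gt

noncomputable section

theorem LocD_one {p : P} (hp : ConvS p) (B : ℝ) (hB : 0 ≤ B)
    (hsup : ∀ x : E3, ‖x‖ = 1 → ev p x ≤ B) (x y : E3) (hx : ‖x‖ = 1) (hy : ‖y‖ = 1) :
    ev p x - ev p y ≤ B * ‖x - y‖ := by
  have h1 := support_le hp x y hx hy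
  have h2 := inner_Gp_self p x hx
  have h3 : ‖Gp p x‖ ≤ B := by
    have h4 := grad_bound hp B hB hsup x hx
    rw [← RefC_normG p x hx] at h4
    exact (pow_le_pow_iff_left₀ (norm_nonneg _) hB (by norm_num)).1 h4
  have h5 : inner ℝ (Gp p x) (x - y) ≤ ‖Gp p x‖ * ‖x - y‖ := real_inner_le_norm _ _
  rw [inner_sub_right] at h5
  have h6 : ‖Gp p x‖ * ‖x - y‖ ≤ B * ‖x - y‖ := mul_le_mul_of_nonneg_right h3 (norm_nonneg _)
  linarith

/-- PROOF.  `support_le`: `<Gp p x, y> <= p y`, `<Gp p x, x> = p x` (`inner_Gp_self`), so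
`p x - p y <= <Gp p x, x - y> <= ‖Gp p x‖ ‖x - y‖`, `‖Gp p x‖^2 = p(x)^2 + Gam <= B^2`
(`RefC_normG`, `grad_bound`); exchange `x`, `y`. -/
theorem lip {p : P} (hp : ConvS p) (B : ℝ) (hB : 0 ≤ B)
    (hsup : ∀ x : E3, ‖x‖ = 1 → ev p x ≤ B) (x y : E3) (hx : ‖x‖ = 1) (hy : ‖y‖ = 1) :
    |ev p x - ev p y| ≤ B * ‖x - y‖ := by
  rw [abs_le]
  have h1 := LocD_one hp B hB hsup x y hx hy
  have h2 := LocD_one hp B hB hsup y x hy hx
  rw [norm_sub_rev y x] at h2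
  constructor <;> linarith

/-- PROOF.  `τ = |u x0|`, `F z = (max 0 (τ - B sqrt (2 - 2 z)))^2`.  For unit `y`:
`‖y - x0‖^2 = 2 - 2 <y, x0>`, so `u(y)^2 >= F <y, x0>`.  `av_height`:
`E[u u] >= 1/2 ∫_{-1}^1 F`, and `F >= τ^2/4` on `[1 - τ^2/(8 B^2), 1]` (there
`sqrt (2 - 2z) <= τ/(2B)`), `F >= 0`; `τ <= B` so the interval lies in `[-1, 1]`.  Hence
`E[u u] >= 1/2 * τ^2/(8 B^2) * τ^2/4`. -/
theorem sup_quartic (u : P) (B : ℝ) (hB : 0 < B)
    (hlip : ∀ x y : E3, ‖x‖ = 1 → ‖y‖ = 1 → |ev u x - ev u y| ≤ B * ‖x - y‖) (x0 : E3)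
    (hx0 : ‖x0‖ = 1) (hb : |ev u x0| ≤ B) : ev u x0 ^ 4 ≤ 64 * B ^ 2 * EE (u * u) := by
  set τ : ℝ := |ev u x0| with hτ
  have hτ0 : 0 ≤ τ := abs_nonneg _
  set F : ℝ → ℝ := fun z => (max 0 (τ - B * Real.sqrt (2 - 2 * z))) ^ 2 with hF
  have hFc : Continuous F := by
    rw [hF]
    fun_prop
  have hF0 : ∀ z, 0 ≤ F z := fun z => sq_nonneg _
  have h1 : av (fun x => F (inner ℝ x x0)) ≤ EE (u * u) := by
    unfold EE
    refine av_mono ?_ (continuous_ev (u * u)).continuousOn ?_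
    · exact (hFc.comp (by fun_prop)).continuousOn
    · intro x hx
      rw [ev_mul]
      have h2 : ‖x - x0‖ ^ 2 = 2 - 2 * inner ℝ x x0 := by
        rw [norm_sub_sq_real, hx, hx0]
        ring
      have h3 : Real.sqrt (2 - 2 * inner ℝ x x0) = ‖x - x0‖ := by
        rw [← h2, Real.sqrt_sq (norm_nonneg _)]
      have h4 := hlip x0 x hx0 hx
      rw [norm_sub_rev] at h4
      have h5 : τ - B * ‖x - x0‖ ≤ |ev u x| := by
        have := abs_sub_abs_le_abs_sub (ev u x0) (ev u x)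
        linarith
      show (max 0 (τ - B * Real.sqrt (2 - 2 * inner ℝ x x0))) ^ 2 ≤ ev u x * ev u x
      rw [h3]
      have h6 : max 0 (τ - B * ‖x - x0‖) ≤ |ev u x| := max_le (abs_nonneg _) h5
      calc (max 0 (τ - B * ‖x - x0‖)) ^ 2 ≤ |ev u x| ^ 2 :=
            pow_le_pow_left₀ (le_max_left _ _) h6 2
        _ = ev u x * ev u x := by rw [sq_abs]; ring
  rw [av_height hFc.continuousOn x0 hx0] at h1
  set a : ℝ := 1 - τ ^ 2 / (8 * B ^ 2) with ha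
  have hd0 : 0 ≤ τ ^ 2 / (8 * B ^ 2) := by positivity
  have hd1 : τ ^ 2 / (8 * B ^ 2) ≤ 1 / 8 := by
    rw [div_le_div_iff₀ (by positivity) (by norm_num)]
    nlinarith
  have ha1 : a ≤ 1 := by linarith
  have ha2 : -1 ≤ a := by linarith
  have h2 : ∫ z in (-1 : ℝ)..1, F z = (∫ z in (-1 : ℝ)..a, F z) + ∫ z in a..1, F z :=
    (intervalIntegral.integral_add_adjacent_intervals (hFc.intervalIntegrable _ _)
      (hFc.intervalIntegrable _ _)).symm
  have h3 : 0 ≤ ∫ z in (-1 : ℝ)..a, F z :=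
    intervalIntegral.integral_nonneg ha2 fun z _ => hF0 z
  have h4 : ∫ z in a..1, (τ ^ 2 / 4) ≤ ∫ z in a..1, F z := by
    apply intervalIntegral.integral_mono_on ha1 (continuous_const.intervalIntegrable _ _)
      (hFc.intervalIntegrable _ _)
    intro z hz
    have h5 : Real.sqrt (2 - 2 * z) ≤ τ / (2 * B) := by
      rw [Real.sqrt_le_left (by positivity)]
      have h6 : (τ / (2 * B)) ^ 2 = 2 * (τ ^ 2 / (8 * B ^ 2)) := by
        field_simp
        ring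
      rw [h6]
      linarith [hz.1]
    have h7 : τ / 2 ≤ τ - B * Real.sqrt (2 - 2 * z) := by
      have h8 := mul_le_mul_of_nonneg_left h5 hB.le
      have h9 : B * (τ / (2 * B)) = τ / 2 := by
        field_simp
      linarith
    have h8 : τ / 2 ≤ max 0 (τ - B * Real.sqrt (2 - 2 * z)) := h7.trans (le_max_right _ _)
    calc τ ^ 2 / 4 = (τ / 2) ^ 2 := by ring
      _ ≤ F z := pow_le_pow_left₀ (by positivity) h8 2
  rw [intervalIntegral.integral_const, smul_eq_mul] at h4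
  have h5 : (1 - a) * (τ ^ 2 / 4) = τ ^ 4 / (32 * B ^ 2) := by
    rw [ha]
    field_simp
    ring
  rw [h5] at h4
  have h6 : ev u x0 ^ 4 = τ ^ 4 := by
    rw [hτ, ← abs_pow, abs_of_nonneg (by positivity)]
  rw [h6]
  have h7 : τ ^ 4 / (32 * B ^ 2) * (32 * B ^ 2) = τ ^ 4 := by
    field_simp
  have h8 : τ ^ 4 / (32 * B ^ 2) ≤ 2 * EE (u * u) := by linarith
  have h9 := mul_le_mul_of_nonneg_right h8 (by positivity : 0 ≤ 32 * B ^ 2)
  linarith

/-- `grad_bound` with `B = 1 + τ`: `Gam <= (1 + τ)^2 - (1 - τ)^2 = 4 τ`. -/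
theorem grad_small {p : P} (hp : ConvS p) (τ : ℝ) (h0 : 0 ≤ τ) (h1 : τ ≤ 1)
    (h : ∀ x : E3, ‖x‖ = 1 → |ev p x - 1| ≤ τ) (x : E3) (hx : ‖x‖ = 1) :
    ev (Gam p p) x ≤ 4 * τ := by
  have h2 := grad_bound hp (1 + τ) (by linarith) (fun y hy => by
    have := (abs_le.1 (h y hy)).2
    linarith) x hx
  have h3 := (abs_le.1 (h x hx)).1
  nlinarith

end

end Pool.Agent.Lib.MP_dabcc9_gt
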