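import Pool.Agent.Lib.MP_dabcc9_gt.LocA

/-! JOB L4.  The quadratic form is close to the Dirichlet form. -/

open MvPolynomial

namespace Pool.Agent.Lib.MP_dabcc9_gt

noncomputable section

private theorem LocE_id (u φ : P) : EE (HQ u φ) =
    - EE (Lap φ * Gam u φ) - EE (∑ i, ∑ j, L j u * L i φ * L i (L j φ)) := by
  have h1 : HQ u φ + Lap φ * Gam u φ + ∑ i, ∑ j, L j u * L i φ * L i (L j φ) =
      ∑ i, ∑ j, L i (L i φ * L j φ * L j u) := by
    unfold HQ Lap Gam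
    simp only [Fin.sum_univ_three, L_mul]
    ring
  have h2 : EE (HQ u φ + Lap φ * Gam u φ + ∑ i, ∑ j, L j u * L i φ * L i (L j φ)) = 0 := by
    rw [h1, EE_sum]
    refine Finset.sum_eq_zero fun i _ => ?_
    rw [EE_sum]
    exact Finset.sum_eq_zero fun j _ => EE_L i _
  rw [EE_add, EE_add] at h2
  linarith

private theorem LocE_abs {a b : P} (h : ∀ x : E3, ‖x‖ = 1 → |ev a x| ≤ ev b x) : |EE a| ≤ EE b := by
  rw [abs_le]
  constructor
  · have h1 : EE (-a) ≤ EE b := EE_mono fun x hx => by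
      rw [ev_neg]
      have := abs_le.1 (h x hx)
      linarith [this.1]
    rw [EE_neg] at h1
    linarith
  · exact EE_mono fun x hx => le_trans (le_abs_self _) (h x hx)

private theorem LocE_ev_Gam (a b : P) (x : E3) : ev (Gam a b) x = ∑ i, ev (L i a) x * ev (L i b) x := by
  unfold Gam
  rw [ev_sum]
  exact Finset.sum_congr rfl fun i _ => ev_mul _ _ _

private theorem LocE_cs1 (u φ : P) (x : E3) :
    ev (Gam u φ) x ^ 2 ≤ ev (Gam u u) x * ev (Gam φ φ) x := by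
  rw [LocE_ev_Gam, LocE_ev_Gam, LocE_ev_Gam]
  have h := Finset.sum_mul_sq_le_sq_mul_sq Finset.univ (fun i : Fin 3 => ev (L i u) x)
    (fun i => ev (L i φ) x)
  simpa [sq] using h

private theorem LocE_cs2 (u φ : P) (x : E3) :
    ev (∑ i, ∑ j, L j u * L i φ * L i (L j φ)) x ^ 2 ≤
      (ev (Gam u u) x * ev (Gam φ φ) x) * ev (SS φ φ) x := by
  have h := Finset.sum_mul_sq_le_sq_mul_sq (Finset.univ ×ˢ Finset.univ : Finset (Fin 3 × Fin 3))
    (fun q => ev (L q.2 u) x * ev (L q.1 φ) x) (fun q => ev (L q.1 (L q.2 φ)) x)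
  have e1 : ev (∑ i, ∑ j, L j u * L i φ * L i (L j φ)) x =
      ∑ q ∈ (Finset.univ ×ˢ Finset.univ : Finset (Fin 3 × Fin 3)),
        ev (L q.2 u) x * ev (L q.1 φ) x * ev (L q.1 (L q.2 φ)) x := by
    rw [Finset.sum_product, ev_sum]
    refine Finset.sum_congr rfl fun i _ => ?_
    rw [ev_sum]
    exact Finset.sum_congr rfl fun j _ => by rw [ev_mul, ev_mul]
  have e2 : ev (Gam u u) x * ev (Gam φ φ) x =
      ∑ q ∈ (Finset.univ ×ˢ Finset.univ : Finset (Fin 3 × Fin 3)),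
        (ev (L q.2 u) x * ev (L q.1 φ) x) ^ 2 := by
    rw [Finset.sum_product, LocE_ev_Gam, LocE_ev_Gam, mul_comm, Finset.sum_mul]
    refine Finset.sum_congr rfl fun i _ => ?_
    rw [Finset.mul_sum]
    exact Finset.sum_congr rfl fun j _ => by ring
  have e3 : ev (SS φ φ) x =
      ∑ q ∈ (Finset.univ ×ˢ Finset.univ : Finset (Fin 3 × Fin 3)), ev (L q.1 (L q.2 φ)) x ^ 2 := by
    rw [Finset.sum_product]
    unfold SS
    rw [ev_sum]
    refine Finset.sum_congr rfl fun i _ => ?_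
    rw [ev_sum]
    exact Finset.sum_congr rfl fun j _ => by rw [ev_mul]; ring
  rw [e1, e2, e3]
  exact h

/-- `r^2 <= T^2 g k` implies `|r| <= T/2 (g + k)`. -/
private theorem LocE_amgm {r T g k : ℝ} (hT : 0 ≤ T) (hg : 0 ≤ g) (hk : 0 ≤ k)
    (h : r ^ 2 ≤ T ^ 2 * (g * k)) : |r| ≤ T / 2 * (g + k) := by
  apply abs_le_of_sq_le_sq
  · have h1 : T ^ 2 * (g * k) ≤ (T / 2 * (g + k)) ^ 2 := by
      have h2 : 0 ≤ T ^ 2 * (g - k) ^ 2 := by positivity
      nlinarith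
    linarith
  · positivity

private theorem LocE_SS_nonneg (φ : P) (x : E3) : 0 ≤ ev (SS φ φ) x := by
  unfold SS
  rw [ev_sum]
  refine Finset.sum_nonneg fun i _ => ?_
  rw [ev_sum]
  refine Finset.sum_nonneg fun j _ => ?_
  rw [ev_mul]
  exact mul_self_nonneg _

/-- PROOF.  Integration by parts (`EE_L_eq_zero` type fact `EE (L i q) = 0` of `RotB`, or `EE_ibp`):
`E[HQ u φ] = ∑_ij E[L i φ L j φ L i (L j u)] = - E[Lap φ * Gam u φ] - E[∑_ij L j u * L i φ * L i (L j φ)]`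
(checked in exact arithmetic).  Pointwise on the sphere with Cauchy-Schwarz:
`|Lap φ Gam u φ| <= |Lap φ| sqrt(Gam u u) sqrt(Gam φ φ) <= T/2 (Gam φ φ + (Lap φ)^2)` and
`|∑_ij L j u L i φ L i (L j φ)| <= sqrt(Gam u u) sqrt(Gam φ φ) sqrt(SS φ φ) <= T/2 (Gam φ φ + SS φ φ)`;
average and use `EE_SS`: `E[SS φ φ] = E[(Lap φ)^2]`. -/
theorem EE_HQ_le (u φ : P) (T : ℝ) (hT : 0 ≤ T)
    (h : ∀ x : E3, ‖x‖ = 1 → ev (Gam u u) x ≤ T ^ 2) :
    |EE (HQ u φ)| ≤ T * (EE (Gam φ φ) + EE (Lap φ * Lap φ)) := by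
  have h1 : |EE (Lap φ * Gam u φ)| ≤ EE (C (T / 2) * (Gam φ φ + Lap φ * Lap φ)) := by
    apply LocE_abs
    intro x hx
    rw [ev_mul, ev_mul, ev_C, ev_add, ev_mul]
    have hg := Gam_nonneg φ x
    have hc := LocE_cs1 u φ x
    apply LocE_amgm hT hg (mul_self_nonneg _)
    have h2 : ev (Gam u φ) x ^ 2 ≤ T ^ 2 * ev (Gam φ φ) x :=
      le_trans hc (mul_le_mul_of_nonneg_right (h x hx) hg)
    calc (ev (Lap φ) x * ev (Gam u φ) x) ^ 2 = ev (Lap φ) x ^ 2 * ev (Gam u φ) x ^ 2 := by ring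
      _ ≤ ev (Lap φ) x ^ 2 * (T ^ 2 * ev (Gam φ φ) x) := by gcongr
      _ = _ := by ring
  have h2 : |EE (∑ i, ∑ j, L j u * L i φ * L i (L j φ))| ≤
      EE (C (T / 2) * (Gam φ φ + SS φ φ)) := by
    apply LocE_abs
    intro x hx
    rw [ev_mul, ev_C, ev_add]
    have hg := Gam_nonneg φ x
    have hs := LocE_SS_nonneg φ x
    have hc := LocE_cs2 u φ x
    apply LocE_amgm hT hg hs
    refine le_trans hc ?_
    have h3 := h x hx
    calc ev (Gam u u) x * ev (Gam φ φ) x * ev (SS φ φ) x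
        ≤ T ^ 2 * ev (Gam φ φ) x * ev (SS φ φ) x := by gcongr
      _ = _ := by ring
  rw [EE_C_mul, EE_add] at h1 h2
  rw [EE_SS] at h2
  rw [LocE_id]
  have h3 := abs_sub (- EE (Lap φ * Gam u φ)) (EE (∑ i, ∑ j, L j u * L i φ * L i (L j φ)))
  rw [abs_neg] at h3
  linarith

/-- From `EE_HQ_le`: `QA (1+u) φ φ = EE (HQ u φ) + EE (Gam φ φ) + EE (u * Gam φ φ)`. -/
theorem QA_close (u φ : P) (τ T : ℝ) (hT : 0 ≤ T)
    (h : ∀ x : E3, ‖x‖ = 1 → ev (Gam u u) x ≤ T ^ 2) (hs : ∀ x : E3, ‖x‖ = 1 → |ev u x| ≤ τ) :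
    |QA (1 + u) φ φ - EE (Gam φ φ)| ≤
      τ * EE (Gam φ φ) + T * (EE (Gam φ φ) + EE (Lap φ * Lap φ)) := by
  have h1 : QA (1 + u) φ φ = EE (HQ u φ) + EE (Gam φ φ) + EE (u * Gam φ φ) := by
    unfold QA
    rw [HB_one_add, HB_self, add_mul, one_mul, EE_add, EE_add]
    ring
  have h2 := EE_HQ_le u φ T hT h
  have h3 : |EE (u * Gam φ φ)| ≤ EE (C τ * Gam φ φ) := by
    apply LocE_abs
    intro x hx
    rw [ev_mul, ev_mul, ev_C, abs_mul, abs_of_nonneg (Gam_nonneg φ x)]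
    exact mul_le_mul_of_nonneg_right (hs x hx) (Gam_nonneg φ x)
  rw [EE_C_mul] at h3
  rw [h1]
  have h4 : EE (HQ u φ) + EE (Gam φ φ) + EE (u * Gam φ φ) - EE (Gam φ φ) =
      EE (HQ u φ) + EE (u * Gam φ φ) := by ring
  rw [h4]
  have h5 := abs_add_le (EE (HQ u φ)) (EE (u * Gam φ φ))
  linarith

end

end Pool.Agent.Lib.MP_dabcc9_gt
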