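import Pool.Agent.Lib.MP_dabcc9_gt.LocE
import Pool.Agent.Lib.MP_dabcc9_gt.Gap

/-! JOB L5.  Variance of `Gf u`. -/

open MvPolynomial

namespace Pool.Agent.Lib.MP_dabcc9_gt

noncomputable section

private theorem LocF_Lap_sum (M : ℕ) (a : ℕ → ℝ) (g : ℕ → P) :
    Lap (∑ n ∈ Finset.range M, a n • g n) = ∑ n ∈ Finset.range M, a n • Lap (g n) := by
  simp only [Lap, map_sum, Derivation.map_smul, Finset.smul_sum]
  exact Finset.sum_comm

private theorem LocF_bil (M : ℕ) (a b : ℕ → ℝ) (g : ℕ → P)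
    (h : ∀ n m, n ≠ m → EE (g n * g m) = 0) :
    EE ((∑ n ∈ Finset.range M, a n • g n) * (∑ n ∈ Finset.range M, b n • g n)) =
      ∑ n ∈ Finset.range M, a n * b n * EE (g n * g n) := by
  rw [Finset.sum_mul, EE_sum]
  refine Finset.sum_congr rfl fun n hn => ?_
  rw [Finset.mul_sum, EE_sum, Finset.sum_eq_single n]
  · rw [smul_mul_smul_comm, EE_smul]
  · intro m _ hm
    rw [smul_mul_smul_comm, EE_smul, h n m (Ne.symm hm), mul_zero]
  · intro hn'
    exact absurd hn hn'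

private theorem LocF_lam {n m : ℕ} (h : n ≠ m) : (n : ℝ) * (n + 1) ≠ (m : ℝ) * (m + 1) := by
  intro h'
  have h1 : ((n : ℝ) - m) * (n + m + 1) = 0 := by linarith
  rcases mul_eq_zero.1 h1 with h2 | h2
  · exact h (by exact_mod_cast sub_eq_zero.1 h2)
  · have : (0 : ℝ) < n + m + 1 := by positivity
    linarith

/-- Poisson equation for mean zero: like `poisson` in `Gap.lean` (copy that proof), with the
eigenvalues `n (n + 1) >= 2` for `n >= 1`. -/
theorem poisson1 (g : P) (hg : EE g = 0) :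
    ∃ φ : P, EqS (Lap φ) (-(2 * g)) ∧ EE (Gam φ φ) ≤ 2 * EE (g * g) := by
  obtain ⟨e, hd, hl, hs⟩ := dec (g.totalDegree + 3) g (by omega)
  set M := g.totalDegree + 3 + 1 with hM
  have horth : ∀ n m, n ≠ m → EE (e n * e m) = 0 := by
    intro n m hnm
    have h1 : EE (e n * Lap (e m)) = -((m : ℝ) * (m + 1)) * EE (e n * e m) := by
      rw [← EE_smul]
      refine EE_congr fun x hx => ?_
      rw [ev_mul, hl m x hx, ev_neg, ev_smul, ev_smul, ev_mul]
      ring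
    have h2 : EE (e m * Lap (e n)) = -((n : ℝ) * (n + 1)) * EE (e n * e m) := by
      rw [← EE_smul]
      refine EE_congr fun x hx => ?_
      rw [ev_mul, hl n x hx, ev_neg, ev_smul, ev_smul, ev_mul]
      ring
    have h3 := EE_Lap_symm (e n) (e m)
    rw [h1, h2] at h3
    have h4 : ((n : ℝ) * (n + 1) - (m : ℝ) * (m + 1)) * EE (e n * e m) = 0 := by linarith
    rcases mul_eq_zero.1 h4 with h5 | h5
    · exact absurd (sub_eq_zero.1 h5) (LocF_lam hnm)
    · exact h5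
  have hG : ∀ n, 0 ≤ EE (e n * e n) := fun n => EE_nonneg fun x _ => by
    rw [ev_mul]
    exact mul_self_nonneg _
  have hs1 : EqS g (∑ n ∈ Finset.range M, (1 : ℝ) • e n) := by
    simpa only [one_smul] using hs
  -- products with `e n`
  have hgv : ∀ n ∈ Finset.range M, EE (g * e n) = EE (e n * e n) := by
    intro n hn
    have h1 : EE (g * e n) = EE ((∑ k ∈ Finset.range M, (1 : ℝ) • e k) *
        (∑ k ∈ Finset.range M, (if k = n then (1 : ℝ) else 0) • e k)) := by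
      refine EE_congr fun x hx => ?_
      rw [ev_mul, ev_mul, hs1 x hx]
      congr 1
      simp only [ite_smul, one_smul, zero_smul, Finset.sum_ite_eq', hn, if_true]
    rw [h1, LocF_bil M _ _ e horth]
    simp only [one_mul, ite_mul, zero_mul, Finset.sum_ite_eq', hn, if_true]
  have hG0 : ∀ n, n < 1 → EE (e n * e n) = 0 := by
    intro n hn
    rw [← hgv n (Finset.mem_range.2 (by omega))]
    have h0 : (e n).totalDegree = 0 := Nat.le_zero.mp ((hd n).trans (by omega))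
    rw [MvPolynomial.totalDegree_eq_zero_iff_eq_C] at h0
    rw [h0, mul_comm, EE_C_mul, hg, mul_zero]
  have hg0 : ∀ n, n < 1 → EqS (e n) 0 := fun n hn => EE_sq_eq_zero (hG0 n hn)
  have hvv : EE (g * g) = ∑ n ∈ Finset.range M, EE (e n * e n) := by
    rw [EE_congr (hs1.mul hs1), LocF_bil M _ _ e horth]
    simp only [one_mul]
  have hlam : ∀ n : ℕ, 1 ≤ n → (2 : ℝ) ≤ (n : ℝ) * (n + 1) := by
    intro n hn
    have h3 : (1 : ℝ) ≤ n := by exact_mod_cast hn
    nlinarith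
  let c : ℕ → ℝ := fun n => if n < 1 then 0 else 2 / ((n : ℝ) * (n + 1))
  let z : P := ∑ n ∈ Finset.range M, c n • e n
  have hLap : ∀ a : ℕ → ℝ, EqS (Lap (∑ n ∈ Finset.range M, a n • e n))
      (∑ n ∈ Finset.range M, (-(a n * ((n : ℝ) * (n + 1)))) • e n) := by
    intro a x hx
    rw [LocF_Lap_sum, ev_sum, ev_sum]
    refine Finset.sum_congr rfl fun n _ => ?_
    rw [ev_smul, ev_smul, hl n x hx, ev_neg, ev_smul]
    ring
  have hLz : EqS (Lap z) (-(2 * g)) := by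
    intro x hx
    rw [hLap c x hx, ev_neg, ev_mul, hs1 x hx, ev_sum, ev_sum, ev_ofNat, Finset.mul_sum,
      ← Finset.sum_neg_distrib]
    refine Finset.sum_congr rfl fun n _ => ?_
    rw [ev_smul, ev_smul]
    by_cases hn : n < 1
    · rw [hg0 n hn x hx, ev_zero]
      ring
    · have h1 : (2 : ℝ) ≤ (n : ℝ) * (n + 1) := hlam n (by omega)
      have h2 : c n * ((n : ℝ) * (n + 1)) = 2 := by
        simp only [c, hn, if_false]
        exact div_mul_cancel₀ _ (by linarith)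
      rw [h2]
      ring
  refine ⟨z, hLz, ?_⟩
  have h1 : EE (Gam z z) = 2 * EE (z * g) := by
    have h2 := EE_ibp z z
    have h3 : EE (z * Lap z) = -(2 * EE (z * g)) := by
      rw [← EE_two_mul, ← EE_neg]
      refine EE_congr fun x hx => ?_
      rw [ev_mul, hLz x hx, ev_neg, ev_neg, ev_mul, ev_mul, ev_mul]
      ring
    linarith
  have h4 : EE (z * g) = ∑ n ∈ Finset.range M, c n * EE (e n * e n) := by
    rw [EE_congr ((EqS.refl z).mul hs1), LocF_bil M _ _ e horth]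
    simp only [mul_one]
  rw [h1, h4, hvv, Finset.mul_sum, Finset.mul_sum]
  refine Finset.sum_le_sum fun n _ => ?_
  by_cases hn : n < 1
  · rw [hG0 n hn]
    simp
  · have h1 : (2 : ℝ) ≤ (n : ℝ) * (n + 1) := hlam n (by omega)
    have h2 : 2 * c n ≤ 2 := by
      simp only [c, hn, if_false]
      rw [← mul_div_assoc, div_le_iff₀ (by linarith)]
      linarith
    calc 2 * (c n * EE (e n * e n)) = (2 * c n) * EE (e n * e n) := by ring
      _ ≤ 2 * EE (e n * e n) := mul_le_mul_of_nonneg_right h2 (hG n)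

private theorem LocF_var (g : P) :
    EE ((g - C (EE g)) * (g - C (EE g))) = EE (g * g) - EE g ^ 2 := by
  have h : (g - C (EE g)) * (g - C (EE g)) =
      g * g - C (2 * EE g) * g + C (EE g * EE g) := by
    rw [show (C (2 * EE g) : P) = 2 * C (EE g) by rw [C_mul]; rfl, C_mul]
    ring
  rw [h, EE_add, EE_sub, EE_C_mul, EE_C]
  ring

theorem var_nonneg (g : P) : 0 ≤ EE (g * g) - EE g ^ 2 := by
  rw [← LocF_var]
  apply EE_nonneg
  intro x _
  rw [ev_mul]
  exact mul_self_nonneg _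

private theorem LocF_real (V D Q k : ℝ) (hV : 0 ≤ V) (hD : 0 ≤ D) (hk : 0 ≤ k)
    (h2 : (2 * V) ^ 2 ≤ D * Q) (h4 : Q ≤ 2 * V * k) : V ≤ 1 / 2 * k * D := by
  rcases hV.lt_or_eq with hVp | hVz
  · have h5 : V * (4 * V) ≤ V * (D * (2 * k)) := by
      have h6 : D * Q ≤ D * (2 * V * k) := mul_le_mul_of_nonneg_left h4 hD
      nlinarith
    have h6 := le_of_mul_le_mul_left h5 hVp
    linarith
  · rw [← hVz]
    positivity

private theorem LocF_real2 (V B C A τ T : ℝ) (hτ : 0 ≤ τ) (hT : 0 ≤ T)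
    (h1 : B ≤ 2 * V) (h2 : C = 4 * V) (h3 : |A - B| ≤ τ * B + T * (B + C)) :
    A ≤ 2 * V * (1 + τ + 3 * T) := by
  have h5 := (abs_le.1 h3).2
  rw [h2] at h5
  have h6 : (1 + τ) * B ≤ (1 + τ) * (2 * V) := mul_le_mul_of_nonneg_left h1 (by linarith)
  have h7 : T * (B + 4 * V) ≤ T * (2 * V + 4 * V) := mul_le_mul_of_nonneg_left (by linarith) hT
  linarith

/-- PROOF.  `G = Gf u`, `g = G - C (EE G)`, `V = E[g g]`; `φ` from `poisson1`.
`QA (1+u) u φ = - E[G Lap φ] = 2 E[G g] = 2 V` (`QA_u`).  `QA_cs`: `4 V^2 <= D * QA (1+u) φ φ`, and by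
`QA_close`, `QA (1+u) φ φ <= (1 + τ) 2 V + T (2 V + 4 V)` as `E[(Lap φ)^2] = 4 V`.
If `V > 0` divide by `V`. -/
theorem var_le (u : P) (hp : ConvS (1 + u)) (τ T : ℝ) (hτ : 0 ≤ τ) (hT : 0 ≤ T)
    (h : ∀ x : E3, ‖x‖ = 1 → ev (Gam u u) x ≤ T ^ 2) (hs : ∀ x : E3, ‖x‖ = 1 → |ev u x| ≤ τ) :
    EE (Gf u * Gf u) - EE (Gf u) ^ 2 ≤ 1 / 2 * (1 + τ + 3 * T) * QA (1 + u) u u := by
  have hV0 := var_nonneg (Gf u)
  rw [← LocF_var] at hV0 ⊢
  obtain ⟨m, hm⟩ : ∃ m, m = EE (Gf u) := ⟨_, rfl⟩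
  rw [← hm] at hV0 ⊢
  obtain ⟨g, hgdef⟩ : ∃ g, g = Gf u - C m := ⟨_, rfl⟩
  rw [← hgdef] at hV0 ⊢
  have hg0 : EE g = 0 := by
    rw [hgdef, EE_sub, EE_C, hm, sub_self]
  obtain ⟨φ, hφ, hφG⟩ := poisson1 g hg0
  have h1 : QA (1 + u) u φ = 2 * EE (g * g) := by
    rw [QA_u]
    have h2 : EE (Gf u * Lap φ) = EE (-(2 * (Gf u * g))) := by
      refine EE_congr fun x hx => ?_
      have h2 : ev 2 x = 2 := ev_ofNat 2 x
      rw [ev_mul, hφ x hx, ev_neg, ev_neg, ev_mul, ev_mul, ev_mul, h2]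
      ring
    have h3 : Gf u * g = g * g + C m * g := by
      rw [hgdef]; ring
    rw [h2, EE_neg, EE_two_mul, h3, EE_add, EE_C_mul, hg0]
    ring
  have hLL : EE (Lap φ * Lap φ) = 4 * EE (g * g) := by
    have h2 : EE (Lap φ * Lap φ) = EE (C 4 * (g * g)) := by
      refine EE_congr fun x hx => ?_
      have h2 : ev 2 x = 2 := ev_ofNat 2 x
      rw [ev_mul, hφ x hx, ev_neg, ev_mul, ev_mul, ev_mul, ev_C, h2]
      ring
    rw [h2, EE_C_mul]
  have h2 := QA_cs hp u φ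
  rw [h1] at h2
  exact LocF_real _ _ _ _ hV0 (QA_nonneg hp u) (by linarith) h2
    (LocF_real2 _ _ _ _ τ T hτ hT hφG hLL (QA_close u φ τ T hT h hs))

end

end Pool.Agent.Lib.MP_dabcc9_gt
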