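import Pool.Agent.Lib.MP_dabcc9_gt.Main1B

/-! JOB L6.  Lower bound of `J` near the ball. -/

open MvPolynomial Matrix

namespace Pool.Agent.Lib.MP_dabcc9_gt

noncomputable section

private theorem LocG_real (k E b f s τ qqq qqv T1 vN vvv vG GG : ℝ) (hk : 0 ≤ k) (hE : 0 ≤ E)
    (hb : 0 ≤ b) (hf : 0 ≤ f) (hfb : f ≤ 1 / 3 * b) (hτ : 0 ≤ τ) (hEk : E = 2 / 15 * k ^ 2)
    (hs2 : s ^ 2 = b)
    (h1 : -(0.0312 * k ^ 3) ≤ qqq) (h2 : qqv ≤ 0.8165 * k * (0.36515 * k * s))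
    (h3 : -(0.85 * k) * f ≤ T1) (h4 : vN ≤ 1.41435 * k * (2 * b - 1 / 2 * f))
    (h5 : -τ * b ≤ vvv) (h6 : vG ≤ τ * (b + 1 / 2 * f)) (hGG : GG = 2 / 3 * E + f) :
    E + b - 1 / 2 * GG - (3 * k + 2 * τ) * (E + b) ≤
      2 / 3 * (E + qqq) - 1 / 3 * qqv + (b - 1 / 2 * f) + T1 - 1 / 3 * vN + (1 / 3 * vvv - vG) := by
  have e1 : k ^ 3 = 7.5 * (k * E) := by rw [hEk]; ring
  have e2 : k * (k * s) ≤ k * ((7.5 * E + b) / 2) := by
    refine mul_le_mul_of_nonneg_left ?_ hk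
    rw [hEk, ← hs2]
    nlinarith [sq_nonneg (k - s)]
  have hkE : 0 ≤ k * E := mul_nonneg hk hE
  have hkb : 0 ≤ k * b := mul_nonneg hk hb
  have hkf : k * f ≤ k * (1 / 3 * b) := mul_le_mul_of_nonneg_left hfb hk
  have hkf0 : 0 ≤ k * f := mul_nonneg hk hf
  have hτb : 0 ≤ τ * b := mul_nonneg hτ hb
  have hτE : 0 ≤ τ * E := mul_nonneg hτ hE
  have hτf : τ * f ≤ τ * (1 / 3 * b) := mul_le_mul_of_nonneg_left hfb hτ
  nlinarith

/-- PROOF.  Same as `J_lower` in `Main1B.lean` (same `w = C (1/3) * qf Q + z`, `ident_J2`; reuse its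
lemmas and copy its estimates), with `|v| <= τ` in place of the bounds `-3/5, 2/5`.  `k = sqrt (t2 Q)`,
`b = E[v v]`, `f = E[Gam z z] <= b/3`, `Eq = E[q q] = 2/15 k^2`, `a = E[(q+v)^2] = Eq + b`,
`E[Gam w w] = 2/3 Eq + f` (`E[Gam q q] = 6 Eq`, `E[Gam q z] = 0`).  The cubic terms of `ident_J2`:
`2/3 E[qqq] >= - 0.0208 k^3 = - 0.156 k Eq`, `1/3 E[qqv] <= 0.0994 k^2 sqrt b
<= 0.0497 k (7.5 Eq + b)`, `T1 >= - 0.85 k f >= - 0.2834 k b`, `1/3 E[v NN q z] <= 0.943 k b`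
(`0.4715 k (2 b - f/2)`), `1/3 |E[vvv]| <= τ b / 3`, `|E[v (Gam z z + 1/2 NN z z)]| <= τ (b + f/2)
<= 7/6 τ b`.  In total at least `- (1.3 k + 1.5 τ) a`. -/
theorem J_local (Q : Matrix (Fin 3) (Fin 3) ℝ) (hQ : ST Q) (v : P)
    (hv : ∀ s : P, s.totalDegree ≤ 2 → EE (v * s) = 0) (τ : ℝ) (hτ : 0 ≤ τ)
    (hsup : ∀ x : E3, ‖x‖ = 1 → |ev v x| ≤ τ) :
    ∃ w : P, EqS (Lap w) (-(2 * (qf Q + v))) ∧
      EE (Gam w w) ≤ 2 / 3 * EE ((qf Q + v) * (qf Q + v)) ∧
      EE ((qf Q + v) * (qf Q + v)) - 1 / 2 * EE (Gam w w)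
        - (3 * Real.sqrt (t2 Q) + 2 * τ) * EE ((qf Q + v) * (qf Q + v)) ≤ Jf (qf Q + v) w := by
  obtain ⟨z, hz, hfb, h12⟩ := poisson v hv
  have hqv : EE (qf Q * v) = 0 := by
    rw [mul_comm]
    exact hv _ (Main1B_deg Q)
  have hQQ : (Q * Q).IsSymm := by
    unfold Matrix.IsSymm
    rw [Matrix.transpose_mul, hQ.1]
  have ht2 : 0 ≤ t2 Q := by
    unfold t2
    positivity
  obtain ⟨k, hkdef⟩ : ∃ k, k = Real.sqrt (t2 Q) := ⟨_, rfl⟩
  have hk : 0 ≤ k := by rw [hkdef]; exact Real.sqrt_nonneg _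
  have hk2 : k ^ 2 = t2 Q := by rw [hkdef]; exact Real.sq_sqrt ht2
  have hb : 0 ≤ EE (v * v) := by
    apply EE_nonneg
    intro x _
    rw [ev_mul]
    exact mul_self_nonneg _
  have hf : 0 ≤ EE (Gam z z) := EE_nonneg fun x _ => Gam_nonneg z x
  have hqq0 : 0 ≤ EE (qf Q * qf Q) := by
    apply EE_nonneg
    intro x _
    rw [ev_mul]
    exact mul_self_nonneg _
  have hqq : EE (qf Q * qf Q) = 2 / 15 * k ^ 2 := by rw [EE_qf_sq hQ, ← hk2]
  have huu : EE ((qf Q + v) * (qf Q + v)) = EE (qf Q * qf Q) + EE (v * v) := by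
    have h4 : (qf Q + v) * (qf Q + v) = qf Q * qf Q + 2 * (qf Q * v) + v * v := by ring
    rw [h4, EE_add, EE_add, EE_two_mul, hqv]
    ring
  have hGw : EE (Gam (C (1 / 3) * qf Q + z) (C (1 / 3) * qf Q + z)) =
      2 / 3 * EE (qf Q * qf Q) + EE (Gam z z) := by
    have h1 : EE (Gam (qf Q) (qf Q)) = 6 * EE (qf Q * qf Q) := by
      have h := EE_ibp (qf Q) (qf Q)
      rw [Lap_qf hQ] at h
      have h2 : qf Q * -(6 * qf Q) = -(C 6 * (qf Q * qf Q)) := by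
        rw [show (C 6 : P) = 6 by rfl]
        ring
      rw [h2, EE_neg, EE_C_mul] at h
      linarith
    have h2 : EE (Gam (qf Q) z) = 0 := by
      have h := EE_ibp (qf Q) z
      have h3 : EE (qf Q * Lap z) = -(2 * EE (qf Q * v)) := by
        rw [← EE_two_mul, ← EE_neg]
        refine EE_congr fun x hx => ?_
        have h2 : ev 2 x = 2 := ev_ofNat 2 x
        rw [ev_mul, hz x hx, ev_neg, ev_neg, ev_mul, ev_mul, ev_mul, h2]
        ring
      rw [h3, hqv] at h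
      linarith
    have h3 : Gam (C (1 / 3) * qf Q + z) (C (1 / 3) * qf Q + z)
        = C (1 / 9) * Gam (qf Q) (qf Q) + C (2 / 3) * Gam (qf Q) z + Gam z z := by
      rw [Gam_add_left, Gam_add_right, Gam_add_right, Gam_C_mul_left, Gam_C_mul_left,
        Gam_C_mul_right, Gam_C_mul_right, Gam_comm z (qf Q)]
      have e1 : (C (1 / 9) : P) = C (1 / 3) * C (1 / 3) := by rw [← C_mul]; norm_num
      have e2 : (C (2 / 3) : P) = C (1 / 3) + C (1 / 3) := by rw [← C_add]; norm_num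
      rw [e1, e2]; ring
    rw [h3, EE_add, EE_add, EE_C_mul, EE_C_mul, h1, h2]
    ring
  refine ⟨C (1 / 3) * qf Q + z, ?_, ?_, ?_⟩
  · intro x hx
    rw [Lap_add, Lap_C_mul, Lap_qf hQ]
    have h1 := hz x hx
    rw [ev_neg, ev_mul, ev_ofNat] at h1
    rw [ev_add, h1, ev_mul, ev_C, ev_neg, ev_mul, ev_neg, ev_mul, ev_add, ev_ofNat, ev_ofNat]
    ring
  · rw [hGw, huu]
    linarith
  rw [ident_J2 (qf Q) v z (qf (Q * Q)) (Lap_qf hQ) hz hqv (Lap_qf_sq hQ)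
    (hv _ (Main1B_deg (Q * Q))) (Main1B_vLap v hv (Q * Q) hQQ), huu, ← hkdef]
  -- abbreviations
  have hEq := EE_q v z hz
  rw [EE_add, EE_C_mul] at hEq
  -- E[q q q]
  have hqqq : -(0.0312 * k ^ 3) ≤ EE (qf Q * qf Q * qf Q) := by
    rw [hkdef]
    exact EE_qf_cube_ge hQ
  -- E[q q v]
  have hqqv : EE (qf Q * qf Q * v) ≤ 0.8165 * k * (0.36515 * k * Real.sqrt (EE (v * v))) := by
    have h1 := Main1B_cs (qf Q * qf Q) v
    have h2 : EE (qf Q * qf Q * (qf Q * qf Q)) ≤ 2 / 3 * k ^ 2 * (2 / 15 * k ^ 2) := by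
      have h3 : EE (qf Q * qf Q * (qf Q * qf Q)) ≤ EE (C (2 / 3 * k ^ 2) * (qf Q * qf Q)) := by
        apply EE_mono
        intro x hx
        rw [ev_mul, ev_mul, ev_mul, ev_C, ev_mul]
        have h4 : ev (qf Q) x * ev (qf Q) x ≤ 2 / 3 * k ^ 2 := by
          have h5 := qf_abs_le hQ x hx
          rw [← hkdef] at h5
          have h6 : ev (qf Q) x * ev (qf Q) x = |ev (qf Q) x| ^ 2 := by
            rw [sq_abs]; ring
          rw [h6]
          calc |ev (qf Q) x| ^ 2 ≤ (Real.sqrt (2 / 3) * k) ^ 2 := by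
                gcongr
            _ = 2 / 3 * k ^ 2 := by
                rw [mul_pow, Real.sq_sqrt (by norm_num)]
        exact mul_le_mul_of_nonneg_right h4 (mul_self_nonneg _)
      rw [EE_C_mul, EE_qf_sq hQ, ← hk2] at h3
      exact h3
    have h3 : EE (qf Q * qf Q * v) ^ 2 ≤
        (0.8165 * k * (0.36515 * k * Real.sqrt (EE (v * v)))) ^ 2 := by
      have h4 : (0.8165 * k * (0.36515 * k * Real.sqrt (EE (v * v)))) ^ 2 =
          (0.8165 * 0.36515) ^ 2 * k ^ 4 * EE (v * v) := by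
        rw [mul_pow, mul_pow, mul_pow, mul_pow, Real.sq_sqrt hb]
        ring
      rw [h4]
      refine h1.trans ((mul_le_mul_of_nonneg_right h2 hb).trans ?_)
      refine mul_le_mul_of_nonneg_right ?_ hb
      have h5 : 0 ≤ k ^ 4 := by positivity
      nlinarith
    exact le_trans (le_abs_self _) (abs_le_of_sq_le_sq h3 (by positivity) )
  -- the term T1
  have hT1 : -(0.85 * k) * EE (Gam z z) ≤
      EE (C (3 / 2) * (qf Q * Gam z z) + C (1 / 6) * HQ (qf Q) z) := by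
    rw [← EE_C_mul]
    apply EE_mono
    intro x hx
    rw [ev_mul, ev_C, hkdef]
    exact T1_pt hQ z x hx
  -- the term with NN q z
  have hNN : EE (v * NN (qf Q) z) ≤ 1.41435 * k * (EE (v * v) + 1 / 2 * EE (NN z z)) := by
    have h1 : EE (v * NN (qf Q) z) ≤
        EE (C (1.41435 * k) * (v * v + C (1 / 2) * NN z z)) := by
      apply EE_mono
      intro x hx
      rw [ev_mul, ev_mul, ev_C, ev_add, ev_mul, ev_mul, ev_C]
      have h2 := NN_cs (qf Q) z x hx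
      have h3 := NN_qf_le hQ x hx
      have h4 := NN_nonneg z x hx
      rw [← hk2] at h3
      have h5 : (ev v x * ev (NN (qf Q) z) x) ^ 2 ≤
          (1.41435 * k * (ev v x * ev v x + 1 / 2 * ev (NN z z) x)) ^ 2 := by
        have h6 : ev (NN (qf Q) z) x ^ 2 ≤ 4 * k ^ 2 * ev (NN z z) x :=
          h2.trans (mul_le_mul_of_nonneg_right h3 h4)
        have h7 : (ev v x * ev (NN (qf Q) z) x) ^ 2 ≤ ev v x ^ 2 * (4 * k ^ 2 * ev (NN z z) x) := by
          rw [mul_pow]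
          exact mul_le_mul_of_nonneg_left h6 (sq_nonneg _)
        refine h7.trans ?_
        have h8 : 2 * (ev v x ^ 2 * ev (NN z z) x) ≤
            (ev v x * ev v x + 1 / 2 * ev (NN z z) x) ^ 2 := by
          nlinarith [sq_nonneg (ev v x * ev v x - 1 / 2 * ev (NN z z) x)]
        have h9 : 0 ≤ (ev v x * ev v x + 1 / 2 * ev (NN z z) x) ^ 2 := sq_nonneg _
        calc ev v x ^ 2 * (4 * k ^ 2 * ev (NN z z) x)
            = 2 * k ^ 2 * (2 * (ev v x ^ 2 * ev (NN z z) x)) := by ring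
          _ ≤ 2 * k ^ 2 * (ev v x * ev v x + 1 / 2 * ev (NN z z) x) ^ 2 :=
              mul_le_mul_of_nonneg_left h8 (by positivity)
          _ ≤ 1.41435 ^ 2 * (k ^ 2 * (ev v x * ev v x + 1 / 2 * ev (NN z z) x) ^ 2) := by
              have h10 : 0 ≤ k ^ 2 * (ev v x * ev v x + 1 / 2 * ev (NN z z) x) ^ 2 := by
                positivity
              nlinarith
          _ = (1.41435 * k * (ev v x * ev v x + 1 / 2 * ev (NN z z) x)) ^ 2 := by ring
      have h11 : 0 ≤ 1.41435 * k * (ev v x * ev v x + 1 / 2 * ev (NN z z) x) := by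
        have := mul_self_nonneg (ev v x)
        positivity
      exact le_trans (le_abs_self _) (abs_le_of_sq_le_sq h5 h11)
    rw [EE_C_mul, EE_add, EE_C_mul] at h1
    exact h1
  -- cubic terms in v
  have hvvv : -τ * EE (v * v) ≤ EE (v * v * v) := by
    rw [← EE_C_mul]
    apply EE_mono
    intro x hx
    rw [ev_mul, ev_C, ev_mul, ev_mul, ev_mul]
    nlinarith [(abs_le.1 (hsup x hx)).1, mul_self_nonneg (ev v x)]
  have hvG : EE (v * (Gam z z + C (1 / 2) * NN z z)) ≤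
      τ * (EE (Gam z z) + 1 / 2 * EE (NN z z)) := by
    have h1 : EE (v * (Gam z z + C (1 / 2) * NN z z)) ≤
        EE (C τ * (Gam z z + C (1 / 2) * NN z z)) := by
      apply EE_mono
      intro x hx
      rw [ev_mul, ev_mul, ev_C]
      refine mul_le_mul_of_nonneg_right (abs_le.1 (hsup x hx)).2 ?_
      rw [ev_add, ev_mul, ev_C]
      have h2 := NN_nonneg z x hx
      have h3 := Gam_nonneg z x
      positivity
    rw [EE_C_mul, EE_add, EE_C_mul] at h1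
    exact h1
  have hN : 1 / 2 * EE (NN z z) = EE (v * v) - 1 / 2 * EE (Gam z z) := by linarith
  rw [hN] at hNN hvG
  exact LocG_real k _ _ _ (Real.sqrt (EE (v * v))) τ _ _ _ _ _ _ _ hk hqq0 hb hf hfb hτ hqq
    (Real.sq_sqrt hb) hqqq hqqv hT1 (le_of_le_of_eq hNN (by ring)) hvvv
    (le_of_le_of_eq hvG (by ring)) hGw

end

end Pool.Agent.Lib.MP_dabcc9_gt
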