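import Pool.Agent.Lib.MP_dabcc9_gt.LocB
import Pool.Agent.Lib.MP_dabcc9_gt.LocF

/-! JOB L7.  Consequence of the certificate. -/

open MvPolynomial

namespace Pool.Agent.Lib.MP_dabcc9_gt

noncomputable section

theorem LocH_two (x : E3) : ev 2 x = 2 := ev_ofNat 2 x

/-- real arithmetic at the end -/
theorem LocH_arith (τ δ a Vg c D EG Ess Ef1s Efs Efus Eff Eff1 Effs EfB Efuu ENN EfN : ℝ)
    (hτ0 : 0 ≤ τ) (hτ1 : τ ≤ 1 / 10) (hδ0 : 0 ≤ δ) (hδ1 : δ ≤ 1 / 10) (ha0 : 0 ≤ a)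
    (ha : a ≤ δ / 2) (hV : 0 ≤ Vg)
    (hcert : 0 ≤ 4 * Ess - 10 * Ef1s + Eff1 - Effs + 3 * EfB)
    (hEG : EG = δ + 3 / 2 * a) (h1 : Ef1s = Efs + Efus) (h2 : Efs = EfN - 1 / 2 * Efuu)
    (h3 : EfN = c - a + 5 * δ * EG) (h4 : Eff = a + 25 * δ ^ 2)
    (h5 : ENN = Vg + EG ^ 2 - 2 * c + a)
    (b1 : Ess ≤ ENN) (b2 : Eff1 ≤ (1 + τ) ^ 2 * Eff) (b3 : 0 ≤ Effs)
    (b4 : EfB ≤ (τ + 5 * δ) * D) (b5 : Efuu ≤ (τ + 5 * δ) * a)
    (b6 : -Efus ≤ τ / 2 * (Eff + ENN)) (b7 : ENN ≤ 2 * (Vg + EG ^ 2) + 2 * a) :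
    21 * δ ^ 2 ≤ 15 * a + 4 * Vg - 18 * c + 210 * τ * (a + δ ^ 2 + Vg) + (3 * τ + 15 * δ) * D := by
  have hda : 0 ≤ δ * a := mul_nonneg hδ0 ha0
  have haa : a ^ 2 ≤ δ * a / 2 := by nlinarith
  have hEG2 : EG ^ 2 ≤ δ ^ 2 + 33 / 8 * (δ * a) := by
    rw [hEG]
    nlinarith
  have hda1 : δ * a ≤ 1 / 10 * a := mul_le_mul_of_nonneg_right hδ1 ha0
  have hNN : ENN ≤ 2 * Vg + 2 * δ ^ 2 + 2825 / 1000 * a := by nlinarith
  have hEff0 : 0 ≤ a + 25 * δ ^ 2 := by positivity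
  have e1 : (1 + τ) ^ 2 * Eff ≤ Eff + 3 * τ * (a + 25 * δ ^ 2) := by
    rw [h4]
    have : (1 + τ) ^ 2 ≤ 1 + 3 * τ := by nlinarith
    nlinarith [mul_le_mul_of_nonneg_right this hEff0]
  have e2 : 5 * Efuu ≤ 5 * τ * a + 25 * (δ * a) := by nlinarith
  have e3 : -10 * Efus ≤ 5 * τ * ((a + 25 * δ ^ 2) + (2 * Vg + 2 * δ ^ 2 + 2825 / 1000 * a)) := by
    have : τ * (Eff + ENN) ≤
        τ * ((a + 25 * δ ^ 2) + (2 * Vg + 2 * δ ^ 2 + 2825 / 1000 * a)) :=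
      mul_le_mul_of_nonneg_left (by rw [h4]; linarith) hτ0
    linarith
  have hτa : 0 ≤ τ * a := mul_nonneg hτ0 ha0
  have hτd : 0 ≤ τ * δ ^ 2 := mul_nonneg hτ0 (sq_nonneg δ)
  have hτV : 0 ≤ τ * Vg := mul_nonneg hτ0 hV
  have e4 : 4 * Ess ≤ 4 * Vg + 4 * (δ ^ 2 + 33 / 8 * (δ * a)) - 8 * c + 4 * a := by
    linarith
  have e5 : -10 * EfN = -10 * c + 10 * a - 50 * δ ^ 2 - 75 * (δ * a) := by
    rw [h3, hEG]
    ring
  nlinarith

/-- PROOF.  Notation `a = E[u u]`, `G = Gf u`, `s = 1/2 Gam u u >= 0` so `G = u + 1/2 u u + s`,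
`E G = δ + 3/2 a`, `Vg = E[G G] - (E G)^2`, `c = E[G u]`, `D = QA (1+u) u u`, `f = u + C (5 δ)`
(`cert_nonneg` with `l = -5 δ`), `N = G - u = s + 1/2 u u`, `E N = E G`.  Terms of the certificate:
* `3 E[f (HQ u u + (1+u) Gam u u)] <= 3 (τ + 5 δ) D` (the bracket is `>= 0` by `A_nonneg` with
  `d = u`, `HQ (1+u) u = HQ u u`);
* `- E[f f s] <= 0`; `E[f f (1+u)(1+u)] <= (1+τ)^2 (a + 25 δ^2)` (`E[f f] = a + 25 δ^2`);
* `4 E[s s] <= 4 E[N N]` (`0 <= s <= N`);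
* `- 10 E[f s] = - 10 E[f N] + 5 E[f u u] <= - 10 E[f N] + 5 (τ + 5 δ) a`;
* `- 10 E[f u s] <= 10 τ E[|f| s] <= 5 τ (E[f f] + E[N N])` (pointwise `2 |f| s <= f f + s s`).
`E[N N] = Vg + (E G)^2 - 2 c + a`, `(E G)^2 = δ^2 + 3 δ a + 9/4 a^2 <= δ^2 + 33/8 δ a` (`a <= δ/2`),
`E[f N] = c - a + 5 δ (δ + 3/2 a)`.  Sum of the main terms `15 a - 21 δ^2 + 4 Vg - 18 c`,
errors at most `3 τ (a + 25 δ^2) + 5 τ a - 117/2 δ a + 5 τ (a + 25 δ^2 + E[N N]) + 3 (τ + 5 δ) D`,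
and `E[N N] <= 2 Vg + 2 (E G)^2 + 2 a <= 2 Vg + 2 δ^2 + 33/4 δ a + 2 a`. -/
theorem cert_ineq (u : P) (hu : EE u = 0) (hp : ConvS (1 + u)) (τ δ : ℝ) (hτ0 : 0 ≤ τ)
    (hτ1 : τ ≤ 1 / 10) (hδ : δ = 1 / 2 * EE (Gam u u) - EE (u * u)) (ha : EE (u * u) ≤ δ / 2)
    (hδ1 : δ ≤ 1 / 10) (hs : ∀ x : E3, ‖x‖ = 1 → |ev u x| ≤ τ) :
    21 * δ ^ 2 ≤ 15 * EE (u * u) + 4 * (EE (Gf u * Gf u) - EE (Gf u) ^ 2) - 18 * EE (Gf u * u)
      + 210 * τ * (EE (u * u) + δ ^ 2 + (EE (Gf u * Gf u) - EE (Gf u) ^ 2))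
      + (3 * τ + 15 * δ) * QA (1 + u) u u := by
  obtain ⟨l, hl⟩ : ∃ l : ℝ, l = -(5 * δ) := ⟨_, rfl⟩
  have ha0 : 0 ≤ EE (u * u) := EE_nonneg fun x _ => by rw [ev_mul]; exact mul_self_nonneg _
  have hδ0 : 0 ≤ δ := by linarith
  have hcert := cert_nonneg hp l
  obtain ⟨s, hsdef⟩ : ∃ s : P, s = C (1 / 2) * Gam u u := ⟨_, rfl⟩
  obtain ⟨f, hfdef⟩ : ∃ f : P, f = u - C l := ⟨_, rfl⟩
  obtain ⟨B, hBdef⟩ : ∃ B : P, B = HQ u u + (1 + u) * Gam u u := ⟨_, rfl⟩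
  obtain ⟨G, hGdef⟩ : ∃ G : P, G = Gf u := ⟨_, rfl⟩
  obtain ⟨N, hNdef⟩ : ∃ N : P, N = s + C (1 / 2) * (u * u) := ⟨_, rfl⟩
  have hGN : G = u + N := by
    rw [hGdef, hNdef, hsdef]
    unfold Gf
    ring
  rw [← hsdef, ← hfdef, ← hBdef] at hcert
  rw [← hGdef]
  -- pointwise facts
  have hs0 : ∀ x : E3, 0 ≤ ev s x := by
    intro x
    rw [hsdef, ev_mul, ev_C]
    have := Gam_nonneg u x
    positivity
  have hB0 : ∀ x : E3, ‖x‖ = 1 → 0 ≤ ev B x := by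
    intro x hx
    have h1 := A_nonneg hp u x hx
    rw [← HB_self, HB_one_add, HB_self] at h1
    rw [hBdef]
    exact h1
  have hfev : ∀ x : E3, ev f x = ev u x + 5 * δ := by
    intro x
    rw [hfdef, ev_sub, ev_C, hl]
    ring
  have hNev : ∀ x : E3, ev N x = ev s x + 1 / 2 * (ev u x * ev u x) := by
    intro x
    rw [hNdef, ev_add, ev_mul, ev_C, ev_mul]
  have hGev : ∀ x : E3, ev G x = ev u x + ev N x := by
    intro x
    rw [hGN, ev_add]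
  -- expectations
  have hEs : EE s = δ + EE (u * u) := by
    rw [hsdef, EE_C_mul, hδ]
    ring
  have hEN : EE N = δ + 3 / 2 * EE (u * u) := by
    rw [hNdef, EE_add, EE_C_mul, hEs]
    ring
  have hEG : EE G = δ + 3 / 2 * EE (u * u) := by
    rw [hGN, EE_add, hu, hEN]
    ring
  have h1 : EE (f * (1 + u) * s) = EE (f * s) + EE (f * u * s) := by
    rw [← EE_add]
    congr 1
    ring
  have h2 : EE (f * s) = EE (f * N) - 1 / 2 * EE (f * (u * u)) := by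
    rw [← EE_C_mul, ← EE_sub]
    congr 1
    rw [hNdef]
    ring
  have h3 : EE (f * N) = EE (G * u) - EE (u * u) + 5 * δ * EE G := by
    have e : f * N = (G * u - u * u) - (C l * G - C l * u) := by
      rw [hfdef, hGN]
      ring
    rw [e, EE_sub, EE_sub, EE_sub, EE_C_mul, EE_C_mul, hu, hl]
    ring
  have h4 : EE (f * f) = EE (u * u) + 25 * δ ^ 2 := by
    have e : f * f = u * u - C (2 * l) * u + C (l * l) := by
      rw [hfdef, C_mul, C_mul]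
      have : (C 2 : P) = 2 := map_ofNat C 2
      rw [this]
      ring
    rw [e, EE_add, EE_sub, EE_C_mul, EE_C, hu, hl]
    ring
  have h5 : EE (N * N) = (EE (G * G) - EE G ^ 2) + EE G ^ 2 - 2 * EE (G * u) + EE (u * u) := by
    have e : N * N = (G * G - C 2 * (G * u)) + u * u := by
      have : (C 2 : P) = 2 := map_ofNat C 2
      rw [this, hGN]
      ring
    rw [e, EE_add, EE_sub, EE_C_mul]
    ring
  -- inequalities
  have b1 : EE (s * s) ≤ EE (N * N) := by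
    refine EE_mono fun x _ => ?_
    rw [ev_mul, ev_mul, hNev]
    have h6 := hs0 x
    have h7 : 0 ≤ ev u x * ev u x := mul_self_nonneg _
    nlinarith
  have b2 : EE (f * f * ((1 + u) * (1 + u))) ≤ (1 + τ) ^ 2 * EE (f * f) := by
    rw [← EE_C_mul]
    refine EE_mono fun x hx => ?_
    rw [ev_mul, ev_mul, ev_mul, ev_mul, ev_add, ev_one, ev_C, ev_mul]
    have h6 := abs_le.1 (hs x hx)
    have h7 : (1 + ev u x) * (1 + ev u x) ≤ (1 + τ) ^ 2 := by nlinarith [h6.1, h6.2]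
    have h8 : 0 ≤ ev f x * ev f x := mul_self_nonneg _
    nlinarith [mul_le_mul_of_nonneg_left h7 h8]
  have b3 : 0 ≤ EE (f * f * s) := by
    refine EE_nonneg fun x _ => ?_
    rw [ev_mul, ev_mul]
    exact mul_nonneg (mul_self_nonneg _) (hs0 x)
  have b4 : EE (f * B) ≤ (τ + 5 * δ) * QA (1 + u) u u := by
    have e : QA (1 + u) u u = EE B := by
      unfold QA
      rw [HB_one_add, HB_self, hBdef]
    rw [e, ← EE_C_mul]
    refine EE_mono fun x hx => ?_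
    rw [ev_mul, ev_mul, ev_C, hfev]
    have h6 := abs_le.1 (hs x hx)
    exact mul_le_mul_of_nonneg_right (by linarith [h6.2]) (hB0 x hx)
  have b5 : EE (f * (u * u)) ≤ (τ + 5 * δ) * EE (u * u) := by
    rw [← EE_C_mul]
    refine EE_mono fun x hx => ?_
    rw [ev_mul, ev_mul, ev_mul, ev_mul, ev_C, hfev]
    have h6 := abs_le.1 (hs x hx)
    exact mul_le_mul_of_nonneg_right (by linarith [h6.2]) (mul_self_nonneg _)
  have b6 : -EE (f * u * s) ≤ τ / 2 * (EE (f * f) + EE (N * N)) := by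
    rw [← EE_add, ← EE_C_mul, ← EE_neg]
    refine EE_mono fun x hx => ?_
    rw [ev_neg, ev_mul, ev_mul, ev_mul, ev_C, ev_add, ev_mul, ev_mul]
    have h6 := hs x hx
    have h7 := hs0 x
    have h8 : ev s x ≤ ev N x := by
      rw [hNev]
      have : 0 ≤ ev u x * ev u x := mul_self_nonneg _
      linarith
    have h9 : -(ev f x * ev u x * ev s x) ≤ |ev f x| * τ * ev s x := by
      have h10 : -(ev f x * ev u x) ≤ |ev f x| * τ := by
        calc -(ev f x * ev u x) ≤ |ev f x * ev u x| := neg_le_abs _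
          _ = |ev f x| * |ev u x| := abs_mul _ _
          _ ≤ |ev f x| * τ := mul_le_mul_of_nonneg_left h6 (abs_nonneg _)
      have := mul_le_mul_of_nonneg_right h10 h7
      linarith
    have h11 : |ev f x| * ev s x ≤ 1 / 2 * (ev f x * ev f x + ev s x * ev s x) := by
      have h12 : |ev f x| * |ev f x| = ev f x * ev f x := abs_mul_abs_self _
      nlinarith [mul_self_nonneg (|ev f x| - ev s x)]
    have h13 : ev s x * ev s x ≤ ev N x * ev N x := mul_le_mul h8 h8 h7 (h7.trans h8)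
    have h14 : |ev f x| * ev s x ≤ 1 / 2 * (ev f x * ev f x + ev N x * ev N x) := by linarith
    have h15 := mul_le_mul_of_nonneg_left h14 hτ0
    linarith
  have b7 : EE (N * N) ≤ 2 * ((EE (G * G) - EE G ^ 2) + EE G ^ 2) + 2 * EE (u * u) := by
    have h6 : EE (N * N) ≤ EE (C 2 * (G * G) + C 2 * (u * u)) := by
      refine EE_mono fun x _ => ?_
      rw [ev_add, ev_mul, ev_mul, ev_mul, ev_mul, ev_mul, ev_C, hGev]
      nlinarith [mul_self_nonneg (ev u x + ev N x + ev u x)]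
    rw [EE_add, EE_C_mul, EE_C_mul] at h6
    linarith
  exact LocH_arith τ δ (EE (u * u)) (EE (G * G) - EE G ^ 2) (EE (G * u)) (QA (1 + u) u u) (EE G)
    (EE (s * s)) (EE (f * (1 + u) * s)) (EE (f * s)) (EE (f * u * s)) (EE (f * f))
    (EE (f * f * ((1 + u) * (1 + u)))) (EE (f * f * s)) (EE (f * B)) (EE (f * (u * u)))
    (EE (N * N)) (EE (f * N)) hτ0 hτ1 hδ0 hδ1 ha0 ha (var_nonneg G) hcert hEG h1 h2 h3 h4 h5
    b1 b2 b3 b4 b5 b6 b7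

end

end Pool.Agent.Lib.MP_dabcc9_gt
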