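import Mathlib

/-! JOB L8.  A real inequality. -/

namespace Pool.Agent.Lib.MP_dabcc9_gt

/-- PROOF.  `y = 2 c - W`, `y^2 <= X W`.  `D = X + W + 2 y` and `2|y| <= X + W`, so `D <= 2 (X + W)`;
`Vg <= 1/2 (1+ε) D <= D`.  `4 Vg - 18 c <= 2 (1+ε) D - 9 W - 9 y <= 2 X - 7 W - 5 y + 2 ε D`.  So
`21 δ^2 (1 - ε/21) <= R := 15 a + 2 X - 7 W - 5 y + ε (a + 8 X + 8 W)`, hence
`19/5 δ^2 <= 19/105 (1 + ε/20) R <= 19/105 (15 a + 2 X - 7 W - 5 y) + ε (a + 2 X + 2 W)`.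
It remains: `(3/2 - 38/105) X + 2/7 a - 7/30 W + 19/21 y - ε (2 a + 2 X + 2 W) >= 0`.  With
`a >= 1.4997 W` from `h5`: the left side is at least `1.1379 X + 0.1864 W - 0.90477 |y|`, which is
`>= 0` because `(1.1379 X + 0.1864 W)^2 >= 4 * 1.1379 * 0.1864 X W >= 0.90477^2 y^2`. -/
theorem local_real (a δ X W c Vg D I ε : ℝ) (ha : 0 ≤ a) (hX : 0 ≤ X) (hW : 0 ≤ W)
    (hD : 0 ≤ D) (hε : 0 ≤ ε) (hε1 : ε ≤ 1 / 10000)
    (h1 : 21 * δ ^ 2 ≤ 15 * a + 4 * Vg - 18 * c + ε * (a + δ ^ 2 + Vg + D))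
    (h2 : Vg ≤ 1 / 2 * (1 + ε) * D) (h3 : D = X + 4 * c - W)
    (h4 : (2 * c - W) ^ 2 ≤ X * W) (h5 : W ≤ (2 / 3 + ε) * a)
    (h6 : 3 / 2 * X + 3 * a - 3 / 2 * W - ε * a ≤ I) : 19 / 5 * δ ^ 2 ≤ I := by
  obtain ⟨y, hy⟩ : ∃ y, y = 2 * c - W := ⟨_, rfl⟩
  have hc : c = (y + W) / 2 := by rw [hy]; ring
  have hD2 : D = X + W + 2 * y := by rw [h3, hc]; ring
  have hy2 : y ^ 2 ≤ X * W := by rw [hy]; exact h4
  -- bound for `y`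
  have hyX : |y| ≤ (X + W) / 2 := by
    apply abs_le_of_sq_le_sq
    · nlinarith [sq_nonneg (X - W)]
    · positivity
  obtain ⟨hy3, hy4⟩ := abs_le.1 hyX
  have hq : |19 / 21 * y| ≤ 1.1378 * X + 0.194 * W := by
    apply abs_le_of_sq_le_sq
    · nlinarith [sq_nonneg (1.1378 * X - 0.194 * W), mul_nonneg hX hW]
    · positivity
  obtain ⟨hq1, hq2⟩ := abs_le.1 hq
  have hDle : D ≤ 2 * (X + W) := by linarith
  have hVD : Vg ≤ D := by nlinarith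
  have hεD : ε * D ≤ ε * (2 * (X + W)) := mul_le_mul_of_nonneg_left hDle hε
  have hεV : ε * Vg ≤ ε * D := mul_le_mul_of_nonneg_left hVD hε
  -- the main bound
  have hR : (21 - ε) * δ ^ 2 ≤ 15 * a + 2 * X - 7 * W - 5 * y + ε * (a + 8 * X + 8 * W) := by
    have e1 : 4 * Vg ≤ 2 * D + 2 * (ε * D) := by nlinarith
    have e2 : 18 * c = 9 * y + 9 * W := by rw [hc]; ring
    nlinarith
  have hεW : ε * W ≤ 1 / 10000 * W := mul_le_mul_of_nonneg_right hε1 hW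
  have hεX : ε * X ≤ 1 / 10000 * X := mul_le_mul_of_nonneg_right hε1 hX
  have hεa : ε * a ≤ 1 / 10000 * a := mul_le_mul_of_nonneg_right hε1 ha
  have hεW0 : 0 ≤ ε * W := mul_nonneg hε hW
  have hεX0 : 0 ≤ ε * X := mul_nonneg hε hX
  have hεa0 : 0 ≤ ε * a := mul_nonneg hε ha
  have hδ : δ ^ 2 ≤ 1 / 20 * (16 * a + 5 * X + W) := by
    have e1 : 20 * δ ^ 2 ≤ (21 - ε) * δ ^ 2 := by nlinarith [sq_nonneg δ]
    have e2 : 15 * a + 2 * X - 7 * W - 5 * y + ε * (a + 8 * X + 8 * W) ≤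
        16 * a + 5 * X + W := by nlinarith
    linarith
  have hεδ : ε * δ ^ 2 ≤ ε * (1 / 20 * (16 * a + 5 * X + W)) := mul_le_mul_of_nonneg_left hδ hε
  have haW : 1.4997 * W ≤ a := by nlinarith
  nlinarith

end Pool.Agent.Lib.MP_dabcc9_gt
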