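import Pool.Agent.Lib.MP_dabcc9_gt.RotB

/-! JOB R2. Interpolation inequality for polynomials with `L i (L i u) >= -B`. -/

open MeasureTheory Metric Set MvPolynomial

namespace Pool.Agent.Lib.MP_dabcc9_gt

theorem RefD_taylor_pos {H H1 H2 : ℝ → ℝ} (h1 : ∀ s, HasDerivAt H (H1 s) s)
    (h2 : ∀ s, HasDerivAt H1 (H2 s) s) (B : ℝ) (hB : ∀ s, -B ≤ H2 s) (t : ℝ) (ht : 0 ≤ t) :
    H 0 + t * H1 0 - B * t ^ 2 / 2 ≤ H t := by
  have g1 : ∀ s, HasDerivAt (fun s => H1 s + B * s) (H2 s + B * 1) s := fun s =>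
    (h2 s).add ((hasDerivAt_id s).const_mul B)
  have m1 : Monotone (fun s => H1 s + B * s) := by
    apply monotone_of_deriv_nonneg (fun s => (g1 s).differentiableAt)
    intro s
    rw [(g1 s).deriv]
    have := hB s
    linarith
  have g : ∀ s, HasDerivAt (fun s => H s - s * H1 0 + B * s ^ 2 / 2)
      (H1 s - 1 * H1 0 + B * (2 * s) / 2) s := by
    intro s
    have e1 : HasDerivAt (fun s : ℝ => s * H1 0) (1 * H1 0) s :=
      (hasDerivAt_id s).mul_const (H1 0)
    have e2 : HasDerivAt (fun s : ℝ => B * s ^ 2 / 2) (B * (2 * s) / 2) s := by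
      have := ((hasDerivAt_pow 2 s).const_mul B).div_const 2
      simpa using this
    exact ((h1 s).sub e1).add e2
  have m : MonotoneOn (fun s => H s - s * H1 0 + B * s ^ 2 / 2) (Ici 0) := by
    apply monotoneOn_of_deriv_nonneg (convex_Ici 0)
    · exact fun s _ => (g s).continuousAt.continuousWithinAt
    · exact fun s _ => (g s).differentiableAt.differentiableWithinAt
    · intro s hs
      rw [interior_Ici] at hs
      rw [(g s).deriv]
      have := m1 (le_of_lt hs : (0 : ℝ) ≤ s)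
      simp only [mul_zero, add_zero] at this
      linarith
  have := m (mem_Ici.mpr le_rfl) (mem_Ici.mpr ht) ht
  simp only at this
  linarith [this]

theorem RefD_taylor {H H1 H2 : ℝ → ℝ} (h1 : ∀ s, HasDerivAt H (H1 s) s)
    (h2 : ∀ s, HasDerivAt H1 (H2 s) s) (B : ℝ) (hB : ∀ s, -B ≤ H2 s) (t : ℝ) (ht : 0 ≤ t) :
    t * |H1 0| ≤ |H t| + |H (-t)| + |H 0| + B * t ^ 2 / 2 := by
  have a1 := RefD_taylor_pos h1 h2 B hB t ht
  have k1 : ∀ s, HasDerivAt (fun s => H (-s)) (-(H1 (-s))) s := by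
    intro s
    have := (h1 (-s)).comp s (hasDerivAt_neg s)
    simpa [mul_comm, Function.comp_def] using this
  have k2 : ∀ s, HasDerivAt (fun s => -(H1 (-s))) (H2 (-s)) s := by
    intro s
    have := ((h2 (-s)).comp s (hasDerivAt_neg s)).fun_neg
    simpa [mul_comm, Function.comp_def] using this
  have a2 := RefD_taylor_pos k1 k2 B (fun s => hB (-s)) t ht
  simp only [neg_zero] at a2
  have b1 := le_abs_self (H t)
  have b2 := le_abs_self (H (-t))
  have b3 := neg_abs_le (H 0)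
  have b4 := abs_nonneg (H t)
  have b5 := abs_nonneg (H (-t))
  rcases abs_cases (H1 0) with ⟨h, _⟩ | ⟨h, _⟩ <;> rw [h] <;> linarith

/-- PROOF.  For `t > 0`, `H s = ev u (rotv i s x)` has `H'' >= -B`, so
`H (±t) >= H 0 ± t H'(0) - B t^2/2`, hence (choose the sign of `H'(0) = ev (L i u) x`)
`t |L i u| <= |u(R_t x)| + |u(R_{-t} x)| + |u(x)| + B t^2 / 2` and
`t^2 (L i u)^2 <= 4 (u(R_t x)^2 + u(R_{-t} x)^2 + u(x)^2 + B^2 t^4/4)`.
Average over the sphere (`av_comp_isometry`, `exists_rot`):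
`E[(L i u)^2] <= 12 E[u^2]/t^2 + B^2 t^2`.  (The function is continuous, all averages exist.) -/
theorem L_interp (u : P) (B : ℝ) (hB : 0 ≤ B) (i : Fin 3)
    (h : ∀ x : E3, ‖x‖ = 1 → -B ≤ ev (L i (L i u)) x) (t : ℝ) (ht : 0 < t) :
    EE (L i u * L i u) ≤ 12 * EE (u * u) / t ^ 2 + B ^ 2 * t ^ 2 := by
  obtain ⟨R1, hR1⟩ := exists_rot i t
  obtain ⟨R2, hR2⟩ := exists_rot i (-t)
  have cu : Continuous (ev u) := continuous_ev u
  have key : ∀ x : E3, ‖x‖ = 1 → t ^ 2 * ev (L i u * L i u) x ≤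
      4 * (ev (u * u) (R1 x) + ev (u * u) (R2 x)) + (4 * ev (u * u) x + B ^ 2 * t ^ 4) := by
    intro x hx
    have hn : ∀ s, ‖rotv i s x‖ = 1 := fun s => by rw [norm_rotv, hx]
    have T := RefD_taylor (H := fun s => ev u (rotv i s x)) (H1 := fun s => ev (L i u) (rotv i s x))
      (H2 := fun s => ev (L i (L i u)) (rotv i s x)) (fun s => hasDerivAt_rotv i u x s)
      (fun s => hasDerivAt_rotv i (L i u) x s) B (fun s => h _ (hn s)) t ht.le
    simp only [rotv_zero] at T
    rw [hR1, hR2]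
    simp only [ev_mul]
    set a := ev (L i u) x
    set b := ev u (rotv i t x)
    set c := ev u (rotv i (-t) x)
    set d := ev u x
    have h0 : 0 ≤ t * |a| := mul_nonneg ht.le (abs_nonneg a)
    have h1 : (t * |a|) ^ 2 ≤ (|b| + |c| + |d| + B * t ^ 2 / 2) ^ 2 :=
      pow_le_pow_left₀ h0 T 2
    have h2 : (t * |a|) ^ 2 = t ^ 2 * (a * a) := by
      rw [mul_pow, sq_abs]; ring
    have h3 : (|b| + |c| + |d| + B * t ^ 2 / 2) ^ 2 ≤
        4 * (|b| ^ 2 + |c| ^ 2 + |d| ^ 2 + (B * t ^ 2 / 2) ^ 2) := by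
      nlinarith [sq_nonneg (|b| - |c|), sq_nonneg (|b| - |d|), sq_nonneg (|c| - |d|),
        sq_nonneg (|b| - B * t ^ 2 / 2), sq_nonneg (|c| - B * t ^ 2 / 2),
        sq_nonneg (|d| - B * t ^ 2 / 2)]
    rw [sq_abs, sq_abs, sq_abs] at h3
    rw [h2] at h1
    nlinarith [h1, h3]
  have cuu : Continuous (ev (u * u)) := continuous_ev _
  have c1 : Continuous (fun x => ev (u * u) (R1 x)) := cuu.comp R1.continuous
  have c2 : Continuous (fun x => ev (u * u) (R2 x)) := cuu.comp R2.continuous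
  have cl : Continuous (ev (L i u * L i u)) := continuous_ev _
  have c12 : Continuous (fun x => ev (u * u) (R1 x) + ev (u * u) (R2 x)) := c1.add c2
  have M := av_mono (f := fun x => t ^ 2 * ev (L i u * L i u) x)
    (g := fun x => 4 * (ev (u * u) (R1 x) + ev (u * u) (R2 x)) +
      (4 * ev (u * u) x + B ^ 2 * t ^ 4))
    (continuous_const.mul cl).continuousOn
    (((continuous_const.mul c12)).add
      ((continuous_const.mul cuu).add continuous_const)).continuousOn key
  rw [av_const_mul,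
    av_add (f := fun x => 4 * (ev (u * u) (R1 x) + ev (u * u) (R2 x)))
      (g := fun x => 4 * ev (u * u) x + B ^ 2 * t ^ 4)
      (continuous_const.mul c12).continuousOn
      ((continuous_const.mul cuu).add continuous_const).continuousOn,
    av_const_mul,
    av_add (f := fun x => ev (u * u) (R1 x)) (g := fun x => ev (u * u) (R2 x))
      c1.continuousOn c2.continuousOn,
    av_add (f := fun x => 4 * ev (u * u) x) (g := fun _ => B ^ 2 * t ^ 4)
      (continuous_const.mul cuu).continuousOn continuous_const.continuousOn,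
    av_const_mul, av_const, av_comp_isometry R1, av_comp_isometry R2] at M
  have e1 : av (fun x => ev (L i u * L i u) x) = EE (L i u * L i u) := rfl
  have e2 : av (fun x => ev (u * u) x) = EE (u * u) := rfl
  have e3 : av (ev (u * u)) = EE (u * u) := rfl
  rw [e1] at M
  simp only [e2] at M
  have ht2 : 0 < t ^ 2 := by positivity
  rw [← sub_le_iff_le_add, le_div_iff₀ ht2]
  nlinarith [M]

/-- Sum over `i` and optimise `t^2 = sqrt (12 E[u u]) / B`:
`E[Gam u u] <= 3 * 2 * B * sqrt (12 E[u u])`, squared. (If `E[u u] = 0` let `t -> 0`.) -/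
theorem Gam_interp (u : P) (B : ℝ) (hB : 0 < B)
    (h : ∀ (i : Fin 3) (x : E3), ‖x‖ = 1 → -B ≤ ev (L i (L i u)) x) :
    EE (Gam u u) ^ 2 ≤ 432 * B ^ 2 * EE (u * u) := by
  have hG : 0 ≤ EE (Gam u u) := by
    apply EE_nonneg
    intro x hx
    unfold Gam
    rw [ev_sum]
    apply Finset.sum_nonneg
    intro i _
    rw [ev_mul]
    exact mul_self_nonneg _
  have hE : 0 ≤ EE (u * u) := by
    apply EE_nonneg
    intro x hx
    rw [ev_mul]
    exact mul_self_nonneg _
  have hall : ∀ t : ℝ, 0 < t → EE (Gam u u) ≤ 3 * (12 * EE (u * u) / t ^ 2 + B ^ 2 * t ^ 2) := by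
    intro t ht
    unfold Gam
    rw [EE_sum, Fin.sum_univ_three]
    have a0 := L_interp u B hB.le 0 (h 0) t ht
    have a1 := L_interp u B hB.le 1 (h 1) t ht
    have a2 := L_interp u B hB.le 2 (h 2) t ht
    linarith
  rcases hG.eq_or_lt with h0 | h0
  · have h1 : EE (Gam u u) = 0 := h0.symm
    rw [h1]
    have h2 : 0 ≤ 432 * B ^ 2 * EE (u * u) := mul_nonneg (by positivity) hE
    simpa using h2
  · set G := EE (Gam u u) with hGd
    have hpos : 0 < G / (6 * B ^ 2) := by positivity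
    have h1 := hall (Real.sqrt (G / (6 * B ^ 2))) (Real.sqrt_pos.mpr hpos)
    rw [Real.sq_sqrt hpos.le] at h1
    have h2 : 12 * EE (u * u) / (G / (6 * B ^ 2)) = 72 * B ^ 2 * EE (u * u) / G := by
      field_simp
      ring
    have h3 : B ^ 2 * (G / (6 * B ^ 2)) = G / 6 := by
      field_simp
    rw [h2, h3] at h1
    have h4 : G / 2 ≤ 216 * B ^ 2 * EE (u * u) / G := by
      have : 3 * (72 * B ^ 2 * EE (u * u) / G) = 216 * B ^ 2 * EE (u * u) / G := by ring
      linarith
    rw [le_div_iff₀ h0] at h4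
    nlinarith [h4]

end Pool.Agent.Lib.MP_dabcc9_gt
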