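import Pool.Agent.Lib.MP_dabcc9_gt.Main1B
import Pool.Agent.Lib.MP_dabcc9_gt.RefC
import Pool.Agent.Lib.MP_dabcc9_gt.RefD

/-! JOB A11c. Normalised main inequality. -/

open MvPolynomial Matrix

namespace Pool.Agent.Lib.MP_dabcc9_gt

noncomputable section

/-- The linear form `y ↦ <y, x0>`. -/
def linf (x0 : E3) : P := ∑ i, C (x0 i) * X i

theorem ev_linf (x0 y : E3) : ev (linf x0) y = inner ℝ y x0 := by
  rw [inner_eq3]
  simp only [linf, Fin.sum_univ_three, ev_add, ev_mul, ev_C, ev_X]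
  ring

theorem EE_mul_linf (p : P) (x0 : E3) (hX : ∀ i, EE (p * X i) = 0) : EE (p * linf x0) = 0 := by
  have h : p * linf x0 = C (x0 0) * (p * X 0) + C (x0 1) * (p * X 1) + C (x0 2) * (p * X 2) := by
    simp only [linf, Fin.sum_univ_three]
    ring
  rw [h, EE_add, EE_add, EE_C_mul, EE_C_mul, EE_C_mul, hX, hX, hX]
  ring

theorem EE_mul_linf_sq (p : P) (x0 : E3) (hx0 : ‖x0‖ = 1) (Q : Matrix (Fin 3) (Fin 3) ℝ)
    (hQ : ∀ i j, Q i j = 15 / 2 * EE ((p - 1) * (X i * X j))) :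
    EE (p * linf x0 ^ 2) = 1 / 3 + 2 / 15 * ev (qf Q) x0 := by
  have hij : ∀ i j, EE (p * (X i * X j)) = (if i = j then 1 / 3 else 0) + 2 / 15 * Q i j := by
    intro i j
    have h : p * (X i * X j) = X i * X j + (p - 1) * (X i * X j) := by ring
    rw [h, EE_add, EE_XX, hQ]
    ring
  have h : p * linf x0 ^ 2 = ∑ i, ∑ j, C (x0 i * x0 j) * (p * (X i * X j)) := by
    simp only [linf, Fin.sum_univ_three, C_mul]
    ring
  have hn : x0 0 ^ 2 + x0 1 ^ 2 + x0 2 ^ 2 = 1 := by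
    rw [← norm_sq_eq3, hx0]
    norm_num
  have hq : ev (qf Q) x0 = ∑ i, ∑ j, Q i j * (x0 i * x0 j) := by
    simp only [qf, ev_sum, ev_mul, ev_C, ev_X]
  have hE : EE (∑ i, ∑ j, C (x0 i * x0 j) * (p * (X i * X j))) =
      (∑ i, ∑ j, x0 i * x0 j * (if i = j then 1 / 3 else 0))
        + 2 / 15 * ∑ i, ∑ j, Q i j * (x0 i * x0 j) := by
    rw [EE_sum, Finset.mul_sum, ← Finset.sum_add_distrib]
    refine Finset.sum_congr rfl fun i _ => ?_
    rw [EE_sum, Finset.mul_sum, ← Finset.sum_add_distrib]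
    refine Finset.sum_congr rfl fun j _ => ?_
    rw [EE_C_mul, hij]
    ring
  have hd : (∑ i, ∑ j, x0 i * x0 j * (if i = j then (1 / 3 : ℝ) else 0)) = 1 / 3 := by
    simp only [Finset.sum_ite_eq, mul_ite, mul_zero, Finset.mem_univ, if_true,
      Fin.sum_univ_three]
    linear_combination (1 / 3) * hn
  rw [h, hq, hE, hd]

theorem av_kernel (p : P) (h1 : EE p = 1) (hX : ∀ i, EE (p * X i) = 0) (x0 : E3)
    (hx0 : ‖x0‖ = 1) (Q : Matrix (Fin 3) (Fin 3) ℝ)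
    (hQ : ∀ i j, Q i j = 15 / 2 * EE ((p - 1) * (X i * X j))) (c : ℝ) :
    av (fun y => ev p y * (15 / 2 * (inner ℝ y x0) ^ 2 + 3 * inner ℝ y x0 - c)) =
      ev (qf Q) x0 + 5 / 2 - c := by
  have h : av (fun y => ev p y * (15 / 2 * (inner ℝ y x0) ^ 2 + 3 * inner ℝ y x0 - c)) =
      EE (C (15 / 2) * (p * linf x0 ^ 2) + C 3 * (p * linf x0) - C c * p) := by
    unfold EE
    refine av_congr fun y _ => ?_
    rw [ev_sub, ev_add, ev_mul, ev_mul, ev_mul, ev_mul, ev_mul, ev_pow, ev_linf, ev_C, ev_C, ev_C]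
    ring
  rw [h, EE_sub, EE_add, EE_C_mul, EE_C_mul, EE_C_mul, EE_mul_linf p x0 hX,
    EE_mul_linf_sq p x0 hx0 Q hQ, h1]
  ring

/-- `E[Gam u u]^2 <= 1905.12 E[u u]` for `u = p - 1` when `p <= 2.1`. -/
theorem Main1C_Gam (p : P) (hp : ConvS p) (hB : ∀ x : E3, ‖x‖ = 1 → ev p x ≤ 2.1) :
    EE (Gam (p - 1) (p - 1)) ^ 2 ≤ 432 * 2.1 ^ 2 * EE ((p - 1) * (p - 1)) := by
  apply Gam_interp (p - 1) 2.1 (by norm_num)
  intro i x hx
  have h1 := LL_lower hp 2.1 (by norm_num) hB i x hx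
  have h2 : L i (L i (p - 1)) = L i (L i p) := by
    have hC : (1 : P) = C 1 := by simp
    rw [map_sub, hC]
    have : L i (C 1 : P) = 0 := by
      rw [← algebraMap_eq]; exact (L i).map_algebraMap 1
    rw [this, sub_zero]
  rw [h2]
  exact h1

/-- Normalised main inequality, refined.  `u = p - 1`; if `E[detA p] <= 83/100` it is trivial;
otherwise `delta = 1 - E[detA p] < 17/100` and `J_lower`, `ident_J`, `A_nonneg`. The sup bounds for
`v = u - qf Q` follow from `hup`, `hlow`: `ev (qf Q) x0 = 15/2 E[u <y,x0>^2]`. -/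
theorem main_normalised (p : P) (hp : ConvS p) (h1 : EE p = 1) (hX : ∀ i, EE (p * X i) = 0)
    (hpos : 0 ≤ EE (p * detA p)) (hdet : 0 ≤ EE (detA p))
    (hup : ∀ x0 : E3, ‖x0‖ = 1 → ev p x0 ≤
      av fun y => ev p y * (15 / 2 * (inner ℝ y x0) ^ 2 + 3 * inner ℝ y x0 - 11 / 10))
    (hlow : ∀ x0 : E3, ‖x0‖ = 1 →
      av (fun y => ev p y * (15 / 2 * (inner ℝ y x0) ^ 2 + 3 * inner ℝ y x0 - 21 / 10)) ≤ ev p x0) :
    6 * EE (detA p) - 5 + (1 - EE (detA p)) ^ 2 / 32000 ≤ EE (p * detA p) := by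
  rcases le_or_gt (EE (detA p)) (83 / 100) with hd | hd
  · have : (1 - EE (detA p)) ^ 2 / 32000 ≤ 1 / 32000 := by
      apply div_le_div_of_nonneg_right _ (by norm_num)
      nlinarith
    linarith
  have hu : EE (p - 1) = 0 := by
    rw [EE_sub, EE_one, h1]
    ring
  have huX : ∀ i, EE ((p - 1) * X i) = 0 := by
    intro i
    have h : (p - 1) * X i = p * X i - X i := by ring
    rw [h, EE_sub, hX, EE_X]
    ring
  obtain ⟨Q, hQ, hQe, hv⟩ := deg2_proj (p - 1) hu huX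
  have hqv : qf Q + (p - 1 - qf Q) = p - 1 := by ring
  have hpu : 1 + (p - 1) = p := by ring
  have hlow' : ∀ x : E3, ‖x‖ = 1 → -(3 / 5) ≤ ev (p - 1 - qf Q) x := by
    intro x hx
    have h := hlow x hx
    rw [av_kernel p h1 hX x hx Q hQe] at h
    rw [ev_sub, ev_sub, ev_one]
    linarith
  have hup' : ∀ x : E3, ‖x‖ = 1 → ev (p - 1 - qf Q) x ≤ 2 / 5 := by
    intro x hx
    have h := hup x hx
    rw [av_kernel p h1 hX x hx Q hQe] at h
    rw [ev_sub, ev_sub, ev_one]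
    linarith
  have hG : Gam (p - 1) (p - 1) = Gam p p := by
    have hC : (1 : P) = C 1 := by simp
    rw [hC, Gam_sub_left, Gam_sub_right, Gam_comm p (C 1), Gam_C_left, Gam_C_left]
    ring
  have hpp : EE ((p - 1) * (p - 1)) = EE (p * p) - 1 := by
    have h : (p - 1) * (p - 1) = p * p - 2 * p + 1 := by ring
    rw [h, EE_add, EE_sub, EE_two_mul, EE_one, h1]
    ring
  have hδe : 1 - EE (detA p) = 1 / 2 * EE (Gam (p - 1) (p - 1)) - EE ((p - 1) * (p - 1)) := by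
    rw [hG, hpp]
    have h := EE_detA p
    linarith
  have hδ : 1 / 2 * EE (Gam (qf Q + (p - 1 - qf Q)) (qf Q + (p - 1 - qf Q)))
      - EE ((qf Q + (p - 1 - qf Q)) * (qf Q + (p - 1 - qf Q))) ≤ 17 / 100 := by
    rw [hqv, ← hδe]
    linarith
  -- the size of `Q`
  obtain ⟨-, -, -, h12⟩ := poisson (p - 1 - qf Q) hv
  have hqv0 : EE (qf Q * (p - 1 - qf Q)) = 0 := by
    rw [mul_comm]
    exact hv _ (Main1B_deg Q)
  have hδ2 := Main1B_delta Q hQ (p - 1 - qf Q) _ hqv0 h12 hδ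
  have ht2 : 0 ≤ t2 Q := by
    unfold t2
    positivity
  have hvv : 0 ≤ EE ((p - 1 - qf Q) * (p - 1 - qf Q)) := by
    apply EE_nonneg
    intro x _
    rw [ev_mul]
    exact mul_self_nonneg _
  have hs : Real.sqrt (2 / 3) * Real.sqrt (t2 Q) ≤ 7 / 10 := by
    rw [← Real.sqrt_mul (by norm_num)]
    rw [show (7 / 10 : ℝ) = Real.sqrt ((7 / 10) ^ 2) from (Real.sqrt_sq (by norm_num)).symm]
    apply Real.sqrt_le_sqrt
    linarith
  have hB : ∀ x : E3, ‖x‖ = 1 → ev p x ≤ 2.1 := by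
    intro x hx
    have e1 := (abs_le.1 ((qf_abs_le hQ x hx).trans hs)).2
    have e2 := hup' x hx
    rw [ev_sub, ev_sub, ev_one] at e2
    linarith
  have hGi := Main1C_Gam p hp hB
  obtain ⟨w, hw, hJ⟩ := J_lower Q hQ (p - 1 - qf Q) hv hlow' hup' hδ
  rw [hqv] at hw hJ
  have hid := ident_J (p - 1) w hw hu
  rw [hpu] at hid
  have hA : 0 ≤ EE (HQ p (p - 1 - w) + p * Gam (p - 1 - w) (p - 1 - w)) :=
    EE_nonneg fun x hx => A_nonneg hp (p - 1 - w) x hx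
  have huu : 0 ≤ EE ((p - 1) * (p - 1)) := by
    apply EE_nonneg
    intro x _
    rw [ev_mul]
    exact mul_self_nonneg _
  have hd2 : (1 - EE (detA p)) ^ 2 ≤ 1 / 4 * EE (Gam (p - 1) (p - 1)) ^ 2 := by
    have e0 : 0 ≤ 1 - EE (detA p) := by
      rw [hδe]
      have e1 : 1 / 2 * EE (Gam (qf Q + (p - 1 - qf Q)) (qf Q + (p - 1 - qf Q)))
        - EE ((qf Q + (p - 1 - qf Q)) * (qf Q + (p - 1 - qf Q)))
        = 1 / 2 * EE (Gam (p - 1) (p - 1)) - EE ((p - 1) * (p - 1)) := by rw [hqv]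
      have e2 := Main1B_delta Q hQ (p - 1 - qf Q) _ hqv0 h12 e1.le
      have e3 : 0 ≤ 4 / 15 * t2 Q + 5 * EE ((p - 1 - qf Q) * (p - 1 - qf Q)) := by positivity
      linarith
    have e1 : 1 - EE (detA p) ≤ 1 / 2 * EE (Gam (p - 1) (p - 1)) := by linarith
    have e2 : (1 - EE (detA p)) ^ 2 ≤ (1 / 2 * EE (Gam (p - 1) (p - 1))) ^ 2 :=
      pow_le_pow_left₀ e0 e1 2
    linarith [e2, (by ring : (1 / 2 * EE (Gam (p - 1) (p - 1))) ^ 2
      = 1 / 4 * EE (Gam (p - 1) (p - 1)) ^ 2)]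
  norm_num at hGi
  linarith

end

end Pool.Agent.Lib.MP_dabcc9_gt
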