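import Pool.Agent.Lib.MP_dabcc9_gt.LocD
import Pool.Agent.Lib.MP_dabcc9_gt.LocG
import Pool.Agent.Lib.MP_dabcc9_gt.LocH
import Pool.Agent.Lib.MP_dabcc9_gt.LocI
import Pool.Agent.Lib.MP_dabcc9_gt.Main1C

/-! JOB L9.  Assembly of the local lower bound, normalised. -/

open MvPolynomial Matrix

namespace Pool.Agent.Lib.MP_dabcc9_gt

noncomputable section

/-- numbers for `main_local` -/
theorem LocJ_num (a δ X W c Vg D I J G L k τ T : ℝ) (hτ : τ = 1 / 10 ^ 12) (hT : T = 2 / 10 ^ 6)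
    (ha : 0 ≤ a) (hX : 0 ≤ X) (hW : 0 ≤ W) (hD : 0 ≤ D) (hVg : 0 ≤ Vg) (hG0 : 0 ≤ G)
    (hδ0 : 0 ≤ δ) (hδ1 : δ ≤ 1 / 10 ^ 51) (hk : k ≤ 1 / 10 ^ 25)
    (h1 : 21 * δ ^ 2 ≤ 15 * a + 4 * Vg - 18 * c + 210 * τ * (a + δ ^ 2 + Vg) + (3 * τ + 15 * δ) * D)
    (h2 : Vg ≤ 1 / 2 * (1 + τ + 3 * T) * D) (h3 : X = D - 2 * (2 * c) + W)
    (h4 : (2 * c - W) ^ 2 ≤ X * W) (hL : L = 4 * a)
    (h5 : |W - G| ≤ τ * G + T * (G + L)) (hG : G ≤ 2 / 3 * a)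
    (hJ : a - 1 / 2 * G - (3 * k + 2 * (2 * τ)) * a ≤ J) (hI : I = 3 * (1 / 2 * X + J)) :
    19 / 5 * δ ^ 2 ≤ I := by
  subst hτ hT
  obtain ⟨h5a, h5b⟩ := abs_le.1 h5
  have hka : k * a ≤ 1 / 10 ^ 25 * a := mul_le_mul_of_nonneg_right hk ha
  have hδ2 : 0 ≤ δ ^ 2 := sq_nonneg _
  have hδD : δ * D ≤ 1 / 10 ^ 51 * D := mul_le_mul_of_nonneg_right hδ1 hD
  norm_num at hka hδD h1 h2 h5a h5b hJ
  apply local_real a δ X W c Vg D I (1 / 10000) ha hX hW hD (by norm_num) le_rfl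
  · norm_num
    linarith
  · norm_num
    linarith
  · linarith
  · exact h4
  · norm_num
    linarith
  · norm_num
    linarith

/-- PROOF.  `u = p - 1`, `δ = 1 - E[detA p]`; as in `main_normalised` (Main1C.lean, copy):
`δ = 1/2 E[Gam u u] - E[u u]`, `Q` from `deg2_proj`, `v = u - qf Q`, `p <= 2.1` on the sphere,
`4/15 t2 Q + 5 E[v v] <= δ` (`Main1B_delta`), so `a := E[u u] <= δ/2` and `t2 Q <= 15/4 δ`.
Numbers: `τ = 1/10^12`, `T = 2/10^6` (`T^2 = 4 τ`), `δ < η = 1/10^51`.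
`lip` with `B = 2.1` for `p`, hence for `u`; `|u| <= 2.1` (by `lip` and mean zero, or from
`-2.1 <= - ‖Gp‖ <= p`, `p <= 2.1`: any argument; e.g. `grad_bound` gives `p^2 <= 2.1^2`, and
`u = p - 1`; `u <= 1.1`, and `u >= -3.1` is improved by `hlow`: `v >= -3/5`, `|qf Q| <= 7/10`);
`sup_quartic`: `u^4 <= 64 * 2.1^2 * δ/2 <= τ^4`, so `|u| <= τ`; `grad_small`: `Gam u u <= T^2`.
`|qf Q| <= sqrt(2/3) sqrt(t2 Q) <= 1/10^25`, so `|v| <= 2 τ`; `sqrt (t2 Q) <= 1/10^25`.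
`w` from `J_local` with `2 τ`.  `X = QA p (u-w) (u-w)`, `W = QA p w w`, `c = E[Gf u * u]`,
`D = QA p u u`, `I = E[p detA p] - 6 E[detA p] + 5`.  `ident_J`: `I = 3 (1/2 X + J)`
(`HQ p (u-w) + p Gam = ` the integrand of `QA`, `HB_self`).  `QA_u`: `QA p u w = 2 c`
(`Lap w = - 2 u` on the sphere).  So `X = D - 4 c + W` (`QA_sub_sub`) and
`2 c - W = QA p (u - w) w` (`QA_sub_left`), `QA_cs`.  `QA_close` for `w`: `E[(Lap w)^2] = 4 a`,
`E[Gam w w] <= 2/3 a`, so `|W - E[Gam w w]| <= τ a + T (2/3 a + 4 a)`.  All errors are below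
`ε = 1/10000`; `cert_ineq`, `var_le`, `local_real`. -/
theorem main_local : ∃ η : ℝ, 0 < η ∧ η ≤ 17 / 100 ∧ ∀ (p : P), ConvS p → EE p = 1 →
    (∀ i, EE (p * X i) = 0) →
    (∀ x0 : E3, ‖x0‖ = 1 → ev p x0 ≤
      av fun y => ev p y * (15 / 2 * (inner ℝ y x0) ^ 2 + 3 * inner ℝ y x0 - 11 / 10)) →
    (∀ x0 : E3, ‖x0‖ = 1 →
      av (fun y => ev p y * (15 / 2 * (inner ℝ y x0) ^ 2 + 3 * inner ℝ y x0 - 21 / 10)) ≤ ev p x0) →
    1 - η < EE (detA p) →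
    6 * EE (detA p) - 5 + 19 / 5 * (1 - EE (detA p)) ^ 2 ≤ EE (p * detA p) := by
  refine ⟨1 / 10 ^ 51, by norm_num, by norm_num, ?_⟩
  intro p hp h1 hX hup hlow hdet
  have hu : EE (p - 1) = 0 := by
    rw [EE_sub, EE_one, h1]
    ring
  have huX : ∀ i, EE ((p - 1) * X i) = 0 := by
    intro i
    have h : (p - 1) * X i = p * X i - X i := by ring
    rw [h, EE_sub, hX, EE_X]
    ring
  obtain ⟨Q, hQ, hQe, hv⟩ := deg2_proj (p - 1) hu huX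
  have hqv : qf Q + (p - 1 - qf Q) = p - 1 := by ring
  have hpu : 1 + (p - 1) = p := by ring
  have hlow' : ∀ x : E3, ‖x‖ = 1 → -(3 / 5) ≤ ev (p - 1 - qf Q) x := by
    intro x hx
    have h := hlow x hx
    rw [av_kernel p h1 hX x hx Q hQe] at h
    rw [ev_sub, ev_sub, ev_one]
    linarith
  have hup' : ∀ x : E3, ‖x‖ = 1 → ev (p - 1 - qf Q) x ≤ 2 / 5 := by
    intro x hx
    have h := hup x hx
    rw [av_kernel p h1 hX x hx Q hQe] at h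
    rw [ev_sub, ev_sub, ev_one]
    linarith
  have hG : Gam (p - 1) (p - 1) = Gam p p := by
    have hC : (1 : P) = C 1 := by simp
    rw [hC, Gam_sub_left, Gam_sub_right, Gam_comm p (C 1), Gam_C_left, Gam_C_left]
    ring
  have hpp : EE ((p - 1) * (p - 1)) = EE (p * p) - 1 := by
    have h : (p - 1) * (p - 1) = p * p - 2 * p + 1 := by ring
    rw [h, EE_add, EE_sub, EE_two_mul, EE_one, h1]
    ring
  have hδe : 1 - EE (detA p) = 1 / 2 * EE (Gam (p - 1) (p - 1)) - EE ((p - 1) * (p - 1)) := by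
    rw [hG, hpp]
    have h := EE_detA p
    linarith
  obtain ⟨δ, hδ⟩ : ∃ δ : ℝ, δ = 1 - EE (detA p) := ⟨_, rfl⟩
  have hδ1 : δ ≤ 1 / 10 ^ 51 := by rw [hδ]; linarith
  have hδQ : 1 / 2 * EE (Gam (qf Q + (p - 1 - qf Q)) (qf Q + (p - 1 - qf Q)))
      - EE ((qf Q + (p - 1 - qf Q)) * (qf Q + (p - 1 - qf Q))) ≤ δ := by
    rw [hqv, ← hδe, hδ]
  -- the size of `Q`
  obtain ⟨-, -, -, h12⟩ := poisson (p - 1 - qf Q) hv
  have hqv0 : EE (qf Q * (p - 1 - qf Q)) = 0 := by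
    rw [mul_comm]
    exact hv _ (Main1B_deg Q)
  have hδ2 := Main1B_delta Q hQ (p - 1 - qf Q) _ hqv0 h12 hδQ
  have ht2 : 0 ≤ t2 Q := by
    unfold t2
    positivity
  have hvv : 0 ≤ EE ((p - 1 - qf Q) * (p - 1 - qf Q)) := by
    apply EE_nonneg
    intro x _
    rw [ev_mul]
    exact mul_self_nonneg _
  have huu : 0 ≤ EE ((p - 1) * (p - 1)) := by
    apply EE_nonneg
    intro x _
    rw [ev_mul]
    exact mul_self_nonneg _
  have hae : EE ((p - 1) * (p - 1)) = 2 / 15 * t2 Q + EE ((p - 1 - qf Q) * (p - 1 - qf Q)) := by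
    have h4 : (p - 1) * (p - 1) = qf Q * qf Q + 2 * (qf Q * (p - 1 - qf Q))
        + (p - 1 - qf Q) * (p - 1 - qf Q) := by ring
    rw [h4, EE_add, EE_add, EE_two_mul, hqv0, EE_qf_sq hQ]
    ring
  have had : EE ((p - 1) * (p - 1)) ≤ δ / 2 := by linarith
  have hδ0 : 0 ≤ δ := by linarith
  have hk : Real.sqrt (t2 Q) ≤ 1 / 10 ^ 25 := by
    rw [Real.sqrt_le_left (by norm_num)]
    norm_num
    norm_num at hδ1
    linarith
  have hqs : ∀ x : E3, ‖x‖ = 1 → |ev (qf Q) x| ≤ 1 / 10 ^ 25 := by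
    intro x hx
    refine (qf_abs_le hQ x hx).trans ?_
    have h23 : Real.sqrt (2 / 3) ≤ 1 := by
      rw [Real.sqrt_le_one]
      norm_num
    calc Real.sqrt (2 / 3) * Real.sqrt (t2 Q) ≤ 1 * Real.sqrt (t2 Q) :=
          mul_le_mul_of_nonneg_right h23 (Real.sqrt_nonneg _)
      _ ≤ 1 / 10 ^ 25 := by rw [one_mul]; exact hk
  have hB : ∀ x : E3, ‖x‖ = 1 → ev p x ≤ 2.1 := by
    intro x hx
    have e1 := (abs_le.1 (hqs x hx)).2
    have e2 := hup' x hx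
    rw [ev_sub, ev_sub, ev_one] at e2
    norm_num at e1
    norm_num
    linarith
  have hlipp := lip hp 2.1 (by norm_num) hB
  have hlip : ∀ x y : E3, ‖x‖ = 1 → ‖y‖ = 1 → |ev (p - 1) x - ev (p - 1) y| ≤ 2.1 * ‖x - y‖ := by
    intro x y hx hy
    have e : ev (p - 1) x - ev (p - 1) y = ev p x - ev p y := by
      rw [ev_sub, ev_sub, ev_one, ev_one]
      ring
    rw [e]
    exact hlipp x y hx hy
  have hub : ∀ x : E3, ‖x‖ = 1 → |ev (p - 1) x| ≤ 2.1 := by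
    intro x hx
    obtain ⟨e1, e2⟩ := abs_le.1 (hqs x hx)
    have e3 := hup' x hx
    have e4 := hlow' x hx
    rw [ev_sub] at e3 e4
    norm_num at e1 e2
    rw [abs_le]
    norm_num
    constructor
    · linarith
    · linarith
  obtain ⟨τ, hτ⟩ : ∃ τ : ℝ, τ = 1 / 10 ^ 12 := ⟨_, rfl⟩
  obtain ⟨T, hT⟩ : ∃ T : ℝ, T = 2 / 10 ^ 6 := ⟨_, rfl⟩
  have hτ0 : 0 ≤ τ := by rw [hτ]; norm_num
  have hT0 : 0 ≤ T := by rw [hT]; norm_num
  have hus : ∀ x : E3, ‖x‖ = 1 → |ev (p - 1) x| ≤ τ := by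
    intro x hx
    have e1 := sup_quartic (p - 1) 2.1 (by norm_num) hlip x hx (hub x hx)
    have e2 : |ev (p - 1) x| ^ 4 ≤ τ ^ 4 := by
      have e3 : |ev (p - 1) x| ^ 4 = ev (p - 1) x ^ 4 := by
        rw [show (4 : ℕ) = 2 * 2 from rfl, pow_mul, pow_mul, sq_abs]
      rw [e3, hτ]
      refine e1.trans ?_
      norm_num
      norm_num at hδ1
      linarith
    exact (pow_le_pow_iff_left₀ (abs_nonneg _) hτ0 (by norm_num)).1 e2
  have hps : ∀ x : E3, ‖x‖ = 1 → |ev p x - 1| ≤ τ := by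
    intro x hx
    have := hus x hx
    rwa [ev_sub, ev_one] at this
  have hGs : ∀ x : E3, ‖x‖ = 1 → ev (Gam (p - 1) (p - 1)) x ≤ T ^ 2 := by
    intro x hx
    have e1 := grad_small hp τ hτ0 (by rw [hτ]; norm_num) hps x hx
    rw [hG]
    refine e1.trans (le_of_eq ?_)
    rw [hτ, hT]
    norm_num
  have hvs : ∀ x : E3, ‖x‖ = 1 → |ev (p - 1 - qf Q) x| ≤ 2 * τ := by
    intro x hx
    have e1 := hus x hx
    have e2 := hqs x hx
    rw [ev_sub]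
    refine (abs_sub _ _).trans ?_
    have e3 : (1 : ℝ) / 10 ^ 25 ≤ τ := by rw [hτ]; norm_num
    linarith
  obtain ⟨w, hw, hGw, hJ⟩ := J_local Q hQ (p - 1 - qf Q) hv (2 * τ) (by linarith) hvs
  rw [hqv] at hw hGw hJ
  have hid := ident_J (p - 1) w hw hu
  have hpc : ConvS (1 + (p - 1)) := by rw [hpu]; exact hp
  have hdd : δ = 1 / 2 * EE (Gam (p - 1) (p - 1)) - EE ((p - 1) * (p - 1)) := by rw [hδ, hδe]
  have hδ10 : δ ≤ 1 / 10 := hδ1.trans (by norm_num)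
  have hcert := cert_ineq (p - 1) hu hpc τ δ hτ0 (by rw [hτ]; norm_num) hdd had hδ10 hus
  have hvar := var_le (p - 1) hpc τ T hτ0 hT0 hGs hus
  have hvar0 := var_nonneg (Gf (p - 1))
  have hclose := QA_close (p - 1) w τ T hT0 hGs hus
  have hD := QA_nonneg hpc (p - 1)
  have hW := QA_nonneg hpc w
  have hXX := QA_nonneg hpc (p - 1 - w)
  have hss := QA_sub_sub (1 + (p - 1)) (p - 1) w
  have hsl := QA_sub_left (1 + (p - 1)) (p - 1) w w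
  have hcs := QA_cs hpc (p - 1 - w) w
  have huw : QA (1 + (p - 1)) (p - 1) w = 2 * EE (Gf (p - 1) * (p - 1)) := by
    rw [QA_u, EE_congr ((EqS.refl (Gf (p - 1))).mul hw)]
    have e1 : Gf (p - 1) * -(2 * (p - 1)) = -(2 * (Gf (p - 1) * (p - 1))) := by ring
    rw [e1, EE_neg, EE_two_mul]
    ring
  rw [huw] at hss hsl
  rw [hsl] at hcs
  have hLL : EE (Lap w * Lap w) = 4 * EE ((p - 1) * (p - 1)) := by
    rw [EE_congr (hw.mul hw)]
    have e1 : -(2 * (p - 1)) * -(2 * (p - 1)) = 2 * (2 * ((p - 1) * (p - 1))) := by ring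
    rw [e1, EE_two_mul, EE_two_mul]
    ring
  have hGw0 : 0 ≤ EE (Gam w w) := EE_nonneg fun x hx => Gam_nonneg w x
  have hXe : EE (HQ (1 + (p - 1)) (p - 1 - w) + (1 + (p - 1)) * Gam (p - 1 - w) (p - 1 - w)) =
      QA (1 + (p - 1)) (p - 1 - w) (p - 1 - w) := by
    unfold QA
    rw [HB_self]
  rw [hXe] at hid
  have hfin := LocJ_num (EE ((p - 1) * (p - 1))) δ (QA (1 + (p - 1)) (p - 1 - w) (p - 1 - w))
    (QA (1 + (p - 1)) w w) (EE (Gf (p - 1) * (p - 1)))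
    (EE (Gf (p - 1) * Gf (p - 1)) - EE (Gf (p - 1)) ^ 2) (QA (1 + (p - 1)) (p - 1) (p - 1))
    (EE ((1 + (p - 1)) * detA (1 + (p - 1))) - 6 * EE (detA (1 + (p - 1))) + 5)
    (Jf (p - 1) w) (EE (Gam w w)) (EE (Lap w * Lap w)) (Real.sqrt (t2 Q)) τ T hτ hT huu hXX hW hD
    hvar0 hGw0 hδ0 hδ1 hk hcert hvar hss hcs hLL hclose hGw hJ hid
  rw [hpu, hδ] at hfin
  linarith

end

end Pool.Agent.Lib.MP_dabcc9_gt
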