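import Pool.Agent.Lib.MP_dabcc9_gt.LocJ
import Pool.Agent.Lib.MP_dabcc9_gt.Seq

/-! Local lower bound for convex bodies. -/

open MeasureTheory Metric Set MvPolynomial Filter Topology

namespace Pool.Agent.Lib.MP_dabcc9_gt

noncomputable section

theorem body_local : ∃ η : ℝ, 0 < η ∧ ∀ K : Set E3, IsBody K → 1 - η < bX K →
    6 * bX K - 5 + 19 / 5 * (1 - bX K) ^ 2 ≤ bY K := by
  obtain ⟨η, hη, -, hmain⟩ := main_local
  refine ⟨η, hη, fun K hK hx => ?_⟩
  have hbv := body_values hK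
  obtain ⟨hKc, hKv, hKn⟩ := hK
  obtain ⟨x, y, h1, p, hp, hpm, hpv, hpd, hM, hX, hY⟩ := steiner_seq' hKc hKv hKn.nonempty
  have hm := av_supp_pos hKc hKn
  have hMc := curvM_eq hKc hKn.nonempty
  obtain ⟨m, hmd⟩ : ∃ m, m = av (supp K) := ⟨_, rfl⟩
  rw [← hmd] at h1 hM hm hMc
  have hpi := Real.pi_pos
  have hd : HasDerivWithinAt (fun t => vol (cthickening t K)) (4 * Real.pi * x) (Ici 0) 0 := by
    have h3 : HasDerivAt (fun t : ℝ => 4 * Real.pi / 3 *
        (y + 3 * t * x + 3 * t ^ 2 * m + t ^ 3)) (4 * Real.pi * x) 0 := by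
      have e1 : HasDerivAt (fun t : ℝ => 3 * t * x) (3 * 1 * x) 0 :=
        ((hasDerivAt_id (0 : ℝ)).const_mul 3).mul_const x
      have e2 := ((hasDerivAt_pow 2 (0 : ℝ)).const_mul 3).mul_const m
      have e3 := hasDerivAt_pow 3 (0 : ℝ)
      have e4 := (((e1.const_add y).add e2).add e3).const_mul (4 * Real.pi / 3)
      refine e4.congr_deriv ?_
      norm_num
      ring
    exact h3.hasDerivWithinAt.congr (fun t ht => h1 t ht) (h1 0 le_rfl)
  have hsurf : surf K = 4 * Real.pi * x := hd.derivWithin (uniqueDiffWithinAt_Ici 0)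
  have hvol : vol K = 4 * Real.pi / 3 * y := by
    have h3 := h1 0 le_rfl
    rw [cthickening_zero, hKc.isClosed.closure_eq] at h3
    rw [h3]
    ring
  have hbx : bX K = x / m ^ 2 := by
    unfold bX
    rw [hMc, hsurf]
    field_simp
  have hby : bY K = y / m ^ 3 := by
    unfold bY
    rw [hMc, hvol]
    field_simp
    ring
  have hlim : Tendsto (fun n => EE (detA (p n)) / EE (p n) ^ 2) atTop (𝓝 (x / m ^ 2)) :=
    hX.div (hM.pow 2) (by positivity)
  have hlimY : Tendsto (fun n => EE (p n * detA (p n)) / EE (p n) ^ 3) atTop (𝓝 (y / m ^ 3)) :=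
    hY.div (hM.pow 3) (by positivity)
  rw [hbx] at hx
  have hev : ∀ᶠ n in atTop, 1 - η < EE (detA (p n)) / EE (p n) ^ 2 :=
    hlim.eventually (lt_mem_nhds hx)
  have hev2 : ∀ᶠ n in atTop, 6 * (EE (detA (p n)) / EE (p n) ^ 2) - 5
      + 19 / 5 * (1 - EE (detA (p n)) / EE (p n) ^ 2) ^ 2
      ≤ EE (p n * detA (p n)) / EE (p n) ^ 3 := by
    filter_upwards [hev] with n hn
    obtain ⟨q, hq, hq1, hqX, hqD, hqV⟩ := normalise (p n) (hp n) (hpm n)
    have e1 : EE (detA q) = EE (detA (p n)) / EE (p n) ^ 2 := by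
      rw [hqD]; field_simp
    have e2 : EE (q * detA q) = EE (p n * detA (p n)) / EE (p n) ^ 3 := by
      rw [hqV]; field_simp
    have := hmain q hq hq1 hqX (fun x0 h0 => sup_upper hq x0 h0) (fun x0 h0 => sup_lower hq x0 h0)
      (by rw [e1]; exact hn)
    rw [e1, e2] at this
    exact this
  rw [hbx, hby]
  exact le_of_tendsto_of_tendsto
    (((hlim.const_mul 6).sub_const 5).add (((hlim.const_sub 1).pow 2).const_mul (19 / 5))) hlimY hev2

end

end Pool.Agent.Lib.MP_dabcc9_gt
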