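import Pool.Agent.Lib.MP_dabcc9_gt.Basic

/-! JOB A11a. The final elementary inequality. -/

open MvPolynomial Matrix

namespace Pool.Agent.Lib.MP_dabcc9_gt

/-- Quantitative version of the final elementary inequality. -/
theorem final_ineq2 (k b f sb : ℝ) (hk : 0 ≤ k) (hb : 0 ≤ b) (hf : 0 ≤ f) (hfb : f ≤ 1 / 3 * b)
    (hsb : 0 ≤ sb) (hsb2 : sb ^ 2 = b) (h : 4 / 15 * k ^ 2 + 5 * b ≤ 17 / 100) :
    1 / 200 * (2 / 15 * k ^ 2 + b) ≤ 2 / 3 * (2 / 15 * k ^ 2 - 0.0312 * k ^ 3)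
      - 1 / 3 * (0.8165 * k * (0.36515 * k * sb))
      + b * (1 - 2 / 5 - 1 / 5 - 0.9429 * k) - f * (1 / 2 + 1 / 5 + (0.85 - 0.2357) * k) := by
  have hsb3 : sb ≤ 0.1844 := by
    have : b ≤ 0.034 := by nlinarith [sq_nonneg k]
    nlinarith
  have h1 : 1 / 3 * (0.8165 * k * (0.36515 * k * sb)) ≤ 0.0184 * k ^ 2 := by
    have : k ^ 2 * sb ≤ k ^ 2 * 0.1844 := mul_le_mul_of_nonneg_left hsb3 (sq_nonneg k)
    nlinarith [sq_nonneg k]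
  have h2 : f * (1 / 2 + 1 / 5 + (0.85 - 0.2357) * k) ≤ b * (0.23334 + 0.20477 * k) := by
    have h3 : f * (1 / 2 + 1 / 5 + (0.85 - 0.2357) * k) ≤
        1 / 3 * b * (1 / 2 + 1 / 5 + (0.85 - 0.2357) * k) :=
      mul_le_mul_of_nonneg_right hfb (by positivity)
    have h4 : 0 ≤ b * k := mul_nonneg hb hk
    nlinarith
  have h5 : 1 / 200 * (2 / 15 * k ^ 2 + b) ≤ 2 / 3 * (2 / 15 * k ^ 2 - 0.0312 * k ^ 3)
      - 0.0184 * k ^ 2 + b * (1 - 2 / 5 - 1 / 5 - 0.9429 * k) - b * (0.23334 + 0.20477 * k) := by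
    have hk3 : 0 ≤ (k - 0.25) ^ 2 * (k + 0.5) := by positivity
    have hkb : k ≤ 0.8 := by nlinarith
    by_cases hc : 1.14767 * k ≤ 0.16166
    · have h6 : 0 ≤ b * (0.16166 - 1.14767 * k) := mul_nonneg hb (by linarith)
      nlinarith [sq_nonneg k, mul_nonneg (sq_nonneg k) (sub_nonneg.2 hkb)]
    · push Not at hc
      have h6 : (0.034 - 4 / 75 * k ^ 2 - b) * (0.16166 - 1.14767 * k) ≤ 0 :=
        mul_nonpos_of_nonneg_of_nonpos (by linarith) (by linarith)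
      nlinarith [sq_nonneg (k - 0.25)]
  linarith

/-- The final elementary inequality. -/
theorem final_ineq (k b f sb : ℝ) (hk : 0 ≤ k) (hb : 0 ≤ b) (hf : 0 ≤ f) (hfb : f ≤ 1 / 3 * b)
    (hsb : 0 ≤ sb) (hsb2 : sb ^ 2 = b) (h : 4 / 15 * k ^ 2 + 5 * b ≤ 1 / 6) :
    0 ≤ 2 / 3 * (2 / 15 * k ^ 2 - 0.0312 * k ^ 3) - 1 / 3 * (0.8165 * k * (0.36515 * k * sb))
      + b * (1 - 2 / 5 - 1 / 5 - 0.9429 * k) - f * (1 / 2 + 1 / 5 + (0.85 - 0.2357) * k) := by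
  have h1 := final_ineq2 k b f sb hk hb hf hfb hsb hsb2 (by linarith)
  have : 0 ≤ 1 / 200 * (2 / 15 * k ^ 2 + b) := by positivity
  linarith

end Pool.Agent.Lib.MP_dabcc9_gt
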