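import Pool.Agent.Lib.MP_dabcc9_gt.PtA

/-! JOB A10b. Pointwise inequalities for quadratic forms. -/

open MvPolynomial Matrix

namespace Pool.Agent.Lib.MP_dabcc9_gt

noncomputable section

private theorem PtB_00 : L 0 (X 0 : P) = 0 := L_X_self 0
private theorem PtB_11 : L 1 (X 1 : P) = 0 := L_X_self 1
private theorem PtB_22 : L 2 (X 2 : P) = 0 := L_X_self 2
private theorem PtB_01 : L 0 (X 1 : P) = - X 2 := L_X_one 0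
private theorem PtB_12 : L 1 (X 2 : P) = - X 0 := L_X_one 1
private theorem PtB_20 : L 2 (X 0 : P) = - X 1 := L_X_one 2
private theorem PtB_02 : L 0 (X 2 : P) = X 1 := L_X_two 0
private theorem PtB_10 : L 1 (X 0 : P) = X 2 := L_X_two 1
private theorem PtB_21 : L 2 (X 1 : P) = X 0 := L_X_two 2

/-- The linear form `(Q x)_k`. -/
private def Yp (Q : Matrix (Fin 3) (Fin 3) ℝ) (k : Fin 3) : P :=
  C (Q k 0) * X 0 + C (Q k 1) * X 1 + C (Q k 2) * X 2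

private theorem PtB_Y0 (Q : Matrix (Fin 3) (Fin 3) ℝ) (k : Fin 3) :
    L 0 (Yp Q k) = - (C (Q k 1) * X 2) + C (Q k 2) * X 1 := by
  unfold Yp
  rw [map_add, map_add, L_C_mul, L_C_mul, L_C_mul, PtB_00, PtB_01, PtB_02]
  ring

private theorem PtB_Y1 (Q : Matrix (Fin 3) (Fin 3) ℝ) (k : Fin 3) :
    L 1 (Yp Q k) = C (Q k 0) * X 2 - C (Q k 2) * X 0 := by
  unfold Yp
  rw [map_add, map_add, L_C_mul, L_C_mul, L_C_mul, PtB_10, PtB_11, PtB_12]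
  ring

private theorem PtB_Y2 (Q : Matrix (Fin 3) (Fin 3) ℝ) (k : Fin 3) :
    L 2 (Yp Q k) = - (C (Q k 0) * X 1) + C (Q k 1) * X 0 := by
  unfold Yp
  rw [map_add, map_add, L_C_mul, L_C_mul, L_C_mul, PtB_20, PtB_21, PtB_22]
  ring

private theorem PtB_qf (Q : Matrix (Fin 3) (Fin 3) ℝ) :
    qf Q = X 0 * Yp Q 0 + X 1 * Yp Q 1 + X 2 * Yp Q 2 := by
  unfold qf Yp
  simp only [Fin.sum_univ_three]
  ring

private theorem PtB_sym {Q : Matrix (Fin 3) (Fin 3) ℝ} (hQ : ST Q) :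
    Q 1 0 = Q 0 1 ∧ Q 2 0 = Q 0 2 ∧ Q 2 1 = Q 1 2 ∧ Q 2 2 = - Q 0 0 - Q 1 1 := by
  have h := hQ.1
  have ht := hQ.2
  rw [Matrix.trace_fin_three] at ht
  refine ⟨h.apply 0 1, h.apply 0 2, h.apply 1 2, ?_⟩
  linarith

private theorem PtB_L0 {Q : Matrix (Fin 3) (Fin 3) ℝ} (hQ : ST Q) :
    L 0 (qf Q) = 2 * (X 1 * Yp Q 2 - X 2 * Yp Q 1) := by
  obtain ⟨h1, h2, h3, h4⟩ := PtB_sym hQ
  rw [PtB_qf, map_add, map_add, L_mul, L_mul, L_mul, PtB_Y0, PtB_Y0, PtB_Y0, PtB_00, PtB_01, PtB_02]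
  unfold Yp
  rw [h1, h2, h3]
  ring

private theorem PtB_L1 {Q : Matrix (Fin 3) (Fin 3) ℝ} (hQ : ST Q) :
    L 1 (qf Q) = 2 * (X 2 * Yp Q 0 - X 0 * Yp Q 2) := by
  obtain ⟨h1, h2, h3, h4⟩ := PtB_sym hQ
  rw [PtB_qf, map_add, map_add, L_mul, L_mul, L_mul, PtB_Y1, PtB_Y1, PtB_Y1, PtB_10, PtB_11, PtB_12]
  unfold Yp
  rw [h1, h2, h3]
  ring

private theorem PtB_L2 {Q : Matrix (Fin 3) (Fin 3) ℝ} (hQ : ST Q) :
    L 2 (qf Q) = 2 * (X 0 * Yp Q 1 - X 1 * Yp Q 0) := by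
  obtain ⟨h1, h2, h3, h4⟩ := PtB_sym hQ
  rw [PtB_qf, map_add, map_add, L_mul, L_mul, L_mul, PtB_Y2, PtB_Y2, PtB_Y2, PtB_20, PtB_21, PtB_22]
  unfold Yp
  rw [h1, h2, h3]
  ring

/-- The matrix of second derivatives, by cases. -/
private def PM (Q : Matrix (Fin 3) (Fin 3) ℝ) (i j : Fin 3) : P :=
  match i, j with
  | 0, 0 => 2 * (- (X 2 * Yp Q 2) + X 1 * (- (C (Q 2 1) * X 2) + C (Q 2 2) * X 1) - X 1 * Yp Q 1
      - X 2 * (- (C (Q 1 1) * X 2) + C (Q 1 2) * X 1))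
  | 1, 0 => 2 * (X 1 * (C (Q 2 0) * X 2 - C (Q 2 2) * X 0) + X 0 * Yp Q 1
      - X 2 * (C (Q 1 0) * X 2 - C (Q 1 2) * X 0))
  | 2, 0 => 2 * (X 0 * Yp Q 2 + X 1 * (- (C (Q 2 0) * X 1) + C (Q 2 1) * X 0)
      - X 2 * (- (C (Q 1 0) * X 1) + C (Q 1 1) * X 0))
  | 0, 1 => 2 * (X 1 * Yp Q 0 + X 2 * (- (C (Q 0 1) * X 2) + C (Q 0 2) * X 1)
      - X 0 * (- (C (Q 2 1) * X 2) + C (Q 2 2) * X 1))
  | 1, 1 => 2 * (- (X 0 * Yp Q 0) + X 2 * (C (Q 0 0) * X 2 - C (Q 0 2) * X 0) - X 2 * Yp Q 2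
      - X 0 * (C (Q 2 0) * X 2 - C (Q 2 2) * X 0))
  | 2, 1 => 2 * (X 2 * (- (C (Q 0 0) * X 1) + C (Q 0 1) * X 0) + X 1 * Yp Q 2
      - X 0 * (- (C (Q 2 0) * X 1) + C (Q 2 1) * X 0))
  | 0, 2 => 2 * (X 0 * (- (C (Q 1 1) * X 2) + C (Q 1 2) * X 1) + X 2 * Yp Q 0
      - X 1 * (- (C (Q 0 1) * X 2) + C (Q 0 2) * X 1))
  | 1, 2 => 2 * (X 2 * Yp Q 1 + X 0 * (C (Q 1 0) * X 2 - C (Q 1 2) * X 0)
      - X 1 * (C (Q 0 0) * X 2 - C (Q 0 2) * X 0))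
  | 2, 2 => 2 * (- (X 1 * Yp Q 1) + X 0 * (- (C (Q 1 0) * X 1) + C (Q 1 1) * X 0) - X 0 * Yp Q 0
      - X 1 * (- (C (Q 0 0) * X 1) + C (Q 0 1) * X 0))

private theorem PtB_LL {Q : Matrix (Fin 3) (Fin 3) ℝ} (hQ : ST Q) (i j : Fin 3) :
    L i (L j (qf Q)) = PM Q i j := by
  have h0 := PtB_L0 hQ
  have h1 := PtB_L1 hQ
  have h2 := PtB_L2 hQ
  fin_cases i <;> fin_cases j
  · show L 0 (L 0 (qf Q)) = _
    rw [h0, L_two_mul, map_sub, L_mul, L_mul, PtB_Y0, PtB_Y0, PtB_01, PtB_02]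
    simp only [PM]; ring
  · show L 0 (L 1 (qf Q)) = _
    rw [h1, L_two_mul, map_sub, L_mul, L_mul, PtB_Y0, PtB_Y0, PtB_00, PtB_02]
    simp only [PM]; ring
  · show L 0 (L 2 (qf Q)) = _
    rw [h2, L_two_mul, map_sub, L_mul, L_mul, PtB_Y0, PtB_Y0, PtB_00, PtB_01]
    simp only [PM]; ring
  · show L 1 (L 0 (qf Q)) = _
    rw [h0, L_two_mul, map_sub, L_mul, L_mul, PtB_Y1, PtB_Y1, PtB_11, PtB_12]
    simp only [PM]; ring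
  · show L 1 (L 1 (qf Q)) = _
    rw [h1, L_two_mul, map_sub, L_mul, L_mul, PtB_Y1, PtB_Y1, PtB_10, PtB_12]
    simp only [PM]; ring
  · show L 1 (L 2 (qf Q)) = _
    rw [h2, L_two_mul, map_sub, L_mul, L_mul, PtB_Y1, PtB_Y1, PtB_10, PtB_11]
    simp only [PM]; ring
  · show L 2 (L 0 (qf Q)) = _
    rw [h0, L_two_mul, map_sub, L_mul, L_mul, PtB_Y2, PtB_Y2, PtB_21, PtB_22]
    simp only [PM]; ring
  · show L 2 (L 1 (qf Q)) = _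
    rw [h1, L_two_mul, map_sub, L_mul, L_mul, PtB_Y2, PtB_Y2, PtB_20, PtB_22]
    simp only [PM]; ring
  · show L 2 (L 2 (qf Q)) = _
    rw [h2, L_two_mul, map_sub, L_mul, L_mul, PtB_Y2, PtB_Y2, PtB_20, PtB_21]
    simp only [PM]; ring

private theorem PtB_unit {x : E3} (hx : ‖x‖ = 1) : x 0 ^ 2 + x 1 ^ 2 + x 2 ^ 2 = 1 := by
  rw [← norm_sq_eq3, hx, one_pow]

/-- Cauchy-Schwarz for matrices. -/
private theorem PtB_cs (Q B : Matrix (Fin 3) (Fin 3) ℝ) :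
    (∑ i, ∑ j, Q i j * B i j) ^ 2 ≤ t2 Q * t2 B := by
  unfold t2
  rw [← Fintype.sum_prod_type' (f := fun i j => Q i j * B i j), ← Fintype.sum_prod_type' (f := fun i j => Q i j ^ 2),
    ← Fintype.sum_prod_type' (f := fun i j => B i j ^ 2)]
  exact Finset.sum_mul_sq_le_sq_mul_sq _ _ _

private theorem PtB_t2_nonneg (Q : Matrix (Fin 3) (Fin 3) ℝ) : 0 ≤ t2 Q :=
  Finset.sum_nonneg fun i _ => Finset.sum_nonneg fun j _ => sq_nonneg _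

private theorem PtB_abs {F T b : ℝ} (hb : 0 ≤ b) (hT : 0 ≤ T) (h : F ^ 2 ≤ T * b ^ 2) : |F| ≤ b * Real.sqrt T := by
  have h1 : |F| = Real.sqrt (F ^ 2) := (Real.sqrt_sq_eq_abs F).symm
  rw [h1]
  calc Real.sqrt (F ^ 2) ≤ Real.sqrt (T * b ^ 2) := Real.sqrt_le_sqrt h
    _ = b * Real.sqrt T := by rw [Real.sqrt_mul hT, Real.sqrt_sq hb, mul_comm]

private theorem PtB_ev_qf (Q : Matrix (Fin 3) (Fin 3) ℝ) (x : E3) :
    ev (qf Q) x = ∑ i, ∑ j, Q i j * (x i * x j) := by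
  unfold qf
  rw [ev_sum]
  refine Finset.sum_congr rfl fun i _ => ?_
  rw [ev_sum]
  refine Finset.sum_congr rfl fun j _ => ?_
  rw [ev_mul, ev_C, ev_mul, ev_X, ev_X]

/-- Exact identity of polynomials `NN q q = 4 (t2 |x|^4 - 2 |x|^2 |Qx|^2 + 1/2 q^2)` for traceless
symmetric `Q` (expand), and `|Qx|^2 >= q^2` for unit `x`. -/
theorem NN_qf_le {Q : Matrix (Fin 3) (Fin 3) ℝ} (hQ : ST Q) (x : E3) (hx : ‖x‖ = 1) :
    ev (NN (qf Q) (qf Q)) x ≤ 4 * t2 Q := by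
  obtain ⟨h1, h2, h3, h4⟩ := PtB_sym hQ
  have hu := PtB_unit hx
  have key : ev (NN (qf Q) (qf Q)) x = 4 * (t2 Q * (x 0 ^ 2 + x 1 ^ 2 + x 2 ^ 2) ^ 2
      - 2 * (x 0 ^ 2 + x 1 ^ 2 + x 2 ^ 2) * ((Q 0 0 * x 0 + Q 0 1 * x 1 + Q 0 2 * x 2) ^ 2 +
        (Q 1 0 * x 0 + Q 1 1 * x 1 + Q 1 2 * x 2) ^ 2 + (Q 2 0 * x 0 + Q 2 1 * x 1 + Q 2 2 * x 2) ^ 2)
      + 1 / 2 * (x 0 * (Q 0 0 * x 0 + Q 0 1 * x 1 + Q 0 2 * x 2) +
        x 1 * (Q 1 0 * x 0 + Q 1 1 * x 1 + Q 1 2 * x 2) + x 2 * (Q 2 0 * x 0 + Q 2 1 * x 1 + Q 2 2 * x 2)) ^ 2) := by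
    unfold NN SS Gam t2
    rw [Lap_qf hQ]
    simp only [PtB_LL hQ, Fin.sum_univ_three, PtB_L0 hQ, PtB_L1 hQ, PtB_L2 hQ]
    simp only [PM, Yp, ev_sub, ev_add, ev_mul, ev_neg, ev_C, ev_X, PtB_qf]
    have h6 : ev (6 : P) x = 6 := ev_ofNat 6 x
    have h2' : ev (2 : P) x = 2 := ev_ofNat 2 x
    rw [h6]
    simp only [h2', h1, h2, h3, h4]
    ring
  rw [key, hu]
  have hcs : (x 0 * (Q 0 0 * x 0 + Q 0 1 * x 1 + Q 0 2 * x 2) +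
        x 1 * (Q 1 0 * x 0 + Q 1 1 * x 1 + Q 1 2 * x 2) + x 2 * (Q 2 0 * x 0 + Q 2 1 * x 1 + Q 2 2 * x 2)) ^ 2 ≤
      (x 0 ^ 2 + x 1 ^ 2 + x 2 ^ 2) * ((Q 0 0 * x 0 + Q 0 1 * x 1 + Q 0 2 * x 2) ^ 2 +
        (Q 1 0 * x 0 + Q 1 1 * x 1 + Q 1 2 * x 2) ^ 2 + (Q 2 0 * x 0 + Q 2 1 * x 1 + Q 2 2 * x 2) ^ 2) := by
    generalize Q 0 0 * x 0 + Q 0 1 * x 1 + Q 0 2 * x 2 = a
    generalize Q 1 0 * x 0 + Q 1 1 * x 1 + Q 1 2 * x 2 = b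
    generalize Q 2 0 * x 0 + Q 2 1 * x 1 + Q 2 2 * x 2 = c
    nlinarith [sq_nonneg (x 0 * b - x 1 * a), sq_nonneg (x 0 * c - x 2 * a), sq_nonneg (x 1 * c - x 2 * b)]
  rw [hu] at hcs
  nlinarith [sq_nonneg (Q 0 0 * x 0 + Q 0 1 * x 1 + Q 0 2 * x 2), sq_nonneg (Q 1 0 * x 0 + Q 1 1 * x 1 + Q 1 2 * x 2),
    sq_nonneg (Q 2 0 * x 0 + Q 2 1 * x 1 + Q 2 2 * x 2)]

/-- `|q(x)| <= sqrt(2/3) kappa`: `q(x) = <Q, x x^T - I/3>` and `|x x^T - I/3|^2 = 2/3`. -/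
theorem qf_abs_le {Q : Matrix (Fin 3) (Fin 3) ℝ} (hQ : ST Q) (x : E3) (hx : ‖x‖ = 1) :
    |ev (qf Q) x| ≤ Real.sqrt (2 / 3) * Real.sqrt (t2 Q) := by
  obtain ⟨h1, h2, h3, h4⟩ := PtB_sym hQ
  have hu := PtB_unit hx
  have hcs := PtB_cs Q (Matrix.of fun i j => x i * x j - if i = j then 1 / 3 else 0)
  have e1 : (∑ i, ∑ j, Q i j * (Matrix.of fun i j => x i * x j - if i = j then 1 / 3 else 0) i j) = ev (qf Q) x := by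
    rw [PtB_ev_qf]
    simp only [Matrix.of_apply, Fin.sum_univ_three]
    simp
    linear_combination (-1 / 3 : ℝ) * h4
  have e2 : t2 (Matrix.of fun i j => x i * x j - if i = j then 1 / 3 else 0) = 2 / 3 := by
    unfold t2
    simp only [Matrix.of_apply, Fin.sum_univ_three]
    simp
    linear_combination (x 0 ^ 2 + x 1 ^ 2 + x 2 ^ 2 + 1 - 2 / 3) * hu
  rw [e1, e2] at hcs
  apply PtB_abs (Real.sqrt_nonneg _) (PtB_t2_nonneg Q)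
  rw [Real.sq_sqrt (by norm_num)]
  exact hcs

private theorem PtB_orth (z : P) (x : E3) :
    x 0 * ev (L 0 z) x + x 1 * ev (L 1 z) x + x 2 * ev (L 2 z) x = 0 := by
  have h := congrArg (fun p => ev p x) (sum_X_L z)
  simp only [Fin.sum_univ_three, ev_add, ev_mul, ev_X, ev_zero] at h
  exact h

private theorem PtB_cr0 (a b : E3) : cr a b 0 = a 1 * b 2 - a 2 * b 1 := by simp [cr]
private theorem PtB_cr1 (a b : E3) : cr a b 1 = a 2 * b 0 - a 0 * b 2 := by simp [cr]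
private theorem PtB_cr2 (a b : E3) : cr a b 2 = a 0 * b 1 - a 1 * b 0 := by simp [cr]
private theorem PtB_Lv0 (p : P) (x : E3) : Lv p x 0 = ev (L 0 p) x := by simp [Lv]
private theorem PtB_Lv1 (p : P) (x : E3) : Lv p x 1 = ev (L 1 p) x := by simp [Lv]
private theorem PtB_Lv2 (p : P) (x : E3) : Lv p x 2 = ev (L 2 p) x := by simp [Lv]

private theorem PtB_ev_Gam (z : P) (x : E3) :
    ev (Gam z z) x = ev (L 0 z) x ^ 2 + ev (L 1 z) x ^ 2 + ev (L 2 z) x ^ 2 := by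
  unfold Gam
  simp only [Fin.sum_univ_three, ev_add, ev_mul]
  ring

/-- `HQ q z = 2 (e^T Q e - q |g|^2)` with `g = (L k z)(x)` and `e = x × g` (unit `x`, `g ⊥ x`):
indeed `∑ g_i g_j L i L j q = 2 (g × x)^T Q (g × x) + 2 (g × (g × x))^T Q x` and
`g × (g × x) = -|g|^2 x`. -/
theorem ev_HQ_qf {Q : Matrix (Fin 3) (Fin 3) ℝ} (hQ : ST Q) (z : P) (x : E3) (hx : ‖x‖ = 1) :
    ev (HQ (qf Q) z) x = 2 * ((∑ i, ∑ j, Q i j * (cr (Lv z x) x) i * (cr (Lv z x) x) j)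
      - ev (qf Q) x * ev (Gam z z) x) := by
  obtain ⟨h1, h2, h3, h4⟩ := PtB_sym hQ
  have ho := PtB_orth z x
  rw [PtB_ev_Gam, PtB_ev_qf]
  unfold HQ
  simp only [PtB_LL hQ]
  simp only [Fin.sum_univ_three, PtB_cr0, PtB_cr1, PtB_cr2, PtB_Lv0, PtB_Lv1, PtB_Lv2]
  simp only [PM, Yp, ev_sub, ev_add, ev_mul, ev_neg, ev_C, ev_X]
  have h2' : ev (2 : P) x = 2 := ev_ofNat 2 x
  simp only [h2']
  generalize ev (L 0 z) x = g0 at ho ⊢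
  generalize ev (L 1 z) x = g1 at ho ⊢
  generalize ev (L 2 z) x = g2 at ho ⊢
  rw [h1, h2, h3]
  linear_combination (2 * (g0 * (Q 0 0 * x 0 + Q 0 1 * x 1 + Q 0 2 * x 2) +
    g1 * (Q 0 1 * x 0 + Q 1 1 * x 1 + Q 1 2 * x 2) + g2 * (Q 0 2 * x 0 + Q 1 2 * x 1 + Q 2 2 * x 2))) * ho

/-- For unit `x`, `e ⊥ x`: `7/6 x^T Q x |e|^2 + 1/3 e^T Q e >= - 0.85 kappa |e|^2`: it is
`|e|^2 <Q, B>` with `B = 7/6 x x^T + 1/3 e e^T/|e|^2 - 1/2 I`, `|B|^2 = 26/36 < 0.85^2`. -/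
theorem quad_lower {Q : Matrix (Fin 3) (Fin 3) ℝ} (hQ : ST Q) (x e : E3) (hx : ‖x‖ = 1)
    (he : inner ℝ e x = 0) :
    -(0.85 * Real.sqrt (t2 Q) * ‖e‖ ^ 2) ≤ 7 / 6 * ev (qf Q) x * ‖e‖ ^ 2
      + 1 / 3 * ∑ i, ∑ j, Q i j * e i * e j := by
  obtain ⟨h1, h2, h3, h4⟩ := PtB_sym hQ
  have hu := PtB_unit hx
  rw [inner_eq3] at he
  have hcs := PtB_cs Q (Matrix.of fun i j => 7 / 6 * ‖e‖ ^ 2 * (x i * x j) + 1 / 3 * (e i * e j)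
    - if i = j then 1 / 2 * ‖e‖ ^ 2 else 0)
  have hn := norm_sq_eq3 e
  have e1 : (∑ i, ∑ j, Q i j * (Matrix.of fun i j => 7 / 6 * ‖e‖ ^ 2 * (x i * x j) + 1 / 3 * (e i * e j)
      - if i = j then 1 / 2 * ‖e‖ ^ 2 else 0) i j) =
      7 / 6 * ev (qf Q) x * ‖e‖ ^ 2 + 1 / 3 * ∑ i, ∑ j, Q i j * e i * e j := by
    rw [PtB_ev_qf]
    simp only [Matrix.of_apply, Fin.sum_univ_three]
    simp
    linear_combination (-(1 / 2) * ‖e‖ ^ 2 : ℝ) * h4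
  have e2 : t2 (Matrix.of fun i j => 7 / 6 * ‖e‖ ^ 2 * (x i * x j) + 1 / 3 * (e i * e j)
      - if i = j then 1 / 2 * ‖e‖ ^ 2 else 0) = 26 / 36 * (‖e‖ ^ 2) ^ 2 := by
    unfold t2
    simp only [Matrix.of_apply, Fin.sum_univ_three]
    simp
    rw [hn]
    generalize x 0 = x0 at hu he ⊢
    generalize x 1 = x1 at hu he ⊢
    generalize x 2 = x2 at hu he ⊢
    generalize e 0 = e0 at he ⊢
    generalize e 1 = e1 at he ⊢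
    generalize e 2 = e2 at he ⊢
    linear_combination (49 / 36 * (e0 ^ 2 + e1 ^ 2 + e2 ^ 2) ^ 2 * (x0 ^ 2 + x1 ^ 2 + x2 ^ 2 + 1)
      - 7 / 6 * (e0 ^ 2 + e1 ^ 2 + e2 ^ 2) ^ 2) * hu
      + (7 / 9 * (e0 ^ 2 + e1 ^ 2 + e2 ^ 2) * (e0 * x0 + e1 * x1 + e2 * x2)) * he
  rw [e1, e2] at hcs
  have h5 : |7 / 6 * ev (qf Q) x * ‖e‖ ^ 2 + 1 / 3 * ∑ i, ∑ j, Q i j * e i * e j| ≤
      (0.85 * ‖e‖ ^ 2) * Real.sqrt (t2 Q) := by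
    apply PtB_abs (by positivity) (PtB_t2_nonneg Q)
    refine hcs.trans (mul_le_mul_of_nonneg_left ?_ (PtB_t2_nonneg Q))
    have h6 : 0 ≤ (‖e‖ ^ 2) ^ 2 := by positivity
    nlinarith
  have h7 := (abs_le.1 h5).1
  linarith

/-- Combination of `ev_HQ_qf` and `quad_lower`, `|cr g x|^2 = |g|^2 = ev (Gam z z) x`. -/
theorem T1_pt {Q : Matrix (Fin 3) (Fin 3) ℝ} (hQ : ST Q) (z : P) (x : E3) (hx : ‖x‖ = 1) :
    -(0.85 * Real.sqrt (t2 Q)) * ev (Gam z z) x ≤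
      ev (C (3 / 2) * (qf Q * Gam z z) + C (1 / 6) * HQ (qf Q) z) x := by
  have hu := PtB_unit hx
  have ho := PtB_orth z x
  have he : inner ℝ (cr (Lv z x) x) x = 0 := by
    rw [inner_eq3, PtB_cr0, PtB_cr1, PtB_cr2]
    ring
  have hn : ‖cr (Lv z x) x‖ ^ 2 = ev (Gam z z) x := by
    rw [norm_sq_eq3, PtB_cr0, PtB_cr1, PtB_cr2, PtB_Lv0, PtB_Lv1, PtB_Lv2, PtB_ev_Gam]
    generalize ev (L 0 z) x = g0 at ho ⊢
    generalize ev (L 1 z) x = g1 at ho ⊢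
    generalize ev (L 2 z) x = g2 at ho ⊢
    linear_combination (g0 ^ 2 + g1 ^ 2 + g2 ^ 2) * hu - (x 0 * g0 + x 1 * g1 + x 2 * g2) * ho
  have h := quad_lower hQ x (cr (Lv z x) x) hx he
  rw [hn] at h
  rw [ev_add, ev_mul, ev_C, ev_mul, ev_mul, ev_C, ev_HQ_qf hQ z x hx]
  linarith

theorem Gam_nonneg (z : P) (x : E3) : 0 ≤ ev (Gam z z) x := by
  rw [PtB_ev_Gam]
  positivity

/-- `ConvS p` gives `A(grad d, grad d) >= 0`: take `w = Lv d x`, orthogonal to `x` by `sum_X_L`. -/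
theorem A_nonneg {p : P} (hp : ConvS p) (d : P) (x : E3) (hx : ‖x‖ = 1) :
    0 ≤ ev (HQ p d + p * Gam d d) x := by
  have ho := PtB_orth d x
  have h := hp x hx (Lv d x) (by rw [inner_eq3, PtB_Lv0, PtB_Lv1, PtB_Lv2]; linarith)
  rw [norm_sq_eq3] at h
  rw [ev_add, ev_mul, PtB_ev_Gam]
  unfold HQ
  simp only [Fin.sum_univ_three, PtB_Lv0, PtB_Lv1, PtB_Lv2] at h
  simp only [Fin.sum_univ_three, ev_add, ev_mul]
  linarith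

end

end Pool.Agent.Lib.MP_dabcc9_gt
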