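import Pool.Agent.Lib.MP_dabcc9_gt.IdentJ2
import Pool.Agent.Lib.MP_dabcc9_gt.Gap
import Pool.Agent.Lib.MP_dabcc9_gt.PtB
import Pool.Agent.Lib.MP_dabcc9_gt.Deg2B
import Pool.Agent.Lib.MP_dabcc9_gt.Deg2C
import Pool.Agent.Lib.MP_dabcc9_gt.Main1A

/-! JOB A11b. J is nonnegative. -/

open MvPolynomial Matrix

namespace Pool.Agent.Lib.MP_dabcc9_gt

noncomputable section

/-- Cauchy-Schwarz for averages of polynomials. -/
theorem Main1B_cs (a b : P) : EE (a * b) ^ 2 ≤ EE (a * a) * EE (b * b) := by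
  have h : ∀ t : ℝ, 0 ≤ EE (b * b) * (t * t) + (2 * EE (a * b)) * t + EE (a * a) := by
    intro t
    have h1 : 0 ≤ EE ((a + C t * b) * (a + C t * b)) := by
      apply EE_nonneg
      intro x _
      rw [ev_mul]
      exact mul_self_nonneg _
    have h2 : (a + C t * b) * (a + C t * b) =
        a * a + C (2 * t) * (a * b) + C (t * t) * (b * b) := by
      rw [show (C (2 * t) : P) = 2 * C t by rw [C_mul]; rfl, C_mul]
      ring
    rw [h2, EE_add, EE_add, EE_C_mul, EE_C_mul] at h1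
    linarith
  have h3 := discrim_le_zero h
  unfold discrim at h3
  nlinarith

/-- A quadratic form has degree at most two. -/
theorem Main1B_deg (M : Matrix (Fin 3) (Fin 3) ℝ) : (qf M).totalDegree ≤ 2 := by
  unfold qf
  refine MvPolynomial.totalDegree_finsetSum_le fun i _ =>
    MvPolynomial.totalDegree_finsetSum_le fun j _ => ?_
  refine (MvPolynomial.totalDegree_mul _ _).trans ?_
  rw [totalDegree_C, zero_add]
  refine (MvPolynomial.totalDegree_mul _ _).trans ?_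
  rw [totalDegree_X, totalDegree_X]

/-- The Laplacian of a quadratic form is a quadratic form on the sphere. -/
theorem Main1B_Lap (M : Matrix (Fin 3) (Fin 3) ℝ) (hM : M.IsSymm) :
    ∃ M₀ : Matrix (Fin 3) (Fin 3) ℝ, EqS (Lap (qf M)) (-(6 * qf M₀)) := by
  refine ⟨M - Matrix.diagonal (fun _ => M.trace / 3), ?_⟩
  have hST : ST (M - Matrix.diagonal (fun _ => M.trace / 3)) := by
    constructor
    · unfold Matrix.IsSymm
      rw [Matrix.transpose_sub, hM, Matrix.diagonal_transpose]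
    · rw [Matrix.trace_sub, Matrix.trace_diagonal]
      simp
      ring
  have h1 : EqS (qf M) (qf (M - Matrix.diagonal (fun _ => M.trace / 3)) + C (M.trace / 3)) := by
    intro x hx
    have h2 : x 0 ^ 2 + x 1 ^ 2 + x 2 ^ 2 = 1 := by
      rw [← norm_sq_eq3, hx]; norm_num
    unfold qf
    simp only [ev_add, ev_C, ev_mul, ev_X, Matrix.sub_apply, Fin.sum_univ_three]
    have e01 : (Matrix.diagonal (fun _ : Fin 3 => M.trace / 3)) 0 1 = 0 := by
      simp
    have e02 : (Matrix.diagonal (fun _ : Fin 3 => M.trace / 3)) 0 2 = 0 := by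
      simp
    have e10 : (Matrix.diagonal (fun _ : Fin 3 => M.trace / 3)) 1 0 = 0 := by
      simp
    have e12 : (Matrix.diagonal (fun _ : Fin 3 => M.trace / 3)) 1 2 = 0 := by
      simp
    have e20 : (Matrix.diagonal (fun _ : Fin 3 => M.trace / 3)) 2 0 = 0 := by
      simp
    have e21 : (Matrix.diagonal (fun _ : Fin 3 => M.trace / 3)) 2 1 = 0 := by
      simp
    rw [e01, e02, e10, e12, e20, e21]
    simp only [Matrix.diagonal_apply_eq]
    have h3 : M.trace / 3 = M.trace / 3 * (x 0 ^ 2 + x 1 ^ 2 + x 2 ^ 2) := by rw [h2, mul_one]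
    nlinarith [h3]
  refine h1.Lap.trans ?_
  rw [Lap_add, Lap_C, add_zero, Lap_qf hST]
  exact EqS.refl _

/-- If `v` is orthogonal to degree two, `E[v Lap (qf M)] = 0`. -/
theorem Main1B_vLap (v : P) (hv : ∀ s : P, s.totalDegree ≤ 2 → EE (v * s) = 0)
    (M : Matrix (Fin 3) (Fin 3) ℝ) (hM : M.IsSymm) : EE (v * Lap (qf M)) = 0 := by
  obtain ⟨M₀, hM₀⟩ := Main1B_Lap M hM
  rw [EE_congr ((EqS.refl v).mul hM₀)]
  have h1 : v * -(6 * qf M₀) = -(C 6 * (v * qf M₀)) := by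
    rw [show (C 6 : P) = 6 by rfl]
    ring
  rw [h1, EE_neg, EE_C_mul, hv _ (Main1B_deg M₀)]
  ring

/-- The lower bound of `delta`. -/
theorem Main1B_delta (Q : Matrix (Fin 3) (Fin 3) ℝ) (hQ : ST Q) (v : P) (d : ℝ)
    (hqv : EE (qf Q * v) = 0) (h12 : 12 * EE (v * v) ≤ EE (Gam v v))
    (hδ : 1 / 2 * EE (Gam (qf Q + v) (qf Q + v)) - EE ((qf Q + v) * (qf Q + v)) ≤ d) :
    4 / 15 * t2 Q + 5 * EE (v * v) ≤ d := by
  have h1 : EE (Gam (qf Q) (qf Q)) = 6 * EE (qf Q * qf Q) := by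
    have h := EE_ibp (qf Q) (qf Q)
    rw [Lap_qf hQ] at h
    have h2 : qf Q * -(6 * qf Q) = -(C 6 * (qf Q * qf Q)) := by
      rw [show (C 6 : P) = 6 by rfl]
      ring
    rw [h2, EE_neg, EE_C_mul] at h
    linarith
  have h2 : EE (Gam v (qf Q)) = 0 := by
    have h := EE_ibp v (qf Q)
    rw [Lap_qf hQ] at h
    have h2 : v * -(6 * qf Q) = -(C 6 * (qf Q * v)) := by
      rw [show (C 6 : P) = 6 by rfl]
      ring
    rw [h2, EE_neg, EE_C_mul, hqv] at h
    linarith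
  have h3 : Gam (qf Q + v) (qf Q + v) = Gam (qf Q) (qf Q) + 2 * Gam v (qf Q) + Gam v v := by
    rw [Gam_add_left, Gam_add_right, Gam_add_right, Gam_comm (qf Q) v]
    ring
  have h4 : (qf Q + v) * (qf Q + v) = qf Q * qf Q + 2 * (qf Q * v) + v * v := by ring
  rw [h3, h4, EE_add, EE_add, EE_two_mul, EE_add, EE_add, EE_two_mul, h1, h2, hqv,
    EE_qf_sq hQ] at hδ
  linarith

/-- Lower bound of `J`.  Hypotheses: `u = qf Q + v`, `v ⊥` degree `<= 2`, sup bounds
`-3/5 <= v <= 2/5`, and `delta = 1/2 E[Gam u u] - E[u u] <= 1/6`.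
PROOF.  `k = sqrt (t2 Q)`, `b = E[vv]`, `f = E[Gam z z]`, `z` from `poisson`.  `ident_J2` with
`q = qf Q`, `r = qf (Q * Q)` (degree 2, and `Lap r` is of degree 2 on the sphere: `Lap r` has
`totalDegree <= 2`), then
* `E[q q] = 2/15 k^2`, `E[q q q] >= -0.0312 k^3`;
* `|E[q q v]| <= sqrt(2/3) k E|q v| <= 0.8165 k sqrt(E[qq]) sqrt b`, `sqrt(2/15) <= 0.36515` (average
  Cauchy-Schwarz: use `|q v| <= (s q^2 + v^2/s)/2` pointwise with the best `s`, or Mathlib's);
* `T1_pt` integrated: `>= -0.85 k f`;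
* `|v NN q z| <= |v| sqrt(4 t2) sqrt(NN z z) <= sqrt 2 k (v^2 + 1/2 NN z z)` pointwise, average
  `sqrt 2 k (2 b - f / 2)` by `EE_q`; times `1/3`: `0.9429 k b - 0.2357 k f` (round outward:
  `sqrt 2 / 3 <= 0.47145`, keep `2 b - f/2 >= 0`);
* `1/3 E[vvv] >= -1/5 b`, `E[v (Gam z z + 1/2 NN z z)] <= 2/5 (b + f/2)`;
* `delta = 2 E[qq] + (1/2 E[Gam v v] - b) >= 4/15 k^2 + 5 b` using `E[Gam q v] = -E[v Lap q] = 0`.
Then `final_ineq2`. -/
theorem J_lower (Q : Matrix (Fin 3) (Fin 3) ℝ) (hQ : ST Q) (v : P)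
    (hv : ∀ s : P, s.totalDegree ≤ 2 → EE (v * s) = 0)
    (hlow : ∀ x : E3, ‖x‖ = 1 → -(3 / 5) ≤ ev v x) (hup : ∀ x : E3, ‖x‖ = 1 → ev v x ≤ 2 / 5)
    (hδ : 1 / 2 * EE (Gam (qf Q + v) (qf Q + v)) - EE ((qf Q + v) * (qf Q + v)) ≤ 17 / 100) :
    ∃ w : P, EqS (Lap w) (-(2 * (qf Q + v))) ∧
      1 / 200 * EE ((qf Q + v) * (qf Q + v)) ≤ Jf (qf Q + v) w := by
  obtain ⟨z, hz, hfb, h12⟩ := poisson v hv
  have hqv : EE (qf Q * v) = 0 := by
    rw [mul_comm]
    exact hv _ (Main1B_deg Q)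
  have hQQ : (Q * Q).IsSymm := by
    unfold Matrix.IsSymm
    rw [Matrix.transpose_mul, hQ.1]
  refine ⟨C (1 / 3) * qf Q + z, ?_, ?_⟩
  · intro x hx
    rw [Lap_add, Lap_C_mul, Lap_qf hQ]
    have h1 := hz x hx
    rw [ev_neg, ev_mul, ev_ofNat] at h1
    rw [ev_add, h1, ev_mul, ev_C, ev_neg, ev_mul, ev_neg, ev_mul, ev_add, ev_ofNat, ev_ofNat]
    ring
  rw [ident_J2 (qf Q) v z (qf (Q * Q)) (Lap_qf hQ) hz hqv (Lap_qf_sq hQ)
    (hv _ (Main1B_deg (Q * Q))) (Main1B_vLap v hv (Q * Q) hQQ)]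
  -- abbreviations
  have ht2 : 0 ≤ t2 Q := by
    unfold t2
    positivity
  obtain ⟨k, hkdef⟩ : ∃ k, k = Real.sqrt (t2 Q) := ⟨_, rfl⟩
  have hk : 0 ≤ k := by rw [hkdef]; exact Real.sqrt_nonneg _
  have hk2 : k ^ 2 = t2 Q := by rw [hkdef]; exact Real.sq_sqrt ht2
  have hb : 0 ≤ EE (v * v) := by
    apply EE_nonneg
    intro x _
    rw [ev_mul]
    exact mul_self_nonneg _
  have hf : 0 ≤ EE (Gam z z) := EE_nonneg fun x _ => Gam_nonneg z x
  have hEq := EE_q v z hz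
  rw [EE_add, EE_C_mul] at hEq
  -- E[q q q]
  have hqqq : -(0.0312 * k ^ 3) ≤ EE (qf Q * qf Q * qf Q) := by
    rw [hkdef]
    exact EE_qf_cube_ge hQ
  -- E[q q v]
  have hqqv : EE (qf Q * qf Q * v) ≤ 0.8165 * k * (0.36515 * k * Real.sqrt (EE (v * v))) := by
    have h1 := Main1B_cs (qf Q * qf Q) v
    have h2 : EE (qf Q * qf Q * (qf Q * qf Q)) ≤ 2 / 3 * k ^ 2 * (2 / 15 * k ^ 2) := by
      have h3 : EE (qf Q * qf Q * (qf Q * qf Q)) ≤ EE (C (2 / 3 * k ^ 2) * (qf Q * qf Q)) := by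
        apply EE_mono
        intro x hx
        rw [ev_mul, ev_mul, ev_mul, ev_C, ev_mul]
        have h4 : ev (qf Q) x * ev (qf Q) x ≤ 2 / 3 * k ^ 2 := by
          have h5 := qf_abs_le hQ x hx
          rw [← hkdef] at h5
          have h6 : ev (qf Q) x * ev (qf Q) x = |ev (qf Q) x| ^ 2 := by
            rw [sq_abs]; ring
          rw [h6]
          calc |ev (qf Q) x| ^ 2 ≤ (Real.sqrt (2 / 3) * k) ^ 2 := by
                gcongr
            _ = 2 / 3 * k ^ 2 := by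
                rw [mul_pow, Real.sq_sqrt (by norm_num)]
        exact mul_le_mul_of_nonneg_right h4 (mul_self_nonneg _)
      rw [EE_C_mul, EE_qf_sq hQ, ← hk2] at h3
      exact h3
    have h3 : EE (qf Q * qf Q * v) ^ 2 ≤
        (0.8165 * k * (0.36515 * k * Real.sqrt (EE (v * v)))) ^ 2 := by
      have h4 : (0.8165 * k * (0.36515 * k * Real.sqrt (EE (v * v)))) ^ 2 =
          (0.8165 * 0.36515) ^ 2 * k ^ 4 * EE (v * v) := by
        rw [mul_pow, mul_pow, mul_pow, mul_pow, Real.sq_sqrt hb]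
        ring
      rw [h4]
      refine h1.trans ((mul_le_mul_of_nonneg_right h2 hb).trans ?_)
      refine mul_le_mul_of_nonneg_right ?_ hb
      have h5 : 0 ≤ k ^ 4 := by positivity
      nlinarith
    exact le_trans (le_abs_self _) (abs_le_of_sq_le_sq h3 (by positivity) )
  -- the term T1
  have hT1 : -(0.85 * k) * EE (Gam z z) ≤
      EE (C (3 / 2) * (qf Q * Gam z z) + C (1 / 6) * HQ (qf Q) z) := by
    rw [← EE_C_mul]
    apply EE_mono
    intro x hx
    rw [ev_mul, ev_C, hkdef]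
    exact T1_pt hQ z x hx
  -- the term with NN q z
  have hNN : EE (v * NN (qf Q) z) ≤ 1.41435 * k * (EE (v * v) + 1 / 2 * EE (NN z z)) := by
    have h1 : EE (v * NN (qf Q) z) ≤
        EE (C (1.41435 * k) * (v * v + C (1 / 2) * NN z z)) := by
      apply EE_mono
      intro x hx
      rw [ev_mul, ev_mul, ev_C, ev_add, ev_mul, ev_mul, ev_C]
      have h2 := NN_cs (qf Q) z x hx
      have h3 := NN_qf_le hQ x hx
      have h4 := NN_nonneg z x hx
      rw [← hk2] at h3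
      have h5 : (ev v x * ev (NN (qf Q) z) x) ^ 2 ≤
          (1.41435 * k * (ev v x * ev v x + 1 / 2 * ev (NN z z) x)) ^ 2 := by
        have h6 : ev (NN (qf Q) z) x ^ 2 ≤ 4 * k ^ 2 * ev (NN z z) x :=
          h2.trans (mul_le_mul_of_nonneg_right h3 h4)
        have h7 : (ev v x * ev (NN (qf Q) z) x) ^ 2 ≤ ev v x ^ 2 * (4 * k ^ 2 * ev (NN z z) x) := by
          rw [mul_pow]
          exact mul_le_mul_of_nonneg_left h6 (sq_nonneg _)
        refine h7.trans ?_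
        have h8 : 2 * (ev v x ^ 2 * ev (NN z z) x) ≤
            (ev v x * ev v x + 1 / 2 * ev (NN z z) x) ^ 2 := by
          nlinarith [sq_nonneg (ev v x * ev v x - 1 / 2 * ev (NN z z) x)]
        have h9 : 0 ≤ (ev v x * ev v x + 1 / 2 * ev (NN z z) x) ^ 2 := sq_nonneg _
        calc ev v x ^ 2 * (4 * k ^ 2 * ev (NN z z) x)
            = 2 * k ^ 2 * (2 * (ev v x ^ 2 * ev (NN z z) x)) := by ring
          _ ≤ 2 * k ^ 2 * (ev v x * ev v x + 1 / 2 * ev (NN z z) x) ^ 2 :=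
              mul_le_mul_of_nonneg_left h8 (by positivity)
          _ ≤ 1.41435 ^ 2 * (k ^ 2 * (ev v x * ev v x + 1 / 2 * ev (NN z z) x) ^ 2) := by
              have h10 : 0 ≤ k ^ 2 * (ev v x * ev v x + 1 / 2 * ev (NN z z) x) ^ 2 := by
                positivity
              nlinarith
          _ = (1.41435 * k * (ev v x * ev v x + 1 / 2 * ev (NN z z) x)) ^ 2 := by ring
      have h11 : 0 ≤ 1.41435 * k * (ev v x * ev v x + 1 / 2 * ev (NN z z) x) := by
        have := mul_self_nonneg (ev v x)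
        positivity
      exact le_trans (le_abs_self _) (abs_le_of_sq_le_sq h5 h11)
    rw [EE_C_mul, EE_add, EE_C_mul] at h1
    exact h1
  -- cubic terms in v
  have hvvv : -(3 / 5) * EE (v * v) ≤ EE (v * v * v) := by
    rw [← EE_C_mul]
    apply EE_mono
    intro x hx
    rw [ev_mul, ev_C, ev_mul, ev_mul, ev_mul]
    nlinarith [hlow x hx, mul_self_nonneg (ev v x)]
  have hvG : EE (v * (Gam z z + C (1 / 2) * NN z z)) ≤
      2 / 5 * (EE (Gam z z) + 1 / 2 * EE (NN z z)) := by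
    have h1 : EE (v * (Gam z z + C (1 / 2) * NN z z)) ≤
        EE (C (2 / 5) * (Gam z z + C (1 / 2) * NN z z)) := by
      apply EE_mono
      intro x hx
      rw [ev_mul, ev_mul, ev_C]
      refine mul_le_mul_of_nonneg_right (hup x hx) ?_
      rw [ev_add, ev_mul, ev_C]
      have h2 := NN_nonneg z x hx
      have h3 := Gam_nonneg z x
      positivity
    rw [EE_C_mul, EE_add, EE_C_mul] at h1
    exact h1
  -- delta
  have hδ2 := Main1B_delta Q hQ v _ hqv h12 hδ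
  rw [← hk2] at hδ2
  have huu : EE ((qf Q + v) * (qf Q + v)) = 2 / 15 * k ^ 2 + EE (v * v) := by
    have h4 : (qf Q + v) * (qf Q + v) = qf Q * qf Q + 2 * (qf Q * v) + v * v := by ring
    rw [h4, EE_add, EE_add, EE_two_mul, hqv, EE_qf_sq hQ, ← hk2]
    ring
  rw [huu]
  have hfin := final_ineq2 k (EE (v * v)) (EE (Gam z z)) (Real.sqrt (EE (v * v))) hk hb hf hfb
    (Real.sqrt_nonneg _) (Real.sq_sqrt hb) hδ2
  rw [EE_qf_sq hQ, ← hk2]
  have hN : 1 / 2 * EE (NN z z) = EE (v * v) - 1 / 2 * EE (Gam z z) := by linarith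
  rw [hN] at hNN hvG
  have hkf : 0 ≤ k * EE (Gam z z) := mul_nonneg hk hf
  linarith

end

end Pool.Agent.Lib.MP_dabcc9_gt
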