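import Pool.Agent.Lib.MP_dabcc9_gt.RotC

/-! JOB B1. Meridian inequality. -/

open MeasureTheory Metric Set

namespace Pool.Agent.Lib.MP_dabcc9_gt

noncomputable section

/-- One half of the meridian inequality. -/
private theorem supB_half {p : P} (hp : ConvS p) (x w : E3) (hx : ‖x‖ = 1) (hw : ‖w‖ = 1)
    (h : inner ℝ w x = 0) (f f' g : ℝ → ℝ) (c : ℝ) (hg : Continuous g)
    (hf : ∀ t, HasDerivAt f (f' t) t) (hf' : ∀ t, HasDerivAt f' (g t - f t) t)
    (hpos : ∀ t, 0 ≤ t → t ≤ Real.pi → 0 ≤ f t) (h0 : f' 0 = c) (hpi : f' Real.pi = 0) :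
    0 ≤ f Real.pi * (∑ i, w i * ev (L i p) (-x)) - f 0 * (∑ i, w i * ev (L i p) x)
      + c * ev p x
      + ∫ t in (0 : ℝ)..Real.pi, g t * ev p (Real.cos t • x + Real.sin t • cr w x) := by
  set y : ℝ → E3 := fun t => Real.cos t • x + Real.sin t • cr w x with hy
  have hyc : Continuous y := by
    have := Real.continuous_cos
    have := Real.continuous_sin
    fun_prop
  set H : ℝ → ℝ := fun t => ev p (y t) with hH
  set H1 : ℝ → ℝ := fun t => ∑ j, w j * ev (L j p) (y t) with hH1
  set H2 : ℝ → ℝ := fun t => ∑ i, ∑ j, w i * w j * ev (L i (L j p)) (y t) with hH2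
  have dH : ∀ t, HasDerivAt H (H1 t) t := fun t => hasDerivAt_circle p x w hx hw h t
  have dH1 : ∀ t, HasDerivAt H1 (H2 t) t := fun t => hasDerivAt_circle2 p x w hx hw h t
  have cH : Continuous H := (continuous_ev p).comp hyc
  have cH2 : Continuous H2 := by
    refine continuous_finsetSum _ fun i _ => continuous_finsetSum _ fun j _ => ?_
    exact continuous_const.mul ((continuous_ev _).comp hyc)
  have cf : Continuous f := continuous_iff_continuousAt.2 fun t => (hf t).continuousAt
  have hconv : ∀ t, 0 ≤ H2 t + H t := by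
    intro t
    have hc := circle_facts x w hx hw h t
    have h1 := hp (y t) hc.1 w hc.2.1
    rw [hw] at h1
    simpa using h1
  have dPhi : ∀ t, HasDerivAt (fun t => f t * H1 t - f' t * H t)
      (f t * (H2 t + H t) - g t * H t) t := by
    intro t
    have h1 := ((hf t).mul (dH1 t)).sub ((hf' t).mul (dH t))
    refine h1.congr_deriv ?_
    ring
  have hint : ∫ t in (0 : ℝ)..Real.pi, (f t * (H2 t + H t) - g t * H t)
      = (f Real.pi * H1 Real.pi - f' Real.pi * H Real.pi) - (f 0 * H1 0 - f' 0 * H 0) := by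
    refine intervalIntegral.integral_eq_sub_of_hasDerivAt (fun t _ => dPhi t) ?_
    refine Continuous.intervalIntegrable ?_ _ _
    exact (cf.mul (cH2.add cH)).sub (hg.mul cH)
  have hsplit : ∫ t in (0 : ℝ)..Real.pi, (f t * (H2 t + H t) - g t * H t)
      = (∫ t in (0 : ℝ)..Real.pi, f t * (H2 t + H t)) - ∫ t in (0 : ℝ)..Real.pi, g t * H t := by
    refine intervalIntegral.integral_sub ?_ ?_
    · exact (cf.mul (cH2.add cH)).intervalIntegrable _ _
    · exact (hg.mul cH).intervalIntegrable _ _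
  have hnn : 0 ≤ ∫ t in (0 : ℝ)..Real.pi, f t * (H2 t + H t) := by
    refine intervalIntegral.integral_nonneg Real.pi_pos.le fun t ht => ?_
    exact mul_nonneg (hpos t ht.1 ht.2) (hconv t)
  have y0 : y 0 = x := by simp [hy]
  have ypi : y Real.pi = -x := by simp [hy]
  have e0 : H1 0 = ∑ i, w i * ev (L i p) x := by simp only [hH1, y0]
  have epi : H1 Real.pi = ∑ i, w i * ev (L i p) (-x) := by simp only [hH1, ypi]
  have eH0 : H 0 = ev p x := by simp only [hH, y0]
  rw [hsplit, hpi, h0, e0, epi, eH0] at hint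
  have : (∫ t in (0 : ℝ)..Real.pi, g t * ev p (Real.cos t • x + Real.sin t • cr w x))
      = ∫ t in (0 : ℝ)..Real.pi, g t * H t := rfl
  rw [this]
  linarith

private theorem supB_cr_neg (w x : E3) : cr (-w) x = - cr w x := by
  ext i
  fin_cases i <;> simp [cr] <;> ring

/-- PROOF.  `H θ = ev p (cos θ x + sin θ (w × x))`, `H' = ∑ w_i (L i p)`, `H'' + H >= 0` by
`hasDerivAt_circle`, `hasDerivAt_circle2`, `circle_facts` and `ConvS`.  Integrate
`f (H'' + H) >= 0` over `[0, pi]`, by parts twice: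
`0 <= f(pi) H'(pi) - f(0) H'(0) - f'(pi) H(pi) + f'(0) H(0) + ∫ (f'' + f) H`, where `f'' + f = g`.
Do it for `w` and `-w` and add: `H'` at `0` and at `pi` change sign (at `θ = 0, pi` the point is
`±x` for both, and the derivative is linear in `w`), `H(0)` is `ev p x` for both. -/
theorem meridian {p : P} (hp : ConvS p) (x w : E3) (hx : ‖x‖ = 1) (hw : ‖w‖ = 1)
    (h : inner ℝ w x = 0) (f f' g : ℝ → ℝ) (c : ℝ) (hg : Continuous g)
    (hf : ∀ t, HasDerivAt f (f' t) t) (hf' : ∀ t, HasDerivAt f' (g t - f t) t)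
    (hpos : ∀ t, 0 ≤ t → t ≤ Real.pi → 0 ≤ f t) (h0 : f' 0 = c) (hpi : f' Real.pi = 0) :
    0 ≤ 2 * c * ev p x
      + ∫ t in (0 : ℝ)..Real.pi, g t * (ev p (Real.cos t • x + Real.sin t • cr w x)
          + ev p (Real.cos t • x - Real.sin t • cr w x)) := by
  have hA := supB_half hp x w hx hw h f f' g c hg hf hf' hpos h0 hpi
  have hB := supB_half hp x (-w) hx (by rw [norm_neg, hw]) (by rw [inner_neg_left, h, neg_zero])
    f f' g c hg hf hf' hpos h0 hpi
  have e1 : ∀ z : E3, (∑ i, (-w) i * ev (L i p) z) = - ∑ i, w i * ev (L i p) z := by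
    intro z
    rw [← Finset.sum_neg_distrib]
    refine Finset.sum_congr rfl fun i _ => ?_
    simp
  have e2 : ∀ t : ℝ, Real.cos t • x + Real.sin t • cr (-w) x
      = Real.cos t • x - Real.sin t • cr w x := by
    intro t
    rw [supB_cr_neg, smul_neg, sub_eq_add_neg]
  simp only [e1, e2] at hB
  have cos_c := Real.continuous_cos
  have sin_c := Real.continuous_sin
  have hadd : ∫ t in (0 : ℝ)..Real.pi, g t * (ev p (Real.cos t • x + Real.sin t • cr w x)
          + ev p (Real.cos t • x - Real.sin t • cr w x))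
      = (∫ t in (0 : ℝ)..Real.pi, g t * ev p (Real.cos t • x + Real.sin t • cr w x))
        + ∫ t in (0 : ℝ)..Real.pi, g t * ev p (Real.cos t • x - Real.sin t • cr w x) := by
    rw [← intervalIntegral.integral_add]
    · refine intervalIntegral.integral_congr fun t _ => ?_
      ring
    · refine Continuous.intervalIntegrable (hg.mul ((continuous_ev p).comp ?_)) _ _
      fun_prop
    · refine Continuous.intervalIntegrable (hg.mul ((continuous_ev p).comp ?_)) _ _
      fun_prop
  rw [hadd]
  linarith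

end

end Pool.Agent.Lib.MP_dabcc9_gt
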