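import Pool.Agent.Lib.MP_dabcc9_gt.SupA
import Pool.Agent.Lib.MP_dabcc9_gt.SupB
import Pool.Agent.Lib.MP_dabcc9_gt.SphC

/-! JOB B4. Sup bounds. -/

open MeasureTheory Metric Set

namespace Pool.Agent.Lib.MP_dabcc9_gt

noncomputable section

private theorem supC_core {p : P} (hp : ConvS p) (x0 : E3) (h0 : ‖x0‖ = 1) (k : ℝ → ℝ)
    (hk : Continuous k) (s : ℝ) (f f' : ℝ → ℝ) (c : ℝ)
    (hf : ∀ t, HasDerivAt f (f' t) t)
    (hf' : ∀ t, HasDerivAt f' (s * (1 / 2 * (k (Real.cos t) * Real.sin t)) - f t) t)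
    (hpos : ∀ t, 0 ≤ t → t ≤ Real.pi → 0 ≤ f t) (hc0 : f' 0 = c) (hpi : f' Real.pi = 0) :
    0 ≤ c * ev p x0 + s * av (fun y => ev p y * k (inner ℝ y x0)) := by
  obtain ⟨e1, e2, h1, h2, h12, h10, h20⟩ := exists_frame x0 h0
  have cos_c := Real.continuous_cos
  have sin_c := Real.continuous_sin
  set g : ℝ → ℝ := fun t => s * (1 / 2 * (k (Real.cos t) * Real.sin t)) with hg
  have cg : Continuous g := by
    have : Continuous fun t => k (Real.cos t) := hk.comp cos_c
    fun_prop
  set e : ℝ → E3 := fun φ => Real.cos φ • e1 + Real.sin φ • e2 with he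
  have h21 : inner ℝ e2 e1 = 0 := by rw [real_inner_comm]; exact h12
  have hn : ∀ φ, ‖e φ‖ = 1 := by
    intro φ
    have : ‖e φ‖ ^ 2 = 1 := by
      rw [← real_inner_self_eq_norm_sq]
      have i11 : inner ℝ e1 e1 = 1 := by rw [real_inner_self_eq_norm_sq, h1]; norm_num
      have i22 : inner ℝ e2 e2 = 1 := by rw [real_inner_self_eq_norm_sq, h2]; norm_num
      simp only [he, inner_add_left, inner_add_right, real_inner_smul_left, real_inner_smul_right,
        h12, h21, i11, i22]
      nlinarith [Real.sin_sq_add_cos_sq φ]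
    have h3 : 0 ≤ ‖e φ‖ := norm_nonneg _
    nlinarith [sq_nonneg (‖e φ‖ - 1)]
  have ho : ∀ φ, inner ℝ (e φ) x0 = 0 := by
    intro φ
    simp only [he, inner_add_left, real_inner_smul_left, h10, h20]
    ring
  have hpi_e : ∀ φ, e (φ + Real.pi) = - e φ := by
    intro φ
    simp only [he, Real.cos_add_pi, Real.sin_add_pi, neg_smul]
    abel
  set G : ℝ → ℝ → ℝ := fun φ t => g t * ev p (Real.cos t • x0 + Real.sin t • e φ) with hG
  have cG : Continuous (Function.uncurry G) := by
    have h3 : Continuous fun q : ℝ × ℝ => Real.cos q.2 • x0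
        + Real.sin q.2 • (Real.cos q.1 • e1 + Real.sin q.1 • e2) := by
      fun_prop
    exact (cg.comp continuous_snd).mul ((continuous_ev p).comp h3)
  set F : ℝ → ℝ := fun φ => ∫ t in (0 : ℝ)..Real.pi, G φ t with hF
  have cF : Continuous F :=
    intervalIntegral.continuous_parametric_intervalIntegral_of_continuous' cG _ _
  have hmer : ∀ φ, 0 ≤ 2 * c * ev p x0 + (F φ + F (φ + Real.pi)) := by
    intro φ
    obtain ⟨w, hw, hwx, hcr⟩ := exists_w x0 (e φ) h0 (hn φ) (ho φ)
    have h3 := meridian hp x0 w h0 hw hwx f f' g c cg hf hf' hpos hc0 hpi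
    rw [hcr] at h3
    have h4 : F φ + F (φ + Real.pi) = ∫ t in (0 : ℝ)..Real.pi,
        g t * (ev p (Real.cos t • x0 + Real.sin t • e φ)
          + ev p (Real.cos t • x0 - Real.sin t • e φ)) := by
      simp only [hF]
      rw [← intervalIntegral.integral_add]
      · refine intervalIntegral.integral_congr fun t _ => ?_
        simp only [hG, hpi_e, smul_neg, ← sub_eq_add_neg]
        ring
      · exact (cG.comp (by fun_prop : Continuous fun t : ℝ => (φ, t))).intervalIntegrable _ _
      · exact (cG.comp (by fun_prop : Continuous fun t : ℝ => (φ + Real.pi, t))).intervalIntegrable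
          _ _
    rw [h4]
    exact h3
  have hper : Function.Periodic F (2 * Real.pi) := by
    intro φ
    simp only [hF, hG, he, Real.cos_add_two_pi, Real.sin_add_two_pi]
  have hshift : ∫ φ in (0 : ℝ)..(2 * Real.pi), F (φ + Real.pi)
      = ∫ φ in (0 : ℝ)..(2 * Real.pi), F φ := by
    rw [intervalIntegral.integral_comp_add_right (fun φ => F φ) Real.pi]
    have h3 := hper.intervalIntegral_add_eq Real.pi 0
    simp only [zero_add] at h3 ⊢
    rw [add_comm (2 * Real.pi) Real.pi]
    exact h3
  have hnn : 0 ≤ ∫ φ in (0 : ℝ)..(2 * Real.pi),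
      (2 * c * ev p x0 + (F φ + F (φ + Real.pi))) := by
    refine intervalIntegral.integral_nonneg (by positivity) fun φ _ => hmer φ
  have cF2 : Continuous fun φ => F (φ + Real.pi) := cF.comp (continuous_add_const _)
  have hsplit : ∫ φ in (0 : ℝ)..(2 * Real.pi), (2 * c * ev p x0 + (F φ + F (φ + Real.pi)))
      = (2 * Real.pi - 0) • (2 * c * ev p x0) + ((∫ φ in (0 : ℝ)..(2 * Real.pi), F φ)
        + ∫ φ in (0 : ℝ)..(2 * Real.pi), F φ) := by
    have i1 : IntervalIntegrable (fun _ : ℝ => 2 * c * ev p x0) volume 0 (2 * Real.pi) :=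
      continuous_const.intervalIntegrable _ _
    have i2 : IntervalIntegrable F volume 0 (2 * Real.pi) := cF.intervalIntegrable _ _
    have i3 : IntervalIntegrable (fun φ => F (φ + Real.pi)) volume 0 (2 * Real.pi) :=
      cF2.intervalIntegrable _ _
    rw [intervalIntegral.integral_add i1 (i2.add i3), intervalIntegral.integral_add i2 i3, hshift,
      intervalIntegral.integral_const]
  rw [hsplit] at hnn
  have hav : av (fun y => ev p y * k (inner ℝ y x0)) = 1 / (4 * Real.pi) *
      ∫ θ in (0 : ℝ)..Real.pi, ∫ φ in (0 : ℝ)..(2 * Real.pi),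
        (ev p (Real.cos θ • x0 + Real.sin θ • e φ) * k (Real.cos θ)) * Real.sin θ := by
    rw [av_spherical_frame ?_ e1 e2 x0 h1 h2 h0 h12 h10 h20]
    · congr 1
      refine intervalIntegral.integral_congr fun θ _ => ?_
      refine intervalIntegral.integral_congr fun φ _ => ?_
      have h3 : inner ℝ (Real.cos θ • x0 + Real.sin θ • (Real.cos φ • e1 + Real.sin φ • e2)) x0
          = Real.cos θ := by
        have := ho φ
        simp only [he] at this
        rw [inner_add_left, real_inner_smul_left, real_inner_smul_left, this,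
          real_inner_self_eq_norm_sq, h0]
        ring
      simp only [he, h3]
    · refine Continuous.continuousOn ?_
      exact (continuous_ev p).mul (hk.comp (by fun_prop))
  have hswap : s * (∫ θ in (0 : ℝ)..Real.pi, ∫ φ in (0 : ℝ)..(2 * Real.pi),
        (ev p (Real.cos θ • x0 + Real.sin θ • e φ) * k (Real.cos θ)) * Real.sin θ)
      = 2 * ∫ φ in (0 : ℝ)..(2 * Real.pi), F φ := by
    simp only [hF]
    rw [MeasureTheory.intervalIntegral_intervalIntegral_swap]
    · rw [← intervalIntegral.integral_const_mul, ← intervalIntegral.integral_const_mul]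
      refine intervalIntegral.integral_congr fun θ _ => ?_
      rw [← intervalIntegral.integral_const_mul, ← intervalIntegral.integral_const_mul]
      refine intervalIntegral.integral_congr fun φ _ => ?_
      simp only [hG, hg]
      ring
    · have cK : Continuous (Function.uncurry fun θ φ : ℝ =>
          (ev p (Real.cos θ • x0 + Real.sin θ • e φ) * k (Real.cos θ)) * Real.sin θ) := by
        have h3 : Continuous fun q : ℝ × ℝ => Real.cos q.1 • x0
            + Real.sin q.1 • (Real.cos q.2 • e1 + Real.sin q.2 • e2) := by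
          fun_prop
        have h4 : Continuous fun q : ℝ × ℝ => k (Real.cos q.1) :=
          hk.comp (cos_c.comp continuous_fst)
        exact (((continuous_ev p).comp h3).mul h4).mul (sin_c.comp continuous_fst)
      exact (cK.continuousOn.integrableOn_compact
        (isCompact_uIcc.prod isCompact_uIcc)).mono_set
        (Set.prod_mono Set.uIoc_subset_uIcc Set.uIoc_subset_uIcc)
  rw [hav]
  have hpi0 := Real.pi_pos
  have h5 : s * (1 / (4 * Real.pi) * ∫ θ in (0 : ℝ)..Real.pi, ∫ φ in (0 : ℝ)..(2 * Real.pi),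
        (ev p (Real.cos θ • x0 + Real.sin θ • e φ) * k (Real.cos θ)) * Real.sin θ)
      = 1 / (2 * Real.pi) * ∫ φ in (0 : ℝ)..(2 * Real.pi), F φ := by
    rw [mul_left_comm, hswap]
    field_simp
    ring
  rw [h5]
  set A := ∫ φ in (0 : ℝ)..(2 * Real.pi), F φ
  have h6 : 0 ≤ 4 * Real.pi * (c * ev p x0 + 1 / (2 * Real.pi) * A) := by
    have : 4 * Real.pi * (c * ev p x0 + 1 / (2 * Real.pi) * A)
        = (2 * Real.pi - 0) • (2 * c * ev p x0) + (A + A) := by
      rw [smul_eq_mul]
      field_simp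
      ring
    rw [this]
    exact hnn
  exact nonneg_of_mul_nonneg_right h6 (by positivity)

/-- PROOF.  Frame `e1, e2, x0` (`exists_frame`); for each `φ` the unit vector
`e = cos φ e1 + sin φ e2` is `w × x0` (`exists_w`); apply `meridian` with `fp`, `c = -1`,
`g = 1/2 k(cos t) sin t`; integrate over `φ ∈ [0, 2 pi]`; `-e` corresponds to `φ + pi`
(periodicity), so the integral equals `2 * ∫∫ g H dt dφ = 2 * 2 pi * av (...)` by
`av_spherical_frame` (and Fubini/`intervalIntegral_integral_swap`), as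
`inner (cos θ x0 + sin θ e) x0 = cos θ`. -/
theorem sup_upper {p : P} (hp : ConvS p) (x0 : E3) (h0 : ‖x0‖ = 1) : ev p x0 ≤
    av fun y => ev p y * (15 / 2 * (inner ℝ y x0) ^ 2 + 3 * inner ℝ y x0 - 11 / 10) := by
  have h := supC_core hp x0 h0 (fun z => 15 / 2 * z ^ 2 + 3 * z - 11 / 10) (by fun_prop) 1 fp fp'
    (-1) hasDerivAt_fp (fun t => by rw [one_mul]; exact hasDerivAt_fp' t) fp_nonneg
    fp'_ends.1 fp'_ends.2
  linarith

/-- The same with `fm`, `c = 1`, `g = -1/2 k(cos t) sin t`. -/
theorem sup_lower {p : P} (hp : ConvS p) (x0 : E3) (h0 : ‖x0‖ = 1) :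
    av (fun y => ev p y * (15 / 2 * (inner ℝ y x0) ^ 2 + 3 * inner ℝ y x0 - 21 / 10)) ≤
      ev p x0 := by
  have h := supC_core hp x0 h0 (fun z => 15 / 2 * z ^ 2 + 3 * z - 21 / 10) (by fun_prop) (-1) fm
    fm' 1 hasDerivAt_fm (fun t => by rw [neg_one_mul]; exact hasDerivAt_fm' t) fm_nonneg
    fm'_ends.1 fm'_ends.2
  linarith

end

end Pool.Agent.Lib.MP_dabcc9_gt
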