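import Pool.Agent.Lib.MP_dabcc9_gt.Main1C
import Pool.Agent.Lib.MP_dabcc9_gt.SupC

/-! JOB A12.  Removing the normalisation. -/

open MvPolynomial

namespace Pool.Agent.Lib.MP_dabcc9_gt

private theorem Main2_LLX (i j k : Fin 3) : L i (L j (X k : P)) =
    (if i = k then (X j : P) else 0) - (if i = j then (X k : P) else 0) := by
  fin_cases i <;> fin_cases j <;> fin_cases k <;>
    simp [L_apply, pderiv_X]

private theorem Main2_ev_LLX (i j k : Fin 3) (x : E3) : ev (L i (L j (X k : P))) x =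
    (if i = k then x j else 0) - (if i = j then x k else 0) := by
  rw [Main2_LLX, ev_sub]
  congr 1
  · split_ifs
    · exact ev_X j x
    · exact ev_zero x
  · split_ifs
    · exact ev_X k x
    · exact ev_zero x

private theorem Main2_lin (s : Fin 3 → ℝ) (x w : E3) (hw : inner ℝ w x = 0) :
    (∑ i, ∑ j, w i * w j * ev (L i (L j (∑ k, C (s k) * X k : P))) x) +
      ev (∑ k, C (s k) * X k : P) x * ‖w‖ ^ 2 = 0 := by
  have h1 : ∀ i j : Fin 3, ev (L i (L j (∑ k, C (s k) * X k : P))) x =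
      ∑ k, s k * ((if i = k then x j else 0) - (if i = j then x k else 0)) := by
    intro i j
    rw [map_sum, map_sum, ev_sum]
    refine Finset.sum_congr rfl fun k _ => ?_
    rw [L_C_mul, L_C_mul, ev_mul, ev_C, Main2_ev_LLX]
  have h2 : ev (∑ k, C (s k) * X k : P) x = ∑ k, s k * x k := by
    rw [ev_sum]
    refine Finset.sum_congr rfl fun k _ => ?_
    rw [ev_mul, ev_C, ev_X]
  rw [inner_eq3] at hw
  simp only [h1, h2]
  rw [norm_sq_eq3]
  simp only [Fin.sum_univ_three]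
  simp
  linear_combination (s 0 * w 0 + s 1 * w 1 + s 2 * w 2) * hw

/-- Subtracting a linear function keeps `ConvS`: for unit `x` and `w ⊥ x`,
`∑_ij w_i w_j L i L j x_k = - x_k |w|^2` (as `L i L j x_k = δ_ik x_j - x_k δ_ij`). -/
theorem ConvS.sub_lin {p : P} (hp : ConvS p) (s : Fin 3 → ℝ) :
    ConvS (p - ∑ k, C (s k) * X k) := by
  intro x hx w hw
  have h1 := hp x hx w hw
  have h2 := Main2_lin s x w hw
  have h3 : (∑ i, ∑ j, w i * w j * ev (L i (L j (p - ∑ k, C (s k) * X k))) x) =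
      (∑ i, ∑ j, w i * w j * ev (L i (L j p)) x) -
        ∑ i, ∑ j, w i * w j * ev (L i (L j (∑ k, C (s k) * X k : P))) x := by
    rw [← Finset.sum_sub_distrib]
    refine Finset.sum_congr rfl fun i _ => ?_
    rw [← Finset.sum_sub_distrib]
    refine Finset.sum_congr rfl fun j _ => ?_
    rw [map_sub, map_sub, ev_sub]
    ring
  rw [h3, ev_sub]
  linarith

theorem ConvS.C_mul {p : P} (hp : ConvS p) (c : ℝ) (hc : 0 ≤ c) : ConvS (C c * p) := by
  intro x hx w hw
  have h1 := mul_nonneg hc (hp x hx w hw)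
  have h3 : (∑ i, ∑ j, w i * w j * ev (L i (L j (C c * p))) x) =
      c * ∑ i, ∑ j, w i * w j * ev (L i (L j p)) x := by
    rw [Finset.mul_sum]
    refine Finset.sum_congr rfl fun i _ => ?_
    rw [Finset.mul_sum]
    refine Finset.sum_congr rfl fun j _ => ?_
    rw [L_C_mul, L_C_mul, ev_mul, ev_C]
    ring
  rw [h3, ev_mul, ev_C]
  linarith

/-- PROOF.  `m = EE p > 0`, `s_k = 3 EE (p X_k) / m`, `p' = C (1/m) * p - ∑ C (s_k) X_k`.
Then `EE p' = 1`, `EE (p' X_i) = 0` (`E[x_i x_j] = δ_ij/3`), `ConvS p'`,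
`EE (detA p') = EE (detA p)/m^2` (`detA_add_lin`, `detA_C_mul`, `EE_congr`),
`EE (p' detA p') = EE (p detA p)/m^3` (`EE_X_detA`). Apply `main_normalised` with `sup_upper`,
`sup_lower`, and multiply by `m^3`. -/
theorem main_poly (p : P) (hp : ConvS p) (hm : 0 < EE p) (hvol : 0 ≤ EE (p * detA p))
    (hdetp : 0 ≤ EE (detA p)) :
    (EE p ^ 2 - EE (detA p)) ^ 2 / 32000 ≤
      EE (p * detA p) * EE p - 6 * EE (detA p) * EE p ^ 2 + 5 * EE p ^ 4 := by
  obtain ⟨m, hmdef⟩ : ∃ m : ℝ, m = EE p := ⟨_, rfl⟩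
  rw [← hmdef] at hm ⊢
  have hm0 : m ≠ 0 := hm.ne'
  obtain ⟨s, hs⟩ : ∃ s : Fin 3 → ℝ, s = fun k => 3 * EE (p * X k) / m := ⟨_, rfl⟩
  obtain ⟨q, hq⟩ : ∃ q : P, q = C (1 / m) * p - ∑ k, C (s k) * X k := ⟨_, rfl⟩
  have hqc : ConvS q := by
    rw [hq]
    exact (hp.C_mul (1 / m) (by positivity)).sub_lin s
  have hlinX : ∀ i, EE ((∑ k, C (s k) * X k : P) * X i) = s i / 3 := by
    intro i
    rw [Finset.sum_mul, EE_sum]
    have h1 : ∀ k ∈ (Finset.univ : Finset (Fin 3)), EE (C (s k) * X k * X i) =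
        if k = i then s k / 3 else 0 := by
      intro k _
      rw [mul_assoc, EE_C_mul, EE_XX]
      split_ifs <;> ring
    rw [Finset.sum_congr rfl h1, Finset.sum_ite_eq' Finset.univ i (fun k => s k / 3),
      if_pos (Finset.mem_univ i)]
  have hlin1 : EE (∑ k, C (s k) * X k : P) = 0 := by
    rw [EE_sum]
    refine Finset.sum_eq_zero fun k _ => ?_
    rw [EE_C_mul, EE_X, mul_zero]
  have h1 : EE q = 1 := by
    rw [hq, EE_sub, EE_C_mul, hlin1, ← hmdef]
    field_simp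
    ring
  have hX : ∀ i, EE (q * X i) = 0 := by
    intro i
    rw [hq, sub_mul, EE_sub, hlinX, mul_assoc, EE_C_mul, hs]
    field_simp
    ring
  have hdet : EqS (detA q) (C ((1 / m) ^ 2) * detA p) := by
    have e1 : q = C (1 / m) * p + ∑ k, C (-s k) * X k := by
      rw [hq, sub_eq_add_neg, ← Finset.sum_neg_distrib]
      congr 1
      refine Finset.sum_congr rfl fun k _ => ?_
      rw [map_neg, neg_mul]
    rw [e1, ← detA_C_mul]
    exact detA_add_lin _ _
  have hD : EE (detA q) = (1 / m) ^ 2 * EE (detA p) := by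
    rw [EE_congr hdet, EE_C_mul]
  have hV : EE (q * detA q) = (1 / m) ^ 3 * EE (p * detA p) := by
    rw [EE_congr ((EqS.refl q).mul hdet), hq]
    have e2 : (C (1 / m) * p - ∑ k, C (s k) * X k) * (C ((1 / m) ^ 2) * detA p) =
        C ((1 / m) ^ 3) * (p * detA p) - C ((1 / m) ^ 2) * ∑ k, C (s k) * (X k * detA p) := by
      have e3 : (C ((1 / m) ^ 3) : P) = C (1 / m) * C ((1 / m) ^ 2) := by
        rw [← map_mul]
        congr 1
        ring
      have e4 : (∑ k, C (s k) * (X k * detA p) : P) = (∑ k, C (s k) * X k) * detA p := by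
        rw [Finset.sum_mul]
        exact Finset.sum_congr rfl fun k _ => (mul_assoc _ _ _).symm
      rw [e3, e4]
      ring
    rw [e2, EE_sub, EE_C_mul, EE_C_mul, EE_sum]
    have e5 : ∑ k, EE (C (s k) * (X k * detA p)) = 0 := by
      refine Finset.sum_eq_zero fun k _ => ?_
      rw [EE_C_mul, EE_X_detA, mul_zero]
    rw [e5, mul_zero, sub_zero]
  have hpos : 0 ≤ EE (q * detA q) := by
    rw [hV]
    exact mul_nonneg (pow_nonneg (one_div_nonneg.2 hm.le) 3) hvol
  have hdq : 0 ≤ EE (detA q) := by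
    rw [hD]
    exact mul_nonneg (pow_nonneg (one_div_nonneg.2 hm.le) 2) hdetp
  have hmain := main_normalised q hqc h1 hX hpos hdq (fun x0 h0 => sup_upper hqc x0 h0)
    (fun x0 h0 => sup_lower hqc x0 h0)
  rw [hD, hV] at hmain
  have h5 := mul_le_mul_of_nonneg_right hmain (by positivity : (0 : ℝ) ≤ m ^ 4)
  have h6 : (6 * ((1 / m) ^ 2 * EE (detA p)) - 5 +
      (1 - (1 / m) ^ 2 * EE (detA p)) ^ 2 / 32000) * m ^ 4
      = 6 * EE (detA p) * m ^ 2 - 5 * m ^ 4 + (m ^ 2 - EE (detA p)) ^ 2 / 32000 := by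
    field_simp
  have h7 : (1 / m) ^ 3 * EE (p * detA p) * m ^ 4 = EE (p * detA p) * m := by
    field_simp
  rw [h6, h7] at h5
  linarith

end Pool.Agent.Lib.MP_dabcc9_gt
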