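import Pool.Agent.Lib.MP_dabcc9_gt.Basic

/-! JOB A2a. Rotations and invariance of the average. -/

open MeasureTheory Metric Set MvPolynomial

namespace Pool.Agent.Lib.MP_dabcc9_gt

noncomputable section

/-- Cross product on `E3`. -/
def cr (a b : E3) : E3 :=
  !₂[a 1 * b 2 - a 2 * b 1, a 2 * b 0 - a 0 * b 2, a 0 * b 1 - a 1 * b 0]

/-- Standard basis vector. -/
def eb (i : Fin 3) : E3 := EuclideanSpace.single i 1

/-- Vector of the three rotation derivatives of `p` at `x`. -/
def Lv (p : P) (x : E3) : E3 := !₂[ev (L 0 p) x, ev (L 1 p) x, ev (L 2 p) x]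

/-- Rotation by the angle `t` about the `i`-th axis. -/
def rotv (i : Fin 3) (t : ℝ) (x : E3) : E3 :=
  x i • eb i + (Real.cos t * x (i + 1) - Real.sin t * x (i + 2)) • eb (i + 1)
    + (Real.sin t * x (i + 1) + Real.cos t * x (i + 2)) • eb (i + 2)

/-- The homeomorphism of the unit sphere induced by a linear isometry. -/
def RotA_sph (R : E3 ≃ₗᵢ[ℝ] E3) : sphere (0 : E3) 1 ≃ₜ sphere (0 : E3) 1 where
  toFun x := ⟨R x, by
    rw [mem_sphere_zero_iff_norm, R.norm_map]
    exact mem_sphere_zero_iff_norm.1 x.2⟩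
  invFun x := ⟨R.symm x, by
    rw [mem_sphere_zero_iff_norm, R.symm.norm_map]
    exact mem_sphere_zero_iff_norm.1 x.2⟩
  left_inv x := Subtype.ext (R.symm_apply_apply _)
  right_inv x := Subtype.ext (R.apply_symm_apply _)
  continuous_toFun := (R.continuous.comp continuous_subtype_val).subtype_mk _
  continuous_invFun := (R.symm.continuous.comp continuous_subtype_val).subtype_mk _

open scoped Pointwise in
theorem RotA_preimage (R : E3 ≃ₗᵢ[ℝ] E3) (s : Set (sphere (0 : E3) 1)) :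
    Ioo (0 : ℝ) 1 • ((↑) '' (RotA_sph R ⁻¹' s) : Set E3) =
      R ⁻¹' (Ioo (0 : ℝ) 1 • ((↑) '' s : Set E3)) := by
  ext x
  rw [mem_preimage, mem_smul, mem_smul]
  constructor
  · rintro ⟨r, hr, y, ⟨z, hz, rfl⟩, rfl⟩
    exact ⟨r, hr, R z, ⟨RotA_sph R z, hz, rfl⟩, (R.map_smul r _).symm⟩
  · rintro ⟨r, hr, y, ⟨z, hz, rfl⟩, h⟩
    refine ⟨r, hr, R.symm z, ⟨(RotA_sph R).symm z, ?_, rfl⟩, ?_⟩
    · rw [mem_preimage, Homeomorph.apply_symm_apply]
      exact hz
    · rw [← R.symm.map_smul, h, R.symm_apply_apply]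

theorem RotA_measurePreserving (R : E3 ≃ₗᵢ[ℝ] E3) :
    MeasurePreserving (RotA_sph R) (volume : Measure E3).toSphere
      (volume : Measure E3).toSphere := by
  refine ⟨(RotA_sph R).measurable, ?_⟩
  ext s hs
  rw [Measure.map_apply (RotA_sph R).measurable hs, Measure.toSphere_apply' _ hs,
    Measure.toSphere_apply' _ ((RotA_sph R).measurable hs), RotA_preimage]
  congr 1
  exact R.measurePreserving.measure_preimage_emb R.toHomeomorph.measurableEmbedding _

/-- The average is invariant under linear isometries.  PROOF: `R` preserves volume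
(`LinearIsometryEquiv.measurePreserving`), hence, by `Measure.toSphere_apply'`
(`toSphere s = 3 * volume (Ioo 0 1 • s)`), the homeomorphism of the sphere induced by `R` preserves
`toSphere`; then `MeasurePreserving.integral_comp` (for a measurable embedding, so no assumption on
`f` is needed). -/
theorem av_comp_isometry (R : E3 ≃ₗᵢ[ℝ] E3) (f : E3 → ℝ) : av (fun x => f (R x)) = av f := by
  unfold av
  rw [average_eq, average_eq]
  congr 1
  exact (RotA_measurePreserving R).integral_comp (RotA_sph R).measurableEmbedding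
    (fun x : sphere (0 : E3) 1 => f x)

theorem RotA_apply_zero (i : Fin 3) (t : ℝ) (x : E3) : rotv i t x i = x i := by
  fin_cases i <;> simp [rotv, eb]

theorem RotA_apply_one (i : Fin 3) (t : ℝ) (x : E3) :
    rotv i t x (i + 1) = Real.cos t * x (i + 1) - Real.sin t * x (i + 2) := by
  fin_cases i <;> simp [rotv, eb]

theorem RotA_apply_two (i : Fin 3) (t : ℝ) (x : E3) :
    rotv i t x (i + 2) = Real.sin t * x (i + 1) + Real.cos t * x (i + 2) := by
  fin_cases i <;> simp [rotv, eb]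

/-- Equality of vectors from the three coordinates `i`, `i + 1`, `i + 2`. -/
theorem RotA_ext (i : Fin 3) {x y : E3} (h0 : x i = y i) (h1 : x (i + 1) = y (i + 1))
    (h2 : x (i + 2) = y (i + 2)) : x = y := by
  ext j
  fin_cases i <;> fin_cases j <;> first | exact h0 | exact h1 | exact h2

/-- The norm in the coordinates `i`, `i + 1`, `i + 2`. -/
theorem RotA_norm (i : Fin 3) (x : E3) : ‖x‖ ^ 2 = x i ^ 2 + x (i + 1) ^ 2 + x (i + 2) ^ 2 := by
  rw [norm_sq_eq3]
  fin_cases i
  · rfl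
  · change x 0 ^ 2 + x 1 ^ 2 + x 2 ^ 2 = x 1 ^ 2 + x 2 ^ 2 + x 0 ^ 2
    ring
  · change x 0 ^ 2 + x 1 ^ 2 + x 2 ^ 2 = x 2 ^ 2 + x 0 ^ 2 + x 1 ^ 2
    ring

theorem RotA_norm_rotv (i : Fin 3) (t : ℝ) (x : E3) : ‖rotv i t x‖ = ‖x‖ := by
  rw [← sq_eq_sq₀ (norm_nonneg _) (norm_nonneg _), RotA_norm i, RotA_norm i, RotA_apply_zero,
    RotA_apply_one, RotA_apply_two]
  have h := Real.sin_sq_add_cos_sq t
  linear_combination (x (i + 1) ^ 2 + x (i + 2) ^ 2) * h

/-- The rotation as a linear map. -/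
def RotA_lin (i : Fin 3) (t : ℝ) : E3 →ₗ[ℝ] E3 where
  toFun := rotv i t
  map_add' x y := by
    apply RotA_ext i
    · simp only [PiLp.add_apply, RotA_apply_zero]
    · simp only [PiLp.add_apply, RotA_apply_one]
      ring
    · simp only [PiLp.add_apply, RotA_apply_two]
      ring
  map_smul' c x := by
    apply RotA_ext i
    · simp only [PiLp.smul_apply, RotA_apply_zero, RingHom.id_apply]
    · simp only [PiLp.smul_apply, RotA_apply_one, RingHom.id_apply, smul_eq_mul]
      ring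
    · simp only [PiLp.smul_apply, RotA_apply_two, RingHom.id_apply, smul_eq_mul]
      ring

/-- `rotv i t` is a linear isometry equivalence. -/
theorem exists_rot (i : Fin 3) (t : ℝ) : ∃ R : E3 ≃ₗᵢ[ℝ] E3, ∀ x, R x = rotv i t x := by
  obtain ⟨F, hF⟩ : ∃ F : E3 →ₗᵢ[ℝ] E3, ∀ x, F x = rotv i t x :=
    ⟨⟨RotA_lin i t, RotA_norm_rotv i t⟩, fun _ => rfl⟩
  refine ⟨F.toLinearIsometryEquiv rfl, fun x => ?_⟩
  rw [LinearIsometry.toLinearIsometryEquiv_apply, hF]

theorem rotv_zero (i : Fin 3) (x : E3) : rotv i 0 x = x := by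
  apply RotA_ext i
  · rw [RotA_apply_zero]
  · rw [RotA_apply_one, Real.cos_zero, Real.sin_zero, one_mul, zero_mul, sub_zero]
  · rw [RotA_apply_two, Real.cos_zero, Real.sin_zero, one_mul, zero_mul, zero_add]

theorem norm_rotv (i : Fin 3) (t : ℝ) (x : E3) : ‖rotv i t x‖ = ‖x‖ :=
  RotA_norm_rotv i t x

end

end Pool.Agent.Lib.MP_dabcc9_gt
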