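import Pool.Agent.Lib.MP_dabcc9_gt.McA
import Pool.Agent.Lib.MP_dabcc9_gt.RotA

/-! JOB M2.  Mean width of a ball with many caps cut off. -/

open MeasureTheory Metric Set

namespace Pool.Agent.Lib.MP_dabcc9_gt

noncomputable section

theorem McB_supp_image (R : E3 ≃ₗᵢ[ℝ] E3) (K : Set E3) (x : E3) :
    supp (R '' K) (R x) = supp K x := by
  unfold supp
  rw [Set.image_image]
  simp only [LinearIsometryEquiv.inner_map_map]

/-- `supp (R '' K) (R x) = supp K x`, `av_comp_isometry`, `cap1_image`, `exists_iso`. -/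
theorem av_supp_cap1 (v : E3) (hv : ‖v‖ = 1) (c : ℝ) :
    av (supp (cap1 v c)) = av (supp (capB c)) := by
  obtain ⟨R, hR⟩ := exists_iso v hv
  rw [cap1_image v R hR c, ← av_comp_isometry R]
  simp only [McB_supp_image]

theorem McB_greatest {K : Set E3} {x y : E3} (hy : y ∈ K)
    (h : ∀ z ∈ K, inner ℝ z x ≤ inner ℝ y x) : supp K x = inner ℝ y x := by
  apply IsGreatest.csSup_eq
  refine ⟨⟨y, hy, rfl⟩, ?_⟩
  rintro _ ⟨z, hz, rfl⟩
  exact h z hz

theorem McB_le_one {x y : E3} (hx : ‖x‖ = 1) (hy : ‖y‖ ≤ 1) : inner ℝ y x ≤ 1 := by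
  calc inner ℝ y x ≤ ‖y‖ * ‖x‖ := real_inner_le_norm y x
    _ ≤ 1 := by rw [hx, mul_one]; exact hy

theorem McB_self {x : E3} (hx : ‖x‖ = 1) : inner ℝ x x = (1 : ℝ) := by
  rw [real_inner_self_eq_norm_sq, hx, one_pow]

/-- `x` itself is the maximiser. -/
theorem supp_cap1_eq_one (v : E3) (c : ℝ) (x : E3) (hx : ‖x‖ = 1) (h : inner ℝ x v ≤ c) :
    supp (cap1 v c) x = 1 := by
  rw [← McB_self hx]
  refine McB_greatest (K := cap1 v c) (x := x) (y := x) ⟨hx.le, h⟩ ?_
  intro z hz
  rw [McB_self hx]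
  exact McB_le_one hx hz.1

theorem McB_compact (v : E3) (c : ℝ) : IsCompact (cap1 v c) := by
  have h : cap1 v c = closedBall 0 1 ∩ {x | inner ℝ x v ≤ c} := by
    ext x
    rw [mem_inter_iff, mem_closedBall_zero_iff]
    rfl
  rw [h]
  exact (isCompact_closedBall 0 1).inter_right (isClosed_le (by fun_prop) continuous_const)

theorem McB_nonempty (v : E3) (c : ℝ) (hc : 0 < c) : (cap1 v c).Nonempty :=
  ⟨0, by rw [norm_zero]; exact zero_le_one, by rw [inner_zero_left]; exact hc.le⟩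

/-- PROOF.  `cap1 v c` is compact and nonempty, so there is a maximiser `y`.  If `<y, v> < c`, then
`y ≠ x` and `<y, x> < 1` (equality in Cauchy-Schwarz would give `y = x`, but `<x, v> > c`); for small
`λ > 0` the point `(1-λ) y + λ x` lies in `cap1 v c` and has a larger inner product with `x`. -/
theorem supp_cap1_max (v : E3) (hv : ‖v‖ = 1) (c : ℝ) (hc : 0 < c) (x : E3) (hx : ‖x‖ = 1)
    (h : c < inner ℝ x v) : ∃ y : E3, ‖y‖ ≤ 1 ∧ inner ℝ y v = c ∧ supp (cap1 v c) x = inner ℝ y x := by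
  obtain ⟨hle, hmax, -, -, -⟩ := supp_props (McB_compact v c) (McB_nonempty v c hc)
  obtain ⟨y, ⟨hy1, hy2⟩, hy⟩ := hmax x
  refine ⟨y, hy1, le_antisymm hy2 ?_, hy⟩
  by_contra hcon
  have hcon : inner ℝ y v < c := not_le.mp hcon
  have hlt : inner ℝ y x < (1 : ℝ) := by
    by_contra h1
    have h1 : (1 : ℝ) ≤ inner ℝ y x := not_lt.mp h1
    have h2 : ‖y - x‖ ^ 2 = ‖y‖ ^ 2 - 2 * inner ℝ y x + ‖x‖ ^ 2 := norm_sub_sq_real y x
    have h3 : ‖y - x‖ ^ 2 ≤ 0 := by
      rw [h2, hx]
      nlinarith [norm_nonneg y]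
    have h4 : ‖y - x‖ = 0 := by
      have := norm_nonneg (y - x)
      nlinarith
    have h5 : y = x := sub_eq_zero.1 (norm_eq_zero.1 h4)
    rw [h5] at hcon
    exact absurd hcon (not_lt.2 h.le)
  obtain ⟨l, hl⟩ : ∃ l : ℝ, l = (c - inner ℝ y v) / (inner ℝ x v - inner ℝ y v) := ⟨_, rfl⟩
  have hd : 0 < inner ℝ x v - inner ℝ y v := by linarith
  have hl0 : 0 < l := by rw [hl]; exact div_pos (by linarith) hd
  have hl1 : l ≤ 1 := by rw [hl, div_le_one hd]; linarith
  have hle' : inner ℝ ((1 - l) • y + l • x) x ≤ supp (cap1 v c) x := by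
    apply hle
    constructor
    · calc ‖(1 - l) • y + l • x‖ ≤ ‖(1 - l) • y‖ + ‖l • x‖ := norm_add_le _ _
        _ = (1 - l) * ‖y‖ + l * ‖x‖ := by
          rw [norm_smul, norm_smul, Real.norm_of_nonneg (by linarith), Real.norm_of_nonneg hl0.le]
        _ ≤ 1 := by rw [hx]; nlinarith
    · rw [inner_add_left, real_inner_smul_left, real_inner_smul_left]
      have : l * (inner ℝ x v - inner ℝ y v) = c - inner ℝ y v := by
        rw [hl]; exact div_mul_cancel₀ _ hd.ne'
      linarith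
  rw [hy, inner_add_left, real_inner_smul_left, real_inner_smul_left, McB_self hx] at hle'
  nlinarith

/-- PROOF.  If `<x, n i> <= c` for all `i`: everything is `1`.  Otherwise exactly one `i` has
`<x, n i> > c` (`sep_key` with `r = 1`), all other terms vanish, `mcap n c ⊆ cap1 (n i) c` gives `<=`,
and the maximiser `y` of `supp_cap1_max` satisfies `<y, n j> <= c` by `sep_key`, so `y ∈ mcap n c`. -/
theorem supp_mcap {N : ℕ} {n : Fin N → E3} {c : ℝ} (h : Sep n c) (hc : 0 < c) (hc1 : c ≤ 1)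
    (x : E3) (hx : ‖x‖ = 1) : supp (mcap n c) x = 1 + ∑ i, (supp (cap1 (n i) c) x - 1) := by
  by_cases hall : ∀ i, inner ℝ x (n i) ≤ c
  · have h1 : ∀ i ∈ Finset.univ, supp (cap1 (n i) c) x - 1 = 0 := fun i _ => by
      rw [supp_cap1_eq_one (n i) c x hx (hall i), sub_self]
    rw [Finset.sum_eq_zero h1, add_zero, ← McB_self hx]
    refine McB_greatest (K := mcap n c) (x := x) (y := x) ⟨hx.le, hall⟩ ?_
    intro z hz
    rw [McB_self hx]
    exact McB_le_one hx hz.1
  · push Not at hall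
    obtain ⟨i, hi⟩ := hall
    have h1 : ∀ j ∈ Finset.univ, j ≠ i → supp (cap1 (n j) c) x - 1 = 0 := fun j _ hj => by
      have h2 := sep_key_lt h (Ne.symm hj) (x := x) (r := 1) hx.le (by rw [mul_one]; exact hi)
      rw [mul_one] at h2
      rw [supp_cap1_eq_one (n j) c x hx h2.le, sub_self]
    rw [Finset.sum_eq_single i h1 (fun h2 => absurd (Finset.mem_univ i) h2)]
    obtain ⟨y, hy1, hy2, hy3⟩ := supp_cap1_max (n i) (h.1 i) c hc x hx hi
    have hle := (supp_props (McB_compact (n i) c) (McB_nonempty (n i) c hc)).1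
    rw [add_sub_cancel, hy3]
    apply McB_greatest
    · refine ⟨hy1, fun j => ?_⟩
      by_cases hj : j = i
      · rw [hj]; exact hy2.le
      · have h2 := sep_key h (Ne.symm hj) (x := y) (r := 1) hy1 (by rw [mul_one]; exact hy2.ge)
        rw [mul_one] at h2
        exact h2
    · intro z hz
      rw [← hy3]
      exact hle z ⟨hz.1, hz.2 i⟩ x

theorem McB_av_sum {ι : Type*} (s : Finset ι) (f : ι → E3 → ℝ) (hf : ∀ i, Continuous (f i)) :
    av (fun x => ∑ i ∈ s, f i x) = ∑ i ∈ s, av (f i) := by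
  classical
  induction s using Finset.induction_on with
  | empty => simp only [Finset.sum_empty]; exact av_const 0
  | insert a s ha ih =>
    rw [Finset.sum_insert ha, ← ih, ← av_add (hf a).continuousOn
      (continuous_finsetSum _ fun i _ => hf i).continuousOn]
    congr 1
    funext x
    rw [Finset.sum_insert ha]

/-- Average of `supp_mcap` (`supp_props` for continuity). -/
theorem av_supp_mcap {N : ℕ} {n : Fin N → E3} {c : ℝ} (h : Sep n c) (hc : 0 < c) (hc1 : c ≤ 1) :
    av (supp (mcap n c)) = 1 - N * (1 - av (supp (capB c))) := by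
  have hcont : ∀ i, Continuous (supp (cap1 (n i) c)) := fun i =>
    (supp_props (McB_compact (n i) c) (McB_nonempty (n i) c hc)).2.2.2.2
  have hcont' : ∀ i, Continuous (fun x => supp (cap1 (n i) c) x - 1) := fun i =>
    (hcont i).sub continuous_const
  rw [av_congr (g := fun x => 1 + ∑ i, (supp (cap1 (n i) c) x - 1))
    (fun x hx => supp_mcap h hc hc1 x hx),
    av_add continuousOn_const (continuous_finsetSum _ fun i _ => hcont' i).continuousOn,
    av_const, McB_av_sum _ _ hcont']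
  have h1 : ∀ i ∈ Finset.univ, av (fun x => supp (cap1 (n i) c) x - 1) =
      av (supp (capB c)) - 1 := fun i _ => by
    rw [av_sub (hcont i).continuousOn continuousOn_const, av_const, av_supp_cap1 (n i) (h.1 i) c]
  rw [Finset.sum_congr rfl h1, Finset.sum_const, Finset.card_univ, Fintype.card_fin, nsmul_eq_mul]
  ring

end

end Pool.Agent.Lib.MP_dabcc9_gt
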