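import Pool.Agent.Lib.MP_dabcc9_gt.McC

/-! JOB M4.  Lower bound of the outer parallel volume. -/

open MeasureTheory Metric Set

namespace Pool.Agent.Lib.MP_dabcc9_gt

noncomputable section

/-- The three pieces of the outer parallel body used in `vol_thick_capB_ge`. -/
def ureg (c t : ℝ) : Set E3 := capB c ∪
  ({x : E3 | ‖x‖ ≤ 1 + t ∧ x 2 ≤ c * ‖x‖} \ {x : E3 | ‖x‖ ≤ 1 ∧ x 2 ≤ c * ‖x‖}) ∪
  {x : E3 | x 0 ^ 2 + x 1 ^ 2 ≤ 1 - c ^ 2 ∧ c < x 2 ∧ x 2 ≤ c + t}

/-- Copy from the proof of `vol_thick_capB_ge` in `CapB.lean`. -/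
theorem vol_ureg (c t : ℝ) (h0 : 0 < c) (h1 : c < 1) (ht : 0 ≤ t) :
    vol (ureg c t) = vol (capB c) + ((1 + t) ^ 3 - 1) * (2 * Real.pi / 3 * (1 + c))
      + Real.pi * (1 - c ^ 2) * t ∧ ureg c t ⊆ closedBall 0 (1 + t) ∧ MeasurableSet (ureg c t) := by
  -- the shell
  set B : Set E3 := {x : E3 | ‖x‖ ≤ 1 + t ∧ x 2 ≤ c * ‖x‖} \ {x : E3 | ‖x‖ ≤ 1 ∧ x 2 ≤ c * ‖x‖}
    with hB
  have hBm : MeasurableSet B := (CapB_closed c (1 + t)).measurableSet.diff
    (CapB_closed c 1).measurableSet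
  have hBv : volume.real B = ((1 + t) ^ 3 - 1) * (2 * Real.pi / 3 * (1 + c)) := by
    have hsub : {x : E3 | ‖x‖ ≤ 1 ∧ x 2 ≤ c * ‖x‖} ⊆ {x : E3 | ‖x‖ ≤ 1 + t ∧ x 2 ≤ c * ‖x‖} :=
      fun x hx => ⟨hx.1.trans (by linarith), hx.2⟩
    have hfn : volume {x : E3 | ‖x‖ ≤ 1 + t ∧ x 2 ≤ c * ‖x‖} ≠ ⊤ :=
      CapB_bdd (R := 1 + t) fun x hx => hx.1
    rw [hB, measureReal_sdiff hsub (CapB_closed c 1).measurableSet hfn,
      CapB_scale c (1 + t) (by linarith), vol_sector c h0.le h1.le]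
    ring
  have hBn : ∀ x ∈ B, 1 < ‖x‖ ∧ ‖x‖ ≤ 1 + t ∧ x 2 ≤ c * ‖x‖ := by
    rintro x ⟨hx1, hx2⟩
    refine ⟨?_, hx1.1, hx1.2⟩
    by_contra h
    exact hx2 ⟨not_lt.1 h, hx1.2⟩
  have hAm : MeasurableSet (capB c) := (CapB_closedA c).measurableSet
  have hAB : Disjoint (capB c) B := by
    rw [Set.disjoint_left]
    rintro x hxA hxB
    have h2 := (hBn x hxB).1
    have h3 := hxA.1
    rw [mem_closedBall, dist_zero_right] at h3
    linarith
  have hABv : volume.real (capB c ∪ B) =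
      vol (capB c) + ((1 + t) ^ 3 - 1) * (2 * Real.pi / 3 * (1 + c)) := by
    rw [measureReal_union hAB hBm
      (CapB_bdd (R := 1) fun x hx => by
        have h3 := hx.1
        rwa [mem_closedBall, dist_zero_right] at h3)
      (CapB_bdd (R := 1 + t) fun x hx => (hBn x hx).2.1), hBv]
    rfl
  have hs0 : 0 ≤ 1 - c ^ 2 := by nlinarith
  set s : ℝ := Real.sqrt (1 - c ^ 2) with hs
  have hss : s ^ 2 = 1 - c ^ 2 := Real.sq_sqrt hs0
  set D : Set E3 := {x : E3 | x 0 ^ 2 + x 1 ^ 2 ≤ 1 - c ^ 2 ∧ c < x 2 ∧ x 2 ≤ c + t} with hD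
  have hDv : volume.real D = Real.pi * (1 - c ^ 2) * t := by
    have := vol_cyl c s t (Real.sqrt_nonneg _) ht
    rw [hss] at this
    exact this
  have hDm : MeasurableSet D := by
    have e1 : MeasurableSet {x : E3 | x 0 ^ 2 + x 1 ^ 2 ≤ 1 - c ^ 2} :=
      (isClosed_le (by fun_prop) (by fun_prop)).measurableSet
    have e2 : MeasurableSet {x : E3 | c < x 2} :=
      (isOpen_lt (by fun_prop) (by fun_prop)).measurableSet
    have e3 : MeasurableSet {x : E3 | x 2 ≤ c + t} :=
      (isClosed_le (by fun_prop) (by fun_prop)).measurableSet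
    exact e1.inter (e2.inter e3)
  have hDn : ∀ x ∈ D, ‖x‖ ≤ 1 + t := by
    intro x hx
    have hn := norm_sq_eq3 x
    have e1 := hx.1
    have e2 := hx.2.1
    have e3 := hx.2.2
    have hx2 : x 2 ^ 2 ≤ (c + t) ^ 2 := by nlinarith
    refine abs_le_of_sq_le_sq' ?_ (by linarith) |>.2
    rw [hn]
    nlinarith
  have hDb : volume D ≠ ⊤ := CapB_bdd (R := 1 + t) hDn
  have hdisj : Disjoint (capB c ∪ B) D := by
    rw [Set.disjoint_left]
    rintro x (hxA | hxB) hxD
    · have h2 : x 2 ≤ c := hxA.2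
      have h3 := hxD.2.1
      linarith
    · obtain ⟨h2, h3, h4⟩ := hBn x hxB
      have h5 := hxD.1
      have h6 := hxD.2.1
      have hn := norm_sq_eq3 x
      have h7 : x 2 ^ 2 ≤ c ^ 2 * ‖x‖ ^ 2 := by
        have h8 : 0 ≤ x 2 := by linarith
        nlinarith
      have h9 : 0 < 1 - c ^ 2 := by nlinarith
      rw [hn] at h7
      have h10 : x 2 ^ 2 * (1 - c ^ 2) ≤ c ^ 2 * (1 - c ^ 2) := by nlinarith [sq_nonneg c]
      have h11 : x 2 ^ 2 ≤ c ^ 2 := le_of_mul_le_mul_right h10 h9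
      nlinarith
  have hU : volume.real (capB c ∪ B ∪ D) =
      vol (capB c) + ((1 + t) ^ 3 - 1) * (2 * Real.pi / 3 * (1 + c))
        + Real.pi * (1 - c ^ 2) * t := by
    rw [measureReal_union hdisj hDm
      (CapB_bdd (R := 1 + t) fun x hx => by
        rcases hx with hx | hx
        · have h3 := hx.1
          rw [mem_closedBall, dist_zero_right] at h3
          linarith
        · exact (hBn x hx).2.1) hDb, hABv, hDv]
  have hset : ureg c t = capB c ∪ B ∪ D := rfl
  refine ⟨?_, ?_, ?_⟩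
  · rw [hset]
    exact hU
  · rw [hset]
    intro x hx
    rw [mem_closedBall, dist_zero_right]
    rcases hx with (hx | hx) | hx
    · have h3 := hx.1
      rw [mem_closedBall, dist_zero_right] at h3
      linarith
    · exact (hBn x hx).2.1
    · exact hDn x hx
  · rw [hset]
    exact (hAm.union hBm).union hDm

private theorem McD_eb (y : E3) : inner ℝ y (eb 2) = y 2 := by
  rw [inner_eq3]
  simp [eb]

/-- Coordinates free description for the direction `v = R (eb 2)`. -/
theorem mem_ureg_image (R : E3 ≃ₗᵢ[ℝ] E3) (v : E3) (hR : R (eb 2) = v) (c t : ℝ) (x : E3)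
    (hx : x ∈ R '' ureg c t) : (‖x‖ ≤ 1 ∧ inner ℝ x v ≤ c) ∨ inner ℝ x v ≤ c * ‖x‖ ∨
      (‖x - (inner ℝ x v) • v‖ ^ 2 ≤ 1 - c ^ 2 ∧ c < inner ℝ x v ∧ inner ℝ x v ≤ c + t) := by
  obtain ⟨y, hy, rfl⟩ := hx
  have h1 : inner ℝ (R y) v = y 2 := by
    rw [← hR, LinearIsometryEquiv.inner_map_map, McD_eb]
  have h2 : ‖R y‖ = ‖y‖ := R.norm_map y
  rw [h1, h2]
  rcases hy with (hy | hy) | hy
  · left
    have h3 := hy.1
    rw [mem_closedBall, dist_zero_right] at h3
    exact ⟨h3, hy.2⟩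
  · right
    left
    exact hy.1.2
  · right
    right
    refine ⟨?_, hy.2.1, hy.2.2⟩
    have h4 : R y - (y 2) • v = R (y - (y 2) • eb 2) := by
      rw [map_sub, map_smul, hR]
    rw [h4, R.norm_map, norm_sq_eq3]
    have h5 := hy.1
    simpa [eb] using h5

private theorem McD_ball (r : ℝ) (hr : 0 ≤ r) :
    volume.real (closedBall (0 : E3) r) = 4 * Real.pi / 3 * r ^ 3 := by
  have h1 : volume (closedBall (0 : E3) r) = ENNReal.ofReal (r ^ 3) * volume (closedBall (0 : E3) 1) := by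
    have := Measure.addHaar_closedBall_mul (volume : Measure E3) 0 hr (zero_le_one : (0 : ℝ) ≤ 1)
    rw [mul_one] at this
    rw [this, finrank_euclideanSpace_fin]
  have h2 : volume.real (closedBall (0 : E3) 1) = 4 * Real.pi / 3 := vol_unit_ball
  rw [measureReal_def] at h2 ⊢
  rw [h1, ENNReal.toReal_mul, h2, ENNReal.toReal_ofReal (by positivity)]
  ring

private theorem McD_incl {N : ℕ} {n : Fin N → E3} {c : ℝ} (h : Sep n c) (h0 : 0 < c)
    (t : ℝ) (ht : 0 ≤ t) (R : Fin N → (E3 ≃ₗᵢ[ℝ] E3)) (hR : ∀ i, R i (eb 2) = n i) :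
    closedBall (0 : E3) (1 + t) ⊆ cthickening t (mcap n c) ∪
      ⋃ i, (closedBall (0 : E3) (1 + t) \ R i '' ureg c t) := by
  intro x hx
  by_cases hU : ∃ i, x ∉ R i '' ureg c t
  · obtain ⟨i, hi⟩ := hU
    exact Or.inr (Set.mem_iUnion.mpr ⟨i, hx, hi⟩)
  left
  push Not at hU
  rw [mem_closedBall, dist_zero_right] at hx
  have hn : ∀ i, inner ℝ (n i) (n i) = (1 : ℝ) := by
    intro i
    rw [real_inner_self_eq_norm_sq, h.1 i]
    norm_num
  by_cases hA : ∃ i, ‖x - (inner ℝ x (n i)) • n i‖ ^ 2 ≤ 1 - c ^ 2 ∧ c < inner ℝ x (n i) ∧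
      inner ℝ x (n i) ≤ c + t
  · obtain ⟨i, g1, g2, g3⟩ := hA
    set a : ℝ := inner ℝ x (n i) with ha
    refine mem_cthickening_of_dist_le x (x - (a - c) • n i) t _ ?_ ?_
    · have hz : inner ℝ (x - (a - c) • n i) (n i) = c := by
        rw [inner_sub_left, inner_smul_left, hn i, ← ha]
        simp
      have hz1 : ‖x - (a - c) • n i‖ ≤ 1 := by
        have e1 : x - (a - c) • n i = (x - a • n i) + c • n i := by
          rw [sub_smul]
          abel
        have e2 : inner ℝ (x - a • n i) (c • n i) = (0 : ℝ) := by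
          rw [inner_smul_right, inner_sub_left, inner_smul_left, hn i, ← ha]
          simp
        have e3 : ‖x - (a - c) • n i‖ ^ 2 = ‖x - a • n i‖ ^ 2 + c ^ 2 := by
          rw [e1, norm_add_sq_real, e2, norm_smul, h.1 i]
          simp
        refine abs_le_of_sq_le_sq' ?_ zero_le_one |>.2
        rw [e3]
        linarith
      refine ⟨hz1, ?_⟩
      intro j
      by_cases hij : i = j
      · rw [← hij, hz]
      · have := sep_key h hij hz1 (by rw [hz, mul_one])
        rwa [mul_one] at this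
    · rw [dist_eq_norm]
      have e1 : x - (x - (a - c) • n i) = (a - c) • n i := by abel
      rw [e1, norm_smul, h.1 i, mul_one, Real.norm_eq_abs, abs_of_pos (by linarith)]
      linarith
  · have hB : ∀ i, (‖x‖ ≤ 1 ∧ inner ℝ x (n i) ≤ c) ∨ inner ℝ x (n i) ≤ c * ‖x‖ := by
      intro i
      rcases mem_ureg_image (R i) (n i) (hR i) c t x (hU i) with g | g | g
      · exact Or.inl g
      · exact Or.inr g
      · exact absurd ⟨i, g⟩ hA
    rcases le_or_gt ‖x‖ 1 with h1 | h1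
    · refine mem_cthickening_of_dist_le x x t _ ?_ (by rw [dist_self]; exact ht)
      refine ⟨h1, ?_⟩
      intro i
      rcases hB i with g | g
      · exact g.2
      · calc inner ℝ x (n i) ≤ c * ‖x‖ := g
          _ ≤ c * 1 := mul_le_mul_of_nonneg_left h1 h0.le
          _ = c := mul_one c
    · have hpos : 0 < ‖x‖ := by linarith
      refine mem_cthickening_of_dist_le x ((‖x‖)⁻¹ • x) t _ ?_ ?_
      · refine ⟨?_, ?_⟩
        · rw [norm_smul, norm_inv, norm_norm, inv_mul_cancel₀ hpos.ne']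
        · intro i
          rw [inner_smul_left]
          have g : inner ℝ x (n i) ≤ c * ‖x‖ := by
            rcases hB i with g | g
            · exact absurd g.1 (not_le.mpr h1)
            · exact g
          show (‖x‖)⁻¹ * inner ℝ x (n i) ≤ c
          rw [inv_mul_le_iff₀ hpos, mul_comm]
          exact g
      · have h5 : x - (‖x‖)⁻¹ • x = (1 - (‖x‖)⁻¹) • x := by rw [sub_smul, one_smul]
        have h6 : 0 ≤ 1 - (‖x‖)⁻¹ := by
          have := inv_le_one_of_one_le₀ h1.le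
          linarith
        rw [dist_eq_norm, h5, norm_smul, Real.norm_eq_abs, abs_of_nonneg h6, sub_mul,
          inv_mul_cancel₀ hpos.ne', one_mul]
        linarith

/-- PROOF.  `R i` with `R i (eb 2) = n i`.  A point `x` of `closedBall 0 (1+t)` that lies in
`R i '' ureg c t` for all `i` is in `cthickening t (mcap n c)`: if the third case of `mem_ureg_image`
holds for some `i` and `<x, n i> > c ‖x‖`: `z = x - (<x, n i> - c) n i` has `<z, n i> = c`,
`‖z‖^2 = ‖x - <x, n i> n i‖^2 + c^2 <= 1`, so `z ∈ mcap` by `sep_key`, and `dist x z <= t`.  Otherwise for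
all `i`: `(‖x‖ <= 1 and <x, n i> <= c)` or `<x, n i> <= c ‖x‖`; if `‖x‖ <= 1` then `x ∈ mcap`, if
`‖x‖ > 1` then `x/‖x‖ ∈ mcap` and the distance is `‖x‖ - 1 <= t`.  (In the third case with
`<x, n i> <= c ‖x‖` use the second alternative.)
So `closedBall 0 (1+t) ⊆ cthickening t (mcap n c) ∪ ⋃ i (closedBall 0 (1+t) \ R i '' ureg c t)`; union
bound. -/
theorem vol_thick_mcap_ge {N : ℕ} {n : Fin N → E3} {c : ℝ} (h : Sep n c) (h0 : 0 < c) (h1 : c < 1)
    (t : ℝ) (ht : 0 ≤ t) :
    4 * Real.pi / 3 * (1 + t) ^ 3 - N * (4 * Real.pi / 3 * (1 + t) ^ 3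
      - (Real.pi * (2 / 3 + c - c ^ 3 / 3) + ((1 + t) ^ 3 - 1) * (2 * Real.pi / 3 * (1 + c))
        + Real.pi * (1 - c ^ 2) * t)) ≤ vol (cthickening t (mcap n c)) := by
  choose R hR using fun i => exists_iso (n i) (h.1 i)
  obtain ⟨u1, u2, u3⟩ := vol_ureg c t h0 h1 ht
  have hballfin : volume (closedBall (0 : E3) (1 + t)) ≠ ⊤ :=
    (Metric.isBounded_closedBall.measure_lt_top).ne
  have hball := McD_ball (1 + t) (by linarith)
  have himg : ∀ i, R i '' ureg c t ⊆ closedBall 0 (1 + t) := by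
    rintro i x ⟨y, hy, rfl⟩
    have := u2 hy
    rw [mem_closedBall, dist_zero_right] at this ⊢
    rwa [(R i).norm_map]
  have hmeas : ∀ i, MeasurableSet (R i '' ureg c t) := by
    intro i
    have h2 : R i '' ureg c t = (R i).symm ⁻¹' ureg c t := by
      ext x
      constructor
      · rintro ⟨y, hy, rfl⟩
        show (R i).symm (R i y) ∈ ureg c t
        rwa [LinearIsometryEquiv.symm_apply_apply]
      · intro hx
        exact ⟨(R i).symm x, hx, (R i).apply_symm_apply x⟩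
    rw [h2]
    exact (R i).symm.continuous.measurable u3
  have hE : ∀ i, volume.real (closedBall (0 : E3) (1 + t) \ R i '' ureg c t) =
      4 * Real.pi / 3 * (1 + t) ^ 3
      - (Real.pi * (2 / 3 + c - c ^ 3 / 3) + ((1 + t) ^ 3 - 1) * (2 * Real.pi / 3 * (1 + c))
        + Real.pi * (1 - c ^ 2) * t) := by
    intro i
    rw [measureReal_sdiff (himg i) (hmeas i) hballfin, hball]
    have h2 : volume.real (R i '' ureg c t) = vol (ureg c t) := vol_iso (R i) (ureg c t)
    rw [h2, u1, vol_capB c h0.le h1.le]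
  have hbd : Bornology.IsBounded (mcap n c) := by
    refine (Metric.isBounded_closedBall (x := (0 : E3)) (r := 1)).subset ?_
    intro x hx
    rw [mem_closedBall, dist_zero_right]
    exact hx.1
  have hfin : volume (cthickening t (mcap n c)) ≠ ⊤ := (hbd.cthickening.measure_lt_top).ne
  have hincl := McD_incl h h0 t ht R hR
  have hfinU : volume (⋃ i, (closedBall (0 : E3) (1 + t) \ R i '' ureg c t)) ≠ ⊤ := by
    refine ne_top_of_le_ne_top hballfin (measure_mono ?_)
    exact Set.iUnion_subset fun i => Set.sdiff_subset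
  have h3 : volume.real (closedBall (0 : E3) (1 + t)) ≤
      volume.real (cthickening t (mcap n c)) +
        volume.real (⋃ i, (closedBall (0 : E3) (1 + t) \ R i '' ureg c t)) :=
    (measureReal_mono hincl (measure_union_ne_top hfin hfinU)).trans (measureReal_union_le _ _)
  have h4 : volume.real (⋃ i, (closedBall (0 : E3) (1 + t) \ R i '' ureg c t)) ≤
      ∑ i : Fin N, volume.real (closedBall (0 : E3) (1 + t) \ R i '' ureg c t) :=
    measureReal_iUnion_fintype_le _
  rw [Finset.sum_congr rfl fun i _ => hE i, Finset.sum_const, Finset.card_univ, Fintype.card_fin,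
    nsmul_eq_mul] at h4
  rw [hball] at h3
  have h5 : vol (cthickening t (mcap n c)) = volume.real (cthickening t (mcap n c)) := rfl
  rw [h5]
  linarith

end

end Pool.Agent.Lib.MP_dabcc9_gt
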