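import Pool.Agent.Lib.MP_dabcc9_gt.McB
import Pool.Agent.Lib.MP_dabcc9_gt.McE
import Pool.Agent.Lib.MP_dabcc9_gt.LimB

/-! JOB M6.  The two coordinates in the Blaschke diagram. -/

open MeasureTheory Metric Set

namespace Pool.Agent.Lib.MP_dabcc9_gt

noncomputable section

/-- Defect of the mean width. -/
def capD (N t : ℝ) : ℝ := N * ((1 - Real.cos t) / 2 - t * Real.sin t / 4)

/-- First coordinate. -/
def capX (N t : ℝ) : ℝ := (1 - N * (1 - Real.cos t) ^ 2 / 4) / (1 - capD N t) ^ 2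

/-- Second coordinate. -/
def capY (N t : ℝ) : ℝ :=
  (1 - N * (1 - Real.cos t) ^ 2 * (2 + Real.cos t) / 4) / (1 - capD N t) ^ 3

/-- From `body_values` (formulas for `bX`, `bY`), `surf_mcap`, `vol_mcap`, `av_supp_mcap`,
`av_supp_capB`; `2 - 3 c + c^3 = (1-c)^2 (2+c)`. -/
theorem mcap_values {N : ℕ} {n : Fin N → E3} {t : ℝ} (ht : 0 < t) (ht1 : t < 1)
    (h : Sep n (Real.cos t)) :
    bX (mcap n (Real.cos t)) = capX N t ∧ bY (mcap n (Real.cos t)) = capY N t := by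
  have hpi := Real.pi_gt_three
  have hc0 : 0 < Real.cos t := Real.cos_pos_of_mem_Ioo ⟨by linarith, by linarith⟩
  have hc1 : Real.cos t < 1 := by
    rw [← Real.cos_zero]
    exact Real.cos_lt_cos_of_nonneg_of_le_pi le_rfl (by linarith) ht
  obtain ⟨-, -, hx, hy⟩ := body_values (mcap_body h hc0 hc1.le)
  have hav : av (supp (mcap n (Real.cos t))) = 1 - capD N t := by
    rw [av_supp_mcap h hc0 hc1.le, av_supp_capB t ht ht1]
    unfold capD
    ring
  have hp : 4 * Real.pi ≠ 0 := by positivity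
  refine ⟨?_, ?_⟩
  · rw [hx, hav, surf_mcap h hc0 hc1]
    have e : 4 * Real.pi - (N : ℝ) * (Real.pi * (1 - Real.cos t) ^ 2) =
        4 * Real.pi * (1 - N * (1 - Real.cos t) ^ 2 / 4) := by ring
    rw [e, mul_div_mul_left _ _ hp]
    rfl
  · rw [hy, hav, vol_mcap h hc0.le hc1.le]
    have e : 3 * (4 * Real.pi / 3 - (N : ℝ) * (Real.pi * (2 / 3 - Real.cos t + Real.cos t ^ 3 / 3))) =
        4 * Real.pi * (1 - N * (1 - Real.cos t) ^ 2 * (2 + Real.cos t) / 4) := by ring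
    rw [e, mul_div_mul_left _ _ hp]
    rfl

end

end Pool.Agent.Lib.MP_dabcc9_gt
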