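import Mathlib

/-! JOB M7.  Taylor bounds of the trigonometric functions. -/

namespace Pool.Agent.Lib.MP_dabcc9_gt

private theorem McG_mono {f f' : ℝ → ℝ} (hf : ∀ x, HasDerivAt f (f' x) x) (h0 : f 0 = 0)
    (h : ∀ x, 0 ≤ x → 0 ≤ f' x) (x : ℝ) (hx : 0 ≤ x) : 0 ≤ f x := by
  have hm : MonotoneOn f (Set.Ici 0) := by
    apply monotoneOn_of_deriv_nonneg (convex_Ici 0)
    · exact (continuous_iff_continuousAt.2 fun x => (hf x).continuousAt).continuousOn
    · exact fun x _ => (hf x).differentiableAt.differentiableWithinAt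
    · intro y hy
      rw [interior_Ici] at hy
      rw [(hf y).deriv]
      exact h y (le_of_lt hy)
  have h1 := hm (Set.mem_Ici.2 le_rfl) (Set.mem_Ici.2 hx) hx
  rwa [h0] at h1

private theorem McG_sin3 (x : ℝ) (hx : 0 ≤ x) : x - x ^ 3 / 6 ≤ Real.sin x := by
  have h := McG_mono (f := fun x => Real.sin x - (x - x ^ 3 / 6))
    (f' := fun x => Real.cos x - (1 - x ^ 2 / 2)) (fun y => by
      have h1 := (Real.hasDerivAt_sin y).sub ((hasDerivAt_id y).sub ((hasDerivAt_pow 3 y).div_const 6))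
      refine HasDerivAt.congr_deriv h1 ?_
      norm_num
      try ring) (by simp) (fun y _ => by
        have := Real.one_sub_sq_div_two_le_cos (x := y)
        linarith) x hx
  have h' := h
  linarith

private theorem McG_cos4 (x : ℝ) (hx : 0 ≤ x) : Real.cos x ≤ 1 - x ^ 2 / 2 + x ^ 4 / 24 := by
  have h := McG_mono (f := fun x => (1 - x ^ 2 / 2 + x ^ 4 / 24) - Real.cos x)
    (f' := fun x => Real.sin x - (x - x ^ 3 / 6)) (fun y => by
      have h1 := ((((hasDerivAt_const y (1 : ℝ)).sub ((hasDerivAt_pow 2 y).div_const 2)).add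
        ((hasDerivAt_pow 4 y).div_const 24))).sub (Real.hasDerivAt_cos y)
      refine HasDerivAt.congr_deriv h1 ?_
      norm_num
      try ring) (by simp) (fun y hy => by
        have := McG_sin3 y hy
        linarith) x hx
  have h' := h
  linarith

private theorem McG_sin5 (x : ℝ) (hx : 0 ≤ x) : Real.sin x ≤ x - x ^ 3 / 6 + x ^ 5 / 120 := by
  have h := McG_mono (f := fun x => (x - x ^ 3 / 6 + x ^ 5 / 120) - Real.sin x)
    (f' := fun x => (1 - x ^ 2 / 2 + x ^ 4 / 24) - Real.cos x) (fun y => by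
      have h1 := (((hasDerivAt_id y).sub ((hasDerivAt_pow 3 y).div_const 6)).add
        ((hasDerivAt_pow 5 y).div_const 120)).sub (Real.hasDerivAt_sin y)
      refine HasDerivAt.congr_deriv h1 ?_
      norm_num
      try ring) (by simp) (fun y hy => by
        have := McG_cos4 y hy
        linarith) x hx
  have h' := h
  linarith

private theorem McG_cos6 (x : ℝ) (hx : 0 ≤ x) :
    1 - x ^ 2 / 2 + x ^ 4 / 24 - x ^ 6 / 720 ≤ Real.cos x := by
  have h := McG_mono (f := fun x => Real.cos x - (1 - x ^ 2 / 2 + x ^ 4 / 24 - x ^ 6 / 720))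
    (f' := fun x => (x - x ^ 3 / 6 + x ^ 5 / 120) - Real.sin x) (fun y => by
      have h1 := (Real.hasDerivAt_cos y).sub ((((hasDerivAt_const y (1 : ℝ)).sub
        ((hasDerivAt_pow 2 y).div_const 2)).add
        ((hasDerivAt_pow 4 y).div_const 24)).sub ((hasDerivAt_pow 6 y).div_const 720))
      refine HasDerivAt.congr_deriv h1 ?_
      norm_num
      try ring) (by simp) (fun y hy => by
        have := McG_sin5 y hy
        linarith) x hx
  have h' := h
  linarith

private theorem McG_sin7 (x : ℝ) (hx : 0 ≤ x) :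
    x - x ^ 3 / 6 + x ^ 5 / 120 - x ^ 7 / 5040 ≤ Real.sin x := by
  have h := McG_mono (f := fun x => Real.sin x - (x - x ^ 3 / 6 + x ^ 5 / 120 - x ^ 7 / 5040))
    (f' := fun x => Real.cos x - (1 - x ^ 2 / 2 + x ^ 4 / 24 - x ^ 6 / 720)) (fun y => by
      have h1 := (Real.hasDerivAt_sin y).sub ((((hasDerivAt_id y).sub
        ((hasDerivAt_pow 3 y).div_const 6)).add
        ((hasDerivAt_pow 5 y).div_const 120)).sub ((hasDerivAt_pow 7 y).div_const 5040))
      refine HasDerivAt.congr_deriv h1 ?_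
      norm_num
      try ring) (by simp) (fun y hy => by
        have := McG_cos6 y hy
        linarith) x hx
  have h' := h
  linarith

private theorem McG_cos8 (x : ℝ) (hx : 0 ≤ x) :
    Real.cos x ≤ 1 - x ^ 2 / 2 + x ^ 4 / 24 - x ^ 6 / 720 + x ^ 8 / 40320 := by
  have h := McG_mono
    (f := fun x => (1 - x ^ 2 / 2 + x ^ 4 / 24 - x ^ 6 / 720 + x ^ 8 / 40320) - Real.cos x)
    (f' := fun x => Real.sin x - (x - x ^ 3 / 6 + x ^ 5 / 120 - x ^ 7 / 5040)) (fun y => by
      have h1 := (((((hasDerivAt_const y (1 : ℝ)).sub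
        ((hasDerivAt_pow 2 y).div_const 2)).add
        ((hasDerivAt_pow 4 y).div_const 24)).sub ((hasDerivAt_pow 6 y).div_const 720)).add
        ((hasDerivAt_pow 8 y).div_const 40320)).sub (Real.hasDerivAt_cos y)
      refine HasDerivAt.congr_deriv h1 ?_
      norm_num
      try ring) (by simp) (fun y hy => by
        have := McG_sin7 y hy
        linarith) x hx
  have h' := h
  linarith

/-- By integrating repeatedly, exactly as in `CapD.lean` (`CapD_mono`; copy with new names). -/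
theorem taylor_cos (x : ℝ) (hx : 0 ≤ x) :
    1 - x ^ 2 / 2 + x ^ 4 / 24 - x ^ 6 / 720 ≤ Real.cos x ∧
    Real.cos x ≤ 1 - x ^ 2 / 2 + x ^ 4 / 24 - x ^ 6 / 720 + x ^ 8 / 40320 := by
  exact ⟨McG_cos6 x hx, McG_cos8 x hx⟩

theorem taylor_sin (x : ℝ) (hx : 0 ≤ x) :
    x - x ^ 3 / 6 + x ^ 5 / 120 - x ^ 7 / 5040 ≤ Real.sin x ∧
    Real.sin x ≤ x - x ^ 3 / 6 + x ^ 5 / 120 := by
  exact ⟨McG_sin7 x hx, McG_sin5 x hx⟩

end Pool.Agent.Lib.MP_dabcc9_gt
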