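import Pool.Agent.Lib.MP_dabcc9_gt.McF
import Pool.Agent.Lib.MP_dabcc9_gt.McG

/-! JOB M8.  The second order inequality. -/

open MeasureTheory Metric Set

namespace Pool.Agent.Lib.MP_dabcc9_gt

noncomputable section

/-- Two-sided bounds.  `u = t^2`, `w = 1 - cos t = u/2 - u^2/24 + u^3/720 - [0, u^4/40320]`,
`t sin t = u - u^2/6 + u^3/120 - [0, u^4/5040]`, so
`w/2 - t sin t/4 = u^2/48 - u^3/720 + [- u^4/80640, u^4/20160]`; and
`w^2 = u^2/4 - u^3/24 + O(u^4)`. -/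
theorem cap_taylor (t : ℝ) (ht : 0 < t) (hu : t ^ 2 ≤ 1 / 1000) :
    t ^ 4 / 48 - t ^ 6 / 720 - t ^ 8 / 80640 ≤ (1 - Real.cos t) / 2 - t * Real.sin t / 4 ∧
    (1 - Real.cos t) / 2 - t * Real.sin t / 4 ≤ t ^ 4 / 48 - t ^ 6 / 720 + t ^ 8 / 20160 ∧
    t ^ 4 / 4 - t ^ 6 / 24 ≤ (1 - Real.cos t) ^ 2 ∧
    (1 - Real.cos t) ^ 2 ≤ t ^ 4 / 4 - t ^ 6 / 24 + t ^ 8 / 300 := by
  obtain ⟨c1, c2⟩ := taylor_cos t ht.le
  obtain ⟨s1, s2⟩ := taylor_sin t ht.le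
  have hs1 := mul_le_mul_of_nonneg_left s1 ht.le
  have hs2 := mul_le_mul_of_nonneg_left s2 ht.le
  have e1 : t * (t - t ^ 3 / 6 + t ^ 5 / 120 - t ^ 7 / 5040) =
      t ^ 2 - t ^ 4 / 6 + t ^ 6 / 120 - t ^ 8 / 5040 := by ring
  have e2 : t * (t - t ^ 3 / 6 + t ^ 5 / 120) = t ^ 2 - t ^ 4 / 6 + t ^ 6 / 120 := by ring
  rw [e1] at hs1
  rw [e2] at hs2
  obtain ⟨u, hu'⟩ : ∃ u, u = t ^ 2 := ⟨_, rfl⟩
  have h4 : t ^ 4 = u ^ 2 := by rw [hu']; ring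
  have h6 : t ^ 6 = u ^ 3 := by rw [hu']; ring
  have h8 : t ^ 8 = u ^ 4 := by rw [hu']; ring
  have hu0 : 0 < u := by rw [hu']; positivity
  simp only [h4, h6, h8, ← hu'] at c1 c2 hs1 hs2 hu
  rw [h4, h6, h8]
  have hw1 : u / 2 - u ^ 2 / 24 + u ^ 3 / 720 - u ^ 4 / 40320 ≤ 1 - Real.cos t := by linarith
  have hw2 : 1 - Real.cos t ≤ u / 2 - u ^ 2 / 24 + u ^ 3 / 720 := by linarith
  have hu2 : u ^ 2 ≤ 1 / 1000 * u := by nlinarith
  have hu3 : u ^ 3 ≤ 1 / 1000 * u ^ 2 := by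
    have : u ^ 3 = u * u ^ 2 := by ring
    rw [this]
    exact mul_le_mul_of_nonneg_right hu (by positivity)
  have hu4 : u ^ 4 ≤ 1 / 1000 * u ^ 3 := by
    have : u ^ 4 = u * u ^ 3 := by ring
    rw [this]
    exact mul_le_mul_of_nonneg_right hu (by positivity)
  have hlow0 : 0 ≤ u / 2 - u ^ 2 / 24 + u ^ 3 / 720 - u ^ 4 / 40320 := by
    have : 0 < u ^ 3 := by positivity
    linarith
  refine ⟨by linarith, by linarith, ?_, ?_⟩
  · calc u ^ 2 / 4 - u ^ 3 / 24 ≤ (u / 2 - u ^ 2 / 24 + u ^ 3 / 720 - u ^ 4 / 40320) ^ 2 := by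
          have e3 : (u / 2 - u ^ 2 / 24 + u ^ 3 / 720 - u ^ 4 / 40320) ^ 2 -
              (u ^ 2 / 4 - u ^ 3 / 24) = u ^ 4 * (1 / 320 - u / 8640 - u / 40320 + u ^ 2 / 518400
                + u ^ 2 / 483840 - u ^ 3 / 14515200 + u ^ 4 / 1625702400) := by ring
          have h9 : 0 ≤ 1 / 320 - u / 8640 - u / 40320 + u ^ 2 / 518400
                + u ^ 2 / 483840 - u ^ 3 / 14515200 + u ^ 4 / 1625702400 := by
            have h10 : 0 < u ^ 2 := by positivity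
            have h11 : 0 < u ^ 4 := by positivity
            linarith
          have h12 : 0 ≤ u ^ 4 * (1 / 320 - u / 8640 - u / 40320 + u ^ 2 / 518400
                + u ^ 2 / 483840 - u ^ 3 / 14515200 + u ^ 4 / 1625702400) :=
            mul_nonneg (by positivity) h9
          linarith
      _ ≤ (1 - Real.cos t) ^ 2 := pow_le_pow_left₀ hlow0 hw1 2
  · calc (1 - Real.cos t) ^ 2 ≤ (u / 2 - u ^ 2 / 24 + u ^ 3 / 720) ^ 2 :=
          pow_le_pow_left₀ (le_trans hlow0 hw1) hw2 2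
      _ ≤ u ^ 2 / 4 - u ^ 3 / 24 + u ^ 4 / 300 := by
          have e3 : u ^ 2 / 4 - u ^ 3 / 24 + u ^ 4 / 300 - (u / 2 - u ^ 2 / 24 + u ^ 3 / 720) ^ 2 =
              u ^ 4 * (1 / 4800 + u / 8640 - u ^ 2 / 518400) := by ring
          have h9 : 0 ≤ 1 / 4800 + u / 8640 - u ^ 2 / 518400 := by linarith
          have h12 : 0 ≤ u ^ 4 * (1 / 4800 + u / 8640 - u ^ 2 / 518400) :=
            mul_nonneg (by positivity) h9
          linarith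

/-- the expansions -/
private theorem McH_exp (N t : ℝ) (ht : 0 < t) (hu : t ^ 2 ≤ 1 / 10 ^ 6) (h1 : 3.605 ≤ N * t ^ 2)
    (h2 : N * t ^ 2 ≤ 3.62) :
    ∃ u p x y κ A d C : ℝ, 0 < u ∧ u ≤ 1 / 10 ^ 6 ∧ u = t ^ 2 ∧ κ = N * t ^ 2 ∧ p = κ * u / 48 ∧
      A = N * (1 - Real.cos t) ^ 2 / 4 ∧ d = capD N t ∧ C = N * (1 - Real.cos t) ^ 3 / 4 ∧
      A = 3 * p + x ∧ d = p + y ∧ -(4 / 100) * u ^ 2 ≤ x ∧ x ≤ 0 ∧ -(6 / 1000) * u ^ 2 ≤ y ∧ y ≤ 0 ∧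
      751 / 10000 * u ≤ p ∧ p ≤ 755 / 10000 * u ∧ 0 ≤ C ∧ C ≤ κ * u ^ 2 / 32 ∧
      3 * A - 9 * d ≤ -(3 / 160) * (κ * u ^ 2) + 1 / 100 * u ^ 3 := by
  obtain ⟨d1, d2, a1, a2⟩ := cap_taylor t ht (le_trans hu (by norm_num))
  have hw0 : 0 ≤ 1 - Real.cos t := by
    have := Real.cos_le_one t
    linarith
  have hwle : 1 - Real.cos t ≤ t ^ 2 / 2 := by
    have := Real.one_sub_sq_div_two_le_cos (x := t)
    linarith
  obtain ⟨u, hu'⟩ : ∃ u, u = t ^ 2 := ⟨_, rfl⟩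
  have hu0 : 0 < u := by rw [hu']; positivity
  have h4 : t ^ 4 = u ^ 2 := by rw [hu']; ring
  have h6 : t ^ 6 = u ^ 3 := by rw [hu']; ring
  have h8 : t ^ 8 = u ^ 4 := by rw [hu']; ring
  simp only [h4, h6, h8] at d1 d2 a1 a2
  rw [← hu'] at hu h1 h2 hwle
  obtain ⟨κ, hκ⟩ : ∃ κ, κ = N * u := ⟨_, rfl⟩
  rw [← hκ] at h1 h2
  have hN0 : 0 < N := by
    by_contra h
    push Not at h
    have : N * u ≤ 0 := mul_nonpos_of_nonpos_of_nonneg h hu0.le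
    norm_num at h1
    linarith
  have hκ0 : 0 < κ := by
    rw [hκ]
    positivity
  have hu2 : 0 < u ^ 2 := by positivity
  have hu3 : 0 < u ^ 3 := by positivity
  have hu32 : u ^ 3 ≤ 1 / 10 ^ 6 * u ^ 2 := by
    have : u ^ 3 = u * u ^ 2 := by ring
    rw [this]
    exact mul_le_mul_of_nonneg_right hu hu2.le
  have b1 := mul_le_mul_of_nonneg_left d1 hN0.le
  have b2 := mul_le_mul_of_nonneg_left d2 hN0.le
  have b3 := mul_le_mul_of_nonneg_left a1 hN0.le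
  have b4 := mul_le_mul_of_nonneg_left a2 hN0.le
  have e1 : N * (u ^ 2 / 48 - u ^ 3 / 720 - u ^ 4 / 80640) =
      κ * u / 48 - κ * u ^ 2 / 720 - κ * u ^ 3 / 80640 := by rw [hκ]; ring
  have e2 : N * (u ^ 2 / 48 - u ^ 3 / 720 + u ^ 4 / 20160) =
      κ * u / 48 - κ * u ^ 2 / 720 + κ * u ^ 3 / 20160 := by rw [hκ]; ring
  have e3 : N * (u ^ 2 / 4 - u ^ 3 / 24) = κ * u / 4 - κ * u ^ 2 / 24 := by rw [hκ]; ring
  have e4 : N * (u ^ 2 / 4 - u ^ 3 / 24 + u ^ 4 / 300) =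
      κ * u / 4 - κ * u ^ 2 / 24 + κ * u ^ 3 / 300 := by rw [hκ]; ring
  rw [e1] at b1
  rw [e2] at b2
  rw [e3] at b3
  rw [e4] at b4
  have k1 : 3.605 * u ≤ κ * u := mul_le_mul_of_nonneg_right h1 hu0.le
  have k2 : κ * u ≤ 3.62 * u := mul_le_mul_of_nonneg_right h2 hu0.le
  have k3 : κ * u ^ 2 ≤ 3.62 * u ^ 2 := mul_le_mul_of_nonneg_right h2 hu2.le
  have k4 : κ * u ^ 3 ≤ 3.62 * u ^ 3 := mul_le_mul_of_nonneg_right h2 hu3.le
  have k5 : κ * u ^ 3 ≤ 1 / 10 ^ 6 * (κ * u ^ 2) := by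
    have := mul_le_mul_of_nonneg_left hu32 hκ0.le
    linarith
  have k6 : 0 < κ * u ^ 2 := by positivity
  have k7 : 0 < κ * u ^ 3 := by positivity
  norm_num at h1 h2 k1 k2 k3 k4 k5 hu32
  refine ⟨u, κ * u / 48, N * (1 - Real.cos t) ^ 2 / 4 - 3 * (κ * u / 48), capD N t - κ * u / 48, κ,
    N * (1 - Real.cos t) ^ 2 / 4, capD N t, N * (1 - Real.cos t) ^ 3 / 4, hu0, hu, hu',
    by rw [hκ, hu'], rfl, rfl, rfl, rfl, by ring, by ring, ?_, ?_, ?_, ?_, ?_, ?_, ?_, ?_, ?_⟩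
  · linarith
  · linarith
  · unfold capD
    linarith
  · unfold capD
    linarith
  · linarith
  · linarith
  · positivity
  · have h9 : (1 - Real.cos t) ^ 3 ≤ (u / 2) ^ 3 := pow_le_pow_left₀ hw0 hwle 3
    have h10 := mul_le_mul_of_nonneg_left h9 hN0.le
    have e5 : N * (u / 2) ^ 3 = κ * u ^ 2 / 8 := by rw [hκ]; ring
    rw [e5] at h10
    linarith
  · unfold capD
    linarith

/-- PROOF.  `u = t^2`, `κ = N u`, `w = 1 - cos t`, `A = N w^2/4`, `d = capD N t`; `capX = (1-A)/(1-d)^2`,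
`capY = (1 - 3 A + N w^3/4)/(1-d)^3`.  `δ = 1 - capX = (A - 2 d + d^2)/(1-d)^2`,
`capY - 6 capX + 5 = (3 A + N w^3/4 - 9 d - 6 A d + 15 d^2 - 5 d^3)/(1-d)^3`.  It is enough to show
`F := 3 A + N w^3/4 - 9 d - 6 A d + 15 d^2 - 5 d^3 <= 5 (A - 2 d + d^2)^2` (if `F >= 0` multiply by
`1 - d <= 1`).  With `cap_taylor`: `A = κ (u/16 - u^2/96 + O(u^3))`, `d = κ (u/48 - u^2/720 + O(u^3))`,
`N w^3/4 = κ u^2/32 + O(u^3)`, so `F = κ u^2/80 - 3 (κ u/48)^2 + O(u^3)` and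
`A - 2 d = κ u/48 + O(u^2)`; the inequality is `8 (κ/48)^2 > κ/80` i.e. `κ > 3.6`; the errors are
controlled by `u <= 1/10^6`.  (Numerically the ratio `(capY - 6 capX + 5)/(1 - capX)^2` is
`<= 4.98897` for `κ >= 3.605`, `u <= 10^(-4)`.) -/
theorem cap_ineq (N t : ℝ) (ht : 0 < t) (hu : t ^ 2 ≤ 1 / 10 ^ 6) (h1 : 3.605 ≤ N * t ^ 2)
    (h2 : N * t ^ 2 ≤ 3.62) :
    0 < 1 - capD N t ∧ capY N t ≤ 6 * capX N t - 5 + 5 * (1 - capX N t) ^ 2 := by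
  obtain ⟨u, p, x, y, κ, A, d, C, hu0, hu1, hut, hκ, hp, hA, hd, hC, hAx, hdy, x1, x2, y1, y2, p1, p2,
    c1, c2, hL⟩ := McH_exp N t ht hu h1 h2
  rw [← hκ] at h1 h2
  have hu2 : 0 < u ^ 2 := by positivity
  have hu3 : 0 < u ^ 3 := by positivity
  have hu21 : u ^ 2 ≤ 1 / 10 ^ 6 * u := by
    have : u ^ 2 = u * u := by ring
    rw [this]
    exact mul_le_mul_of_nonneg_right hu1 hu0.le
  have hu32 : u ^ 3 ≤ 1 / 10 ^ 6 * u ^ 2 := by
    have : u ^ 3 = u * u ^ 2 := by ring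
    rw [this]
    exact mul_le_mul_of_nonneg_right hu1 hu2.le
  have hu43 : u ^ 4 ≤ 1 / 10 ^ 6 * u ^ 3 := by
    have : u ^ 4 = u * u ^ 3 := by ring
    rw [this]
    exact mul_le_mul_of_nonneg_right hu1 hu3.le
  norm_num at hu1 hu21 hu32 hu43 h1 h2
  have hp0 : 0 < p := by linarith
  have hd0 : 0 < d := by rw [hdy]; linarith
  have hd1 : d < 1 := by rw [hdy]; linarith
  have hg : 0 < 1 - d := by linarith
  -- the polynomial inequality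
  have q1 : -(4 / 100) * (755 / 10000) * u ^ 3 ≤ x * p := by
    calc -(4 / 100) * (755 / 10000) * u ^ 3 = (-(4 / 100) * u ^ 2) * (755 / 10000 * u) := by ring
      _ ≤ (-(4 / 100) * u ^ 2) * p := by
          apply mul_le_mul_of_nonpos_left p2
          linarith
      _ ≤ x * p := mul_le_mul_of_nonneg_right x1 hp0.le
  have q2 : 0 ≤ x * y := mul_nonneg_of_nonpos_of_nonpos x2 y2
  have q3 : p * y ≤ 0 := mul_nonpos_of_nonneg_of_nonpos hp0.le y2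
  have q4 : y ^ 2 ≤ (6 / 1000 * u ^ 2) ^ 2 := by
    apply sq_le_sq'
    · linarith
    · linarith
  have q5 : (6 / 1000 * u ^ 2) ^ 2 = 36 / 1000000 * u ^ 4 := by ring
  rw [q5] at q4
  have hF : 3 * A + C - 9 * d - 6 * A * d + 15 * d ^ 2 - 5 * d ^ 3 ≤
      κ * u ^ 2 / 80 - 3 * p ^ 2 + 3 / 100 * u ^ 3 := by
    have q6 : -6 * A * d + 15 * d ^ 2 = -3 * p ^ 2 + 12 * (p * y) - 6 * (x * p) - 6 * (x * y)
        + 15 * y ^ 2 := by
      rw [hAx, hdy]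
      ring
    have q7 : 0 < d ^ 3 := by positivity
    linarith
  have hE : p - 4 / 100 * u ^ 2 ≤ A - 2 * d + d ^ 2 := by
    have q8 : 0 < d ^ 2 := by positivity
    rw [hAx]
    rw [hdy] at q8 ⊢
    linarith
  have hE0 : 0 ≤ p - 4 / 100 * u ^ 2 := by linarith
  have hE2 : 5 * p ^ 2 - 4 / 10 * (p * u ^ 2) ≤ 5 * (A - 2 * d + d ^ 2) ^ 2 := by
    have q9 : (p - 4 / 100 * u ^ 2) ^ 2 ≤ (A - 2 * d + d ^ 2) ^ 2 := pow_le_pow_left₀ hE0 hE 2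
    have q10 : 5 * (p - 4 / 100 * u ^ 2) ^ 2 = 5 * p ^ 2 - 4 / 10 * (p * u ^ 2)
        + 5 * (4 / 100 * u ^ 2) ^ 2 := by ring
    have q11 : 0 ≤ 5 * (4 / 100 * u ^ 2) ^ 2 := by positivity
    linarith
  have hpu : p * u ^ 2 ≤ 755 / 10000 * u ^ 3 := by
    calc p * u ^ 2 ≤ 755 / 10000 * u * u ^ 2 := mul_le_mul_of_nonneg_right p2 hu2.le
      _ = 755 / 10000 * u ^ 3 := by ring
  have hmain : κ * u ^ 2 / 80 + 7 / 100 * u ^ 3 ≤ 8 * p ^ 2 := by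
    have q12 : 8 * p ^ 2 - κ * u ^ 2 / 80 = u ^ 2 * (κ * (κ / 288 - 1 / 80)) := by
      rw [hp]
      ring
    have q13 : 1 / 100000 ≤ κ * (κ / 288 - 1 / 80) := by
      have q14 : (17 / 1000000 : ℝ) ≤ κ / 288 - 1 / 80 := by linarith
      have q15 : (1 : ℝ) * (17 / 1000000) ≤ κ * (κ / 288 - 1 / 80) :=
        mul_le_mul (by linarith) q14 (by norm_num) (by linarith)
      linarith
    have q16 := mul_le_mul_of_nonneg_left q13 hu2.le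
    linarith
  have hfin : (3 * A + C - 9 * d - 6 * A * d + 15 * d ^ 2 - 5 * d ^ 3) * (1 - d) ≤
      5 * (A - 2 * d + d ^ 2) ^ 2 := by
    have q17 : 3 * A + C - 9 * d - 6 * A * d + 15 * d ^ 2 - 5 * d ^ 3 ≤
        5 * (A - 2 * d + d ^ 2) ^ 2 := by linarith
    rcases le_total 0 (3 * A + C - 9 * d - 6 * A * d + 15 * d ^ 2 - 5 * d ^ 3) with h | h
    · calc (3 * A + C - 9 * d - 6 * A * d + 15 * d ^ 2 - 5 * d ^ 3) * (1 - d) ≤
            (3 * A + C - 9 * d - 6 * A * d + 15 * d ^ 2 - 5 * d ^ 3) * 1 :=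
            mul_le_mul_of_nonneg_left (by linarith) h
        _ = 3 * A + C - 9 * d - 6 * A * d + 15 * d ^ 2 - 5 * d ^ 3 := mul_one _
        _ ≤ _ := q17
    · have q18 : (3 * A + C - 9 * d - 6 * A * d + 15 * d ^ 2 - 5 * d ^ 3) * (1 - d) ≤ 0 :=
        mul_nonpos_of_nonpos_of_nonneg h hg.le
      have q19 : 0 ≤ 5 * (A - 2 * d + d ^ 2) ^ 2 := by positivity
      linarith
  rw [← hd]
  refine ⟨hg, ?_⟩
  have hX : capX N t = (1 - A) / (1 - d) ^ 2 := by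
    unfold capX
    rw [hA, hd]
  have hY : capY N t = (1 - 3 * A + C) / (1 - d) ^ 3 := by
    unfold capY
    rw [hA, hd, hC]
    congr 1
    ring
  rw [hX, hY]
  have e : 6 * ((1 - A) / (1 - d) ^ 2) - 5 + 5 * (1 - (1 - A) / (1 - d) ^ 2) ^ 2 -
      (1 - 3 * A + C) / (1 - d) ^ 3 =
      (5 * (A - 2 * d + d ^ 2) ^ 2 -
        (3 * A + C - 9 * d - 6 * A * d + 15 * d ^ 2 - 5 * d ^ 3) * (1 - d)) / (1 - d) ^ 4 := by
    have hne : (1 - d) ≠ 0 := hg.ne'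
    field_simp
    ring
  have h5 : 0 ≤ (5 * (A - 2 * d + d ^ 2) ^ 2 -
        (3 * A + C - 9 * d - 6 * A * d + 15 * d ^ 2 - 5 * d ^ 3) * (1 - d)) / (1 - d) ^ 4 :=
    div_nonneg (by linarith) (by positivity)
  linarith

/-- Same expansions: `1 - capX = κ u/48 + O(u^2)` (the true constant is about `0.0107`). -/
theorem cap_defect (N t : ℝ) (ht : 0 < t) (hu : t ^ 2 ≤ 1 / 10 ^ 6) (h1 : 3.605 ≤ N * t ^ 2)
    (h2 : N * t ^ 2 ≤ 3.62) :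
    |(1 - capX N t) - N * t ^ 4 / 48| ≤ t ^ 4 / 10 := by
  obtain ⟨u, p, x, y, κ, A, d, C, hu0, hu1, hut, hκ, hp, hA, hd, hC, hAx, hdy, x1, x2, y1, y2, p1, p2,
    c1, c2, hL⟩ := McH_exp N t ht hu h1 h2
  have hu2 : 0 < u ^ 2 := by positivity
  have hu21 : u ^ 2 ≤ 1 / 10 ^ 6 * u := by
    have : u ^ 2 = u * u := by ring
    rw [this]
    exact mul_le_mul_of_nonneg_right hu1 hu0.le
  norm_num at hu1 hu21
  have hp0 : 0 < p := by linarith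
  have hd0 : 0 < d := by rw [hdy]; linarith
  have hd1 : d ≤ 755 / 10000 * u := by rw [hdy]; linarith
  have hg : 9999 / 10000 ≤ 1 - d := by linarith
  have hg0 : 0 < 1 - d := by linarith
  have hX : capX N t = (1 - A) / (1 - d) ^ 2 := by
    unfold capX
    rw [hA, hd]
  have e1 : N * t ^ 4 / 48 = p := by
    rw [hp, hκ, hut]
    ring
  have e2 : t ^ 4 = u ^ 2 := by
    rw [hut]
    ring
  rw [hX, e1, e2]
  have e3 : (1 - (1 - A) / (1 - d) ^ 2) - p =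
      (x - 2 * y + d ^ 2 + p * (2 * d - d ^ 2)) / (1 - d) ^ 2 := by
    have hne : (1 - d) ≠ 0 := hg0.ne'
    field_simp
    rw [hAx]
    have : y = d - p := by linarith
    rw [this]
    ring
  have hg2 : 99 / 100 ≤ (1 - d) ^ 2 := by nlinarith
  have q1 : d ^ 2 ≤ (755 / 10000 * u) ^ 2 := pow_le_pow_left₀ hd0.le hd1 2
  have q2 : (755 / 10000 * u) ^ 2 = 570025 / 100000000 * u ^ 2 := by ring
  rw [q2] at q1
  have q3 : 0 < d ^ 2 := by positivity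
  have q4 : p * (2 * d - d ^ 2) ≤ 2 * (570025 / 100000000 * u ^ 2) := by
    have q5 : p * d ≤ (755 / 10000 * u) * (755 / 10000 * u) := mul_le_mul p2 hd1 hd0.le (by linarith)
    have q6 : (755 / 10000 * u) * (755 / 10000 * u) = 570025 / 100000000 * u ^ 2 := by ring
    have q7 : 0 ≤ p * d ^ 2 := by positivity
    have q8 : p * (2 * d - d ^ 2) = 2 * (p * d) - p * d ^ 2 := by ring
    rw [q8]
    linarith
  have q9 : 0 ≤ p * (2 * d - d ^ 2) := by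
    apply mul_nonneg hp0.le
    nlinarith
  rw [e3, abs_div, abs_of_pos (show 0 < (1 - d) ^ 2 by positivity), div_le_iff₀ (by positivity)]
  have q10 : u ^ 2 / 10 * (99 / 100) ≤ u ^ 2 / 10 * (1 - d) ^ 2 :=
    mul_le_mul_of_nonneg_left hg2 (by positivity)
  refine le_trans ?_ q10
  rw [abs_le]
  constructor <;> linarith

end

end Pool.Agent.Lib.MP_dabcc9_gt
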