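import Pool.Agent.Lib.MP_dabcc9_gt.MollA

/-! JOB C4b. Mollification. -/

open MeasureTheory Metric Set MvPolynomial

namespace Pool.Agent.Lib.MP_dabcc9_gt

noncomputable section

open scoped ContDiff Convolution

theorem MollB_one {h : ℝ → ℝ} (hc : ConvexOn ℝ univ h) {d : ℝ} (hd : HasDerivAt h d 0) :
    d ≤ h 1 - h 0 := by
  have h1 := hc.le_slope_of_hasDerivAt (mem_univ 0) (mem_univ 1) zero_lt_one hd
  rw [slope_def_field, sub_zero, div_one] at h1
  exact h1

theorem MollB_two {h h' : ℝ → ℝ} (hc : ConvexOn ℝ univ h) (hd : ∀ t, HasDerivAt h (h' t) t)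
    {d : ℝ} (hd2 : HasDerivAt h' d 0) : 0 ≤ d := by
  have hm : Monotone h' := by
    intro x y hxy
    rcases eq_or_lt_of_le hxy with rfl | hxy'
    · rfl
    exact (hc.le_slope_of_hasDerivAt (mem_univ x) (mem_univ y) hxy' (hd x)).trans
      (hc.slope_le_of_hasDerivAt (mem_univ x) (mem_univ y) hxy' (hd y))
  rw [← hd2.deriv]
  exact hm.deriv_nonneg

theorem MollB_line {g : E3 → ℝ} (hc : ConvexOn ℝ univ g) (x v : E3) :
    ConvexOn ℝ univ fun t : ℝ => g (x + t • v) := by
  refine ⟨convex_univ, fun s _ t _ a b ha hb hab => ?_⟩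
  have h1 : x + (a • s + b • t) • v = a • (x + s • v) + b • (x + t • v) := by
    have h2 : x = (a + b) • x := by rw [hab, one_smul]
    conv_lhs => rw [h2]
    rw [smul_eq_mul, smul_eq_mul, add_smul, add_smul, mul_smul, mul_smul, smul_add, smul_add]
    abel
  beta_reduce
  rw [h1]
  exact hc.2 (mem_univ _) (mem_univ _) ha hb hab

theorem MollB_deriv {g : E3 → ℝ} (hg : Differentiable ℝ g) (x v : E3) (t : ℝ) :
    HasDerivAt (fun t : ℝ => g (x + t • v)) (fderiv ℝ g (x + t • v) v) t := by
  have h1 : HasDerivAt (fun t : ℝ => x + t • v) v t := by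
    have h2 := ((hasDerivAt_id t).smul_const v).const_add x
    rwa [one_smul] at h2
  exact (hg (x + t • v)).hasFDerivAt.comp_hasDerivAt t h1

/-- The second derivative of a smooth convex function. -/
theorem MollB_second {g : E3 → ℝ} (hg : ContDiff ℝ ∞ g) (hc : ConvexOn ℝ univ g) (x v : E3) :
    0 ≤ fderiv ℝ (fun y => fderiv ℝ g y v) x v := by
  have hg1 : Differentiable ℝ g := hg.differentiable (by simp)
  have hg2 : Differentiable ℝ (fun y => fderiv ℝ g y v) :=
    ((contDiff_infty_iff_fderiv.1 hg).2.differentiable (by simp)).clm_apply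
      (differentiable_const v)
  have h1 := MollB_deriv hg2 x v 0
  rw [zero_smul, add_zero] at h1
  exact MollB_two (MollB_line hc x v) (fun t => MollB_deriv hg1 x v t) h1

/-- The first derivative of a smooth convex function. -/
theorem MollB_first {g : E3 → ℝ} (hg : ContDiff ℝ ∞ g) (hc : ConvexOn ℝ univ g) (x : E3) :
    fderiv ℝ g x x ≤ g ((2 : ℝ) • x) - g x := by
  have hg1 : Differentiable ℝ g := hg.differentiable (by simp)
  have h1 := MollB_deriv hg1 x x 0
  rw [zero_smul, add_zero] at h1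
  have h2 := MollB_one (MollB_line hc x x) h1
  rw [one_smul, zero_smul, add_zero, ← two_smul ℝ x] at h2
  exact h2

/-- Mollification.  PROOF: `g = φ ⋆ supp K` with a normed bump function `φ : ContDiffBump (0 : E3)` of
outer radius `ε` (`ContDiffBump.normed`, `HasCompactSupport.contDiff_convolution_left`).  `g` is
smooth, convex (average of translates of a convex function), `|g - supp K| <= R ε` everywhere
(`supp_lipschitz`).  Convex and smooth: second derivative `>= 0`, and
`g (2 x) >= g x + Dg(x) x`, so `Dg(x) x <= g (2x) - g x <= supp K (2 x) + R ε - supp K x + R ε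
= supp K x + 2 R ε <= g x + 3 R ε`. -/
theorem mollify {K : Set E3} {R : ℝ} (hR0 : 0 ≤ R) (hK : IsCompact K) (hne : K.Nonempty)
    (hR : K ⊆ closedBall 0 R) (ε : ℝ) (hε : 0 < ε) :
    ∃ g : E3 → ℝ, ContDiff ℝ ((⊤ : ℕ∞) : WithTop ℕ∞) g ∧ (∀ x, |g x - supp K x| ≤ R * ε) ∧
      (∀ x v : E3, 0 ≤ fderiv ℝ (fun y => fderiv ℝ g y v) x v) ∧
      (∀ x : E3, -(3 * R * ε) ≤ g x - fderiv ℝ g x x) := by
  obtain ⟨-, -, hadd, hsmul, hcont⟩ := supp_props hK hne
  obtain ⟨φ, hφ⟩ : ∃ φ : ContDiffBump (0 : E3), φ.rOut = ε :=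
    ⟨⟨ε / 2, ε, by positivity, by linarith⟩, rfl⟩
  obtain ⟨f, hf⟩ : ∃ f : E3 → ℝ, f = φ.normed volume := ⟨_, rfl⟩
  have hf0 : ∀ t, 0 ≤ f t := by
    intro t
    rw [hf]
    exact φ.nonneg_normed t
  have hfc : Continuous f := by
    rw [hf]
    exact φ.continuous_normed
  have hfs : HasCompactSupport f := by
    rw [hf]
    exact φ.hasCompactSupport_normed
  have hfd : ContDiff ℝ ∞ f := by
    rw [hf]
    exact φ.contDiff_normed
  obtain ⟨g, hg⟩ : ∃ g : E3 → ℝ, g = (f ⋆[ContinuousLinearMap.lsmul ℝ ℝ, volume] supp K) :=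
    ⟨_, rfl⟩
  have hgd : ContDiff ℝ ∞ g := by
    rw [hg]
    exact hfs.contDiff_convolution_left _ hfd hcont.locallyIntegrable
  have hgi : ∀ x, g x = ∫ t, f t * supp K (x - t) := by
    intro x
    rw [hg]
    rfl
  have hint : ∀ x, Integrable fun t => f t * supp K (x - t) := by
    intro x
    exact (hfc.mul (hcont.comp (continuous_const.sub continuous_id))).integrable_of_hasCompactSupport
      hfs.mul_right
  have hgb : ∀ x, |g x - supp K x| ≤ R * ε := by
    intro x
    rw [← Real.dist_eq, hg, hf]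
    refine φ.dist_normed_convolution_le hcont.aestronglyMeasurable fun y hy => ?_
    rw [Real.dist_eq]
    refine (supp_lipschitz hK hne hR y x).trans ?_
    rw [mem_ball, dist_eq_norm, hφ] at hy
    exact mul_le_mul_of_nonneg_left hy.le hR0
  have hgc : ConvexOn ℝ univ g := by
    refine ⟨convex_univ, fun x _ y _ a b ha hb hab => ?_⟩
    rw [hgi, hgi, hgi, smul_eq_mul, smul_eq_mul, ← integral_const_mul, ← integral_const_mul,
      ← integral_add ((hint x).const_mul a) ((hint y).const_mul b)]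
    refine integral_mono (hint _) (((hint x).const_mul a).add ((hint y).const_mul b)) fun t => ?_
    have h1 : a • x + b • y - t = a • (x - t) + b • (y - t) := by
      have h2 : t = (a + b) • t := by rw [hab, one_smul]
      conv_lhs => rw [h2]
      rw [add_smul, smul_sub, smul_sub]
      abel
    have h2 : supp K (a • x + b • y - t) ≤ a * supp K (x - t) + b * supp K (y - t) := by
      rw [h1, ← hsmul a _ ha, ← hsmul b _ hb]
      exact hadd _ _
    have h3 := mul_le_mul_of_nonneg_left h2 (hf0 t)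
    beta_reduce
    refine h3.trans (le_of_eq ?_)
    ring
  refine ⟨g, hgd, hgb, MollB_second hgd hgc, fun x => ?_⟩
  have h1 := MollB_first hgd hgc x
  have h2 := (abs_le.1 (hgb ((2 : ℝ) • x))).2
  have h3 := (abs_le.1 (hgb x)).1
  rw [hsmul 2 x (by norm_num)] at h2
  linarith

end

end Pool.Agent.Lib.MP_dabcc9_gt
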