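import Pool.Agent.Lib.MP_dabcc9_gt.McA

/-! JOB P1.  Points in latitude and longitude; separation inequalities. -/

open MeasureTheory Metric Set

namespace Pool.Agent.Lib.MP_dabcc9_gt

noncomputable section

/-- The point of latitude `φ` and longitude `θ`. -/
def latl (φ θ : ℝ) : E3 :=
  !₂[Real.cos φ * Real.cos θ, Real.cos φ * Real.sin θ, Real.sin φ]

theorem norm_latl (φ θ : ℝ) : ‖latl φ θ‖ = 1 := by
  have h : ‖latl φ θ‖ ^ 2 = 1 := by
    rw [EuclideanSpace.norm_sq_eq, Fin.sum_univ_three]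
    simp only [latl, Real.norm_eq_abs, sq_abs]
    simp
    have h1 := Real.sin_sq_add_cos_sq φ
    have h2 := Real.sin_sq_add_cos_sq θ
    linear_combination h1 + Real.cos φ ^ 2 * h2
  have h0 := norm_nonneg (latl φ θ)
  nlinarith [sq_nonneg (‖latl φ θ‖ - 1)]

theorem inner_latl (φ θ φ' θ' : ℝ) : inner ℝ (latl φ θ) (latl φ' θ') =
    Real.cos (φ - φ') - Real.cos φ * Real.cos φ' * (1 - Real.cos (θ - θ')) := by
  rw [PiLp.inner_apply, Fin.sum_univ_three, Real.cos_sub, Real.cos_sub]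
  simp [latl]
  ring

/-- `‖a + b‖^2 = 2 + 2 <a, b>` and `2 + 2 cos 2t = 4 cos^2 t`. -/
theorem latl_sep (t φ θ φ' θ' : ℝ) (hc : 0 ≤ Real.cos t)
    (h : 1 - Real.cos (2 * t) ≤ (1 - Real.cos (φ - φ'))
      + Real.cos φ * Real.cos φ' * (1 - Real.cos (θ - θ'))) :
    ‖latl φ θ + latl φ' θ'‖ ≤ 2 * Real.cos t := by
  have h1 : ‖latl φ θ + latl φ' θ'‖ ^ 2 = 2 + 2 * inner ℝ (latl φ θ) (latl φ' θ') := by
    rw [norm_add_sq_real, norm_latl, norm_latl]
    ring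
  rw [inner_latl] at h1
  have h2 := Real.cos_two_mul t
  have h3 : ‖latl φ θ + latl φ' θ'‖ ^ 2 ≤ (2 * Real.cos t) ^ 2 := by
    rw [h1]
    nlinarith
  exact (pow_le_pow_iff_left₀ (norm_nonneg _) (by positivity) two_ne_zero).1 h3

/-- Different bands: `cos` is decreasing on `[0, pi]`. -/
theorem sep_far (t φ φ' ψ : ℝ) (ht : 0 ≤ t) (h1 : 2 * t ≤ |φ - φ'|) (h2 : |φ - φ'| ≤ Real.pi)
    (h3 : 0 ≤ Real.cos φ) (h4 : 0 ≤ Real.cos φ') :
    1 - Real.cos (2 * t) ≤ (1 - Real.cos (φ - φ')) + Real.cos φ * Real.cos φ' * (1 - Real.cos ψ) := by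
  have e : Real.cos (φ - φ') ≤ Real.cos (2 * t) := by
    rw [← Real.cos_abs (φ - φ')]
    exact Real.cos_le_cos_of_nonneg_of_le_pi (by linarith) h2 h1
  have h5 : 0 ≤ Real.cos φ * Real.cos φ' * (1 - Real.cos ψ) :=
    mul_nonneg (mul_nonneg h3 h4) (by linarith [Real.cos_le_one ψ])
  linarith

/-- `M` equally spaced points: for `k` not divisible by `M`, `1 - cos (2 pi k/M) >= 1 - cos (2 pi/M)`;
for every `k`, `1 - cos ((2 k + 1) pi/M) >= 1 - cos (pi/M)`.  PROOF: reduce modulo `2 pi`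
(`Int.emod`), `cos` is decreasing on `[0, pi]` and `cos (2 pi - x) = cos x`. -/
theorem cos_mult (M : ℕ) (hM : 1 ≤ M) (k : ℤ) :
    (¬ (M : ℤ) ∣ k → Real.cos (2 * Real.pi * k / M) ≤ Real.cos (2 * Real.pi / M)) ∧
    Real.cos ((2 * k + 1) * Real.pi / M) ≤ Real.cos (Real.pi / M) := by
  have hM0 : (0 : ℝ) < M := by exact_mod_cast hM
  have key : ∀ a j : ℤ, 0 ≤ a → a ≤ j → j ≤ 2 * M - a →
      Real.cos (Real.pi * j / M) ≤ Real.cos (Real.pi * a / M) := by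
    intro a j ha h1 h2
    have ha' : (0 : ℝ) ≤ a := by exact_mod_cast ha
    have h1' : (a : ℝ) ≤ j := by exact_mod_cast h1
    have h2' : (j : ℝ) ≤ 2 * M - a := by exact_mod_cast h2
    have hπ := Real.pi_pos
    rcases le_total (j : ℝ) M with h | h
    · apply Real.cos_le_cos_of_nonneg_of_le_pi
      · positivity
      · rw [div_le_iff₀ hM0]
        exact mul_le_mul_of_nonneg_left h hπ.le
      · exact div_le_div_of_nonneg_right (mul_le_mul_of_nonneg_left h1' hπ.le) hM0.le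
    · have e : Real.cos (Real.pi * j / M) = Real.cos (Real.pi * (2 * M - j) / M) := by
        rw [← Real.cos_two_pi_sub]
        congr 1
        field_simp
      rw [e]
      apply Real.cos_le_cos_of_nonneg_of_le_pi
      · positivity
      · rw [div_le_iff₀ hM0]
        exact mul_le_mul_of_nonneg_left (by linarith) hπ.le
      · exact div_le_div_of_nonneg_right (mul_le_mul_of_nonneg_left (by linarith) hπ.le) hM0.le
  have hMz : (0 : ℤ) < M := by exact_mod_cast hM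
  have hr0 := Int.emod_nonneg k hMz.ne'
  have hr1 := Int.emod_lt_of_pos k hMz
  have hk := Int.emod_add_mul_ediv k M
  set r := k % (M : ℤ) with hr
  set q := k / (M : ℤ) with hq
  have hkR : (k : ℝ) = r + M * q := by exact_mod_cast hk.symm
  constructor
  · intro hnd
    have hr2 : r ≠ 0 := fun h0 => hnd (Int.dvd_of_emod_eq_zero h0)
    have hr3 : 1 ≤ r := by omega
    have h1 := key 2 (2 * r) (by norm_num) (by omega) (by omega)
    have e1 : Real.cos (2 * Real.pi * k / M) = Real.cos (Real.pi * ((2 * r : ℤ) : ℝ) / M) := by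
      rw [hkR, ← Real.cos_add_int_mul_two_pi (Real.pi * _ / M) q]
      congr 1
      push_cast
      field_simp
    have e2 : Real.cos (2 * Real.pi / M) = Real.cos (Real.pi * ((2 : ℤ) : ℝ) / M) := by
      congr 1
      push_cast
      ring
    rw [e1, e2]
    exact h1
  · have h1 := key 1 (2 * r + 1) (by norm_num) (by omega) (by omega)
    have e1 : Real.cos ((2 * k + 1) * Real.pi / M) = Real.cos (Real.pi * ((2 * r + 1 : ℤ) : ℝ) / M) := by
      rw [hkR, ← Real.cos_add_int_mul_two_pi (Real.pi * _ / M) q]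
      congr 1
      push_cast
      field_simp
      ring
    have e2 : Real.cos (Real.pi / M) = Real.cos (Real.pi * ((1 : ℤ) : ℝ) / M) := by
      congr 1
      push_cast
      ring
    rw [e1, e2]
    exact h1

/-- Same row.  `y = (1+η) t/γ`; `M >= 2` since `M` does not divide `k`... (`M = 1` divides everything);
`pi/M >= y` and `pi/M <= pi/2`, so `sin (pi/M) >= sin y >= y - y^3/6`, and
`cos φ sin (pi/M) >= γ y (1 - y^2/6) = (1+η) t (1 - y^2/6) >= t` as `y^2 <= 3 η`, `η <= 1`.  Then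
`cos^2 φ (1 - cos (2 pi/M)) = 2 cos^2 φ sin^2 (pi/M) >= 2 t^2 >= 2 sin^2 t = 1 - cos 2t`. -/
theorem sep_row (η γ t φ : ℝ) (M : ℕ) (k : ℤ) (hη : 0 < η) (hη1 : η ≤ 1) (hγ : 0 < γ)
    (hφ : γ ≤ Real.cos φ) (ht : 0 < t) (hM : M * ((1 + η) * t) ≤ Real.pi * γ)
    (hy : ((1 + η) * t / γ) ^ 2 ≤ 3 * η) (hM1 : 1 ≤ M) (hk : ¬ (M : ℤ) ∣ k) :
    1 - Real.cos (2 * t) ≤ (1 - Real.cos (φ - φ))
      + Real.cos φ * Real.cos φ * (1 - Real.cos (2 * Real.pi * k / M)) := by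
  have hπ := Real.pi_pos
  have hM0 : (0 : ℝ) < M := by exact_mod_cast hM1
  have hM2 : (2 : ℝ) ≤ M := by
    have : M ≠ 1 := by
      rintro rfl
      exact hk (one_dvd _)
    have h2 : 2 ≤ M := by omega
    exact_mod_cast h2
  set y := (1 + η) * t / γ with hydef
  have hy0 : 0 < y := by positivity
  have hyγ : γ * y = (1 + η) * t := by
    rw [hydef]
    field_simp
  have hyM : y ≤ Real.pi / M := by
    rw [le_div_iff₀ hM0]
    have : γ * (y * M) ≤ γ * Real.pi := by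
      calc γ * (y * M) = M * (γ * y) := by ring
        _ = M * ((1 + η) * t) := by rw [hyγ]
        _ ≤ Real.pi * γ := hM
        _ = γ * Real.pi := by ring
    exact le_of_mul_le_mul_left this hγ
  have hMπ : Real.pi / M ≤ Real.pi / 2 := div_le_div_of_nonneg_left hπ.le (by norm_num) hM2
  have h1 : Real.sin y ≤ Real.sin (Real.pi / M) :=
    Real.sin_le_sin_of_le_of_le_pi_div_two (by linarith) hMπ hyM
  have h2 := Real.sin_ge_sub_cube hy0.le
  have h3 : y - y ^ 3 / 6 ≤ Real.sin (Real.pi / M) := h2.trans h1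
  have h4 : 0 ≤ y - y ^ 3 / 6 := by nlinarith
  have h5 : t ≤ γ * (y - y ^ 3 / 6) := by
    have e : γ * (y - y ^ 3 / 6) = (1 + η) * t * (1 - y ^ 2 / 6) := by rw [← hyγ]; ring
    rw [e]
    have : 1 ≤ (1 + η) * (1 - y ^ 2 / 6) := by nlinarith
    nlinarith
  have h6 : t ≤ Real.cos φ * Real.sin (Real.pi / M) :=
    h5.trans (mul_le_mul hφ h3 h4 (hγ.le.trans hφ))
  have h7 : t ^ 2 ≤ (Real.cos φ * Real.sin (Real.pi / M)) ^ 2 := pow_le_pow_left₀ ht.le h6 2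
  have h8 := (cos_mult M hM1 k).1 hk
  have h9 : Real.cos (2 * Real.pi / M) = 1 - 2 * Real.sin (Real.pi / M) ^ 2 := by
    rw [show 2 * Real.pi / M = 2 * (Real.pi / M) by ring, Real.cos_two_mul, Real.cos_sq']
    ring
  have h10 := Real.one_sub_sq_div_two_le_cos (x := 2 * t)
  have h11 : Real.cos φ * Real.cos φ * (1 - Real.cos (2 * Real.pi / M)) ≤
      Real.cos φ * Real.cos φ * (1 - Real.cos (2 * Real.pi * k / M)) :=
    mul_le_mul_of_nonneg_left (by linarith) (mul_self_nonneg _)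
  rw [sub_self φ, Real.cos_zero]
  rw [h9] at h11
  nlinarith

/-- Adjacent rows.  `a = sqrt 3 (1+η) t`, `y = (1+η) t/γ`, `γ <= 1`:
`1 - cos a >= a^2/2 - a^4/24 = 3/2 (1+η)^2 t^2 (1 - a^2/12)`, `a^2 <= 3 y^2`;
`cos φ cos φ' (1 - cos ((2k+1) pi/M)) >= γ^2 * 2 sin^2 (pi/(2M))`, `pi/(2M) >= y/2` and `<= pi/2`,
`sin (pi/(2M)) >= sin (y/2) >= y/2 (1 - y^2/24)`; the sum is at least
`(1+η)^2 t^2 (2 - 3/8 y^2 - y^2/24) >= 2 t^2` as `y^2 <= 3 η`, `η <= 1`. -/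
theorem sep_adj (η γ t φ φ' : ℝ) (M : ℕ) (k : ℤ) (hη : 0 < η) (hη1 : η ≤ 1) (hγ : 0 < γ)
    (hφ : γ ≤ Real.cos φ) (hφ' : γ ≤ Real.cos φ') (ht : 0 < t)
    (hM : M * ((1 + η) * t) ≤ Real.pi * γ) (hy : ((1 + η) * t / γ) ^ 2 ≤ 3 * η) (hM1 : 1 ≤ M)
    (hd : |φ - φ'| = Real.sqrt 3 * (1 + η) * t) :
    1 - Real.cos (2 * t) ≤ (1 - Real.cos (φ - φ'))
      + Real.cos φ * Real.cos φ' * (1 - Real.cos ((2 * k + 1) * Real.pi / M)) := by
  have hπ := Real.pi_pos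
  have hM0 : (0 : ℝ) < M := by exact_mod_cast hM1
  have hM1' : (1 : ℝ) ≤ M := by exact_mod_cast hM1
  set y := (1 + η) * t / γ with hydef
  have hy0 : 0 < y := by positivity
  have hyγ : γ * y = (1 + η) * t := by
    rw [hydef]
    field_simp
  have hyM : y ≤ Real.pi / M := by
    rw [le_div_iff₀ hM0]
    have : γ * (y * M) ≤ γ * Real.pi := by
      calc γ * (y * M) = M * (γ * y) := by ring
        _ = M * ((1 + η) * t) := by rw [hyγ]
        _ ≤ Real.pi * γ := hM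
        _ = γ * Real.pi := by ring
    exact le_of_mul_le_mul_left this hγ
  have hγ1 : γ ≤ 1 := hφ.trans (Real.cos_le_one φ)
  have hMπ : Real.pi / M ≤ Real.pi := div_le_self hπ.le hM1'
  -- the second term
  have h1 : Real.sin (y / 2) ≤ Real.sin (Real.pi / M / 2) :=
    Real.sin_le_sin_of_le_of_le_pi_div_two (by linarith) (by linarith) (by linarith)
  have h2 := Real.sin_ge_sub_cube (x := y / 2) (by linarith)
  have h3 : y / 2 - (y / 2) ^ 3 / 6 ≤ Real.sin (Real.pi / M / 2) := h2.trans h1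
  have hy3 : y ^ 2 ≤ 3 := by linarith
  have h4 : 0 ≤ y / 2 - (y / 2) ^ 3 / 6 := by nlinarith
  have h5 : Real.cos (Real.pi / M) = 1 - 2 * Real.sin (Real.pi / M / 2) ^ 2 := by
    rw [show Real.pi / M = 2 * (Real.pi / M / 2) by ring, Real.cos_two_mul, Real.cos_sq',
      show 2 * (Real.pi / M / 2) / 2 = Real.pi / M / 2 by ring]
    ring
  have h6 := (cos_mult M hM1 k).2
  have h7 : (y / 2 - (y / 2) ^ 3 / 6) ^ 2 ≤ Real.sin (Real.pi / M / 2) ^ 2 := pow_le_pow_left₀ h4 h3 2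
  have hs2 : ((1 + η) * t) ^ 2 * (1 / 2 * (1 - y ^ 2 / 12)) ≤
      Real.cos φ * Real.cos φ' * (1 - Real.cos ((2 * k + 1) * Real.pi / M)) := by
    have g1 : γ * γ ≤ Real.cos φ * Real.cos φ' := mul_le_mul hφ hφ' hγ.le (hγ.le.trans hφ)
    have g2 : 2 * (y / 2 - (y / 2) ^ 3 / 6) ^ 2 ≤ 1 - Real.cos ((2 * k + 1) * Real.pi / M) := by linarith
    have g3 := mul_le_mul g1 g2 (by positivity) ((mul_nonneg hγ.le hγ.le).trans g1)
    refine le_trans ?_ g3
    have e : γ * γ * (2 * (y / 2 - (y / 2) ^ 3 / 6) ^ 2) = (γ * y) ^ 2 * (1 / 2 * (1 - y ^ 2 / 24) ^ 2) := by ring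
    rw [e, hyγ]
    refine mul_le_mul_of_nonneg_left ?_ (sq_nonneg _)
    nlinarith [sq_nonneg (y ^ 2)]
  -- the first term
  set a := Real.sqrt 3 * (1 + η) * t with hadef
  have ha0 : 0 < a := by positivity
  have ha2 : a ^ 2 = 3 * ((1 + η) * t) ^ 2 := by
    rw [hadef]
    have : Real.sqrt 3 ^ 2 = 3 := Real.sq_sqrt (by norm_num)
    calc (Real.sqrt 3 * (1 + η) * t) ^ 2 = Real.sqrt 3 ^ 2 * ((1 + η) * t) ^ 2 := by ring
      _ = _ := by rw [this]
  have hty : ((1 + η) * t) ^ 2 ≤ y ^ 2 := by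
    rw [← hyγ, mul_pow]
    have : γ ^ 2 ≤ 1 := pow_le_one₀ hγ.le hγ1
    nlinarith [sq_nonneg y]
  have k1 := Real.sin_ge_sub_cube (x := a / 2) (by linarith)
  have ha9 : a ^ 2 ≤ 9 := by rw [ha2]; linarith
  have k2 : 0 ≤ a / 2 - (a / 2) ^ 3 / 6 := by nlinarith
  have k3 : (a / 2 - (a / 2) ^ 3 / 6) ^ 2 ≤ Real.sin (a / 2) ^ 2 := pow_le_pow_left₀ k2 k1 2
  have k4 : Real.cos a = 1 - 2 * Real.sin (a / 2) ^ 2 := by
    rw [show a = 2 * (a / 2) by ring, Real.cos_two_mul, Real.cos_sq', show 2 * (a / 2) / 2 = a / 2 by ring]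
    ring
  have k5 : Real.cos (φ - φ') = Real.cos a := by rw [← Real.cos_abs (φ - φ'), hd]
  have hs1 : ((1 + η) * t) ^ 2 * (3 / 2 * (1 - a ^ 2 / 12)) ≤ 1 - Real.cos (φ - φ') := by
    rw [k5, k4]
    have e : 2 * (a / 2 - (a / 2) ^ 3 / 6) ^ 2 = a ^ 2 * (1 / 2 * (1 - a ^ 2 / 24) ^ 2) := by ring
    have e2 : ((1 + η) * t) ^ 2 * (3 / 2 * (1 - a ^ 2 / 12)) = a ^ 2 * (1 / 2 * (1 - a ^ 2 / 12)) := by
      rw [ha2]; ring
    rw [e2]
    have k6 : a ^ 2 * (1 / 2 * (1 - a ^ 2 / 12)) ≤ a ^ 2 * (1 / 2 * (1 - a ^ 2 / 24) ^ 2) := by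
      refine mul_le_mul_of_nonneg_left ?_ (sq_nonneg _)
      nlinarith [sq_nonneg (a ^ 2)]
    linarith
  have h10 := Real.one_sub_sq_div_two_le_cos (x := 2 * t)
  have hfin : 2 * t ^ 2 ≤ ((1 + η) * t) ^ 2 * (3 / 2 * (1 - a ^ 2 / 12)) +
      ((1 + η) * t) ^ 2 * (1 / 2 * (1 - y ^ 2 / 12)) := by
    have e : ((1 + η) * t) ^ 2 * (3 / 2 * (1 - a ^ 2 / 12)) + ((1 + η) * t) ^ 2 * (1 / 2 * (1 - y ^ 2 / 12)) =
        t ^ 2 * ((1 + η) ^ 2 * (2 - a ^ 2 / 8 - y ^ 2 / 24)) := by ring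
    rw [e, mul_comm 2]
    refine mul_le_mul_of_nonneg_left ?_ (sq_nonneg _)
    have g1 : 2 - 5 / 4 * η ≤ 2 - a ^ 2 / 8 - y ^ 2 / 24 := by
      rw [ha2]; linarith
    have g2 : (1 + η) ^ 2 * (2 - 5 / 4 * η) ≤ (1 + η) ^ 2 * (2 - a ^ 2 / 8 - y ^ 2 / 24) :=
      mul_le_mul_of_nonneg_left g1 (sq_nonneg _)
    refine le_trans ?_ g2
    nlinarith [mul_nonneg hη.le (sub_nonneg.2 hη1), mul_nonneg (mul_nonneg hη.le hη.le) (sub_nonneg.2 hη1)]
  linarith

end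

end Pool.Agent.Lib.MP_dabcc9_gt
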