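import Pool.Agent.Lib.MP_dabcc9_gt.PkA

/-! JOB P2.  Hexagonal rows in bands. -/

open MeasureTheory Metric Set

namespace Pool.Agent.Lib.MP_dabcc9_gt

noncomputable section

/-- the latitude of row `r` of band `b` -/
private def PkB_lat (R B : ℕ) (η t Φ : ℝ) (b : Fin B) (r : Fin R) : ℝ :=
  -Φ + b * ((R - 1) * (Real.sqrt 3 * (1 + η) * t) + 2 * t) + r * (Real.sqrt 3 * (1 + η) * t)

/-- the longitude of point `k` of row `r` -/
private def PkB_lon (R M : ℕ) (r : Fin R) (k : Fin M) : ℝ :=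
  (2 * ((k : ℕ) : ℝ) + (((r : ℕ) % 2 : ℕ) : ℝ)) * Real.pi / M

private theorem PkB_a (η t : ℝ) (hη : 0 < η) (ht : 0 < t) : t ≤ Real.sqrt 3 * (1 + η) * t := by
  have h3 : 1 ≤ Real.sqrt 3 := by
    rw [Real.one_le_sqrt]
    norm_num
  nlinarith [mul_pos hη ht, mul_nonneg (sub_nonneg.2 h3) (mul_pos hη ht).le,
    mul_nonneg (sub_nonneg.2 h3) ht.le]

private theorem PkB_lat_bd (R B : ℕ) (η t Φ : ℝ) (hη : 0 < η) (ht : 0 < t)
    (hB : B * ((R - 1) * (Real.sqrt 3 * (1 + η) * t) + 2 * t) ≤ 2 * Φ) (b : Fin B) (r : Fin R) :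
    -Φ ≤ PkB_lat R B η t Φ b r ∧ PkB_lat R B η t Φ b r ≤ Φ := by
  have ha := PkB_a η t hη ht
  unfold PkB_lat
  set a := Real.sqrt 3 * (1 + η) * t with ha'
  have ha0 : 0 < a := lt_of_lt_of_le ht ha
  have hb0 : (0 : ℝ) ≤ (b : ℕ) := Nat.cast_nonneg _
  have hr0 : (0 : ℝ) ≤ (r : ℕ) := Nat.cast_nonneg _
  have hb1 : ((b : ℕ) : ℝ) + 1 ≤ B := by exact_mod_cast b.2
  have hr1 : ((r : ℕ) : ℝ) + 1 ≤ R := by exact_mod_cast r.2
  have hh : 0 ≤ ((R : ℝ) - 1) * a + 2 * t := by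
    have : 0 ≤ ((R : ℝ) - 1) * a := mul_nonneg (by linarith) ha0.le
    linarith
  constructor
  · have h1 := mul_nonneg hb0 hh
    have h2 := mul_nonneg hr0 ha0.le
    linarith
  · have h1 : ((b : ℕ) : ℝ) * (((R : ℝ) - 1) * a + 2 * t) ≤ (B - 1) * (((R : ℝ) - 1) * a + 2 * t) :=
      mul_le_mul_of_nonneg_right (by linarith) hh
    have h2 : ((r : ℕ) : ℝ) * a ≤ (R - 1) * a := mul_le_mul_of_nonneg_right (by linarith) ha0.le
    linarith

private theorem PkB_band (R B : ℕ) (η t Φ : ℝ) (hη : 0 < η) (ht : 0 < t) (b b' : Fin B)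
    (r r' : Fin R) (hbb : (b : ℕ) < b') :
    2 * t ≤ PkB_lat R B η t Φ b' r' - PkB_lat R B η t Φ b r := by
  have ha := PkB_a η t hη ht
  unfold PkB_lat
  set a := Real.sqrt 3 * (1 + η) * t with ha'
  have ha0 : 0 < a := lt_of_lt_of_le ht ha
  have hr0 : (0 : ℝ) ≤ (r' : ℕ) := Nat.cast_nonneg _
  have hr1 : ((r : ℕ) : ℝ) + 1 ≤ R := by exact_mod_cast r.2
  have hb1 : ((b : ℕ) : ℝ) + 1 ≤ (b' : ℕ) := by exact_mod_cast hbb
  have hh : 0 ≤ ((R : ℝ) - 1) * a + 2 * t := by
    have : 0 ≤ ((R : ℝ) - 1) * a := mul_nonneg (by linarith [Nat.cast_nonneg (α := ℝ) (r : ℕ)]) ha0.le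
    linarith
  have h1 : (((b : ℕ) : ℝ) + 1) * (((R : ℝ) - 1) * a + 2 * t) ≤
      ((b' : ℕ) : ℝ) * (((R : ℝ) - 1) * a + 2 * t) := mul_le_mul_of_nonneg_right hb1 hh
  have h2 : ((r : ℕ) : ℝ) * a ≤ (R - 1) * a := mul_le_mul_of_nonneg_right (by linarith) ha0.le
  have h3 := mul_nonneg hr0 ha0.le
  linarith

/-- the two points are separated -/
private theorem PkB_pair (R B : ℕ) (M : Fin B → ℕ) (γ : Fin B → ℝ) (η t Φ : ℝ) (hη : 0 < η)
    (hη1 : η ≤ 1) (ht : 0 < t) (hΦ1 : Φ < Real.pi / 2)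
    (hB : B * ((R - 1) * (Real.sqrt 3 * (1 + η) * t) + 2 * t) ≤ 2 * Φ)
    (hγ : ∀ b, 0 < γ b)
    (hcos : ∀ (b : Fin B) (r : Fin R), γ b ≤ Real.cos (PkB_lat R B η t Φ b r))
    (hM : ∀ b, M b * ((1 + η) * t) ≤ Real.pi * γ b)
    (hy : ∀ b, ((1 + η) * t / γ b) ^ 2 ≤ 3 * η) (s s' : Σ b : Fin B, Fin R × Fin (M b))
    (hss : s ≠ s') :
    1 - Real.cos (2 * t) ≤ (1 - Real.cos (PkB_lat R B η t Φ s.1 s.2.1 - PkB_lat R B η t Φ s'.1 s'.2.1))
      + Real.cos (PkB_lat R B η t Φ s.1 s.2.1) * Real.cos (PkB_lat R B η t Φ s'.1 s'.2.1) *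
        (1 - Real.cos (PkB_lon R (M s.1) s.2.1 s.2.2 - PkB_lon R (M s'.1) s'.2.1 s'.2.2)) := by
  obtain ⟨b, r, k⟩ := s
  obtain ⟨b', r', k'⟩ := s'
  have hbd := PkB_lat_bd R B η t Φ hη ht hB b r
  have hbd' := PkB_lat_bd R B η t Φ hη ht hB b' r'
  have hdiff : |PkB_lat R B η t Φ b r - PkB_lat R B η t Φ b' r'| ≤ Real.pi := by
    rw [abs_le]
    constructor <;> linarith [hbd.1, hbd.2, hbd'.1, hbd'.2]
  have hc := (hγ b).le.trans (hcos b r)
  have hc' := (hγ b').le.trans (hcos b' r')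
  have ha := PkB_a η t hη ht
  dsimp only
  by_cases hbb : (b : ℕ) = b'
  · -- same band
    have hbe : b = b' := Fin.ext hbb
    subst hbe
    have hMb : 1 ≤ M b := by
      have := k.2
      omega
    have hM0 : (M b : ℝ) ≠ 0 := by
      have : (0 : ℝ) < M b := by exact_mod_cast hMb
      exact this.ne'
    have hlat : PkB_lat R B η t Φ b r - PkB_lat R B η t Φ b r' =
        (((r : ℕ) : ℝ) - (r' : ℕ)) * (Real.sqrt 3 * (1 + η) * t) := by
      unfold PkB_lat
      ring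
    by_cases hrr : (r : ℕ) = r'
    · -- same row
      have hre : r = r' := Fin.ext hrr
      subst hre
      have hkk : (k : ℕ) ≠ k' := by
        intro h
        apply hss
        have : k = k' := Fin.ext h
        rw [this]
      have hdvd : ¬ ((M b : ℕ) : ℤ) ∣ ((k : ℕ) : ℤ) - ((k' : ℕ) : ℤ) := by
        intro hd
        have hk1 := k.2
        have hk2 := k'.2
        have habs : |((k : ℕ) : ℤ) - ((k' : ℕ) : ℤ)| < (M b : ℤ) := by
          rw [abs_lt]
          constructor <;> omega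
        have := Int.eq_zero_of_abs_lt_dvd hd habs
        omega
      have h1 := sep_row η (γ b) t (PkB_lat R B η t Φ b r) (M b) (((k : ℕ) : ℤ) - ((k' : ℕ) : ℤ))
        hη hη1 (hγ b) (hcos b r) ht (hM b) (hy b) hMb hdvd
      have e : PkB_lon R (M b) r k - PkB_lon R (M b) r k' =
          2 * Real.pi * ((((k : ℕ) : ℤ) - ((k' : ℕ) : ℤ) : ℤ) : ℝ) / M b := by
        unfold PkB_lon
        push_cast
        field_simp
        ring
      rw [e]
      exact h1
    · by_cases hadj : (r : ℕ) = r' + 1 ∨ (r' : ℕ) = r + 1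
      · -- adjacent rows
        have hd : |PkB_lat R B η t Φ b r - PkB_lat R B η t Φ b r'| = Real.sqrt 3 * (1 + η) * t := by
          rw [hlat]
          rcases hadj with h | h
          · rw [h]
            push_cast
            rw [add_sub_cancel_left, one_mul, abs_of_pos (lt_of_lt_of_le ht ha)]
          · rw [h]
            push_cast
            rw [sub_add_cancel_left, neg_one_mul, abs_neg, abs_of_pos (lt_of_lt_of_le ht ha)]
        have hpar : ∃ j : ℤ, PkB_lon R (M b) r k - PkB_lon R (M b) r' k' =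
            (2 * (j : ℝ) + 1) * Real.pi / M b := by
          by_cases h0 : (r : ℕ) % 2 = 0
          · have h1 : (r' : ℕ) % 2 = 1 := by omega
            refine ⟨((k : ℕ) : ℤ) - ((k' : ℕ) : ℤ) - 1, ?_⟩
            unfold PkB_lon
            rw [h0, h1]
            push_cast
            field_simp
            ring
          · have h0' : (r : ℕ) % 2 = 1 := by omega
            have h1 : (r' : ℕ) % 2 = 0 := by omega
            refine ⟨((k : ℕ) : ℤ) - ((k' : ℕ) : ℤ), ?_⟩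
            unfold PkB_lon
            rw [h0', h1]
            push_cast
            field_simp
            ring
        obtain ⟨j, hj⟩ := hpar
        rw [hj]
        exact sep_adj η (γ b) t _ _ (M b) j hη hη1 (hγ b) (hcos b r) (hcos b r') ht (hM b) (hy b)
          hMb hd
      · -- rows at distance at least two
        refine sep_far t _ _ _ ht.le ?_ hdiff hc hc'
        rw [hlat, abs_mul, abs_of_pos (lt_of_lt_of_le ht ha)]
        have h2 : (2 : ℝ) ≤ |((r : ℕ) : ℝ) - (r' : ℕ)| := by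
          have h3 : (2 : ℤ) ≤ |((r : ℕ) : ℤ) - ((r' : ℕ) : ℤ)| := by
            rw [not_or] at hadj
            rw [le_abs]
            omega
          exact_mod_cast h3
        calc 2 * t ≤ 2 * (Real.sqrt 3 * (1 + η) * t) := by linarith
          _ ≤ |((r : ℕ) : ℝ) - (r' : ℕ)| * (Real.sqrt 3 * (1 + η) * t) :=
            mul_le_mul_of_nonneg_right h2 (ht.le.trans ha)
  · -- different bands
    refine sep_far t _ _ _ ht.le ?_ hdiff hc hc'
    rcases lt_or_gt_of_ne hbb with h | h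
    · have h1 := PkB_band R B η t Φ hη ht b b' r r' h
      rw [abs_sub_comm]
      exact h1.trans (le_abs_self _)
    · have h1 := PkB_band R B η t Φ hη ht b' b r' r h
      exact h1.trans (le_abs_self _)

/-- Bands `b < B` of `R` rows; band `b` has rows at the latitudes `-Φ + b h + r a`, `r < R`,
`a = sqrt 3 (1+η) t`, `h = (R-1) a + 2 t`, with `M b` points in each row of band `b`, at the longitudes
`2 pi k/M b` (`r` even) or `(2 k + 1) pi/M b` (`r` odd).  If `N <= ∑ b, R * M b`, there are `N` points.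
PROOF.  Index the points by `Σ b : Fin B, Fin R × Fin (M b)`, of cardinality `∑ b, R * M b`; choose an
injection of `Fin N`.  For two different points: different bands: latitudes differ by at least `2 t`
(and at most `2 Φ <= pi`), `sep_far`; same band, rows `r ≠ r'` with `|r - r'| >= 2`: at least
`2 a >= 2 t`, `sep_far`; `|r - r'| = 1`: the longitudes differ by an odd multiple of `pi/M b`,
`sep_adj`; same row: `sep_row` with `k - k'` not divisible by `M b`.  Conclude by `latl_sep`. -/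
theorem rows_sep (R B : ℕ) (M : Fin B → ℕ) (γ : Fin B → ℝ) (η t Φ : ℝ) (hη : 0 < η) (hη1 : η ≤ 1)
    (ht : 0 < t) (ht1 : t ≤ 1) (hR : 1 ≤ R) (hΦ : 0 < Φ) (hΦ1 : Φ < Real.pi / 2)
    (hB : B * ((R - 1) * (Real.sqrt 3 * (1 + η) * t) + 2 * t) ≤ 2 * Φ)
    (hγ : ∀ b, 0 < γ b)
    (hcos : ∀ (b : Fin B) (r : Fin R), γ b ≤ Real.cos (-Φ
      + b * ((R - 1) * (Real.sqrt 3 * (1 + η) * t) + 2 * t) + r * (Real.sqrt 3 * (1 + η) * t)))
    (hM : ∀ b, M b * ((1 + η) * t) ≤ Real.pi * γ b)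
    (hy : ∀ b, ((1 + η) * t / γ b) ^ 2 ≤ 3 * η) (N : ℕ) (hN : N ≤ ∑ b, R * M b) :
    ∃ n : Fin N → E3, Sep n (Real.cos t) := by
  have _ := hR
  have _ := hΦ
  have hcard : Fintype.card (Σ b : Fin B, Fin R × Fin (M b)) = ∑ b, R * M b := by
    rw [Fintype.card_sigma]
    apply Finset.sum_congr rfl
    intro b _
    rw [Fintype.card_prod, Fintype.card_fin, Fintype.card_fin]
  obtain ⟨f⟩ : Nonempty (Fin N ↪ Σ b : Fin B, Fin R × Fin (M b)) := by
    apply Function.Embedding.nonempty_of_card_le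
    rw [Fintype.card_fin, hcard]
    exact hN
  have hct : 0 ≤ Real.cos t := by
    apply Real.cos_nonneg_of_neg_pi_div_two_le_of_le
    · linarith [Real.pi_pos]
    · linarith [Real.pi_gt_three]
  refine ⟨fun i => latl (PkB_lat R B η t Φ (f i).1 (f i).2.1)
    (PkB_lon R (M (f i).1) (f i).2.1 (f i).2.2), fun i => norm_latl _ _, ?_⟩
  intro i j hij
  apply latl_sep t _ _ _ _ hct
  exact PkB_pair R B M γ η t Φ hη hη1 ht hΦ1 hB hγ hcos hM hy (f i) (f j)
    (fun h => hij (f.injective h))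

end

end Pool.Agent.Lib.MP_dabcc9_gt
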