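import Pool.Agent.Lib.MP_dabcc9_gt.RotC
import Pool.Agent.Lib.MP_dabcc9_gt.AlgB
import Pool.Agent.Lib.MP_dabcc9_gt.Deg2A

/-! JOB A10a. NN is a sum of squares on the sphere. -/

open MvPolynomial Matrix

namespace Pool.Agent.Lib.MP_dabcc9_gt

noncomputable section

/-- `Z_ij = M_ij - x_j (M x)_i - 1/2 (tr M) (δ_ij - x_i x_j)` with `M_ij = (L i L j a)(x)`. -/
def Zm (a : P) (x : E3) (i j : Fin 3) : ℝ :=
  ev (L i (L j a)) x - x j * (∑ k, x k * ev (L i (L k a)) x)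
    - 1 / 2 * ev (Lap a) x * ((if i = j then 1 else 0) - x i * x j)

private theorem ptA_X01 : L 0 (X 1 : P) = - X 2 := L_X_one 0
private theorem ptA_X02 : L 0 (X 2 : P) = X 1 := L_X_two 0
private theorem ptA_X12 : L 1 (X 2 : P) = - X 0 := L_X_one 1
private theorem ptA_X10 : L 1 (X 0 : P) = X 2 := L_X_two 1
private theorem ptA_X20 : L 2 (X 0 : P) = - X 1 := L_X_one 2
private theorem ptA_X21 : L 2 (X 1 : P) = X 0 := L_X_two 2

/-- `x . g = 0` -/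
private theorem ptA_g (a : P) (x : E3) :
    x 0 * ev (L 0 a) x + x 1 * ev (L 1 a) x + x 2 * ev (L 2 a) x = 0 := by
  have h := congrArg (fun p => ev p x) (sum_X_L a)
  simpa only [Fin.sum_univ_three, ev_add, ev_mul, ev_X, ev_zero] using h

/-- `x^T M = 0` -/
private theorem ptA_col (a : P) (x : E3) (j : Fin 3) :
    x 0 * ev (L 0 (L j a)) x + x 1 * ev (L 1 (L j a)) x + x 2 * ev (L 2 (L j a)) x = 0 :=
  ptA_g (L j a) x

private theorem ptA_row (a : P) (x : E3) (i : Fin 3) :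
    (x 0 * ev (L i (L 0 a)) x + x 1 * ev (L i (L 1 a)) x + x 2 * ev (L i (L 2 a)) x)
      + (ev (L 0 a) x * ev (L i (X 0)) x + ev (L 1 a) x * ev (L i (X 1)) x
        + ev (L 2 a) x * ev (L i (X 2)) x) = 0 := by
  have h := congrArg (fun p => ev (L i p) x) (sum_X_L a)
  simp only [Fin.sum_univ_three, map_add, L_mul, map_zero, ev_add, ev_mul, ev_X, ev_zero] at h
  linear_combination h

private theorem ptA_u0 (a : P) (x : E3) :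
    x 0 * ev (L 0 (L 0 a)) x + x 1 * ev (L 0 (L 1 a)) x + x 2 * ev (L 0 (L 2 a)) x =
      ev (L 1 a) x * x 2 - ev (L 2 a) x * x 1 := by
  have h := ptA_row a x 0
  rw [L_X_self, ptA_X01, ptA_X02, ev_zero, ev_neg, ev_X, ev_X] at h
  linear_combination h

private theorem ptA_u1 (a : P) (x : E3) :
    x 0 * ev (L 1 (L 0 a)) x + x 1 * ev (L 1 (L 1 a)) x + x 2 * ev (L 1 (L 2 a)) x =
      ev (L 2 a) x * x 0 - ev (L 0 a) x * x 2 := by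
  have h := ptA_row a x 1
  rw [L_X_self, ptA_X12, ptA_X10, ev_zero, ev_neg, ev_X, ev_X] at h
  linear_combination h

private theorem ptA_u2 (a : P) (x : E3) :
    x 0 * ev (L 2 (L 0 a)) x + x 1 * ev (L 2 (L 1 a)) x + x 2 * ev (L 2 (L 2 a)) x =
      ev (L 0 a) x * x 1 - ev (L 1 a) x * x 0 := by
  have h := ptA_row a x 2
  rw [L_X_self, ptA_X20, ptA_X21, ev_zero, ev_neg, ev_X, ev_X] at h
  linear_combination h

/-- the algebra behind `ev_NN` -/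
private theorem ptA_alg (x0 x1 x2 u0 u1 u2 v0 v1 v2 g0 g1 g2 h0 h1 h2 T S
    m00 m01 m02 m10 m11 m12 m20 m21 m22 n00 n01 n02 n10 n11 n12 n20 n21 n22 : ℝ)
    (hN : x0 ^ 2 + x1 ^ 2 + x2 ^ 2 = 1)
    (hm0 : x0 * m00 + x1 * m01 + x2 * m02 = u0) (hm1 : x0 * m10 + x1 * m11 + x2 * m12 = u1)
    (hm2 : x0 * m20 + x1 * m21 + x2 * m22 = u2)
    (hn0 : x0 * n00 + x1 * n01 + x2 * n02 = v0) (hn1 : x0 * n10 + x1 * n11 + x2 * n12 = v1)
    (hn2 : x0 * n20 + x1 * n21 + x2 * n22 = v2)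
    (hu : x0 * u0 + x1 * u1 + x2 * u2 = 0) (hv : x0 * v0 + x1 * v1 + x2 * v2 = 0)
    (hT : m00 + m11 + m22 = T) (hS : n00 + n11 + n22 = S)
    (hG : u0 * v0 + u1 * v1 + u2 * v2 = g0 * h0 + g1 * h1 + g2 * h2) :
    (m00 * n00 + m01 * n01 + m02 * n02 + (m10 * n10 + m11 * n11 + m12 * n12)
      + (m20 * n20 + m21 * n21 + m22 * n22)) - (g0 * h0 + g1 * h1 + g2 * h2) - 1 / 2 * (T * S) =
    ((m00 - x0 * u0 - 1 / 2 * T * (1 - x0 * x0)) * (n00 - x0 * v0 - 1 / 2 * S * (1 - x0 * x0))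
      + (m01 - x1 * u0 - 1 / 2 * T * (0 - x0 * x1)) * (n01 - x1 * v0 - 1 / 2 * S * (0 - x0 * x1))
      + (m02 - x2 * u0 - 1 / 2 * T * (0 - x0 * x2)) * (n02 - x2 * v0 - 1 / 2 * S * (0 - x0 * x2)))
    + ((m10 - x0 * u1 - 1 / 2 * T * (0 - x1 * x0)) * (n10 - x0 * v1 - 1 / 2 * S * (0 - x1 * x0))
      + (m11 - x1 * u1 - 1 / 2 * T * (1 - x1 * x1)) * (n11 - x1 * v1 - 1 / 2 * S * (1 - x1 * x1))
      + (m12 - x2 * u1 - 1 / 2 * T * (0 - x1 * x2)) * (n12 - x2 * v1 - 1 / 2 * S * (0 - x1 * x2)))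
    + ((m20 - x0 * u2 - 1 / 2 * T * (0 - x2 * x0)) * (n20 - x0 * v2 - 1 / 2 * S * (0 - x2 * x0))
      + (m21 - x1 * u2 - 1 / 2 * T * (0 - x2 * x1)) * (n21 - x1 * v2 - 1 / 2 * S * (0 - x2 * x1))
      + (m22 - x2 * u2 - 1 / 2 * T * (1 - x2 * x2)) * (n22 - x2 * v2 - 1 / 2 * S * (1 - x2 * x2)))
    := by
  linear_combination (v0 - 1 / 2 * S * x0) * hm0 + (v1 - 1 / 2 * S * x1) * hm1
    + (v2 - 1 / 2 * S * x2) * hm2 + (u0 - 1 / 2 * T * x0) * hn0 + (u1 - 1 / 2 * T * x1) * hn1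
    + (u2 - 1 / 2 * T * x2) * hn2
    + (1 / 2 * S * (x0 ^ 2 + x1 ^ 2 + x2 ^ 2 - 2)) * hu
    + (1 / 2 * T * (x0 ^ 2 + x1 ^ 2 + x2 ^ 2 - 2)) * hv
    + (1 / 2 * S) * hT + (1 / 2 * T) * hS
    + (-(u0 * v0 + u1 * v1 + u2 * v2) - 1 / 4 * T * S * (x0 ^ 2 + x1 ^ 2 + x2 ^ 2 - 1)) * hN
    + hG

/-- On the sphere `NN a b = ∑_ij Z_ij(a) Z_ij(b)`.  PROOF.  Facts (unit `x`): `∑_i x_i M_ij = 0`
(`sum_X_L` applied to `L j a`); `(M x)_i = ∑_k x_k L i L k a = - ∑_k (L i x_k) L k a`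
(apply `L i` to `sum_X_L`), i.e. `M x = g × x` up to sign with `g = (L k a)`, so
`(M(a) x) . (M(b) x) = (g(a) × x) . (g(b) × x) = g(a).g(b)` since `x . g = 0`, `|x| = 1`, which is
`Gam a b`.  Expand the product of the `Z`: with `Pr = I - x x^T`, `x^T M = 0`,
`<M Pr, M' Pr> = <M, M'> - (Mx).(M'x)`, `<M Pr, Pr> = tr M`, `<Pr, Pr> = 2`. -/
theorem ev_NN (a b : P) (x : E3) (hx : ‖x‖ = 1) :
    ev (NN a b) x = ∑ i, ∑ j, Zm a x i j * Zm b x i j := by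
  have hN : x 0 ^ 2 + x 1 ^ 2 + x 2 ^ 2 = 1 := by
    rw [← norm_sq_eq3, hx, one_pow]
  have hga := ptA_g a x
  have hgb := ptA_g b x
  have hua : x 0 * (ev (L 1 a) x * x 2 - ev (L 2 a) x * x 1)
      + x 1 * (ev (L 2 a) x * x 0 - ev (L 0 a) x * x 2)
      + x 2 * (ev (L 0 a) x * x 1 - ev (L 1 a) x * x 0) = 0 := by ring
  have hub : x 0 * (ev (L 1 b) x * x 2 - ev (L 2 b) x * x 1)
      + x 1 * (ev (L 2 b) x * x 0 - ev (L 0 b) x * x 2)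
      + x 2 * (ev (L 0 b) x * x 1 - ev (L 1 b) x * x 0) = 0 := by ring
  have hG : (ev (L 1 a) x * x 2 - ev (L 2 a) x * x 1) * (ev (L 1 b) x * x 2 - ev (L 2 b) x * x 1)
      + (ev (L 2 a) x * x 0 - ev (L 0 a) x * x 2) * (ev (L 2 b) x * x 0 - ev (L 0 b) x * x 2)
      + (ev (L 0 a) x * x 1 - ev (L 1 a) x * x 0) * (ev (L 0 b) x * x 1 - ev (L 1 b) x * x 0)
      = ev (L 0 a) x * ev (L 0 b) x + ev (L 1 a) x * ev (L 1 b) x + ev (L 2 a) x * ev (L 2 b) x := by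
    linear_combination (ev (L 0 a) x * ev (L 0 b) x + ev (L 1 a) x * ev (L 1 b) x
      + ev (L 2 a) x * ev (L 2 b) x) * hN
      - (x 0 * ev (L 0 b) x + x 1 * ev (L 1 b) x + x 2 * ev (L 2 b) x) * hga
  have hTa : ev (L 0 (L 0 a)) x + ev (L 1 (L 1 a)) x + ev (L 2 (L 2 a)) x = ev (Lap a) x := by
    simp only [Lap, Fin.sum_univ_three, ev_add]
  have hTb : ev (L 0 (L 0 b)) x + ev (L 1 (L 1 b)) x + ev (L 2 (L 2 b)) x = ev (Lap b) x := by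
    simp only [Lap, Fin.sum_univ_three, ev_add]
  have key := ptA_alg (x 0) (x 1) (x 2) _ _ _ _ _ _
    (ev (L 0 a) x) (ev (L 1 a) x) (ev (L 2 a) x) (ev (L 0 b) x) (ev (L 1 b) x) (ev (L 2 b) x)
    (ev (Lap a) x) (ev (Lap b) x)
    (ev (L 0 (L 0 a)) x) (ev (L 0 (L 1 a)) x) (ev (L 0 (L 2 a)) x)
    (ev (L 1 (L 0 a)) x) (ev (L 1 (L 1 a)) x) (ev (L 1 (L 2 a)) x)
    (ev (L 2 (L 0 a)) x) (ev (L 2 (L 1 a)) x) (ev (L 2 (L 2 a)) x)
    (ev (L 0 (L 0 b)) x) (ev (L 0 (L 1 b)) x) (ev (L 0 (L 2 b)) x)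
    (ev (L 1 (L 0 b)) x) (ev (L 1 (L 1 b)) x) (ev (L 1 (L 2 b)) x)
    (ev (L 2 (L 0 b)) x) (ev (L 2 (L 1 b)) x) (ev (L 2 (L 2 b)) x)
    hN (ptA_u0 a x) (ptA_u1 a x) (ptA_u2 a x) (ptA_u0 b x) (ptA_u1 b x) (ptA_u2 b x)
    hua hub hTa hTb hG
  have hNN : ev (NN a b) x = (ev (L 0 (L 0 a)) x * ev (L 0 (L 0 b)) x
        + ev (L 0 (L 1 a)) x * ev (L 0 (L 1 b)) x + ev (L 0 (L 2 a)) x * ev (L 0 (L 2 b)) x
      + (ev (L 1 (L 0 a)) x * ev (L 1 (L 0 b)) x + ev (L 1 (L 1 a)) x * ev (L 1 (L 1 b)) x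
        + ev (L 1 (L 2 a)) x * ev (L 1 (L 2 b)) x)
      + (ev (L 2 (L 0 a)) x * ev (L 2 (L 0 b)) x + ev (L 2 (L 1 a)) x * ev (L 2 (L 1 b)) x
        + ev (L 2 (L 2 a)) x * ev (L 2 (L 2 b)) x))
      - (ev (L 0 a) x * ev (L 0 b) x + ev (L 1 a) x * ev (L 1 b) x + ev (L 2 a) x * ev (L 2 b) x)
      - 1 / 2 * (ev (Lap a) x * ev (Lap b) x) := by
    unfold NN SS Gam
    rw [ev_sub, ev_sub, ev_mul, ev_mul, ev_C]
    simp only [Fin.sum_univ_three, ev_add, ev_mul]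
  rw [hNN, key]
  have e00 : ((0 : Fin 3) = 0) = True := eq_self _
  have e01 : ((0 : Fin 3) = 1) = False := by simp
  have e02 : ((0 : Fin 3) = 2) = False := by simp
  have e10 : ((1 : Fin 3) = 0) = False := by simp
  have e11 : ((1 : Fin 3) = 1) = True := eq_self _
  have e12 : ((1 : Fin 3) = 2) = False := by simp
  have e20 : ((2 : Fin 3) = 0) = False := by simp
  have e21 : ((2 : Fin 3) = 1) = False := by simp
  have e22 : ((2 : Fin 3) = 2) = True := eq_self _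
  simp only [Zm, Fin.sum_univ_three, ptA_u0, ptA_u1, ptA_u2, e00, e01, e02, e10, e11, e12, e20,
    e21, e22, if_true, if_false]

theorem NN_nonneg (a : P) (x : E3) (hx : ‖x‖ = 1) : 0 ≤ ev (NN a a) x := by
  rw [ev_NN a a x hx]
  exact Finset.sum_nonneg fun i _ => Finset.sum_nonneg fun j _ => mul_self_nonneg _

/-- Cauchy-Schwarz from `ev_NN`. -/
theorem NN_cs (a b : P) (x : E3) (hx : ‖x‖ = 1) :
    ev (NN a b) x ^ 2 ≤ ev (NN a a) x * ev (NN b b) x := by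
  rw [ev_NN a a x hx, ev_NN b b x hx, ev_NN a b x hx]
  have h := Finset.sum_mul_sq_le_sq_mul_sq (Finset.univ : Finset (Fin 3 × Fin 3))
    (fun q => Zm a x q.1 q.2) (fun q => Zm b x q.1 q.2)
  simp only [Fintype.sum_prod_type, sq (Zm _ _ _ _)] at h
  exact h

end

end Pool.Agent.Lib.MP_dabcc9_gt
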