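import Pool.Agent.Lib.MP_dabcc9_gt.SphA

/-! JOB B2b. Spherical coordinates. -/

open MeasureTheory Metric Set

namespace Pool.Agent.Lib.MP_dabcc9_gt

noncomputable section

/-- Point of the sphere with polar axis `eb 2`. -/
def sp (θ φ : ℝ) : E3 :=
  !₂[Real.sin θ * Real.cos φ, Real.sin θ * Real.sin φ, Real.cos θ]

/-- the coordinates -/
theorem SphB_sp_norm (θ φ : ℝ) : ‖sp θ φ‖ = 1 := by
  have h : ‖sp θ φ‖ ^ 2 = 1 := by
    rw [norm_sq_eq3]
    simp only [sp, PiLp.toLp_apply, Matrix.cons_val_zero, Matrix.cons_val_one, Matrix.cons_val]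
    nlinarith [Real.sin_sq_add_cos_sq θ, Real.sin_sq_add_cos_sq φ]
  have h0 : 0 ≤ ‖sp θ φ‖ := norm_nonneg _
  nlinarith

theorem SphB_sp_cont : Continuous fun q : ℝ × ℝ => sp q.1 q.2 := by
  unfold sp
  refine (PiLp.continuous_toLp 2 _).comp (continuous_pi fun i => ?_)
  fin_cases i
  · exact (Real.continuous_sin.comp continuous_fst).mul (Real.continuous_cos.comp continuous_snd)
  · exact (Real.continuous_sin.comp continuous_fst).mul (Real.continuous_sin.comp continuous_snd)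
  · exact Real.continuous_cos.comp continuous_fst

/-- the parametrisation of the ball -/
def SphB_Phi (y : E3) : E3 := y 0 • sp (y 1) (y 2)

/-- the derivative matrix -/
def SphB_M (y : E3) : Matrix (Fin 3) (Fin 3) ℝ :=
  !![Real.sin (y 1) * Real.cos (y 2), y 0 * (Real.cos (y 1) * Real.cos (y 2)),
      -(y 0 * (Real.sin (y 1) * Real.sin (y 2)));
    Real.sin (y 1) * Real.sin (y 2), y 0 * (Real.cos (y 1) * Real.sin (y 2)),
      y 0 * (Real.sin (y 1) * Real.cos (y 2));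
    Real.cos (y 1), -(y 0 * Real.sin (y 1)), 0]

/-- the derivative -/
def SphB_D (y : E3) : E3 →L[ℝ] E3 :=
  LinearMap.toContinuousLinearMap
    (Matrix.toLin (PiLp.basisFun 2 ℝ (Fin 3)) (PiLp.basisFun 2 ℝ (Fin 3)) (SphB_M y))

theorem SphB_D_det (y : E3) : (SphB_D y).det = y 0 ^ 2 * Real.sin (y 1) := by
  unfold SphB_D
  rw [LinearMap.det_toContinuousLinearMap, LinearMap.det_toLin, Matrix.det_fin_three]
  simp only [SphB_M, Matrix.of_apply, Matrix.cons_val', Matrix.cons_val_zero, Matrix.cons_val_one,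
    Matrix.cons_val]
  have h1 := Real.sin_sq_add_cos_sq (y 1)
  have h2 := Real.sin_sq_add_cos_sq (y 2)
  generalize Real.sin (y 1) = a at *
  generalize Real.cos (y 1) = b at *
  generalize Real.sin (y 2) = c at *
  generalize Real.cos (y 2) = d at *
  linear_combination (y 0 ^ 2 * a * (c ^ 2 + d ^ 2)) * h1 + (y 0 ^ 2 * a) * h2

theorem SphB_hasFDerivAt (y : E3) : HasFDerivAt SphB_Phi (SphB_D y) y := by
  have hc : ∀ i : Fin 3, HasFDerivAt (fun z : E3 => z i) (EuclideanSpace.proj i : E3 →L[ℝ] ℝ) y :=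
    fun i => (EuclideanSpace.proj i : E3 →L[ℝ] ℝ).hasFDerivAt
  rw [← hasFDerivWithinAt_univ, hasFDerivWithinAt_euclidean]
  intro i
  rw [hasFDerivWithinAt_univ]
  fin_cases i
  · convert! ((hc 0).mul ((hc 1).sin.mul (hc 2).cos)) using 1
    · ext v
      simp [SphB_D, SphB_M, Matrix.toLin_apply, Matrix.mulVec, dotProduct, Fin.sum_univ_three]
      ring
  · convert! ((hc 0).mul ((hc 1).sin.mul (hc 2).sin)) using 1
    · ext v
      simp [SphB_D, SphB_M, Matrix.toLin_apply, Matrix.mulVec, dotProduct, Fin.sum_univ_three]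
      ring
  · convert! ((hc 0).mul ((hc 1).cos)) using 1
    · ext v
      simp [SphB_D, SphB_M, Matrix.toLin_apply, Matrix.mulVec, dotProduct, Fin.sum_univ_three]
      ring

/-- the parameter domain -/
def SphB_B : Set E3 := {y | y 0 ∈ Ioc (0 : ℝ) 1 ∧ y 1 ∈ Ioo (0 : ℝ) Real.pi ∧ y 2 ∈ Ioo (-Real.pi) Real.pi}

theorem SphB_injOn : InjOn SphB_Phi SphB_B := by
  intro y hy y' hy' h
  obtain ⟨h0, h1, h2⟩ := hy
  obtain ⟨h0', h1', h2'⟩ := hy'
  have e0 := congrArg (fun z : E3 => z 0) h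
  have e1 := congrArg (fun z : E3 => z 1) h
  have e2 := congrArg (fun z : E3 => z 2) h
  simp only [SphB_Phi, sp, PiLp.smul_apply, smul_eq_mul, PiLp.toLp_apply, Matrix.cons_val_zero, Matrix.cons_val_one,
    Matrix.cons_val] at e0 e1 e2
  have s1 := Real.sin_pos_of_mem_Ioo h1
  have s1' := Real.sin_pos_of_mem_Ioo h1'
  have t1 : (y 0 * Real.sin (y 1), y 2) ∈ polarCoord.target :=
    ⟨mul_pos h0.1 s1, h2⟩
  have t1' : (y' 0 * Real.sin (y' 1), y' 2) ∈ polarCoord.target :=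
    ⟨mul_pos h0'.1 s1', h2'⟩
  have q1 : polarCoord.symm (y 0 * Real.sin (y 1), y 2) = polarCoord.symm (y' 0 * Real.sin (y' 1), y' 2) := by
    rw [polarCoord_symm_apply, polarCoord_symm_apply]
    ext
    · show y 0 * Real.sin (y 1) * Real.cos (y 2) = y' 0 * Real.sin (y' 1) * Real.cos (y' 2)
      linarith
    · show y 0 * Real.sin (y 1) * Real.sin (y 2) = y' 0 * Real.sin (y' 1) * Real.sin (y' 2)
      linarith
  have q2 := polarCoord.symm.injOn t1 t1' q1
  have q3 : y 0 * Real.sin (y 1) = y' 0 * Real.sin (y' 1) := congrArg Prod.fst q2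
  have q4 : y 2 = y' 2 := congrArg Prod.snd q2
  have hpi := Real.pi_pos
  have t2 : (y 0, y 1) ∈ polarCoord.target := ⟨h0.1, ⟨by linarith [h1.1], h1.2⟩⟩
  have t2' : (y' 0, y' 1) ∈ polarCoord.target := ⟨h0'.1, ⟨by linarith [h1'.1], h1'.2⟩⟩
  have q5 : polarCoord.symm (y 0, y 1) = polarCoord.symm (y' 0, y' 1) := by
    rw [polarCoord_symm_apply, polarCoord_symm_apply]
    ext
    · exact e2
    · exact q3
  have q6 := polarCoord.symm.injOn t2 t2' q5
  have q7 : y 0 = y' 0 := congrArg Prod.fst q6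
  have q8 : y 1 = y' 1 := congrArg Prod.snd q6
  ext i
  fin_cases i
  · exact q7
  · exact q8
  · exact q4

theorem SphB_image_sub : SphB_Phi '' SphB_B ⊆ closedBall (0 : E3) 1 \ {0} := by
  rintro x ⟨y, ⟨h0, h1, h2⟩, rfl⟩
  have hn : ‖SphB_Phi y‖ = y 0 := by
    rw [SphB_Phi, norm_smul, SphB_sp_norm, mul_one, Real.norm_eq_abs, abs_of_pos h0.1]
  refine ⟨?_, ?_⟩
  · rw [mem_closedBall_zero_iff, hn]
    exact h0.2
  · intro h
    rw [mem_singleton_iff] at h
    rw [h, norm_zero] at hn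
    linarith [h0.1]

theorem SphB_sub_image : (closedBall (0 : E3) 1 \ {0}) \ (SphB_Phi '' SphB_B) ⊆ {x : E3 | x 1 = 0} := by
  rintro x ⟨⟨hx1, hx0⟩, hx⟩
  by_contra hne
  have hne : x 1 ≠ 0 := hne
  apply hx
  rw [mem_closedBall_zero_iff] at hx1
  have hs1 : (x 0, x 1) ∈ polarCoord.source := by
    rw [polarCoord_source]
    exact Or.inr hne
  have ht1 := polarCoord.map_source hs1
  have hl1 := polarCoord.left_inv hs1
  generalize polarCoord (x 0, x 1) = p at ht1 hl1
  obtain ⟨r, φ⟩ := p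
  obtain ⟨hr, hφ⟩ := ht1
  have hr : 0 < r := hr
  rw [polarCoord_symm_apply] at hl1
  have a0 : r * Real.cos φ = x 0 := congrArg Prod.fst hl1
  have a1 : r * Real.sin φ = x 1 := congrArg Prod.snd hl1
  have hs2 : (x 2, r) ∈ polarCoord.source := by
    rw [polarCoord_source]
    exact Or.inr hr.ne'
  have ht2 := polarCoord.map_source hs2
  have hl2 := polarCoord.left_inv hs2
  generalize polarCoord (x 2, r) = p at ht2 hl2
  obtain ⟨ρ, θ⟩ := p
  obtain ⟨hρ, hθ⟩ := ht2
  have hρ : 0 < ρ := hρ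
  rw [polarCoord_symm_apply] at hl2
  have b0 : ρ * Real.cos θ = x 2 := congrArg Prod.fst hl2
  have b1 : ρ * Real.sin θ = r := congrArg Prod.snd hl2
  have hsin : 0 < Real.sin θ := by
    by_contra hcon
    push Not at hcon
    nlinarith
  have hθ0 : 0 < θ := by
    by_contra hcon
    push Not at hcon
    have := Real.sin_nonpos_of_nonpos_of_neg_pi_le hcon hθ.1.le
    linarith
  have hxe : SphB_Phi !₂[ρ, θ, φ] = x := by
    ext i
    fin_cases i
    · show ρ * (Real.sin θ * Real.cos φ) = x 0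
      rw [← a0, ← b1]
      ring
    · show ρ * (Real.sin θ * Real.sin φ) = x 1
      rw [← a1, ← b1]
      ring
    · show ρ * Real.cos θ = x 2
      exact b0
  have hn : ‖x‖ = ρ := by
    rw [← hxe, SphB_Phi, norm_smul, SphB_sp_norm, mul_one, Real.norm_eq_abs]
    exact abs_of_pos hρ
  exact ⟨!₂[ρ, θ, φ], ⟨⟨hρ, by show ρ ≤ 1; rw [← hn]; exact hx1⟩, ⟨hθ0, hθ.2⟩, hφ⟩, hxe⟩

theorem SphB_null : volume {x : E3 | x 1 = 0} = 0 := by
  have h1 : {x : E3 | x 1 = 0} = (LinearMap.ker (EuclideanSpace.proj 1 : E3 →L[ℝ] ℝ).toLinearMap : Set E3) := by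
    ext x
    simp
  rw [h1]
  apply Measure.addHaar_submodule
  rw [Ne, LinearMap.ker_eq_top]
  intro h
  have h2 := congrArg (fun T : E3 →ₗ[ℝ] ℝ => T (EuclideanSpace.single 1 1)) h
  simp at h2

/-- the coordinates as a measure preserving map -/
def SphB_e : E3 ≃ᵐ ℝ × (ℝ × ℝ) :=
  ((MeasurableEquiv.toLp 2 (Fin 3 → ℝ)).symm.trans
    (MeasurableEquiv.piFinSuccAbove (fun _ : Fin 3 => ℝ) 0)).trans
    (MeasurableEquiv.prodCongr (MeasurableEquiv.refl ℝ) MeasurableEquiv.finTwoArrow)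

theorem SphB_e_apply (y : E3) : SphB_e y = (y 0, (y 1, y 2)) := rfl

theorem SphB_e_mp : MeasurePreserving SphB_e volume (volume.prod (volume.prod volume)) := by
  refine MeasurePreserving.trans (MeasurePreserving.trans
    (EuclideanSpace.volume_preserving_symm_measurableEquiv_toLp (Fin 3))
    (volume_preserving_piFinSuccAbove (fun _ : Fin 3 => ℝ) 0)) ?_
  exact (MeasurePreserving.id volume).prod (volume_preserving_finTwoArrow ℝ)

theorem SphB_B_eq : SphB_B = SphB_e ⁻¹' (Ioc (0 : ℝ) 1 ×ˢ (Ioo (0 : ℝ) Real.pi ×ˢ Ioo (-Real.pi) Real.pi)) := by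
  ext y
  rfl

theorem SphB_meas : MeasurableSet SphB_B := by
  rw [SphB_B_eq]
  exact SphB_e.measurable (measurableSet_Ioc.prod (measurableSet_Ioo.prod measurableSet_Ioo))

/-- Archimedes.  PROOF: `radial_integral`, then `x = (x1, x2, x3)`: polar coordinates in the plane
`(x1, x2)` (`integral_comp_polarCoord_symm`), then polar coordinates in the half plane `(x3, r)`,
`r > 0`, `x3 = rho cos θ`, `r = rho sin θ`; the radial integral is `∫ rho^2 = 1/3`.
Alternative: both sides are linear functionals on polynomials that kill all `L i p` (integrate by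
parts in `θ`, `φ`), give `1` on `1`, hence agree on polynomials by the recursion `EE_homog` of
`Dec.lean`; then Stone-Weierstrass. -/
theorem av_spherical {f : E3 → ℝ} (hf : ContinuousOn f (sphere 0 1)) :
    av f = 1 / (4 * Real.pi) *
      ∫ θ in (0 : ℝ)..Real.pi, ∫ φ in (0 : ℝ)..(2 * Real.pi), f (sp θ φ) * Real.sin θ := by
  have hfs : Continuous fun q : ℝ × ℝ => f (sp q.1 q.2) :=
    hf.comp_continuous SphB_sp_cont fun q => by
      rw [mem_sphere_zero_iff_norm]
      exact SphB_sp_norm _ _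
  have hg : Continuous fun q : ℝ × ℝ => f (sp q.1 q.2) * Real.sin q.1 :=
    hfs.mul (Real.continuous_sin.comp continuous_fst)
  have h1 : ∫ x in closedBall (0 : E3) 1 \ {0}, f ((‖x‖)⁻¹ • x) =
      ∫ x in SphB_Phi '' SphB_B, f ((‖x‖)⁻¹ • x) := by
    apply setIntegral_congr_set
    have h2 : SphB_Phi '' SphB_B ≤ᵐ[volume] (closedBall (0 : E3) 1 \ {0} : Set E3) :=
      LE.le.eventuallyLE SphB_image_sub
    have h3 : (closedBall (0 : E3) 1 \ {0} : Set E3) ≤ᵐ[volume] SphB_Phi '' SphB_B := by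
      rw [ae_le_set]
      exact measure_mono_null SphB_sub_image SphB_null
    exact h3.antisymm h2
  have h4 : ∫ x in SphB_Phi '' SphB_B, f ((‖x‖)⁻¹ • x) =
      ∫ y in SphB_B, (y 0 ^ 2) * (f (sp (y 1) (y 2)) * Real.sin (y 1)) := by
    rw [integral_image_eq_integral_abs_det_fderiv_smul volume SphB_meas
      (fun y _ => (SphB_hasFDerivAt y).hasFDerivWithinAt) SphB_injOn]
    apply setIntegral_congr_fun SphB_meas
    intro y hy
    obtain ⟨h0, h1, h2⟩ := hy
    have hn : ‖SphB_Phi y‖ = y 0 := by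
      rw [SphB_Phi, norm_smul, SphB_sp_norm, mul_one, Real.norm_eq_abs, abs_of_pos h0.1]
    have hne : y 0 ≠ 0 := h0.1.ne'
    show |(SphB_D y).det| • f ((‖SphB_Phi y‖)⁻¹ • SphB_Phi y) = _
    have s1 := Real.sin_pos_of_mem_Ioo h1
    rw [SphB_D_det, abs_of_nonneg (by positivity), hn, SphB_Phi, smul_smul, inv_mul_cancel₀ hne, one_smul,
      smul_eq_mul]
    ring
  have h5 : ∫ y in SphB_B, (y 0 ^ 2) * (f (sp (y 1) (y 2)) * Real.sin (y 1)) =
      (∫ ρ in Ioc (0 : ℝ) 1, ρ ^ 2) * ∫ q in Ioo (0 : ℝ) Real.pi ×ˢ Ioo (-Real.pi) Real.pi,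
        f (sp q.1 q.2) * Real.sin q.1 ∂(volume.prod volume) := by
    rw [SphB_B_eq, ← setIntegral_prod_mul, ← SphB_e_mp.setIntegral_preimage_emb SphB_e.measurableEmbedding]
    rfl
  have h6 : ∫ ρ in Ioc (0 : ℝ) 1, ρ ^ 2 = 1 / 3 := by
    rw [← intervalIntegral.integral_of_le zero_le_one, integral_pow]
    norm_num
  have hint : IntegrableOn (fun q : ℝ × ℝ => f (sp q.1 q.2) * Real.sin q.1)
      (Ioo (0 : ℝ) Real.pi ×ˢ Ioo (-Real.pi) Real.pi) (volume.prod volume) := by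
    have h7 : IntegrableOn (fun q : ℝ × ℝ => f (sp q.1 q.2) * Real.sin q.1)
      (Icc (0 : ℝ) Real.pi ×ˢ Icc (-Real.pi) Real.pi) (volume.prod volume) :=
      hg.continuousOn.integrableOn_compact (isCompact_Icc.prod isCompact_Icc)
    exact h7.mono_set (prod_mono Ioo_subset_Icc_self Ioo_subset_Icc_self)
  have h8 := radial_integral hf
  rw [h1, h4, h5, h6, setIntegral_prod _ hint] at h8
  have h9 : ∫ θ in Ioo (0 : ℝ) Real.pi, ∫ φ in Ioo (-Real.pi) Real.pi, f (sp θ φ) * Real.sin θ =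
      ∫ θ in (0 : ℝ)..Real.pi, ∫ φ in (0 : ℝ)..(2 * Real.pi), f (sp θ φ) * Real.sin θ := by
    rw [intervalIntegral.integral_of_le Real.pi_pos.le, integral_Ioc_eq_integral_Ioo]
    congr 1
    funext θ
    have hper : Function.Periodic (fun φ => f (sp θ φ) * Real.sin θ) (2 * Real.pi) := by
      intro φ
      show f (sp θ (φ + 2 * Real.pi)) * Real.sin θ = f (sp θ φ) * Real.sin θ
      unfold sp
      rw [Real.cos_add_two_pi, Real.sin_add_two_pi]
    have h10 := hper.intervalIntegral_add_eq (-Real.pi) 0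
    rw [zero_add] at h10
    rw [← h10, ← integral_Ioc_eq_integral_Ioo, ← intervalIntegral.integral_of_le (by linarith [Real.pi_pos])]
    congr 1
    ring
  rw [← h9]
  have h11 : (∫ θ in Ioo (0 : ℝ) Real.pi, ∫ φ in Ioo (-Real.pi) Real.pi, f (sp θ φ) * Real.sin θ) =
      4 * Real.pi * av f := by
    have h12 : 1 / 3 * (∫ θ in Ioo (0 : ℝ) Real.pi, ∫ φ in Ioo (-Real.pi) Real.pi, f (sp θ φ) * Real.sin θ) =
      4 * Real.pi / 3 * av f := h8
    linarith
  rw [h11]
  have hpi := Real.pi_pos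
  field_simp

end

end Pool.Agent.Lib.MP_dabcc9_gt
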