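import Mathlib

/-! Definitions used in the statement on the Blaschke diagram. -/

open MeasureTheory Metric Set

namespace Pool.Agent.Lib.MP_dabcc9_gt

noncomputable section

/-- Euclidean three-space. -/
abbrev E3 := EuclideanSpace ℝ (Fin 3)

/-- Average over the unit sphere of three-space with respect to its surface measure. -/
def av (f : E3 → ℝ) : ℝ := ⨍ x : sphere (0 : E3) 1, f x ∂(volume : Measure E3).toSphere

/-- Support function of a set. -/
def supp (K : Set E3) (x : E3) : ℝ := sSup ((fun y : E3 => inner ℝ y x) '' K)

/-- Mean width: the average over unit vectors `x` of the width in direction `x`. -/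
def meanWidth (K : Set E3) : ℝ := av fun x => supp K x + supp K (-x)

/-- The integral of mean curvature of a convex body, `2 pi` times its mean width. -/
def curvM (K : Set E3) : ℝ := 2 * Real.pi * meanWidth K

/-- Volume. -/
def vol (K : Set E3) : ℝ := (volume K).toReal

/-- Surface area of a convex body: the right derivative at `0` of the volume of the
outer parallel body at distance `t`. -/
def surf (K : Set E3) : ℝ := derivWithin (fun t => vol (cthickening t K)) (Ici 0) 0

/-- First coordinate in the Blaschke diagram. -/
def bX (K : Set E3) : ℝ := 4 * Real.pi * surf K / curvM K ^ 2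

/-- Second coordinate in the Blaschke diagram. -/
def bY (K : Set E3) : ℝ := 48 * Real.pi ^ 2 * vol K / curvM K ^ 3

/-- A convex body with more than one point. -/
def IsBody (K : Set E3) : Prop := IsCompact K ∧ Convex ℝ K ∧ K.Nontrivial

end

end Pool.Agent.Lib.MP_dabcc9_gt
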