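import Pool.Agent.Lib.MP_dabcc9_gt.Basic

/-! JOB B3. Two explicit trigonometric functions. -/

open MeasureTheory Metric Set

namespace Pool.Agent.Lib.MP_dabcc9_gt

noncomputable section

/-- Test function for the upper bound. -/
def fp (t : ℝ) : ℝ := 31 / 160 * (Real.sin t + (Real.pi / 2 - t) * Real.cos t)
  - 1 / 2 * Real.sin t * (1 + Real.cos t) + 15 / 32 * Real.sin t ^ 3 + 149 / 500 * Real.cos t

def fp' (t : ℝ) : ℝ := -(31 / 160 * (Real.pi / 2 - t) * Real.sin t)
  - 1 / 2 * (Real.cos t + Real.cos t ^ 2 - Real.sin t ^ 2)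
  + 45 / 32 * Real.sin t ^ 2 * Real.cos t - 149 / 500 * Real.sin t

/-- Test function for the lower bound. -/
def fm (t : ℝ) : ℝ := 9 / 160 * (Real.sin t + (Real.pi / 2 - t) * Real.cos t)
  + 1 / 2 * Real.sin t * (1 + Real.cos t) - 15 / 32 * Real.sin t ^ 3 - 2 / 25 * Real.cos t

def fm' (t : ℝ) : ℝ := -(9 / 160 * (Real.pi / 2 - t) * Real.sin t)
  + 1 / 2 * (Real.cos t + Real.cos t ^ 2 - Real.sin t ^ 2)
  - 45 / 32 * Real.sin t ^ 2 * Real.cos t + 2 / 25 * Real.sin t

private theorem supA_lin (t : ℝ) : HasDerivAt (fun t : ℝ => Real.pi / 2 - t) (-1) t := by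
  exact (hasDerivAt_id' t).const_sub (Real.pi / 2)

theorem hasDerivAt_fp (t : ℝ) : HasDerivAt fp (fp' t) t := by
  have hs := Real.hasDerivAt_sin t
  have hc := Real.hasDerivAt_cos t
  have hl := supA_lin t
  have h := ((((hs.add (hl.mul hc)).const_mul (31 / 160 : ℝ)).sub
    ((hs.const_mul (1 / 2 : ℝ)).mul (hc.const_add 1))).add ((hs.pow 3).const_mul (15 / 32 : ℝ))).add
    (hc.const_mul (149 / 500 : ℝ))
  refine h.congr_deriv ?_
  unfold fp'
  norm_num
  ring

theorem hasDerivAt_fp' (t : ℝ) : HasDerivAt fp' (1 / 2 * ((15 / 2 * Real.cos t ^ 2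
    + 3 * Real.cos t - 11 / 10) * Real.sin t) - fp t) t := by
  have hs := Real.hasDerivAt_sin t
  have hc := Real.hasDerivAt_cos t
  have hl := supA_lin t
  have h := (((((hl.const_mul (31 / 160 : ℝ)).mul hs).neg).sub
    (((hc.add (hc.pow 2)).sub (hs.pow 2)).const_mul (1 / 2 : ℝ))).add
    (((hs.pow 2).const_mul (45 / 32 : ℝ)).mul hc)).sub (hs.const_mul (149 / 500 : ℝ))
  refine h.congr_deriv ?_
  have h2 := Real.sin_sq_add_cos_sq t
  unfold fp
  norm_num
  linear_combination (-15 / 16 : ℝ) * Real.sin t * h2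

theorem hasDerivAt_fm (t : ℝ) : HasDerivAt fm (fm' t) t := by
  have hs := Real.hasDerivAt_sin t
  have hc := Real.hasDerivAt_cos t
  have hl := supA_lin t
  have h := ((((hs.add (hl.mul hc)).const_mul (9 / 160 : ℝ)).add
    ((hs.const_mul (1 / 2 : ℝ)).mul (hc.const_add 1))).sub ((hs.pow 3).const_mul (15 / 32 : ℝ))).sub
    (hc.const_mul (2 / 25 : ℝ))
  refine h.congr_deriv ?_
  unfold fm'
  norm_num
  ring

theorem hasDerivAt_fm' (t : ℝ) : HasDerivAt fm' (-(1 / 2 * ((15 / 2 * Real.cos t ^ 2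
    + 3 * Real.cos t - 21 / 10) * Real.sin t)) - fm t) t := by
  have hs := Real.hasDerivAt_sin t
  have hc := Real.hasDerivAt_cos t
  have hl := supA_lin t
  have h := (((((hl.const_mul (9 / 160 : ℝ)).mul hs).neg).add
    (((hc.add (hc.pow 2)).sub (hs.pow 2)).const_mul (1 / 2 : ℝ))).sub
    (((hs.pow 2).const_mul (45 / 32 : ℝ)).mul hc)).add (hs.const_mul (2 / 25 : ℝ))
  refine h.congr_deriv ?_
  have h2 := Real.sin_sq_add_cos_sq t
  unfold fm
  norm_num
  linear_combination (15 / 16 : ℝ) * Real.sin t * h2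

theorem fp'_ends : fp' 0 = -1 ∧ fp' Real.pi = 0 := by
  constructor
  · unfold fp'
    rw [Real.sin_zero, Real.cos_zero]
    norm_num
  · unfold fp'
    rw [Real.sin_pi, Real.cos_pi]
    norm_num

theorem fm'_ends : fm' 0 = 1 ∧ fm' Real.pi = 0 := by
  constructor
  · unfold fm'
    rw [Real.sin_zero, Real.cos_zero]
    norm_num
  · unfold fm'
    rw [Real.sin_pi, Real.cos_pi]
    norm_num

/-- `phi >= sin phi + sin^3 phi / 6` on `[0, pi/2]`: derivative
`(1 - cos)(1 - (1 + cos) cos / 2) >= 0`. -/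
theorem arc_lower (t : ℝ) (h0 : 0 ≤ t) (h1 : t ≤ Real.pi / 2) :
    Real.cos t + Real.cos t ^ 3 / 6 ≤ Real.pi / 2 - t := by
  have hd : ∀ x : ℝ, HasDerivAt (fun x : ℝ => x - Real.sin x - Real.sin x ^ 3 / 6)
      (1 - Real.cos x - 1 / 2 * Real.sin x ^ 2 * Real.cos x) x := by
    intro x
    have hs := Real.hasDerivAt_sin x
    have h := ((hasDerivAt_id x).sub hs).sub ((hs.pow 3).div_const 6)
    refine h.congr_deriv ?_
    norm_num
    ring
  have hmono : Monotone (fun x : ℝ => x - Real.sin x - Real.sin x ^ 3 / 6) := by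
    refine monotone_of_deriv_nonneg (fun x => (hd x).differentiableAt) fun x => ?_
    rw [(hd x).deriv]
    have h2 := Real.sin_sq_add_cos_sq x
    have hc1 := Real.cos_le_one x
    have hc2 := Real.neg_one_le_cos x
    have h3 : Real.sin x ^ 2 = 1 - Real.cos x ^ 2 := by linarith
    rw [h3]
    have h4 : 1 - Real.cos x - 1 / 2 * (1 - Real.cos x ^ 2) * Real.cos x =
        (1 - Real.cos x) * (1 - (1 + Real.cos x) * Real.cos x / 2) := by ring
    rw [h4]
    refine mul_nonneg (by linarith) ?_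
    nlinarith
  have h := hmono (show (0 : ℝ) ≤ Real.pi / 2 - t by linarith)
  simp only [Real.sin_zero, Real.sin_pi_div_two_sub] at h
  norm_num at h
  linarith

/-- `sin t - t cos t >= sin^3 t / 3` on `[0, pi/2]`: derivative `sin t (t - sin t cos t) >= 0`. -/
theorem arc_lower2 (t : ℝ) (h0 : 0 ≤ t) (h1 : t ≤ Real.pi / 2) :
    Real.sin t ^ 3 / 3 ≤ Real.sin t - t * Real.cos t := by
  have hd : ∀ x : ℝ, HasDerivAt (fun x : ℝ => Real.sin x - x * Real.cos x - Real.sin x ^ 3 / 3)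
      (Real.sin x * (x - Real.sin x * Real.cos x)) x := by
    intro x
    have hs := Real.hasDerivAt_sin x
    have hc := Real.hasDerivAt_cos x
    have h := (hs.sub ((hasDerivAt_id x).mul hc)).sub ((hs.pow 3).div_const 3)
    refine h.congr_deriv ?_
    norm_num
    ring
  have hpi := Real.pi_pos
  have hmono : MonotoneOn (fun x : ℝ => Real.sin x - x * Real.cos x - Real.sin x ^ 3 / 3)
      (Icc 0 (Real.pi / 2)) := by
    refine monotoneOn_of_deriv_nonneg (convex_Icc _ _)
      (fun x _ => (hd x).continuousAt.continuousWithinAt)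
      (fun x _ => (hd x).differentiableAt.differentiableWithinAt) fun x hx => ?_
    rw [interior_Icc] at hx
    rw [(hd x).deriv]
    have hs0 : 0 ≤ Real.sin x := Real.sin_nonneg_of_nonneg_of_le_pi hx.1.le (by linarith [hx.2])
    have hs1 : Real.sin x ≤ x := Real.sin_le hx.1.le
    have hc1 := Real.cos_le_one x
    have h3 : Real.sin x * Real.cos x ≤ Real.sin x := by nlinarith
    exact mul_nonneg hs0 (by linarith)
  have h := hmono (show (0 : ℝ) ∈ Icc 0 (Real.pi / 2) from ⟨le_rfl, by linarith⟩) ⟨h0, h1⟩ h0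
  simp only [Real.sin_zero] at h
  norm_num at h
  linarith

/-- PROOF.  `S = sin t`, `c = cos t`.
For `t <= pi/2`: by `arc_lower`, `fp t >= S B + D` with `B = 31/160 - 1/2 + 15/32 - c/2 - 15/32 c^2`,
`D = 149/500 c + 31/160 (c^2 + c^4/6)`; if `B >= 0` done; else `S <= 5/4 - 3/4 c` (tangent line of the
circle at `(4/5, 3/5)`), and `D + B (5/4 - 3/4 c) >= 0` on `[0, 1]` (minimum about `0.006`).
For `t >= pi/2`, `s = pi - t`: by `arc_lower2`,
`fp t >= (31/160 pi/2 - 149/500) c + 31/480 S^3 - 1/2 S (1 - c) + 15/32 S^3` with `c = cos s >= 0`,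
and `S (1 - c) = S^3/(1 + c) <= S^3`. Use `pi > 3.1415`. -/
theorem fp_nonneg (t : ℝ) (h0 : 0 ≤ t) (h1 : t ≤ Real.pi) : 0 ≤ fp t := by
  have hpi := Real.pi_gt_d2
  have hpi0 := Real.pi_pos
  rcases le_total t (Real.pi / 2) with ht | ht
  · have hS0 : 0 ≤ Real.sin t := Real.sin_nonneg_of_nonneg_of_le_pi h0 h1
    have hc0 : 0 ≤ Real.cos t := Real.cos_nonneg_of_mem_Icc ⟨by linarith, ht⟩
    have h2 := Real.sin_sq_add_cos_sq t
    have h3 := arc_lower t h0 ht
    unfold fp
    generalize Real.sin t = S at *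
    generalize Real.cos t = c at *
    generalize Real.pi / 2 - t = φ at *
    have hc1 : c ≤ 1 := by nlinarith
    have h4 : (c + c ^ 3 / 6) * c ≤ φ * c := mul_le_mul_of_nonneg_right h3 hc0
    have h5 : S ≤ 5 / 4 - 3 / 4 * c := by nlinarith [sq_nonneg (S - 4 / 5), sq_nonneg (c - 3 / 5)]
    set B : ℝ := 13 / 80 - c / 2 - 15 / 32 * c ^ 2 with hB
    set D : ℝ := 149 / 500 * c + 31 / 160 * (c ^ 2 + c ^ 4 / 6) with hD
    have hD0 : 0 ≤ D := by positivity
    have h6 : S ^ 3 = S * (1 - c ^ 2) := by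
      have : S ^ 2 = 1 - c ^ 2 := by linarith
      calc S ^ 3 = S * S ^ 2 := by ring
        _ = S * (1 - c ^ 2) := by rw [this]
    have h7 : 0 ≤ S * B + D := by
      rcases le_total 0 B with hB0 | hB0
      · exact add_nonneg (mul_nonneg hS0 hB0) hD0
      · have h8 : (5 / 4 - 3 / 4 * c) * B ≤ S * B := mul_le_mul_of_nonpos_right h5 hB0
        have h9 : 0 ≤ D + (5 / 4 - 3 / 4 * c) * B := by
          rw [hB, hD]
          nlinarith [mul_nonneg hc0 (sq_nonneg (c - 6433 / 10000)), sq_nonneg (c - 6433 / 10000),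
            sq_nonneg (c * (c - 6433 / 10000))]
        linarith
    rw [h6]
    rw [hB, hD] at h7
    nlinarith [h4, h7]
  · have hs : Real.sin t = Real.sin (Real.pi - t) := (Real.sin_pi_sub t).symm
    have hc : Real.cos t = -Real.cos (Real.pi - t) := by rw [Real.cos_pi_sub, neg_neg]
    have hS0 : 0 ≤ Real.sin (Real.pi - t) :=
      Real.sin_nonneg_of_nonneg_of_le_pi (by linarith) (by linarith)
    have hc0 : 0 ≤ Real.cos (Real.pi - t) := Real.cos_nonneg_of_mem_Icc ⟨by linarith, by linarith⟩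
    have h2 := Real.sin_sq_add_cos_sq (Real.pi - t)
    have h3 := arc_lower2 (Real.pi - t) (by linarith) (by linarith)
    have hlin : Real.pi / 2 - t = (Real.pi - t) - Real.pi / 2 := by ring
    unfold fp
    rw [hs, hc, hlin]
    generalize Real.sin (Real.pi - t) = S at *
    generalize Real.cos (Real.pi - t) = c at *
    generalize Real.pi - t = s at *
    have hc1 : c ≤ 1 := by nlinarith
    have h4 : S * (1 - c) ≤ S ^ 3 := by
      have h5 : 1 - c ≤ S ^ 2 := by nlinarith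
      calc S * (1 - c) ≤ S * S ^ 2 := mul_le_mul_of_nonneg_left h5 hS0
        _ = S ^ 3 := by ring
    have h6 : 0 ≤ S ^ 3 := by positivity
    have h7 : 0 ≤ (31 / 160 * (Real.pi / 2) - 149 / 500) * c := mul_nonneg (by linarith) hc0
    nlinarith [h3, h4, h6, h7]

/-- PROOF.  For `t <= pi/2`: by `arc_lower2`,
`fm t >= (9/160 pi/2 - 2/25) c + 3/160 S^3 + 1/2 S (1 + c) - 15/32 S^3 >= 0`.
For `t >= pi/2`, `s = pi - t`, `c = cos s`: by `arc_lower`, `fm t >= S B + D` with
`B = 9/160 + 1/2 - 15/32 - c/2 + 15/32 c^2`, `D = 2/25 c + 9/160 c^2`; if `B < 0` then `S B >= B`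
and `B + D = 0.0875 - 0.42 c + 0.525 c^2 > 0`. -/
theorem fm_nonneg (t : ℝ) (h0 : 0 ≤ t) (h1 : t ≤ Real.pi) : 0 ≤ fm t := by
  have hpi := Real.pi_gt_d2
  have hpi0 := Real.pi_pos
  rcases le_total t (Real.pi / 2) with ht | ht
  · have hS0 : 0 ≤ Real.sin t := Real.sin_nonneg_of_nonneg_of_le_pi h0 h1
    have hS1 : Real.sin t ≤ 1 := Real.sin_le_one t
    have hc0 : 0 ≤ Real.cos t := Real.cos_nonneg_of_mem_Icc ⟨by linarith, ht⟩
    have h3 := arc_lower2 t h0 ht
    unfold fm
    generalize Real.sin t = S at *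
    generalize Real.cos t = c at *
    have h4 : S ^ 3 ≤ S := by
      have h5 : S ^ 2 ≤ 1 := by nlinarith
      calc S ^ 3 = S * S ^ 2 := by ring
        _ ≤ S * 1 := mul_le_mul_of_nonneg_left h5 hS0
        _ = S := mul_one S
    have h6 : 0 ≤ S ^ 3 := by positivity
    have h7 : 0 ≤ (9 / 160 * (Real.pi / 2) - 2 / 25) * c := mul_nonneg (by linarith) hc0
    have h8 : 0 ≤ S * c := mul_nonneg hS0 hc0
    nlinarith [h3, h4, h6, h7, h8]
  · have hs : Real.sin t = Real.sin (Real.pi - t) := (Real.sin_pi_sub t).symm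
    have hc : Real.cos t = -Real.cos (Real.pi - t) := by rw [Real.cos_pi_sub, neg_neg]
    have hS0 : 0 ≤ Real.sin (Real.pi - t) :=
      Real.sin_nonneg_of_nonneg_of_le_pi (by linarith) (by linarith)
    have hS1 : Real.sin (Real.pi - t) ≤ 1 := Real.sin_le_one _
    have hc0 : 0 ≤ Real.cos (Real.pi - t) := Real.cos_nonneg_of_mem_Icc ⟨by linarith, by linarith⟩
    have h2 := Real.sin_sq_add_cos_sq (Real.pi - t)
    have h3 := arc_lower (Real.pi - t) (by linarith) (by linarith)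
    have hlin : Real.pi / 2 - t = -(Real.pi / 2 - (Real.pi - t)) := by ring
    unfold fm
    rw [hs, hc, hlin]
    generalize Real.sin (Real.pi - t) = S at *
    generalize Real.cos (Real.pi - t) = c at *
    generalize Real.pi / 2 - (Real.pi - t) = φ at *
    have h4 : c * c ≤ φ * c := by
      refine mul_le_mul_of_nonneg_right ?_ hc0
      have : 0 ≤ c ^ 3 := by positivity
      linarith
    set B : ℝ := 7 / 80 - c / 2 + 15 / 32 * c ^ 2 with hB
    set D : ℝ := 2 / 25 * c + 9 / 160 * c ^ 2 with hD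
    have hD0 : 0 ≤ D := by positivity
    have h6 : S ^ 3 = S * (1 - c ^ 2) := by
      have : S ^ 2 = 1 - c ^ 2 := by linarith
      calc S ^ 3 = S * S ^ 2 := by ring
        _ = S * (1 - c ^ 2) := by rw [this]
    have h7 : 0 ≤ S * B + D := by
      rcases le_total 0 B with hB0 | hB0
      · exact add_nonneg (mul_nonneg hS0 hB0) hD0
      · have h8 : 1 * B ≤ S * B := mul_le_mul_of_nonpos_right hS1 hB0
        have h9 : 0 ≤ D + 1 * B := by
          rw [hB, hD]
          nlinarith [sq_nonneg (c - 2 / 5)]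
        linarith
    rw [h6]
    rw [hB, hD] at h7
    nlinarith [h4, h7]

end

end Pool.Agent.Lib.MP_dabcc9_gt
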