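import Pool.Agent.Lib.MP_dabcc9_gt.SphC

/-! JOB C1. Zonal kernels are polynomials. -/

open MeasureTheory Metric Set MvPolynomial

namespace Pool.Agent.Lib.MP_dabcc9_gt

noncomputable section

/-- `(n+1) * average over y of f y ((1 + <x,y>)/2)^n`. -/
def zon (n : ℕ) (f : E3 → ℝ) (x : E3) : ℝ :=
  ((n : ℝ) + 1) * av fun y => f y * ((1 + inner ℝ x y) / 2) ^ n

/-- The kernel integrates to one: `av_height` and `∫_{-1}^1 ((1+z)/2)^n dz = 2/(n+1)`. -/
theorem zon_one (n : ℕ) (x : E3) (hx : ‖x‖ = 1) : zon n (fun _ => 1) x = 1 := by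
  have h1 : av (fun y => (1 : ℝ) * ((1 + inner ℝ x y) / 2) ^ n) =
      av (fun y => (fun z : ℝ => ((1 + z) / 2) ^ n) (inner ℝ y x)) := by
    refine av_congr fun y _ => ?_
    simp only [one_mul, real_inner_comm]
  have hn : (n : ℝ) + 1 ≠ 0 := by positivity
  have h2 : ∫ z in (-1 : ℝ)..1, ((1 + z) / 2) ^ n = 2 / ((n : ℝ) + 1) := by
    have hd : ∀ z ∈ uIcc (-1 : ℝ) 1, HasDerivAt
        (fun z : ℝ => 2 / ((n : ℝ) + 1) * ((1 + z) / 2) ^ (n + 1)) (((1 + z) / 2) ^ n) z := by
      intro z _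
      have h3 : HasDerivAt (fun z : ℝ => (1 + z) / 2) (1 / 2) z :=
        ((hasDerivAt_id z).const_add 1).div_const 2
      have h4 := (h3.pow (n + 1)).const_mul (2 / ((n : ℝ) + 1))
      refine h4.congr_deriv ?_
      simp only [Nat.add_sub_cancel]
      push_cast
      field_simp
    rw [intervalIntegral.integral_eq_sub_of_hasDerivAt hd]
    · norm_num
    · exact Continuous.intervalIntegrable (by fun_prop) _ _
  unfold zon
  rw [h1, av_height (F := fun z : ℝ => ((1 + z) / 2) ^ n) (by fun_prop) x hx, h2]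
  field_simp

theorem ZonA_lin {g0 g1 g2 g3 : E3 → ℝ} (h0 : Continuous g0) (h1 : Continuous g1)
    (h2 : Continuous g2) (h3 : Continuous g3) (c0 c1 c2 c3 : ℝ) :
    av (fun y => c0 * g0 y + (c1 * g1 y + (c2 * g2 y + c3 * g3 y))) =
      c0 * av g0 + (c1 * av g1 + (c2 * av g2 + c3 * av g3)) := by
  have k0 : Continuous fun y => c0 * g0 y := h0.const_mul c0
  have k1 : Continuous fun y => c1 * g1 y := h1.const_mul c1
  have k2 : Continuous fun y => c2 * g2 y := h2.const_mul c2
  have k3 : Continuous fun y => c3 * g3 y := h3.const_mul c3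
  have k23 : Continuous fun y => c2 * g2 y + c3 * g3 y := k2.add k3
  have k123 : Continuous fun y => c1 * g1 y + (c2 * g2 y + c3 * g3 y) := k1.add k23
  rw [av_add k0.continuousOn k123.continuousOn, av_add k1.continuousOn k23.continuousOn,
    av_add k2.continuousOn k3.continuousOn, av_const_mul, av_const_mul, av_const_mul, av_const_mul]

theorem ZonA_aux (n : ℕ) : ∀ (f : E3 → ℝ), Continuous f →
    ∃ p : P, ∀ x : E3, ev p x = av (fun y => f y * ((1 + inner ℝ x y) / 2) ^ n) := by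
  induction n with
  | zero =>
    intro f _
    refine ⟨C (av f), fun x => ?_⟩
    rw [ev_C]
    refine av_congr fun y _ => ?_
    rw [pow_zero, mul_one]
  | succ n ih =>
    intro f hf
    obtain ⟨p, hp⟩ := ih f hf
    have hq : ∀ i : Fin 3, ∃ q : P, ∀ x : E3,
        ev q x = av (fun y => (f y * y i) * ((1 + inner ℝ x y) / 2) ^ n) := by
      intro i
      exact ih (fun y => f y * y i) (by fun_prop)
    choose q hq using hq
    refine ⟨C (1 / 2) * p + (C (1 / 2) * (X 0 * q 0) + (C (1 / 2) * (X 1 * q 1) +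
      C (1 / 2) * (X 2 * q 2))), fun x => ?_⟩
    simp only [ev_add, ev_mul, ev_C, ev_X, hp, hq]
    have hc0 : Continuous fun y : E3 => f y * ((1 + inner ℝ x y) / 2) ^ n := by fun_prop
    have hci : ∀ i : Fin 3, Continuous fun y : E3 => (f y * y i) * ((1 + inner ℝ x y) / 2) ^ n := by
      intro i
      fun_prop
    have e : ∀ y : E3, f y * ((1 + inner ℝ x y) / 2) ^ (n + 1) =
        1 / 2 * (f y * ((1 + inner ℝ x y) / 2) ^ n) +
        ((1 / 2 * x 0) * ((f y * y 0) * ((1 + inner ℝ x y) / 2) ^ n) +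
        ((1 / 2 * x 1) * ((f y * y 1) * ((1 + inner ℝ x y) / 2) ^ n) +
        (1 / 2 * x 2) * ((f y * y 2) * ((1 + inner ℝ x y) / 2) ^ n))) := by
      intro y
      have h1 : (inner ℝ x y : ℝ) = x 0 * y 0 + x 1 * y 1 + x 2 * y 2 := inner_eq3 x y
      have h2 : f y * ((1 + inner ℝ x y) / 2) ^ (n + 1) =
          f y * ((1 + inner ℝ x y) / 2) ^ n * ((1 + (x 0 * y 0 + x 1 * y 1 + x 2 * y 2)) / 2) := by
        rw [pow_succ, ← h1]
        ring
      rw [h2]
      ring
    rw [av_congr fun y _ => e y]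
    rw [ZonA_lin hc0 (hci 0) (hci 1) (hci 2)]
    ring

/-- `zon n f` is a polynomial.  PROOF: the set of functions `F : E3 → ℝ` of the form
`x ↦ av (fun y => f y * ev q(x)...)`: expand `((1 + ∑ x_i y_i)/2)^n` with the multinomial theorem as a
finite sum of `c * monomial(x) * monomial(y)` (e.g. by induction on `n` prove: for every `n` and every
continuous `f` there is `p : P` with `ev p x = av (fun y => f y * ((1 + inner x y)/2)^n)` for ALL
`x : E3`; step: `f y ((1 + <x,y>)/2)^(n+1) = 1/2 f y (..)^n + ∑_i (x_i/2) (f y y_i) (..)^n`). -/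
theorem zon_poly (n : ℕ) (f : E3 → ℝ) (hf : Continuous f) :
    ∃ p : P, ∀ x : E3, ev p x = zon n f x := by
  obtain ⟨p, hp⟩ := ZonA_aux n f hf
  refine ⟨C ((n : ℝ) + 1) * p, fun x => ?_⟩
  rw [ev_mul, ev_C, hp]
  rfl

end

end Pool.Agent.Lib.MP_dabcc9_gt
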