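import Pool.Agent.Lib.MP_dabcc9_gt.ZonA
import Pool.Agent.Lib.MP_dabcc9_gt.RotB

/-! JOB C3. Rotation derivatives commute with zonal averages. -/

open MeasureTheory Metric Set MvPolynomial

namespace Pool.Agent.Lib.MP_dabcc9_gt

noncomputable section

/-- Rotation derivative of a function: derivative in the direction `e_i × y`. -/
def LF (i : Fin 3) (f : E3 → ℝ) (y : E3) : ℝ := fderiv ℝ f y (cr (eb i) y)

theorem ZonC_rot (i : Fin 3) (y : E3) (t : ℝ) :
    HasDerivAt (fun t => rotv i t y) (cr (eb i) (rotv i t y)) t := by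
  have h1 : HasDerivAt (fun t => Real.cos t * y (i + 1) - Real.sin t * y (i + 2))
      (-Real.sin t * y (i + 1) - Real.cos t * y (i + 2)) t :=
    ((Real.hasDerivAt_cos t).mul_const _).sub ((Real.hasDerivAt_sin t).mul_const _)
  have h2 : HasDerivAt (fun t => Real.sin t * y (i + 1) + Real.cos t * y (i + 2))
      (Real.cos t * y (i + 1) + -Real.sin t * y (i + 2)) t :=
    ((Real.hasDerivAt_sin t).mul_const _).add ((Real.hasDerivAt_cos t).mul_const _)
  have h3 := ((h1.smul_const (eb (i + 1))).const_add (y i • eb i)).add (h2.smul_const (eb (i + 2)))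
  refine h3.congr_deriv ?_
  ext k
  fin_cases i <;> fin_cases k <;> simp [cr, eb, rotv] <;> ring

theorem ZonC_cont_cr (i : Fin 3) : Continuous fun y : E3 => cr (eb i) y := by
  unfold cr
  refine (PiLp.continuous_toLp 2 _).comp ?_
  refine continuous_pi fun k => ?_
  fin_cases k <;> simp <;> fun_prop

theorem ZonC_cont_LF (i : Fin 3) {f : E3 → ℝ} (hf : ContDiff ℝ 1 f) : Continuous (LF i f) :=
  (hf.continuous_fderiv one_ne_zero).clm_apply (ZonC_cont_cr i)

theorem ZonC_cont_rotv (i : Fin 3) (t : ℝ) : Continuous fun y : E3 => rotv i t y := by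
  unfold rotv
  fun_prop

theorem ZonC_deriv (n : ℕ) (f : E3 → ℝ) (hf : ContDiff ℝ 1 f) (i : Fin 3) (x : E3) :
    HasDerivAt (fun t => zon n (fun y => f (rotv i t y)) x) (zon n (LF i f) x) 0 := by
  obtain ⟨k, hk⟩ : ∃ k : E3 → ℝ, k = fun y => ((1 + inner ℝ x y) / 2) ^ n := ⟨_, rfl⟩
  have hkc : Continuous k := by rw [hk]; fun_prop
  have hLF := ZonC_cont_LF i hf
  obtain ⟨B, hB⟩ := (isCompact_sphere (0 : E3) 1).exists_bound_of_continuousOn hLF.continuousOn
  obtain ⟨D, hD⟩ := (isCompact_sphere (0 : E3) 1).exists_bound_of_continuousOn hkc.continuousOn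
  obtain ⟨μ, hμ⟩ : ∃ μ : Measure (sphere (0 : E3) 1), μ = (volume : Measure E3).toSphere := ⟨_, rfl⟩
  have hfin : IsFiniteMeasure μ := by rw [hμ]; infer_instance
  have hint : HasDerivAt (fun t => ∫ y : sphere (0 : E3) 1, f (rotv i t y) * k y ∂μ)
      (∫ y : sphere (0 : E3) 1, LF i f (rotv i 0 y) * k y ∂μ) 0 := by
    have hc : ∀ t, Continuous fun y : sphere (0 : E3) 1 => f (rotv i t y) * k y := fun t =>
      ((hf.continuous.comp ((ZonC_cont_rotv i t).comp continuous_subtype_val)).mul
        (hkc.comp continuous_subtype_val))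
    refine (hasDerivAt_integral_of_dominated_loc_of_deriv_le
      (F := fun t (y : sphere (0 : E3) 1) => f (rotv i t y) * k y)
      (F' := fun t (y : sphere (0 : E3) 1) => LF i f (rotv i t y) * k y)
      (s := univ) (bound := fun _ => B * D) Filter.univ_mem ?_ ?_ ?_ ?_ ?_ ?_).2
    · exact Filter.Eventually.of_forall fun t => (hc t).aestronglyMeasurable
    · exact (hc 0).integrable_of_hasCompactSupport (HasCompactSupport.of_compactSpace _)
    · exact ((hLF.comp ((ZonC_cont_rotv i 0).comp continuous_subtype_val)).mul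
        (hkc.comp continuous_subtype_val)).aestronglyMeasurable
    · refine Filter.Eventually.of_forall fun y t _ => ?_
      rw [norm_mul]
      have hy : ‖(y : E3)‖ = 1 := by simpa using y.2
      refine mul_le_mul (hB _ ?_) (hD _ y.2) (norm_nonneg _) ?_
      · rw [mem_sphere_zero_iff_norm, norm_rotv, hy]
      · exact (norm_nonneg _).trans (hB _ y.2)
    · exact integrable_const _
    · refine Filter.Eventually.of_forall fun y t _ => ?_
      have h1 : HasDerivAt (fun t => f (rotv i t y)) (LF i f (rotv i t y)) t :=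
        ((hf.differentiable one_ne_zero (rotv i t y)).hasFDerivAt).comp_hasDerivAt t (ZonC_rot i y t)
      exact h1.mul_const _
  have h2 := (hint.const_smul (μ.real univ)⁻¹).const_mul ((n : ℝ) + 1)
  have e : ∀ g : E3 → ℝ, zon n g x = ((n : ℝ) + 1) * ((μ.real univ)⁻¹ • ∫ y : sphere (0 : E3) 1, g y * k y ∂μ) := by
    intro g
    unfold zon av
    rw [average_eq, hμ, hk]
  simp only [e]
  simp only [rotv_zero] at h2
  exact h2

/-- Rotation derivatives commute with the zonal average.  PROOF: by `av_comp_isometry`,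
`zon n f (rotv i t x) = zon n (fun y => f (rotv i t y)) x`; differentiate at `t = 0`: left side by
`hasDerivAt_rotv` (for the polynomial `p`), right side under the integral sign
(`d/dt f (rotv i t y) = LF i f (rotv i t y)`, continuous, bounded on the compact sphere). -/
theorem L_zon (n : ℕ) (f : E3 → ℝ) (hf : ContDiff ℝ 1 f) (p : P) (hp : ∀ x : E3, ‖x‖ = 1 →
    ev p x = zon n f x) (i : Fin 3) : ∀ x : E3, ‖x‖ = 1 → ev (L i p) x = zon n (LF i f) x := by
  intro x hx
  have h1 : ∀ t, zon n (fun y => f (rotv i t y)) x = ev p (rotv i t x) := by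
    intro t
    rw [hp _ (by rw [norm_rotv, hx])]
    obtain ⟨R, hR⟩ := exists_rot i t
    unfold zon
    congr 1
    rw [← av_comp_isometry R (fun y => f y * ((1 + inner ℝ (rotv i t x) y) / 2) ^ n)]
    simp only [← hR, LinearIsometryEquiv.inner_map_map]
  have h2 := ZonC_deriv n f hf i x
  have h3 : (fun t => zon n (fun y => f (rotv i t y)) x) = fun t => ev p (rotv i t x) := funext h1
  rw [h3] at h2
  have h4 := hasDerivAt_rotv i p x 0
  rw [rotv_zero] at h4
  exact h4.unique h2

end

end Pool.Agent.Lib.MP_dabcc9_gt
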